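import Mathlib

/-!
# Families of lattice paths in the plane which spread linearly
-/

namespace Pool.Agent.Y15

noncomputable section

/-- the links of the plane: base point, and `true` for the vertical ones -/
abbrev Pk := (ℕ × ℕ) × Bool

/-- horizontal runs -/
def hr : ℕ → ℕ → ℕ → List (Pk × Bool)
  | _, 0, _ => []
  | x, k + 1, y => (((x, y), false), true) :: hr (x + 1) k y

/-- vertical runs -/
def vr : ℕ → ℕ → ℕ → List (Pk × Bool)
  | _, _, 0 => []
  | x, y, k + 1 => (((x, y), true), true) :: vr x (y + 1) k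

/-- reversed -/
def rv (w : List (Pk × Bool)) : List (Pk × Bool) := (w.map fun s => (s.1, !s.2)).reverse

/-- mirrored -/
def mir (L : ℕ) (s : Pk × Bool) : Pk × Bool :=
  if s.1.2 then (((L - s.1.1.1, s.1.1.2), true), s.2)
  else (((L - 1 - s.1.1.1, s.1.1.2), false), !s.2)

lemma mem_hr {x k y : ℕ} {s : Pk × Bool} :
    s ∈ hr x k y ↔ ∃ t < k, s = (((x + t, y), false), true) := by
  induction k generalizing x with
  | zero => simp [hr]
  | succ k ih =>
    unfold hr
    rw [List.mem_cons, ih]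
    constructor
    · rintro (h | ⟨t, ht, h⟩)
      · exact ⟨0, Nat.succ_pos _, h⟩
      · refine ⟨t + 1, by omega, ?_⟩
        rw [h]
        have e : x + 1 + t = x + (t + 1) := by omega
        rw [e]
    · rintro ⟨t, ht, h⟩
      rcases Nat.eq_zero_or_pos t with h0 | h0
      · left; rw [h, h0]; rfl
      · right
        refine ⟨t - 1, by omega, ?_⟩
        rw [h]
        have e : x + 1 + (t - 1) = x + t := by omega
        rw [e]

lemma mem_vr {x k y : ℕ} {s : Pk × Bool} :
    s ∈ vr x y k ↔ ∃ t < k, s = (((x, y + t), true), true) := by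
  induction k generalizing y with
  | zero => simp [vr]
  | succ k ih =>
    unfold vr
    rw [List.mem_cons, ih]
    constructor
    · rintro (h | ⟨t, ht, h⟩)
      · exact ⟨0, Nat.succ_pos _, h⟩
      · refine ⟨t + 1, by omega, ?_⟩
        rw [h]
        have e : y + 1 + t = y + (t + 1) := by omega
        rw [e]
    · rintro ⟨t, ht, h⟩
      rcases Nat.eq_zero_or_pos t with h0 | h0
      · left; rw [h, h0]; rfl
      · right
        refine ⟨t - 1, by omega, ?_⟩
        rw [h]
        have e : y + 1 + (t - 1) = y + t := by omega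
        rw [e]

lemma length_hr (x k y : ℕ) : (hr x k y).length = k := by
  induction k generalizing x with
  | zero => rfl
  | succ k ih => unfold hr; rw [List.length_cons, ih]

lemma length_vr (x y k : ℕ) : (vr x y k).length = k := by
  induction k generalizing y with
  | zero => rfl
  | succ k ih => unfold vr; rw [List.length_cons, ih]

lemma length_rv (w : List (Pk × Bool)) : (rv w).length = w.length := by
  unfold rv; rw [List.length_reverse, List.length_map]

lemma rv_fst (w : List (Pk × Bool)) : (rv w).map Prod.fst = (w.map Prod.fst).reverse := by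
  unfold rv
  rw [List.map_reverse, List.map_map]
  rfl

lemma mem_hr' {x k y : ℕ} {e : Pk} (h : e ∈ (hr x k y).map Prod.fst) :
    ∃ t < k, e = ((x + t, y), false) := by
  rw [List.mem_map] at h
  obtain ⟨s, hs, rfl⟩ := h
  obtain ⟨t, ht, rfl⟩ := mem_hr.1 hs
  exact ⟨t, ht, rfl⟩

lemma mem_vr' {x k y : ℕ} {e : Pk} (h : e ∈ (vr x y k).map Prod.fst) :
    ∃ t < k, e = ((x, y + t), true) := by
  rw [List.mem_map] at h
  obtain ⟨s, hs, rfl⟩ := h
  obtain ⟨t, ht, rfl⟩ := mem_vr.1 hs
  exact ⟨t, ht, rfl⟩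

lemma nodup_hr (x k y : ℕ) : ((hr x k y).map Prod.fst).Nodup := by
  induction k generalizing x with
  | zero => exact List.nodup_nil
  | succ k ih =>
    unfold hr
    rw [List.map_cons, List.nodup_cons]
    refine ⟨fun h => ?_, ih _⟩
    obtain ⟨t, ht, h1⟩ := mem_hr' h
    have h2 : x = x + 1 + t := congrArg (fun e : Pk => e.1.1) h1
    omega

lemma nodup_vr (x y k : ℕ) : ((vr x y k).map Prod.fst).Nodup := by
  induction k generalizing y with
  | zero => exact List.nodup_nil
  | succ k ih =>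
    unfold vr
    rw [List.map_cons, List.nodup_cons]
    refine ⟨fun h => ?_, ih _⟩
    obtain ⟨t, ht, h1⟩ := mem_vr' h
    have h2 : y = y + 1 + t := congrArg (fun e : Pk => e.1.2) h1
    omega

/-! ### the paths -/

/-- the spreading path to the point `(X, X)` -/
def st : ℕ → ℕ → List (Pk × Bool)
  | 0, _ => []
  | k + 1, X => st k (X / 2) ++ (hr (X / 2) (X - X / 2) (X / 2) ++ vr X (X / 2) (X - X / 2))

/-- the left end -/
def lf (n X : ℕ) : List (Pk × Bool) :=
  st n (X / 2) ++ (hr (X / 2) (X - X / 2) (X / 2) ++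
    rv (vr X (X - 2 ^ n) (X / 2 - (X - 2 ^ n))))

/-- the whole path -/
def om (n L X : ℕ) : List (Pk × Bool) :=
  lf n X ++ (hr X (L - 2 * X) (X - 2 ^ n) ++ rv ((lf n X).map (mir L)))

lemma div_two_pow (X i : ℕ) : X / 2 / 2 ^ i = X / 2 ^ (i + 1) := by
  rw [Nat.div_div_eq_div_mul, pow_succ, mul_comm]

lemma mem_st {k X : ℕ} {e : Pk} (h : e ∈ (st k X).map Prod.fst) :
    (e.2 = false ∧ (∃ i, X / 2 ^ (i + 1) = e.1.2 ∧ e.1.1 < X / 2 ^ i)) ∨
    (e.2 = true ∧ (∃ i, X / 2 ^ i = e.1.1) ∧ e.1.2 < X ∧ e.1.1 ≤ X) := by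
  induction k generalizing X with
  | zero =>
    unfold st at h
    simp at h
  | succ k ih =>
    unfold st at h
    rw [List.map_append, List.map_append, List.mem_append, List.mem_append] at h
    rcases h with h | h | h
    · rcases ih h with ⟨h1, i, h2, h3⟩ | ⟨h1, ⟨i, h2⟩, h3, h4⟩
      · left
        refine ⟨h1, i + 1, ?_, ?_⟩
        · rw [← div_two_pow]; exact h2
        · rw [← div_two_pow]; exact h3
      · right
        refine ⟨h1, ⟨i + 1, ?_⟩, by omega, by omega⟩
        rw [← div_two_pow]; exact h2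
    · obtain ⟨t, ht, rfl⟩ := mem_hr' h
      left
      refine ⟨rfl, 0, ?_, ?_⟩
      · simp
      · simp only [pow_zero, Nat.div_one]; omega
    · obtain ⟨t, ht, rfl⟩ := mem_vr' h
      right
      refine ⟨rfl, ⟨0, by simp⟩, ?_, ?_⟩
      · simp only; omega
      · simp only; omega

lemma mem_st_lt {k X : ℕ} {e : Pk} (h : e ∈ (st k X).map Prod.fst) :
    (e.2 = false ∧ e.1.1 < X ∧ e.1.2 < X) ∨ (e.2 = true ∧ e.1.1 ≤ X ∧ e.1.2 < X) := by
  rcases mem_st h with ⟨h1, i, h2, h3⟩ | ⟨h1, ⟨i, h2⟩, h3, h4⟩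
  · left
    have h5 : X / 2 ^ i ≤ X := Nat.div_le_self _ _
    refine ⟨h1, by omega, ?_⟩
    rw [← h2]
    refine Nat.div_lt_self (by omega) (Nat.one_lt_two_pow (by omega))
  · right
    exact ⟨h1, h4, h3⟩

lemma mem_lf {n X : ℕ} {e : Pk} (h : e ∈ (lf n X).map Prod.fst) :
    (e.2 = false ∧ (∃ i, X / 2 ^ (i + 1) = e.1.2 ∧ e.1.1 < X / 2 ^ i)) ∨
    (e.2 = true ∧ (∃ i, X / 2 ^ i = e.1.1) ∧ e.1.2 < X ∧ e.1.1 ≤ X) := by
  unfold lf at h
  rw [List.map_append, List.map_append, List.mem_append, List.mem_append] at h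
  rcases h with h | h | h
  · rcases mem_st h with ⟨h1, i, h2, h3⟩ | ⟨h1, ⟨i, h2⟩, h3, h4⟩
    · left
      refine ⟨h1, i + 1, ?_, ?_⟩
      · rw [← div_two_pow]; exact h2
      · rw [← div_two_pow]; exact h3
    · right
      refine ⟨h1, ⟨i + 1, ?_⟩, by omega, by omega⟩
      rw [← div_two_pow]; exact h2
  · obtain ⟨t, ht, rfl⟩ := mem_hr' h
    left
    refine ⟨rfl, 0, ?_, ?_⟩
    · simp
    · simp only [pow_zero, Nat.div_one]; omega
  · rw [rv_fst, List.mem_reverse] at h
    obtain ⟨t, ht, rfl⟩ := mem_vr' h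
    right
    refine ⟨rfl, ⟨0, by simp⟩, ?_, ?_⟩
    · simp only; omega
    · simp only; omega

lemma mem_lf_lt {n X : ℕ} {e : Pk} (h : e ∈ (lf n X).map Prod.fst) :
    (e.2 = false ∧ e.1.1 < X ∧ e.1.2 < X) ∨ (e.2 = true ∧ e.1.1 ≤ X ∧ e.1.2 < X) := by
  rcases mem_lf h with ⟨h1, i, h2, h3⟩ | ⟨h1, ⟨i, h2⟩, h3, h4⟩
  · left
    have h5 : X / 2 ^ i ≤ X := Nat.div_le_self _ _
    refine ⟨h1, by omega, ?_⟩
    rw [← h2]
    refine Nat.div_lt_self (by omega) (Nat.one_lt_two_pow (by omega))
  · right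
    exact ⟨h1, h4, h3⟩

lemma nodup_st (k X : ℕ) : ((st k X).map Prod.fst).Nodup := by
  induction k generalizing X with
  | zero => exact List.nodup_nil
  | succ k ih =>
    unfold st
    rw [List.map_append, List.map_append]
    refine (ih _).append ((nodup_hr _ _ _).append (nodup_vr _ _ _) ?_) ?_
    · intro e h1 h2
      obtain ⟨t, ht, rfl⟩ := mem_hr' h1
      obtain ⟨t', ht', h3⟩ := mem_vr' h2
      exact absurd (congrArg Prod.snd h3) (by simp)
    · intro e h1 h2
      rw [List.mem_append] at h2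
      rcases h2 with h2 | h2
      · obtain ⟨t, ht, rfl⟩ := mem_hr' h2
        rcases mem_st_lt h1 with ⟨-, h3, -⟩ | ⟨h3, -⟩
        · simp only at h3; omega
        · simp at h3
      · obtain ⟨t, ht, rfl⟩ := mem_vr' h2
        rcases mem_st_lt h1 with ⟨h3, -⟩ | ⟨-, h3, -⟩
        · simp at h3
        · simp only at h3; omega

lemma nodup_lf (n X : ℕ) (hX : 1 ≤ X) : ((lf n X).map Prod.fst).Nodup := by
  unfold lf
  rw [List.map_append, List.map_append, rv_fst]
  refine (nodup_st _ _).append ((nodup_hr _ _ _).append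
    (List.nodup_reverse.2 (nodup_vr _ _ _)) ?_) ?_
  · intro e h1 h2
    rw [List.mem_reverse] at h2
    obtain ⟨t, ht, rfl⟩ := mem_hr' h1
    obtain ⟨t', ht', h3⟩ := mem_vr' h2
    exact absurd (congrArg Prod.snd h3) (by simp)
  · intro e h1 h2
    rw [List.mem_append, List.mem_reverse] at h2
    rcases h2 with h2 | h2
    · obtain ⟨t, ht, rfl⟩ := mem_hr' h2
      rcases mem_st_lt h1 with ⟨-, h3, -⟩ | ⟨h3, -⟩
      · simp only at h3; omega
      · simp at h3
    · obtain ⟨t, ht, rfl⟩ := mem_vr' h2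
      rcases mem_st_lt h1 with ⟨h3, -⟩ | ⟨-, h3, -⟩
      · simp at h3
      · simp only at h3; omega

lemma mir_fst (L : ℕ) (w : List (Pk × Bool)) :
    (w.map (mir L)).map Prod.fst = (w.map Prod.fst).map fun e : Pk =>
      if e.2 then ((L - e.1.1, e.1.2), true) else ((L - 1 - e.1.1, e.1.2), false) := by
  rw [List.map_map, List.map_map]
  refine List.map_congr_left fun s hs => ?_
  simp only [Function.comp]
  unfold mir
  split_ifs <;> rfl

lemma mem_mir {n L X : ℕ} {e : Pk} (h : e ∈ ((lf n X).map (mir L)).map Prod.fst) :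
    ∃ e' ∈ (lf n X).map Prod.fst,
      (e'.2 = true ∧ e = ((L - e'.1.1, e'.1.2), true)) ∨
      (e'.2 = false ∧ e = ((L - 1 - e'.1.1, e'.1.2), false)) := by
  rw [mir_fst, List.mem_map] at h
  obtain ⟨e', he', h1⟩ := h
  refine ⟨e', he', ?_⟩
  cases h2 : e'.2
  · right
    rw [h2] at h1
    exact ⟨rfl, h1.symm⟩
  · left
    rw [h2] at h1
    exact ⟨rfl, h1.symm⟩

lemma nodup_om {n L X : ℕ} (hX : 1 ≤ X) (hL : 2 * X < L) : ((om n L X).map Prod.fst).Nodup := by
  unfold om
  rw [List.map_append, List.map_append, rv_fst]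
  have hmir : (((lf n X).map (mir L)).map Prod.fst).Nodup := by
    rw [mir_fst]
    refine List.Nodup.map_on (fun e he e' he' h => ?_) (nodup_lf n X hX)
    have h1 := mem_lf_lt he
    have h2 := mem_lf_lt he'
    obtain ⟨⟨x, y⟩, b⟩ := e
    obtain ⟨⟨x', y'⟩, b'⟩ := e'
    cases b <;> cases b' <;> (simp at h1 h2 h ⊢; try omega)
  refine (nodup_lf n X hX).append ((nodup_hr _ _ _).append (List.nodup_reverse.2 hmir) ?_) ?_
  · intro e h1 h2
    rw [List.mem_reverse] at h2
    obtain ⟨t, ht, rfl⟩ := mem_hr' h1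
    obtain ⟨⟨⟨x', y'⟩, b'⟩, he', h3⟩ := mem_mir h2
    have h4 := mem_lf_lt he'
    cases b' <;> simp at h3 h4 <;> omega
  · intro e h1 h2
    rw [List.mem_append, List.mem_reverse] at h2
    rcases h2 with h2 | h2
    · obtain ⟨t, ht, rfl⟩ := mem_hr' h2
      rcases mem_lf_lt h1 with ⟨-, h3, -⟩ | ⟨h3, -⟩
      · simp only at h3; omega
      · simp at h3
    · obtain ⟨⟨⟨x', y'⟩, b'⟩, he', h3⟩ := mem_mir h2
      have h4 := mem_lf_lt he'
      have h5 := mem_lf_lt h1
      obtain ⟨⟨x, y⟩, b⟩ := e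
      cases b' <;> cases b <;> simp at h3 h4 h5 <;> omega

/-- the range of the coordinates -/
lemma om_range {n L X : ℕ} (hL : 2 * X < L) {e : Pk} (h : e ∈ (om n L X).map Prod.fst) :
    e.1.1 ≤ L ∧ e.1.2 ≤ L := by
  unfold om at h
  rw [List.map_append, List.map_append, rv_fst, List.mem_append, List.mem_append,
    List.mem_reverse] at h
  rcases h with h | h | h
  · rcases mem_lf_lt h with ⟨-, h3, h4⟩ | ⟨-, h3, h4⟩ <;> omega
  · obtain ⟨t, ht, rfl⟩ := mem_hr' h
    have h3 : X - 2 ^ n ≤ X := Nat.sub_le _ _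
    constructor
    · simp only; omega
    · simp only
      generalize X - 2 ^ n = y at h3 ⊢
      omega
  · obtain ⟨⟨⟨x', y'⟩, b'⟩, he', h3⟩ := mem_mir h
    have h4 := mem_lf_lt he'
    obtain ⟨⟨x, y⟩, b⟩ := e
    cases b' <;> simp at h3 h4 ⊢ <;> omega

lemma length_st (k X : ℕ) : (st k X).length ≤ 2 * X := by
  induction k generalizing X with
  | zero => unfold st; simp
  | succ k ih =>
    unfold st
    rw [List.length_append, List.length_append, length_hr, length_vr]
    have := ih (X / 2)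
    omega

lemma length_lf (n X : ℕ) : (lf n X).length ≤ 2 * X := by
  unfold lf
  rw [List.length_append, List.length_append, length_hr, length_rv, length_vr]
  have := length_st n (X / 2)
  omega

lemma length_om {n L X : ℕ} (hL : 2 * X < L) : (om n L X).length ≤ 3 * L := by
  unfold om
  rw [List.length_append, List.length_append, length_hr, length_rv, List.length_map]
  have := length_lf n X
  omega

end

end Pool.Agent.Y15
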