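import Mathlib
import Pool.Agent.Y15.Plane

/-!
# Counting the paths through a link
-/

namespace Pool.Agent.Y15

noncomputable section

open Classical in
/-- the indices of which `y` is an ancestor -/
def An (n y : ℕ) : Finset (Fin (2 ^ n)) :=
  Finset.univ.filter fun i => ∃ s, (2 ^ n + i.val) / 2 ^ s = y

lemma mem_An {n y : ℕ} {i : Fin (2 ^ n)} : i ∈ An n y ↔ ∃ s, (2 ^ n + i.val) / 2 ^ s = y := by
  classical
  unfold An
  rw [Finset.mem_filter]
  exact ⟨fun h => h.2, fun h => ⟨Finset.mem_univ _, h⟩⟩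

lemma card_An (n y : ℕ) : (An n y).card * (y + 1) ≤ 2 ^ (n + 1) := by
  rcases Nat.eq_zero_or_pos y with h0 | h0
  · subst h0
    have h1 : (An n 0).card ≤ 2 ^ n := by
      have := Finset.card_le_univ (An n 0)
      rwa [Fintype.card_fin] at this
    rw [pow_succ]
    omega
  obtain ⟨q, hq⟩ : ∃ q, q = Nat.log 2 y := ⟨_, rfl⟩
  have h1 : 2 ^ q ≤ y := by rw [hq]; exact Nat.pow_log_le_self 2 (by omega)
  have h2 : y < 2 ^ (q + 1) := by rw [hq]; exact Nat.lt_pow_succ_log_self (by norm_num) y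
  have key : ∀ i : Fin (2 ^ n), ∀ s, (2 ^ n + i.val) / 2 ^ s = y →
      q + s = n ∧ y * 2 ^ s ≤ 2 ^ n + i.val ∧ 2 ^ n + i.val < (y + 1) * 2 ^ s := by
    intro i s hs
    have hi := i.isLt
    have hs0 : 0 < 2 ^ s := by positivity
    have h3 : y * 2 ^ s ≤ 2 ^ n + i.val := by rw [← hs]; exact Nat.div_mul_le_self _ _
    have h4 : 2 ^ n + i.val < (y + 1) * 2 ^ s := by
      rw [← hs]
      have := Nat.lt_mul_div_succ (2 ^ n + i.val) hs0
      rwa [mul_comm] at this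
    refine ⟨?_, h3, h4⟩
    have h5 : 2 ^ n < 2 ^ (q + 1 + s) := by
      calc 2 ^ n ≤ 2 ^ n + i.val := Nat.le_add_right _ _
        _ < (y + 1) * 2 ^ s := h4
        _ ≤ 2 ^ (q + 1) * 2 ^ s := Nat.mul_le_mul_right _ h2
        _ = _ := (pow_add _ _ _).symm
    have h6 : 2 ^ (q + s) < 2 ^ (n + 1) := by
      calc 2 ^ (q + s) = 2 ^ q * 2 ^ s := pow_add _ _ _
        _ ≤ y * 2 ^ s := Nat.mul_le_mul_right _ h1
        _ ≤ 2 ^ n + i.val := h3
        _ < 2 ^ n + 2 ^ n := by omega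
        _ = 2 ^ (n + 1) := by rw [pow_succ]; ring
    have h7 := (Nat.pow_lt_pow_iff_right (by norm_num : 1 < 2)).1 h5
    have h8 := (Nat.pow_lt_pow_iff_right (by norm_num : 1 < 2)).1 h6
    omega
  rcases (An n y).eq_empty_or_nonempty with he | ⟨i0, hi0⟩
  · rw [he, Finset.card_empty, zero_mul]; positivity
  obtain ⟨s, hs⟩ := mem_An.1 hi0
  obtain ⟨hqs, -, -⟩ := key i0 s hs
  have h3 : (An n y).card ≤ 2 ^ s := by
    have h4 : (An n y).card ≤ (Finset.Ico (y * 2 ^ s) ((y + 1) * 2 ^ s)).card := by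
      refine Finset.card_le_card_of_injOn (fun i => 2 ^ n + i.val) ?_ ?_
      · intro i hi
        obtain ⟨s', hs'⟩ := mem_An.1 hi
        obtain ⟨h5, h6, h7⟩ := key i s' hs'
        have : s' = s := by omega
        subst this
        rw [Finset.coe_Ico, Set.mem_Ico]
        exact ⟨h6, h7⟩
      · intro i _ i' _ h
        simp only at h
        exact Fin.ext (by omega)
    rw [Nat.card_Ico] at h4
    have : (y + 1) * 2 ^ s - y * 2 ^ s = 2 ^ s := by
      rw [Nat.add_mul, one_mul]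
      exact Nat.add_sub_cancel_left _ _
    rwa [this] at h4
  calc (An n y).card * (y + 1) ≤ 2 ^ s * 2 ^ (q + 1) := Nat.mul_le_mul h3 h2
    _ = 2 ^ (s + (q + 1)) := (pow_add _ _ _).symm
    _ = 2 ^ (n + 1) := by congr 1; omega

/-- the share of the paths through a link -/
def pr (n L : ℕ) (e : Pk) : ℝ :=
  ∑ i : Fin (2 ^ n), if e ∈ (om n L (2 ^ n + i.val)).map Prod.fst then (1 / 2 ^ n : ℝ) else 0

lemma pr_le {n L : ℕ} {e : Pk} {A : Finset (Fin (2 ^ n))}
    (h : ∀ i : Fin (2 ^ n), e ∈ (om n L (2 ^ n + i.val)).map Prod.fst → i ∈ A) :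
    pr n L e ≤ A.card / 2 ^ n := by
  unfold pr
  rw [← Finset.sum_filter, Finset.sum_const, nsmul_eq_mul, mul_one_div]
  refine div_le_div_of_nonneg_right ?_ (by positivity)
  exact_mod_cast Finset.card_le_card fun i hi => h i (Finset.mem_filter.1 hi).2

lemma An_le (n y : ℕ) : ((An n y).card : ℝ) / 2 ^ n ≤ 2 / (y + 1) := by
  rw [div_le_div_iff₀ (by positivity) (by positivity)]
  have h := card_An n y
  have h1 : (((An n y).card * (y + 1) : ℕ) : ℝ) ≤ ((2 ^ (n + 1) : ℕ) : ℝ) := by exact_mod_cast h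
  push_cast at h1
  rw [pow_succ] at h1
  linarith

/-- the cases of the membership -/
lemma om_cases {n L X : ℕ} {e : Pk} (h : e ∈ (om n L X).map Prod.fst) :
    (e.2 = false ∧ ((∃ i, X / 2 ^ (i + 1) = e.1.2 ∧ e.1.1 < X / 2 ^ i) ∨
      (e.1.2 = X - 2 ^ n ∧ X ≤ e.1.1) ∨
      (∃ i x', X / 2 ^ (i + 1) = e.1.2 ∧ x' < X / 2 ^ i ∧ e.1.1 = L - 1 - x'))) ∨
    (e.2 = true ∧ ((∃ i, X / 2 ^ i = e.1.1) ∨
      ∃ i x', X / 2 ^ i = x' ∧ e.1.1 = L - x' ∧ x' ≤ X)) := by
  unfold om at h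
  rw [List.map_append, List.map_append, rv_fst, List.mem_append, List.mem_append,
    List.mem_reverse] at h
  rcases h with h | h | h
  · rcases mem_lf h with ⟨h1, h2⟩ | ⟨h1, h2, -⟩
    · exact Or.inl ⟨h1, Or.inl h2⟩
    · exact Or.inr ⟨h1, Or.inl h2⟩
  · obtain ⟨t, ht, rfl⟩ := mem_hr' h
    exact Or.inl ⟨rfl, Or.inr (Or.inl ⟨rfl, by simp⟩)⟩
  · obtain ⟨e', he', h3⟩ := mem_mir h
    rcases h3 with ⟨h4, rfl⟩ | ⟨h4, rfl⟩
    · rcases mem_lf he' with ⟨h1, -⟩ | ⟨-, ⟨i, h2⟩, h5, h6⟩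
      · rw [h4] at h1; exact absurd h1 (by simp)
      · exact Or.inr ⟨rfl, Or.inr ⟨i, _, h2, rfl, h6⟩⟩
    · rcases mem_lf he' with ⟨-, i, h2, h5⟩ | ⟨h1, -⟩
      · exact Or.inl ⟨rfl, Or.inr (Or.inr ⟨i, _, h2, h5, rfl⟩)⟩
      · rw [h4] at h1; exact absurd h1 (by simp)

lemma pr_H {n L : ℕ} (x y : ℕ) (hy : y < 2 ^ n) : pr n L ((x, y), false) ≤ 3 / (y + 1) := by
  have h1 : pr n L ((x, y), false) ≤
      ((An n y ∪ Finset.univ.filter fun i : Fin (2 ^ n) => i.val = y).card : ℝ) / 2 ^ n := by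
    refine pr_le fun i hi => ?_
    rw [Finset.mem_union, mem_An, Finset.mem_filter]
    rcases om_cases hi with ⟨-, ⟨j, h2, -⟩ | ⟨h2, -⟩ | ⟨j, x', h2, -⟩⟩ | ⟨h2, -⟩
    · exact Or.inl ⟨j + 1, h2⟩
    · refine Or.inr ⟨Finset.mem_univ _, ?_⟩
      simp only at h2
      omega
    · exact Or.inl ⟨j + 1, h2⟩
    · exact absurd h2 (by simp)
  have h2 : (Finset.univ.filter fun i : Fin (2 ^ n) => i.val = y).card ≤ 1 :=
    Finset.card_le_one.2 fun a ha b hb => Fin.ext (by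
      rw [(Finset.mem_filter.1 ha).2, (Finset.mem_filter.1 hb).2])
  have h3 := Finset.card_union_le (An n y) (Finset.univ.filter fun i : Fin (2 ^ n) => i.val = y)
  have h4 : ((An n y ∪ Finset.univ.filter fun i : Fin (2 ^ n) => i.val = y).card : ℝ) ≤
      (An n y).card + 1 := by exact_mod_cast h3.trans (Nat.add_le_add_left h2 _)
  have h5 := An_le n y
  have h6 : (1 : ℝ) / 2 ^ n ≤ 1 / (y + 1) := by
    refine div_le_div_of_nonneg_left (by norm_num) (by positivity) ?_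
    exact_mod_cast hy
  calc _ ≤ _ := h1
    _ ≤ ((An n y).card + 1 : ℝ) / 2 ^ n := div_le_div_of_nonneg_right h4 (by positivity)
    _ = (An n y).card / 2 ^ n + 1 / 2 ^ n := add_div _ _ _
    _ ≤ 2 / (y + 1) + 1 / (y + 1) := add_le_add h5 h6
    _ = _ := by ring

lemma pr_V {n L : ℕ} (x y : ℕ) (hL : 2 ^ (n + 2) ≤ L) :
    pr n L ((x, y), true) ≤ 2 / (x + 1) + 2 / ((L - x : ℕ) + 1) := by
  have h1 : pr n L ((x, y), true) ≤ ((An n x ∪ An n (L - x)).card : ℝ) / 2 ^ n := by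
    refine pr_le fun i hi => ?_
    rw [Finset.mem_union, mem_An, mem_An]
    rcases om_cases hi with ⟨h2, -⟩ | ⟨-, ⟨j, h2⟩ | ⟨j, x', h2, h3, h4⟩⟩
    · exact absurd h2 (by simp)
    · exact Or.inl ⟨j, h2⟩
    · refine Or.inr ⟨j, ?_⟩
      rw [h2]
      simp only at h3
      have hi := i.isLt
      rw [pow_add] at hL
      omega
  have h3 := Finset.card_union_le (An n x) (An n (L - x))
  have h4 : ((An n x ∪ An n (L - x)).card : ℝ) ≤ (An n x).card + (An n (L - x)).card := by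
    exact_mod_cast h3
  calc _ ≤ _ := h1
    _ ≤ ((An n x).card + (An n (L - x)).card : ℝ) / 2 ^ n :=
        div_le_div_of_nonneg_right h4 (by positivity)
    _ = (An n x).card / 2 ^ n + (An n (L - x)).card / 2 ^ n := add_div _ _ _
    _ ≤ _ := add_le_add (An_le n x) (An_le n (L - x))

lemma pr_V1 {n L : ℕ} (x y : ℕ) (hL : 2 ^ (n + 2) ≤ L) (hx : 2 * x ≤ L) :
    pr n L ((x, y), true) ≤ 4 / (x + 1) := by
  refine (pr_V x y hL).trans ?_
  have h1 : (2 : ℝ) / ((L - x : ℕ) + 1) ≤ 2 / (x + 1) := by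
    refine div_le_div_of_nonneg_left (by norm_num) (by positivity) ?_
    have : (x : ℝ) ≤ ((L - x : ℕ) : ℝ) := by exact_mod_cast (by omega : x ≤ L - x)
    linarith
  calc _ ≤ (2 : ℝ) / (x + 1) + 2 / (x + 1) := add_le_add_right h1 _
    _ = _ := by ring

lemma pr_V2 {n L : ℕ} (x y : ℕ) (hL : 2 ^ (n + 2) ≤ L) (hx : 2 * x ≤ L) :
    pr n L ((L - x, y), true) ≤ 4 / (x + 1) := by
  refine (pr_V (L - x) y hL).trans ?_
  have h2 : L - (L - x) = x := by omega
  rw [h2]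
  have h1 : (2 : ℝ) / ((L - x : ℕ) + 1) ≤ 2 / (x + 1) := by
    refine div_le_div_of_nonneg_left (by norm_num) (by positivity) ?_
    have : (x : ℝ) ≤ ((L - x : ℕ) : ℝ) := by exact_mod_cast (by omega : x ≤ L - x)
    linarith
  calc _ ≤ (2 : ℝ) / (x + 1) + 2 / (x + 1) := add_le_add_left h1 _
    _ = _ := by ring

lemma pr_L {n L : ℕ} (x y : ℕ) (hy : y < 2 ^ n) (hx : y + 2 ^ n ≤ x)
    (hx' : x + 1 + (y + 2 ^ n) ≤ L) : pr n L ((x, y), false) ≤ 1 / 2 ^ n := by
  have h1 : pr n L ((x, y), false) ≤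
      ((Finset.univ.filter fun i : Fin (2 ^ n) => i.val = y).card : ℝ) / 2 ^ n := by
    refine pr_le fun i hi => ?_
    rw [Finset.mem_filter]
    refine ⟨Finset.mem_univ _, ?_⟩
    have half : ∀ j, (2 ^ n + i.val) / 2 ^ (j + 1) = y → (2 ^ n + i.val) / 2 ^ j ≤ 2 * y + 1 := by
      intro j hj
      rw [pow_succ, ← Nat.div_div_eq_div_mul] at hj
      omega
    rcases om_cases hi with ⟨-, ⟨j, h2, h3⟩ | ⟨h2, -⟩ | ⟨j, x', h2, h3, h4⟩⟩ | ⟨h2, -⟩
    · have := half j h2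
      simp only at h3
      omega
    · simp only at h2
      omega
    · have := half j h2
      simp only at h4
      omega
    · exact absurd h2 (by simp)
  have h2 : (Finset.univ.filter fun i : Fin (2 ^ n) => i.val = y).card ≤ 1 :=
    Finset.card_le_one.2 fun a ha b hb => Fin.ext (by
      rw [(Finset.mem_filter.1 ha).2, (Finset.mem_filter.1 hb).2])
  refine h1.trans (div_le_div_of_nonneg_right ?_ (by positivity))
  exact_mod_cast h2

/-! ### sums along the paths -/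

/-- the sum along a path -/
def sm (p : Pk → ℝ) (w : List (Pk × Bool)) : ℝ := (w.map fun s => p s.1).sum

lemma sm_append (p : Pk → ℝ) (w w' : List (Pk × Bool)) : sm p (w ++ w') = sm p w + sm p w' := by
  unfold sm
  rw [List.map_append, List.sum_append]

lemma sm_rv (p : Pk → ℝ) (w : List (Pk × Bool)) : sm p (rv w) = sm p w := by
  unfold sm rv
  rw [List.map_reverse, List.sum_reverse, List.map_map]
  rfl

lemma sm_hr {p : Pk → ℝ} {x k y : ℕ} {c : ℝ} (h : ∀ t < k, p ((x + t, y), false) ≤ c) :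
    sm p (hr x k y) ≤ k * c := by
  induction k generalizing x with
  | zero => unfold hr sm; simp
  | succ k ih =>
    unfold hr sm
    rw [List.map_cons, List.sum_cons]
    have h1 := ih (x := x + 1) fun t ht => by
      have := h (t + 1) (by omega)
      have e : x + (t + 1) = x + 1 + t := by omega
      rwa [e] at this
    have h2 := h 0 (by omega)
    rw [add_zero] at h2
    unfold sm at h1
    push_cast
    linarith

lemma sm_vr {p : Pk → ℝ} {x k y : ℕ} {c : ℝ} (h : ∀ t < k, p ((x, y + t), true) ≤ c) :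
    sm p (vr x y k) ≤ k * c := by
  induction k generalizing y with
  | zero => unfold vr sm; simp
  | succ k ih =>
    unfold vr sm
    rw [List.map_cons, List.sum_cons]
    have h1 := ih (y := y + 1) fun t ht => by
      have := h (t + 1) (by omega)
      have e : y + (t + 1) = y + 1 + t := by omega
      rwa [e] at this
    have h2 := h 0 (by omega)
    rw [add_zero] at h2
    unfold sm at h1
    push_cast
    linarith

lemma sm_st {p : Pk → ℝ} {n M : ℕ}
    (hH : ∀ x y, x < M → y < 2 ^ n → p ((x, y), false) ≤ 3 / (y + 1))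
    (hV : ∀ x y, x ≤ M → p ((x, y), true) ≤ 4 / (x + 1)) (k X : ℕ) (hX : X < 2 ^ (n + 1))
    (hXM : X ≤ M) : sm p (st k X) ≤ 7 * k := by
  induction k generalizing X with
  | zero => unfold st sm; simp
  | succ k ih =>
    unfold st
    rw [sm_append, sm_append]
    have h1 := ih (X / 2) (by omega) (by omega)
    rw [pow_succ] at hX
    have h2 := sm_hr (p := p) (x := X / 2) (k := X - X / 2) (y := X / 2)
      (c := 3 / ((X / 2 : ℕ) + 1)) fun t ht => hH _ _ (by omega) (by omega)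
    have h3 := sm_vr (p := p) (x := X) (k := X - X / 2) (y := X / 2)
      (c := 4 / (X + 1)) fun t ht => hV _ _ hXM
    have h4 : ((X - X / 2 : ℕ) : ℝ) * (3 / ((X / 2 : ℕ) + 1)) ≤ 3 := by
      rw [← mul_div_assoc, div_le_iff₀ (by positivity)]
      have : ((X - X / 2 : ℕ) : ℝ) ≤ ((X / 2 : ℕ) : ℝ) + 1 := by
        exact_mod_cast (by omega : X - X / 2 ≤ X / 2 + 1)
      linarith
    have h5 : ((X - X / 2 : ℕ) : ℝ) * (4 / (X + 1)) ≤ 4 := by
      rw [← mul_div_assoc, div_le_iff₀ (by positivity)]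
      have : ((X - X / 2 : ℕ) : ℝ) ≤ (X : ℝ) := by exact_mod_cast Nat.sub_le _ _
      linarith
    push_cast
    linarith

lemma sm_lf {p : Pk → ℝ} {n M : ℕ}
    (hH : ∀ x y, x < M → y < 2 ^ n → p ((x, y), false) ≤ 3 / (y + 1))
    (hV : ∀ x y, x ≤ M → p ((x, y), true) ≤ 4 / (x + 1)) (X : ℕ) (hX : X < 2 ^ (n + 1))
    (hXM : X ≤ M) : sm p (lf n X) ≤ 7 * (n + 1) := by
  unfold lf
  rw [sm_append, sm_append, sm_rv]
  have h1 := sm_st hH hV n (X / 2) (by omega) (by omega)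
  rw [pow_succ] at hX
  have h2 := sm_hr (p := p) (x := X / 2) (k := X - X / 2) (y := X / 2)
    (c := 3 / ((X / 2 : ℕ) + 1)) fun t ht => hH _ _ (by omega) (by omega)
  have h3 := sm_vr (p := p) (x := X) (k := X / 2 - (X - 2 ^ n)) (y := X - 2 ^ n)
    (c := 4 / (X + 1)) fun t ht => hV _ _ hXM
  have h4 : ((X - X / 2 : ℕ) : ℝ) * (3 / ((X / 2 : ℕ) + 1)) ≤ 3 := by
    rw [← mul_div_assoc, div_le_iff₀ (by positivity)]
    have : ((X - X / 2 : ℕ) : ℝ) ≤ ((X / 2 : ℕ) : ℝ) + 1 := by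
      exact_mod_cast (by omega : X - X / 2 ≤ X / 2 + 1)
    linarith
  have h5 : ((X / 2 - (X - 2 ^ n) : ℕ) : ℝ) * (4 / (X + 1)) ≤ 4 := by
    rw [← mul_div_assoc, div_le_iff₀ (by positivity)]
    have : ((X / 2 - (X - 2 ^ n) : ℕ) : ℝ) ≤ (X : ℝ) := by
      exact_mod_cast (by omega : X / 2 - (X - 2 ^ n) ≤ X)
    linarith
  linarith

lemma sm_map_mir (p : Pk → ℝ) (L : ℕ) (w : List (Pk × Bool)) :
    sm p (w.map (mir L)) = sm (fun e => p (if e.2 then ((L - e.1.1, e.1.2), true) else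
      ((L - 1 - e.1.1, e.1.2), false))) w := by
  unfold sm
  rw [List.map_map]
  congr 1
  refine List.map_congr_left fun s hs => ?_
  simp only [Function.comp]
  unfold mir
  split_ifs <;> rfl

/-- **The sum of the shares along a path.** -/
theorem sm_om {n L X : ℕ} (hX0 : 2 ^ n ≤ X) (hX : X < 2 ^ (n + 1)) (hL : 2 ^ (n + 2) ≤ L) :
    sm (pr n L) (om n L X) ≤ 14 * (n + 1) + L / 2 ^ n := by
  unfold om
  rw [sm_append, sm_append, sm_rv, sm_map_mir]
  have hXL : 2 * X < L := by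
    have : 2 ^ (n + 2) = 2 ^ (n + 1) * 2 := by rw [pow_succ]
    omega
  have h1 := sm_lf (p := pr n L) (n := n) (M := X) (fun x y _ hy => pr_H x y hy)
    (fun x y hx => pr_V1 x y hL (by omega)) X hX le_rfl
  have h2 := sm_lf (p := fun e => pr n L (if e.2 then ((L - e.1.1, e.1.2), true) else
      ((L - 1 - e.1.1, e.1.2), false))) (n := n) (M := X) (fun x y _ hy => pr_H _ y hy)
    (fun x y hx => pr_V2 x y hL (by omega)) X hX le_rfl
  have h3 := sm_hr (p := pr n L) (x := X) (k := L - 2 * X) (y := X - 2 ^ n)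
    (c := 1 / 2 ^ n) fun t ht => pr_L _ _ (by rw [pow_succ] at hX; omega) (by omega) (by omega)
  have h4 : ((L - 2 * X : ℕ) : ℝ) * (1 / 2 ^ n) ≤ L / 2 ^ n := by
    rw [mul_one_div]
    refine div_le_div_of_nonneg_right ?_ (by positivity)
    exact_mod_cast Nat.sub_le _ _
  linarith

end

end Pool.Agent.Y15
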