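import Mathlib

/-!
# Gaussian averages on finite products of the line
-/

open MeasureTheory

namespace Pool.Agent.Y15

set_option linter.unusedSectionVars false
set_option linter.unusedVariables false

noncomputable section

variable {κ : Type*} [Fintype κ]

/-- the Gaussian weight -/
def gw (b : ℝ) (h : κ → ℝ) : ℝ := Real.exp (-(b * ∑ i, h i ^ 2))

lemma gw_pos (b : ℝ) (h : κ → ℝ) : 0 < gw b h := Real.exp_pos _

lemma gw_eq (b : ℝ) (h : κ → ℝ) : gw b h = ∏ i, Real.exp (-(b * h i ^ 2)) := by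
  unfold gw
  rw [← Real.exp_sum, Finset.mul_sum, ← Finset.sum_neg_distrib]

lemma gw_cont (b : ℝ) : Continuous (gw b : (κ → ℝ) → ℝ) := by
  unfold gw
  fun_prop

/-- continuous functions of exponential growth -/
def EG (f : (κ → ℝ) → ℝ) : Prop :=
  Continuous f ∧ ∃ A C : ℝ, 0 ≤ A ∧ 0 ≤ C ∧ ∀ h, |f h| ≤ C * Real.exp (A * ∑ i, |h i|)

lemma EG.cont {f : (κ → ℝ) → ℝ} (hf : EG f) : Continuous f := hf.1

lemma EG.const (c : ℝ) : EG (fun _ : κ → ℝ => c) :=
  ⟨continuous_const, 0, |c|, le_rfl, abs_nonneg _, fun h => by simp⟩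

lemma EG.coord (i : κ) : EG (fun h : κ → ℝ => h i) := by
  refine ⟨continuous_apply i, 1, 1, zero_le_one, zero_le_one, fun h => ?_⟩
  rw [one_mul, one_mul]
  have h1 : |h i| ≤ ∑ j, |h j| :=
    Finset.single_le_sum (f := fun j => |h j|) (fun _ _ => abs_nonneg _) (Finset.mem_univ i)
  have h2 := Real.add_one_le_exp (∑ j, |h j|)
  linarith

lemma EG.add {f g : (κ → ℝ) → ℝ} (hf : EG f) (hg : EG g) : EG (fun h => f h + g h) := by
  obtain ⟨cf, A, C, hA, hC, h1⟩ := hf
  obtain ⟨cg, A', C', hA', hC', h2⟩ := hg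
  refine ⟨cf.add cg, A + A', C + C', by positivity, by positivity, fun h => ?_⟩
  have hS : 0 ≤ ∑ i, |h i| := Finset.sum_nonneg fun _ _ => abs_nonneg _
  have e1 : Real.exp (A * ∑ i, |h i|) ≤ Real.exp ((A + A') * ∑ i, |h i|) :=
    Real.exp_le_exp.2 (mul_le_mul_of_nonneg_right (by linarith) hS)
  have e2 : Real.exp (A' * ∑ i, |h i|) ≤ Real.exp ((A + A') * ∑ i, |h i|) :=
    Real.exp_le_exp.2 (mul_le_mul_of_nonneg_right (by linarith) hS)
  calc |f h + g h| ≤ |f h| + |g h| := abs_add_le _ _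
    _ ≤ C * Real.exp ((A + A') * ∑ i, |h i|) + C' * Real.exp ((A + A') * ∑ i, |h i|) :=
        add_le_add ((h1 h).trans (mul_le_mul_of_nonneg_left e1 hC))
          ((h2 h).trans (mul_le_mul_of_nonneg_left e2 hC'))
    _ = _ := by ring

lemma EG.mul {f g : (κ → ℝ) → ℝ} (hf : EG f) (hg : EG g) : EG (fun h => f h * g h) := by
  obtain ⟨cf, A, C, hA, hC, h1⟩ := hf
  obtain ⟨cg, A', C', hA', hC', h2⟩ := hg
  refine ⟨cf.mul cg, A + A', C * C', by positivity, by positivity, fun h => ?_⟩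
  rw [abs_mul, add_mul, Real.exp_add]
  calc |f h| * |g h| ≤ (C * Real.exp (A * ∑ i, |h i|)) * (C' * Real.exp (A' * ∑ i, |h i|)) :=
        mul_le_mul (h1 h) (h2 h) (abs_nonneg _) (mul_nonneg hC (Real.exp_pos _).le)
    _ = _ := by ring

lemma EG.cmul {f : (κ → ℝ) → ℝ} (c : ℝ) (hf : EG f) : EG (fun h => c * f h) :=
  (EG.const c).mul hf

lemma EG.neg {f : (κ → ℝ) → ℝ} (hf : EG f) : EG (fun h => -f h) := by
  have := hf.cmul (-1)
  simpa using this

lemma EG.sub {f g : (κ → ℝ) → ℝ} (hf : EG f) (hg : EG g) : EG (fun h => f h - g h) := by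
  have := hf.add hg.neg
  simpa [sub_eq_add_neg] using this

lemma EG.sq {f : (κ → ℝ) → ℝ} (hf : EG f) : EG (fun h => f h ^ 2) := by
  have := hf.mul hf
  simpa [pow_two] using this

lemma EG.sum {ι : Type*} (s : Finset ι) {f : ι → (κ → ℝ) → ℝ} (hf : ∀ i ∈ s, EG (f i)) :
    EG (fun h => ∑ i ∈ s, f i h) := by
  classical
  induction s using Finset.induction_on with
  | empty => simpa using EG.const 0
  | insert a s ha ih =>
    simp only [Finset.sum_insert ha]
    exact (hf a (Finset.mem_insert_self _ _)).add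
      (ih fun i hi => hf i (Finset.mem_insert_of_mem hi))

/-- affine changes of variables with bounded coefficients -/
lemma EG.comp {κ' : Type*} [Fintype κ'] {f : (κ' → ℝ) → ℝ} (hf : EG f) {φ : (κ → ℝ) → (κ' → ℝ)}
    (hφ : Continuous φ) {B D : ℝ} (hB : 0 ≤ B) (hb : ∀ h, ∑ i, |φ h i| ≤ B * ∑ i, |h i| + D) :
    EG (fun h => f (φ h)) := by
  obtain ⟨cf, A, C, hA, hC, h1⟩ := hf
  refine ⟨cf.comp hφ, A * B, C * Real.exp (A * D), by positivity,
    mul_nonneg hC (Real.exp_pos _).le, fun h => ?_⟩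
  have h2 : A * ∑ i, |φ h i| ≤ A * D + A * B * ∑ i, |h i| := by
    have := mul_le_mul_of_nonneg_left (hb h) hA
    linarith
  calc |f (φ h)| ≤ C * Real.exp (A * ∑ i, |φ h i|) := h1 _
    _ ≤ C * Real.exp (A * D + A * B * ∑ i, |h i|) :=
        mul_le_mul_of_nonneg_left (Real.exp_le_exp.2 h2) hC
    _ = _ := by rw [Real.exp_add]; ring

lemma int1 {A b : ℝ} (hb : 0 < b) :
    Integrable fun t : ℝ => Real.exp (A * |t|) * Real.exp (-(b * t ^ 2)) := by
  have h1 : Integrable fun t : ℝ => Real.exp (A ^ 2 / (2 * b)) * Real.exp (-(b / 2) * t ^ 2) :=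
    (integrable_exp_neg_mul_sq (by positivity : 0 < b / 2)).const_mul _
  refine h1.mono' ?_ (Filter.Eventually.of_forall fun t => ?_)
  · exact (by fun_prop : Continuous fun t : ℝ =>
      Real.exp (A * |t|) * Real.exp (-(b * t ^ 2))).aestronglyMeasurable
  · rw [Real.norm_eq_abs, abs_of_pos (by positivity), ← Real.exp_add, ← Real.exp_add]
    refine Real.exp_le_exp.2 ?_
    have h2 : |t| ^ 2 = t ^ 2 := sq_abs t
    have h3 : 0 ≤ (A - b * |t|) ^ 2 := sq_nonneg _
    have h4 : A ^ 2 / (2 * b) + -(b / 2) * t ^ 2 - (A * |t| + -(b * t ^ 2)) =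
        (A - b * |t|) ^ 2 / (2 * b) := by
      rw [← h2]; field_simp; ring
    have h5 : 0 ≤ (A - b * |t|) ^ 2 / (2 * b) := by positivity
    linarith

lemma intA {b : ℝ} (hb : 0 < b) (A : ℝ) :
    Integrable fun h : κ → ℝ => Real.exp (A * ∑ i, |h i|) * gw b h := by
  have h1 : (fun h : κ → ℝ => Real.exp (A * ∑ i, |h i|) * gw b h) =
      fun h => ∏ i, (Real.exp (A * |h i|) * Real.exp (-(b * h i ^ 2))) := by
    funext h
    rw [Finset.prod_mul_distrib, gw_eq, ← Real.exp_sum Finset.univ (fun i => A * |h i|),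
      Finset.mul_sum]
  rw [h1]
  exact Integrable.fintype_prod (f := fun (_ : κ) (t : ℝ) =>
    Real.exp (A * |t|) * Real.exp (-(b * t ^ 2))) fun _ => int1 hb

lemma EG.int {f : (κ → ℝ) → ℝ} (hf : EG f) {b : ℝ} (hb : 0 < b) :
    Integrable fun h : κ → ℝ => f h * gw b h := by
  obtain ⟨cf, A, C, hA, hC, h1⟩ := hf
  refine ((intA hb A).const_mul C).mono' (cf.mul (gw_cont b)).aestronglyMeasurable
    (Filter.Eventually.of_forall fun h => ?_)
  rw [norm_mul, Real.norm_eq_abs, Real.norm_eq_abs, abs_of_pos (gw_pos b h), ← mul_assoc]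
  exact mul_le_mul_of_nonneg_right (h1 h) (gw_pos b h).le

/-- the partition function -/
def gz (κ : Type*) [Fintype κ] (b : ℝ) : ℝ := ∫ h : κ → ℝ, gw b h

lemma gz_pos {b : ℝ} (hb : 0 < b) : 0 < gz κ b := by
  unfold gz
  have h1 : Integrable fun h : κ → ℝ => gw b h := by
    have := (EG.const (κ := κ) 1).int hb
    simpa using this
  unfold gw at h1 ⊢
  exact integral_exp_pos h1

/-- the Gaussian average -/
def GE (b : ℝ) (f : (κ → ℝ) → ℝ) : ℝ := (∫ h, f h * gw b h) / gz κ b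

lemma GE_const {b : ℝ} (hb : 0 < b) (c : ℝ) : GE b (fun _ : κ → ℝ => c) = c := by
  unfold GE
  rw [integral_const_mul]
  exact mul_div_cancel_right₀ _ (gz_pos hb).ne'

lemma GE_add {b : ℝ} (hb : 0 < b) {f g : (κ → ℝ) → ℝ} (hf : EG f) (hg : EG g) :
    GE b (fun h => f h + g h) = GE b f + GE b g := by
  unfold GE
  rw [← add_div, ← integral_add (hf.int hb) (hg.int hb)]
  congr 1
  exact integral_congr_ae (Filter.Eventually.of_forall fun h => by simp only; ring)

lemma GE_cmul {b : ℝ} (c : ℝ) (f : (κ → ℝ) → ℝ) :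
    GE b (fun h => c * f h) = c * GE b f := by
  unfold GE
  rw [← mul_div_assoc, ← integral_const_mul]
  congr 1
  exact integral_congr_ae (Filter.Eventually.of_forall fun h => by simp only; ring)

lemma GE_sub {b : ℝ} (hb : 0 < b) {f g : (κ → ℝ) → ℝ} (hf : EG f) (hg : EG g) :
    GE b (fun h => f h - g h) = GE b f - GE b g := by
  have h1 : (fun h : κ → ℝ => f h - g h) = fun h => f h + (-1) * g h := by
    funext h; ring
  rw [h1, GE_add hb hf (hg.cmul (-1)), GE_cmul]; ring

lemma GE_sum {b : ℝ} (hb : 0 < b) {ι : Type*} (s : Finset ι) {f : ι → (κ → ℝ) → ℝ}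
    (hf : ∀ i ∈ s, EG (f i)) : GE b (fun h => ∑ i ∈ s, f i h) = ∑ i ∈ s, GE b (f i) := by
  classical
  induction s using Finset.induction_on with
  | empty => simpa using GE_const (κ := κ) hb 0
  | insert a s ha ih =>
    simp only [Finset.sum_insert ha]
    rw [GE_add hb (hf a (Finset.mem_insert_self _ _))
      (EG.sum s fun i hi => hf i (Finset.mem_insert_of_mem hi)),
      ih fun i hi => hf i (Finset.mem_insert_of_mem hi)]

lemma GE_mono {b : ℝ} (hb : 0 < b) {f g : (κ → ℝ) → ℝ} (hf : EG f) (hg : EG g)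
    (h : ∀ x, f x ≤ g x) : GE b f ≤ GE b g := by
  unfold GE
  refine div_le_div_of_nonneg_right ?_ (gz_pos hb).le
  exact integral_mono (hf.int hb) (hg.int hb) fun x =>
    mul_le_mul_of_nonneg_right (h x) (gw_pos b x).le

lemma GE_nonneg {b : ℝ} (hb : 0 < b) {f : (κ → ℝ) → ℝ} (h : ∀ x, 0 ≤ f x) : 0 ≤ GE b f :=
  div_nonneg (integral_nonneg fun x => mul_nonneg (h x) (gw_pos b x).le) (gz_pos hb).le

/-- the change of sign of the coordinates in `p` -/
def flp (p : κ → Prop) [DecidablePred p] (h : κ → ℝ) : κ → ℝ := fun i => if p i then -h i else h i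

lemma flp_flp (p : κ → Prop) [DecidablePred p] (h : κ → ℝ) : flp p (flp p h) = h := by
  funext i
  unfold flp
  split_ifs <;> simp

lemma flp_cont (p : κ → Prop) [DecidablePred p] : Continuous (flp p : (κ → ℝ) → κ → ℝ) := by
  refine continuous_pi fun i => ?_
  unfold flp
  split_ifs
  · exact (continuous_apply i).neg
  · exact continuous_apply i

lemma gw_flp (p : κ → Prop) [DecidablePred p] (b : ℝ) (h : κ → ℝ) : gw b (flp p h) = gw b h := by
  unfold gw
  congr 3
  refine Finset.sum_congr rfl fun i _ => ?_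
  unfold flp
  split_ifs <;> simp

lemma GE_flp (p : κ → Prop) [DecidablePred p] (b : ℝ) (f : (κ → ℝ) → ℝ) :
    GE b (fun h => f (flp p h)) = GE b f := by
  unfold GE
  congr 1
  have h2 := measurePreserving_pi (fun _ : κ => (volume : Measure ℝ)) (fun _ : κ => volume)
    (f := fun i t => if p i then -t else t) (fun i => by
      by_cases h : p i
      · simp only [h, if_true]
        exact Measure.measurePreserving_neg volume
      · simp only [h, if_false]
        exact MeasurePreserving.id volume)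
  have h3 : (fun (a : κ → ℝ) (i : κ) => (fun i t => if p i then -t else t) i (a i)) =
      flp p := rfl
  rw [h3] at h2
  have hi : Function.Involutive (flp p : (κ → ℝ) → κ → ℝ) := flp_flp p
  have he : MeasurableEmbedding (flp p : (κ → ℝ) → κ → ℝ) :=
    (MeasurableEquiv.ofInvolutive (flp p) hi (flp_cont p).measurable).measurableEmbedding
  have h4 := h2.integral_comp he fun h => f h * gw b h
  have h5 : (Measure.pi fun _ : κ => (volume : Measure ℝ)) = volume := rfl
  rw [h5] at h4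
  rw [← h4]
  exact integral_congr_ae (Filter.Eventually.of_forall fun h => by simp only [gw_flp])

/-- dependence only on the coordinates in `p` -/
def Dp {α : Type*} (p : κ → Prop) (f : (κ → ℝ) → α) : Prop :=
  ∀ h h' : κ → ℝ, (∀ i, p i → h i = h' i) → f h = f h'

/-- extension by `0` -/
def ex0 (p : κ → Prop) [DecidablePred p] (u : {i // p i} → ℝ) : κ → ℝ :=
  fun i => if h : p i then u ⟨i, h⟩ else 0

lemma GE_indep (p : κ → Prop) {b : ℝ} (hb : 0 < b) {A B : (κ → ℝ) → ℝ}
    (hA : Dp p A) (hB : Dp (fun i => ¬p i) B) :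
    GE b (fun h => A h * B h) = GE b A * GE b B := by
  classical
  have he := volume_preserving_piEquivPiSubtypeProd (fun _ : κ => ℝ) p
  obtain ⟨φ, hφ⟩ : ∃ φ, φ = MeasurableEquiv.piEquivPiSubtypeProd (fun _ : κ => ℝ) p := ⟨_, rfl⟩
  rw [← hφ] at he
  have hA' : ∀ U, A U = (fun u => A (ex0 p u)) (φ U).1 := by
    intro U
    refine hA _ _ fun e h => ?_
    rw [hφ]
    simp [ex0, h, MeasurableEquiv.piEquivPiSubtypeProd, Equiv.piEquivPiSubtypeProd]
  have hB' : ∀ U, B U = (fun u => B (ex0 (fun e => ¬p e) u)) (φ U).2 := by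
    intro U
    refine hB _ _ fun e h => ?_
    rw [hφ]
    simp [ex0, h, MeasurableEquiv.piEquivPiSubtypeProd, Equiv.piEquivPiSubtypeProd]
  have hg : ∀ U : κ → ℝ, gw b U = gw b (φ U).1 * gw b (φ U).2 := by
    intro U
    unfold gw
    rw [← Real.exp_add]
    congr 1
    have h1 : ∑ i, U i ^ 2 = ∑ i, (φ U).1 i ^ 2 + ∑ i, (φ U).2 i ^ 2 := by
      rw [hφ]
      have e1 := Fintype.sum_subtype_add_sum_subtype p (fun i => U i ^ 2)
      rw [← e1]
      rfl
    rw [h1]; ring
  have key : ∀ H : ({e // p e} → ℝ) × ({e // ¬p e} → ℝ) → ℝ,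
      ∫ U, H (φ U) = ∫ z, H z :=
    fun H => he.integral_comp φ.measurableEmbedding H
  obtain ⟨a, ha⟩ : ∃ a, a = ∫ u : {e // p e} → ℝ, A (ex0 p u) * gw b u := ⟨_, rfl⟩
  obtain ⟨c, hc⟩ : ∃ c, c = ∫ u : {e // ¬p e} → ℝ, B (ex0 (fun e => ¬p e) u) * gw b u := ⟨_, rfl⟩
  have h1 : ∫ U, A U * B U * gw b U = a * c := by
    have e1 : ∫ U, A U * B U * gw b U = ∫ U, (fun z : ({e // p e} → ℝ) × ({e // ¬p e} → ℝ) =>
        (A (ex0 p z.1) * gw b z.1) * (B (ex0 (fun e => ¬p e) z.2) * gw b z.2)) (φ U) := by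
      refine integral_congr_ae (Filter.Eventually.of_forall fun U => ?_)
      simp only
      rw [hg U, hA' U, hB' U]; ring
    rw [e1, ha, hc]
    refine (key (fun z => (A (ex0 p z.1) * gw b z.1) *
      (B (ex0 (fun e => ¬p e) z.2) * gw b z.2))).trans ?_
    exact integral_prod_mul (fun u : {e // p e} → ℝ => A (ex0 p u) * gw b u)
      (fun u : {e // ¬p e} → ℝ => B (ex0 (fun e => ¬p e) u) * gw b u)
  have h2 : ∫ U, A U * gw b U = a * gz {e // ¬p e} b := by
    have e1 : ∫ U, A U * gw b U = ∫ U, (fun z : ({e // p e} → ℝ) × ({e // ¬p e} → ℝ) =>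
        (A (ex0 p z.1) * gw b z.1) * gw b z.2) (φ U) := by
      refine integral_congr_ae (Filter.Eventually.of_forall fun U => ?_)
      simp only
      rw [hg U, hA' U]; ring
    rw [e1, ha]
    refine (key (fun z => (A (ex0 p z.1) * gw b z.1) * gw b z.2)).trans ?_
    exact integral_prod_mul (fun u : {e // p e} → ℝ => A (ex0 p u) * gw b u)
      (fun u : {e // ¬p e} → ℝ => gw b u)
  have h3 : ∫ U, B U * gw b U = gz {e // p e} b * c := by
    have e1 : ∫ U, B U * gw b U = ∫ U, (fun z : ({e // p e} → ℝ) × ({e // ¬p e} → ℝ) =>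
        (gw b z.1) * (B (ex0 (fun e => ¬p e) z.2) * gw b z.2)) (φ U) := by
      refine integral_congr_ae (Filter.Eventually.of_forall fun U => ?_)
      simp only
      rw [hg U, hB' U]; ring
    rw [e1, hc]
    refine (key (fun z => (gw b z.1) * (B (ex0 (fun e => ¬p e) z.2) * gw b z.2))).trans ?_
    exact integral_prod_mul (fun u : {e // p e} → ℝ => gw b u)
      (fun u : {e // ¬p e} → ℝ => B (ex0 (fun e => ¬p e) u) * gw b u)
  have h4 : gz κ b = gz {e // p e} b * gz {e // ¬p e} b := by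
    have e1 : gz κ b = ∫ U, (fun z : ({e // p e} → ℝ) × ({e // ¬p e} → ℝ) =>
        gw b z.1 * gw b z.2) (φ U) := by
      unfold gz
      refine integral_congr_ae (Filter.Eventually.of_forall fun U => ?_)
      simp only
      rw [hg U]
    rw [e1]
    refine (key (fun z => gw b z.1 * gw b z.2)).trans ?_
    exact integral_prod_mul (fun u : {e // p e} → ℝ => gw b u)
      (fun u : {e // ¬p e} → ℝ => gw b u)
  unfold GE
  have p1 := (gz_pos (κ := {e // p e}) hb).ne'
  have p2 := (gz_pos (κ := {e // ¬p e}) hb).ne'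
  rw [h1, h2, h3, h4]
  field_simp

lemma one_dim {b : ℝ} (hb : 0 < b) :
    ∫ t : ℝ, t ^ 2 * Real.exp (-(b * t ^ 2)) = 1 / (2 * b) * ∫ t : ℝ, Real.exp (-(b * t ^ 2)) := by
  have hI : Integrable fun t : ℝ => t ^ 2 * Real.exp (-(b * t ^ 2)) := by
    have h2 : Integrable fun t : ℝ => t ^ 2 * Real.exp (-b * t ^ 2) := by
      have := integrable_rpow_mul_exp_neg_mul_sq hb (s := 2) (by norm_num)
      simpa using this
    simpa [neg_mul] using h2
  have hJ : Integrable fun t : ℝ => Real.exp (-(b * t ^ 2)) := by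
    have := integrable_exp_neg_mul_sq hb
    simpa [neg_mul] using this
  have hd : ∀ t : ℝ, HasDerivAt (fun t : ℝ => t * Real.exp (-(b * t ^ 2)))
      (Real.exp (-(b * t ^ 2)) - 2 * b * (t ^ 2 * Real.exp (-(b * t ^ 2)))) t := by
    intro t
    have e1 : HasDerivAt (fun t : ℝ => -(b * t ^ 2)) (-(b * (2 * t))) t := by
      have h0 : HasDerivAt (fun t : ℝ => t ^ 2) (2 * t) t := by simpa using hasDerivAt_pow 2 t
      exact (h0.const_mul b).neg
    have e2 := (hasDerivAt_id t).mul e1.exp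
    have e3 : Real.exp (-(b * t ^ 2)) - 2 * b * (t ^ 2 * Real.exp (-(b * t ^ 2))) =
        1 * Real.exp (-(b * t ^ 2)) + id t * (Real.exp (-(b * t ^ 2)) * (-(b * (2 * t)))) := by
      simp only [id]; ring
    rw [e3]
    exact e2
  have hz := integral_of_hasDerivAt_of_tendsto
    (f := fun t : ℝ => t * Real.exp (-(b * t ^ 2)))
    (f' := fun t : ℝ => Real.exp (-(b * t ^ 2)) - 2 * b * (t ^ 2 * Real.exp (-(b * t ^ 2))))
    (m := 0) (n := 0) hd (hJ.sub (hI.const_mul _)) ?_ ?_
  · rw [integral_sub hJ (hI.const_mul _), integral_const_mul, sub_zero] at hz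
    rw [one_div, eq_comm, inv_mul_eq_iff_eq_mul₀ (by positivity)]
    linarith
  · have h1 := tendsto_rpow_abs_mul_exp_neg_mul_sq_cocompact hb 1
    have h2 := h1.mono_left (atBot_le_cocompact (α := ℝ))
    refine squeeze_zero_norm (fun t => ?_) h2
    rw [norm_mul, Real.norm_eq_abs, Real.norm_eq_abs, Real.rpow_one, Real.abs_exp, neg_mul]
  · have h1 := tendsto_rpow_abs_mul_exp_neg_mul_sq_cocompact hb 1
    have h2 := h1.mono_left (atTop_le_cocompact (α := ℝ))
    refine squeeze_zero_norm (fun t => ?_) h2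
    rw [norm_mul, Real.norm_eq_abs, Real.norm_eq_abs, Real.rpow_one, Real.abs_exp, neg_mul]

lemma GE_sq {b : ℝ} (hb : 0 < b) (i : κ) : GE b (fun h : κ → ℝ => h i ^ 2) = 1 / (2 * b) := by
  classical
  unfold GE
  rw [div_eq_iff (gz_pos hb).ne']
  obtain ⟨z, hz⟩ : ∃ z, z = ∫ t : ℝ, Real.exp (-(b * t ^ 2)) := ⟨_, rfl⟩
  have h1 : (fun h : κ → ℝ => h i ^ 2 * gw b h) = fun h => ∏ j, (fun (j : κ) (t : ℝ) =>
      (if j = i then t ^ 2 else 1) * Real.exp (-(b * t ^ 2))) j (h j) := by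
    funext h
    rw [Finset.prod_mul_distrib, gw_eq]
    congr 1
    rw [Finset.prod_ite_eq' Finset.univ i]
    simp
  rw [h1, integral_fintype_prod_volume_eq_prod (fun (j : κ) (t : ℝ) =>
      (if j = i then t ^ 2 else 1) * Real.exp (-(b * t ^ 2)))]
  have h2 : gz κ b = ∏ j : κ, z := by
    unfold gz
    have : (fun h : κ → ℝ => gw b h) = fun h => ∏ j, (fun (_ : κ) (t : ℝ) =>
      Real.exp (-(b * t ^ 2))) j (h j) := by
      funext h; rw [gw_eq]
    rw [this, integral_fintype_prod_volume_eq_prod (fun (_ : κ) (t : ℝ) =>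
      Real.exp (-(b * t ^ 2))), hz]
  rw [h2, ← Finset.mul_prod_erase _ _ (Finset.mem_univ i),
    ← Finset.mul_prod_erase _ _ (Finset.mem_univ i), ← mul_assoc]
  congr 1
  · simp only [if_true]
    rw [one_dim hb, hz]
  · refine Finset.prod_congr rfl fun j hj => ?_
    have hne : j ≠ i := (Finset.mem_erase.1 hj).1
    simp only [hne, if_false, one_mul]
    exact hz.symm

end

end Pool.Agent.Y15
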