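import Mathlib
import Pool.Agent.W793.YM.Dev
import Pool.Agent.Y15.Gauss

/-!
# Ordered products of matrices with Gaussian noise
-/

open MeasureTheory Matrix
open scoped Matrix.Norms.Frobenius
open Pool.Agent.H906R3.YM hiding Pl
open Pool.Agent.W793.YM

namespace Pool.Agent.Y15

set_option linter.unusedSectionVars false
set_option linter.unusedVariables false

noncomputable section

/-- coordinates of a matrix -/
abbrev Cx (N : ℕ) := Fin N × Fin N × Bool

section mat

variable {N : ℕ}

lemma co_def (c : Cx N) (M : Mat N) :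
    co c M = if c.2.2 then (M c.1 c.2.1).re else (M c.1 c.2.1).im := rfl

lemma nf_eq (A : Mat N) : ∑ c, co c A ^ 2 = ‖A‖ ^ 2 := by
  rw [norm_sq_ip, ip_apply, sum_co_sq]

lemma mat_ext {A B : Mat N} (h : ∀ c, co c A = co c B) : A = B := by
  ext i j
  refine Complex.ext ?_ ?_
  · exact h (i, j, true)
  · exact h (i, j, false)

lemma norm_mul_sq_le (A B : Mat N) : ‖A * B‖ ^ 2 ≤ ‖A‖ ^ 2 * ‖B‖ ^ 2 := by
  rw [← mul_pow]
  exact pow_le_pow_left₀ (norm_nonneg _) (Matrix.frobenius_norm_mul A B) 2

lemma parallelogram (A B : Mat N) : ‖A + B‖ ^ 2 + ‖A - B‖ ^ 2 = 2 * ‖A‖ ^ 2 + 2 * ‖B‖ ^ 2 := by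
  simp only [← nf_eq]
  rw [← Finset.sum_add_distrib, Finset.mul_sum, Finset.mul_sum, ← Finset.sum_add_distrib]
  refine Finset.sum_congr rfl fun c _ => ?_
  rw [map_add, map_sub]; ring

end mat

variable {E : Type*} [Fintype E] [DecidableEq E] {N : ℕ}

/-- the matrices attached to coordinates -/
def mt (x : E × Cx N → ℝ) (e : E) : Mat N :=
  fun i j => ⟨x (e, (i, j, true)), x (e, (i, j, false))⟩

lemma co_mt (x : E × Cx N → ℝ) (e : E) (c : Cx N) : co c (mt x e) = x (e, c) := by
  obtain ⟨i, j, b⟩ := c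
  cases b <;> rfl

lemma mt_add (x y : E × Cx N → ℝ) (e : E) : mt (x + y) e = mt x e + mt y e :=
  mat_ext fun c => by rw [map_add, co_mt, co_mt, co_mt]; rfl

lemma mt_neg (x : E × Cx N → ℝ) (e : E) : mt (-x) e = -mt x e :=
  mat_ext fun c => by rw [map_neg, co_mt, co_mt]; rfl

lemma mt_zero (e : E) : mt (0 : E × Cx N → ℝ) e = 0 :=
  mat_ext fun c => by rw [map_zero, co_mt]; rfl

lemma mt_congr {x y : E × Cx N → ℝ} {e : E} (h : ∀ c, x (e, c) = y (e, c)) : mt x e = mt y e :=
  mat_ext fun c => by rw [co_mt, co_mt, h]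

/-- matrix functions with coordinates of exponential growth -/
def EM {κ : Type*} [Fintype κ] (F : (κ → ℝ) → Mat N) : Prop := ∀ c, EG fun h => co c (F h)

section em

variable {κ : Type*} [Fintype κ]

lemma EM.add {F H : (κ → ℝ) → Mat N} (hF : EM F) (hH : EM H) : EM fun h => F h + H h :=
  fun c => by simpa only [map_add] using (hF c).add (hH c)

lemma EM.const (A : Mat N) : EM fun _ : κ → ℝ => A := fun c => EG.const _

lemma EM.smul {F : (κ → ℝ) → Mat N} (a : ℝ) (hF : EM F) : EM fun h => a • F h :=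
  fun c => by simpa only [map_smul, smul_eq_mul] using (hF c).cmul a

lemma EM.neg {F : (κ → ℝ) → Mat N} (hF : EM F) : EM fun h => -F h :=
  fun c => by simpa only [map_neg] using (hF c).neg

lemma EM.sub {F H : (κ → ℝ) → Mat N} (hF : EM F) (hH : EM H) : EM fun h => F h - H h :=
  fun c => by simpa only [map_sub] using (hF c).sub (hH c)

lemma EM.sum {ι : Type*} (s : Finset ι) {F : ι → (κ → ℝ) → Mat N} (hF : ∀ i ∈ s, EM (F i)) :
    EM fun h => ∑ i ∈ s, F i h := fun c => by
  simp only [map_sum]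
  exact EG.sum s fun i hi => hF i hi c

lemma EM.ct {F : (κ → ℝ) → Mat N} (hF : EM F) : EM fun h => (F h)ᴴ := by
  rintro ⟨i, j, b⟩
  cases b
  · have h1 := (hF (j, i, false)).neg
    refine (congrArg EG ?_).mp h1
    funext h
    simp only [co_def, Bool.false_eq_true, if_false, conjTranspose_apply]
    simp
  · have h1 := hF (j, i, true)
    refine (congrArg EG ?_).mp h1
    funext h
    simp only [co_def, if_true, conjTranspose_apply]
    simp

lemma EM.mul {F H : (κ → ℝ) → Mat N} (hF : EM F) (hH : EM H) : EM fun h => F h * H h := by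
  rintro ⟨i, j, b⟩
  cases b
  · have h1 : EG fun h => ∑ k, (co (i, k, true) (F h) * co (k, j, false) (H h) +
        co (i, k, false) (F h) * co (k, j, true) (H h)) :=
      EG.sum _ fun k _ => ((hF _).mul (hH _)).add ((hF _).mul (hH _))
    refine (congrArg EG ?_).mp h1
    funext h
    simp only [co_def, Bool.false_eq_true, if_false, if_true, mul_apply, Complex.im_sum]
    exact Finset.sum_congr rfl fun k _ => by rw [Complex.mul_im]
  · have h1 : EG fun h => ∑ k, (co (i, k, true) (F h) * co (k, j, true) (H h) -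
        co (i, k, false) (F h) * co (k, j, false) (H h)) :=
      EG.sum _ fun k _ => ((hF _).mul (hH _)).sub ((hF _).mul (hH _))
    refine (congrArg EG ?_).mp h1
    funext h
    simp only [co_def, Bool.false_eq_true, if_false, if_true, mul_apply, Complex.re_sum]
    exact Finset.sum_congr rfl fun k _ => by rw [Complex.mul_re]

lemma EM.nsq {F : (κ → ℝ) → Mat N} (hF : EM F) : EG fun h => ‖F h‖ ^ 2 := by
  simp only [← nf_eq]
  exact EG.sum _ fun c _ => (hF c).sq

end em

lemma EM.mt (e : E) : EM fun h : E × Cx N → ℝ => mt h e := fun c => by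
  simp only [co_mt]
  exact EG.coord _

/-- ordered products -/
def pv (M : E → Mat N) (l : List (E × Bool)) : Mat N :=
  (l.map fun s => if s.2 then M s.1 else (M s.1)ᴴ).prod

lemma pv_nil (M : E → Mat N) : pv M [] = 1 := rfl

lemma pv_cons (M : E → Mat N) (s : E × Bool) (l : List (E × Bool)) :
    pv M (s :: l) = (if s.2 then M s.1 else (M s.1)ᴴ) * pv M l := by
  unfold pv
  rw [List.map_cons, List.prod_cons]

lemma pv_append (M : E → Mat N) (l l' : List (E × Bool)) : pv M (l ++ l') = pv M l * pv M l' := by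
  unfold pv
  rw [List.map_append, List.prod_append]

lemma pv_congr {M M' : E → Mat N} {l : List (E × Bool)} (h : ∀ s ∈ l, M s.1 = M' s.1) :
    pv M l = pv M' l := by
  unfold pv
  congr 1
  refine List.map_congr_left fun s hs => ?_
  rw [h s hs]

lemma EM.pv {κ : Type*} [Fintype κ] {M : (κ → ℝ) → E → Mat N} (hM : ∀ e, EM fun h => M h e)
    (l : List (E × Bool)) : EM fun h => pv (M h) l := by
  induction l with
  | nil => exact EM.const 1
  | cons s l ih =>
    simp only [pv_cons]
    refine EM.mul ?_ ih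
    split_ifs
    · exact hM _
    · exact (hM _).ct

/-- the links of a list are distinct -/
def ND (l : List (E × Bool)) : Prop := (l.map Prod.fst).Nodup

lemma ND.cons {s : E × Bool} {l : List (E × Bool)} (h : ND (s :: l)) :
    (∀ t ∈ l, t.1 ≠ s.1) ∧ ND l := by
  unfold ND at h
  rw [List.map_cons, List.nodup_cons] at h
  refine ⟨fun t ht hts => h.1 ?_, h.2⟩
  rw [← hts]
  exact List.mem_map_of_mem (f := Prod.fst) ht

/-- change of one link -/
lemma pv_add {M D : E → Mat N} {e : E} (hD : ∀ e', e' ≠ e → D e' = 0) {l : List (E × Bool)}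
    (hl : ND l) : pv (M + D) l = pv M l +
      (if e ∈ l.map Prod.fst then pv (Function.update M e (D e)) l else 0) := by
  induction l with
  | nil => simp [pv_nil]
  | cons s l ih =>
    obtain ⟨h1, h2⟩ := hl.cons
    rw [pv_cons, pv_cons, pv_cons, ih h2]
    by_cases hs : s.1 = e
    · have he : e ∉ l.map Prod.fst := by
        intro hmem
        rw [List.mem_map] at hmem
        obtain ⟨t, ht, hte⟩ := hmem
        exact h1 t ht (hte.trans hs.symm)
      have hin : e ∈ (s :: l).map Prod.fst := by simp [hs]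
      have h3 : pv (Function.update M e (D e)) l = pv M l := pv_congr fun t ht => by
        rw [Function.update_of_ne]
        exact fun h => h1 t ht (h.trans hs.symm)
      rw [if_neg he, if_pos hin, h3, hs, Function.update_self, add_zero]
      have h4 : (M + D) e = M e + D e := rfl
      rw [h4]
      split_ifs
      · rw [add_mul]
      · rw [conjTranspose_add, add_mul]
    · have h3 : (M + D) s.1 = M s.1 := by
        have : (M + D) s.1 = M s.1 + D s.1 := rfl
        rw [this, hD _ hs, add_zero]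
      have h4 : Function.update M e (D e) s.1 = M s.1 := Function.update_of_ne hs _ _
      rw [h3, h4]
      have hiff : e ∈ (s :: l).map Prod.fst ↔ e ∈ l.map Prod.fst := by
        rw [List.map_cons, List.mem_cons]
        constructor
        · rintro (h | h)
          · exact absurd h.symm hs
          · exact h
        · exact Or.inr
      by_cases he : e ∈ l.map Prod.fst
      · rw [if_pos he, if_pos (hiff.2 he), mul_add]
      · rw [if_neg he, if_neg (fun h => he (hiff.1 h)), add_zero, add_zero]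

lemma pv_update_neg {M : E → Mat N} {e : E} {A : Mat N} {l : List (E × Bool)} (hl : ND l)
    (he : e ∈ l.map Prod.fst) :
    pv (Function.update M e (-A)) l = -pv (Function.update M e A) l := by
  induction l with
  | nil => simp at he
  | cons s l ih =>
    obtain ⟨h1, h2⟩ := hl.cons
    rw [pv_cons, pv_cons]
    by_cases hs : s.1 = e
    · have h3 : ∀ B, pv (Function.update M e B) l = pv M l := fun B => pv_congr fun t ht => by
        rw [Function.update_of_ne]
        exact fun h => h1 t ht (h.trans hs.symm)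
      rw [h3, h3, hs, Function.update_self, Function.update_self]
      split_ifs
      · rw [neg_mul]
      · rw [conjTranspose_neg, neg_mul]
    · have he' : e ∈ l.map Prod.fst := by
        rw [List.map_cons, List.mem_cons] at he
        rcases he with h | h
        · exact absurd h.symm hs
        · exact h
      rw [ih h2 he', Function.update_of_ne hs, Function.update_of_ne hs, mul_neg]

/-! ### moments of products -/

lemma GE_mt {b : ℝ} (hb : 0 < b) (e : E) :
    GE b (fun h : E × Cx N → ℝ => ‖mt h e‖ ^ 2) = (Fintype.card (Cx N) : ℝ) * (1 / (2 * b)) := by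
  have h1 : (fun h : E × Cx N → ℝ => ‖mt h e‖ ^ 2) = fun h => ∑ c : Cx N, h (e, c) ^ 2 := by
    funext h
    rw [← nf_eq]
    exact Finset.sum_congr rfl fun c _ => by rw [co_mt]
  rw [h1, GE_sum hb _ fun c _ => (EG.coord _).sq]
  rw [Finset.sum_congr rfl fun c _ => GE_sq hb (e, c)]
  rw [Finset.sum_const, Finset.card_univ, nsmul_eq_mul]

/-- the moment bound for ordered products -/
theorem pv_moment {b : ℝ} (hb : 0 < b) (A : E → Mat N) (ε t : E → ℝ)
    (hA : ∀ e R, ‖A e * R‖ ^ 2 ≤ t e * ‖R‖ ^ 2) (hA' : ∀ e R, ‖(A e)ᴴ * R‖ ^ 2 ≤ t e * ‖R‖ ^ 2)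
    (ht : ∀ e, 0 ≤ t e) (l : List (E × Bool)) (hl : ND l) :
    GE b (fun h : E × Cx N → ℝ => ‖pv (fun e => A e + ε e • mt h e) l‖ ^ 2) ≤
      N * (l.map fun s => t s.1 + ε s.1 ^ 2 *
        ((Fintype.card (Cx N) : ℝ) * (1 / (2 * b)))).prod := by
  obtain ⟨c, hc⟩ : ∃ c : ℝ, c = (Fintype.card (Cx N) : ℝ) * (1 / (2 * b)) := ⟨_, rfl⟩
  rw [← hc]
  have hEM : ∀ e, EM fun h : E × Cx N → ℝ => A e + ε e • mt h e := fun e =>
    (EM.const _).add ((EM.mt e).smul _)
  induction l with
  | nil =>
    simp only [pv_nil, List.map_nil, List.prod_nil, mul_one]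
    rw [GE_const hb, norm_sq_ip, ip_apply, conjTranspose_one, one_mul, trace_one,
      Fintype.card_fin]
    simp
  | cons s l ih =>
    obtain ⟨h1, h2⟩ := hl.cons
    obtain ⟨e, bb⟩ := s
    obtain ⟨R, hR⟩ : ∃ R : (E × Cx N → ℝ) → Mat N,
      R = fun h => pv (fun e => A e + ε e • mt h e) l := ⟨_, rfl⟩
    have hRM : EM R := by rw [hR]; exact EM.pv hEM l
    have hRdep : ∀ h h' : E × Cx N → ℝ, (∀ i, i.1 ≠ e → h i = h' i) → R h = R h' := by
      intro h h' hh
      rw [hR]
      refine pv_congr fun s hs => ?_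
      rw [mt_congr (x := h) (y := h') fun c => hh _ (h1 s hs)]
    obtain ⟨A0, hA0⟩ : ∃ A0, A0 = (if bb then A e else (A e)ᴴ) := ⟨_, rfl⟩
    obtain ⟨H0, hH0⟩ : ∃ H0 : (E × Cx N → ℝ) → Mat N,
      H0 = fun h => (if bb then mt h e else (mt h e)ᴴ) := ⟨_, rfl⟩
    have hH0M : EM H0 := by
      rw [hH0]
      cases bb
      · simp only [Bool.false_eq_true, if_false]; exact (EM.mt e).ct
      · simp only [if_true]; exact EM.mt e
    have hfac : ∀ h, (if bb then A e + ε e • mt h e else (A e + ε e • mt h e)ᴴ) =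
        A0 + ε e • H0 h := by
      intro h
      rw [hA0, hH0]
      cases bb
      · simp [conjTranspose_add, conjTranspose_smul]
      · simp
    have hA0R : ∀ X, ‖A0 * X‖ ^ 2 ≤ t e * ‖X‖ ^ 2 := by
      intro X
      rw [hA0]
      split_ifs
      · exact hA e X
      · exact hA' e X
    have hH0n : ∀ h, ‖H0 h‖ ^ 2 = ‖mt h e‖ ^ 2 := by
      intro h
      rw [hH0]
      simp only
      split_ifs
      · rfl
      · rw [norm_ct]
    have e1 : (fun h : E × Cx N → ℝ => ‖pv (fun e => A e + ε e • mt h e) ((e, bb) :: l)‖ ^ 2) =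
        fun h => ‖A0 * R h + ε e • (H0 h * R h)‖ ^ 2 := by
      funext h
      rw [pv_cons, hR]
      simp only
      rw [hfac, add_mul, smul_mul_assoc]
    -- symmetrisation
    obtain ⟨p, hp⟩ : ∃ p : E × Cx N → Prop, p = fun i => i.1 = e := ⟨_, rfl⟩
    have : DecidablePred p := by rw [hp]; exact fun i => decEq i.1 e
    have hflip : ∀ h : E × Cx N → ℝ, R (flp p h) = R h ∧ H0 (flp p h) = -H0 h := by
      intro h
      constructor
      · refine hRdep _ _ fun i hi => ?_
        unfold flp
        rw [if_neg (by rw [hp]; exact hi)]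
      · have e2 : mt (flp p h) e = -mt h e := by
          rw [← mt_neg]
          refine mt_congr fun c => ?_
          unfold flp
          rw [if_pos (by rw [hp])]
          rfl
        rw [hH0]
        simp only
        rw [e2]
        split_ifs
        · rfl
        · rw [conjTranspose_neg]
    have hEG1 : EG fun h => ‖A0 * R h + ε e • (H0 h * R h)‖ ^ 2 :=
      EM.nsq (((EM.const A0).mul hRM).add ((hH0M.mul hRM).smul _))
    have hEG2 : EG fun h => ‖A0 * R h - ε e • (H0 h * R h)‖ ^ 2 :=
      EM.nsq (((EM.const A0).mul hRM).sub ((hH0M.mul hRM).smul _))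
    have e2 : GE b (fun h => ‖A0 * R h + ε e • (H0 h * R h)‖ ^ 2) =
        GE b (fun h => ‖A0 * R h - ε e • (H0 h * R h)‖ ^ 2) := by
      rw [← GE_flp p b (fun h => ‖A0 * R h + ε e • (H0 h * R h)‖ ^ 2)]
      congr 1
      funext h
      rw [(hflip h).1, (hflip h).2, neg_mul, smul_neg, sub_eq_add_neg]
    have e3 : GE b (fun h => ‖A0 * R h + ε e • (H0 h * R h)‖ ^ 2) ≤
        GE b (fun h => t e * ‖R h‖ ^ 2 + ε e ^ 2 * (‖mt h e‖ ^ 2 * ‖R h‖ ^ 2)) := by
      have f1 : GE b (fun h => ‖A0 * R h + ε e • (H0 h * R h)‖ ^ 2 +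
          ‖A0 * R h - ε e • (H0 h * R h)‖ ^ 2) ≤
          GE b (fun h => 2 * (t e * ‖R h‖ ^ 2 + ε e ^ 2 * (‖mt h e‖ ^ 2 * ‖R h‖ ^ 2))) := by
        refine GE_mono hb (hEG1.add hEG2) ((((hRM.nsq).cmul _).add
          ((((EM.mt e).nsq).mul hRM.nsq).cmul _)).cmul _) fun h => ?_
        rw [parallelogram]
        have g1 := hA0R (R h)
        have g2 : ‖ε e • (H0 h * R h)‖ ^ 2 ≤ ε e ^ 2 * (‖mt h e‖ ^ 2 * ‖R h‖ ^ 2) := by
          rw [norm_smul, mul_pow, Real.norm_eq_abs, sq_abs, ← hH0n]
          exact mul_le_mul_of_nonneg_left (norm_mul_sq_le _ _) (sq_nonneg _)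
        linarith
      rw [GE_add hb hEG1 hEG2, ← e2, GE_cmul] at f1
      linarith
    have e4 : GE b (fun h => t e * ‖R h‖ ^ 2 + ε e ^ 2 * (‖mt h e‖ ^ 2 * ‖R h‖ ^ 2)) =
        (t e + ε e ^ 2 * c) * GE b (fun h => ‖R h‖ ^ 2) := by
      rw [GE_add hb ((hRM.nsq).cmul _) ((((EM.mt e).nsq).mul hRM.nsq).cmul _), GE_cmul, GE_cmul]
      have f1 : GE b (fun h : E × Cx N → ℝ => ‖mt h e‖ ^ 2 * ‖R h‖ ^ 2) =
          GE b (fun h : E × Cx N → ℝ => ‖mt h e‖ ^ 2) * GE b (fun h => ‖R h‖ ^ 2) := by
        refine GE_indep (fun i => i.1 = e) hb ?_ ?_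
        · intro h h' hh
          simp only
          rw [mt_congr fun c => hh (e, c) rfl]
        · intro h h' hh
          simp only
          rw [hRdep h h' hh]
      rw [f1, GE_mt hb, ← hc]; ring
    rw [e1]
    refine e3.trans ?_
    rw [e4, List.map_cons, List.prod_cons]
    have hc0 : 0 ≤ c := by rw [hc]; positivity
    have f2 : 0 ≤ t e + ε e ^ 2 * c := add_nonneg (ht e) (mul_nonneg (sq_nonneg _) hc0)
    have f3 := mul_le_mul_of_nonneg_left (ih h2) f2
    rw [hR]
    refine f3.trans (le_of_eq ?_)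
    simp only
    ring

end

end Pool.Agent.Y15
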