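import Mathlib
import Pool.Agent.Y15.Links

/-!
# Variance of averages of ordered products
-/

open MeasureTheory Matrix
open scoped Matrix.Norms.Frobenius
open Pool.Agent.H906R3.YM hiding Pl
open Pool.Agent.W793.YM

namespace Pool.Agent.Y15

set_option linter.unusedSectionVars false
set_option linter.unusedVariables false

noncomputable section

variable {E : Type*} [Fintype E] [DecidableEq E] {N : ℕ}

/-- the noise of the links in `s` -/
def hs (s : Finset E) (h : E × Cx N → ℝ) : E × Cx N → ℝ := fun i => if i.1 ∈ s then h i else 0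

lemma hs_empty (h : E × Cx N → ℝ) : hs ∅ h = 0 := by
  funext i; simp [hs]

lemma hs_univ (h : E × Cx N → ℝ) : hs Finset.univ h = h := by
  funext i; simp [hs]

lemma mt_hs (s : Finset E) (h : E × Cx N → ℝ) (e : E) :
    mt (hs s h) e = (if e ∈ s then (1 : ℝ) else 0) • mt h e := by
  refine mat_ext fun c => ?_
  rw [map_smul, co_mt, co_mt]
  unfold hs
  by_cases he : e ∈ s
  · simp [he]
  · simp [he]

lemma mt_fld (x : E × Cx N → ℝ) (s : Finset E) (h : E × Cx N → ℝ) (e : E) :
    mt (x + hs s h) e = mt x e + (if e ∈ s then (1 : ℝ) else 0) • mt h e := by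
  rw [mt_add, mt_hs]

variable {ι : Type*} [Fintype ι] (a : ι → ℝ) (l : ι → List (E × Bool))

/-- weighted sums of ordered products -/
def FF (M : E → Mat N) : Mat N := ∑ i, a i • pv M (l i)

/-- the part which contains `e` -/
def Fe (M : E → Mat N) (e : E) (A : Mat N) : Mat N :=
  ∑ i, (if e ∈ (l i).map Prod.fst then a i else 0) • pv (Function.update M e A) (l i)

variable {a l}

lemma FF_step (hl : ∀ i, ND (l i)) (x : E × Cx N → ℝ) {e : E} {s : Finset E} (he : e ∉ s)
    (h : E × Cx N → ℝ) : FF a l (mt (x + hs (insert e s) h)) =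
      FF a l (mt (x + hs s h)) + Fe a l (mt (x + hs s h)) e (mt h e) := by
  have h1 : mt (x + hs (insert e s) h) = mt (x + hs s h) + mt (hs {e} h) := by
    funext e'
    rw [Pi.add_apply, mt_fld, mt_fld, mt_hs, add_assoc, ← add_smul]
    congr 2
    by_cases h1 : e' = e
    · subst h1; simp [he]
    · simp [h1]
  have h2 : ∀ e', e' ≠ e → mt (hs {e} h) e' = 0 := fun e' he' => by
    rw [mt_hs]; simp [he']
  have h3 : mt (hs {e} h) e = mt h e := by rw [mt_hs]; simp
  unfold FF Fe
  rw [h1, ← Finset.sum_add_distrib]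
  refine Finset.sum_congr rfl fun i _ => ?_
  rw [pv_add h2 (hl i), h3, smul_add]
  congr 1
  split_ifs
  · rfl
  · simp

lemma EM_fld (x : E × Cx N → ℝ) (s : Finset E) (e : E) :
    EM fun h : E × Cx N → ℝ => mt (x + hs s h) e := by
  simp only [mt_fld]
  exact (EM.const _).add ((EM.mt e).smul _)

lemma EM_FF (x : E × Cx N → ℝ) (s : Finset E) :
    EM fun h : E × Cx N → ℝ => FF a l (mt (x + hs s h)) :=
  EM.sum _ fun i _ => (EM.pv (EM_fld x s) _).smul _

lemma EM_upd (x : E × Cx N → ℝ) (s : Finset E) (e e' : E) :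
    EM fun h : E × Cx N → ℝ => Function.update (mt (x + hs s h)) e (mt h e) e' := by
  by_cases h : e' = e
  · subst h
    simp only [Function.update_self]
    exact EM.mt _
  · simp only [Function.update_of_ne h]
    exact EM_fld x s e'

lemma EM_Fe (x : E × Cx N → ℝ) (s : Finset E) (e : E) :
    EM fun h : E × Cx N → ℝ => Fe a l (mt (x + hs s h)) e (mt h e) :=
  EM.sum _ fun i _ => (EM.pv (EM_upd x s e) _).smul _

lemma flip_fld (x : E × Cx N → ℝ) {e : E} {s : Finset E} (he : e ∉ s) (h : E × Cx N → ℝ) :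
    mt (x + hs s (flp (fun i => i.1 = e) h)) = mt (x + hs s h) := by
  funext e'
  rw [mt_fld, mt_fld]
  by_cases h1 : e' ∈ s
  · have h2 : e' ≠ e := fun h => he (h ▸ h1)
    rw [mt_congr (x := flp (fun i => i.1 = e) h) (y := h) fun c => by
      unfold flp; rw [if_neg h2]]
  · simp [h1]

lemma flip_mt (e : E) (h : E × Cx N → ℝ) :
    mt (flp (fun i => i.1 = e) h) e = -mt h e := by
  rw [← mt_neg]
  refine mt_congr fun c => ?_
  unfold flp
  rw [if_pos rfl]
  rfl

lemma Fe_neg (hl : ∀ i, ND (l i)) (M : E → Mat N) (e : E) (A : Mat N) :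
    Fe a l M e (-A) = -Fe a l M e A := by
  unfold Fe
  rw [← Finset.sum_neg_distrib]
  refine Finset.sum_congr rfl fun i _ => ?_
  split_ifs with h
  · rw [pv_update_neg (hl i) h, smul_neg]
  · simp

lemma step_one (hl : ∀ i, ND (l i)) {b : ℝ} (hb : 0 < b) (x : E × Cx N → ℝ) {e : E}
    {s : Finset E} (he : e ∉ s) (c : Cx N) :
    GE b (fun h => co c (FF a l (mt (x + hs (insert e s) h)))) =
      GE b (fun h => co c (FF a l (mt (x + hs s h)))) ∧
    GE b (fun h => co c (FF a l (mt (x + hs (insert e s) h))) ^ 2) =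
      GE b (fun h => co c (FF a l (mt (x + hs s h))) ^ 2) +
        GE b (fun h => co c (Fe a l (mt (x + hs s h)) e (mt h e)) ^ 2) := by
  obtain ⟨f, hf⟩ : ∃ f : (E × Cx N → ℝ) → ℝ, f = fun h => co c (FF a l (mt (x + hs s h))) :=
    ⟨_, rfl⟩
  obtain ⟨g, hg⟩ : ∃ g : (E × Cx N → ℝ) → ℝ,
    g = fun h => co c (Fe a l (mt (x + hs s h)) e (mt h e)) := ⟨_, rfl⟩
  have hfE : EG f := by rw [hf]; exact EM_FF x s c
  have hgE : EG g := by rw [hg]; exact EM_Fe x s e c
  have h1 : ∀ h, co c (FF a l (mt (x + hs (insert e s) h))) = f h + g h := fun h => by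
    rw [FF_step hl x he, map_add, hf, hg]
  have hff : ∀ h, f (flp (fun i => i.1 = e) h) = f h := fun h => by
    rw [hf]; simp only; rw [flip_fld x he]
  have hgf : ∀ h, g (flp (fun i => i.1 = e) h) = -g h := fun h => by
    rw [hg]; simp only; rw [flip_fld x he, flip_mt, Fe_neg hl, map_neg]
  have hg0 : GE b g = 0 := by
    have e1 := GE_flp (fun i : E × Cx N => i.1 = e) b g
    simp only [hgf] at e1
    have e2 := GE_cmul (b := b) (-1) g
    simp only [neg_mul, one_mul] at e2
    rw [e2] at e1
    linarith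
  have hfg0 : GE b (fun h => f h * g h) = 0 := by
    have e1 := GE_flp (fun i : E × Cx N => i.1 = e) b (fun h => f h * g h)
    simp only [hgf, hff] at e1
    have e2 := GE_cmul (b := b) (-1) (fun h => f h * g h)
    simp only [neg_mul, one_mul] at e2
    simp only [mul_neg] at e1
    rw [e2] at e1
    linarith
  constructor
  · simp only [h1]
    rw [GE_add hb hfE hgE, hg0, add_zero, hf]
  · have h2 : ∀ h, co c (FF a l (mt (x + hs (insert e s) h))) ^ 2 =
        (f h ^ 2 + g h ^ 2) + 2 * (f h * g h) := fun h => by rw [h1]; ring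
    simp only [h2]
    rw [GE_add hb (hfE.sq.add hgE.sq) ((hfE.mul hgE).cmul _), GE_add hb hfE.sq hgE.sq, GE_cmul,
      hfg0, mul_zero, add_zero, hf, hg]

/-- the mean of a multi-affine function -/
theorem FF_mean (hl : ∀ i, ND (l i)) {b : ℝ} (hb : 0 < b) (x : E × Cx N → ℝ) (c : Cx N) :
    GE b (fun h => co c (FF a l (mt (x + h)))) = co c (FF a l (mt x)) := by
  have key : ∀ s : Finset E, GE b (fun h => co c (FF a l (mt (x + hs s h)))) =
      co c (FF a l (mt x)) := by
    intro s
    induction s using Finset.induction_on with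
    | empty =>
      simp only [hs_empty, add_zero]
      exact GE_const hb _
    | insert e s he ih => rw [(step_one hl hb x he c).1, ih]
  have := key Finset.univ
  simpa only [hs_univ] using this

lemma cs_sum {s : Finset ι} {w : ι → ℝ} (hw : ∀ i, 0 ≤ w i) (X : ι → Mat N) :
    ‖∑ i ∈ s, w i • X i‖ ^ 2 ≤ (∑ i ∈ s, w i) * ∑ i ∈ s, w i * ‖X i‖ ^ 2 := by
  have h1 : ‖∑ i ∈ s, w i • X i‖ ≤ ∑ i ∈ s, w i * ‖X i‖ := by
    refine (norm_sum_le _ _).trans (le_of_eq ?_)
    exact Finset.sum_congr rfl fun i _ => by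
      rw [norm_smul, Real.norm_eq_abs, abs_of_nonneg (hw i)]
  have h2 : (∑ i ∈ s, w i * ‖X i‖) ^ 2 ≤ (∑ i ∈ s, w i) * ∑ i ∈ s, w i * ‖X i‖ ^ 2 := by
    have := Finset.sum_mul_sq_le_sq_mul_sq s (fun i => Real.sqrt (w i))
      (fun i => Real.sqrt (w i) * ‖X i‖)
    have e1 : ∀ i, Real.sqrt (w i) * (Real.sqrt (w i) * ‖X i‖) = w i * ‖X i‖ := fun i => by
      rw [← mul_assoc, Real.mul_self_sqrt (hw i)]
    have e2 : ∀ i, (Real.sqrt (w i) * ‖X i‖) ^ 2 = w i * ‖X i‖ ^ 2 := fun i => by
      rw [mul_pow, Real.sq_sqrt (hw i)]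
    simp only [e1, e2, Real.sq_sqrt (hw _)] at this
    exact this
  exact (pow_le_pow_left₀ (norm_nonneg _) h1 2).trans h2

lemma prod_one {e : E} {c : ℝ} {l : List (E × Bool)} (hl : ND l) (he : e ∈ l.map Prod.fst) :
    (l.map fun s => if s.1 = e then c else 1).prod = c := by
  induction l with
  | nil => simp at he
  | cons s l ih =>
    obtain ⟨h1, h2⟩ := hl.cons
    rw [List.map_cons, List.prod_cons]
    by_cases hs : s.1 = e
    · rw [if_pos hs]
      have h3 : (l.map fun s => if s.1 = e then c else 1) = l.map fun _ => 1 :=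
        List.map_congr_left fun t ht => if_neg fun h => h1 t ht (h.trans hs.symm)
      rw [h3]
      simp
    · rw [if_neg hs, one_mul]
      refine ih h2 ?_
      rw [List.map_cons, List.mem_cons] at he
      rcases he with h | h
      · exact absurd h.symm hs
      · exact h

/-- **The variance of a multi-affine function.** -/
theorem FF_var (hl : ∀ i, ND (l i)) (ha : ∀ i, 0 ≤ a i) {b : ℝ} (hb : 0 < b)
    (x : E × Cx N → ℝ) {K : ℕ} (hK : ∀ i, (l i).length ≤ K)
    (hx : ∀ e R, ‖mt x e * R‖ ^ 2 ≤ ‖R‖ ^ 2) (hx' : ∀ e R, ‖(mt x e)ᴴ * R‖ ^ 2 ≤ ‖R‖ ^ 2)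
    {c : ℝ} (hc : c = (Fintype.card (Cx N) : ℝ) * (1 / (2 * b))) :
    GE b (fun h => ‖FF a l (mt (x + h))‖ ^ 2) ≤ ‖FF a l (mt x)‖ ^ 2 +
      N * (c * (1 + c) ^ K) * ∑ e, (∑ i, if e ∈ (l i).map Prod.fst then a i else 0) ^ 2 := by
  have hc0 : 0 ≤ c := by rw [hc]; positivity
  have hstep : ∀ (e : E) (s : Finset E), e ∉ s →
      GE b (fun h => ‖Fe a l (mt (x + hs s h)) e (mt h e)‖ ^ 2) ≤
        N * (c * (1 + c) ^ K) * (∑ i, if e ∈ (l i).map Prod.fst then a i else 0) ^ 2 := by
    intro e s he
    obtain ⟨w, hw⟩ : ∃ w : ι → ℝ, w = fun i => if e ∈ (l i).map Prod.fst then a i else 0 :=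
      ⟨_, rfl⟩
    have hw0 : ∀ i, 0 ≤ w i := fun i => by
      rw [hw]; simp only; split_ifs
      · exact ha i
      · exact le_rfl
    have h1 : ∀ h, ‖Fe a l (mt (x + hs s h)) e (mt h e)‖ ^ 2 ≤
        (∑ i, w i) * ∑ i, w i * ‖pv (Function.update (mt (x + hs s h)) e (mt h e)) (l i)‖ ^ 2 :=
      fun h => by
        have := cs_sum (s := Finset.univ) hw0
          (fun i => pv (Function.update (mt (x + hs s h)) e (mt h e)) (l i))
        refine le_trans (le_of_eq ?_) this
        rw [hw]; rfl
    have hEi : ∀ i, EG fun h : E × Cx N → ℝ =>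
        ‖pv (Function.update (mt (x + hs s h)) e (mt h e)) (l i)‖ ^ 2 := fun i =>
      (EM.pv (EM_upd x s e) _).nsq
    have h2 := GE_mono hb (EM_Fe x s e).nsq
      ((EG.sum Finset.univ fun i _ => (hEi i).cmul (w i)).cmul (∑ i, w i)) h1
    refine h2.trans ?_
    rw [GE_cmul, GE_sum hb _ fun i _ => (hEi i).cmul (w i)]
    have h3 : ∀ i, GE b (fun h => w i *
        ‖pv (Function.update (mt (x + hs s h)) e (mt h e)) (l i)‖ ^ 2) ≤
        w i * (N * (c * (1 + c) ^ K)) := by
      intro i
      rw [GE_cmul]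
      by_cases hei : e ∈ (l i).map Prod.fst
      · refine mul_le_mul_of_nonneg_left ?_ (hw0 i)
        have h4 := pv_moment (N := N) hb (fun e' => if e' = e then (0 : Mat N) else mt x e')
          (fun e' => if e' = e then 1 else if e' ∈ s then (1 : ℝ) else 0)
          (fun e' => if e' = e then 0 else 1)
          (fun e' R => by
            split_ifs
            · simp
            · rw [one_mul]; exact hx e' R)
          (fun e' R => by
            split_ifs
            · simp
            · rw [one_mul]; exact hx' e' R)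
          (fun e' => by split_ifs <;> norm_num) (l i) (hl i)
        have h5 : (fun h : E × Cx N → ℝ =>
            ‖pv (Function.update (mt (x + hs s h)) e (mt h e)) (l i)‖ ^ 2) = fun h =>
            ‖pv (fun e' => (if e' = e then (0 : Mat N) else mt x e') +
              (if e' = e then 1 else if e' ∈ s then (1 : ℝ) else 0) • mt h e') (l i)‖ ^ 2 := by
          funext h
          congr 2
          refine pv_congr fun t _ => ?_
          by_cases ht : t.1 = e
          · rw [ht, Function.update_self]; simp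
          · rw [Function.update_of_ne ht, mt_fld]; simp [ht]
        rw [h5]
        refine h4.trans ?_
        rw [← hc]
        refine mul_le_mul_of_nonneg_left ?_ (Nat.cast_nonneg _)
        have h6 : ((l i).map fun t => (if t.1 = e then (0 : ℝ) else 1) +
            (if t.1 = e then 1 else if t.1 ∈ s then (1 : ℝ) else 0) ^ 2 * c).prod ≤
            ((l i).map fun t => (1 + c) * (if t.1 = e then c else 1)).prod := by
          refine List.prod_map_le_prod_map₀ _ _ (fun t _ => ?_) fun t _ => ?_
          · split_ifs <;> positivity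
          · split_ifs
            · nlinarith
            · nlinarith
            · nlinarith
        refine h6.trans ?_
        rw [List.prod_map_mul, prod_one (hl i) hei, List.map_const', List.prod_replicate, mul_comm]
        refine mul_le_mul_of_nonneg_left ?_ hc0
        exact pow_le_pow_right₀ (by linarith) (hK i)
      · have : w i = 0 := by rw [hw]; simp only [hei, if_false]
        rw [this, zero_mul, zero_mul]
    have h4 : ∑ i, GE b (fun h => w i *
        ‖pv (Function.update (mt (x + hs s h)) e (mt h e)) (l i)‖ ^ 2) ≤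
        (∑ i, w i) * (N * (c * (1 + c) ^ K)) := by
      rw [Finset.sum_mul]
      exact Finset.sum_le_sum fun i _ => h3 i
    have h5 : 0 ≤ ∑ i, w i := Finset.sum_nonneg fun i _ => hw0 i
    refine (mul_le_mul_of_nonneg_left h4 h5).trans (le_of_eq ?_)
    rw [hw]; ring
  have key : ∀ s : Finset E, GE b (fun h => ‖FF a l (mt (x + hs s h))‖ ^ 2) ≤
      ‖FF a l (mt x)‖ ^ 2 + N * (c * (1 + c) ^ K) *
        ∑ e ∈ s, (∑ i, if e ∈ (l i).map Prod.fst then a i else 0) ^ 2 := by
    intro s
    induction s using Finset.induction_on with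
    | empty =>
      simp only [hs_empty, add_zero, Finset.sum_empty, mul_zero]
      rw [GE_const hb]
    | insert e s he ih =>
      have h1 : GE b (fun h => ‖FF a l (mt (x + hs (insert e s) h))‖ ^ 2) =
          GE b (fun h => ‖FF a l (mt (x + hs s h))‖ ^ 2) +
            GE b (fun h => ‖Fe a l (mt (x + hs s h)) e (mt h e)‖ ^ 2) := by
        simp only [← nf_eq]
        rw [GE_sum hb _ fun c _ => (EM_FF x _ c).sq, GE_sum hb _ fun c _ => (EM_FF x _ c).sq,
          GE_sum hb _ fun c _ => (EM_Fe x s e c).sq, ← Finset.sum_add_distrib]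
        exact Finset.sum_congr rfl fun c _ => (step_one hl hb x he c).2
      rw [h1, Finset.sum_insert he]
      have h2 := hstep e s he
      rw [mul_add]
      linarith
  have := key Finset.univ
  simpa only [hs_univ] using this

end

end Pool.Agent.Y15
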