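import Mathlib
import Pool.Agent.Y15.Vari
import Pool.Agent.TH618.YM.RP

/-!
# Gaussian domination for functions of the boundary links of a reflection
-/

open MeasureTheory Matrix
open scoped Matrix.Norms.Frobenius
open Pool.Agent.H906R3.YM hiding Pl
open Pool.Agent.W793.YM

namespace Pool.Agent.Y15

set_option linter.unusedSectionVars false
set_option linter.unusedVariables false

noncomputable section

variable {E : Type*} [Fintype E] [DecidableEq E] {G : Type*} [Group G] [TopologicalSpace G]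
  [IsTopologicalGroup G] [CompactSpace G] [SecondCountableTopology G] [MeasurableSpace G]
  [BorelSpace G] (μ : Measure G) [IsProbabilityMeasure μ] [μ.IsMulLeftInvariant]
  [μ.IsMulRightInvariant] [μ.IsInvInvariant] {N n : ℕ} {L : LD G N n} (T : Refl E)

variable (L) in
/-- the coordinates of the boundary links -/
def av (U : E → G) : E × Cx N → ℝ := fun i => if i.1 ∈ T.J then co i.2 (L.rho (U i.1)) else 0

lemma av_cont : Continuous (av L T) := by
  refine continuous_pi fun i => ?_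
  unfold av
  split_ifs
  · exact (co i.2).continuous.comp (L.cont.comp (continuous_apply _))
  · exact continuous_const

lemma av_dep : Dep T.R (av L T) := by
  intro U U' h
  funext i
  unfold av
  split_ifs with hi
  · rw [h _ (T.J_R _ hi)]
  · rfl

lemma av_le (U : E → G) (i : E × Cx N) : |av L T U i| ≤ N := by
  unfold av
  split_ifs
  · exact co_le i.2 _
  · simp

lemma av_sq (U : E → G) : ∑ i, av L T U i ^ 2 = N * T.J.card := by
  rw [Fintype.sum_prod_type]
  have h1 : ∀ e : E, ∑ c : Cx N, av L T U (e, c) ^ 2 = if e ∈ T.J then (N : ℝ) else 0 := by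
    intro e
    unfold av
    split_ifs with he
    · simp only [he, if_true]
      rw [sum_co_sq, L.unit', trace_one, Fintype.card_fin]
      simp
    · simp [he]
  simp only [h1]
  rw [← Finset.sum_filter]
  simp [mul_comm]

lemma av_mul (U : E → G) : ∑ i, av L T U i * av L T (T.tU U) i = T.ker L U := by
  rw [T.ker_eq, Fintype.sum_prod_type, Fintype.sum_prod_type]
  have h1 : ∀ e : E, ∑ c : Cx N, av L T U (e, c) * av L T (T.tU U) (e, c) =
      if e ∈ T.J then ∑ c : Cx N, co c (L.rho (U e)) * co c (L.rho (T.tU U e)) else 0 := by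
    intro e
    unfold av
    split_ifs with he
    · simp only [he, if_true]
    · simp [he]
  simp only [h1]
  rw [← Finset.sum_filter]
  simp only [Finset.filter_mem_eq_inter, Finset.univ_inter]
  rw [← Finset.sum_coe_sort]
  rfl

/-- the two point weight -/
def kz (β : ℝ) (z x : E × Cx N → ℝ) : ℝ := Real.exp (-(β / 4 * ∑ i, (z i - 2 * x i) ^ 2))

lemma kz_mul (β : ℝ) (x y h : E × Cx N → ℝ) :
    kz β (x + y + h) x * kz β (x + y + h) y =
      Real.exp (-(β / 2 * ∑ i, (x i - y i) ^ 2)) * gw (β / 2) h := by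
  unfold kz gw
  rw [← Real.exp_add, ← Real.exp_add]
  congr 1
  rw [← neg_add, ← neg_add, ← mul_add, ← mul_add, ← Finset.sum_add_distrib,
    ← Finset.sum_add_distrib]
  congr 1
  rw [Finset.mul_sum, Finset.mul_sum]
  refine Finset.sum_congr rfl fun i _ => ?_
  simp only [Pi.add_apply]
  ring

lemma ex_ker (β : ℝ) (U : E → G) :
    Real.exp (-(β / 2 * ∑ i, (av L T U i - av L T (T.tU U) i) ^ 2)) =
      Real.exp (-(β * (N * T.J.card))) * Real.exp (β * T.ker L U) := by
  rw [← Real.exp_add]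
  congr 1
  have h1 : ∑ i, (av L T U i - av L T (T.tU U) i) ^ 2 =
      ∑ i, av L T U i ^ 2 + ∑ i, av L T (T.tU U) i ^ 2 -
        2 * ∑ i, av L T U i * av L T (T.tU U) i := by
    rw [Finset.mul_sum, ← Finset.sum_add_distrib, ← Finset.sum_sub_distrib]
    exact Finset.sum_congr rfl fun i _ => by ring
  rw [h1, av_sq, av_sq, av_mul]; ring

lemma kz_le {β : ℝ} (hβ : 0 ≤ β) (z x : E × Cx N → ℝ) (hx : ∀ i, |x i| ≤ N) :
    kz β z x ≤ Real.exp (β * (Fintype.card (E × Cx N) * N ^ 2)) * gw (β / 8) z := by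
  unfold kz gw
  rw [← Real.exp_add]
  refine Real.exp_le_exp.2 ?_
  have h1 : ∀ i, z i ^ 2 / 2 - 4 * (N : ℝ) ^ 2 ≤ (z i - 2 * x i) ^ 2 := by
    intro i
    have h2 : x i ^ 2 ≤ (N : ℝ) ^ 2 := by
      rw [← sq_abs]
      exact pow_le_pow_left₀ (abs_nonneg _) (hx i) 2
    nlinarith [sq_nonneg (z i / 2 - 2 * x i * 1), sq_nonneg (z i - 4 * x i)]
  have h2 : ∑ i, (z i ^ 2 / 2 - 4 * (N : ℝ) ^ 2) ≤ ∑ i, (z i - 2 * x i) ^ 2 :=
    Finset.sum_le_sum fun i _ => h1 i
  rw [Finset.sum_sub_distrib, Finset.sum_const, Finset.card_univ, nsmul_eq_mul,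
    ← Finset.sum_div] at h2
  have h3 := mul_le_mul_of_nonneg_left h2 (by positivity : 0 ≤ β / 4)
  linarith

lemma abs_add_sum (x y : E × Cx N → ℝ) : ∑ i, |(x + y) i| ≤ ∑ i, |x i| + ∑ i, |y i| := by
  rw [← Finset.sum_add_distrib]
  exact Finset.sum_le_sum fun i _ => abs_add_le _ _

lemma EG.shift {f : (E × Cx N → ℝ) → ℝ} (hf : EG f) (x : E × Cx N → ℝ) :
    EG fun h => f (x + h) := by
  refine hf.comp (continuous_const.add continuous_id) (B := 1) (D := ∑ i, |x i|)
    zero_le_one fun h => ?_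
  have := abs_add_sum x h
  linarith

variable {f : (E × Cx N → ℝ) → ℝ}

/-- the integrand -/
def Gz (L : LD G N n) (T : Refl E) (β : ℝ) (w : (E → G) → ℝ) (f : (E × Cx N → ℝ) → ℝ)
    (z : E × Cx N → ℝ) (U : E → G) : ℝ :=
  w U * kz β z (av L T U) * (f (av L T U) - f (z - av L T U))

lemma Gz_cont {β : ℝ} {w : (E → G) → ℝ} (hw : Continuous w) (hf : Continuous f) :
    Continuous fun p : (E × Cx N → ℝ) × (E → G) => Gz L T β w f p.1 p.2 := by
  unfold Gz kz
  have h1 : Continuous fun p : (E × Cx N → ℝ) × (E → G) => av L T p.2 :=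
    (av_cont T).comp continuous_snd
  refine ((hw.comp continuous_snd).mul ?_).mul ((hf.comp h1).sub
    (hf.comp (continuous_fst.sub h1)))
  refine Real.continuous_exp.comp (continuous_const.mul (continuous_finsetSum _ fun i _ => ?_)).neg
  exact (((continuous_apply i).comp continuous_fst).sub
    (continuous_const.mul ((continuous_apply i).comp h1))).pow 2

lemma Gz_dep {β : ℝ} {w : (E → G) → ℝ} (hd : Dep T.R w) (z : E × Cx N → ℝ) :
    Dep T.R (Gz L T β w f z) := by
  intro U U' h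
  unfold Gz
  rw [hd U U' h, av_dep T U U' h]

lemma Gz_bound {β : ℝ} (hβ : 0 ≤ β) {w : (E → G) → ℝ} (hw : Continuous w) (hf : EG f) :
    ∃ A C : ℝ, ∀ z U, |Gz L T β w f z U| ≤ C * (Real.exp (A * ∑ i, |z i|) * gw (β / 8) z) := by
  obtain ⟨cf, A, C, hA, hC, h1⟩ := hf
  obtain ⟨Mw, hMw⟩ : ∃ M, ∀ U, |w U| ≤ M := by
    obtain ⟨M, hM⟩ := (isCompact_univ.image hw.norm).bddAbove
    exact ⟨M, fun U => hM ⟨U, trivial, rfl⟩⟩
  have hMw0 : 0 ≤ Mw := (abs_nonneg _).trans (hMw 1)
  obtain ⟨D, hD⟩ : ∃ D : ℝ, D = Fintype.card (E × Cx N) * N := ⟨_, rfl⟩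
  have hD0 : 0 ≤ D := by rw [hD]; positivity
  have hav : ∀ U : E → G, ∑ i, |av L T U i| ≤ D := by
    intro U
    refine (Finset.sum_le_sum fun i _ => av_le T U i).trans ?_
    rw [Finset.sum_const, Finset.card_univ, nsmul_eq_mul, hD]
  refine ⟨A, Mw * Real.exp (β * (Fintype.card (E × Cx N) * N ^ 2)) *
    (2 * C * Real.exp (A * D)), fun z U => ?_⟩
  have hS : 0 ≤ ∑ i, |z i| := Finset.sum_nonneg fun _ _ => abs_nonneg _
  unfold Gz
  rw [abs_mul, abs_mul]
  have hk0 : 0 ≤ kz β z (av L T U) := (Real.exp_pos _).le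
  have e1 : |kz β z (av L T U)| ≤ Real.exp (β * (Fintype.card (E × Cx N) * N ^ 2)) *
      gw (β / 8) z := by
    rw [abs_of_nonneg hk0]
    exact kz_le hβ z _ (av_le T U)
  have e2 : |f (av L T U)| ≤ C * (Real.exp (A * D) * Real.exp (A * ∑ i, |z i|)) := by
    refine (h1 _).trans (mul_le_mul_of_nonneg_left ?_ hC)
    rw [← Real.exp_add]
    refine Real.exp_le_exp.2 ?_
    have := mul_le_mul_of_nonneg_left (hav U) hA
    have := mul_nonneg hA hS
    linarith
  have e3 : |f (z - av L T U)| ≤ C * (Real.exp (A * D) * Real.exp (A * ∑ i, |z i|)) := by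
    refine (h1 _).trans (mul_le_mul_of_nonneg_left ?_ hC)
    rw [← Real.exp_add]
    refine Real.exp_le_exp.2 ?_
    have h3 : ∑ i, |(z - av L T U) i| ≤ ∑ i, |z i| + ∑ i, |av L T U i| := by
      rw [← Finset.sum_add_distrib]
      exact Finset.sum_le_sum fun i _ => abs_sub _ _
    have h4 := mul_le_mul_of_nonneg_left (h3.trans (add_le_add_right (hav U) _)) hA
    linarith
  have e4 : |f (av L T U) - f (z - av L T U)| ≤
      2 * C * Real.exp (A * D) * Real.exp (A * ∑ i, |z i|) := by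
    refine (abs_sub _ _).trans ?_
    linarith
  calc |w U| * |kz β z (av L T U)| * |f (av L T U) - f (z - av L T U)| ≤
      (Mw * (Real.exp (β * (Fintype.card (E × Cx N) * N ^ 2)) * gw (β / 8) z)) *
        (2 * C * Real.exp (A * D) * Real.exp (A * ∑ i, |z i|)) := by
        refine mul_le_mul (mul_le_mul (hMw U) e1 (abs_nonneg _) hMw0) e4 (abs_nonneg _) ?_
        exact mul_nonneg hMw0 (mul_nonneg (Real.exp_pos _).le (gw_pos _ _).le)
    _ = _ := by ring

lemma Gz_int {β : ℝ} (hβ : 0 < β) {w : (E → G) → ℝ} (hw : Continuous w) (hf : EG f) :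
    Integrable (fun p : (E × Cx N → ℝ) × (E → G) => Gz L T β w f p.1 p.2 *
      Gz L T β w f p.1 (T.tU p.2)) (volume.prod (ME μ E)) := by
  obtain ⟨A, C, hb⟩ := Gz_bound (L := L) T hβ.le hw hf
  have h1 : Integrable fun z : E × Cx N → ℝ => C ^ 2 * (Real.exp (2 * A * ∑ i, |z i|) *
      gw (β / 4) z) := (intA (by positivity) _).const_mul _
  refine (h1.comp_fst (ME μ E)).mono' ?_ (Filter.Eventually.of_forall fun p => ?_)
  · have c1 := Gz_cont (L := L) T (β := β) hw hf.cont
    have c2 : Continuous fun p : (E × Cx N → ℝ) × (E → G) => Gz L T β w f p.1 (T.tU p.2) :=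
      c1.comp (continuous_fst.prodMk (T.tU_cont.comp continuous_snd))
    exact (c1.mul c2).aestronglyMeasurable
  · rw [norm_mul, Real.norm_eq_abs, Real.norm_eq_abs]
    have e1 := hb p.1 p.2
    have e2 := hb p.1 (T.tU p.2)
    refine (mul_le_mul e1 e2 (abs_nonneg _) ((abs_nonneg _).trans e1)).trans (le_of_eq ?_)
    have e3 : gw (β / 8) p.1 * gw (β / 8) p.1 = gw (β / 4) p.1 := by
      unfold gw
      rw [← Real.exp_add]
      congr 1; ring
    have e4 : Real.exp (A * ∑ i, |p.1 i|) * Real.exp (A * ∑ i, |p.1 i|) =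
        Real.exp (2 * A * ∑ i, |p.1 i|) := by
      rw [← Real.exp_add]
      congr 1; ring
    rw [← e3, ← e4]; ring

/-- the function of the two boundary configurations -/
def Ph (β : ℝ) (f : (E × Cx N → ℝ) → ℝ) (x y : E × Cx N → ℝ) : ℝ :=
  GE (β / 2) fun h => (f x - f (y + h)) * (f y - f (x + h))

/-- positivity with the intermediate variable integrated -/
theorem gd_pos {β : ℝ} (hβ : 0 < β) {w : (E → G) → ℝ} (hw : Continuous w) (hd : Dep T.R w)
    (hf : EG f) :
    Integrable (fun U => Ph β f (av L T U) (av L T (T.tU U)) *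
      (w U * w (T.tU U) * Real.exp (β * T.ker L U))) (ME μ E) ∧
    0 ≤ T.Ew μ L β w fun U => Ph β f (av L T U) (av L T (T.tU U)) := by
  have hI := Gz_int μ (L := L) T hβ hw hf
  obtain ⟨κ0, hκ0⟩ : ∃ κ0 : ℝ, κ0 = gz (E × Cx N) (β / 2) * Real.exp (-(β * (N * T.J.card))) :=
    ⟨_, rfl⟩
  have hz0 := gz_pos (κ := E × Cx N) (by positivity : 0 < β / 2)
  have hκ1 : 0 < κ0 := by rw [hκ0]; exact mul_pos hz0 (Real.exp_pos _)
  have h1 : 0 ≤ ∫ z, ∫ U, Gz L T β w f z U * Gz L T β w f z (T.tU U) ∂(ME μ E) := by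
    refine integral_nonneg fun z => ?_
    have := T.sq μ (Gz_dep (f := f) (L := L) T (β := β) hd z)
    show 0 ≤ ∫ U, Gz L T β w f z U * Gz L T β w f z (T.tU U) ∂(ME μ E)
    rw [this]
    exact sq_nonneg _
  rw [integral_integral_swap hI] at h1
  have h2 : ∀ U : E → G, ∫ z, Gz L T β w f z U * Gz L T β w f z (T.tU U) =
      κ0 * (Ph β f (av L T U) (av L T (T.tU U)) *
        (w U * w (T.tU U) * Real.exp (β * T.ker L U))) := by
    intro U
    obtain ⟨x, hx⟩ : ∃ x, x = av L T U := ⟨_, rfl⟩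
    obtain ⟨y, hy⟩ : ∃ y, y = av L T (T.tU U) := ⟨_, rfl⟩
    have e1 := integral_add_left_eq_self (μ := (volume : Measure (E × Cx N → ℝ)))
      (fun z => Gz L T β w f z U * Gz L T β w f z (T.tU U)) (x + y)
    rw [← e1]
    have e2 : ∀ h : E × Cx N → ℝ, Gz L T β w f (x + y + h) U *
        Gz L T β w f (x + y + h) (T.tU U) =
        (w U * w (T.tU U) * Real.exp (-(β / 2 * ∑ i, (x i - y i) ^ 2))) *
          ((f x - f (y + h)) * (f y - f (x + h)) * gw (β / 2) h) := by
      intro h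
      unfold Gz
      rw [← hx, ← hy]
      have f1 : x + y + h - x = y + h := by abel
      have f2 : x + y + h - y = x + h := by abel
      rw [f1, f2]
      have f3 := kz_mul β x y h
      calc _ = (w U * w (T.tU U)) * (kz β (x + y + h) x * kz β (x + y + h) y) *
          ((f x - f (y + h)) * (f y - f (x + h))) := by ring
        _ = _ := by rw [f3]; ring
    simp only [e2]
    rw [integral_const_mul, hx, hy, ex_ker, hκ0]
    unfold Ph GE
    field_simp
  have h3 : ∀ U : E → G, Ph β f (av L T U) (av L T (T.tU U)) *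
        (w U * w (T.tU U) * Real.exp (β * T.ker L U)) = κ0⁻¹ *
      ∫ z, Gz L T β w f z U * Gz L T β w f z (T.tU U) := by
    intro U
    rw [h2, inv_mul_cancel_left₀ hκ1.ne']
  constructor
  · simp only [h3]
    exact (hI.integral_prod_right).const_mul _
  · unfold Refl.Ew
    simp only [h3]
    rw [integral_const_mul]
    exact mul_nonneg (inv_nonneg.2 hκ1.le) h1

lemma Ph_le {β : ℝ} (hβ : 0 < β) (hf : EG f)
    (hm : ∀ x, GE (β / 2) (fun h => f (x + h)) = f x) (x y : E × Cx N → ℝ) :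
    Ph β f x y ≤ 1 / 2 * ((GE (β / 2) (fun h => f (x + h) ^ 2) - f x ^ 2) +
      (GE (β / 2) (fun h => f (y + h) ^ 2) - f y ^ 2)) - (f x - f y) ^ 2 := by
  have hb : 0 < β / 2 := by positivity
  have s1 := hf.shift x
  have s2 := hf.shift y
  unfold Ph
  have q5 : EG fun h : E × Cx N → ℝ => (f x - 2 * f y) * f (y + h) +
      1 / 2 * (f x ^ 2 + f y ^ 2) := (s2.cmul _).add (EG.const _)
  have q4 : EG fun h : E × Cx N → ℝ => (f y - 2 * f x) * f (x + h) +
      ((f x - 2 * f y) * f (y + h) + 1 / 2 * (f x ^ 2 + f y ^ 2)) := (s1.cmul _).add q5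
  have q3 : EG fun h : E × Cx N → ℝ => 1 / 2 * f (y + h) ^ 2 + ((f y - 2 * f x) * f (x + h) +
      ((f x - 2 * f y) * f (y + h) + 1 / 2 * (f x ^ 2 + f y ^ 2))) := (s2.sq.cmul _).add q4
  have h1 : GE (β / 2) (fun h => (f x - f (y + h)) * (f y - f (x + h))) ≤
      GE (β / 2) (fun h => 1 / 2 * f (x + h) ^ 2 + (1 / 2 * f (y + h) ^ 2 +
        ((f y - 2 * f x) * f (x + h) + ((f x - 2 * f y) * f (y + h) +
          1 / 2 * (f x ^ 2 + f y ^ 2))))) := by
    refine GE_mono hb (((EG.const _).sub s2).mul ((EG.const _).sub s1))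
      ((s1.sq.cmul _).add q3) fun h => ?_
    nlinarith [sq_nonneg ((f (x + h) - f x) - (f (y + h) - f y))]
  refine h1.trans (le_of_eq ?_)
  rw [GE_add hb (s1.sq.cmul _) q3, GE_add hb (s2.sq.cmul _) q4, GE_add hb (s1.cmul _) q5,
    GE_add hb (s2.cmul _) (EG.const _), GE_const hb, GE_cmul, GE_cmul, GE_cmul, GE_cmul, hm, hm]
  ring

/-- **Gaussian domination.** -/
theorem gd_main {β : ℝ} (hβ : 0 < β) {w : (E → G) → ℝ} (hw : Continuous w) (hd : Dep T.R w)
    (hw0 : ∀ U, 0 ≤ w U) {F : (E × Cx N → ℝ) → Mat N} (hF : EM F)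
    (hm : ∀ x c, GE (β / 2) (fun h => co c (F (x + h))) = co c (F x)) {B : ℝ}
    (hB : ∀ U : E → G, GE (β / 2) (fun h => ‖F (av L T U + h)‖ ^ 2) ≤
      ‖F (av L T U)‖ ^ 2 + B) :
    T.Ew μ L β w (fun U => ‖F (av L T U) - F (av L T (T.tU U))‖ ^ 2) ≤
      B * T.Ew μ L β w (fun _ => 1) := by
  have hb : 0 < β / 2 := by positivity
  have hP := fun c => gd_pos μ (L := L) T hβ hw hd (hF c)
  obtain ⟨W, hW⟩ : ∃ W : (E → G) → ℝ, W = fun U => w U * w (T.tU U) * Real.exp (β * T.ker L U) :=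
    ⟨_, rfl⟩
  have hWc : Continuous W := by rw [hW]; exact T.wt_cont hw
  have hW0 : ∀ U, 0 ≤ W U := fun U => by
    rw [hW]
    exact mul_nonneg (mul_nonneg (hw0 _) (hw0 _)) (Real.exp_pos _).le
  have hFc : Continuous F := by
    refine continuous_matrix fun i j => ?_
    have h1 : (fun x => F x i j) = fun x => ((co (i, j, true) (F x) : ℝ) : ℂ) +
        ((co (i, j, false) (F x) : ℝ) : ℂ) * Complex.I := by
      funext x
      exact (Complex.re_add_im _).symm
    rw [h1]
    exact (Complex.continuous_ofReal.comp (hF _).cont).add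
      ((Complex.continuous_ofReal.comp (hF _).cont).mul continuous_const)
  -- pointwise
  have hpt : ∀ U, ∑ c, Ph β (fun x => co c (F x)) (av L T U) (av L T (T.tU U)) ≤
      B - ‖F (av L T U) - F (av L T (T.tU U))‖ ^ 2 := by
    intro U
    obtain ⟨x, hx⟩ : ∃ x, x = av L T U := ⟨_, rfl⟩
    obtain ⟨y, hy⟩ : ∃ y, y = av L T (T.tU U) := ⟨_, rfl⟩
    have h1 := Finset.sum_le_sum fun c (_ : c ∈ (Finset.univ : Finset (Cx N))) =>
      Ph_le hβ (hF c) (fun x => hm x c) x y
    have hx1 := hB U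
    have hy1 := hB (T.tU U)
    rw [← hx] at hx1
    rw [← hy] at hy1
    rw [← hx, ← hy]
    refine h1.trans ?_
    have e1 : ∀ z, GE (β / 2) (fun h => ‖F (z + h)‖ ^ 2) =
        ∑ c, GE (β / 2) (fun h => co c (F (z + h)) ^ 2) := by
      intro z
      simp only [← nf_eq]
      exact GE_sum hb _ fun c _ => ((hF c).shift z).sq
    have e2 : ∑ c, (co c (F x) - co c (F y)) ^ 2 = ‖F x - F y‖ ^ 2 := by
      rw [← nf_eq]
      exact Finset.sum_congr rfl fun c _ => by rw [map_sub]
    rw [Finset.sum_sub_distrib, ← Finset.mul_sum, Finset.sum_add_distrib, Finset.sum_sub_distrib,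
      Finset.sum_sub_distrib, ← e1, ← e1, nf_eq, nf_eq, e2]
    linarith
  have h1 : 0 ≤ ∑ c, T.Ew μ L β w fun U =>
      Ph β (fun x => co c (F x)) (av L T U) (av L T (T.tU U)) :=
    Finset.sum_nonneg fun c _ => (hP c).2
  unfold Refl.Ew at h1
  rw [← integral_finsetSum _ fun c _ => (hP c).1] at h1
  have i1 : Integrable (fun U => ∑ c, Ph β (fun x => co c (F x)) (av L T U) (av L T (T.tU U)) *
      (w U * w (T.tU U) * Real.exp (β * T.ker L U))) (ME μ E) :=
    integrable_finsetSum _ fun c _ => (hP c).1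
  have c1 : Continuous fun U : E → G => ‖F (av L T U) - F (av L T (T.tU U))‖ ^ 2 :=
    ((hFc.comp (av_cont T)).sub (hFc.comp ((av_cont T).comp T.tU_cont))).norm.pow 2
  have i2 : Integrable (fun U => (B - ‖F (av L T U) - F (av L T (T.tU U))‖ ^ 2) *
      (w U * w (T.tU U) * Real.exp (β * T.ker L U))) (ME μ E) :=
    integrable_cont μ ((continuous_const.sub c1).mul (T.wt_cont hw))
  have h2 : 0 ≤ ∫ U, (B - ‖F (av L T U) - F (av L T (T.tU U))‖ ^ 2) *
      (w U * w (T.tU U) * Real.exp (β * T.ker L U)) ∂(ME μ E) := by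
    refine h1.trans (integral_mono i1 i2 fun U => ?_)
    simp only
    rw [← Finset.sum_mul]
    refine mul_le_mul_of_nonneg_right (hpt U) ?_
    exact mul_nonneg (mul_nonneg (hw0 _) (hw0 _)) (Real.exp_pos _).le
  have h3 : T.Ew μ L β w (fun U => B - ‖F (av L T U) - F (av L T (T.tU U))‖ ^ 2) =
      B * T.Ew μ L β w (fun _ => 1) -
        T.Ew μ L β w (fun U => ‖F (av L T U) - F (av L T (T.tU U))‖ ^ 2) := by
    have e1 := T.Ew_add μ (L := L) (β := β) hw (F := fun _ => B) (H := fun U =>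
      (-1) * ‖F (av L T U) - F (av L T (T.tU U))‖ ^ 2) continuous_const (continuous_const.mul c1)
    have e2 := T.Ew_smul μ (L := L) (β := β) (w := w) (F := fun _ => 1) B
    have e3 := T.Ew_smul μ (L := L) (β := β) (w := w)
      (F := fun U => ‖F (av L T U) - F (av L T (T.tU U))‖ ^ 2) (-1)
    simp only [mul_one] at e2
    rw [e2, e3] at e1
    have e4 : (fun U => B - ‖F (av L T U) - F (av L T (T.tU U))‖ ^ 2) =
      fun U => B + (-1) * ‖F (av L T U) - F (av L T (T.tU U))‖ ^ 2 := by funext U; ring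
    rw [e4, e1]; ring
  have h4 : 0 ≤ T.Ew μ L β w (fun U => B - ‖F (av L T U) - F (av L T (T.tU U))‖ ^ 2) := h2
  rw [h3] at h4
  linarith

end

end Pool.Agent.Y15
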