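import Mathlib
import Pool.Agent.Y15.GD

/-!
# Displacement of functions of one layer
-/

open MeasureTheory Matrix
open scoped Matrix.Norms.Frobenius
open Pool.Agent.H906R3.YM hiding Pl
open Pool.Agent.W793.YM Pool.Agent.TH618.YM

namespace Pool.Agent.Y15

set_option linter.unusedSectionVars false
set_option linter.unusedVariables false

noncomputable section

variable {G : Type*} [Group G] [TopologicalSpace G]
  [IsTopologicalGroup G] [CompactSpace G] [SecondCountableTopology G] [MeasurableSpace G]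
  [BorelSpace G] (μ : Measure G) [IsProbabilityMeasure μ] [μ.IsMulLeftInvariant]
  [μ.IsMulRightInvariant] [μ.IsInvInvariant] {N n : ℕ} {L : LD G N n}

section mink

variable {E : Type*} [Fintype E] [DecidableEq E]

/-- weighted integral -/
def QW (W F : (E → G) → ℝ) : ℝ := ∫ U, F U * W U ∂(ME μ E)

lemma QW_nonneg {W F : (E → G) → ℝ} (hW0 : ∀ U, 0 ≤ W U) (h : ∀ U, 0 ≤ F U) : 0 ≤ QW μ W F :=
  integral_nonneg fun U => mul_nonneg (h U) (hW0 U)

/-- the square root of the second moment -/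
def SN (W : (E → G) → ℝ) (X : (E → G) → Mat N) : ℝ := Real.sqrt (QW μ W fun U => ‖X U‖ ^ 2)

lemma SN_nonneg (W : (E → G) → ℝ) (X : (E → G) → Mat N) : 0 ≤ SN μ W X := Real.sqrt_nonneg _

lemma SN_sq {W : (E → G) → ℝ} (hW0 : ∀ U, 0 ≤ W U) (X : (E → G) → Mat N) :
    SN μ W X ^ 2 = QW μ W fun U => ‖X U‖ ^ 2 :=
  Real.sq_sqrt (QW_nonneg μ hW0 fun U => sq_nonneg _)

/-- Minkowski's inequality -/
theorem mink {W : (E → G) → ℝ} (hW : Continuous W) (hW0 : ∀ U, 0 ≤ W U)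
    {X Y : (E → G) → Mat N} (hX : Continuous X) (hY : Continuous Y) :
    SN μ W (fun U => X U + Y U) ≤ SN μ W X + SN μ W Y := by
  obtain ⟨a, ha⟩ : ∃ a, a = QW μ W fun U => ‖X U‖ ^ 2 := ⟨_, rfl⟩
  obtain ⟨c, hc⟩ : ∃ c, c = QW μ W fun U => ‖Y U‖ ^ 2 := ⟨_, rfl⟩
  obtain ⟨b, hb⟩ : ∃ b, b = QW μ W fun U => ‖X U‖ * ‖Y U‖ := ⟨_, rfl⟩
  have ia : Integrable (fun U => ‖X U‖ ^ 2 * W U) (ME μ E) :=
    integrable_cont μ ((hX.norm.pow 2).mul hW)
  have ic : Integrable (fun U => ‖Y U‖ ^ 2 * W U) (ME μ E) :=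
    integrable_cont μ ((hY.norm.pow 2).mul hW)
  have ib : Integrable (fun U => ‖X U‖ * ‖Y U‖ * W U) (ME μ E) :=
    integrable_cont μ ((hX.norm.mul hY.norm).mul hW)
  have ha0 : 0 ≤ a := by rw [ha]; exact QW_nonneg μ hW0 fun U => sq_nonneg _
  have hc0 : 0 ≤ c := by rw [hc]; exact QW_nonneg μ hW0 fun U => sq_nonneg _
  have hlin : ∀ t : ℝ, ∫ U, (‖X U‖ + t * ‖Y U‖) ^ 2 * W U ∂(ME μ E) =
      a + 2 * t * b + t ^ 2 * c := by
    intro t
    rw [ha, hb, hc]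
    unfold QW
    have iab : Integrable (fun U => ‖X U‖ ^ 2 * W U + 2 * t * (‖X U‖ * ‖Y U‖ * W U)) (ME μ E) :=
      ia.add (ib.const_mul _)
    rw [← integral_const_mul, ← integral_const_mul, ← integral_add ia (ib.const_mul _),
      ← integral_add iab (ic.const_mul _)]
    refine integral_congr_ae (Filter.Eventually.of_forall fun U => ?_)
    simp only
    ring
  have hcs : b ^ 2 ≤ a * c := Pool.Agent.H906R3.YM.sq_le_of_forall fun t => by
    rw [← hlin t]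
    exact integral_nonneg fun U => mul_nonneg (sq_nonneg _) (hW0 U)
  have hb0 : 0 ≤ b := by
    rw [hb]; exact QW_nonneg μ hW0 fun U => mul_nonneg (norm_nonneg _) (norm_nonneg _)
  have hb1 : b ≤ Real.sqrt a * Real.sqrt c := by
    rw [← Real.sqrt_mul ha0]
    exact Real.le_sqrt_of_sq_le hcs
  unfold SN
  rw [← ha, ← hc]
  refine Real.sqrt_le_iff.2 ⟨by positivity, ?_⟩
  have h1 : QW μ W (fun U => ‖X U + Y U‖ ^ 2) ≤
      ∫ U, (‖X U‖ + 1 * ‖Y U‖) ^ 2 * W U ∂(ME μ E) := by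
    unfold QW
    refine integral_mono (integrable_cont μ (((hX.add hY).norm.pow 2).mul hW))
      (integrable_cont μ (((hX.norm.add (continuous_const.mul hY.norm)).pow 2).mul hW))
      fun U => ?_
    refine mul_le_mul_of_nonneg_right ?_ (hW0 U)
    rw [one_mul]
    exact pow_le_pow_left₀ (norm_nonneg _) (norm_add_le _ _) 2
  rw [hlin 1] at h1
  refine h1.trans ?_
  rw [add_sq, Real.sq_sqrt ha0, Real.sq_sqrt hc0]
  nlinarith

/-- positivity for matrix functions of one half -/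
theorem rp_mat (T : Refl E) {β : ℝ} (hβ : 0 ≤ β) {w : (E → G) → ℝ} (hw : Continuous w)
    (hd : Dep T.R w) (hw0 : ∀ U, 0 ≤ w U) {Y : (E → G) → Mat N} (hY : Continuous Y)
    (hYd : Dep T.R Y) :
    SN μ (fun U => w U * w (T.tU U) * Real.exp (β * T.ker L U)) (fun U => Y U - Y (T.tU U)) ≤
      Real.sqrt 2 * SN μ (fun U => w U * w (T.tU U) * Real.exp (β * T.ker L U)) Y := by
  obtain ⟨W, hW⟩ : ∃ W : (E → G) → ℝ, W = fun U => w U * w (T.tU U) * Real.exp (β * T.ker L U) :=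
    ⟨_, rfl⟩
  have hWc : Continuous W := by rw [hW]; exact T.wt_cont hw
  have hW0 : ∀ U, 0 ≤ W U := fun U => by
    rw [hW]
    exact mul_nonneg (mul_nonneg (hw0 _) (hw0 _)) (Real.exp_pos _).le
  have hWt : ∀ U, W (T.tU U) = W U := fun U => by
    rw [hW]
    simp only
    rw [T.tU_tU, T.ker_tU]; ring
  rw [← hW]
  unfold SN
  rw [← Real.sqrt_mul (by norm_num : (0 : ℝ) ≤ 2)]
  refine Real.sqrt_le_sqrt ?_
  have hYt : Continuous fun U => Y (T.tU U) := hY.comp T.tU_cont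
  have i1 : ∀ c : Cx N, Integrable (fun U => co c (Y U) * co c (Y (T.tU U)) * W U) (ME μ E) :=
    fun c => integrable_cont μ ((((co c).continuous.comp hY).mul ((co c).continuous.comp hYt)).mul
      hWc)
  have hpos : 0 ≤ ∑ c : Cx N, ∫ U, co c (Y U) * co c (Y (T.tU U)) * W U ∂(ME μ E) := by
    refine Finset.sum_nonneg fun c _ => ?_
    have h1 := T.B_self μ (L := L) hβ (f := fun U => co c (Y U) * w U)
      (((co c).continuous.comp hY).mul hw) (fun U U' h => by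
        show co c (Y U) * w U = co c (Y U') * w U'
        rw [hYd U U' h, hd U U' h])
    unfold Refl.B at h1
    refine h1.trans (le_of_eq (integral_congr_ae (Filter.Eventually.of_forall fun U => ?_)))
    simp only
    rw [hW]
    ring
  rw [← integral_finsetSum _ fun c _ => i1 c] at hpos
  have i2 : Integrable (fun U => ‖Y U‖ ^ 2 * W U) (ME μ E) :=
    integrable_cont μ ((hY.norm.pow 2).mul hWc)
  have i3 : Integrable (fun U => ‖Y (T.tU U)‖ ^ 2 * W U) (ME μ E) :=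
    integrable_cont μ ((hYt.norm.pow 2).mul hWc)
  have i4 : Integrable (fun U => ∑ c : Cx N, co c (Y U) * co c (Y (T.tU U)) * W U) (ME μ E) :=
    integrable_finsetSum _ fun c _ => i1 c
  have e1 : ∫ U, ‖Y (T.tU U)‖ ^ 2 * W U ∂(ME μ E) = ∫ U, ‖Y U‖ ^ 2 * W U ∂(ME μ E) := by
    rw [← T.integral μ (fun U => ‖Y U‖ ^ 2 * W U)]
    refine integral_congr_ae (Filter.Eventually.of_forall fun U => ?_)
    simp only
    rw [hWt]
  have e2 : QW μ W (fun U => ‖Y U - Y (T.tU U)‖ ^ 2) =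
      (∫ U, ‖Y U‖ ^ 2 * W U ∂(ME μ E) + ∫ U, ‖Y (T.tU U)‖ ^ 2 * W U ∂(ME μ E)) -
        2 * ∫ U, ∑ c : Cx N, co c (Y U) * co c (Y (T.tU U)) * W U ∂(ME μ E) := by
    unfold QW
    have i5 : Integrable (fun U => ‖Y U‖ ^ 2 * W U + ‖Y (T.tU U)‖ ^ 2 * W U) (ME μ E) :=
      i2.add i3
    rw [← integral_add i2 i3, ← integral_const_mul, ← integral_sub i5 (i4.const_mul _)]
    refine integral_congr_ae (Filter.Eventually.of_forall fun U => ?_)
    simp only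
    rw [← nf_eq, ← nf_eq, ← nf_eq, Finset.sum_mul, Finset.sum_mul, Finset.sum_mul, Finset.mul_sum,
      ← Finset.sum_add_distrib, ← Finset.sum_sub_distrib]
    refine Finset.sum_congr rfl fun c _ => ?_
    rw [map_sub]; ring
  rw [e2, e1]
  unfold QW
  linarith

end mink

variable {d m : ℕ} [NeZero m]

/-- functions of one layer, transported between two points -/
structure IsS (L : LD G N n) (τ : Fin d) (p0 p1 : Fin d → ZMod (2 * m))
    (S : (Ed d (2 * m) → G) → Mat N) : Prop where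
  cont : Continuous S
  loc : ∀ U U', (∀ x k, k ≠ τ → x τ = 1 → U (x, k) = U' (x, k)) → S U = S U'
  cov : ∀ γ U, S (gt γ U) = L.rho (γ p0) * S U * (L.rho (γ p1))ᴴ

/-- the displaced function -/
def Hn (L : LD G N n) (τ : Fin d) (p0 p1 : Fin d → ZMod (2 * m)) (t : ℕ)
    (S : (Ed d (2 * m) → G) → Mat N) (U : Ed d (2 * m) → G) : Mat N :=
  L.rho (ln U τ t p0) * S (tr (t • eT τ) U) * (L.rho (ln U τ t p1))ᴴ

variable {τ : Fin d} {p0 p1 : Fin d → ZMod (2 * m)} {S : (Ed d (2 * m) → G) → Mat N}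

lemma norm_uu (g h : G) (A : Mat N) : ‖L.rho g * A * (L.rho h)ᴴ‖ = ‖A‖ := by
  rw [← L.rho_inv, norm_rmul, norm_lmul]

lemma Hn_cont (hS : Continuous S) (t : ℕ) : Continuous (Hn L τ p0 p1 t S) :=
  ((L.cont.comp (ln_cont _ _ _)).mul (hS.comp (tr_cont _))).mul
    (L.cont.comp (ln_cont _ _ _)).matrix_conjTranspose

lemma Hn_zero (U : Ed d (2 * m) → G) : Hn L τ p0 p1 0 S U = S U := by
  unfold Hn
  rw [ln_zero, ln_zero, map_one, conjTranspose_one, one_mul, mul_one, zero_smul]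
  congr 1
  funext e
  unfold tr
  rw [add_zero]

lemma tr_gt (γ : (Fin d → ZMod (2 * m)) → G) (z : Fin d → ZMod (2 * m)) (U : Ed d (2 * m) → G) :
    tr z (gt γ U) = gt (fun x => γ (x + z)) (tr z U) := by
  funext e
  unfold tr gt
  simp only
  rw [add_right_comm]

lemma tr_tr (z z' : Fin d → ZMod (2 * m)) (U : Ed d (2 * m) → G) :
    tr z (tr z' U) = tr (z + z') U := by
  funext e
  unfold tr
  simp only
  rw [add_assoc]

lemma Hn_gt (hS : IsS L τ p0 p1 S) (t : ℕ) (γ : (Fin d → ZMod (2 * m)) → G)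
    (U : Ed d (2 * m) → G) :
    Hn L τ p0 p1 t S (gt γ U) = L.rho (γ p0) * Hn L τ p0 p1 t S U * (L.rho (γ p1))ᴴ := by
  unfold Hn
  rw [tr_gt, hS.cov, ln_gt, ln_gt]
  simp only [map_mul, L.rho_inv, conjTranspose_mul, conjTranspose_conjTranspose]
  have h1 : ∀ g : G, (L.rho g)ᴴ * L.rho g = 1 := L.unit'
  calc _ = L.rho (γ p0) * L.rho (ln U τ t p0) *
        ((L.rho (γ (p0 + t • eT τ)))ᴴ * L.rho (γ (p0 + t • eT τ))) * S (tr (t • eT τ) U) *
        ((L.rho (γ (p1 + t • eT τ)))ᴴ * L.rho (γ (p1 + t • eT τ))) *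
        ((L.rho (ln U τ t p1))ᴴ * (L.rho (γ p1))ᴴ) := by
          simp only [mul_assoc]
    _ = _ := by rw [h1, h1]; simp only [mul_one, mul_assoc]

lemma Hn_dep (hm : 2 ≤ m) (hS : IsS L τ p0 p1 S) (h0 : p0 τ = 1) (h1 : p1 τ = 1) {t : ℕ}
    (ht : t + 1 ≤ m) : Dep (TR hm τ).R (Hn L τ p0 p1 t S) := by
  intro U U' h
  unfold Hn
  rw [ln_dep_same hm h h0 ht, ln_dep_same hm h h1 ht]
  congr 2
  refine hS.loc _ _ fun x k hk hx => ?_
  unfold tr
  refine h _ ?_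
  show if k = τ then _ else H1 m _
  rw [if_neg hk]
  simp only
  rw [nsmul_same, hx]
  have : (1 + (t : ZMod (2 * m))) = ((1 + t : ℕ) : ZMod (2 * m)) := by push_cast; ring
  rw [this]
  exact H1_nat (by omega) (by omega) hm

lemma ln_fix_dep (hm : 2 ≤ m) (U : Ed d (2 * m) → G) {z : Fin d → ZMod (2 * m)} (hz : z τ = 1)
    {t : ℕ} (ht : t + 1 ≤ m) : ln (fix τ U) τ t z = ln U τ t z := by
  refine ln_fix_same _ _ _ fun s hs => ?_
  rw [nsmul_same, hz]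
  have : (1 + (s : ZMod (2 * m))) = ((1 + s : ℕ) : ZMod (2 * m)) := by push_cast; ring
  rw [this]
  exact cast_not (by omega) (by omega) hm

lemma Hn_fix (hm : 2 ≤ m) (hS : IsS L τ p0 p1 S) (h0 : p0 τ = 1) (h1 : p1 τ = 1) {t : ℕ}
    (ht : t + 1 ≤ m) (U : Ed d (2 * m) → G) :
    Hn L τ p0 p1 t S (fix τ U) = Hn L τ p0 p1 t S U := by
  unfold Hn
  rw [ln_fix_dep hm U h0 ht, ln_fix_dep hm U h1 ht]
  congr 2
  refine hS.loc _ _ fun x k hk hx => ?_
  unfold tr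
  exact fix_ne _ _ hk

/-- the displacement across the plane of reflection -/
lemma Hn_cross (hm : 2 ≤ m) (hS : IsS L τ p0 p1 S) (h0 : p0 τ = 1) (h1 : p1 τ = 1) {t : ℕ}
    (ht : t + 1 ≤ m) (U : Ed d (2 * m) → G) :
    ‖Hn L τ p0 p1 (2 * t + 1) S (tr (-((t + 1) • eT τ)) (fix τ U)) -
      S (tr (-((t + 1) • eT τ)) (fix τ U))‖ =
    ‖Hn L τ p0 p1 t S U - Hn L τ p0 p1 t S ((TR hm τ).tU U)‖ := by
  obtain ⟨z, hz⟩ : ∃ z : Fin d → ZMod (2 * m), z = (t + 1) • eT τ := ⟨_, rfl⟩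
  have e1 : ∀ p : Fin d → ZMod (2 * m), p τ = 1 →
      ln (tr (-z) (fix τ U)) τ (2 * t + 1) p =
        (ln ((TR hm τ).tU U) τ t p)⁻¹ * ln U τ t p := by
    intro p hp
    rw [ln_tr]
    have f1 : p + -z = p - (t + 1) • eT τ := by rw [hz]; abel
    have f2 : 2 * t + 1 = t + 1 + t := by ring
    rw [f1, f2]
    exact ln_cross hm U hp ht ht
  have e2 : S (tr ((2 * t + 1) • eT τ) (tr (-z) (fix τ U))) = S (tr (t • eT τ) U) := by
    rw [tr_tr]
    have f1 : (2 * t + 1) • (eT τ : Fin d → ZMod (2 * m)) + -z = t • eT τ := by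
      rw [hz]
      have : 2 * t + 1 = t + (t + 1) := by ring
      rw [this, add_smul]; abel
    rw [f1]
    refine hS.loc _ _ fun x k hk hx => ?_
    unfold tr
    exact fix_ne _ _ hk
  have e3 : S (tr (-z) (fix τ U)) = S (tr (t • eT τ) ((TR hm τ).tU U)) := by
    refine hS.loc _ _ fun x k hk hx => ?_
    unfold tr
    simp only
    rw [fix_ne _ _ hk, tU_ne _ _ hk]
    congr 2
    funext i
    unfold rA
    by_cases hi : i = τ
    · subst hi
      rw [Function.update_self, hz]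
      simp [eT, hx]
    · rw [Function.update_of_ne hi, hz]
      simp [eT, hi]
  rw [← hz]
  unfold Hn
  rw [e1 p0 h0, e1 p1 h1, e2, e3]
  obtain ⟨a, ha⟩ : ∃ a, a = ln U τ t p0 := ⟨_, rfl⟩
  obtain ⟨a', ha'⟩ : ∃ a', a' = ln ((TR hm τ).tU U) τ t p0 := ⟨_, rfl⟩
  obtain ⟨b, hb⟩ : ∃ b, b = ln U τ t p1 := ⟨_, rfl⟩
  obtain ⟨b', hb'⟩ : ∃ b', b' = ln ((TR hm τ).tU U) τ t p1 := ⟨_, rfl⟩
  rw [← ha, ← ha', ← hb, ← hb']
  obtain ⟨X, hX⟩ : ∃ X, X = S (tr (t • eT τ) U) := ⟨_, rfl⟩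
  obtain ⟨Y, hY⟩ : ∃ Y, Y = S (tr (t • eT τ) ((TR hm τ).tU U)) := ⟨_, rfl⟩
  rw [← hX, ← hY]
  have key : L.rho a * X * (L.rho b)ᴴ - L.rho a' * Y * (L.rho b')ᴴ =
      L.rho a' * (L.rho (a'⁻¹ * a) * X * (L.rho (b'⁻¹ * b))ᴴ - Y) * (L.rho b')ᴴ := by
    rw [map_mul, map_mul, L.rho_inv, L.rho_inv, conjTranspose_mul, conjTranspose_conjTranspose,
      mul_sub, sub_mul]
    congr 1
    calc L.rho a * X * (L.rho b)ᴴ = (L.rho a' * (L.rho a')ᴴ) * L.rho a * X * (L.rho b)ᴴ *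
          (L.rho b' * (L.rho b')ᴴ) := by rw [L.unit, L.unit, one_mul, mul_one]
      _ = _ := by simp only [mul_assoc]
  rw [key, norm_uu]

/-! ### second moments -/

variable (L) in
/-- the square root of the normalised second moment -/
def N2 (β : ℝ) (X : (Ed d (2 * m) → G) → Mat N) : ℝ := Real.sqrt (EX μ L β fun U => ‖X U‖ ^ 2)

lemma N2_nonneg (β : ℝ) (X : (Ed d (2 * m) → G) → Mat N) : 0 ≤ N2 μ L β X := Real.sqrt_nonneg _

lemma N2_sq (β : ℝ) (X : (Ed d (2 * m) → G) → Mat N) :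
    N2 μ L β X ^ 2 = EX μ L β fun U => ‖X U‖ ^ 2 :=
  Real.sq_sqrt (EX_nonneg μ fun U => sq_nonneg _)

lemma N2_eq (β : ℝ) (X : (Ed d (2 * m) → G) → Mat N) : N2 μ L β X =
    SN μ (fun U : Ed d (2 * m) → G => Real.exp (-(β * act L U))) X /
      Real.sqrt (Zt μ L β fun _ : Ed d (2 * m) → G => 1) := by
  unfold N2 SN EX
  rw [Real.sqrt_div (Zt_nonneg μ fun U => sq_nonneg _)]
  rfl

lemma N2_add (β : ℝ) {X Y : (Ed d (2 * m) → G) → Mat N} (hX : Continuous X) (hY : Continuous Y) :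
    N2 μ L β (fun U => X U + Y U) ≤ N2 μ L β X + N2 μ L β Y := by
  rw [N2_eq, N2_eq, N2_eq, ← add_div]
  exact div_le_div_of_nonneg_right (mink μ (wt_contT β) (fun U => (Real.exp_pos _).le) hX hY)
    (Real.sqrt_nonneg _)

lemma N2_congr (β : ℝ) {X Y : (Ed d (2 * m) → G) → Mat N} (h : ∀ U, ‖X U‖ = ‖Y U‖) :
    N2 μ L β X = N2 μ L β Y := by
  unfold N2
  simp only [h]

lemma N2_tr (β : ℝ) (z : Fin d → ZMod (2 * m)) (X : (Ed d (2 * m) → G) → Mat N) :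
    N2 μ L β (fun U => X (tr z U)) = N2 μ L β X := by
  unfold N2
  rw [EX_tr μ z (fun U => ‖X U‖ ^ 2)]

lemma N2_sub_comm (β : ℝ) (X Y : (Ed d (2 * m) → G) → Mat N) :
    N2 μ L β (fun U => X U - Y U) = N2 μ L β (fun U => Y U - X U) :=
  N2_congr μ β fun U => norm_sub_rev _ _

lemma N2_tri (β : ℝ) {X Y Z : (Ed d (2 * m) → G) → Mat N} (hX : Continuous X) (hY : Continuous Y)
    (hZ : Continuous Z) : N2 μ L β (fun U => X U - Z U) ≤
      N2 μ L β (fun U => X U - Y U) + N2 μ L β (fun U => Y U - Z U) := by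
  have h := N2_add μ (L := L) β (X := fun U => X U - Y U) (Y := fun U => Y U - Z U)
    (hX.sub hY) (hY.sub hZ)
  have e : (fun U => X U - Y U + (Y U - Z U)) = fun U => X U - Z U := by funext U; abel
  rw [e] at h
  exact h

/-- transfer between the two expectations -/
lemma N2_red (hm : 2 ≤ m) (τ : Fin d) (β : ℝ) : ∃ κ : ℝ, 0 < κ ∧
    κ ^ 2 * (TR hm τ).Ew μ L β (wR L β m τ).1 (fun _ => 1) = 1 ∧
    ∀ X Y : (Ed d (2 * m) → G) → Mat N, Continuous X → GI (fun U => ‖X U‖) →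
      (∀ U, ‖X (fix τ U)‖ = ‖Y U‖) →
      N2 μ L β X = κ * SN μ (fun U => (wR L β m τ).1 U * (wR L β m τ).1 ((TR hm τ).tU U) *
        Real.exp (β * (TR hm τ).ker L U)) Y := by
  obtain ⟨c, hc, hred⟩ := Zt_red μ (L := L) hm τ β
  have hZ := Zt_pos μ (L := L) (d := d) (l := 2 * m) β
  refine ⟨Real.sqrt (c / Zt μ L β (fun _ : Ed d (2 * m) → G => 1)), Real.sqrt_pos.2 (by positivity),
    ?_, fun X Y hX hg hXY => ?_⟩
  · rw [Real.sq_sqrt (by positivity)]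
    have h1 := hred (fun _ => 1) continuous_const fun γ U => rfl
    rw [div_mul_eq_mul_div, ← h1, div_self hZ.ne']
  unfold N2 SN EX
  rw [← Real.sqrt_mul (by positivity)]
  congr 1
  rw [hred (fun U => ‖X U‖ ^ 2) (hX.norm.pow 2) (fun γ U => by
    have := hg γ U
    simp only at this ⊢
    rw [this])]
  simp only [hXY]
  unfold Refl.Ew QW
  ring

variable (L) in
/-- the weight of the fixed expectation -/
def Wf (hm : 2 ≤ m) (τ : Fin d) (β : ℝ) (U : Ed d (2 * m) → G) : ℝ :=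
  (wR L β m τ).1 U * (wR L β m τ).1 ((TR hm τ).tU U) * Real.exp (β * (TR hm τ).ker L U)

lemma Wf_cont (hm : 2 ≤ m) (τ : Fin d) (β : ℝ) : Continuous (Wf (G := G) L hm τ β) :=
  (TR hm τ).wt_cont (Sm_cont _)

lemma Wf_nonneg (hm : 2 ≤ m) (τ : Fin d) (β : ℝ) (U : Ed d (2 * m) → G) : 0 ≤ Wf L hm τ β U :=
  mul_nonneg (mul_nonneg (wR_nonneg _ _ _) (wR_nonneg _ _ _)) (Real.exp_pos _).le

/-- what is used of the transfer -/
def Red (L : LD G N n) (hm : 2 ≤ m) (τ : Fin d) (β κ : ℝ) : Prop :=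
  ∀ X Y : (Ed d (2 * m) → G) → Mat N, Continuous X → GI (fun U => ‖X U‖) →
      (∀ U, ‖X (fix τ U)‖ = ‖Y U‖) → N2 μ L β X = κ * SN μ (Wf L hm τ β) Y

/-- the displacement over an odd distance -/
lemma disp_odd {hm : 2 ≤ m} {β κ : ℝ} (h : Red μ L hm τ β κ) (hS : IsS L τ p0 p1 S)
    (h0 : p0 τ = 1) (h1 : p1 τ = 1) {t : ℕ} (ht : t + 1 ≤ m) :
    N2 μ L β (fun U => Hn L τ p0 p1 (2 * t + 1) S U - S U) =
      κ * SN μ (Wf L hm τ β)
        (fun U => Hn L τ p0 p1 t S U - Hn L τ p0 p1 t S ((TR hm τ).tU U)) := by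
  rw [← N2_tr μ β (-((t + 1) • eT τ)) (fun U => Hn L τ p0 p1 (2 * t + 1) S U - S U)]
  refine h _ _ ?_ ?_ fun U => Hn_cross hm hS h0 h1 ht U
  · exact ((Hn_cont hS.cont _).comp (tr_cont _)).sub (hS.cont.comp (tr_cont _))
  · intro γ U
    simp only
    rw [tr_gt, Hn_gt hS, hS.cov, ← sub_mul, ← mul_sub, norm_uu]

lemma disp_in {hm : 2 ≤ m} {β κ : ℝ} (h : Red μ L hm τ β κ) (hS : IsS L τ p0 p1 S)
    {S' : (Ed d (2 * m) → G) → Mat N} (hS' : IsS L τ p0 p1 S')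
    (h0 : p0 τ = 1) (h1 : p1 τ = 1) {t t' : ℕ} (ht : t + 1 ≤ m) (ht' : t' + 1 ≤ m) :
    N2 μ L β (fun U => Hn L τ p0 p1 t S U - Hn L τ p0 p1 t' S' U) =
      κ * SN μ (Wf L hm τ β) (fun U => Hn L τ p0 p1 t S U - Hn L τ p0 p1 t' S' U) := by
  refine h _ _ ((Hn_cont hS.cont _).sub (Hn_cont hS'.cont _)) ?_ fun U => ?_
  · intro γ U
    simp only
    rw [Hn_gt hS, Hn_gt hS', ← sub_mul, ← mul_sub, norm_uu]
  · rw [Hn_fix hm hS h0 h1 ht, Hn_fix hm hS' h0 h1 ht']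

lemma rp_two {hm : 2 ≤ m} {β : ℝ} (hβ : 0 ≤ β) (hS : IsS L τ p0 p1 S)
    {S' : (Ed d (2 * m) → G) → Mat N} (hS' : IsS L τ p0 p1 S')
    (h0 : p0 τ = 1) (h1 : p1 τ = 1) {t t' : ℕ} (ht : t + 1 ≤ m) (ht' : t' + 1 ≤ m) :
    SN μ (Wf L hm τ β) (fun U => Hn L τ p0 p1 t S U - Hn L τ p0 p1 t S ((TR hm τ).tU U)) ≤
      Real.sqrt 2 * SN μ (Wf L hm τ β)
        (fun U => Hn L τ p0 p1 t S U - Hn L τ p0 p1 t' S' U) +
      SN μ (Wf L hm τ β)
        (fun U => Hn L τ p0 p1 t' S' U - Hn L τ p0 p1 t' S' ((TR hm τ).tU U)) := by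
  have c1 := Hn_cont (L := L) (τ := τ) (p0 := p0) (p1 := p1) hS.cont t
  have c2 := Hn_cont (L := L) (τ := τ) (p0 := p0) (p1 := p1) hS'.cont t'
  have d1 := Hn_dep hm hS h0 h1 ht
  have d2 := Hn_dep hm hS' h0 h1 ht'
  have r1 := rp_mat μ (L := L) (TR hm τ) hβ (Sm_cont _) (wR_dep hm β τ)
    (wR_nonneg (L := L) (m := m) β τ)
    (Y := fun U => Hn L τ p0 p1 t S U - Hn L τ p0 p1 t' S' U) (c1.sub c2) (fun U U' h => by
      simp only
      rw [d1 U U' h, d2 U U' h])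
  have r2 := mink μ (Wf_cont (L := L) hm τ β) (Wf_nonneg (L := L) hm τ β)
    (X := fun U => (Hn L τ p0 p1 t S U - Hn L τ p0 p1 t' S' U) -
      (Hn L τ p0 p1 t S ((TR hm τ).tU U) - Hn L τ p0 p1 t' S' ((TR hm τ).tU U)))
    (Y := fun U => Hn L τ p0 p1 t' S' U - Hn L τ p0 p1 t' S' ((TR hm τ).tU U))
    ((c1.sub c2).sub ((c1.comp (TR hm τ).tU_cont).sub (c2.comp (TR hm τ).tU_cont)))
    (c2.sub (c2.comp (TR hm τ).tU_cont))
  have e1 : (fun U : Ed d (2 * m) → G => Hn L τ p0 p1 t S U - Hn L τ p0 p1 t' S' U -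
      (Hn L τ p0 p1 t S ((TR hm τ).tU U) - Hn L τ p0 p1 t' S' ((TR hm τ).tU U)) +
      (Hn L τ p0 p1 t' S' U - Hn L τ p0 p1 t' S' ((TR hm τ).tU U))) =
      fun U => Hn L τ p0 p1 t S U - Hn L τ p0 p1 t S ((TR hm τ).tU U) := by
    funext U; abel
  rw [e1] at r2
  exact r2.trans (add_le_add_left r1 _)

/-- **Doubling.** -/
theorem disp_double (hm : 2 ≤ m) {β : ℝ} (hβ : 0 ≤ β) (hS : IsS L τ p0 p1 S)
    (h0 : p0 τ = 1) (h1 : p1 τ = 1) {t : ℕ} (ht : t + 1 ≤ m) :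
    N2 μ L β (fun U => Hn L τ p0 p1 (2 * t + 1) S U - S U) ≤
      Real.sqrt 2 * N2 μ L β (fun U => Hn L τ p0 p1 t S U - S U) +
        N2 μ L β (fun U => Hn L τ p0 p1 1 S U - S U) := by
  obtain ⟨κ, hκ, -, h⟩ := N2_red μ (L := L) hm τ β
  have hR : Red μ L hm τ β κ := h
  have e1 := disp_odd μ hR hS h0 h1 ht
  have e2 := disp_odd μ hR hS h0 h1 (t := 0) (by omega)
  have e3 := disp_in μ hR hS hS h0 h1 ht (t' := 0) (by omega)
  simp only [mul_zero, zero_add] at e2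
  have e4 := rp_two μ hβ hS hS h0 h1 ht (t' := 0) (by omega) (hm := hm)
  have e5 := mul_le_mul_of_nonneg_left e4 hκ.le
  rw [mul_add, ← mul_assoc, mul_comm κ (Real.sqrt 2), mul_assoc, ← e1, ← e3, ← e2] at e5
  simp only [Hn_zero] at e5
  exact e5

/-- **Comparison.** -/
theorem disp_comp (hm : 2 ≤ m) {β : ℝ} (hβ : 0 ≤ β) (hS : IsS L τ p0 p1 S)
    {S' : (Ed d (2 * m) → G) → Mat N} (hS' : IsS L τ p0 p1 S')
    (h0 : p0 τ = 1) (h1 : p1 τ = 1) {t : ℕ} (ht : t + 1 ≤ m) :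
    N2 μ L β (fun U => Hn L τ p0 p1 (2 * t + 1) S U - S U) ≤
      Real.sqrt 2 * N2 μ L β (fun U => S U - S' U) +
        N2 μ L β (fun U => Hn L τ p0 p1 (2 * t + 1) S' U - S' U) := by
  obtain ⟨κ, hκ, -, h⟩ := N2_red μ (L := L) hm τ β
  have hR : Red μ L hm τ β κ := h
  have e1 := disp_odd μ hR hS h0 h1 ht
  have e2 := disp_odd μ hR hS' h0 h1 ht
  have e3 := disp_in μ hR hS hS' h0 h1 ht ht
  have e4 := rp_two μ hβ hS hS' h0 h1 ht ht (hm := hm)
  have e5 := mul_le_mul_of_nonneg_left e4 hκ.le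
  rw [mul_add, ← mul_assoc, mul_comm κ (Real.sqrt 2), mul_assoc, ← e1, ← e3, ← e2] at e5
  have e6 : N2 μ L β (fun U => Hn L τ p0 p1 t S U - Hn L τ p0 p1 t S' U) =
      N2 μ L β (fun U => S U - S' U) := by
    rw [← N2_tr μ β (t • eT τ) (fun U => S U - S' U)]
    refine N2_congr μ β fun U => ?_
    unfold Hn
    rw [← sub_mul, ← mul_sub, norm_uu]
  rw [e6] at e5
  exact e5

theorem disp_succ {β : ℝ} (hS : IsS L τ p0 p1 S) (t : ℕ) :
    N2 μ L β (fun U => Hn L τ p0 p1 (t + 1) S U - S U) ≤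
      N2 μ L β (fun U => Hn L τ p0 p1 t S U - S U) +
        N2 μ L β (fun U => Hn L τ p0 p1 1 S U - S U) := by
  have c := fun t => Hn_cont (L := L) (τ := τ) (p0 := p0) (p1 := p1) hS.cont t
  refine (N2_tri μ β (c (t + 1)) (c 1) hS.cont).trans (add_le_add_left (le_of_eq ?_) _)
  rw [← N2_tr μ β (eT τ) (fun U => Hn L τ p0 p1 t S U - S U)]
  refine N2_congr μ β fun U => ?_
  have e1 : Hn L τ p0 p1 (t + 1) S U =
      L.rho (U (p0, τ)) * Hn L τ p0 p1 t S (tr (eT τ) U) * (L.rho (U (p1, τ)))ᴴ := by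
    unfold Hn
    rw [ln_succ, ln_succ, ln_tr, ln_tr, tr_tr, map_mul, map_mul, conjTranspose_mul]
    have : t • (eT τ : Fin d → ZMod (2 * m)) + eT τ = (t + 1) • eT τ := by
      rw [add_smul, one_smul]
    rw [this]
    simp only [mul_assoc]
  have e2 : Hn L τ p0 p1 1 S U =
      L.rho (U (p0, τ)) * S (tr (eT τ) U) * (L.rho (U (p1, τ)))ᴴ := by
    unfold Hn
    rw [ln_succ, ln_succ, ln_zero, ln_zero, mul_one, mul_one, one_smul]
  rw [e1, e2, ← sub_mul, ← mul_sub, norm_uu]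

end

end Pool.Agent.Y15
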