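import Mathlib
import Pool.Agent.Y15.TimeE

/-!
# Averages of parallel transporters: the energy of one step
-/

open MeasureTheory Matrix
open scoped Matrix.Norms.Frobenius
open Pool.Agent.H906R3.YM hiding Pl
open Pool.Agent.W793.YM Pool.Agent.TH618.YM

namespace Pool.Agent.Y15

set_option linter.unusedSectionVars false
set_option linter.unusedVariables false

noncomputable section

section paths

variable {G : Type*} [Group G] {d l : ℕ}

/-- the parallel transporter of a list of links -/
def pg (U : Ed d l → G) (w : List (Ed d l × Bool)) : G :=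
  (w.map fun s => if s.2 then U s.1 else (U s.1)⁻¹).prod

lemma pg_nil (U : Ed d l → G) : pg U [] = 1 := rfl

lemma pg_cons (U : Ed d l → G) (s : Ed d l × Bool) (w : List (Ed d l × Bool)) :
    pg U (s :: w) = (if s.2 then U s.1 else (U s.1)⁻¹) * pg U w := by
  unfold pg
  rw [List.map_cons, List.prod_cons]

lemma pg_append (U : Ed d l → G) (w w' : List (Ed d l × Bool)) :
    pg U (w ++ w') = pg U w * pg U w' := by
  unfold pg
  rw [List.map_append, List.prod_append]

/-- the reversed path -/
def rev (w : List (Ed d l × Bool)) : List (Ed d l × Bool) := (w.map fun s => (s.1, !s.2)).reverse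

lemma rev_nil : rev ([] : List (Ed d l × Bool)) = [] := rfl

lemma rev_cons (s : Ed d l × Bool) (w : List (Ed d l × Bool)) :
    rev (s :: w) = rev w ++ [(s.1, !s.2)] := by
  unfold rev
  rw [List.map_cons, List.reverse_cons]

lemma pg_rev (U : Ed d l → G) (w : List (Ed d l × Bool)) : pg U (rev w) = (pg U w)⁻¹ := by
  induction w with
  | nil => rw [rev_nil, pg_nil, inv_one]
  | cons s w ih =>
    rw [rev_cons, pg_append, ih, pg_cons, pg_cons, pg_nil, mul_one, _root_.mul_inv_rev]
    congr 1
    cases s.2 <;> simp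

/-- paths between two points -/
def isP : (Fin d → ZMod l) → List (Ed d l × Bool) → (Fin d → ZMod l) → Prop
  | p, [], q => p = q
  | p, s :: w, q => if s.2 then s.1.1 = p ∧ isP (p + eT s.1.2) w q
      else s.1.1 + eT s.1.2 = p ∧ isP s.1.1 w q

lemma isP_append {p q r : Fin d → ZMod l} {w w' : List (Ed d l × Bool)} (h : isP p w q)
    (h' : isP q w' r) : isP p (w ++ w') r := by
  induction w generalizing p with
  | nil =>
    unfold isP at h
    subst h; exact h'
  | cons s w ih =>
    unfold isP at h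
    rw [List.cons_append]
    unfold isP
    split_ifs at h ⊢
    · exact ⟨h.1, ih h.2⟩
    · exact ⟨h.1, ih h.2⟩

lemma isP_rev {p q : Fin d → ZMod l} {w : List (Ed d l × Bool)} (h : isP p w q) :
    isP q (rev w) p := by
  induction w generalizing p with
  | nil =>
    unfold isP at h
    rw [rev_nil]
    exact h.symm
  | cons s w ih =>
    unfold isP at h
    rw [rev_cons]
    by_cases hs : s.2
    · rw [if_pos hs] at h
      refine isP_append (ih h.2) ?_
      unfold isP
      simp only [hs, Bool.not_true, Bool.false_eq_true, if_false]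
      refine ⟨by rw [h.1], ?_⟩
      unfold isP
      exact h.1
    · rw [if_neg hs] at h
      refine isP_append (ih h.2) ?_
      unfold isP
      simp only [hs, Bool.not_false, if_true, true_and]
      unfold isP
      exact h.1

lemma pg_gt (γ : (Fin d → ZMod l) → G) (U : Ed d l → G) {p q : Fin d → ZMod l}
    {w : List (Ed d l × Bool)} (h : isP p w q) :
    pg (gt γ U) w = γ p * pg U w * (γ q)⁻¹ := by
  induction w generalizing p with
  | nil =>
    unfold isP at h
    subst h
    rw [pg_nil, pg_nil]; group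
  | cons s w ih =>
    unfold isP at h
    rw [pg_cons, pg_cons]
    split_ifs at h ⊢
    · rw [ih h.2, ← h.1]
      unfold gt
      group
    · rw [ih h.2, ← h.1]
      unfold gt
      group

/-- straight paths -/
def sg (i : Fin d) : ℕ → (Fin d → ZMod l) → List (Ed d l × Bool)
  | 0, _ => []
  | k + 1, x => ((x, i), true) :: sg i k (x + eT i)

lemma pg_sg (U : Ed d l → G) (i : Fin d) (k : ℕ) (x : Fin d → ZMod l) :
    pg U (sg i k x) = ln U i k x := by
  induction k generalizing x with
  | zero => rfl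
  | succ k ih =>
    unfold sg
    rw [pg_cons, ih, ln_succ]
    simp

lemma isP_sg (i : Fin d) (k : ℕ) (x : Fin d → ZMod l) : isP x (sg i k x) (x + k • eT i) := by
  induction k generalizing x with
  | zero => unfold sg isP; simp
  | succ k ih =>
    unfold sg isP
    simp only [if_true, true_and]
    have := ih (x + eT i)
    have e : x + eT i + k • (eT i : Fin d → ZMod l) = x + (k + 1) • eT i := by
      rw [add_smul, one_smul]; abel
    rwa [e] at this

lemma mem_sg {i : Fin d} {k : ℕ} {x : Fin d → ZMod l} {s : Ed d l × Bool} :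
    s ∈ sg i k x ↔ ∃ t < k, s = ((x + t • eT i, i), true) := by
  induction k generalizing x with
  | zero => simp [sg]
  | succ k ih =>
    unfold sg
    rw [List.mem_cons, ih]
    constructor
    · rintro (h | ⟨t, ht, h⟩)
      · exact ⟨0, Nat.succ_pos _, by rw [zero_smul, add_zero]; exact h⟩
      · refine ⟨t + 1, by omega, ?_⟩
        rw [h]
        have e : x + eT i + t • (eT i : Fin d → ZMod l) = x + (t + 1) • eT i := by
          rw [add_smul, one_smul]; abel
        rw [e]
    · rintro ⟨t, ht, h⟩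
      rcases Nat.eq_zero_or_pos t with h0 | h0
      · left
        rw [h, h0, zero_smul, add_zero]
      · right
        obtain ⟨t', rfl⟩ : ∃ t', t = t' + 1 := ⟨t - 1, by omega⟩
        refine ⟨t', by omega, ?_⟩
        rw [h]
        have e : x + eT i + t' • (eT i : Fin d → ZMod l) = x + (t' + 1) • eT i := by
          rw [add_smul, one_smul]; abel
        rw [e]

lemma length_sg (i : Fin d) (k : ℕ) (x : Fin d → ZMod l) : (sg i k x).length = k := by
  induction k generalizing x with
  | zero => rfl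
  | succ k ih => unfold sg; rw [List.length_cons, ih]

end paths

variable {G : Type*} [Group G] [TopologicalSpace G]
  [IsTopologicalGroup G] [CompactSpace G] [SecondCountableTopology G] [MeasurableSpace G]
  [BorelSpace G] (μ : Measure G) [IsProbabilityMeasure μ] [μ.IsMulLeftInvariant]
  [μ.IsMulRightInvariant] [μ.IsInvInvariant] {N n : ℕ} {L : LD G N n}
  {d m : ℕ} [NeZero m]

lemma pg_cont {l : ℕ} (w : List (Ed d l × Bool)) : Continuous fun U : Ed d l → G => pg U w := by
  induction w with
  | nil => exact continuous_const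
  | cons s w ih =>
    simp only [pg_cons]
    split_ifs
    · exact (continuous_apply _).mul ih
    · exact (continuous_apply _).inv.mul ih

lemma rho_pg (U : Ed d (2 * m) → G) (w : List (Ed d (2 * m) × Bool)) :
    L.rho (pg U w) = pv (fun e => L.rho (U e)) w := by
  induction w with
  | nil => rw [pg_nil, pv_nil, map_one]
  | cons s w ih =>
    rw [pg_cons, pv_cons, map_mul, ih]
    split_ifs
    · rfl
    · rw [L.rho_inv]

variable {ι : Type*} [Fintype ι]

/-- average of parallel transporters -/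
def PS (L : LD G N n) (a : ι → ℝ) (w : ι → List (Ed d (2 * m) × Bool))
    (U : Ed d (2 * m) → G) : Mat N := ∑ i, a i • L.rho (pg U (w i))

lemma PS_cont (a : ι → ℝ) (w : ι → List (Ed d (2 * m) × Bool)) :
    Continuous (PS (G := G) L a w) :=
  continuous_finsetSum _ fun i _ => Continuous.const_smul (L.cont.comp (pg_cont (w i))) (a i)

/-- the links of a layer -/
def lay (τ : Fin d) (w : List (Ed d (2 * m) × Bool)) : Prop :=
  ∀ s ∈ w, s.1.2 ≠ τ ∧ s.1.1 τ = 1

lemma PS_isS {a : ι → ℝ} {w : ι → List (Ed d (2 * m) × Bool)} {τ : Fin d}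
    {p0 p1 : Fin d → ZMod (2 * m)} (hw : ∀ i, isP p0 (w i) p1) (hl : ∀ i, lay τ (w i)) :
    IsS L τ p0 p1 (PS L a w) where
  cont := PS_cont a w
  loc U U' h := by
    unfold PS
    refine Finset.sum_congr rfl fun i _ => ?_
    congr 2
    unfold pg
    congr 1
    refine List.map_congr_left fun s hs => ?_
    have := h s.1.1 s.1.2 (hl i s hs).1 (hl i s hs).2
    rw [this]
  cov γ U := by
    unfold PS
    rw [Finset.mul_sum, Finset.sum_mul]
    refine Finset.sum_congr rfl fun i _ => ?_
    rw [pg_gt γ U (hw i), map_mul, map_mul, L.rho_inv, mul_smul_comm, smul_mul_assoc]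

lemma mt_av (T : Refl (Ed d (2 * m))) (U : Ed d (2 * m) → G) {e : Ed d (2 * m)} (he : e ∈ T.J) :
    mt (av L T U) e = L.rho (U e) := by
  refine mat_ext fun c => ?_
  rw [co_mt]
  unfold av
  rw [if_pos he]

lemma mt_av' (T : Refl (Ed d (2 * m))) (U : Ed d (2 * m) → G) {e : Ed d (2 * m)} (he : e ∉ T.J) :
    mt (av L T U) e = 0 := by
  refine mat_ext fun c => ?_
  rw [co_mt, map_zero]
  unfold av
  rw [if_neg he]

lemma FF_av {a : ι → ℝ} {w : ι → List (Ed d (2 * m) × Bool)} {τ : Fin d} {hm : 2 ≤ m}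
    (hl : ∀ i, lay τ (w i)) (U : Ed d (2 * m) → G) :
    FF a w (mt (av L (TR hm τ) U)) = PS L a w U := by
  unfold FF PS
  refine Finset.sum_congr rfl fun i _ => ?_
  rw [rho_pg]
  congr 1
  refine pv_congr fun s hs => mt_av _ _ ?_
  show s.1 ∈ Finset.univ.filter _
  rw [Finset.mem_filter]
  exact ⟨Finset.mem_univ _, (hl i s hs).1, Or.inl (hl i s hs).2⟩

/-- the squared norm of the mean flow -/
def flow (a : ι → ℝ) (w : ι → List (Ed d (2 * m) × Bool)) : ℝ :=
  ∑ e, (∑ i, if e ∈ (w i).map Prod.fst then a i else 0) ^ 2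

/-- **The energy of one step.** -/
theorem one_step (hm : 2 ≤ m) {β : ℝ} (hβ : 0 < β) {a : ι → ℝ}
    {w : ι → List (Ed d (2 * m) × Bool)} {τ : Fin d} {p0 p1 : Fin d → ZMod (2 * m)}
    (ha : ∀ i, 0 ≤ a i) (hw : ∀ i, isP p0 (w i) p1) (hl : ∀ i, lay τ (w i))
    (hn : ∀ i, ND (w i)) (h0 : p0 τ = 1) (h1 : p1 τ = 1) (hlen : ∀ i, ((w i).length : ℝ) ≤ β) :
    N2 μ L β (fun U => Hn L τ p0 p1 1 (PS L a w) U - PS L a w U) ^ 2 ≤
      2 * N ^ 3 * Real.exp (2 * N ^ 2) / β * flow a w := by
  obtain ⟨κ, hκ, hk1, h⟩ := N2_red μ (L := L) hm τ β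
  have hR : Red μ L hm τ β κ := h
  have hS : IsS L τ p0 p1 (PS L a w) := PS_isS hw hl
  have e1 := disp_odd μ hR hS h0 h1 (t := 0) (by omega)
  simp only [mul_zero, zero_add] at e1
  simp only [Hn_zero] at e1
  obtain ⟨K, hK⟩ : ∃ K : ℕ, K = ⌊β⌋₊ := ⟨_, rfl⟩
  have hlenK : ∀ i, (w i).length ≤ K := fun i => by rw [hK]; exact Nat.le_floor (hlen i)
  obtain ⟨c, hc⟩ : ∃ c : ℝ, c = (Fintype.card (Cx N) : ℝ) * (1 / (2 * (β / 2))) := ⟨_, rfl⟩
  have hcN : c = 2 * N ^ 2 / β := by
    rw [hc]
    simp only [Fintype.card_prod, Fintype.card_fin, Fintype.card_bool]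
    push_cast
    field_simp
  have hc0 : 0 ≤ c := by rw [hcN]; positivity
  have hcK : (1 + c) ^ K ≤ Real.exp (2 * N ^ 2) := by
    have h2 : 1 + c ≤ Real.exp c := by
      have := Real.add_one_le_exp c
      linarith
    calc (1 + c) ^ K ≤ Real.exp c ^ K := pow_le_pow_left₀ (by linarith) h2 K
      _ = Real.exp (K * c) := (Real.exp_nat_mul c K).symm
      _ ≤ _ := by
        refine Real.exp_le_exp.2 ?_
        have h3 : (K : ℝ) ≤ β := by rw [hK]; exact Nat.floor_le hβ.le
        calc (K : ℝ) * c ≤ β * c := mul_le_mul_of_nonneg_right h3 hc0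
          _ = 2 * N ^ 2 := by rw [hcN]; field_simp
  have hfl : 0 ≤ flow a w := Finset.sum_nonneg fun e _ => sq_nonneg _
  obtain ⟨B, hB⟩ : ∃ B : ℝ, B = 2 * N ^ 3 * Real.exp (2 * N ^ 2) / β * flow a w := ⟨_, rfl⟩
  have hvar : ∀ U : Ed d (2 * m) → G,
      GE (β / 2) (fun h => ‖FF a w (mt (av L (TR hm τ) U + h))‖ ^ 2) ≤
      ‖FF a w (mt (av L (TR hm τ) U))‖ ^ 2 + B := by
    intro U
    have h2 := FF_var (a := a) (l := w) hn ha (by positivity : 0 < β / 2) (av L (TR hm τ) U)
      hlenK (fun e R => by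
        by_cases he : e ∈ (TR hm τ).J
        · rw [mt_av _ _ he, norm_lmul]
        · rw [mt_av' _ _ he, zero_mul]; simp)
      (fun e R => by
        by_cases he : e ∈ (TR hm τ).J
        · rw [mt_av _ _ he, ← L.rho_inv, norm_lmul]
        · rw [mt_av' _ _ he, conjTranspose_zero, zero_mul]; simp) hc
    refine h2.trans (add_le_add_right ?_ _)
    rw [hB]
    have h4 : (N : ℝ) * (c * (1 + c) ^ K) ≤ 2 * N ^ 3 * Real.exp (2 * N ^ 2) / β := by
      calc N * (c * (1 + c) ^ K) ≤ N * (c * Real.exp (2 * N ^ 2)) :=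
            mul_le_mul_of_nonneg_left (mul_le_mul_of_nonneg_left hcK hc0) (Nat.cast_nonneg _)
        _ = _ := by rw [hcN]; ring
    refine le_trans (le_of_eq ?_) (mul_le_mul_of_nonneg_right h4 hfl)
    unfold flow
    congr!
  have h2 := gd_main μ (L := L) (TR hm τ) hβ (w := (wR L β m τ).1) (Sm_cont _) (wR_dep hm β τ)
    (wR_nonneg (L := L) (m := m) β τ) (F := fun x => FF a w (mt x))
    (by have := EM_FF (a := a) (l := w) (0 : Ed d (2 * m) × Cx N → ℝ) Finset.univ
        simpa only [hs_univ, zero_add] using this)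
    (fun x c => FF_mean hn (by positivity) x c) hvar
  simp only [FF_av hl] at h2
  rw [e1, mul_pow, SN_sq μ (Wf_nonneg hm τ β), ← hB]
  have h3 : QW μ (Wf L hm τ β) (fun U => ‖PS L a w U - PS L a w ((TR hm τ).tU U)‖ ^ 2) ≤
      B * (TR hm τ).Ew μ L β (wR L β m τ).1 (fun _ => 1) := h2
  calc κ ^ 2 * QW μ (Wf L hm τ β) (fun U => ‖PS L a w U - PS L a w ((TR hm τ).tU U)‖ ^ 2) ≤
      κ ^ 2 * (B * (TR hm τ).Ew μ L β (wR L β m τ).1 (fun _ => 1)) :=
        mul_le_mul_of_nonneg_left h3 (sq_nonneg _)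
    _ = B * (κ ^ 2 * (TR hm τ).Ew μ L β (wR L β m τ).1 (fun _ => 1)) := by ring
    _ = B := by rw [hk1, mul_one]

end

end Pool.Agent.Y15
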