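import Mathlib
import Pool.Agent.Y15.Count
import Pool.Agent.Y15.Step

/-!
# The families of paths on the torus
-/

open MeasureTheory Matrix
open scoped Matrix.Norms.Frobenius
open Pool.Agent.H906R3.YM hiding Pl
open Pool.Agent.W793.YM Pool.Agent.TH618.YM

namespace Pool.Agent.Y15

set_option linter.unusedSectionVars false
set_option linter.unusedVariables false

noncomputable section

section paths

variable {G : Type*} [Group G] {d l : ℕ}

/-- the points of a coordinate plane -/
def PT (z : Fin d → ZMod l) (i j : Fin d) (x y : ℕ) : Fin d → ZMod l := z + x • eT i + y • eT j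

/-- the links of a coordinate plane -/
def em (z : Fin d → ZMod l) (i j : Fin d) (e : Pk) : Ed d l :=
  (PT z i j e.1.1 e.1.2, if e.2 then j else i)

/-- the paths in a coordinate plane -/
def ew (z : Fin d → ZMod l) (i j : Fin d) (w : List (Pk × Bool)) : List (Ed d l × Bool) :=
  w.map fun s => (em z i j s.1, s.2)

variable (z : Fin d → ZMod l) (i j : Fin d)

lemma PT_succ (x y : ℕ) : PT z i j (x + 1) y = PT z i j x y + eT i := by
  unfold PT
  rw [add_smul, one_smul]; abel

lemma PT_succ' (x y : ℕ) : PT z i j x (y + 1) = PT z i j x y + eT j := by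
  unfold PT
  rw [add_smul, one_smul]; abel

lemma PT_add (x k y : ℕ) : PT z i j (x + k) y = PT z i j x y + k • eT i := by
  unfold PT
  rw [add_smul]; abel

lemma PT_add' (x y k : ℕ) : PT z i j x (y + k) = PT z i j x y + k • eT j := by
  unfold PT
  rw [add_smul]; abel

lemma ew_append (w w' : List (Pk × Bool)) : ew z i j (w ++ w') = ew z i j w ++ ew z i j w' := by
  unfold ew
  rw [List.map_append]

lemma ew_rv (w : List (Pk × Bool)) : ew z i j (rv w) = rev (ew z i j w) := by
  unfold ew rv rev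
  rw [List.map_reverse, List.map_map, List.map_map]
  rfl

lemma ew_hr (x k y : ℕ) : ew z i j (hr x k y) = sg i k (PT z i j x y) := by
  induction k generalizing x with
  | zero => rfl
  | succ k ih =>
    unfold hr sg
    rw [← PT_succ, ← ih]
    rfl

lemma ew_vr (x y k : ℕ) : ew z i j (vr x y k) = sg j k (PT z i j x y) := by
  induction k generalizing y with
  | zero => rfl
  | succ k ih =>
    unfold vr sg
    rw [← PT_succ', ← ih]
    rfl

lemma sg_snoc (i : Fin d) (k : ℕ) (x : Fin d → ZMod l) :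
    sg i (k + 1) x = sg i k x ++ [((x + k • eT i, i), true)] := by
  induction k generalizing x with
  | zero => unfold sg; simp [sg]
  | succ k ih =>
    have h1 : sg i (k + 1 + 1) x = ((x, i), true) :: sg i (k + 1) (x + eT i) := rfl
    have h2 : sg i (k + 1) x = ((x, i), true) :: sg i k (x + eT i) := rfl
    rw [h1, ih, h2, List.cons_append]
    have e : x + eT i + k • (eT i : Fin d → ZMod l) = x + (k + 1) • eT i := by
      rw [add_smul, one_smul]; abel
    rw [e]

lemma rev_append (w w' : List (Ed d l × Bool)) : rev (w ++ w') = rev w' ++ rev w := by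
  unfold rev
  rw [List.map_append, List.reverse_append]

lemma ew_mir_vr (L x y k : ℕ) : ew z i j ((vr x y k).map (mir L)) =
    sg j k (PT z i j (L - x) y) := by
  rw [← ew_vr]
  congr 1
  induction k generalizing y with
  | zero => rfl
  | succ k ih =>
    unfold vr
    rw [List.map_cons, ih]
    rfl

lemma ew_mir_hr {L x k : ℕ} (h : x + k ≤ L) (y : ℕ) : ew z i j ((hr x k y).map (mir L)) =
    rev (sg i k (PT z i j (L - x - k) y)) := by
  induction k generalizing x with
  | zero => rfl
  | succ k ih =>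
    rw [sg_snoc, rev_append]
    have h1 := ih (x := x + 1) (by omega)
    have e1 : L - (x + 1) - k = L - x - (k + 1) := by omega
    rw [e1] at h1
    rw [← h1, ← PT_add]
    have e2 : L - x - (k + 1) + k = L - 1 - x := by omega
    rw [e2]
    have e3 : hr x (k + 1) y = (((x, y), false), true) :: hr (x + 1) k y := rfl
    rw [e3, List.map_cons]
    rfl

/-! ### the end points -/

variable {z i j}

lemma isP_hr (x k y : ℕ) : isP (PT z i j x y) (ew z i j (hr x k y)) (PT z i j (x + k) y) := by
  rw [ew_hr, PT_add]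
  exact isP_sg _ _ _

lemma isP_vr (x y k : ℕ) : isP (PT z i j x y) (ew z i j (vr x y k)) (PT z i j x (y + k)) := by
  rw [ew_vr, PT_add']
  exact isP_sg _ _ _

lemma isP_mhr {L x k : ℕ} (h : x + k ≤ L) (y : ℕ) : isP (PT z i j (L - x) y)
    (ew z i j ((hr x k y).map (mir L))) (PT z i j (L - (x + k)) y) := by
  rw [ew_mir_hr z i j h]
  refine isP_rev ?_
  have e1 : L - (x + k) = L - x - k := by omega
  have e2 : L - x = L - x - k + k := by omega
  rw [e1]
  conv => arg 3; rw [e2, PT_add]
  exact isP_sg _ _ _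

lemma isP_mvr (L x y k : ℕ) : isP (PT z i j (L - x) y)
    (ew z i j ((vr x y k).map (mir L))) (PT z i j (L - x) (y + k)) := by
  rw [ew_mir_vr, PT_add']
  exact isP_sg _ _ _

lemma isP_st {k X : ℕ} (h : X / 2 ^ k = 0) :
    isP (PT z i j 0 0) (ew z i j (st k X)) (PT z i j X X) := by
  induction k generalizing X with
  | zero =>
    rw [pow_zero, Nat.div_one] at h
    subst h
    unfold st ew isP
    rfl
  | succ k ih =>
    unfold st
    rw [ew_append, ew_append]
    refine isP_append (ih (by rw [div_two_pow]; exact h)) ?_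
    have e : X / 2 + (X - X / 2) = X := by omega
    refine isP_append (q := PT z i j X (X / 2)) ?_ ?_
    · have := isP_hr (z := z) (i := i) (j := j) (X / 2) (X - X / 2) (X / 2)
      rwa [e] at this
    · have := isP_vr (z := z) (i := i) (j := j) X (X / 2) (X - X / 2)
      rwa [e] at this

lemma map_rv (L : ℕ) (w : List (Pk × Bool)) : (rv w).map (mir L) = rv (w.map (mir L)) := by
  unfold rv
  rw [List.map_reverse, List.map_map, List.map_map]
  congr 1
  refine List.map_congr_left fun s hs => ?_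
  simp only [Function.comp]
  unfold mir
  split_ifs <;> rfl

lemma isP_mst {L k X : ℕ} (h : X / 2 ^ k = 0) (hX : X ≤ L) :
    isP (PT z i j L 0) (ew z i j ((st k X).map (mir L))) (PT z i j (L - X) X) := by
  induction k generalizing X with
  | zero =>
    rw [pow_zero, Nat.div_one] at h
    subst h
    unfold st ew isP
    rfl
  | succ k ih =>
    unfold st
    rw [List.map_append, List.map_append, ew_append, ew_append]
    refine isP_append (ih (by rw [div_two_pow]; exact h) (by omega)) ?_
    have e : X / 2 + (X - X / 2) = X := by omega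
    refine isP_append (q := PT z i j (L - X) (X / 2)) ?_ ?_
    · have := isP_mhr (z := z) (i := i) (j := j) (L := L) (x := X / 2) (k := X - X / 2)
        (by omega) (X / 2)
      rwa [e] at this
    · have := isP_mvr (z := z) (i := i) (j := j) L X (X / 2) (X - X / 2)
      rwa [e] at this

lemma half_zero {n X : ℕ} (hX : X < 2 ^ (n + 1)) : X / 2 / 2 ^ n = 0 := by
  rw [div_two_pow]
  exact Nat.div_eq_of_lt hX

lemma low_half {n X : ℕ} (hX : X < 2 ^ (n + 1)) : X - 2 ^ n ≤ X / 2 := by
  rw [pow_succ] at hX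
  omega

lemma isP_lf {n X : ℕ} (hX : X < 2 ^ (n + 1)) :
    isP (PT z i j 0 0) (ew z i j (lf n X)) (PT z i j X (X - 2 ^ n)) := by
  unfold lf
  rw [ew_append, ew_append]
  refine isP_append (isP_st (half_zero hX)) ?_
  have e : X / 2 + (X - X / 2) = X := by omega
  refine isP_append (q := PT z i j X (X / 2)) ?_ ?_
  · have := isP_hr (z := z) (i := i) (j := j) (X / 2) (X - X / 2) (X / 2)
    rwa [e] at this
  · rw [ew_rv]
    refine isP_rev ?_
    have := isP_vr (z := z) (i := i) (j := j) X (X - 2 ^ n) (X / 2 - (X - 2 ^ n))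
    rwa [Nat.add_sub_cancel' (low_half hX)] at this

lemma isP_mlf {L n X : ℕ} (hX : X < 2 ^ (n + 1)) (hXL : X ≤ L) :
    isP (PT z i j L 0) (ew z i j ((lf n X).map (mir L))) (PT z i j (L - X) (X - 2 ^ n)) := by
  unfold lf
  rw [List.map_append, List.map_append, ew_append, ew_append]
  refine isP_append (isP_mst (half_zero hX) (by omega)) ?_
  have e : X / 2 + (X - X / 2) = X := by omega
  refine isP_append (q := PT z i j (L - X) (X / 2)) ?_ ?_
  · have := isP_mhr (z := z) (i := i) (j := j) (L := L) (x := X / 2) (k := X - X / 2)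
        (by omega) (X / 2)
    rwa [e] at this
  · rw [map_rv, ew_rv]
    refine isP_rev ?_
    have := isP_mvr (z := z) (i := i) (j := j) L X (X - 2 ^ n) (X / 2 - (X - 2 ^ n))
    rwa [Nat.add_sub_cancel' (low_half hX)] at this

lemma isP_om {L n X : ℕ} (hX : X < 2 ^ (n + 1)) (hXL : 2 * X ≤ L) :
    isP (PT z i j 0 0) (ew z i j (om n L X)) (PT z i j L 0) := by
  unfold om
  rw [ew_append, ew_append]
  refine isP_append (isP_lf hX) ?_
  refine isP_append (q := PT z i j (L - X) (X - 2 ^ n)) ?_ ?_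
  · have := isP_hr (z := z) (i := i) (j := j) X (L - 2 * X) (X - 2 ^ n)
    have e : X + (L - 2 * X) = L - X := by omega
    rwa [e] at this
  · rw [ew_rv]
    exact isP_rev (isP_mlf hX (by omega))

/-! ### injectivity -/

lemma PT_apply_i (hij : i ≠ j) (x y : ℕ) : PT z i j x y i = z i + x := by
  unfold PT
  have h1 : (eT j : Fin d → ZMod l) i = 0 := by unfold eT; simp [hij]
  have h2 : (eT i : Fin d → ZMod l) i = 1 := by unfold eT; simp
  simp [h1, h2]

lemma PT_apply_j (hij : i ≠ j) (x y : ℕ) : PT z i j x y j = z j + y := by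
  unfold PT
  have h1 : (eT i : Fin d → ZMod l) j = 0 := by unfold eT; simp [hij.symm]
  have h2 : (eT j : Fin d → ZMod l) j = 1 := by unfold eT; simp
  simp [h1, h2]

lemma PT_apply_ne {τ : Fin d} (hi : τ ≠ i) (hj : τ ≠ j) (x y : ℕ) : PT z i j x y τ = z τ := by
  unfold PT
  have h1 : (eT i : Fin d → ZMod l) τ = 0 := by unfold eT; simp [hi]
  have h2 : (eT j : Fin d → ZMod l) τ = 0 := by unfold eT; simp [hj]
  simp [h1, h2]

lemma em_inj (hij : i ≠ j) {e e' : Pk} (h1 : e.1.1 < l) (h2 : e.1.2 < l) (h1' : e'.1.1 < l)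
    (h2' : e'.1.2 < l) (h : em z i j e = em z i j e') : e = e' := by
  obtain ⟨⟨x, y⟩, b⟩ := e
  obtain ⟨⟨x', y'⟩, b'⟩ := e'
  unfold em at h
  simp only [Prod.mk.injEq] at h h1 h2 h1' h2' ⊢
  obtain ⟨h3, h4⟩ := h
  have h5 := congrFun h3 i
  have h6 := congrFun h3 j
  rw [PT_apply_i hij, PT_apply_i hij, add_right_inj] at h5
  rw [PT_apply_j hij, PT_apply_j hij, add_right_inj] at h6
  rw [ZMod.natCast_eq_natCast_iff'] at h5 h6
  rw [Nat.mod_eq_of_lt h1, Nat.mod_eq_of_lt h1'] at h5
  rw [Nat.mod_eq_of_lt h2, Nat.mod_eq_of_lt h2'] at h6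
  refine ⟨⟨h5, h6⟩, ?_⟩
  cases b <;> cases b' <;> simp [hij, hij.symm] at h4 ⊢

lemma ew_fst (w : List (Pk × Bool)) : (ew z i j w).map Prod.fst = (w.map Prod.fst).map (em z i j) := by
  unfold ew
  rw [List.map_map, List.map_map]
  rfl

lemma ND_ew (hij : i ≠ j) {w : List (Pk × Bool)} (hw : (w.map Prod.fst).Nodup)
    (hr : ∀ e ∈ w.map Prod.fst, e.1.1 < l ∧ e.1.2 < l) : ND (ew z i j w) := by
  unfold ND
  rw [ew_fst]
  exact hw.map_on fun e he e' he' h =>
    em_inj hij (hr e he).1 (hr e he).2 (hr e' he').1 (hr e' he').2 h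

lemma mem_ew (hij : i ≠ j) {w : List (Pk × Bool)}
    (hr : ∀ e ∈ w.map Prod.fst, e.1.1 < l ∧ e.1.2 < l) {e : Pk} (h1 : e.1.1 < l)
    (h2 : e.1.2 < l) : em z i j e ∈ (ew z i j w).map Prod.fst ↔ e ∈ w.map Prod.fst := by
  rw [ew_fst, List.mem_map]
  constructor
  · rintro ⟨e', he', h⟩
    have := em_inj hij (hr e' he').1 (hr e' he').2 h1 h2 h
    rwa [← this]
  · intro h
    exact ⟨e, h, rfl⟩

end paths

section flow

variable {d m : ℕ} {ι : Type*} [Fintype ι]

/-- the flow as an average -/
lemma flow_eq [NeZero m] {a : ι → ℝ} {w : ι → List (Ed d (2 * m) × Bool)} (hn : ∀ i, ND (w i)) :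
    flow a w = ∑ i, a i * ((w i).map fun s =>
      ∑ i', if s.1 ∈ (w i').map Prod.fst then a i' else 0).sum := by
  unfold flow
  have h1 : ∀ i, ((w i).map fun s => ∑ i', if s.1 ∈ (w i').map Prod.fst then a i' else 0).sum =
      ∑ e, if e ∈ (w i).map Prod.fst then
        (∑ i', if e ∈ (w i').map Prod.fst then a i' else 0) else 0 := by
    intro i
    have h2 : ((w i).map fun s => ∑ i', if s.1 ∈ (w i').map Prod.fst then a i' else 0) =
        ((w i).map Prod.fst).map fun e => ∑ i', if e ∈ (w i').map Prod.fst then a i' else 0 := by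
      rw [List.map_map]; rfl
    rw [h2, ← List.sum_toFinset _ (hn i), ← Finset.sum_filter]
    refine Finset.sum_congr ?_ fun _ _ => rfl
    ext e
    rw [List.mem_toFinset, Finset.mem_filter]
    exact ⟨fun h => ⟨Finset.mem_univ _, h⟩, fun h => h.2⟩
  simp only [h1, Finset.mul_sum]
  rw [Finset.sum_comm]
  refine Finset.sum_congr rfl fun e _ => ?_
  rw [pow_two, Finset.sum_mul]
  refine Finset.sum_congr rfl fun i _ => ?_
  split_ifs
  · rfl
  · rw [zero_mul, mul_zero]

/-- **The flow of the spreading family.** -/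
theorem flow_om [NeZero m] {z : Fin d → ZMod (2 * m)} {i j : Fin d} (hij : i ≠ j) {n L : ℕ}
    (hL : 2 ^ (n + 2) ≤ L) (hm : L < 2 * m) :
    flow (fun _ : Fin (2 ^ n) => (1 / 2 ^ n : ℝ)) (fun q => ew z i j (om n L (2 ^ n + q.val))) ≤
      14 * (n + 1) + L / 2 ^ n := by
  have hX : ∀ q : Fin (2 ^ n), 2 ^ n ≤ 2 ^ n + q.val ∧ 2 ^ n + q.val < 2 ^ (n + 1) ∧
      2 * (2 ^ n + q.val) < L := by
    intro q
    have := q.isLt
    have e1 : 2 ^ (n + 2) = 2 ^ n * 4 := by rw [pow_add]; norm_num
    have e2 : 2 ^ (n + 1) = 2 ^ n * 2 := by rw [pow_add]; norm_num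
    omega
  have hrange : ∀ q : Fin (2 ^ n), ∀ e ∈ (om n L (2 ^ n + q.val)).map Prod.fst,
      e.1.1 < 2 * m ∧ e.1.2 < 2 * m := by
    intro q e he
    have := om_range (hX q).2.2 he
    omega
  have hpos : 1 ≤ 2 ^ n := Nat.one_le_two_pow
  rw [flow_eq fun q => ND_ew hij (nodup_om (by have := (hX q).1; omega) (hX q).2.2) (hrange q)]
  have h1 : ∀ q : Fin (2 ^ n), ((ew z i j (om n L (2 ^ n + q.val))).map fun s =>
      ∑ q' : Fin (2 ^ n), if s.1 ∈ (ew z i j (om n L (2 ^ n + q'.val))).map Prod.fst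
        then (1 / 2 ^ n : ℝ) else 0).sum = sm (pr n L) (om n L (2 ^ n + q.val)) := by
    intro q
    unfold sm
    conv_lhs => unfold ew
    rw [List.map_map]
    congr 1
    refine List.map_congr_left fun s hs => ?_
    simp only [Function.comp]
    unfold pr
    have hs' : s.1 ∈ (om n L (2 ^ n + q.val)).map Prod.fst := List.mem_map_of_mem hs
    refine Finset.sum_congr rfl fun q' _ => ?_
    have h2 := mem_ew (z := z) hij (hrange q') (hrange q _ hs').1 (hrange q _ hs').2
    exact if_congr h2 rfl rfl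
  simp only [h1]
  calc ∑ q : Fin (2 ^ n), (1 / 2 ^ n : ℝ) * sm (pr n L) (om n L (2 ^ n + q.val)) ≤
      ∑ q : Fin (2 ^ n), (1 / 2 ^ n : ℝ) * (14 * (n + 1) + L / 2 ^ n) :=
        Finset.sum_le_sum fun q _ => mul_le_mul_of_nonneg_left
          (sm_om (hX q).1 (hX q).2.1 hL) (by positivity)
    _ = _ := by
      rw [Finset.sum_const, Finset.card_univ, Fintype.card_fin, nsmul_eq_mul]
      push_cast
      field_simp

end flow

end

end Pool.Agent.Y15
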