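import Mathlib
import Pool.Agent.Y15.Emb
import Pool.Agent.TH618.YM.AreaR

/-!
# The distance of the parallel transporters of neighbouring paths
-/

open MeasureTheory Matrix
open scoped Matrix.Norms.Frobenius
open Pool.Agent.H906R3.YM hiding Pl
open Pool.Agent.W793.YM Pool.Agent.TH618.YM

namespace Pool.Agent.Y15

set_option linter.unusedSectionVars false
set_option linter.unusedVariables false

noncomputable section

variable {G : Type*} [Group G] [TopologicalSpace G]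
  [IsTopologicalGroup G] [CompactSpace G] [SecondCountableTopology G] [MeasurableSpace G]
  [BorelSpace G] (μ : Measure G) [IsProbabilityMeasure μ] [μ.IsMulLeftInvariant]
  [μ.IsMulRightInvariant] [μ.IsInvInvariant] {N n' : ℕ} {L : LD G N n'}
  {d m : ℕ} [NeZero m]

variable (L) in
/-- the distance of two parallel transporters -/
def dd (β : ℝ) (f g : (Ed d (2 * m) → G) → G) : ℝ :=
  N2 μ L β fun U => L.rho (f U) - L.rho (g U)

variable {β : ℝ} {f g h k : (Ed d (2 * m) → G) → G}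

lemma dd_nonneg : 0 ≤ dd μ L β f g := N2_nonneg μ β _

lemma dd_comm : dd μ L β f g = dd μ L β g f := N2_sub_comm μ β _ _

lemma dd_congr {f' g' : (Ed d (2 * m) → G) → G} (hf : ∀ U, f U = f' U) (hg : ∀ U, g U = g' U) :
    dd μ L β f g = dd μ L β f' g' := by
  have h1 : f = f' := funext hf
  have h2 : g = g' := funext hg
  rw [h1, h2]

lemma dd_self : dd μ L β f f = 0 := by
  unfold dd N2
  have : (fun U : Ed d (2 * m) → G => ‖L.rho (f U) - L.rho (f U)‖ ^ 2) = fun _ => (0 : ℝ) := by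
    funext U
    rw [sub_self, norm_zero]; norm_num
  rw [this, EX_const, Real.sqrt_zero]

lemma dd_tri (hf : Continuous f) (hg : Continuous g) (hh : Continuous h) :
    dd μ L β f h ≤ dd μ L β f g + dd μ L β g h :=
  N2_tri μ β (L.cont.comp hf) (L.cont.comp hg) (L.cont.comp hh)

lemma dd_mul (f g h k : (Ed d (2 * m) → G) → G) :
    dd μ L β (fun U => h U * f U * k U) (fun U => h U * g U * k U) = dd μ L β f g := by
  refine N2_congr μ β fun U => ?_
  rw [map_mul, map_mul, map_mul, map_mul, ← sub_mul, ← mul_sub, norm_rmul, norm_lmul]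

lemma dd_mul_right (f g k : (Ed d (2 * m) → G) → G) :
    dd μ L β (fun U => f U * k U) (fun U => g U * k U) = dd μ L β f g := by
  refine N2_congr μ β fun U => ?_
  rw [map_mul, map_mul, ← sub_mul, norm_rmul]

lemma dd_mul_left (f g k : (Ed d (2 * m) → G) → G) :
    dd μ L β (fun U => k U * f U) (fun U => k U * g U) = dd μ L β f g := by
  refine N2_congr μ β fun U => ?_
  rw [map_mul, map_mul, ← mul_sub, norm_lmul]

lemma norm_diff (g h : G) : ‖L.rho g - L.rho h‖ = ‖L.rho (g * h⁻¹) - 1‖ := by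
  have h1 : L.rho g - L.rho h = (L.rho (g * h⁻¹) - 1) * L.rho h := by
    rw [sub_mul, one_mul, ← map_mul, inv_mul_cancel_right]
  rw [h1, norm_rmul]

lemma dd_inv (f g : (Ed d (2 * m) → G) → G) :
    dd μ L β (fun U => (f U)⁻¹) (fun U => (g U)⁻¹) = dd μ L β f g := by
  refine N2_congr μ β fun U => ?_
  rw [norm_diff, norm_diff]
  have h1 : (f U)⁻¹ * (g U)⁻¹⁻¹ = (f U)⁻¹ * (f U * (g U)⁻¹)⁻¹ * (f U)⁻¹⁻¹ := by group
  have h2 := dv_conj (L := L) (f U)⁻¹ (f U * (g U)⁻¹)⁻¹
  have h3 := dv_inv (L := L) (f U * (g U)⁻¹)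
  unfold dv at h2 h3
  rw [h1, h2, h3]

lemma norm_diff_sq (g h : G) : ‖L.rho g - L.rho h‖ ^ 2 = 2 * N - 2 * rt L (g * h⁻¹) := by
  rw [norm_diff]
  have h1 := dv_sq (L := L) (g * h⁻¹)
  unfold dv at h1
  rw [h1, rt_we]; ring

variable (L) in
/-- the distance of the two halves of a rectangle -/
def uu (m : ℕ) [NeZero m] (β : ℝ) (i j : Fin d) (a b : ℕ) : ℝ :=
  Real.sqrt (2 * N * (1 - wR2 μ L m β i j a b))

lemma uu_nonneg (i j : Fin d) (a b : ℕ) : 0 ≤ uu μ L m β i j a b := Real.sqrt_nonneg _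

lemma uu_swap (i j : Fin d) (a b : ℕ) : uu μ L m β i j a b = uu μ L m β j i b a := by
  unfold uu
  rw [wR2_swap]

lemma uu_sq (hN : 1 ≤ N) (i j : Fin d) (a b : ℕ) :
    uu μ L m β i j a b ^ 2 = 2 * N * (1 - wR2 μ L m β i j a b) := by
  unfold uu
  rw [Real.sq_sqrt]
  have := wR2_le μ (L := L) (m := m) hN β i j a b
  have h2 : (0 : ℝ) ≤ N := Nat.cast_nonneg _
  exact mul_nonneg (by linarith) (by linarith)

lemma uu_zero (hN : 1 ≤ N) (i j : Fin d) (b : ℕ) : uu μ L m β i j 0 b = 0 := by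
  unfold uu
  rw [wR2_zero μ hN, sub_self, mul_zero, Real.sqrt_zero]

lemma uu_zero' (hN : 1 ≤ N) (i j : Fin d) (a : ℕ) : uu μ L m β i j a 0 = 0 := by
  rw [uu_swap, uu_zero μ hN]

lemma rect_sq (hN : 1 ≤ N) (z : Fin d → ZMod (2 * m)) (i j : Fin d) (a b : ℕ) :
    EX μ L β (fun U : Ed d (2 * m) → G => 2 * N - 2 * rt L (rect U z i j a b)) =
      uu μ L m β i j a b ^ 2 := by
  rw [uu_sq μ hN]
  have h1 := EX_tr μ (L := L) (β := β) z (fun U : Ed d (2 * m) → G =>
    2 * (N : ℝ) - 2 * rt L (rect U 0 i j a b))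
  simp only [rect_tr, zero_add] at h1
  have h2 := EX_sub μ (L := L) (β := β) (F := fun _ : Ed d (2 * m) → G => 2 * (N : ℝ))
    (H := fun U : Ed d (2 * m) → G => 2 * rt L (rect U 0 i j a b)) continuous_const
    (continuous_const.mul (rt_cont.comp (rect_cont _ _ _ _ _)))
  rw [h1, h2, EX_const, EX_smul μ]
  unfold wR2
  have hN0 : (N : ℝ) ≠ 0 := by
    have : (1 : ℝ) ≤ N := by exact_mod_cast hN
    positivity
  field_simp

/-- the two halves of a rectangle -/
lemma dd_rect (hN : 1 ≤ N) (z : Fin d → ZMod (2 * m)) (i j : Fin d) (a b : ℕ) :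
    dd μ L β (fun U => ln U i a z * ln U j b (z + a • eT i))
      (fun U => ln U j b z * ln U i a (z + b • eT j)) = uu μ L m β i j a b := by
  unfold dd N2
  have h1 : ∀ U : Ed d (2 * m) → G, ‖L.rho (ln U i a z * ln U j b (z + a • eT i)) -
      L.rho (ln U j b z * ln U i a (z + b • eT j))‖ ^ 2 =
      2 * N - 2 * rt L (rect U z i j a b) := by
    intro U
    rw [norm_diff_sq]
    congr 3
    unfold rect
    group
  simp only [h1]
  rw [rect_sq μ hN, Real.sqrt_sq (uu_nonneg μ _ _ _ _)]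

/-! ### frames -/

variable (L) in
/-- what is used of the horizontal and the vertical transporters -/
structure Fr (β : ℝ) (M : ℕ) (u : ℕ → ℕ → ℝ) (h v : (Ed d (2 * m) → G) → ℕ → ℕ → ℕ → G) :
    Prop where
  hc : ∀ x k y, Continuous fun U => h U x k y
  vc : ∀ x y k, Continuous fun U => v U x y k
  h0 : ∀ U x y, h U x 0 y = 1
  v0 : ∀ U x y, v U x y 0 = 1
  ha : ∀ U x k k' y, x + k + k' ≤ M → h U x (k + k') y = h U x k y * h U (x + k) k' y
  va : ∀ U x y k k', v U x y (k + k') = v U x y k * v U x (y + k) k'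
  rc : ∀ x k y b, x + k ≤ M → dd μ L β (fun U => h U x k y * v U (x + k) y b)
    (fun U => v U x y b * h U x k (y + b)) ≤ u k b

/-- the transporter of the spreading path -/
def stG (h v : ℕ → ℕ → ℕ → G) : ℕ → ℕ → G
  | 0, _ => 1
  | k + 1, X => stG h v k (X / 2) * (h (X / 2) (X - X / 2) (X / 2) * v X (X / 2) (X - X / 2))

/-- the transporter of the left end -/
def lfG (h v : ℕ → ℕ → ℕ → G) (n X : ℕ) : G :=
  stG h v n (X / 2) * (h (X / 2) (X - X / 2) (X / 2) * (v X (X - 2 ^ n) (X / 2 - (X - 2 ^ n)))⁻¹)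

variable {M : ℕ} {u : ℕ → ℕ → ℝ} {hh vv : (Ed d (2 * m) → G) → ℕ → ℕ → ℕ → G}

lemma stG_cont (F : Fr μ L β M u hh vv) (k X : ℕ) :
    Continuous fun U : Ed d (2 * m) → G => stG (hh U) (vv U) k X := by
  induction k generalizing X with
  | zero => exact continuous_const
  | succ k ih =>
    unfold stG
    exact (ih _).mul ((F.hc _ _ _).mul (F.vc _ _ _))

lemma lfG_cont (F : Fr μ L β M u hh vv) (n X : ℕ) :
    Continuous fun U : Ed d (2 * m) → G => lfG (hh U) (vv U) n X := by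
  unfold lfG
  exact (stG_cont μ F _ _).mul ((F.hc _ _ _).mul (F.vc _ _ _).inv)

/-- one stage of the spreading -/
lemma stage (F : Fr μ L β M u hh vv) {X a : ℕ} (hX : X ≤ M) (ha : a ≤ X)
    {s t : (Ed d (2 * m) → G) → G} (hs : Continuous s) (ht : Continuous t)
    {c : ℝ} (h : dd μ L β s (fun U => hh U 0 a 0 * vv U a 0 a) ≤ c) :
    dd μ L β (fun U => s U * (hh U a (X - a) a * t U))
      (fun U => hh U 0 X 0 * (vv U X 0 a * t U)) ≤ c + u (X - a) a := by
  have h1 := dd_tri μ (L := L) (β := β)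
    (f := fun U => s U * (hh U a (X - a) a * t U))
    (g := fun U => hh U 0 a 0 * vv U a 0 a * (hh U a (X - a) a * t U))
    (h := fun U => hh U 0 X 0 * (vv U X 0 a * t U))
    (hs.mul ((F.hc _ _ _).mul ht))
    (((F.hc _ _ _).mul (F.vc _ _ _)).mul ((F.hc _ _ _).mul ht))
    ((F.hc _ _ _).mul ((F.vc _ _ _).mul ht))
  refine h1.trans (add_le_add ?_ ?_)
  · rw [dd_mul_right μ s (fun U => hh U 0 a 0 * vv U a 0 a)
      (fun U => hh U a (X - a) a * t U)]
    exact h
  · have h2 := F.rc a (X - a) 0 a (by omega)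
    rw [zero_add, Nat.add_sub_cancel' ha] at h2
    rw [← dd_mul μ _ _ (fun U => hh U 0 a 0) t, dd_comm] at h2
    refine le_trans (le_of_eq (dd_congr μ (fun U => ?_) fun U => ?_)) h2
    · simp only [mul_assoc]
    · have h3 := F.ha U 0 a (X - a) 0 (by omega)
      rw [zero_add, Nat.add_sub_cancel' ha] at h3
      rw [h3]
      simp only [mul_assoc]

lemma st_close (F : Fr μ L β M u hh vv) (k X : ℕ) (hk : X / 2 ^ k = 0) (hX : X ≤ M) :
    dd μ L β (fun U => stG (hh U) (vv U) k X) (fun U => hh U 0 X 0 * vv U X 0 X) ≤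
      ∑ i ∈ Finset.range k, u (X / 2 ^ i - X / 2 ^ (i + 1)) (X / 2 ^ (i + 1)) := by
  induction k generalizing X with
  | zero =>
    rw [pow_zero, Nat.div_one] at hk
    subst hk
    rw [Finset.sum_range_zero]
    refine le_of_eq ?_
    rw [← dd_self μ (L := L) (β := β) (f := fun _ : Ed d (2 * m) → G => (1 : G))]
    refine dd_congr μ (fun U => rfl) fun U => ?_
    rw [F.h0, F.v0, mul_one]
  | succ k ih =>
    have h1 := ih (X / 2) (by rw [div_two_pow]; exact hk) (by omega)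
    have h2 := stage μ F hX (Nat.div_le_self X 2) (stG_cont μ F k (X / 2))
      (F.vc X (X / 2) (X - X / 2)) h1
    rw [Finset.sum_range_succ']
    have h3 : ∀ i, u (X / 2 / 2 ^ i - X / 2 / 2 ^ (i + 1)) (X / 2 / 2 ^ (i + 1)) =
        u (X / 2 ^ (i + 1) - X / 2 ^ (i + 1 + 1)) (X / 2 ^ (i + 1 + 1)) := by
      intro i
      rw [div_two_pow, div_two_pow]
    simp only [h3] at h2
    have h4 : X / 2 ^ 0 = X := by simp
    have h5 : X / 2 ^ (0 + 1) = X / 2 := by simp
    rw [h4, h5]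
    refine le_trans (le_of_eq (dd_congr μ (fun U => rfl) fun U => ?_)) h2
    have h6 := F.va U X 0 (X / 2) (X - X / 2)
    rw [zero_add, Nat.add_sub_cancel' (Nat.div_le_self X 2)] at h6
    rw [h6]

lemma lf_close (F : Fr μ L β M u hh vv) (n X : ℕ) (hX0 : 2 ^ n ≤ X) (hXn : X < 2 ^ (n + 1))
    (hM : 2 ^ (n + 1) ≤ M) :
    dd μ L β (fun U => lfG (hh U) (vv U) n X * hh U X (2 ^ (n + 1) - X) (X - 2 ^ n))
      (fun U => hh U 0 (2 ^ (n + 1)) 0 * vv U (2 ^ (n + 1)) 0 (X - 2 ^ n)) ≤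
      ∑ i ∈ Finset.range (n + 1), u (X / 2 ^ i - X / 2 ^ (i + 1)) (X / 2 ^ (i + 1)) +
        u (2 ^ (n + 1) - X) (X - 2 ^ n) := by
  obtain ⟨y, hy⟩ : ∃ y, y = X - 2 ^ n := ⟨_, rfl⟩
  obtain ⟨a, ha⟩ : ∃ a, a = X / 2 := ⟨_, rfl⟩
  have hya : y ≤ a := by rw [hy, ha]; exact low_half hXn
  have haX : a ≤ X := by rw [ha]; exact Nat.div_le_self X 2
  have h1 := st_close μ F n a (by rw [ha]; exact half_zero hXn) (by omega)
  have h2 := stage μ F (X := X) (a := a) (t := fun U => (vv U X y (a - y))⁻¹) (by omega) haX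
    (stG_cont μ F n a) (F.vc X y (a - y)).inv h1
  have h2' : dd μ L β (fun U => lfG (hh U) (vv U) n X) (fun U => hh U 0 X 0 * vv U X 0 y) ≤
      ∑ i ∈ Finset.range (n + 1), u (X / 2 ^ i - X / 2 ^ (i + 1)) (X / 2 ^ (i + 1)) := by
    rw [Finset.sum_range_succ']
    have h3 : ∀ i, u (a / 2 ^ i - a / 2 ^ (i + 1)) (a / 2 ^ (i + 1)) =
        u (X / 2 ^ (i + 1) - X / 2 ^ (i + 1 + 1)) (X / 2 ^ (i + 1 + 1)) := by
      intro i
      rw [ha, div_two_pow, div_two_pow]
    simp only [h3] at h2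
    have h4 : X / 2 ^ 0 = X := by simp
    have h5 : X / 2 ^ (0 + 1) = a := by simp [ha]
    rw [h4, h5]
    refine le_trans (le_of_eq (dd_congr μ (fun U => ?_) fun U => ?_)) h2
    · unfold lfG
      rw [← hy, ← ha]
    · have h6 := F.va U X 0 y (a - y)
      rw [zero_add, Nat.add_sub_cancel' hya] at h6
      rw [h6, mul_inv_cancel_right]
  rw [← hy]
  have h7 := dd_tri μ (L := L) (β := β)
    (f := fun U => lfG (hh U) (vv U) n X * hh U X (2 ^ (n + 1) - X) y)
    (g := fun U => hh U 0 X 0 * vv U X 0 y * hh U X (2 ^ (n + 1) - X) y)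
    (h := fun U => hh U 0 (2 ^ (n + 1)) 0 * vv U (2 ^ (n + 1)) 0 y)
    ((lfG_cont μ F _ _).mul (F.hc _ _ _))
    (((F.hc _ _ _).mul (F.vc _ _ _)).mul (F.hc _ _ _))
    ((F.hc _ _ _).mul (F.vc _ _ _))
  refine h7.trans (add_le_add ?_ ?_)
  · rw [dd_mul_right μ (fun U => lfG (hh U) (vv U) n X) (fun U => hh U 0 X 0 * vv U X 0 y)
      (fun U => hh U X (2 ^ (n + 1) - X) y)]
    exact h2'
  · have h8 := F.rc X (2 ^ (n + 1) - X) 0 y (by omega)
    rw [zero_add, Nat.add_sub_cancel' hXn.le] at h8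
    rw [← dd_mul_left μ _ _ (fun U => hh U 0 X 0), dd_comm] at h8
    refine le_trans (le_of_eq (dd_congr μ (fun U => ?_) fun U => ?_)) h8
    · simp only [mul_assoc]
    · have h9 := F.ha U 0 X (2 ^ (n + 1) - X) 0 (by omega)
      rw [zero_add, Nat.add_sub_cancel' hXn.le] at h9
      rw [h9]
      simp only [mul_assoc]

/-! ### the two frames -/

lemma fr_left (hN : 1 ≤ N) (z : Fin d → ZMod (2 * m)) (i j : Fin d) (M : ℕ) :
    Fr μ L β M (uu μ L m β i j) (fun U x k y => ln U i k (PT z i j x y))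
      (fun U x y k => ln U j k (PT z i j x y)) where
  hc x k y := ln_cont _ _ _
  vc x y k := ln_cont _ _ _
  h0 U x y := rfl
  v0 U x y := rfl
  ha U x k k' y _ := by rw [ln_add, PT_add]
  va U x y k k' := by rw [ln_add, PT_add']
  rc x k y b _ := by
    have := dd_rect μ (L := L) (β := β) hN (PT z i j x y) i j k b
    rw [← PT_add, ← PT_add'] at this
    exact this.le

lemma fr_right (hN : 1 ≤ N) (z : Fin d → ZMod (2 * m)) (i j : Fin d) (M : ℕ) :
    Fr μ L β M (uu μ L m β i j) (fun U x k y => (ln U i k (PT z i j (M - x - k) y))⁻¹)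
      (fun U x y k => ln U j k (PT z i j (M - x) y)) where
  hc x k y := (ln_cont _ _ _).inv
  vc x y k := ln_cont _ _ _
  h0 U x y := by rw [ln_zero, inv_one]
  v0 U x y := rfl
  ha U x k k' y h := by
    have e1 : M - (x + k) - k' = M - x - (k + k') := by omega
    have e2 : M - x - k = M - x - (k + k') + k' := by omega
    rw [e1, e2, PT_add, ← _root_.mul_inv_rev, ← ln_add, add_comm k' k]
  va U x y k k' := by rw [ln_add, PT_add']
  rc x k y b h := by
    have h1 := dd_rect μ (L := L) (β := β) hN (PT z i j (M - x - k) y) i j k b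
    rw [← PT_add, ← PT_add'] at h1
    have e1 : M - x - k + k = M - x := by omega
    have e2 : M - (x + k) = M - x - k := by omega
    rw [e1] at h1
    rw [← dd_mul μ _ _ (fun U => (ln U i k (PT z i j (M - x - k) y))⁻¹)
      (fun U => (ln U i k (PT z i j (M - x - k) (y + b)))⁻¹), dd_comm] at h1
    rw [e2, ← h1]
    refine le_of_eq (dd_congr μ (fun U => ?_) fun U => ?_)
    · group
    · group

/-! ### the transporters of the paths -/

section pgs

variable {z : Fin d → ZMod (2 * m)} {i j : Fin d} (U : Ed d (2 * m) → G)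

lemma pg_hr (x k y : ℕ) : pg U (ew z i j (hr x k y)) = ln U i k (PT z i j x y) := by
  rw [ew_hr, pg_sg]

lemma pg_vr (x y k : ℕ) : pg U (ew z i j (vr x y k)) = ln U j k (PT z i j x y) := by
  rw [ew_vr, pg_sg]

lemma pg_mhr {L x k : ℕ} (h : x + k ≤ L) (y : ℕ) :
    pg U (ew z i j ((hr x k y).map (mir L))) = (ln U i k (PT z i j (L - x - k) y))⁻¹ := by
  rw [ew_mir_hr z i j h, pg_rev, pg_sg]

lemma pg_mvr (L x y k : ℕ) :
    pg U (ew z i j ((vr x y k).map (mir L))) = ln U j k (PT z i j (L - x) y) := by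
  rw [ew_mir_vr, pg_sg]

lemma pg_st (k X : ℕ) : pg U (ew z i j (st k X)) =
    stG (fun x k y => ln U i k (PT z i j x y)) (fun x y k => ln U j k (PT z i j x y)) k X := by
  induction k generalizing X with
  | zero => rfl
  | succ k ih =>
    unfold st stG
    rw [ew_append, ew_append, pg_append, pg_append, ih, pg_hr, pg_vr]

lemma pg_mst {K : ℕ} (k X : ℕ) (hX : X ≤ K) : pg U (ew z i j ((st k X).map (mir K))) =
    stG (fun x k y => (ln U i k (PT z i j (K - x - k) y))⁻¹)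
      (fun x y k => ln U j k (PT z i j (K - x) y)) k X := by
  induction k generalizing X with
  | zero => rfl
  | succ k ih =>
    unfold st stG
    rw [List.map_append, List.map_append, ew_append, ew_append, pg_append, pg_append,
      ih _ (by omega), pg_mhr U (by omega), pg_mvr]

lemma pg_lf (n X : ℕ) : pg U (ew z i j (lf n X)) =
    lfG (fun x k y => ln U i k (PT z i j x y)) (fun x y k => ln U j k (PT z i j x y)) n X := by
  unfold lf lfG
  rw [ew_append, ew_append, pg_append, pg_append, pg_st, pg_hr, ew_rv, pg_rev, pg_vr]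

lemma pg_mlf {K : ℕ} (n X : ℕ) (hX : X ≤ K) : pg U (ew z i j ((lf n X).map (mir K))) =
    lfG (fun x k y => (ln U i k (PT z i j (K - x - k) y))⁻¹)
      (fun x y k => ln U j k (PT z i j (K - x) y)) n X := by
  unfold lf lfG
  rw [List.map_append, List.map_append, ew_append, ew_append, pg_append, pg_append,
    pg_mst U _ _ (by omega), pg_mhr U (by omega), map_rv, ew_rv, pg_rev, pg_mvr]

end pgs

/-- the intermediate path -/
def Gy (z : Fin d → ZMod (2 * m)) (i j : Fin d) (K x y : ℕ) (U : Ed d (2 * m) → G) : G :=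
  ln U i x (PT z i j 0 0) * ln U j y (PT z i j x 0) * ln U i (K - 2 * x) (PT z i j x y) *
    ((ln U i x (PT z i j (K - x) 0))⁻¹ * ln U j y (PT z i j (K - x) 0))⁻¹

lemma om_close (hN : 1 ≤ N) (z : Fin d → ZMod (2 * m)) (i j : Fin d) {n K X : ℕ}
    (hX0 : 2 ^ n ≤ X) (hXn : X < 2 ^ (n + 1)) (hK : 2 ^ (n + 2) ≤ K) :
    dd μ L β (fun U => pg U (ew z i j (om n K X))) (Gy z i j K (2 ^ (n + 1)) (X - 2 ^ n)) ≤
      2 * (∑ s ∈ Finset.range (n + 1),
        uu μ L m β i j (X / 2 ^ s - X / 2 ^ (s + 1)) (X / 2 ^ (s + 1)) +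
        uu μ L m β i j (2 ^ (n + 1) - X) (X - 2 ^ n)) := by
  obtain ⟨x, hx⟩ : ∃ x, x = 2 ^ (n + 1) := ⟨_, rfl⟩
  have hK' : 2 * x ≤ K := by
    have : 2 ^ (n + 2) = 2 ^ (n + 1) * 2 := by rw [pow_succ]
    omega
  obtain ⟨y, hy⟩ : ∃ y, y = X - 2 ^ n := ⟨_, rfl⟩
  have F1 := fr_left μ (L := L) (β := β) hN z i j K
  have F2 := fr_right μ (L := L) (β := β) hN z i j K
  have h1 := lf_close μ F1 n X hX0 hXn (by omega)
  have h2 := lf_close μ F2 n X hX0 hXn (by omega)
  rw [← hx, ← hy] at h1 h2 ⊢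
  obtain ⟨S, hS⟩ : ∃ S, S = ∑ s ∈ Finset.range (n + 1),
        uu μ L m β i j (X / 2 ^ s - X / 2 ^ (s + 1)) (X / 2 ^ (s + 1)) +
        uu μ L m β i j (x - X) y := ⟨_, rfl⟩
  rw [← hS] at h1 h2 ⊢
  -- abbreviations
  obtain ⟨A, hA⟩ : ∃ A : (Ed d (2 * m) → G) → G, A = fun U => lfG
    (fun x k y => ln U i k (PT z i j x y)) (fun x y k => ln U j k (PT z i j x y)) n X *
      ln U i (x - X) (PT z i j X y) := ⟨_, rfl⟩
  obtain ⟨A', hA'⟩ : ∃ A' : (Ed d (2 * m) → G) → G, A' = fun U =>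
    ln U i x (PT z i j 0 0) * ln U j y (PT z i j x 0) := ⟨_, rfl⟩
  obtain ⟨B, hB⟩ : ∃ B : (Ed d (2 * m) → G) → G, B = fun U => lfG
    (fun x k y => (ln U i k (PT z i j (K - x - k) y))⁻¹)
      (fun x y k => ln U j k (PT z i j (K - x) y)) n X *
      (ln U i (x - X) (PT z i j (K - X - (x - X)) y))⁻¹ := ⟨_, rfl⟩
  obtain ⟨B', hB'⟩ : ∃ B' : (Ed d (2 * m) → G) → G, B' = fun U =>
    (ln U i x (PT z i j (K - 0 - x) 0))⁻¹ * ln U j y (PT z i j (K - x) 0) := ⟨_, rfl⟩
  rw [← hA, ← hA'] at h1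
  rw [← hB, ← hB'] at h2
  have cA : Continuous A := by rw [hA]; exact (lfG_cont μ F1 n X).mul (ln_cont _ _ _)
  have cA' : Continuous A' := by rw [hA']; exact (ln_cont _ _ _).mul (ln_cont _ _ _)
  have cB : Continuous B := by rw [hB]; exact (lfG_cont μ F2 n X).mul (ln_cont _ _ _).inv
  have cB' : Continuous B' := by rw [hB']; exact (ln_cont _ _ _).inv.mul (ln_cont _ _ _)
  obtain ⟨C, hC⟩ : ∃ C : (Ed d (2 * m) → G) → G, C = fun U =>
    ln U i (K - 2 * x) (PT z i j x y) := ⟨_, rfl⟩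
  have cC : Continuous C := by rw [hC]; exact ln_cont _ _ _
  have e1 : ∀ U, pg U (ew z i j (om n K X)) = A U * C U * (B U)⁻¹ := by
    intro U
    unfold om
    rw [ew_append, ew_append, pg_append, pg_append, pg_lf, pg_hr, ew_rv, pg_rev,
      pg_mlf U _ _ (by omega), hA, hB, hC]
    simp only
    have f1 : K - 2 * X = (x - X) + ((K - 2 * x) + (x - X)) := by omega
    have f2 : ln U i (K - 2 * X) (PT z i j X (X - 2 ^ n)) = ln U i (x - X) (PT z i j X y) *
        (ln U i (K - 2 * x) (PT z i j x y) *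
          ln U i (x - X) (PT z i j (K - X - (x - X)) y)) := by
      rw [f1, ln_add, ln_add, ← PT_add, ← PT_add, ← hy]
      have g1 : X + (x - X) = x := by omega
      have g2 : x + (K - 2 * x) = K - X - (x - X) := by omega
      rw [g1, g2]
    rw [f2]
    group
  have e2 : ∀ U, Gy z i j K x y U = A' U * C U * (B' U)⁻¹ := by
    intro U
    unfold Gy
    rw [hA', hB', hC]
    simp only [Nat.sub_zero]
  rw [dd_congr μ e1 e2]
  have h3 := dd_tri μ (L := L) (β := β) (f := fun U => A U * C U * (B U)⁻¹)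
    (g := fun U => A' U * C U * (B U)⁻¹) (h := fun U => A' U * C U * (B' U)⁻¹)
    ((cA.mul cC).mul cB.inv) ((cA'.mul cC).mul cB.inv) ((cA'.mul cC).mul cB'.inv)
  have h4 : dd μ L β (fun U => A U * C U * (B U)⁻¹) (fun U => A' U * C U * (B U)⁻¹) =
      dd μ L β A A' := by
    rw [← dd_mul_right μ A A' (fun U => C U * (B U)⁻¹)]
    exact dd_congr μ (fun U => mul_assoc _ _ _) fun U => mul_assoc _ _ _
  have h5 : dd μ L β (fun U => A' U * C U * (B U)⁻¹) (fun U => A' U * C U * (B' U)⁻¹) =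
      dd μ L β B B' := by
    rw [← dd_inv μ B B', ← dd_mul_left μ (fun U => (B U)⁻¹) (fun U => (B' U)⁻¹)
      (fun U => A' U * C U)]
  rw [h4, h5] at h3
  linarith

end

end Pool.Agent.Y15
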