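import Mathlib
import Pool.Agent.Y15.Close

/-!
# The recursive inequality
-/

open MeasureTheory Matrix
open scoped Matrix.Norms.Frobenius
open Pool.Agent.H906R3.YM hiding Pl
open Pool.Agent.W793.YM Pool.Agent.TH618.YM

namespace Pool.Agent.Y15

set_option linter.unusedSectionVars false
set_option linter.unusedVariables false

noncomputable section

/-! ### arithmetic -/

/-- differences of a function of the distance -/
lemma comb {f : ℕ → ℝ} {B : ℝ} (h0 : f 0 = 0) (hB0 : 0 ≤ B) (M : ℕ) (hB : ∀ z < M, f z ≤ B) :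
    ∑ y ∈ Finset.range M, ∑ y' ∈ Finset.range M, (f y + f y' - f (y - y' + (y' - y))) ≤
      (M : ℝ) ^ 2 * B := by
  induction M with
  | zero => simp
  | succ M ih =>
    have h1 := ih fun z hz => hB z (by omega)
    have hM := hB M (by omega)
    simp only [Finset.sum_range_succ, Finset.sum_add_distrib]
    have h2 : ∀ y ∈ Finset.range M, f (y - M + (M - y)) = f (M - y) := fun y hy => by
      rw [Finset.mem_range] at hy
      congr 1; omega
    have h3 : ∀ y ∈ Finset.range M, f (M - y + (y - M)) = f (M - y) := fun y hy => by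
      rw [Finset.mem_range] at hy
      congr 1; omega
    have h4 : ∑ y ∈ Finset.range M, f (M - y) + f 0 = ∑ y ∈ Finset.range M, f y + f M := by
      have h := Finset.sum_range_reflect f (M + 1)
      simp only [Nat.add_sub_cancel] at h
      rw [Finset.sum_range_succ, Finset.sum_range_succ, Nat.sub_self] at h
      exact h
    simp only [Finset.sum_sub_distrib, Finset.sum_add_distrib] at h1 ⊢
    rw [Finset.sum_congr rfl h2, Finset.sum_congr rfl h3]
    simp only [Finset.sum_const, Finset.card_range, nsmul_eq_mul] at h1 ⊢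
    have h5 : M - M + (M - M) = 0 := by omega
    rw [h5, h0]
    rw [h0] at h4
    push_cast
    have h6 : (M : ℝ) * f M ≤ M * B := mul_le_mul_of_nonneg_left hM (Nat.cast_nonneg _)
    nlinarith

/-- the square of a sum of differences -/
lemma avg_real (M : ℕ) (t0 : ℝ) (t : ℕ → ℝ) :
    2 * (∑ y ∈ Finset.range M, (t0 - t y)) ^ 2 =
      ∑ y ∈ Finset.range M, ∑ y' ∈ Finset.range M,
        ((t0 - t y) ^ 2 + (t0 - t y') ^ 2 - (t y - t y') ^ 2) := by
  rw [pow_two, Finset.sum_mul_sum, Finset.mul_sum]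
  refine Finset.sum_congr rfl fun y _ => ?_
  rw [Finset.mul_sum]
  exact Finset.sum_congr rfl fun y' _ => by ring

lemma avg_sq {N : ℕ} (M : ℕ) (x0 : Mat N) (x : ℕ → Mat N) :
    2 * ‖∑ y ∈ Finset.range M, (x0 - x y)‖ ^ 2 =
      ∑ y ∈ Finset.range M, ∑ y' ∈ Finset.range M,
        (‖x0 - x y‖ ^ 2 + ‖x0 - x y'‖ ^ 2 - ‖x y - x y'‖ ^ 2) := by
  simp only [← nf_eq, map_sum, map_sub]
  rw [Finset.mul_sum]
  have h1 : ∀ y y' : ℕ, (∑ c : Cx N, (co c x0 - co c (x y)) ^ 2 +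
      ∑ c : Cx N, (co c x0 - co c (x y')) ^ 2 - ∑ c : Cx N, (co c (x y) - co c (x y')) ^ 2) =
      ∑ c : Cx N, ((co c x0 - co c (x y)) ^ 2 + (co c x0 - co c (x y')) ^ 2 -
        (co c (x y) - co c (x y')) ^ 2) := by
    intro y y'
    rw [Finset.sum_sub_distrib, Finset.sum_add_distrib]
  simp only [h1]
  have h2 : ∀ y : ℕ, ∑ y' ∈ Finset.range M, ∑ c : Cx N, ((co c x0 - co c (x y)) ^ 2 +
      (co c x0 - co c (x y')) ^ 2 - (co c (x y) - co c (x y')) ^ 2) =
      ∑ c : Cx N, ∑ y' ∈ Finset.range M, ((co c x0 - co c (x y)) ^ 2 +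
      (co c x0 - co c (x y')) ^ 2 - (co c (x y) - co c (x y')) ^ 2) := fun y => Finset.sum_comm
  simp only [h2]
  rw [Finset.sum_comm]
  exact Finset.sum_congr rfl fun c _ => avg_real M (co c x0) fun y => co c (x y)

variable {G : Type*} [Group G] [TopologicalSpace G]
  [IsTopologicalGroup G] [CompactSpace G] [SecondCountableTopology G] [MeasurableSpace G]
  [BorelSpace G] (μ : Measure G) [IsProbabilityMeasure μ] [μ.IsMulLeftInvariant]
  [μ.IsMulRightInvariant] [μ.IsInvInvariant] {N n' : ℕ} {L : LD G N n'}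
  {d m : ℕ} [NeZero m]

lemma N2_smul (β : ℝ) {c : ℝ} (hc : 0 ≤ c) (X : (Ed d (2 * m) → G) → Mat N) :
    N2 μ L β (fun U => c • X U) = c * N2 μ L β X := by
  unfold N2
  have h1 : (fun U : Ed d (2 * m) → G => ‖c • X U‖ ^ 2) = fun U => c ^ 2 * ‖X U‖ ^ 2 := by
    funext U
    rw [norm_smul, mul_pow, Real.norm_eq_abs, sq_abs]
  rw [h1, EX_smul, Real.sqrt_mul (sq_nonneg c), Real.sqrt_sq hc]

lemma N2_sum (β : ℝ) {ι : Type*} (s : Finset ι) {a : ι → ℝ} (ha : ∀ i, 0 ≤ a i)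
    {X : ι → (Ed d (2 * m) → G) → Mat N} (hX : ∀ i, Continuous (X i)) :
    N2 μ L β (fun U => ∑ i ∈ s, a i • X i U) ≤ ∑ i ∈ s, a i * N2 μ L β (X i) := by
  classical
  induction s using Finset.induction_on with
  | empty =>
    simp only [Finset.sum_empty]
    unfold N2
    have : (fun U : Ed d (2 * m) → G => ‖(0 : Mat N)‖ ^ 2) = fun _ => (0 : ℝ) := by
      funext U
      rw [norm_zero]; norm_num
    rw [this, EX_const, Real.sqrt_zero]
  | insert i s his ih =>
    simp only [Finset.sum_insert his]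
    refine (N2_add μ β ((hX i).const_smul (a i))
      (continuous_finsetSum _ fun j _ => (hX j).const_smul (a j))).trans (add_le_add ?_ ih)
    exact (N2_smul μ β (ha i) (X i)).le

/-! ### growth in time -/

section time

variable {τ : Fin d} {p0 p1 : Fin d → ZMod (2 * m)} {S : (Ed d (2 * m) → G) → Mat N}

/-- **The displacement over a long time.** -/
theorem disp_all (hm : 2 ≤ m) {β : ℝ} (hβ : 0 ≤ β) (hS : IsS L τ p0 p1 S)
    (h0 : p0 τ = 1) (h1 : p1 τ = 1) (T : ℕ) (hT1 : 1 ≤ T) (hT : T ≤ m) :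
    N2 μ L β (fun U => Hn L τ p0 p1 T S U - S U) ≤
      (6 * Real.sqrt T - 5) * N2 μ L β (fun U => Hn L τ p0 p1 1 S U - S U) := by
  obtain ⟨E, hE⟩ : ∃ E, E = N2 μ L β (fun U => Hn L τ p0 p1 1 S U - S U) := ⟨_, rfl⟩
  have hE0 : 0 ≤ E := by rw [hE]; exact N2_nonneg μ β _
  rw [← hE]
  have hs2 : Real.sqrt 2 ^ 2 = 2 := Real.sq_sqrt (by norm_num)
  have hs20 : 0 ≤ Real.sqrt 2 := Real.sqrt_nonneg 2
  have hs21 : 1.4 ≤ Real.sqrt 2 := Real.le_sqrt_of_sq_le (by norm_num)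
  induction T using Nat.strong_induction_on with
  | _ T ih =>
    rcases Nat.even_or_odd' T with ⟨t, ht | ht⟩
    · -- even
      obtain ⟨t, rfl⟩ : ∃ t', t = t' + 1 := ⟨t - 1, by omega⟩
      have e1 : T = (2 * t + 1) + 1 := by omega
      have h2 := disp_succ μ (β := β) hS (2 * t + 1)
      rw [← e1, ← hE] at h2
      rcases Nat.eq_zero_or_pos t with h3 | h3
      · subst h3
        have e2 : T = 2 := by omega
        subst e2
        simp only [mul_zero, zero_add] at h2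
        rw [← hE] at h2
        push_cast
        nlinarith
      · have h4 := disp_double μ hm hβ hS h0 h1 (t := t) (by omega)
        rw [← hE] at h4
        have h5 := ih t (by omega) h3 (by omega)
        have h6 : Real.sqrt 2 * Real.sqrt t ≤ Real.sqrt T := by
          rw [← Real.sqrt_mul (by norm_num)]
          refine Real.sqrt_le_sqrt ?_
          have : 2 * t ≤ T := by omega
          exact_mod_cast this
        have h7 := mul_le_mul_of_nonneg_left h5 hs20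
        have h8 := mul_le_mul_of_nonneg_right h6 hE0
        nlinarith
    · rcases Nat.eq_zero_or_pos t with h3 | h3
      · subst h3
        have e2 : T = 1 := by omega
        subst e2
        rw [← hE, Nat.cast_one, Real.sqrt_one]
        linarith
      · have h4 := disp_double μ hm hβ hS h0 h1 (t := t) (by omega)
        rw [← hE, ← ht] at h4
        have h5 := ih t (by omega) h3 (by omega)
        have h6 : Real.sqrt 2 * Real.sqrt t ≤ Real.sqrt T := by
          rw [← Real.sqrt_mul (by norm_num)]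
          refine Real.sqrt_le_sqrt ?_
          have : 2 * t ≤ T := by omega
          exact_mod_cast this
        have h7 := mul_le_mul_of_nonneg_left h5 hs20
        have h8 := mul_le_mul_of_nonneg_right h6 hE0
        nlinarith

end time

/-! ### the thin line -/

variable (L) in
/-- the transporter of the straight path -/
def th (p0 : Fin d → ZMod (2 * m)) (i : Fin d) (K : ℕ) (U : Ed d (2 * m) → G) : Mat N :=
  L.rho (ln U i K p0)

lemma th_PS (p0 : Fin d → ZMod (2 * m)) (i : Fin d) (K : ℕ) :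
    th (G := G) L p0 i K = PS L (fun _ : Unit => (1 : ℝ)) (fun _ => sg i K p0) := by
  funext U
  unfold th PS
  simp [pg_sg]

lemma th_cont (p0 : Fin d → ZMod (2 * m)) (i : Fin d) (K : ℕ) :
    Continuous (th (G := G) L p0 i K) := L.cont.comp (ln_cont _ _ _)

lemma lay_sg {τ i : Fin d} (hi : τ ≠ i) {p0 : Fin d → ZMod (2 * m)} (h0 : p0 τ = 1) (K : ℕ) :
    lay τ (sg i K p0) := by
  intro s hs
  obtain ⟨t, ht, rfl⟩ := mem_sg.1 hs
  refine ⟨fun h => hi h.symm, ?_⟩
  simp only [Pi.add_apply, Pi.smul_apply]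
  have h1 : (eT i : Fin d → ZMod (2 * m)) τ = 0 := by unfold eT; simp [hi]
  rw [h1, smul_zero, add_zero, h0]

lemma ND_sg (i : Fin d) (p0 : Fin d → ZMod (2 * m)) {K : ℕ} (hK : K < 2 * m) : ND (sg i K p0) := by
  induction K generalizing p0 with
  | zero => exact List.nodup_nil
  | succ K ih =>
    unfold sg ND
    rw [List.map_cons, List.nodup_cons]
    refine ⟨fun h => ?_, ih _ (by omega)⟩
    rw [List.mem_map] at h
    obtain ⟨s, hs, h2⟩ := h
    obtain ⟨t, ht, rfl⟩ := mem_sg.1 hs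
    have h3 := congrFun (congrArg Prod.fst h2) i
    simp only [Pi.add_apply, Pi.smul_apply] at h3
    have h1 : (eT i : Fin d → ZMod (2 * m)) i = 1 := by unfold eT; simp
    rw [h1, add_assoc, add_eq_left] at h3
    have h4 : (1 : ZMod (2 * m)) + t • (1 : ZMod (2 * m)) = ((1 + t : ℕ) : ZMod (2 * m)) := by
      push_cast
      rw [nsmul_eq_mul, mul_one]
    rw [h4, ZMod.natCast_eq_zero_iff] at h3
    have := Nat.le_of_dvd (by omega) h3
    omega

lemma isS_th {τ i : Fin d} (hi : τ ≠ i) {p0 : Fin d → ZMod (2 * m)} (h0 : p0 τ = 1) (K : ℕ) :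
    IsS L τ p0 (p0 + K • eT i) (th (G := G) L p0 i K) := by
  rw [th_PS]
  exact PS_isS (fun _ => isP_sg i K p0) fun _ => lay_sg hi h0 K

/-- the displacement of the thin line -/
lemma N2_th (hN : 1 ≤ N) {τ i : Fin d} (p0 : Fin d → ZMod (2 * m)) (β : ℝ) (K T : ℕ) :
    N2 μ L β (fun U => Hn L τ p0 (p0 + K • eT i) T (th L p0 i K) U - th L p0 i K U) =
      uu μ L m β i τ K T := by
  rw [← dd_rect μ (L := L) (β := β) hN p0 i τ K T, dd_comm]
  unfold dd
  refine N2_congr μ β fun U => ?_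
  unfold Hn th
  rw [ln_tr]
  have h1 : L.rho (ln U τ T p0) * L.rho (ln U i K (p0 + T • eT τ)) *
      (L.rho (ln U τ T (p0 + K • eT i)))ᴴ - L.rho (ln U i K p0) =
      (L.rho (ln U τ T p0 * ln U i K (p0 + T • eT τ)) -
        L.rho (ln U i K p0 * ln U τ T (p0 + K • eT i))) *
        L.rho (ln U τ T (p0 + K • eT i))⁻¹ := by
    have e1 : L.rho (ln U i K p0 * ln U τ T (p0 + K • eT i)) *
        L.rho (ln U τ T (p0 + K • eT i))⁻¹ = L.rho (ln U i K p0) := by
      rw [← map_mul, mul_inv_cancel_right]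
    rw [sub_mul, e1, map_mul, L.rho_inv]
  rw [h1, norm_rmul]

/-- the constant of the energy -/
def cN (N : ℕ) : ℝ := 2 * N ^ 3 * Real.exp (2 * N ^ 2)

lemma cN_nonneg (N : ℕ) : 0 ≤ cN N := by unfold cN; positivity

lemma flow_th (i : Fin d) (p0 : Fin d → ZMod (2 * m)) {K : ℕ} (hK : K < 2 * m) :
    flow (fun _ : Unit => (1 : ℝ)) (fun _ => sg i K p0) = K := by
  rw [flow_eq fun _ => ND_sg i p0 hK]
  simp only [Finset.univ_unique, Finset.sum_singleton, one_mul]
  have h1 : ((sg i K p0).map fun s => if s.1 ∈ (sg i K p0).map Prod.fst then (1 : ℝ) else 0) =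
      (sg i K p0).map fun _ => (1 : ℝ) :=
    List.map_congr_left fun s hs => if_pos (List.mem_map_of_mem hs)
  rw [h1, List.map_const', List.sum_replicate, length_sg]
  simp

/-- one step of the thin line -/
lemma th_step (hN : 1 ≤ N) (hm : 2 ≤ m) {β : ℝ} (hβ : 0 < β) {i τ : Fin d} (hi : i ≠ τ) {K : ℕ}
    (hK : K < 2 * m) (hKβ : (K : ℝ) ≤ β) :
    uu μ L m β i τ K 1 ≤ Real.sqrt (cN N / β * K) := by
  refine Real.le_sqrt_of_sq_le ?_
  obtain ⟨p0, hp0⟩ : ∃ p0 : Fin d → ZMod (2 * m), p0 = fun _ => 1 := ⟨_, rfl⟩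
  have h0 : p0 τ = 1 := by rw [hp0]
  have h1 : (p0 + K • eT i : Fin d → ZMod (2 * m)) τ = 1 := by
    have h1 : (eT i : Fin d → ZMod (2 * m)) τ = 0 := by unfold eT; simp [hi.symm]
    simp [h1, h0]
  rw [← N2_th μ hN p0 β K 1, th_PS]
  have h2 := one_step μ (L := L) hm hβ (a := fun _ : Unit => (1 : ℝ)) (w := fun _ => sg i K p0)
    (τ := τ) (fun _ => zero_le_one) (fun _ => isP_sg i K p0) (fun _ => lay_sg hi.symm h0 K)
    (fun _ => ND_sg i p0 hK) h0 h1 (fun _ => by rw [length_sg]; exact hKβ)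
  rw [flow_th i p0 hK] at h2
  exact h2

/-- the thin line over a long time -/
theorem th_long (hN : 1 ≤ N) (hm : 2 ≤ m) {β : ℝ} (hβ : 0 < β) {i τ : Fin d} (hi : i ≠ τ) {K : ℕ}
    (hK : K < 2 * m) (hKβ : (K : ℝ) ≤ β) (T : ℕ) (hT1 : 1 ≤ T) (hT : T ≤ m) :
    uu μ L m β i τ K T ≤ 6 * Real.sqrt T * Real.sqrt (cN N / β * K) := by
  obtain ⟨p0, hp0⟩ : ∃ p0 : Fin d → ZMod (2 * m), p0 = fun _ => 1 := ⟨_, rfl⟩
  have h0 : p0 τ = 1 := by rw [hp0]
  have h1 : (p0 + K • eT i : Fin d → ZMod (2 * m)) τ = 1 := by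
    have h1 : (eT i : Fin d → ZMod (2 * m)) τ = 0 := by unfold eT; simp [hi.symm]
    simp [h1, h0]
  have h2 := disp_all μ (L := L) hm hβ.le (isS_th hi.symm h0 K) h0 h1 T hT1 hT
  rw [N2_th μ hN, N2_th μ hN] at h2
  have h3 := th_step μ (L := L) hN hm hβ hi hK hKβ
  have h4 := uu_nonneg μ (L := L) (m := m) (β := β) i τ K 1
  have h5 := Real.sqrt_nonneg (T : ℝ)
  calc _ ≤ _ := h2
    _ ≤ 6 * Real.sqrt T * uu μ L m β i τ K 1 := mul_le_mul_of_nonneg_right (by linarith) h4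
    _ ≤ _ := mul_le_mul_of_nonneg_left h3 (by positivity)

/-! ### the distance of the spreading family from the thin line -/

lemma Gy_zero (z : Fin d → ZMod (2 * m)) (i j : Fin d) {K x : ℕ} (hx : 2 * x ≤ K)
    (U : Ed d (2 * m) → G) : Gy z i j K x 0 U = ln U i K (PT z i j 0 0) := by
  unfold Gy
  rw [ln_zero, ln_zero, mul_one, mul_one, inv_inv]
  have e1 : K = x + ((K - 2 * x) + x) := by omega
  conv_rhs => rw [e1, ln_add, ln_add, ← PT_add, ← PT_add, zero_add]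
  have e2 : x + (K - 2 * x) = K - x := by omega
  rw [e2, mul_assoc]

lemma Gy_cont (z : Fin d → ZMod (2 * m)) (i j : Fin d) (K x y : ℕ) :
    Continuous (Gy (G := G) z i j K x y) :=
  (((ln_cont _ _ _).mul (ln_cont _ _ _)).mul (ln_cont _ _ _)).mul
    ((ln_cont _ _ _).inv.mul (ln_cont _ _ _)).inv

lemma dd_Gy (hN : 1 ≤ N) {β : ℝ} (z : Fin d → ZMod (2 * m)) (i j : Fin d) {K x : ℕ}
    (hx : 2 * x ≤ K) (y k : ℕ) :
    dd μ L β (Gy z i j K x y) (Gy z i j K x (y + k)) = uu μ L m β i j (K - 2 * x) k := by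
  rw [← dd_rect μ (L := L) (β := β) hN (PT z i j x y) i j (K - 2 * x) k]
  rw [← dd_mul μ (fun U => ln U i (K - 2 * x) (PT z i j x y) *
      ln U j k (PT z i j x y + (K - 2 * x) • eT i)) (fun U => ln U j k (PT z i j x y) *
      ln U i (K - 2 * x) (PT z i j x y + k • eT j))
    (fun U => ln U i x (PT z i j 0 0) * ln U j y (PT z i j x 0))
    (fun U => (ln U j k (PT z i j (K - x) y))⁻¹ * (ln U j y (PT z i j (K - x) 0))⁻¹ *
      ln U i x (PT z i j (K - x) 0))]
  have e1 : PT z i j x y + (K - 2 * x) • eT i = PT z i j (K - x) y := by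
    rw [← PT_add]
    congr 1; omega
  have e2 : PT z i j x y + k • eT j = PT z i j x (y + k) := (PT_add' z i j x y k).symm
  have e3 : ∀ U : Ed d (2 * m) → G, ∀ x', ln U j (y + k) (PT z i j x' 0) =
      ln U j y (PT z i j x' 0) * ln U j k (PT z i j x' y) := by
    intro U x'
    rw [ln_add, ← PT_add', zero_add]
  refine dd_congr μ (fun U => ?_) fun U => ?_
  · unfold Gy
    rw [e1]
    group
  · unfold Gy
    rw [e2, e3, e3]
    group

lemma dd_Gy' (hN : 1 ≤ N) {β : ℝ} (z : Fin d → ZMod (2 * m)) (i j : Fin d) {K x : ℕ}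
    (hx : 2 * x ≤ K) (y y' : ℕ) :
    dd μ L β (Gy z i j K x y) (Gy z i j K x y') =
      uu μ L m β i j (K - 2 * x) (y - y' + (y' - y)) := by
  rcases Nat.le_total y y' with h | h
  · obtain ⟨k, rfl⟩ := Nat.exists_eq_add_of_le h
    rw [dd_Gy μ hN z i j hx]
    congr 1; omega
  · obtain ⟨k, rfl⟩ := Nat.exists_eq_add_of_le h
    rw [dd_comm, dd_Gy μ hN z i j hx]
    congr 1; omega

/-- the parallel lines -/
lemma par_close (hN : 1 ≤ N) {β : ℝ} (z : Fin d → ZMod (2 * m)) (i j : Fin d) {K x M : ℕ}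
    (hx : 2 * x ≤ K) (hM : 1 ≤ M) {B : ℝ} (hB0 : 0 ≤ B)
    (hB : ∀ y < M, uu μ L m β i j (K - 2 * x) y ≤ B) :
    N2 μ L β (fun U => L.rho (Gy z i j K x 0 U) -
      ∑ y ∈ Finset.range M, (1 / M : ℝ) • L.rho (Gy z i j K x y U)) ≤ B / Real.sqrt 2 := by
  have hM0 : (0 : ℝ) < M := by exact_mod_cast hM
  have h1 : ∀ U : Ed d (2 * m) → G, L.rho (Gy z i j K x 0 U) -
      ∑ y ∈ Finset.range M, (1 / M : ℝ) • L.rho (Gy z i j K x y U) =
      (1 / M : ℝ) • ∑ y ∈ Finset.range M, (L.rho (Gy z i j K x 0 U) -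
        L.rho (Gy z i j K x y U)) := by
    intro U
    rw [Finset.sum_sub_distrib, Finset.sum_const, Finset.card_range, smul_sub,
      ← Nat.cast_smul_eq_nsmul ℝ, smul_smul, one_div, inv_mul_cancel₀ hM0.ne', one_smul,
      ← Finset.smul_sum]
  simp only [h1]
  rw [N2_smul μ β (by positivity)]
  rw [one_div, inv_mul_le_iff₀ hM0]
  refine Real.sqrt_le_iff.2 ⟨by positivity, ?_⟩
  have hc := fun y => L.cont.comp (Gy_cont (G := G) z i j K x y)
  have h2 : 2 * EX μ L β (fun U : Ed d (2 * m) → G =>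
      ‖∑ y ∈ Finset.range M, (L.rho (Gy z i j K x 0 U) - L.rho (Gy z i j K x y U))‖ ^ 2) =
      ∑ y ∈ Finset.range M, ∑ y' ∈ Finset.range M,
        (uu μ L m β i j (K - 2 * x) y ^ 2 + uu μ L m β i j (K - 2 * x) y' ^ 2 -
          uu μ L m β i j (K - 2 * x) (y - y' + (y' - y)) ^ 2) := by
    rw [← EX_smul μ]
    simp only [avg_sq]
    have c1 : ∀ y y', Continuous fun U : Ed d (2 * m) → G =>
        ‖L.rho (Gy z i j K x y U) - L.rho (Gy z i j K x y' U)‖ ^ 2 :=
      fun y y' => ((hc y).sub (hc y')).norm.pow 2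
    have c2 : ∀ y y', Continuous fun U : Ed d (2 * m) → G =>
        ‖L.rho (Gy z i j K x 0 U) - L.rho (Gy z i j K x y U)‖ ^ 2 +
        ‖L.rho (Gy z i j K x 0 U) - L.rho (Gy z i j K x y' U)‖ ^ 2 -
        ‖L.rho (Gy z i j K x y U) - L.rho (Gy z i j K x y' U)‖ ^ 2 :=
      fun y y' => ((c1 0 y).add (c1 0 y')).sub (c1 y y')
    rw [EX_sum μ (Finset.range M) (F := fun y U => ∑ y' ∈ Finset.range M,
      (‖L.rho (Gy z i j K x 0 U) - L.rho (Gy z i j K x y U)‖ ^ 2 +
        ‖L.rho (Gy z i j K x 0 U) - L.rho (Gy z i j K x y' U)‖ ^ 2 -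
        ‖L.rho (Gy z i j K x y U) - L.rho (Gy z i j K x y' U)‖ ^ 2))
      fun y _ => continuous_finsetSum _ fun y' _ => c2 y y']
    refine Finset.sum_congr rfl fun y _ => ?_
    rw [EX_sum μ (Finset.range M) (F := fun y' U =>
      ‖L.rho (Gy z i j K x 0 U) - L.rho (Gy z i j K x y U)‖ ^ 2 +
        ‖L.rho (Gy z i j K x 0 U) - L.rho (Gy z i j K x y' U)‖ ^ 2 -
        ‖L.rho (Gy z i j K x y U) - L.rho (Gy z i j K x y' U)‖ ^ 2) fun y' _ => c2 y y']
    refine Finset.sum_congr rfl fun y' _ => ?_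
    rw [EX_sub μ (F := fun U : Ed d (2 * m) → G =>
        ‖L.rho (Gy z i j K x 0 U) - L.rho (Gy z i j K x y U)‖ ^ 2 +
        ‖L.rho (Gy z i j K x 0 U) - L.rho (Gy z i j K x y' U)‖ ^ 2)
        (H := fun U : Ed d (2 * m) → G =>
        ‖L.rho (Gy z i j K x y U) - L.rho (Gy z i j K x y' U)‖ ^ 2)
        ((c1 0 y).add (c1 0 y')) (c1 y y'),
      EX_add μ (F := fun U : Ed d (2 * m) → G =>
        ‖L.rho (Gy z i j K x 0 U) - L.rho (Gy z i j K x y U)‖ ^ 2)
        (H := fun U : Ed d (2 * m) → G =>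
        ‖L.rho (Gy z i j K x 0 U) - L.rho (Gy z i j K x y' U)‖ ^ 2) (c1 0 y) (c1 0 y')]
    have h3 : ∀ y y', EX μ L β (fun U : Ed d (2 * m) → G =>
        ‖L.rho (Gy z i j K x y U) - L.rho (Gy z i j K x y' U)‖ ^ 2) =
        uu μ L m β i j (K - 2 * x) (y - y' + (y' - y)) ^ 2 := by
      intro y y'
      rw [← dd_Gy' μ hN z i j hx]
      exact (N2_sq μ β _).symm
    rw [h3, h3, h3]
    have e1 : ∀ y, 0 - y + (y - 0) = y := fun y => by omega
    rw [e1, e1]
  have h3 := comb (f := fun y => uu μ L m β i j (K - 2 * x) y ^ 2) (B := B ^ 2)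
    (by rw [uu_zero' μ hN]; norm_num) (sq_nonneg B) M
    fun y hy => pow_le_pow_left₀ (uu_nonneg μ _ _ _ _) (hB y hy) 2
  rw [← h2] at h3
  rw [mul_pow, div_pow, Real.sq_sqrt (by norm_num)]
  linarith

/-- **The distance of the spreading family from the thin line.** -/
theorem fan_close (hN : 1 ≤ N) {β : ℝ} (z : Fin d → ZMod (2 * m)) (i j : Fin d) {n K : ℕ}
    (hK : 2 ^ (n + 2) ≤ K) {B Φ : ℝ} (hB0 : 0 ≤ B)
    (hB : ∀ y < 2 ^ n, uu μ L m β i j (K - 2 ^ (n + 2)) y ≤ B)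
    (hΦ : ∀ X, 2 ^ n ≤ X → X < 2 ^ (n + 1) → 2 * (∑ s ∈ Finset.range (n + 1),
        uu μ L m β i j (X / 2 ^ s - X / 2 ^ (s + 1)) (X / 2 ^ (s + 1)) +
        uu μ L m β i j (2 ^ (n + 1) - X) (X - 2 ^ n)) ≤ Φ) :
    N2 μ L β (fun U => th L (PT z i j 0 0) i K U -
      PS L (fun _ : Fin (2 ^ n) => (1 / 2 ^ n : ℝ))
        (fun q => ew z i j (om n K (2 ^ n + q.val))) U) ≤ B / Real.sqrt 2 + Φ := by
  obtain ⟨x, hx⟩ : ∃ x, x = 2 ^ (n + 1) := ⟨_, rfl⟩
  have hx2 : 2 ^ (n + 2) = 2 * x := by rw [hx, pow_succ, mul_comm]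
  rw [hx2] at hK hB
  have h1 := par_close μ (L := L) (β := β) hN z i j hK (Nat.one_le_two_pow (n := n)) hB0 hB
  have hcG : ∀ y, Continuous fun U : Ed d (2 * m) → G => L.rho (Gy z i j K x y U) :=
    fun y => L.cont.comp (Gy_cont (G := G) z i j K x y)
  have hc1 : Continuous fun U : Ed d (2 * m) → G =>
      ∑ y ∈ Finset.range (2 ^ n), (1 / ((2 ^ n : ℕ) : ℝ)) • L.rho (Gy z i j K x y U) :=
    continuous_finsetSum _ fun y _ => (hcG y).const_smul (1 / ((2 ^ n : ℕ) : ℝ))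
  have h2 := N2_tri μ β (L := L) (X := th L (PT z i j 0 0) i K)
    (Y := fun U => ∑ y ∈ Finset.range (2 ^ n), (1 / ((2 ^ n : ℕ) : ℝ)) • L.rho (Gy z i j K x y U))
    (Z := PS L (fun _ : Fin (2 ^ n) => (1 / 2 ^ n : ℝ))
        (fun q => ew z i j (om n K (2 ^ n + q.val)))) (th_cont _ _ _) hc1 (PS_cont _ _)
  refine h2.trans (add_le_add ?_ ?_)
  · refine le_trans (le_of_eq (N2_congr μ β fun U => ?_)) h1
    unfold th
    rw [Gy_zero z i j hK]
  · have h3 : ∀ U : Ed d (2 * m) → G, ∑ y ∈ Finset.range (2 ^ n), (1 / ((2 ^ n : ℕ) : ℝ)) •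
        L.rho (Gy z i j K x y U) - PS L (fun _ : Fin (2 ^ n) => (1 / 2 ^ n : ℝ))
        (fun q => ew z i j (om n K (2 ^ n + q.val))) U =
        ∑ q : Fin (2 ^ n), (1 / 2 ^ n : ℝ) • (L.rho (Gy z i j K x q.val U) -
          L.rho (pg U (ew z i j (om n K (2 ^ n + q.val))))) := by
      intro U
      unfold PS
      rw [Finset.sum_range, ← Finset.sum_sub_distrib]
      refine Finset.sum_congr rfl fun q _ => ?_
      push_cast
      rw [smul_sub]
    simp only [h3]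
    have h6 := N2_sum μ (L := L) β (Finset.univ : Finset (Fin (2 ^ n)))
      (a := fun _ : Fin (2 ^ n) => (1 / 2 ^ n : ℝ))
      (X := fun q U => L.rho (Gy z i j K x q.val U) -
        L.rho (pg U (ew z i j (om n K (2 ^ n + q.val))))) (fun q => by positivity)
      (fun q => (hcG q.val).sub (L.cont.comp (pg_cont _)))
    refine h6.trans ?_
    calc ∑ q : Fin (2 ^ n), (1 / 2 ^ n : ℝ) * N2 μ L β (fun U => L.rho (Gy z i j K x q.val U) -
          L.rho (pg U (ew z i j (om n K (2 ^ n + q.val))))) ≤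
        ∑ q : Fin (2 ^ n), (1 / 2 ^ n : ℝ) * Φ := by
          refine Finset.sum_le_sum fun q _ => mul_le_mul_of_nonneg_left ?_ (by positivity)
          have hq := q.isLt
          have e2 : 2 ^ (n + 1) = 2 ^ n * 2 := by rw [pow_succ]
          have h4 := om_close μ (L := L) (β := β) hN z i j (n := n) (K := K) (X := 2 ^ n + q.val)
            (by omega) (by omega) (by rw [hx2]; exact hK)
          have h5 := hΦ (2 ^ n + q.val) (by omega) (by omega)
          rw [← hx] at h4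
          have e3 : 2 ^ n + q.val - 2 ^ n = q.val := by omega
          rw [e3] at h4
          rw [hx] at h4
          rw [e3] at h5
          refine le_trans (le_of_eq ?_) (h4.trans h5)
          rw [dd_comm, hx]
          rfl
      _ = Φ := by
        rw [Finset.sum_const, Finset.card_univ, Fintype.card_fin, nsmul_eq_mul]
        push_cast
        field_simp

/-- the data of the spreading family -/
lemma fan_isS {i j τ : Fin d} (hi : τ ≠ i) (hj : τ ≠ j) {z : Fin d → ZMod (2 * m)}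
    (hz : z τ = 1) {n K : ℕ} (hK : 2 ^ (n + 2) ≤ K) :
    (∀ q : Fin (2 ^ n), isP (PT z i j 0 0) (ew z i j (om n K (2 ^ n + q.val))) (PT z i j K 0)) ∧
    ∀ q : Fin (2 ^ n), lay τ (ew z i j (om n K (2 ^ n + q.val))) := by
  have e2 : 2 ^ (n + 1) = 2 ^ n * 2 := by rw [pow_succ]
  have e3 : 2 ^ (n + 2) = 2 ^ n * 4 := by rw [pow_add]; norm_num
  constructor
  · intro q
    have hq := q.isLt
    exact isP_om (by omega) (by omega)
  · intro q s hs
    unfold ew at hs
    rw [List.mem_map] at hs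
    obtain ⟨s', hs', rfl⟩ := hs
    unfold em
    refine ⟨?_, ?_⟩
    · simp only
      split_ifs
      · exact hj.symm
      · exact hi.symm
    · simp only
      rw [PT_apply_ne hi hj, hz]

/-- **The energy of the spreading family.** -/
theorem fan_step (hm : 2 ≤ m) {β : ℝ} (hβ : 0 < β) {i j τ : Fin d} (hij : i ≠ j) (hi : τ ≠ i)
    (hj : τ ≠ j) {z : Fin d → ZMod (2 * m)} (hz : z τ = 1) {n K : ℕ} (hK : 2 ^ (n + 2) ≤ K)
    (hKm : K < 2 * m) (hKβ : 3 * (K : ℝ) ≤ β) :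
    N2 μ L β (fun U => Hn L τ (PT z i j 0 0) (PT z i j K 0) 1
      (PS L (fun _ : Fin (2 ^ n) => (1 / 2 ^ n : ℝ))
        (fun q => ew z i j (om n K (2 ^ n + q.val)))) U -
      PS L (fun _ : Fin (2 ^ n) => (1 / 2 ^ n : ℝ))
        (fun q => ew z i j (om n K (2 ^ n + q.val))) U) ≤
      Real.sqrt (cN N / β * (14 * (n + 1) + K / 2 ^ n)) := by
  refine Real.le_sqrt_of_sq_le ?_
  have e2 : 2 ^ (n + 1) = 2 ^ n * 2 := by rw [pow_succ]
  have e3 : 2 ^ (n + 2) = 2 ^ n * 4 := by rw [pow_add]; norm_num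
  have hpos : 1 ≤ 2 ^ n := Nat.one_le_two_pow
  obtain ⟨h1, h2⟩ := fan_isS hi hj hz hK
  have h3 := one_step μ (L := L) hm hβ (a := fun _ : Fin (2 ^ n) => (1 / 2 ^ n : ℝ))
    (w := fun q => ew z i j (om n K (2 ^ n + q.val))) (τ := τ)
    (p0 := PT z i j 0 0) (p1 := PT z i j K 0) (fun _ => by positivity) h1 h2
    (fun q => by
      have hq := q.isLt
      refine ND_ew hij (nodup_om (by omega) (by omega)) fun e he => ?_
      have := om_range (L := K) (by omega) he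
      omega)
    (by rw [PT_apply_ne hi hj, hz]) (by rw [PT_apply_ne hi hj, hz])
    (fun q => by
      have hq := q.isLt
      have h4 : (ew z i j (om n K (2 ^ n + q.val))).length ≤ 3 * K := by
        unfold ew
        rw [List.length_map]
        exact length_om (by omega)
      have h5 : ((ew z i j (om n K (2 ^ n + q.val))).length : ℝ) ≤ 3 * K := by exact_mod_cast h4
      linarith)
  refine h3.trans ?_
  have h4 := flow_om (z := z) hij hK hKm
  exact mul_le_mul_of_nonneg_left h4 (div_nonneg (cN_nonneg N) hβ.le)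

/-- **The recursive inequality.** -/
theorem fan_rec (hN : 1 ≤ N) (hm : 2 ≤ m) {β : ℝ} (hβ : 0 < β) {i j τ : Fin d} (hij : i ≠ j)
    (hi : τ ≠ i) (hj : τ ≠ j) {n K : ℕ} (hK : 2 ^ (n + 2) ≤ K)
    (hKm : K < 2 * m) (hKβ : 3 * (K : ℝ) ≤ β) {B Φ : ℝ} (hB0 : 0 ≤ B)
    (hB : ∀ y < 2 ^ n, uu μ L m β i j (K - 2 ^ (n + 2)) y ≤ B)
    (hΦ : ∀ X, 2 ^ n ≤ X → X < 2 ^ (n + 1) → 2 * (∑ s ∈ Finset.range (n + 1),
        uu μ L m β i j (X / 2 ^ s - X / 2 ^ (s + 1)) (X / 2 ^ (s + 1)) +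
        uu μ L m β i j (2 ^ (n + 1) - X) (X - 2 ^ n)) ≤ Φ)
    (T : ℕ) (hT1 : 1 ≤ T) (hT : T ≤ m) :
    uu μ L m β i τ K T ≤ B + Real.sqrt 2 * Φ +
      6 * Real.sqrt T * Real.sqrt (cN N / β * (14 * (n + 1) + K / 2 ^ n)) +
      Real.sqrt (cN N / β * K) := by
  obtain ⟨z, hz'⟩ : ∃ z : Fin d → ZMod (2 * m), z = fun _ => 1 := ⟨_, rfl⟩
  have hz : z τ = 1 := by rw [hz']
  obtain ⟨F, hF⟩ : ∃ F : (Ed d (2 * m) → G) → Mat N,
    F = PS L (fun _ : Fin (2 ^ n) => (1 / 2 ^ n : ℝ))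
        (fun q => ew z i j (om n K (2 ^ n + q.val))) := ⟨_, rfl⟩
  have h0 : PT z i j 0 0 τ = 1 := by rw [PT_apply_ne hi hj, hz]
  have h1 : PT z i j K 0 τ = 1 := by rw [PT_apply_ne hi hj, hz]
  obtain ⟨g1, g2⟩ := fan_isS (m := m) hi hj hz hK
  have hFS : IsS L τ (PT z i j 0 0) (PT z i j K 0) F := by rw [hF]; exact PS_isS g1 g2
  have hK0 : PT z i j K 0 = PT z i j 0 0 + K • eT i := by
    rw [← PT_add, zero_add]
  have hψS : IsS L τ (PT z i j 0 0) (PT z i j K 0) (th L (PT z i j 0 0) i K) := by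
    rw [hK0]; exact isS_th hi h0 K
  have hst := fan_step μ (L := L) (n := n) hm hβ hij hi hj hz hK hKm hKβ
  rw [← hF] at hst
  have hcl := fan_close μ (L := L) (β := β) hN z i j hK hB0 hB hΦ
  rw [← hF] at hcl
  obtain ⟨E, hE⟩ : ∃ E : ℝ, E = Real.sqrt (cN N / β * (14 * (n + 1) + K / 2 ^ n)) := ⟨_, rfl⟩
  rw [← hE] at hst ⊢
  have hE0 : 0 ≤ E := by rw [hE]; exact Real.sqrt_nonneg _
  have hK1 : (K : ℝ) ≤ β := by
    have : (0 : ℝ) ≤ K := Nat.cast_nonneg _
    linarith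
  have hodd : ∀ t : ℕ, 2 * t + 1 ≤ m → uu μ L m β i τ K (2 * t + 1) ≤
      B + Real.sqrt 2 * Φ + 6 * Real.sqrt ((2 * t + 1 : ℕ) : ℝ) * E := by
    intro t ht
    have h2 := disp_comp μ hm hβ.le hψS hFS h0 h1 (t := t) (by omega)
    have h3 := disp_all μ hm hβ.le hFS h0 h1 (2 * t + 1) (by omega) ht
    rw [hK0, N2_th μ hN, ← hK0] at h2
    have h4 : (6 * Real.sqrt ((2 * t + 1 : ℕ) : ℝ) - 5) *
        N2 μ L β (fun U => Hn L τ (PT z i j 0 0) (PT z i j K 0) 1 F U - F U) ≤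
        6 * Real.sqrt ((2 * t + 1 : ℕ) : ℝ) * E := by
      have h5 := Real.sqrt_nonneg ((2 * t + 1 : ℕ) : ℝ)
      refine (mul_le_mul_of_nonneg_right (by linarith) (N2_nonneg μ β _)).trans
        (mul_le_mul_of_nonneg_left hst (by positivity))
    have h5 : Real.sqrt 2 * (B / Real.sqrt 2 + Φ) = B + Real.sqrt 2 * Φ := by
      have : Real.sqrt 2 ≠ 0 := by positivity
      field_simp
    have h6 := mul_le_mul_of_nonneg_left hcl (Real.sqrt_nonneg 2)
    rw [h5] at h6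
    linarith
  rcases Nat.even_or_odd' T with ⟨t, ht | ht⟩
  · obtain ⟨t, rfl⟩ : ∃ t', t = t' + 1 := ⟨t - 1, by omega⟩
    have e1 : T = (2 * t + 1) + 1 := by omega
    have h2 := disp_succ μ (β := β) hψS (2 * t + 1)
    rw [hK0, N2_th μ hN, N2_th μ hN, N2_th μ hN] at h2
    rw [e1]
    have h3 := hodd t (by omega)
    have h4 := th_step μ (L := L) hN hm hβ hi.symm hKm hK1
    have h5 : Real.sqrt ((2 * t + 1 : ℕ) : ℝ) ≤ Real.sqrt ((2 * t + 1 + 1 : ℕ) : ℝ) :=
      Real.sqrt_le_sqrt (by exact_mod_cast Nat.le_succ _)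
    have h6 := mul_le_mul_of_nonneg_right h5 hE0
    linarith
  · rw [ht]
    have h3 := hodd t (by omega)
    have h4 := Real.sqrt_nonneg (cN N / β * K)
    linarith

end

end Pool.Agent.Y15
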