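import Mathlib
import Pool.Agent.Y15.Fan

/-!
# The induction over the scales
-/

open MeasureTheory Matrix
open scoped Matrix.Norms.Frobenius
open Pool.Agent.H906R3.YM hiding Pl
open Pool.Agent.W793.YM Pool.Agent.TH618.YM

namespace Pool.Agent.Y15

set_option linter.unusedSectionVars false
set_option linter.unusedVariables false

noncomputable section

lemma third {d : ℕ} (hd : 3 ≤ d) (i τ : Fin d) : ∃ j : Fin d, i ≠ j ∧ τ ≠ j := by
  by_contra h
  push Not at h
  have h1 : (Finset.univ : Finset (Fin d)) ⊆ {i, τ} := by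
    intro j _
    rw [Finset.mem_insert, Finset.mem_singleton]
    by_cases hj : i = j
    · exact Or.inl hj.symm
    · exact Or.inr (h j hj).symm
  have h2 := Finset.card_le_card h1
  rw [Finset.card_univ, Fintype.card_fin] at h2
  have h3 : ({i, τ} : Finset (Fin d)).card ≤ 2 := Finset.card_le_two
  omega

/-- a geometric sum -/
lemma geo (n : ℕ) : ∑ s ∈ Finset.range (n + 1), Real.sqrt (2 ^ (n - s)) ≤
    3.5 * Real.sqrt (2 ^ n) := by
  have hs21 : 1.4 ≤ Real.sqrt 2 := Real.le_sqrt_of_sq_le (by norm_num)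
  induction n with
  | zero =>
    simp
    norm_num
  | succ n ih =>
    rw [Finset.sum_range_succ']
    have h1 : ∀ s ∈ Finset.range (n + 1), Real.sqrt (2 ^ (n + 1 - (s + 1))) =
        Real.sqrt (2 ^ (n - s)) := fun s _ => by
      congr 2; omega
    rw [Finset.sum_congr rfl h1, Nat.sub_zero]
    have h2 : Real.sqrt (2 ^ (n + 1)) = Real.sqrt 2 * Real.sqrt (2 ^ n) := by
      rw [pow_succ, mul_comm, Real.sqrt_mul (by norm_num)]
    rw [h2]
    have h3 := Real.sqrt_nonneg ((2 : ℝ) ^ n)
    nlinarith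

variable {G : Type*} [Group G] [TopologicalSpace G]
  [IsTopologicalGroup G] [CompactSpace G] [SecondCountableTopology G] [MeasurableSpace G]
  [BorelSpace G] (μ : Measure G) [IsProbabilityMeasure μ] [μ.IsMulLeftInvariant]
  [μ.IsMulRightInvariant] [μ.IsInvInvariant] {N n' : ℕ} {L : LD G N n'}
  {d m : ℕ} [NeZero m]

/-- the sum over the stages from the bounds at the smaller scales -/
lemma stages {β κ : ℝ} (hκ : 0 ≤ κ) {i j : Fin d} {n : ℕ}
    (h : ∀ s ≤ n, ∀ a b : ℕ, a ≤ 2 ^ s → b ≤ 2 ^ s → uu μ L m β i j a b ≤ κ * Real.sqrt (2 ^ s))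
    (X : ℕ) (hX0 : 2 ^ n ≤ X) (hXn : X < 2 ^ (n + 1)) :
    2 * (∑ s ∈ Finset.range (n + 1),
        uu μ L m β i j (X / 2 ^ s - X / 2 ^ (s + 1)) (X / 2 ^ (s + 1)) +
        uu μ L m β i j (2 ^ (n + 1) - X) (X - 2 ^ n)) ≤ 9 * κ * Real.sqrt (2 ^ n) := by
  have h1 : ∀ s ∈ Finset.range (n + 1),
      uu μ L m β i j (X / 2 ^ s - X / 2 ^ (s + 1)) (X / 2 ^ (s + 1)) ≤
        κ * Real.sqrt (2 ^ (n - s)) := by
    intro s hs
    rw [Finset.mem_range] at hs
    have h2 : X / 2 ^ (s + 1) < 2 ^ (n - s) := by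
      rw [Nat.div_lt_iff_lt_mul (by positivity), ← pow_add]
      have e : n - s + (s + 1) = n + 1 := by omega
      rwa [e]
    have h3 : X / 2 ^ s ≤ 2 * (X / 2 ^ (s + 1)) + 1 := by
      rw [pow_succ, ← Nat.div_div_eq_div_mul]
      omega
    refine h (n - s) (by omega) _ _ ?_ h2.le
    omega
  have h4 := Finset.sum_le_sum h1
  rw [← Finset.mul_sum] at h4
  have h5 := mul_le_mul_of_nonneg_left (geo n) hκ
  have e2 : 2 ^ (n + 1) = 2 ^ n * 2 := by rw [pow_succ]
  have h6 := h n le_rfl (2 ^ (n + 1) - X) (X - 2 ^ n) (by omega) (by omega)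
  linarith

/-- **The bound for the loops.** -/
theorem main_ind (hN : 1 ≤ N) (hd : 3 ≤ d) (hm : 2 ≤ m) {β : ℝ} (hβ : 0 < β) {ℓ r : ℝ} {g : ℕ}
    (hℓ : ∀ n : ℕ, (2 : ℝ) ^ n ≤ β → (n + 1 : ℝ) ≤ ℓ) (hr : r = Real.sqrt (2 ^ g))
    (hg : 3 ≤ g) (hrℓ : 60 * ℓ ≤ r) (T : ℕ) (hT1 : 1 ≤ T) :
    ∀ i τ : Fin d, i ≠ τ → ∀ K : ℕ, T ≤ K → 3 * (K : ℝ) ≤ β → K < 2 * m → T ≤ m →
      uu μ L m β i τ K T ≤ (Nat.log 2 T + 1) * (24 * r * Real.sqrt (cN N)) *
        Real.sqrt (K / β) := by
  obtain ⟨c, hc⟩ : ∃ c, c = cN N := ⟨_, rfl⟩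
  have hc0 : 0 ≤ c := by rw [hc]; exact cN_nonneg N
  have hr1 : 1 ≤ r := by
    rw [hr]
    refine Real.le_sqrt_of_sq_le ?_
    rw [one_pow]
    exact one_le_pow₀ (by norm_num)
  have hr2 : r ^ 2 = 2 ^ g := by rw [hr]; exact Real.sq_sqrt (by positivity)
  obtain ⟨b, hb⟩ : ∃ b, b = 24 * r * Real.sqrt (cN N) := ⟨_, rfl⟩
  have hsc := Real.sqrt_nonneg (cN N)
  have hb0 : 0 ≤ b := by rw [hb]; positivity
  rw [← hb]
  induction T using Nat.strong_induction_on with
  | _ T ih =>
    intro i τ hiτ K hTK hKβ hKm hTm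
    obtain ⟨D, hD⟩ : ∃ D, D = Real.sqrt (K / β) := ⟨_, rfl⟩
    have hD0 : 0 ≤ D := by rw [hD]; exact Real.sqrt_nonneg _
    rw [← hD]
    obtain ⟨q, hq⟩ : ∃ q, q = Nat.log 2 T := ⟨_, rfl⟩
    have hqT : 2 ^ q ≤ T := by rw [hq]; exact Nat.pow_log_le_self 2 (by omega)
    have hTq : T < 2 ^ (q + 1) := by rw [hq]; exact Nat.lt_pow_succ_log_self (by norm_num) T
    rw [← hq]
    have hKR : (0 : ℝ) ≤ K := Nat.cast_nonneg _
    have hTR : (0 : ℝ) ≤ T := Nat.cast_nonneg _
    have hTKR : (T : ℝ) ≤ K := by exact_mod_cast hTK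
    have hcK : Real.sqrt (cN N / β * K) = Real.sqrt (cN N) * D := by
      rw [hD, ← Real.sqrt_mul (cN_nonneg N)]
      congr 1; ring
    rcases Nat.lt_or_ge q g with hqg | hqg
    · -- the thin line
      have h1 := th_long μ (L := L) hN hm hβ hiτ hKm (by linarith) T hT1 hTm
      have h2 : Real.sqrt T ≤ r := by
        rw [hr]
        refine Real.sqrt_le_sqrt ?_
        have : T ≤ 2 ^ g := hTq.le.trans (Nat.pow_le_pow_right (by norm_num) (by omega))
        exact_mod_cast this
      rw [hcK] at h1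
      have h3 : 6 * Real.sqrt T * (Real.sqrt (cN N) * D) ≤
          6 * r * (Real.sqrt (cN N) * D) :=
        mul_le_mul_of_nonneg_right (by linarith) (mul_nonneg hsc hD0)
      have h4 : 6 * r * (Real.sqrt (cN N) * D) ≤ b * D := by
        rw [hb]
        have : 0 ≤ r * (Real.sqrt (cN N) * D) := by positivity
        nlinarith
      have h5 : b * D ≤ (q + 1) * b * D := by
        have h6 : 0 ≤ (q : ℝ) := Nat.cast_nonneg _
        refine mul_le_mul_of_nonneg_right ?_ hD0
        exact le_mul_of_one_le_left hb0 (by linarith)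
      linarith
    · -- the spreading family
      obtain ⟨n, hn⟩ : ∃ n, q = n + g := ⟨q - g, by omega⟩
      have hn3 : 2 ^ (n + 3) ≤ 2 ^ q := Nat.pow_le_pow_right (by norm_num) (by omega)
      have e2 : 2 ^ (n + 1) = 2 ^ n * 2 := by rw [pow_succ]
      have e3 : 2 ^ (n + 2) = 2 ^ n * 4 := by rw [pow_add]; norm_num
      have e4 : 2 ^ (n + 3) = 2 ^ n * 8 := by rw [pow_add]; norm_num
      have hpn : 1 ≤ 2 ^ n := Nat.one_le_two_pow
      have hK2 : 2 ^ (n + 2) ≤ K := by omega
      have h2nβ : (2 : ℝ) ^ n ≤ β := by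
        have : 2 ^ n ≤ K := by omega
        have h1 : ((2 ^ n : ℕ) : ℝ) ≤ K := by exact_mod_cast this
        push_cast at h1
        linarith
      have hnℓ := hℓ n h2nβ
      obtain ⟨j, hij, hτj⟩ := third hd i τ
      have hnn : (0 : ℝ) ≤ n := Nat.cast_nonneg _
      have hsβ : 0 < Real.sqrt β := Real.sqrt_pos.2 hβ
      -- the bounds at the smaller scales
      have hsmall : ∀ s ≤ n, ∀ a b' : ℕ, a ≤ 2 ^ s → b' ≤ 2 ^ s →
          uu μ L m β i j a b' ≤ (n + 1) * b / Real.sqrt β * Real.sqrt (2 ^ s) := by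
        intro s hs a b' ha hb'
        have hs2 : 2 ^ s ≤ 2 ^ n := Nat.pow_le_pow_right (by norm_num) hs
        have key : ∀ (i j : Fin d), i ≠ j → ∀ a b' : ℕ, 1 ≤ b' → b' ≤ a → a ≤ 2 ^ s →
            uu μ L m β i j a b' ≤ (n + 1) * b / Real.sqrt β * Real.sqrt (2 ^ s) := by
          intro i j hij a b' h1 h2 h3
          have haR : 3 * (a : ℝ) ≤ β := by
            have : (a : ℝ) ≤ K := by exact_mod_cast (by omega : a ≤ K)
            linarith
          have h4 := ih b' (by omega) h1 i j hij a h2 haR (by omega) (by omega)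
          refine h4.trans ?_
          have h5 : (Nat.log 2 b' : ℝ) ≤ n := by
            have : Nat.log 2 b' ≤ Nat.log 2 (2 ^ n) := Nat.log_mono_right (by omega)
            rw [Nat.log_pow (by norm_num)] at this
            exact_mod_cast this
          have h6 : Real.sqrt (a / β) ≤ Real.sqrt (2 ^ s) / Real.sqrt β := by
            rw [← Real.sqrt_div (by positivity)]
            refine Real.sqrt_le_sqrt (div_le_div_of_nonneg_right ?_ hβ.le)
            exact_mod_cast h3
          calc (Nat.log 2 b' + 1) * b * Real.sqrt (a / β) ≤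
              (n + 1) * b * (Real.sqrt (2 ^ s) / Real.sqrt β) :=
                mul_le_mul (mul_le_mul_of_nonneg_right (by linarith) hb0) h6
                  (Real.sqrt_nonneg _) (by positivity)
            _ = _ := by ring
        have hR0 : 0 ≤ (n + 1) * b / Real.sqrt β * Real.sqrt (2 ^ s) := by positivity
        rcases Nat.eq_zero_or_pos a with h1 | h1
        · rw [h1, uu_zero μ hN]; exact hR0
        rcases Nat.eq_zero_or_pos b' with h2 | h2
        · rw [h2, uu_zero' μ hN]; exact hR0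
        rcases Nat.le_total b' a with h3 | h3
        · exact key i j hij a b' h2 h3 ha
        · rw [uu_swap]
          exact key j i hij.symm b' a h1 h3 hb'
      have hΦ := stages μ (L := L) (m := m) (β := β) (κ := (n + 1) * b / Real.sqrt β)
        (by positivity) (i := i) (j := j) hsmall
      have hB : ∀ y < 2 ^ n, uu μ L m β i j (K - 2 ^ (n + 2)) y ≤ n * b * D := by
        intro y hy
        rcases Nat.eq_zero_or_pos y with h1 | h1
        · rw [h1, uu_zero' μ hN]; positivity
        have hKs : ((K - 2 ^ (n + 2) : ℕ) : ℝ) ≤ K := by exact_mod_cast Nat.sub_le _ _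
        have h4 := ih y (by omega) h1 i j hij (K - 2 ^ (n + 2)) (by omega) (by linarith)
          (by omega) (by omega)
        refine h4.trans ?_
        have h5 : (Nat.log 2 y + 1 : ℝ) ≤ n := by
          have : Nat.log 2 y < n := Nat.log_lt_of_lt_pow (by omega) hy
          exact_mod_cast this
        rw [hD]
        refine mul_le_mul (mul_le_mul_of_nonneg_right h5 hb0) ?_ (Real.sqrt_nonneg _)
          (by positivity)
        exact Real.sqrt_le_sqrt (div_le_div_of_nonneg_right hKs hβ.le)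
      have h1 := fan_rec μ (L := L) hN hm hβ hij hiτ.symm hτj hK2 hKm hKβ (by positivity) hB hΦ
        T hT1 hTm
      refine h1.trans ?_
      rw [hcK]
      -- the three error terms
      have hT1' : (2 : ℝ) ^ n * 2 ^ g ≤ K := by
        have : 2 ^ n * 2 ^ g ≤ K := by
          rw [← pow_add, ← hn]; omega
        exact_mod_cast this
      have hT2' : (T : ℝ) ≤ 2 ^ n * 2 ^ g * 2 := by
        have : T ≤ 2 ^ n * 2 ^ g * 2 := by
          rw [← pow_add, ← hn, ← pow_succ]; omega
        exact_mod_cast this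
      have h2pos : (0 : ℝ) < 2 ^ n := by positivity
      have t1 : Real.sqrt 2 * (9 * ((n + 1) * b / Real.sqrt β) * Real.sqrt (2 ^ n)) ≤
          1 / 4 * b * D := by
        have f1 : Real.sqrt (2 ^ n) / Real.sqrt β * r ≤ D := by
          rw [hr, hD, ← Real.sqrt_div (by positivity), ← Real.sqrt_mul (by positivity)]
          refine Real.sqrt_le_sqrt ?_
          rw [div_mul_eq_mul_div]
          exact div_le_div_of_nonneg_right hT1' hβ.le
        have f2 : Real.sqrt 2 ≤ 3 / 2 := by
          rw [Real.sqrt_le_left (by norm_num)]; norm_num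
        have f3 : 0 ≤ Real.sqrt (2 ^ n) / Real.sqrt β := by positivity
        have f4 : (n + 1 : ℝ) * 54 ≤ r := by
          have : (n + 1 : ℝ) * 54 ≤ (n + 1) * 60 := by nlinarith
          linarith
        calc Real.sqrt 2 * (9 * ((n + 1) * b / Real.sqrt β) * Real.sqrt (2 ^ n)) =
            Real.sqrt 2 * (9 * (n + 1) * b * (Real.sqrt (2 ^ n) / Real.sqrt β)) := by ring
          _ ≤ 3 / 2 * (9 * (n + 1) * b * (Real.sqrt (2 ^ n) / Real.sqrt β)) :=
              mul_le_mul_of_nonneg_right f2 (by positivity)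
          _ = 1 / 4 * b * (Real.sqrt (2 ^ n) / Real.sqrt β * ((n + 1) * 54)) := by ring
          _ ≤ 1 / 4 * b * (Real.sqrt (2 ^ n) / Real.sqrt β * r) :=
              mul_le_mul_of_nonneg_left (mul_le_mul_of_nonneg_left f4 f3) (by positivity)
          _ ≤ 1 / 4 * b * D := mul_le_mul_of_nonneg_left f1 (by positivity)
      have t2 : 6 * Real.sqrt T * Real.sqrt (cN N / β * (14 * (n + 1) + K / 2 ^ n)) ≤
          11 / 24 * b * D := by
        have f1 : Real.sqrt T * Real.sqrt (cN N / β * (14 * (n + 1) + K / 2 ^ n)) ≤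
            Real.sqrt 3 * (r * (Real.sqrt (cN N) * D)) := by
          rw [← hcK, hr, ← Real.sqrt_mul hTR, ← Real.sqrt_mul (by positivity),
            ← Real.sqrt_mul (by positivity)]
          refine Real.sqrt_le_sqrt ?_
          have f2 : (T : ℝ) * (14 * (n + 1) + K / 2 ^ n) ≤ 3 * (2 ^ g * K) := by
            have f3 : T * (14 * (n + 1) : ℝ) ≤ K * 2 ^ g := by
              refine mul_le_mul hTKR ?_ (by positivity) hKR
              rw [← hr2]
              nlinarith
            have f4 : (T : ℝ) * (K / 2 ^ n) ≤ 2 * (2 ^ g * K) := by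
              rw [← mul_div_assoc, div_le_iff₀ h2pos]
              calc (T : ℝ) * K ≤ (2 ^ n * 2 ^ g * 2) * K := mul_le_mul_of_nonneg_right hT2' hKR
                _ = _ := by ring
            calc (T : ℝ) * (14 * (n + 1) + K / 2 ^ n) =
                T * (14 * (n + 1)) + T * (K / 2 ^ n) := by ring
              _ ≤ K * 2 ^ g + 2 * (2 ^ g * K) := add_le_add f3 f4
              _ = _ := by ring
          have f5 : 0 ≤ cN N / β := div_nonneg (cN_nonneg N) hβ.le
          calc T * (cN N / β * (14 * (n + 1) + K / 2 ^ n)) =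
              cN N / β * (T * (14 * (n + 1) + K / 2 ^ n)) := by ring
            _ ≤ cN N / β * (3 * (2 ^ g * K)) := mul_le_mul_of_nonneg_left f2 f5
            _ = _ := by ring
        have f6 : Real.sqrt 3 ≤ 11 / 6 := by
          rw [Real.sqrt_le_left (by norm_num)]; norm_num
        have f7 : 0 ≤ r * (Real.sqrt (cN N) * D) := by positivity
        calc 6 * Real.sqrt T * Real.sqrt (cN N / β * (14 * (n + 1) + K / 2 ^ n)) =
            6 * (Real.sqrt T * Real.sqrt (cN N / β * (14 * (n + 1) + K / 2 ^ n))) := by ring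
          _ ≤ 6 * (Real.sqrt 3 * (r * (Real.sqrt (cN N) * D))) := by linarith
          _ ≤ 6 * (11 / 6 * (r * (Real.sqrt (cN N) * D))) := by
              have := mul_le_mul_of_nonneg_right f6 f7
              linarith
          _ = 11 / 24 * b * D := by rw [hb]; ring
      have t3 : Real.sqrt (cN N) * D ≤ 1 / 24 * b * D := by
        have f1 : Real.sqrt (cN N) * D ≤ r * (Real.sqrt (cN N) * D) :=
          le_mul_of_one_le_left (mul_nonneg hsc hD0) hr1
        calc _ ≤ _ := f1
          _ = _ := by rw [hb]; ring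
      have t4 : 0 ≤ b * D := mul_nonneg hb0 hD0
      have t5 : ((n : ℝ) + 1) * b * D ≤ (q + 1) * b * D := by
        have : (n : ℝ) ≤ q := by exact_mod_cast (by omega : n ≤ q)
        exact mul_le_mul_of_nonneg_right (mul_le_mul_of_nonneg_right (by linarith) hb0) hD0
      have t6 : n * b * D + 1 / 4 * b * D + 11 / 24 * b * D + 1 / 24 * b * D ≤
          (n + 1) * b * D := by linarith
      linarith

end

end Pool.Agent.Y15
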