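import Mathlib
import Pool.Agent.Y15.Induct

/-!
# The induction over the scales, with two parameters
-/

open MeasureTheory Matrix
open scoped Matrix.Norms.Frobenius
open Pool.Agent.H906R3.YM hiding Pl
open Pool.Agent.W793.YM Pool.Agent.TH618.YM

namespace Pool.Agent.Y15

set_option linter.unusedSectionVars false
set_option linter.unusedVariables false

noncomputable section

variable {G : Type*} [Group G] [TopologicalSpace G]
  [IsTopologicalGroup G] [CompactSpace G] [SecondCountableTopology G] [MeasurableSpace G]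
  [BorelSpace G] (μ : Measure G) [IsProbabilityMeasure μ] [μ.IsMulLeftInvariant]
  [μ.IsMulRightInvariant] [μ.IsInvInvariant] {N n' : ℕ} {L : LD G N n'}
  {d m : ℕ} [NeZero m]

/-- **The bound for the loops.** -/
theorem main_ind2 (hN : 1 ≤ N) (hd : 3 ≤ d) (hm : 2 ≤ m) {β : ℝ} (hβ : 0 < β)
    (T : ℕ) (hT1 : 1 ≤ T) :
    ∀ i τ : Fin d, i ≠ τ → ∀ K : ℕ, T ≤ K → 3 * (K : ℝ) ≤ β → K < 2 * m → T ≤ m →
      uu μ L m β i τ K T ≤ (Nat.log 2 T + 1) * (200 * Real.sqrt (cN N)) *
        (Real.sqrt (K / β) + Real.sqrt (T / β)) := by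
  have hsc := Real.sqrt_nonneg (cN N)
  obtain ⟨a, ha⟩ : ∃ a, a = 200 * Real.sqrt (cN N) := ⟨_, rfl⟩
  have ha0 : 0 ≤ a := by rw [ha]; positivity
  rw [← ha]
  induction T using Nat.strong_induction_on with
  | _ T ih =>
    intro i τ hiτ K hTK hKβ hKm hTm
    obtain ⟨D, hD⟩ : ∃ D, D = Real.sqrt (K / β) := ⟨_, rfl⟩
    have hD0 : 0 ≤ D := by rw [hD]; exact Real.sqrt_nonneg _
    obtain ⟨S, hS⟩ : ∃ S, S = Real.sqrt (T / β) := ⟨_, rfl⟩
    have hS0 : 0 ≤ S := by rw [hS]; exact Real.sqrt_nonneg _
    rw [← hD, ← hS]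
    obtain ⟨q, hq⟩ : ∃ q, q = Nat.log 2 T := ⟨_, rfl⟩
    have hqT : 2 ^ q ≤ T := by rw [hq]; exact Nat.pow_log_le_self 2 (by omega)
    have hTq : T < 2 ^ (q + 1) := by rw [hq]; exact Nat.lt_pow_succ_log_self (by norm_num) T
    rw [← hq]
    have hKR : (0 : ℝ) ≤ K := Nat.cast_nonneg _
    have hTR : (0 : ℝ) ≤ T := Nat.cast_nonneg _
    have hcK : Real.sqrt (cN N / β * K) = Real.sqrt (cN N) * D := by
      rw [hD, ← Real.sqrt_mul (cN_nonneg N)]
      congr 1; ring
    rcases Nat.lt_or_ge q 10 with hqg | hqg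
    · -- the thin line
      have h1 := th_long μ (L := L) hN hm hβ hiτ hKm (by linarith) T hT1 hTm
      have h2 : Real.sqrt T ≤ 32 := by
        rw [show (32 : ℝ) = Real.sqrt (32 ^ 2) by rw [Real.sqrt_sq (by norm_num)]]
        refine Real.sqrt_le_sqrt ?_
        have : T ≤ 2 ^ 10 := hTq.le.trans (Nat.pow_le_pow_right (by norm_num) (by omega))
        have h3 : (T : ℝ) ≤ ((2 ^ 10 : ℕ) : ℝ) := by exact_mod_cast this
        norm_num at h3 ⊢
        linarith
      rw [hcK] at h1
      have h3 : 6 * Real.sqrt T * (Real.sqrt (cN N) * D) ≤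
          6 * 32 * (Real.sqrt (cN N) * D) :=
        mul_le_mul_of_nonneg_right (by linarith) (mul_nonneg hsc hD0)
      have h4 : 6 * 32 * (Real.sqrt (cN N) * D) ≤ a * D := by
        rw [ha]
        have : 0 ≤ Real.sqrt (cN N) * D := by positivity
        nlinarith
      have h5 : a * D ≤ (q + 1) * a * (D + S) := by
        have h6 : 0 ≤ (q : ℝ) := Nat.cast_nonneg _
        exact mul_le_mul (le_mul_of_one_le_left ha0 (by linarith)) (by linarith) hD0
          (by positivity)
      linarith
    · -- the spreading family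
      obtain ⟨n, hn⟩ : ∃ n, q = n + 10 := ⟨q - 10, by omega⟩
      have e1 : 2 ^ q = 2 ^ n * 1024 := by rw [hn, pow_add]; norm_num
      have e1' : 2 ^ (q + 1) = 2 ^ n * 2048 := by rw [pow_succ, e1]; ring
      have e2 : 2 ^ (n + 1) = 2 ^ n * 2 := by rw [pow_succ]
      have e3 : 2 ^ (n + 2) = 2 ^ n * 4 := by rw [pow_add]; norm_num
      have hpn : 1 ≤ 2 ^ n := Nat.one_le_two_pow
      have hK2 : 2 ^ (n + 2) ≤ K := by omega
      obtain ⟨j, hij, hτj⟩ := third hd i τ
      have hnn : (0 : ℝ) ≤ n := Nat.cast_nonneg _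
      have hsβ : 0 < Real.sqrt β := Real.sqrt_pos.2 hβ
      have hqn : (q : ℝ) = n + 10 := by rw [hn]; push_cast; ring
      -- the bounds at the smaller scales
      have hsmall : ∀ s ≤ n, ∀ a' b' : ℕ, a' ≤ 2 ^ s → b' ≤ 2 ^ s →
          uu μ L m β i j a' b' ≤ 2 * (n + 1) * a / Real.sqrt β * Real.sqrt (2 ^ s) := by
        intro s hs a' b' ha' hb'
        have hs2 : 2 ^ s ≤ 2 ^ n := Nat.pow_le_pow_right (by norm_num) hs
        have key : ∀ (i j : Fin d), i ≠ j → ∀ a' b' : ℕ, 1 ≤ b' → b' ≤ a' → a' ≤ 2 ^ s →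
            uu μ L m β i j a' b' ≤ 2 * (n + 1) * a / Real.sqrt β * Real.sqrt (2 ^ s) := by
          intro i j hij a' b' h1 h2 h3
          have haR : 3 * (a' : ℝ) ≤ β := by
            have : (a' : ℝ) ≤ K := by exact_mod_cast (by omega : a' ≤ K)
            linarith
          have h4 := ih b' (by omega) h1 i j hij a' h2 haR (by omega) (by omega)
          refine h4.trans ?_
          have h5 : (Nat.log 2 b' : ℝ) ≤ n := by
            have : Nat.log 2 b' ≤ Nat.log 2 (2 ^ n) := Nat.log_mono_right (by omega)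
            rw [Nat.log_pow (by norm_num)] at this
            exact_mod_cast this
          have h6 : ∀ x : ℕ, x ≤ 2 ^ s → Real.sqrt (x / β) ≤ Real.sqrt (2 ^ s) / Real.sqrt β := by
            intro x hx
            rw [← Real.sqrt_div (by positivity)]
            refine Real.sqrt_le_sqrt (div_le_div_of_nonneg_right ?_ hβ.le)
            exact_mod_cast hx
          have h7 := h6 a' h3
          have h8 := h6 b' (h2.trans h3)
          calc (Nat.log 2 b' + 1) * a * (Real.sqrt (a' / β) + Real.sqrt (b' / β)) ≤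
              (n + 1) * a * (Real.sqrt (2 ^ s) / Real.sqrt β + Real.sqrt (2 ^ s) / Real.sqrt β) :=
                mul_le_mul (mul_le_mul_of_nonneg_right (by linarith) ha0) (by linarith)
                  (by positivity) (by positivity)
            _ = _ := by ring
        have hR0 : 0 ≤ 2 * (n + 1) * a / Real.sqrt β * Real.sqrt (2 ^ s) := by positivity
        rcases Nat.eq_zero_or_pos a' with h1 | h1
        · rw [h1, uu_zero μ hN]; exact hR0
        rcases Nat.eq_zero_or_pos b' with h2 | h2
        · rw [h2, uu_zero' μ hN]; exact hR0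
        rcases Nat.le_total b' a' with h3 | h3
        · exact key i j hij a' b' h2 h3 ha'
        · rw [uu_swap]
          exact key j i hij.symm b' a' h1 h3 hb'
      have hΦ := stages μ (L := L) (m := m) (β := β) (κ := 2 * (n + 1) * a / Real.sqrt β)
        (by positivity) (i := i) (j := j) hsmall
      have h2nT : Real.sqrt (2 ^ n) / Real.sqrt β ≤ 1 / 32 * S := by
        have g1 : (1 : ℝ) / 32 = Real.sqrt (1 / 1024) := by
          rw [show (1 : ℝ) / 1024 = (1 / 32) ^ 2 by norm_num, Real.sqrt_sq (by norm_num)]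
        rw [hS, ← Real.sqrt_div (by positivity), g1, ← Real.sqrt_mul (by norm_num)]
        refine Real.sqrt_le_sqrt ?_
        rw [← mul_div_assoc]
        refine div_le_div_of_nonneg_right ?_ hβ.le
        have : ((2 ^ n * 1024 : ℕ) : ℝ) ≤ T := by exact_mod_cast (by omega : 2 ^ n * 1024 ≤ T)
        push_cast at this
        linarith
      have hB : ∀ y < 2 ^ n, uu μ L m β i j (K - 2 ^ (n + 2)) y ≤ n * a * (D + 1 / 32 * S) := by
        intro y hy
        rcases Nat.eq_zero_or_pos y with h1 | h1
        · rw [h1, uu_zero' μ hN]; positivity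
        have hKs : ((K - 2 ^ (n + 2) : ℕ) : ℝ) ≤ K := by exact_mod_cast Nat.sub_le _ _
        have h4 := ih y (by omega) h1 i j hij (K - 2 ^ (n + 2)) (by omega) (by linarith)
          (by omega) (by omega)
        refine h4.trans ?_
        have h5 : (Nat.log 2 y + 1 : ℝ) ≤ n := by
          have : Nat.log 2 y < n := Nat.log_lt_of_lt_pow (by omega) hy
          exact_mod_cast this
        refine mul_le_mul (mul_le_mul_of_nonneg_right h5 ha0) (add_le_add ?_ ?_)
          (by positivity) (by positivity)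
        · rw [hD]
          exact Real.sqrt_le_sqrt (div_le_div_of_nonneg_right hKs hβ.le)
        · refine le_trans ?_ h2nT
          rw [← Real.sqrt_div (by positivity)]
          refine Real.sqrt_le_sqrt (div_le_div_of_nonneg_right ?_ hβ.le)
          exact_mod_cast hy.le
      have h1 := fan_rec μ (L := L) hN hm hβ hij hiτ.symm hτj hK2 hKm hKβ (by positivity) hB hΦ
        T hT1 hTm
      refine h1.trans ?_
      rw [hcK]
      have t1 : Real.sqrt 2 * (9 * (2 * (n + 1) * a / Real.sqrt β) * Real.sqrt (2 ^ n)) ≤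
          27 / 32 * (n + 1) * a * S := by
        have f2 : Real.sqrt 2 ≤ 3 / 2 := by
          rw [Real.sqrt_le_left (by norm_num)]; norm_num
        have f3 : 0 ≤ Real.sqrt (2 ^ n) / Real.sqrt β := by positivity
        calc Real.sqrt 2 * (9 * (2 * (n + 1) * a / Real.sqrt β) * Real.sqrt (2 ^ n)) =
            Real.sqrt 2 * (18 * (n + 1) * a * (Real.sqrt (2 ^ n) / Real.sqrt β)) := by ring
          _ ≤ 3 / 2 * (18 * (n + 1) * a * (Real.sqrt (2 ^ n) / Real.sqrt β)) :=
              mul_le_mul_of_nonneg_right f2 (by positivity)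
          _ ≤ 3 / 2 * (18 * (n + 1) * a * (1 / 32 * S)) :=
              mul_le_mul_of_nonneg_left (mul_le_mul_of_nonneg_left h2nT (by positivity))
                (by norm_num)
          _ = _ := by ring
      have t2 : 6 * Real.sqrt T * Real.sqrt (cN N / β * (14 * (n + 1) + K / 2 ^ n)) ≤
          24 * (n + 1) * (Real.sqrt (cN N) * S) + 276 * (Real.sqrt (cN N) * D) := by
        have f1 : Real.sqrt T * Real.sqrt (cN N / β * (14 * (n + 1) + K / 2 ^ n)) ≤
            Real.sqrt (cN N) * (4 * (n + 1) * S) + Real.sqrt (cN N) * (46 * D) := by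
          rw [← Real.sqrt_mul hTR, ← mul_add]
          refine Real.sqrt_le_iff.2 ⟨by positivity, ?_⟩
          rw [mul_pow, Real.sq_sqrt (cN_nonneg N)]
          have f2 : (T : ℝ) * (14 * (n + 1) + K / 2 ^ n) / β ≤ (4 * (n + 1) * S + 46 * D) ^ 2 := by
            have f3 : (T : ℝ) * (14 * (n + 1)) / β ≤ (4 * (n + 1) * S) ^ 2 := by
              rw [mul_pow, hS, Real.sq_sqrt (by positivity)]
              have f4 : (14 : ℝ) * (n + 1) ≤ (4 * (n + 1)) ^ 2 := by nlinarith
              calc (T : ℝ) * (14 * (n + 1)) / β = 14 * (n + 1) * (T / β) := by ring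
                _ ≤ (4 * (n + 1)) ^ 2 * (T / β) :=
                  mul_le_mul_of_nonneg_right f4 (by positivity)
            have f5 : (T : ℝ) * (K / 2 ^ n) / β ≤ (46 * D) ^ 2 := by
              rw [mul_pow, hD, Real.sq_sqrt (by positivity)]
              have f6 : (T : ℝ) ≤ 2048 * 2 ^ n := by
                have : (T : ℝ) ≤ ((2 ^ n * 2048 : ℕ) : ℝ) := by
                  exact_mod_cast (by omega : T ≤ 2 ^ n * 2048)
                push_cast at this
                linarith
              have f7 : (T : ℝ) / 2 ^ n ≤ 2048 := by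
                rw [div_le_iff₀ (by positivity)]; exact f6
              calc (T : ℝ) * (K / 2 ^ n) / β = T / 2 ^ n * (K / β) := by ring
                _ ≤ 2048 * (K / β) := mul_le_mul_of_nonneg_right f7 (by positivity)
                _ ≤ 46 ^ 2 * (K / β) := mul_le_mul_of_nonneg_right (by norm_num) (by positivity)
            have f8 : 0 ≤ 2 * (4 * ((n : ℝ) + 1) * S) * (46 * D) := by positivity
            calc (T : ℝ) * (14 * (n + 1) + K / 2 ^ n) / β =
                T * (14 * (n + 1)) / β + T * (K / 2 ^ n) / β := by ring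
              _ ≤ (4 * (n + 1) * S) ^ 2 + (46 * D) ^ 2 := add_le_add f3 f5
              _ ≤ _ := by
                rw [add_sq]
                linarith
          calc T * (cN N / β * (14 * (n + 1) + K / 2 ^ n)) =
              cN N * (T * (14 * (n + 1) + K / 2 ^ n) / β) := by ring
            _ ≤ _ := mul_le_mul_of_nonneg_left f2 (cN_nonneg N)
        linarith
      have hc1 : Real.sqrt (cN N) = a / 200 := by rw [ha]; ring
      rw [hc1] at t2 ⊢
      have t3 : (n : ℝ) * a * (D + 1 / 32 * S) + 27 / 32 * (n + 1) * a * S +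
          (24 * (n + 1) * (a / 200 * S) + 276 * (a / 200 * D)) + a / 200 * D ≤
          (n + 10 + 1) * a * (D + S) := by
        have g1 : 0 ≤ a * D := by positivity
        have g2 : 0 ≤ a * S := by positivity
        have g3 : 0 ≤ n * (a * S) := by positivity
        nlinarith
      rw [hqn]
      linarith

end

end Pool.Agent.Y15
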