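import Mathlib
import Pool.Agent.Y15.Induct2
import Pool.Agent.TH618.YM.Pot

/-!
# The static potential and the string tension at weak coupling
-/

open MeasureTheory Matrix Filter
open scoped Matrix.Norms.Frobenius Topology
open Pool.Agent.H906R3.YM hiding Pl
open Pool.Agent.W793.YM Pool.Agent.TH618.YM

namespace Pool.Agent.Y15

set_option linter.unusedSectionVars false
set_option linter.unusedVariables false

noncomputable section

variable {G : Type*} [Group G] [TopologicalSpace G]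
  [IsTopologicalGroup G] [CompactSpace G] [SecondCountableTopology G] [MeasurableSpace G]
  [BorelSpace G] (μ : Measure G) [IsProbabilityMeasure μ] [μ.IsMulLeftInvariant]
  [μ.IsMulRightInvariant] [μ.IsInvInvariant] {N n' : ℕ} {L : LD G N n'}
  {d : ℕ}

lemma log2_gt : (0.69 : ℝ) ≤ Real.log 2 := by
  have := Real.log_two_gt_d9
  linarith

lemma pow_two_log {n : ℕ} {x : ℝ} (h : (2 : ℝ) ^ n ≤ x) : (n : ℝ) ≤ 1.45 * Real.log x := by
  have h1 := Real.log_le_log (by positivity) h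
  rw [Real.log_pow] at h1
  have h2 := log2_gt
  have h3 : (0 : ℝ) ≤ n := Nat.cast_nonneg _
  nlinarith

/-- the constant of the bound for the loops -/
def cA (N : ℕ) : ℝ := 1200 * Real.sqrt (cN N)

lemma cN_pos {N : ℕ} (hN : 1 ≤ N) : 0 < cN N := by
  unfold cN
  have : (0 : ℝ) < N := by exact_mod_cast hN
  positivity

lemma cA_pos {N : ℕ} (hN : 1 ≤ N) : 0 < cA N := by
  unfold cA
  have := Real.sqrt_pos.2 (cN_pos hN)
  positivity

/-- the bound for the loops on the torus, ordered sides -/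
theorem tor_low (hN : 1 ≤ N) (hd : 3 ≤ d) {β : ℝ} (hβ : 3 ≤ β) (m : ℕ) [NeZero m] (hm : 2 ≤ m)
    {i τ : Fin d} (hi : i ≠ τ) (K T : ℕ) (hT1 : 1 ≤ T) (hTK : T ≤ K) (hKβ : 3 * (K : ℝ) ≤ β)
    (hKm : K ≤ m) :
    uu μ L m β i τ K T ≤ cA N * Real.log β * Real.sqrt (K / β) := by
  have hβ0 : 0 < β := by linarith
  obtain ⟨l, hl⟩ : ∃ l, l = Real.log β := ⟨_, rfl⟩
  have hl1 : 1 ≤ l := by
    rw [hl, Real.le_log_iff_exp_le hβ0]
    have := Real.exp_one_lt_d9
    linarith
  have hℓ : ∀ n : ℕ, (2 : ℝ) ^ n ≤ β → (n + 1 : ℝ) ≤ 3 * l := by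
    intro n hn
    have := pow_two_log hn
    rw [← hl] at this
    linarith
  have h1 := main_ind2 μ (L := L) hN hd hm hβ0 T hT1 i τ hi K hTK hKβ (by omega) (by omega)
  refine h1.trans ?_
  rw [← hl]
  have h2 : (Nat.log 2 T + 1 : ℝ) ≤ 3 * l := by
    refine hℓ _ ?_
    have h3 : ((2 ^ Nat.log 2 T : ℕ) : ℝ) ≤ K := by
      exact_mod_cast (Nat.pow_log_le_self 2 (by omega)).trans hTK
    push_cast at h3
    have h4 : (0 : ℝ) ≤ K := Nat.cast_nonneg _
    linarith
  have hs := Real.sqrt_nonneg (cN N)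
  have h5 : Real.sqrt (T / β) ≤ Real.sqrt (K / β) :=
    Real.sqrt_le_sqrt (div_le_div_of_nonneg_right (by exact_mod_cast hTK) hβ0.le)
  have h6 := Real.sqrt_nonneg ((K : ℝ) / β)
  have h7 := Real.sqrt_nonneg ((T : ℝ) / β)
  unfold cA
  calc (Nat.log 2 T + 1) * (200 * Real.sqrt (cN N)) *
        (Real.sqrt (K / β) + Real.sqrt (T / β)) ≤
      (3 * l) * (200 * Real.sqrt (cN N)) * (2 * Real.sqrt (K / β)) := by
        refine mul_le_mul (mul_le_mul_of_nonneg_right h2 (by positivity)) (by linarith)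
          (by positivity) (by positivity)
    _ = _ := by ring

/-- the bound for the loops on the torus -/
theorem tor_low' (hN : 1 ≤ N) (hd : 3 ≤ d) {β : ℝ} (hβ : 3 ≤ β) (m : ℕ) [NeZero m] (hm : 2 ≤ m)
    {i j : Fin d} (hi : i ≠ j) (a b K : ℕ) (ha : a ≤ K) (hb : b ≤ K) (hKβ : 3 * (K : ℝ) ≤ β)
    (hKm : K ≤ m) :
    uu μ L m β i j a b ≤ cA N * Real.log β * Real.sqrt (K / β) := by
  have hβ0 : 0 < β := by linarith
  have hR : 0 ≤ cA N * Real.log β * Real.sqrt (K / β) :=
    mul_nonneg (mul_nonneg (cA_pos hN).le (Real.log_nonneg (by linarith))) (Real.sqrt_nonneg _)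
  have key : ∀ (i j : Fin d), i ≠ j → ∀ a b : ℕ, 1 ≤ b → b ≤ a → a ≤ K →
      uu μ L m β i j a b ≤ cA N * Real.log β * Real.sqrt (K / β) := by
    intro i j hij a b h1 h2 h3
    have h3' : (a : ℝ) ≤ K := by exact_mod_cast h3
    refine (tor_low μ (L := L) hN hd hβ m hm hij a b h1 h2 (by linarith) (by omega)).trans ?_
    refine mul_le_mul_of_nonneg_left ?_
      (mul_nonneg (cA_pos hN).le (Real.log_nonneg (by linarith)))
    exact Real.sqrt_le_sqrt (div_le_div_of_nonneg_right h3' hβ0.le)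
  rcases Nat.eq_zero_or_pos a with h1 | h1
  · rw [h1, uu_zero μ hN]; exact hR
  rcases Nat.eq_zero_or_pos b with h2 | h2
  · rw [h2, uu_zero' μ hN]; exact hR
  rcases Nat.le_total b a with h3 | h3
  · exact key i j hi a b h2 h3 ha
  · rw [uu_swap]
    exact key j i hi.symm b a h1 h3 hb

/-- the bound for the long loops -/
theorem tor_pot (hN : 1 ≤ N) (hd : 3 ≤ d) {β : ℝ} (hβ : 3 ≤ β) (m : ℕ) [NeZero m] (hm : 2 ≤ m)
    {i τ : Fin d} (hi : i ≠ τ) (R T : ℕ) (hR1 : 1 ≤ R)
    (hRβ : 400 * cA N ^ 2 * Real.log β ^ 2 * R ≤ β) (hR3 : 3 * (R : ℝ) ≤ β)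
    (hT1 : 1 ≤ T) (hTβ : 18432 * cN N * (1 + Real.log R) * T ≤ β) (hRm : R ≤ m) (hTm : T ≤ m) :
    uu μ L m β i τ R T ≤ 3 / 4 := by
  have hβ0 : 0 < β := by linarith
  have hc := cN_pos hN
  have hA := cA_pos hN
  have hR0 : (1 : ℝ) ≤ R := by exact_mod_cast hR1
  have hlR : 0 ≤ Real.log R := Real.log_nonneg hR0
  have hlβ : 1 ≤ Real.log β := by
    rw [Real.le_log_iff_exp_le hβ0]
    have := Real.exp_one_lt_d9
    linarith
  have hT0 : (0 : ℝ) ≤ T := Nat.cast_nonneg _
  -- the first term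
  have hfirst : cA N * Real.log β * Real.sqrt (R / β) ≤ 1 / 20 := by
    have h1 : (cA N * Real.log β * Real.sqrt (R / β)) ^ 2 ≤ (1 / 20) ^ 2 := by
      rw [mul_pow, mul_pow, Real.sq_sqrt (by positivity), ← mul_div_assoc, div_le_iff₀ hβ0]
      calc cA N ^ 2 * Real.log β ^ 2 * R = cA N ^ 2 * Real.log β ^ 2 * R := rfl
        _ ≤ _ := by linarith
    exact (pow_le_pow_iff_left₀ (by positivity) (by norm_num) two_ne_zero).1 h1
  -- the energy
  have hE : ∀ y : ℝ, 0 ≤ y → y ≤ 32 * (1 + Real.log R) →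
      6 * Real.sqrt T * Real.sqrt (cN N / β * y) ≤ 1 / 4 := by
    intro y hy0 hy
    have h1 : (6 * Real.sqrt T * Real.sqrt (cN N / β * y)) ^ 2 ≤ (1 / 4) ^ 2 := by
      rw [mul_pow, mul_pow, Real.sq_sqrt hT0, Real.sq_sqrt (by positivity)]
      have h2 : 36 * T * (cN N * y) ≤ β / 16 := by
        have h3 : 36 * T * (cN N * y) ≤ 36 * T * (cN N * (32 * (1 + Real.log R))) :=
          mul_le_mul_of_nonneg_left (mul_le_mul_of_nonneg_left hy hc.le) (by positivity)
        linarith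
      have h3 : 6 ^ 2 * (T : ℝ) * (cN N / β * y) = 36 * T * (cN N * y) / β := by
        field_simp; ring
      rw [h3, div_le_iff₀ hβ0]
      linarith
    exact (pow_le_pow_iff_left₀ (by positivity) (by norm_num) two_ne_zero).1 h1
  rcases Nat.lt_or_ge R 32 with hR32 | hR32
  · have h1 := th_long μ (L := L) hN hm hβ0 hi (K := R) (by omega) (by linarith) T hT1 hTm
    have hR32' : (R : ℝ) ≤ 32 := by exact_mod_cast hR32.le
    have h2 := hE R (by linarith) (by linarith)
    linarith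
  · obtain ⟨q, hq⟩ : ∃ q, q = Nat.log 2 R := ⟨_, rfl⟩
    have hqR : 2 ^ q ≤ R := by rw [hq]; exact Nat.pow_log_le_self 2 (by omega)
    have hRq : R < 2 ^ (q + 1) := by rw [hq]; exact Nat.lt_pow_succ_log_self (by norm_num) R
    have hq5 : 5 ≤ q := by
      rw [hq]
      exact Nat.le_log_of_pow_le (by norm_num) (by norm_num; exact hR32)
    obtain ⟨n, hn⟩ : ∃ n, q = n + 4 := ⟨q - 4, by omega⟩
    have e2 : 2 ^ (n + 2) = 2 ^ n * 4 := by rw [pow_add]; norm_num
    have e4 : 2 ^ q = 2 ^ n * 16 := by rw [hn, pow_add]; norm_num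
    have e5 : 2 ^ (q + 1) = 2 ^ n * 32 := by rw [hn, pow_add, pow_add]; norm_num; ring
    have hpn : 1 ≤ 2 ^ n := Nat.one_le_two_pow
    obtain ⟨j, hij, hτj⟩ := third hd i τ
    have hsβ : 0 < Real.sqrt β := Real.sqrt_pos.2 hβ0
    have hsmall : ∀ s ≤ n, ∀ a b' : ℕ, a ≤ 2 ^ s → b' ≤ 2 ^ s →
        uu μ L m β i j a b' ≤ cA N * Real.log β / Real.sqrt β * Real.sqrt (2 ^ s) := by
      intro s hs a b' ha hb'
      have hs2 : 2 ^ s ≤ 2 ^ n := Nat.pow_le_pow_right (by norm_num) hs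
      have h3 : ((2 ^ s : ℕ) : ℝ) ≤ R := by exact_mod_cast (by omega : 2 ^ s ≤ R)
      have h4 := tor_low' μ (L := L) hN hd hβ m hm hij a b' (2 ^ s) ha hb' (by linarith)
        (by omega)
      refine h4.trans (le_of_eq ?_)
      push_cast
      rw [Real.sqrt_div (by positivity)]
      ring
    have hΦ := stages μ (L := L) (m := m) (β := β) (κ := cA N * Real.log β / Real.sqrt β)
      (by positivity) (i := i) (j := j) hsmall
    have hB : ∀ y < 2 ^ n, uu μ L m β i j (R - 2 ^ (n + 2)) y ≤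
        cA N * Real.log β * Real.sqrt (R / β) := by
      intro y hy
      exact tor_low' μ (L := L) hN hd hβ m hm hij (R - 2 ^ (n + 2)) y R (Nat.sub_le _ _)
        (by omega) hR3 hRm
    have h1 := fan_rec μ (L := L) hN hm hβ0 hij hi.symm hτj (n := n) (K := R) (by omega)
      (by omega) hR3 (by positivity) hB hΦ T hT1 hTm
    refine h1.trans ?_
    have t1 : Real.sqrt 2 * (9 * (cA N * Real.log β / Real.sqrt β) * Real.sqrt (2 ^ n)) ≤
        7 / 40 := by
      have f1 : Real.sqrt (2 ^ n) / Real.sqrt β ≤ 1 / 4 * Real.sqrt (R / β) := by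
        have g1 : (1 : ℝ) / 4 = Real.sqrt (1 / 16) := by
          rw [show (1 : ℝ) / 16 = (1 / 4) ^ 2 by norm_num, Real.sqrt_sq (by norm_num)]
        rw [← Real.sqrt_div (by positivity), g1, ← Real.sqrt_mul (by norm_num)]
        refine Real.sqrt_le_sqrt ?_
        rw [← mul_div_assoc]
        refine div_le_div_of_nonneg_right ?_ hβ0.le
        have : ((2 ^ n * 16 : ℕ) : ℝ) ≤ R := by exact_mod_cast (by omega : 2 ^ n * 16 ≤ R)
        push_cast at this
        linarith
      have f2 : Real.sqrt 2 ≤ 3 / 2 := by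
        rw [Real.sqrt_le_left (by norm_num)]; norm_num
      have f3 : 0 ≤ Real.sqrt (2 ^ n) / Real.sqrt β := by positivity
      calc Real.sqrt 2 * (9 * (cA N * Real.log β / Real.sqrt β) * Real.sqrt (2 ^ n)) =
          Real.sqrt 2 * (9 * (cA N * Real.log β) * (Real.sqrt (2 ^ n) / Real.sqrt β)) := by
            ring
        _ ≤ 3 / 2 * (9 * (cA N * Real.log β) * (Real.sqrt (2 ^ n) / Real.sqrt β)) :=
            mul_le_mul_of_nonneg_right f2 (by positivity)
        _ ≤ 3 / 2 * (9 * (cA N * Real.log β) * (1 / 4 * Real.sqrt (R / β))) :=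
            mul_le_mul_of_nonneg_left (mul_le_mul_of_nonneg_left f1 (by positivity))
              (by norm_num)
        _ = 27 / 8 * (cA N * Real.log β * Real.sqrt (R / β)) := by ring
        _ ≤ 27 / 8 * (1 / 20) := mul_le_mul_of_nonneg_left hfirst (by norm_num)
        _ ≤ 7 / 40 := by norm_num
    have t2 := hE (14 * (n + 1) + R / 2 ^ n) (by positivity) (by
      have f1 : (R : ℝ) / 2 ^ n ≤ 32 := by
        rw [div_le_iff₀ (by positivity)]
        have : (R : ℝ) ≤ ((2 ^ n * 32 : ℕ) : ℝ) := by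
          exact_mod_cast (by omega : R ≤ 2 ^ n * 32)
        push_cast at this
        linarith
      have f2 : (q : ℝ) ≤ 1.45 * Real.log R := by
        refine pow_two_log ?_
        exact_mod_cast hqR
      have f3 : (q : ℝ) = n + 4 := by rw [hn]; push_cast; ring
      rw [f3] at f2
      linarith)
    have t3 : Real.sqrt (cN N / β * R) ≤ 1 / 20 := by
      have f1 : Real.sqrt (cN N / β * R) = Real.sqrt (cN N) * Real.sqrt (R / β) := by
        rw [← Real.sqrt_mul hc.le]
        congr 1; ring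
      have f2 : Real.sqrt (cN N) ≤ cA N * Real.log β := by
        unfold cA
        have g1 := Real.sqrt_nonneg (cN N)
        have g2 : 1 ≤ Real.log β := hlβ
        nlinarith
      rw [f1]
      exact (mul_le_mul_of_nonneg_right f2 (Real.sqrt_nonneg _)).trans hfirst
    linarith

end

end Pool.Agent.Y15
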