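import Mathlib
import Pool.Agent.TH618.YM.SiteRP
import Pool.Agent.Y15.Close

/-!
# Site reflection positivity for families of functions
-/

open MeasureTheory Matrix Filter
open scoped Matrix.Norms.Frobenius
open Pool.Agent.H906R3.YM hiding Pl
open Pool.Agent.W793.YM Pool.Agent.TH618.YM

namespace Pool.Agent.Y15

set_option linter.unusedSectionVars false
set_option linter.unusedVariables false

noncomputable section

variable {G : Type*} [Group G] [TopologicalSpace G]
  [IsTopologicalGroup G] [CompactSpace G] [SecondCountableTopology G] [MeasurableSpace G]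
  [BorelSpace G] (μ : Measure G) [IsProbabilityMeasure μ] [μ.IsMulLeftInvariant]
  [μ.IsMulRightInvariant] [μ.IsInvInvariant] {N n : ℕ} {L : LD G N n}
  {d m : ℕ} [NeZero m]

lemma dep_exp {f : (Ed d (2 * m) → G) → ℝ} (hm : 2 ≤ m) {i0 : Fin d} (hf : Dep (HQ i0) f)
    (β : ℝ) : Dep (fun e => PP i0 e ∨ (SR hm i0).R e)
      fun U => f U * Real.exp (-(β * sS L i0 U)) := by
  refine Dep_HQ hm fun U U' h => ?_
  rw [hf U U' h, sS_dep (L := L) hm U U' h]

/-- **The Cauchy-Schwarz inequality of site reflection positivity.** -/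
theorem srp_cs (hm : 2 ≤ m) (i0 : Fin d) (β : ℝ) {κ : Type*} (s : Finset κ)
    {f g : κ → (Ed d (2 * m) → G) → ℝ} (hf : ∀ k, Continuous (f k))
    (hfd : ∀ k, Dep (HQ i0) (f k)) (hg : ∀ k, Continuous (g k)) (hgd : ∀ k, Dep (HQ i0) (g k)) :
    (EX μ L β fun U => ∑ k ∈ s, f k ((SR hm i0).tU U) * g k U) ^ 2 ≤
      (EX μ L β fun U => ∑ k ∈ s, f k ((SR hm i0).tU U) * f k U) *
        (EX μ L β fun U => ∑ k ∈ s, g k ((SR hm i0).tU U) * g k U) ∧
    0 ≤ EX μ L β fun U => ∑ k ∈ s, f k ((SR hm i0).tU U) * f k U := by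
  obtain ⟨w, hw⟩ : ∃ w : (Ed d (2 * m) → G) → ℝ, w = fun U => Real.exp (-(β * sS L i0 U)) :=
    ⟨_, rfl⟩
  have hwc : Continuous w := by
    rw [hw]
    exact Real.continuous_exp.comp (continuous_const.mul (sS_cont i0)).neg
  have key : ∀ a b : κ → (Ed d (2 * m) → G) → ℝ, (∀ k, Continuous (a k)) →
      (∀ k, Continuous (b k)) →
      Zt μ L β (fun U => ∑ k ∈ s, a k ((SR hm i0).tU U) * b k U) =
        ∑ k ∈ s, SB μ (SR hm i0) (fun U => b k U * w U) (fun U => a k U * w U) := by
    intro a b ha hb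
    unfold Zt SB
    have hi : ∀ k ∈ s, Integrable (fun U : Ed d (2 * m) → G =>
        b k U * w U * (a k ((SR hm i0).tU U) * w ((SR hm i0).tU U))) (ME μ (Ed d (2 * m))) :=
      fun k _ => integrable_cont μ (((hb k).mul hwc).mul
        (((ha k).comp (SR hm i0).tU_cont).mul (hwc.comp (SR hm i0).tU_cont)))
    rw [← integral_finsetSum _ hi]
    refine integral_congr_ae (Filter.Eventually.of_forall fun U => ?_)
    simp only
    rw [Finset.sum_mul, act_sS (i0 := i0) hm]
    refine Finset.sum_congr rfl fun k _ => ?_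
    have h2 : Real.exp (-(β * (sS L i0 U + sS L i0 ((SR hm i0).tU U)))) =
        w U * w ((SR hm i0).tU U) := by
      rw [hw]
      simp only
      rw [← Real.exp_add]
      congr 1; ring
    rw [h2]; ring
  have hfw : ∀ k, Dep (fun e => PP i0 e ∨ (SR hm i0).R e) fun U => f k U * w U := fun k => by
    rw [hw]; exact dep_exp hm (hfd k) β
  have hgw : ∀ k, Dep (fun e => PP i0 e ∨ (SR hm i0).R e) fun U => g k U * w U := fun k => by
    rw [hw]; exact dep_exp hm (hgd k) β
  have hfc : ∀ k, Continuous fun U => f k U * w U := fun k => (hf k).mul hwc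
  have hgc : ∀ k, Continuous fun U => g k U * w U := fun k => (hg k).mul hwc
  obtain ⟨A, hA⟩ : ∃ A, A = ∑ k ∈ s, SB μ (SR hm i0) (fun U => f k U * w U)
    (fun U => f k U * w U) := ⟨_, rfl⟩
  obtain ⟨B, hB⟩ : ∃ B, B = ∑ k ∈ s, SB μ (SR hm i0) (fun U => g k U * w U)
    (fun U => g k U * w U) := ⟨_, rfl⟩
  obtain ⟨C, hC⟩ : ∃ C, C = ∑ k ∈ s, SB μ (SR hm i0) (fun U => g k U * w U)
    (fun U => f k U * w U) := ⟨_, rfl⟩
  have hA0 : 0 ≤ A := by
    rw [hA]
    exact Finset.sum_nonneg fun k _ => SB_self μ (SR hm i0) (PP i0) PP_fix PP_th (hfc k) (hfw k)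
  have cs : C ^ 2 ≤ B * A := by
    refine Pool.Agent.H906R3.YM.sq_le_of_forall fun t => ?_
    rw [hA, hB, hC, Finset.mul_sum, Finset.mul_sum, ← Finset.sum_add_distrib,
      ← Finset.sum_add_distrib]
    exact Finset.sum_nonneg fun k _ => SB_quad μ (SR hm i0) (PP i0) PP_fix PP_th (hgc k)
      (hgw k) (hfc k) (hfw k) t
  have hZ := Zt_pos μ (L := L) (d := d) (l := 2 * m) β
  unfold EX
  rw [key f g hf hg, key f f hf hf, key g g hg hg, ← hA, ← hB, ← hC]
  constructor
  · rw [div_pow, div_mul_div_comm, pow_two (Zt μ L β _)]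
    refine div_le_div_of_nonneg_right ?_ (by positivity)
    linarith
  · exact div_nonneg hA0 hZ.le

/-- the expectation is invariant under the reflection -/
lemma EX_ref (hm : 2 ≤ m) (i0 : Fin d) (β : ℝ) (F : (Ed d (2 * m) → G) → ℝ) :
    EX μ L β (fun U => F ((SR hm i0).tU U)) = EX μ L β F := by
  have key : ∀ H : (Ed d (2 * m) → G) → ℝ, Zt μ L β (fun U => H ((SR hm i0).tU U)) =
      Zt μ L β H := by
    intro H
    unfold Zt
    rw [← (SR hm i0).integral μ (fun U => H U * Real.exp (-(β * act L U)))]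
    refine integral_congr_ae (Filter.Eventually.of_forall fun U => ?_)
    simp only
    congr 3
    rw [act_sS (i0 := i0) hm, act_sS (i0 := i0) hm, Refl.tU_tU]
    ring
  unfold EX
  rw [key F]

end

end Pool.Agent.Y15
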