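import Mathlib
import Pool.Agent.Y15.SRP

/-!
# Translations and reflections of lists of links and of fields of matrices
-/

open MeasureTheory Matrix Filter
open scoped Matrix.Norms.Frobenius
open Pool.Agent.H906R3.YM hiding Pl
open Pool.Agent.W793.YM Pool.Agent.TH618.YM

namespace Pool.Agent.Y15

set_option linter.unusedSectionVars false
set_option linter.unusedVariables false

noncomputable section

section lists

variable {d l : ℕ}

/-- translated lists -/
def sh (z : Fin d → ZMod l) (w : List (Ed d l × Bool)) : List (Ed d l × Bool) :=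
  w.map fun s => ((s.1.1 + z, s.1.2), s.2)

/-- the reflection of the sites in a plane -/
def rf (i : Fin d) (c : ZMod l) (x : Fin d → ZMod l) : Fin d → ZMod l :=
  Function.update x i (2 * c - x i)

/-- the reflection of oriented links in a plane -/
def ml (i : Fin d) (c : ZMod l) (s : Ed d l × Bool) : Ed d l × Bool :=
  if s.1.2 = i then ((rf i c (s.1.1 + eT i), i), !s.2) else ((rf i c s.1.1, s.1.2), s.2)

/-- reflected lists -/
def mr (i : Fin d) (c : ZMod l) (w : List (Ed d l × Bool)) : List (Ed d l × Bool) :=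
  w.map (ml i c)

lemma sh_append (z : Fin d → ZMod l) (w w' : List (Ed d l × Bool)) :
    sh z (w ++ w') = sh z w ++ sh z w' := List.map_append

lemma mr_append (i : Fin d) (c : ZMod l) (w w' : List (Ed d l × Bool)) :
    mr i c (w ++ w') = mr i c w ++ mr i c w' := List.map_append

lemma rev_rev (w : List (Ed d l × Bool)) : rev (rev w) = w := by
  unfold rev
  rw [List.map_reverse, List.reverse_reverse, List.map_map]
  have : ((fun s : Ed d l × Bool => (s.1, !s.2)) ∘ fun s => (s.1, !s.2)) = id := by
    funext s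
    simp
  rw [this, List.map_id]

lemma sh_rev (z : Fin d → ZMod l) (w : List (Ed d l × Bool)) : sh z (rev w) = rev (sh z w) := by
  unfold sh rev
  rw [List.map_reverse, List.map_map, List.map_map]
  rfl

lemma sh_sh (z z' : Fin d → ZMod l) (w : List (Ed d l × Bool)) :
    sh z (sh z' w) = sh (z' + z) w := by
  unfold sh
  rw [List.map_map]
  congr 1
  funext s
  simp [add_assoc]

lemma sh_zero (w : List (Ed d l × Bool)) : sh 0 w = w := by
  unfold sh
  have : (fun s : Ed d l × Bool => ((s.1.1 + 0, s.1.2), s.2)) = id := by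
    funext s; simp
  rw [this, List.map_id]

lemma length_sh (z : Fin d → ZMod l) (w : List (Ed d l × Bool)) : (sh z w).length = w.length := by
  unfold sh; rw [List.length_map]

lemma rf_same (i : Fin d) (c : ZMod l) (x : Fin d → ZMod l) : rf i c x i = 2 * c - x i := by
  unfold rf; rw [Function.update_self]

lemma rf_ne {i k : Fin d} (h : k ≠ i) (c : ZMod l) (x : Fin d → ZMod l) : rf i c x k = x k := by
  unfold rf; rw [Function.update_of_ne h]

lemma rf_rf (i : Fin d) (c : ZMod l) (x : Fin d → ZMod l) : rf i c (rf i c x) = x := by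
  funext k
  by_cases h : k = i
  · subst h; rw [rf_same, rf_same]; ring
  · rw [rf_ne h, rf_ne h]

lemma eT_same (i : Fin d) : (eT i : Fin d → ZMod l) i = 1 := by unfold eT; simp

lemma eT_ne {i k : Fin d} (h : k ≠ i) : (eT i : Fin d → ZMod l) k = 0 := by
  unfold eT; simp [h]

lemma rf_add_e (i : Fin d) (c : ZMod l) (x : Fin d → ZMod l) :
    rf i c (rf i c (x + eT i) + eT i) = x := by
  funext k
  by_cases h : k = i
  · subst h
    rw [rf_same, Pi.add_apply, rf_same, Pi.add_apply, eT_same]; ring
  · rw [rf_ne h, Pi.add_apply, rf_ne h, Pi.add_apply, eT_ne h, add_zero, add_zero]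

lemma ml_ml (i : Fin d) (c : ZMod l) (s : Ed d l × Bool) : ml i c (ml i c s) = s := by
  obtain ⟨⟨x, k⟩, b⟩ := s
  unfold ml
  by_cases h : k = i
  · subst h
    simp only [if_true, rf_add_e, Bool.not_not]
  · simp only [h, if_false, rf_rf]

lemma mr_mr (i : Fin d) (c : ZMod l) (w : List (Ed d l × Bool)) : mr i c (mr i c w) = w := by
  unfold mr
  rw [List.map_map]
  have : (ml i c ∘ ml i c : Ed d l × Bool → Ed d l × Bool) = id := by
    funext s; exact ml_ml i c s
  rw [this, List.map_id]

lemma ml_not (i : Fin d) (c : ZMod l) (s : Ed d l × Bool) :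
    ml i c (s.1, !s.2) = ((ml i c s).1, !(ml i c s).2) := by
  unfold ml
  by_cases h : s.1.2 = i
  · simp only [h, if_true]
  · simp only [h, if_false]

lemma mr_rev (i : Fin d) (c : ZMod l) (w : List (Ed d l × Bool)) :
    mr i c (rev w) = rev (mr i c w) := by
  unfold mr rev
  rw [List.map_reverse, List.map_map, List.map_map]
  congr 2
  funext s
  exact ml_not i c s

lemma rf_shift (i : Fin d) (c a : ZMod l) (x : Fin d → ZMod l) :
    rf i (c + a) x = rf i c x + (2 * a) • eT i := by
  funext k
  by_cases h : k = i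
  · subst h
    rw [rf_same, Pi.add_apply, rf_same, Pi.smul_apply, eT_same, smul_eq_mul]; ring
  · rw [rf_ne h, Pi.add_apply, rf_ne h, Pi.smul_apply, eT_ne h, smul_zero, add_zero]

lemma mr_shift (i : Fin d) (c a : ZMod l) (w : List (Ed d l × Bool)) :
    mr i (c + a) w = sh ((2 * a) • eT i) (mr i c w) := by
  unfold mr sh
  rw [List.map_map]
  congr 1
  funext s
  unfold ml
  by_cases h : s.1.2 = i
  · simp only [h, if_true, Function.comp, rf_shift]
  · simp only [h, if_false, Function.comp, rf_shift]

lemma rf_add (i : Fin d) (c : ZMod l) (x z : Fin d → ZMod l) :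
    rf i (c + z i) (x + z) = rf i c x + z := by
  funext k
  by_cases h : k = i
  · subst h
    rw [rf_same, Pi.add_apply, Pi.add_apply, rf_same]; ring
  · rw [rf_ne h, Pi.add_apply, Pi.add_apply, rf_ne h]

lemma mr_sh (i : Fin d) (c : ZMod l) (z : Fin d → ZMod l) (w : List (Ed d l × Bool)) :
    mr i (c + z i) (sh z w) = sh z (mr i c w) := by
  unfold mr sh
  rw [List.map_map, List.map_map]
  congr 1
  funext s
  unfold ml
  by_cases h : s.1.2 = i
  · simp only [h, if_true, Function.comp]
    rw [add_right_comm, rf_add]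
  · simp only [h, if_false, Function.comp]
    rw [rf_add]

lemma mem_rev {s : Ed d l × Bool} {w : List (Ed d l × Bool)} : s ∈ rev w ↔ (s.1, !s.2) ∈ w := by
  unfold rev
  rw [List.mem_reverse, List.mem_map]
  constructor
  · rintro ⟨t, ht, rfl⟩
    simpa using ht
  · intro h
    exact ⟨_, h, by simp⟩

lemma fst_rev {e : Ed d l} {w : List (Ed d l × Bool)} :
    e ∈ (rev w).map Prod.fst ↔ e ∈ w.map Prod.fst := by
  unfold rev
  rw [List.map_reverse, List.map_map, List.mem_reverse]
  rfl

/-- the reflection of the links -/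
def me (i : Fin d) (c : ZMod l) (e : Ed d l) : Ed d l := (ml i c (e, true)).1

lemma ml_fst (i : Fin d) (c : ZMod l) (s : Ed d l × Bool) : (ml i c s).1 = me i c s.1 := by
  unfold me ml
  by_cases h : s.1.2 = i
  · simp only [h, if_true]
  · simp only [h, if_false]

lemma me_me (i : Fin d) (c : ZMod l) (e : Ed d l) : me i c (me i c e) = e := by
  have h1 := ml_ml i c (e, true)
  have h2 := congrArg Prod.fst h1
  rw [ml_fst, ml_fst] at h2
  exact h2

lemma fst_mr {i : Fin d} {c : ZMod l} {e : Ed d l} {w : List (Ed d l × Bool)} :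
    e ∈ (mr i c w).map Prod.fst ↔ me i c e ∈ w.map Prod.fst := by
  unfold mr
  rw [List.map_map]
  simp only [List.mem_map, Function.comp]
  constructor
  · rintro ⟨s, hs, rfl⟩
    exact ⟨s, hs, by rw [ml_fst, me_me]⟩
  · rintro ⟨s, hs, h⟩
    exact ⟨s, hs, by rw [ml_fst, h, me_me]⟩

lemma fst_sh {z : Fin d → ZMod l} {e : Ed d l} {w : List (Ed d l × Bool)} :
    e ∈ (sh z w).map Prod.fst ↔ (e.1 - z, e.2) ∈ w.map Prod.fst := by
  unfold sh
  rw [List.map_map]
  simp only [List.mem_map, Function.comp]
  constructor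
  · rintro ⟨s, hs, rfl⟩
    exact ⟨s, hs, by simp⟩
  · rintro ⟨s, hs, h⟩
    refine ⟨s, hs, ?_⟩
    rw [h]; simp

lemma ND_sh {z : Fin d → ZMod l} {w : List (Ed d l × Bool)} (h : ND w) : ND (sh z w) := by
  unfold ND sh at *
  rw [List.map_map]
  have e : (Prod.fst ∘ fun s : Ed d l × Bool => ((s.1.1 + z, s.1.2), s.2)) =
      (fun e : Ed d l => (e.1 + z, e.2)) ∘ Prod.fst := rfl
  rw [e, ← List.map_map]
  refine h.map fun a b hab => ?_
  simp only [Prod.mk.injEq, add_left_inj] at hab
  exact Prod.ext hab.1 hab.2

lemma ND_mr {i : Fin d} {c : ZMod l} {w : List (Ed d l × Bool)} (h : ND w) : ND (mr i c w) := by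
  unfold ND mr at *
  rw [List.map_map]
  have e : (Prod.fst ∘ ml i c : Ed d l × Bool → Ed d l) = me i c ∘ Prod.fst := by
    funext s
    exact ml_fst i c s
  rw [e, ← List.map_map]
  refine h.map fun a b hab => ?_
  rw [← me_me i c a, hab, me_me]

lemma ND_rev {w : List (Ed d l × Bool)} (h : ND w) : ND (rev w) := by
  unfold ND rev at *
  rw [List.map_reverse, List.map_map, List.nodup_reverse]
  exact h

/-! ### paths -/

lemma isP_sh {p q z : Fin d → ZMod l} {w : List (Ed d l × Bool)} (h : isP p w q) :
    isP (p + z) (sh z w) (q + z) := by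
  induction w generalizing p with
  | nil =>
    unfold isP at h
    subst h
    rfl
  | cons s w ih =>
    unfold isP at h
    show isP (p + z) (((s.1.1 + z, s.1.2), s.2) :: sh z w) (q + z)
    unfold isP
    split_ifs at h ⊢
    · refine ⟨by rw [h.1], ?_⟩
      have := ih h.2
      rwa [add_right_comm] at this
    · refine ⟨by rw [← h.1]; simp only; abel, ?_⟩
      exact ih h.2

lemma isP_mr {i : Fin d} {c : ZMod l} {p q : Fin d → ZMod l} {w : List (Ed d l × Bool)}
    (h : isP p w q) : isP (rf i c p) (mr i c w) (rf i c q) := by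
  induction w generalizing p with
  | nil =>
    unfold isP at h
    subst h
    rfl
  | cons s w ih =>
    obtain ⟨⟨x, k⟩, b⟩ := s
    unfold isP at h
    show isP (rf i c p) (ml i c ((x, k), b) :: mr i c w) (rf i c q)
    have hx : ∀ y : Fin d → ZMod l, rf i c (y + eT i) + eT i = rf i c y := fun y => by
      have h1 := rf_add_e i c y
      rw [← rf_rf i c (rf i c (y + eT i) + eT i), h1]
    have hk : ∀ y : Fin d → ZMod l, k ≠ i → rf i c (y + eT k) = rf i c y + eT k := by
      intro y hki
      have h1 := rf_add i c y (eT k)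
      rw [eT_ne hki.symm, add_zero] at h1
      exact h1
    by_cases hki : k = i
    · subst hki
      unfold ml
      simp only [if_true]
      cases b
      · simp only [Bool.false_eq_true, if_false] at h
        unfold isP
        simp only [Bool.not_false, if_true]
        refine ⟨by rw [h.1], ?_⟩
        have := ih h.2
        rw [← h.1, hx]
        exact this
      · simp only [if_true] at h
        unfold isP
        simp only [Bool.not_true, Bool.false_eq_true, if_false]
        refine ⟨by rw [hx, h.1], ?_⟩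
        have := ih h.2
        rw [h.1]
        exact this
    · unfold ml
      simp only [hki, if_false]
      cases b
      · simp only [Bool.false_eq_true, if_false] at h
        unfold isP
        simp only [Bool.false_eq_true, if_false]
        exact ⟨by rw [← hk _ hki, h.1], ih h.2⟩
      · simp only [if_true] at h
        unfold isP
        simp only [if_true]
        refine ⟨by rw [h.1], ?_⟩
        have := ih h.2
        rw [← hk _ hki]
        exact this

end lists

/-! ### fields of matrices -/

section fields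

variable {d l N : ℕ} [NeZero l]

/-- the translated field -/
def trM (z : Fin d → ZMod l) (M : Ed d l → Mat N) : Ed d l → Mat N := fun e => M (e.1 + z, e.2)

/-- the reflected field -/
def thM (i : Fin d) (M : Ed d l → Mat N) : Ed d l → Mat N := fun e =>
  if e.2 = i then (M (rf i 0 (e.1 + eT i), i))ᴴ else M (rf i 0 e.1, e.2)

lemma pv_rev (M : Ed d l → Mat N) (w : List (Ed d l × Bool)) : pv M (rev w) = (pv M w)ᴴ := by
  induction w with
  | nil => rw [rev_nil, pv_nil, conjTranspose_one]
  | cons s w ih =>
    rw [rev_cons, pv_append, ih, pv_cons, pv_cons, pv_nil, mul_one, conjTranspose_mul]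
    congr 1
    cases s.2
    · simp
    · simp

lemma pv_trM (z : Fin d → ZMod l) (M : Ed d l → Mat N) (w : List (Ed d l × Bool)) :
    pv (trM z M) w = pv M (sh z w) := by
  induction w with
  | nil => rfl
  | cons s w ih =>
    have : sh z (s :: w) = ((s.1.1 + z, s.1.2), s.2) :: sh z w := rfl
    rw [this, pv_cons, pv_cons, ih]
    rfl

lemma pv_thM (i : Fin d) (M : Ed d l → Mat N) (w : List (Ed d l × Bool)) :
    pv (thM i M) w = pv M (mr i 0 w) := by
  induction w with
  | nil => rfl
  | cons s w ih =>
    have : mr i 0 (s :: w) = ml i 0 s :: mr i 0 w := rfl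
    rw [this, pv_cons, pv_cons, ih]
    congr 1
    unfold ml thM
    by_cases h : s.1.2 = i
    · simp only [h, if_true]
      cases s.2
      · simp
      · simp
    · simp only [h, if_false]

lemma thM_add (i : Fin d) (M M' : Ed d l → Mat N) : thM i (M + M') = thM i M + thM i M' := by
  funext e
  simp only [thM, Pi.add_apply]
  split_ifs
  · rw [conjTranspose_add]
  · rfl

lemma trM_add (z : Fin d → ZMod l) (M M' : Ed d l → Mat N) :
    trM z (M + M') = trM z M + trM z M' := rfl

end fields

/-! ### reflections and translations of the configurations -/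

variable {G : Type*} [Group G] [TopologicalSpace G]
  [IsTopologicalGroup G] [CompactSpace G] [SecondCountableTopology G] [MeasurableSpace G]
  [BorelSpace G] (μ : Measure G) [IsProbabilityMeasure μ] [μ.IsMulLeftInvariant]
  [μ.IsMulRightInvariant] [μ.IsInvInvariant] {N n : ℕ} {L : LD G N n}
  {d m : ℕ} [NeZero m]

lemma rf_rB (i : Fin d) (x : Fin d → ZMod (2 * m)) : rB i x = rf i 0 x := by
  unfold rB rf
  rw [mul_zero, zero_sub]

lemma rf_rC (i : Fin d) (x : Fin d → ZMod (2 * m)) : rC i x = rf i 0 (x + eT i) := by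
  funext k
  by_cases h : k = i
  · subst h
    rw [rC_same, rf_same, Pi.add_apply, eT_same]; ring
  · rw [rf_ne h, Pi.add_apply, eT_ne h, add_zero]
    unfold rC
    rw [Function.update_of_ne h]

lemma mat_ref (hm : 2 ≤ m) (i : Fin d) (U : Ed d (2 * m) → G) :
    L.mat ((SR hm i).tU U) = thM i (L.mat U) := by
  funext e
  obtain ⟨x, k⟩ := e
  unfold thM LD.mat
  by_cases h : k = i
  · subst h
    simp only [if_true]
    rw [sU_i0, L.rho_inv, rf_rC]
  · simp only [h, if_false]
    rw [sU_ne _ _ h, rf_rB]

lemma mat_tr {l : ℕ} (z : Fin d → ZMod l) (U : Ed d l → G) : L.mat (tr z U) = trM z (L.mat U) :=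
  rfl

lemma tr_ref (hm : 2 ≤ m) (i : Fin d) (z : Fin d → ZMod (2 * m)) (U : Ed d (2 * m) → G) :
    (SR hm i).tU (tr z U) = tr (rf i 0 z) ((SR hm i).tU U) := by
  funext e
  obtain ⟨x, k⟩ := e
  have hz : rf i 0 (rf i 0 z) = z := rf_rf i 0 z
  have h1 : ∀ y : Fin d → ZMod (2 * m), rf i 0 y + z = rf i 0 (y + rf i 0 z) := by
    intro y
    funext j
    by_cases h : j = i
    · subst h
      rw [Pi.add_apply, rf_same, rf_same, Pi.add_apply, rf_same]; ring
    · rw [Pi.add_apply, rf_ne h, rf_ne h, Pi.add_apply, rf_ne h]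
  show _ = (SR hm i).tU U (x + rf i 0 z, k)
  by_cases h : k = i
  · subst h
    rw [sU_i0, sU_i0]
    show (U (rC k x + z, k))⁻¹ = _
    rw [rf_rC, rf_rC, h1, add_right_comm]
  · rw [sU_ne _ _ h, sU_ne _ _ h]
    show U (rB i x + z, k) = _
    rw [rf_rB, rf_rB, h1]

end

end Pool.Agent.Y15
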