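import Mathlib
import Pool.Agent.Y15.Lst

/-!
# Pairs of ordered products with common Gaussian noise
-/

open MeasureTheory Matrix Filter
open scoped Matrix.Norms.Frobenius
open Pool.Agent.H906R3.YM hiding Pl
open Pool.Agent.W793.YM Pool.Agent.TH618.YM

namespace Pool.Agent.Y15

set_option linter.unusedSectionVars false
set_option linter.unusedVariables false

noncomputable section

section ge

variable {κ : Type*} [Fintype κ]

lemma GE_perm (e : κ ≃ κ) (b : ℝ) (f : (κ → ℝ) → ℝ) :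
    GE b (fun h => f (fun i => h (e i))) = GE b f := by
  have h1 := measurePreserving_piCongrLeft (fun _ : κ => (volume : Measure ℝ)) e.symm
  have h2 : ((MeasurableEquiv.piCongrLeft (fun _ : κ => ℝ) e.symm) : (κ → ℝ) → (κ → ℝ)) =
      fun h i => h (e i) := by
    funext h i
    have h6 : i = e.symm (e i) := by simp
    conv_lhs => rw [h6]
    exact Equiv.piCongrLeft_apply_apply (fun _ : κ => ℝ) e.symm h (e i)
  have h3 := h1.integral_comp (MeasurableEquiv.measurableEmbedding _) (fun h => f h * gw b h)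
  rw [h2] at h3
  unfold GE
  congr 1
  have h5 : (Measure.pi fun _ : κ => (volume : Measure ℝ)) = volume := rfl
  rw [h5] at h3
  rw [← h3]
  refine integral_congr_ae (Filter.Eventually.of_forall fun h => ?_)
  simp only
  congr 1
  unfold gw
  congr 3
  exact (Equiv.sum_comp e fun i => h i ^ 2).symm

lemma GE_odd (p : κ → Prop) [DecidablePred p] {b : ℝ} {f : (κ → ℝ) → ℝ}
    (h : ∀ x, f (flp p x) = -f x) : GE b f = 0 := by
  have e1 := GE_flp p b f
  simp only [h] at e1
  have e2 := GE_cmul (b := b) (-1) f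
  simp only [neg_mul, one_mul] at e2
  rw [e2] at e1
  linarith

end ge

section gm

variable {κ : Type*} [Fintype κ] {N : ℕ}

lemma ip_sum_co (A B : Mat N) : ip A B = ∑ c, co c A * co c B := by
  have h := sum_co_sq (A + B)
  have h1 := sum_co_sq A
  have h2 := sum_co_sq B
  have e : ∀ M : Mat N, (trace (Mᴴ * M)).re = ip M M := fun M => rfl
  rw [e] at h h1 h2
  rw [ip_add_left, map_add, map_add, ip_comm B A, ← h1, ← h2] at h
  have h3 : ∑ c, co c (A + B) ^ 2 = ∑ c, co c A ^ 2 + ∑ c, co c B ^ 2 +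
      2 * ∑ c, co c A * co c B := by
    rw [Finset.mul_sum, ← Finset.sum_add_distrib, ← Finset.sum_add_distrib]
    refine Finset.sum_congr rfl fun c _ => ?_
    rw [map_add]; ring
  rw [h3] at h
  linarith

/-- the Gaussian average of a function with values in the matrices -/
def GM (b : ℝ) (F : (κ → ℝ) → Mat N) : Mat N :=
  fun i j => ⟨GE b fun h => (F h i j).re, GE b fun h => (F h i j).im⟩

lemma co_GM (b : ℝ) (F : (κ → ℝ) → Mat N) (c : Cx N) :
    co c (GM b F) = GE b fun h => co c (F h) := by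
  obtain ⟨i, j, s⟩ := c
  cases s <;> rfl

lemma GM_add {b : ℝ} (hb : 0 < b) {F H : (κ → ℝ) → Mat N} (hF : EM F) (hH : EM H) :
    GM b (fun h => F h + H h) = GM b F + GM b H := by
  refine mat_ext fun c => ?_
  rw [map_add, co_GM, co_GM, co_GM]
  simp only [map_add]
  exact GE_add hb (hF c) (hH c)

lemma GM_const {b : ℝ} (hb : 0 < b) (A : Mat N) : GM b (fun _ : κ → ℝ => A) = A := by
  refine mat_ext fun c => ?_
  rw [co_GM, GE_const hb]

lemma ip_GM {b : ℝ} (hb : 0 < b) {F : (κ → ℝ) → Mat N} (hF : EM F) (B : Mat N) :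
    ip (GM b F) B = GE b fun h => ip (F h) B := by
  simp only [ip_sum_co, co_GM]
  rw [GE_sum hb _ fun c _ => (congrArg EG (funext fun h => mul_comm _ _)).mp ((hF c).cmul (co c B))]
  refine Finset.sum_congr rfl fun c _ => ?_
  rw [mul_comm, ← GE_cmul]
  congr 1
  funext h
  ring

/-- the unit matrices -/
def Eb (c : Cx N) : Mat N := fun i j =>
  if i = c.1 ∧ j = c.2.1 then (if c.2.2 then 1 else Complex.I) else 0

lemma co_Eb (c c' : Cx N) : co c (Eb c') = if c = c' then 1 else 0 := by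
  obtain ⟨i, j, s⟩ := c
  obtain ⟨i', j', s'⟩ := c'
  rw [co_def]
  unfold Eb
  by_cases h : i = i' ∧ j = j'
  · obtain ⟨rfl, rfl⟩ := h
    cases s <;> cases s' <;> simp
  · have h2 : ¬((i, j, s) = (i', j', s')) := fun h3 => by
      simp only [Prod.mk.injEq] at h3
      exact h ⟨h3.1, h3.2.1⟩
    rw [if_neg h2]
    simp only [h, if_false]
    cases s <;> simp

lemma exp_Eb (Z : Mat N) : Z = ∑ c, co c Z • Eb c := by
  refine mat_ext fun c => ?_
  rw [map_sum]
  simp only [map_smul, co_Eb, smul_eq_mul, mul_ite, mul_one, mul_zero]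
  rw [Finset.sum_ite_eq]
  simp

lemma EM_mul3 {X Z Y : (κ → ℝ) → Mat N} (hX : EM X) (hZ : EM Z) (hY : EM Y) :
    EM fun h => X h * Z h * (Y h)ᴴ := (hX.mul hZ).mul hY.ct

lemma co_mul3 (X Z Y : Mat N) (c : Cx N) :
    co c (X * Z * Yᴴ) = ∑ c', co c' Z * co c (X * Eb c' * Yᴴ) := by
  conv_lhs => rw [exp_Eb Z]
  rw [Finset.mul_sum, Finset.sum_mul, map_sum]
  refine Finset.sum_congr rfl fun c' _ => ?_
  rw [mul_smul_comm, smul_mul_assoc, map_smul, smul_eq_mul]

/-- independence -/
lemma GM_indep (p : κ → Prop) {b : ℝ} (hb : 0 < b) {X Z Y : (κ → ℝ) → Mat N} (hX : EM X)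
    (hZ : EM Z) (hY : EM Y) (dX : Dp p X) (dY : Dp p Y) (dZ : Dp (fun i => ¬p i) Z) :
    GM b (fun h => X h * Z h * (Y h)ᴴ) = GM b (fun h => X h * GM b Z * (Y h)ᴴ) := by
  refine mat_ext fun c => ?_
  rw [co_GM, co_GM]
  simp only [co_mul3 (X _) (Z _), co_mul3 (X _) (GM b Z)]
  have h1 : ∀ c', EG fun h => co c (X h * Eb c' * (Y h)ᴴ) := fun c' =>
    EM_mul3 hX (EM.const (Eb c')) hY c
  rw [GE_sum hb _ fun c' _ => (hZ c').mul (h1 c'),
    GE_sum hb _ fun c' _ => (h1 c').cmul (co c' (GM b Z))]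
  refine Finset.sum_congr rfl fun c' _ => ?_
  rw [GE_cmul, co_GM]
  have h2 : GE b (fun h => co c' (Z h) * co c (X h * Eb c' * (Y h)ᴴ)) =
      GE b (fun h => co c (X h * Eb c' * (Y h)ᴴ) * co c' (Z h)) := by
    congr 1; funext h; ring
  rw [h2, GE_indep p hb (A := fun h => co c (X h * Eb c' * (Y h)ᴴ)) (B := fun h => co c' (Z h))
    (fun h h' hh => by simp only; rw [dX h h' hh, dY h h' hh])
    (fun h h' hh => by simp only; rw [dZ h h' hh])]
  ring

lemma ip_mul3 (X A Y B : Mat N) : ip (X * A * Yᴴ) B = ip A (Xᴴ * B * Y) := by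
  rw [ip_apply, ip_apply, conjTranspose_mul, conjTranspose_mul, conjTranspose_conjTranspose,
    mul_assoc Y, trace_mul_comm Y]
  simp only [mul_assoc]

lemma norm_mul3 (X A Y : Mat N) : ‖X * A * Yᴴ‖ ≤ ‖X‖ * ‖A‖ * ‖Y‖ := by
  refine (Matrix.frobenius_norm_mul _ _).trans ?_
  rw [norm_ct]
  exact mul_le_mul_of_nonneg_right (Matrix.frobenius_norm_mul _ _) (norm_nonneg _)

/-- the norm of an average of products -/
lemma norm_GM3 {b : ℝ} (hb : 0 < b) {X Y : (κ → ℝ) → Mat N} (hX : EM X) (hY : EM Y) (A : Mat N)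
    {C : ℝ} (h1 : GE b (fun h => ‖X h‖ ^ 2) ≤ C) (h2 : GE b (fun h => ‖Y h‖ ^ 2) ≤ C) :
    ‖GM b (fun h => X h * A * (Y h)ᴴ)‖ ≤ C * ‖A‖ := by
  obtain ⟨Z, hZ⟩ : ∃ Z, Z = GM b (fun h => X h * A * (Y h)ᴴ) := ⟨_, rfl⟩
  have hE : EM fun h => X h * A * (Y h)ᴴ := EM_mul3 hX (EM.const A) hY
  have e1 : ‖Z‖ ^ 2 = GE b fun h => ip (X h * A * (Y h)ᴴ) Z := by
    rw [norm_sq_ip]
    conv_lhs => rw [hZ]
    rw [← hZ]
    exact hZ ▸ ip_GM hb hE _
  have hq : EG fun h => 1 / 2 * (‖A‖ * ‖Z‖) * (‖X h‖ ^ 2 + ‖Y h‖ ^ 2) :=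
    (hX.nsq.add hY.nsq).cmul _
  have hl : EG fun h => ip (X h * A * (Y h)ᴴ) Z := by
    simp only [ip_sum_co]
    refine EG.sum _ fun c _ => ?_
    exact (congrArg EG (funext fun h => mul_comm _ _)).mp ((hE c).cmul (co c Z))
  have e2 : GE b (fun h => ip (X h * A * (Y h)ᴴ) Z) ≤
      GE b (fun h => 1 / 2 * (‖A‖ * ‖Z‖) * (‖X h‖ ^ 2 + ‖Y h‖ ^ 2)) := by
    refine GE_mono hb hl hq fun h => ?_
    refine (le_abs_self _).trans ((abs_ip_le _ _).trans ?_)
    have f1 := norm_mul3 (X h) A (Y h)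
    have f2 : ‖X h‖ * ‖Y h‖ ≤ 1 / 2 * (‖X h‖ ^ 2 + ‖Y h‖ ^ 2) := by
      nlinarith [sq_nonneg (‖X h‖ - ‖Y h‖)]
    calc ‖X h * A * (Y h)ᴴ‖ * ‖Z‖ ≤ ‖X h‖ * ‖A‖ * ‖Y h‖ * ‖Z‖ :=
          mul_le_mul_of_nonneg_right f1 (norm_nonneg _)
      _ = (‖A‖ * ‖Z‖) * (‖X h‖ * ‖Y h‖) := by ring
      _ ≤ (‖A‖ * ‖Z‖) * (1 / 2 * (‖X h‖ ^ 2 + ‖Y h‖ ^ 2)) :=
          mul_le_mul_of_nonneg_left f2 (mul_nonneg (norm_nonneg _) (norm_nonneg _))
      _ = _ := by ring
  rw [GE_cmul, GE_add hb hX.nsq hY.nsq] at e2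
  have e3 : ‖Z‖ ^ 2 ≤ C * ‖A‖ * ‖Z‖ := by
    rw [e1]
    refine e2.trans ?_
    have f1 : 0 ≤ 1 / 2 * (‖A‖ * ‖Z‖) := by positivity
    have f2 := mul_le_mul_of_nonneg_left (add_le_add h1 h2) f1
    refine f2.trans (le_of_eq ?_)
    ring
  rw [← hZ]
  rcases (norm_nonneg Z).eq_or_lt with h | h
  · rw [← h]
    have hC : 0 ≤ C := (GE_nonneg hb fun h => sq_nonneg _).trans h1
    positivity
  · rw [pow_two] at e3
    exact le_of_mul_le_mul_right e3 h

end gm

section cn

variable {E : Type*} [Fintype E] [DecidableEq E] {N : ℕ}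

/-- the coordinates of a field -/
def xm (M : E → Mat N) : E × Cx N → ℝ := fun i => co i.2 (M i.1)

lemma mt_xm (M : E → Mat N) : mt (xm M) = M := by
  funext e
  exact mat_ext fun c => by rw [co_mt]; rfl

lemma mt_add' (x h : E × Cx N → ℝ) : mt (x + h) = mt x + mt h := by
  funext e
  exact mt_add x h e

/-- a pair of ordered products, with or without noise -/
def cn (b : ℝ) (s : Bool) (M : E → Mat N) (l l' : List (E × Bool)) (A : Mat N) : Mat N :=
  if s then GM b (fun h => pv (M + mt h) l * A * (pv (M + mt h) l')ᴴ)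
  else pv M l * A * (pv M l')ᴴ

lemma cn_false (b : ℝ) (M : E → Mat N) (l l' : List (E × Bool)) (A : Mat N) :
    cn b false M l l' A = pv M l * A * (pv M l')ᴴ := rfl

lemma cn_true (b : ℝ) (M : E → Mat N) (l l' : List (E × Bool)) (A : Mat N) :
    cn b true M l l' A = GM b (fun h => pv (M + mt h) l * A * (pv (M + mt h) l')ᴴ) := rfl

lemma EM_pvn (M : E → Mat N) (l : List (E × Bool)) :
    EM fun h : E × Cx N → ℝ => pv (M + mt h) l :=
  EM.pv (fun e => (EM.const (M e)).add (EM.mt e)) l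

lemma EM_cn (M : E → Mat N) (l l' : List (E × Bool)) (A : Mat N) :
    EM fun h : E × Cx N → ℝ => pv (M + mt h) l * A * (pv (M + mt h) l')ᴴ :=
  EM_mul3 (EM_pvn M l) (EM.const A) (EM_pvn M l')

lemma cn_add {b : ℝ} (hb : 0 < b) (s : Bool) (M : E → Mat N) (l l' : List (E × Bool))
    (A B : Mat N) : cn b s M l l' (A + B) = cn b s M l l' A + cn b s M l l' B := by
  cases s
  · rw [cn_false, cn_false, cn_false, mul_add, add_mul]
  · rw [cn_true, cn_true, cn_true, ← GM_add hb (EM_cn M l l' A) (EM_cn M l l' B)]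
    congr 1
    funext h
    rw [mul_add, add_mul]

lemma cn_smul (b : ℝ) (s : Bool) (M : E → Mat N) (l l' : List (E × Bool)) (c : ℝ)
    (A : Mat N) : cn b s M l l' (c • A) = c • cn b s M l l' A := by
  cases s
  · rw [cn_false, cn_false, mul_smul_comm, smul_mul_assoc]
  · rw [cn_true, cn_true]
    refine mat_ext fun k => ?_
    rw [map_smul, co_GM, co_GM, smul_eq_mul, ← GE_cmul]
    congr 1
    funext h
    rw [mul_smul_comm, smul_mul_assoc, map_smul, smul_eq_mul]

lemma cn_zero (b : ℝ) (s : Bool) (M : E → Mat N) (l l' : List (E × Bool)) :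
    cn b s M l l' 0 = 0 := by
  have := cn_smul b s M l l' 0 0
  rwa [zero_smul, zero_smul] at this

lemma cn_sum {b : ℝ} (hb : 0 < b) (s : Bool) (M : E → Mat N) (l l' : List (E × Bool))
    {ι : Type*} (t : Finset ι) (A : ι → Mat N) :
    cn b s M l l' (∑ i ∈ t, A i) = ∑ i ∈ t, cn b s M l l' (A i) := by
  classical
  induction t using Finset.induction_on with
  | empty => simp [cn_zero]
  | insert a t ha ih =>
    rw [Finset.sum_insert ha, Finset.sum_insert ha, cn_add hb, ih]

lemma cn_congr (b : ℝ) (s : Bool) {M M' : E → Mat N} {l l' : List (E × Bool)} (A : Mat N)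
    (h : ∀ t ∈ l, M t.1 = M' t.1) (h' : ∀ t ∈ l', M t.1 = M' t.1) :
    cn b s M l l' A = cn b s M' l l' A := by
  cases s
  · rw [cn_false, cn_false, pv_congr h, pv_congr h']
  · rw [cn_true, cn_true]
    congr 1
    funext x
    rw [pv_congr (M := M + mt x) (M' := M' + mt x) (l := l)
      (fun t ht => by rw [Pi.add_apply, Pi.add_apply, h t ht]),
      pv_congr (M := M + mt x) (M' := M' + mt x) (l := l')
      (fun t ht => by rw [Pi.add_apply, Pi.add_apply, h' t ht])]

/-- composition -/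
lemma cn_append {b : ℝ} (hb : 0 < b) (s : Bool) (M : E → Mat N) {l1 l2 l1' l2' : List (E × Bool)}
    (P : E → Prop) (h1 : ∀ t ∈ l1, P t.1) (h1' : ∀ t ∈ l1', P t.1) (h2 : ∀ t ∈ l2, ¬P t.1)
    (h2' : ∀ t ∈ l2', ¬P t.1) (A : Mat N) :
    cn b s M (l1 ++ l2) (l1' ++ l2') A = cn b s M l1 l1' (cn b s M l2 l2' A) := by
  cases s
  · rw [cn_false, cn_false, cn_false, pv_append, pv_append, conjTranspose_mul]
    simp only [mul_assoc]
  · rw [cn_true, cn_true, cn_true]
    have e1 := GM_indep (fun i : E × Cx N => P i.1) hb (EM_pvn M l1)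
      (EM_cn M l2 l2' A) (EM_pvn M l1') (fun h h' hh => ?_) (fun h h' hh => ?_)
      (fun h h' hh => ?_)
    · rw [← e1]
      congr 1
      funext h
      rw [pv_append, pv_append, conjTranspose_mul]
      simp only [mul_assoc]
    · refine pv_congr fun t ht => ?_
      rw [Pi.add_apply, Pi.add_apply, mt_congr fun c => hh (t.1, c) (h1 t ht)]
    · refine pv_congr fun t ht => ?_
      rw [Pi.add_apply, Pi.add_apply, mt_congr fun c => hh (t.1, c) (h1' t ht)]
    · rw [pv_congr (M := M + mt h) (M' := M + mt h') (l := l2) (fun t ht => by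
        rw [Pi.add_apply, Pi.add_apply, mt_congr fun c => hh (t.1, c) (h2 t ht)]),
        pv_congr (M := M + mt h) (M' := M + mt h') (l := l2') (fun t ht => by
        rw [Pi.add_apply, Pi.add_apply, mt_congr fun c => hh (t.1, c) (h2' t ht)])]

/-! ### the effect of the noise -/

lemma mom_upd {b : ℝ} (hb : 0 < b) {x : E × Cx N → ℝ} {K : ℕ} {l : List (E × Bool)} (hl : ND l)
    (hK : l.length ≤ K) (hx : ∀ e R, ‖mt x e * R‖ ^ 2 ≤ ‖R‖ ^ 2)
    (hx' : ∀ e R, ‖(mt x e)ᴴ * R‖ ^ 2 ≤ ‖R‖ ^ 2) {c : ℝ}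
    (hc : c = (Fintype.card (Cx N) : ℝ) * (1 / (2 * b))) {e : E} {s : Finset E}
    (hei : e ∈ l.map Prod.fst) :
    GE b (fun h => ‖pv (Function.update (mt (x + hs s h)) e (mt h e)) l‖ ^ 2) ≤
      N * (c * (1 + c) ^ K) := by
  have hc0 : 0 ≤ c := by rw [hc]; positivity
  have h4 := pv_moment (N := N) hb (fun e' => if e' = e then (0 : Mat N) else mt x e')
    (fun e' => if e' = e then 1 else if e' ∈ s then (1 : ℝ) else 0)
    (fun e' => if e' = e then 0 else 1)
    (fun e' R => by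
      split_ifs
      · simp
      · rw [one_mul]; exact hx e' R)
    (fun e' R => by
      split_ifs
      · simp
      · rw [one_mul]; exact hx' e' R)
    (fun e' => by split_ifs <;> norm_num) l hl
  have h5 : (fun h : E × Cx N → ℝ =>
      ‖pv (Function.update (mt (x + hs s h)) e (mt h e)) l‖ ^ 2) = fun h =>
      ‖pv (fun e' => (if e' = e then (0 : Mat N) else mt x e') +
        (if e' = e then 1 else if e' ∈ s then (1 : ℝ) else 0) • mt h e') l‖ ^ 2 := by
    funext h
    congr 2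
    refine pv_congr fun t _ => ?_
    by_cases ht : t.1 = e
    · rw [ht, Function.update_self]; simp
    · rw [Function.update_of_ne ht, mt_fld]; simp [ht]
  rw [h5]
  refine h4.trans ?_
  rw [← hc]
  refine mul_le_mul_of_nonneg_left ?_ (Nat.cast_nonneg _)
  have h6 : (l.map fun t => (if t.1 = e then (0 : ℝ) else 1) +
      (if t.1 = e then 1 else if t.1 ∈ s then (1 : ℝ) else 0) ^ 2 * c).prod ≤
      (l.map fun t => (1 + c) * (if t.1 = e then c else 1)).prod := by
    refine List.prod_map_le_prod_map₀ _ _ (fun t _ => ?_) fun t _ => ?_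
    · split_ifs <;> positivity
    · split_ifs
      · nlinarith
      · nlinarith
      · nlinarith
  refine h6.trans ?_
  rw [List.prod_map_mul, prod_one hl hei, List.map_const', List.prod_replicate, mul_comm]
  refine mul_le_mul_of_nonneg_left ?_ hc0
  exact pow_le_pow_right₀ (by linarith) hK

/-- the common links -/
def cm (l l' : List (E × Bool)) : Finset E := (l.map Prod.fst).toFinset ∩ (l'.map Prod.fst).toFinset

lemma mem_cm {l l' : List (E × Bool)} {e : E} :
    e ∈ cm l l' ↔ e ∈ l.map Prod.fst ∧ e ∈ l'.map Prod.fst := by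
  unfold cm
  rw [Finset.mem_inter, List.mem_toFinset, List.mem_toFinset]

/-- **The noise acts through the common links.** -/
theorem cn_diff {b : ℝ} (hb : 0 < b) {M : E → Mat N} {K : ℕ} {l l' : List (E × Bool)} (hl : ND l)
    (hl' : ND l') (hK : l.length ≤ K) (hK' : l'.length ≤ K)
    (hx : ∀ e R, ‖M e * R‖ ^ 2 ≤ ‖R‖ ^ 2) (hx' : ∀ e R, ‖(M e)ᴴ * R‖ ^ 2 ≤ ‖R‖ ^ 2) {c : ℝ}
    (hc : c = (Fintype.card (Cx N) : ℝ) * (1 / (2 * b))) (A : Mat N) :
    ‖cn b true M l l' A - cn b false M l l' A‖ ≤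
      N * (c * (1 + c) ^ K) * (cm l l').card * ‖A‖ := by
  obtain ⟨x, hxM⟩ : ∃ x : E × Cx N → ℝ, mt x = M := ⟨xm M, mt_xm M⟩
  subst hxM
  obtain ⟨κ, hκ⟩ : ∃ κ : ℝ, κ = N * (c * (1 + c) ^ K) := ⟨_, rfl⟩
  have hc0 : 0 ≤ c := by rw [hc]; positivity
  have hκ0 : 0 ≤ κ := by rw [hκ]; positivity
  obtain ⟨Γ, hΓ⟩ : ∃ Γ : Finset E → Mat N, Γ = fun s =>
    GM b (fun h => pv (mt (x + hs s h)) l * A * (pv (mt (x + hs s h)) l')ᴴ) := ⟨_, rfl⟩
  have hEf : ∀ (s : Finset E) (w : List (E × Bool)), EM fun h : E × Cx N → ℝ =>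
      pv (mt (x + hs s h)) w := fun s w => EM.pv (fun e => EM_fld x s e) w
  have hEu : ∀ (s : Finset E) (e : E) (w : List (E × Bool)), EM fun h : E × Cx N → ℝ =>
      pv (Function.update (mt (x + hs s h)) e (mt h e)) w := fun s e w =>
    EM.pv (fun e' => EM_upd x s e e') w
  have hstep : ∀ (s : Finset E) (w : List (E × Bool)), ND w → ∀ e, e ∉ s →
      ∀ h : E × Cx N → ℝ, pv (mt (x + hs (insert e s) h)) w = pv (mt (x + hs s h)) w +
        (if e ∈ w.map Prod.fst then pv (Function.update (mt (x + hs s h)) e (mt h e)) w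
          else 0) := by
    intro s w hw e he h
    have h1 : mt (x + hs (insert e s) h) = mt (x + hs s h) + mt (hs {e} h) := by
      funext e'
      rw [Pi.add_apply, mt_fld, mt_fld, mt_hs, add_assoc, ← add_smul]
      congr 2
      by_cases h1 : e' = e
      · subst h1; simp [he]
      · simp [h1]
    have h2 : ∀ e', e' ≠ e → mt (hs {e} h) e' = 0 := fun e' he' => by
      rw [mt_hs]; simp [he']
    have h3 : mt (hs {e} h) e = mt h e := by rw [mt_hs]; simp
    rw [h1, pv_add h2 hw, h3]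
  have hupd_flip : ∀ (s : Finset E) (w : List (E × Bool)), ND w → ∀ e, e ∉ s →
      e ∈ w.map Prod.fst → ∀ h : E × Cx N → ℝ,
      pv (Function.update (mt (x + hs s (flp (fun i => i.1 = e) h))) e
        (mt (flp (fun i => i.1 = e) h) e)) w =
      -pv (Function.update (mt (x + hs s h)) e (mt h e)) w := by
    intro s w hw e he hew h
    rw [flip_fld x he, flip_mt, pv_update_neg hw hew]
  have hins : ∀ s e, e ∉ s → ‖Γ (insert e s) - Γ s‖ ≤
      if e ∈ cm l l' then κ * ‖A‖ else 0 := by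
    intro s e he
    -- the decomposition
    have hdec : Γ (insert e s) - Γ s = GM b (fun h =>
        (if e ∈ l.map Prod.fst then pv (Function.update (mt (x + hs s h)) e (mt h e)) l else 0) *
          A * (if e ∈ l'.map Prod.fst then
            pv (Function.update (mt (x + hs s h)) e (mt h e)) l' else 0)ᴴ) := by
      refine mat_ext fun k => ?_
      rw [hΓ]
      simp only
      rw [map_sub, co_GM, co_GM, co_GM]
      obtain ⟨X, hX⟩ : ∃ X : (E × Cx N → ℝ) → Mat N, X = fun h => pv (mt (x + hs s h)) l :=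
        ⟨_, rfl⟩
      obtain ⟨Y, hY⟩ : ∃ Y : (E × Cx N → ℝ) → Mat N, Y = fun h => pv (mt (x + hs s h)) l' :=
        ⟨_, rfl⟩
      obtain ⟨D, hD⟩ : ∃ D : (E × Cx N → ℝ) → Mat N, D = fun h =>
        if e ∈ l.map Prod.fst then pv (Function.update (mt (x + hs s h)) e (mt h e)) l else 0 :=
        ⟨_, rfl⟩
      obtain ⟨D', hD'⟩ : ∃ D' : (E × Cx N → ℝ) → Mat N, D' = fun h =>
        if e ∈ l'.map Prod.fst then pv (Function.update (mt (x + hs s h)) e (mt h e)) l' else 0 :=
        ⟨_, rfl⟩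
      have eX : EM X := by rw [hX]; exact hEf s l
      have eY : EM Y := by rw [hY]; exact hEf s l'
      have eD : EM D := by
        rw [hD]
        by_cases h : e ∈ l.map Prod.fst
        · simp only [h, if_true]; exact hEu s e l
        · simp only [h, if_false]; exact EM.const 0
      have eD' : EM D' := by
        rw [hD']
        by_cases h : e ∈ l'.map Prod.fst
        · simp only [h, if_true]; exact hEu s e l'
        · simp only [h, if_false]; exact EM.const 0
      have fX : ∀ h, X (flp (fun i => i.1 = e) h) = X h := fun h => by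
        rw [hX]; simp only; rw [flip_fld x he]
      have fY : ∀ h, Y (flp (fun i => i.1 = e) h) = Y h := fun h => by
        rw [hY]; simp only; rw [flip_fld x he]
      have fD : ∀ h, D (flp (fun i => i.1 = e) h) = -D h := fun h => by
        rw [hD]; simp only
        split_ifs with h1
        · exact hupd_flip s l hl e he h1 h
        · simp
      have fD' : ∀ h, D' (flp (fun i => i.1 = e) h) = -D' h := fun h => by
        rw [hD']; simp only
        split_ifs with h1
        · exact hupd_flip s l' hl' e he h1 h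
        · simp
      have g1 : (fun h => co k (pv (mt (x + hs (insert e s) h)) l * A *
          (pv (mt (x + hs (insert e s) h)) l')ᴴ)) = fun h =>
          (co k (X h * A * (Y h)ᴴ) + co k (D h * A * (D' h)ᴴ)) +
            (co k (X h * A * (D' h)ᴴ) + co k (D h * A * (Y h)ᴴ)) := by
        funext h
        rw [hstep s l hl e he h, hstep s l' hl' e he h]
        rw [← map_add, ← map_add, ← map_add]
        congr 1
        rw [hX, hY, hD, hD']
        simp only
        rw [conjTranspose_add, add_mul, add_mul, mul_add, mul_add]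
        abel
      have o1 : GE b (fun h => co k (X h * A * (D' h)ᴴ)) = 0 :=
        GE_odd (fun i : E × Cx N => i.1 = e) fun h => by
          rw [fX, fD', conjTranspose_neg, mul_neg, map_neg]
      have o2 : GE b (fun h => co k (D h * A * (Y h)ᴴ)) = 0 :=
        GE_odd (fun i : E × Cx N => i.1 = e) fun h => by
          rw [fY, fD, neg_mul, neg_mul, map_neg]
      have c1 := EM_mul3 eX (EM.const A) eY k
      have c2 := EM_mul3 eD (EM.const A) eD' k
      have c3 := EM_mul3 eX (EM.const A) eD' k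
      have c4 := EM_mul3 eD (EM.const A) eY k
      rw [g1, GE_add hb (c1.add c2) (c3.add c4), GE_add hb c1 c2, GE_add hb c3 c4, o1, o2, hX, hY,
        hD, hD']
      ring
    rw [hdec]
    by_cases h1 : e ∈ l.map Prod.fst
    · by_cases h2 : e ∈ l'.map Prod.fst
      · rw [if_pos (mem_cm.2 ⟨h1, h2⟩)]
        simp only [h1, h2, if_true]
        exact norm_GM3 hb (hEu s e l) (hEu s e l') A
          (by rw [hκ]; exact mom_upd hb hl hK hx hx' hc h1)
          (by rw [hκ]; exact mom_upd hb hl' hK' hx hx' hc h2)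
      · rw [if_neg (fun h => h2 (mem_cm.1 h).2)]
        simp only [h1, h2, if_true, if_false, conjTranspose_zero, mul_zero]
        rw [GM_const hb, norm_zero]
    · rw [if_neg (fun h => h1 (mem_cm.1 h).1)]
      simp only [h1, if_false, zero_mul]
      rw [GM_const hb, norm_zero]
  have key : ∀ s : Finset E, ‖Γ s - Γ ∅‖ ≤ ∑ e ∈ s, if e ∈ cm l l' then κ * ‖A‖ else 0 := by
    intro s
    induction s using Finset.induction_on with
    | empty => simp
    | insert e s he ih =>
      rw [Finset.sum_insert he]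
      have h1 := hins s e he
      calc ‖Γ (insert e s) - Γ ∅‖ = ‖(Γ (insert e s) - Γ s) + (Γ s - Γ ∅)‖ := by
            rw [sub_add_sub_cancel]
        _ ≤ _ := (norm_add_le _ _).trans (add_le_add h1 ih)
  have h1 := key Finset.univ
  have e1 : Γ Finset.univ = cn b true (mt x) l l' A := by
    rw [hΓ, cn_true]
    simp only [hs_univ, mt_add']
  have e2 : Γ ∅ = cn b false (mt x) l l' A := by
    rw [hΓ, cn_false]
    simp only [hs_empty, add_zero]
    rw [GM_const hb]
  rw [← e1, ← e2, ← hκ]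
  refine h1.trans (le_of_eq ?_)
  rw [Finset.sum_ite_mem, Finset.univ_inter, Finset.sum_const, nsmul_eq_mul]
  ring

end cn

end

end Pool.Agent.Y15
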