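import Mathlib
import Pool.Agent.Y15.GM

/-!
# Symmetries and bounds of pairs of ordered products with noise
-/

open MeasureTheory Matrix Filter
open scoped Matrix.Norms.Frobenius
open Pool.Agent.H906R3.YM hiding Pl
open Pool.Agent.W793.YM Pool.Agent.TH618.YM

namespace Pool.Agent.Y15

set_option linter.unusedSectionVars false
set_option linter.unusedVariables false

noncomputable section

section gen

variable {E : Type*} [Fintype E] [DecidableEq E] {N : ℕ}

/-- contractions -/
def Ctr (M : E → Mat N) : Prop :=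
  (∀ e R, ‖M e * R‖ ^ 2 ≤ ‖R‖ ^ 2) ∧ ∀ e R, ‖(M e)ᴴ * R‖ ^ 2 ≤ ‖R‖ ^ 2

lemma Ctr.pv {M : E → Mat N} (h : Ctr M) (l : List (E × Bool)) (R : Mat N) :
    ‖pv M l * R‖ ≤ ‖R‖ := by
  induction l generalizing R with
  | nil => rw [pv_nil, one_mul]
  | cons s l ih =>
    rw [pv_cons, mul_assoc]
    have h1 : ‖(if s.2 then M s.1 else (M s.1)ᴴ) * (Y15.pv M l * R)‖ ≤ ‖Y15.pv M l * R‖ := by
      refine (pow_le_pow_iff_left₀ (norm_nonneg _) (norm_nonneg _) two_ne_zero).1 ?_
      split_ifs
      · exact h.1 _ _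
      · exact h.2 _ _
    exact h1.trans (ih R)

lemma Ctr.cn_false {M : E → Mat N} (h : Ctr M) (b : ℝ) (l l' : List (E × Bool)) (A : Mat N) :
    ‖cn b false M l l' A‖ ≤ ‖A‖ := by
  rw [Y15.cn_false, mul_assoc]
  refine (h.pv _ _).trans ?_
  rw [← norm_ct (A * _), conjTranspose_mul, conjTranspose_conjTranspose]
  refine (h.pv _ _).trans (le_of_eq ?_)
  rw [norm_ct]

lemma Ctr.cn_true {M : E → Mat N} (h : Ctr M) {b : ℝ} (hb : 0 < b) {K : ℕ}
    {l l' : List (E × Bool)} (hl : ND l)
    (hl' : ND l') (hK : l.length ≤ K) (hK' : l'.length ≤ K) {c : ℝ}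
    (hc : c = (Fintype.card (Cx N) : ℝ) * (1 / (2 * b))) (A : Mat N) :
    ‖cn b true M l l' A‖ ≤ N * (1 + c) ^ K * ‖A‖ := by
  have hc0 : 0 ≤ c := by rw [hc]; positivity
  have key : ∀ l : List (E × Bool), ND l → l.length ≤ K →
      GE b (fun h => ‖Y15.pv (M + mt h) l‖ ^ 2) ≤ N * (1 + c) ^ K := by
    intro l hl hK
    have h1 := pv_moment (N := N) hb M (fun _ => 1) (fun _ => 1)
      (fun e R => by rw [one_mul]; exact h.1 e R) (fun e R => by rw [one_mul]; exact h.2 e R)
      (fun _ => zero_le_one) l hl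
    have h2 : ∀ x : E × Cx N → ℝ, (fun e => M e + (1 : ℝ) • mt x e) = M + mt x := fun x => by
      funext e; rw [one_smul]; rfl
    simp only [h2] at h1
    refine h1.trans (mul_le_mul_of_nonneg_left ?_ (Nat.cast_nonneg _))
    rw [← hc]
    simp only [one_pow, one_mul]
    rw [List.map_const', List.prod_replicate]
    exact pow_le_pow_right₀ (by linarith) hK
  exact norm_GM3 hb (EM_pvn M l) (EM_pvn M l') A (key l hl hK) (key l' hl' hK')

lemma cn_adj {b : ℝ} (hb : 0 < b) (s : Bool) (M : E → Mat N) {l l' r r' : List (E × Bool)}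
    (hr : ∀ M' : E → Mat N, pv M' r = (pv M' l)ᴴ) (hr' : ∀ M' : E → Mat N, pv M' r' = (pv M' l')ᴴ)
    (A B : Mat N) : ip (cn b s M l l' A) B = ip A (cn b s M r r' B) := by
  cases s
  · rw [cn_false, cn_false, ip_mul3, hr, hr', conjTranspose_conjTranspose]
  · rw [cn_true, cn_true, ip_GM hb (EM_cn M l l' A), ip_comm A, ip_GM hb (EM_cn M r r' B)]
    congr 1
    funext h
    rw [ip_mul3, hr, hr', conjTranspose_conjTranspose, ip_comm]

lemma cn_lin {b : ℝ} (hb : 0 < b) (s : Bool) (M : E → Mat N) (l l' : List (E × Bool))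
    (A : Mat N) : cn b s M l l' A = ∑ c, co c A • cn b s M l l' (Eb c) := by
  conv_lhs => rw [exp_Eb A]
  rw [cn_sum hb]
  exact Finset.sum_congr rfl fun c _ => cn_smul b s M l l' _ _

lemma GE_cont {κ α : Type*} [Fintype κ] [TopologicalSpace α] [FirstCountableTopology α] {b : ℝ}
    (hb : 0 < b) {f : (κ → ℝ) → ℝ} (hf : EG f) {X : α → κ → ℝ} (hX : Continuous X) {D : ℝ}
    (hD : ∀ u, ∑ i, |X u i| ≤ D) : Continuous fun u => GE b fun h => f (X u + h) := by
  unfold GE
  refine Continuous.div_const ?_ _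
  obtain ⟨cf, A, C, hA, hC, h1⟩ := hf
  refine continuous_of_dominated (bound := fun h => C * Real.exp (A * D) *
    (Real.exp (A * ∑ i, |h i|) * gw b h)) (fun u => ?_) (fun u => ?_) ?_ ?_
  · exact ((cf.comp (continuous_const.add continuous_id)).mul (gw_cont b)).aestronglyMeasurable
  · refine Filter.Eventually.of_forall fun h => ?_
    rw [norm_mul, Real.norm_eq_abs, Real.norm_eq_abs, abs_of_pos (gw_pos b h), ← mul_assoc]
    refine mul_le_mul_of_nonneg_right ?_ (gw_pos b h).le
    refine (h1 _).trans ?_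
    rw [mul_assoc, ← Real.exp_add]
    refine mul_le_mul_of_nonneg_left (Real.exp_le_exp.2 ?_) hC
    rw [← mul_add]
    refine mul_le_mul_of_nonneg_left ?_ hA
    have h2 : ∑ i, |(X u + h) i| ≤ ∑ i, |X u i| + ∑ i, |h i| := by
      rw [← Finset.sum_add_distrib]
      exact Finset.sum_le_sum fun i _ => abs_add_le _ _
    exact h2.trans (add_le_add_left (hD u) _)
  · exact (intA hb A).const_mul _
  · refine Filter.Eventually.of_forall fun h => ?_
    exact (cf.comp (hX.add continuous_const)).mul continuous_const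

lemma cont_mat {α : Type*} [TopologicalSpace α] {F : α → Mat N}
    (h : ∀ c, Continuous fun u => co c (F u)) : Continuous F := by
  refine continuous_matrix fun i j => ?_
  have h1 : (fun x => F x i j) = fun x => ((co (i, j, true) (F x) : ℝ) : ℂ) +
      ((co (i, j, false) (F x) : ℝ) : ℂ) * Complex.I := by
    funext x
    exact (Complex.re_add_im _).symm
  rw [h1]
  exact (Complex.continuous_ofReal.comp (h _)).add
    ((Complex.continuous_ofReal.comp (h _)).mul continuous_const)

lemma cn_cont {α : Type*} [TopologicalSpace α] [FirstCountableTopology α] {b : ℝ} (hb : 0 < b)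
    (s : Bool) {M : α → E → Mat N} (hM : ∀ e, Continuous fun u => M u e) {D : ℝ}
    (hD : ∀ u, ∑ i, |xm (M u) i| ≤ D) (l l' : List (E × Bool)) {A : α → Mat N}
    (hA : Continuous A) : Continuous fun u => cn b s (M u) l l' (A u) := by
  have hpv : ∀ l : List (E × Bool), Continuous fun u => pv (M u) l := by
    intro l
    induction l with
    | nil => exact continuous_const
    | cons t l ih =>
      simp only [pv_cons]
      split_ifs
      · exact (hM _).mul ih
      · exact (hM _).matrix_conjTranspose.mul ih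
  cases s
  · simp only [cn_false]
    exact ((hpv l).mul hA).mul (hpv l').matrix_conjTranspose
  · have hX : Continuous fun u => xm (M u) :=
      continuous_pi fun i => (co i.2).continuous.comp (hM i.1)
    have h1 : ∀ c', Continuous fun u => cn b true (M u) l l' (Eb c') := by
      intro c'
      refine cont_mat fun c => ?_
      have hf : EG fun x : E × Cx N → ℝ => co c (pv (mt x) l * Eb c' * (pv (mt x) l')ᴴ) :=
        EM_mul3 (EM.pv (fun e => EM.mt e) l) (EM.const (Eb c')) (EM.pv (fun e => EM.mt e) l') c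
      have h2 := GE_cont hb hf hX hD
      refine h2.congr fun u => ?_
      rw [cn_true, co_GM]
      have h3 : ∀ h : E × Cx N → ℝ, mt (xm (M u) + h) = M u + mt h := fun h => by
        rw [mt_add', mt_xm]
      simp only [h3]
    have h3 : (fun u => cn b true (M u) l l' (A u)) =
        fun u => ∑ c, co c (A u) • cn b true (M u) l l' (Eb c) := by
      funext u
      exact cn_lin hb true (M u) l l' (A u)
    rw [h3]
    exact continuous_finsetSum _ fun c _ => ((co c).continuous.comp hA).smul (h1 c)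

end gen

section tor

variable {d l N : ℕ} [NeZero l]

/-- the translation of the noise -/
lemma cn_tr (b : ℝ) (s : Bool) (z : Fin d → ZMod l) (M : Ed d l → Mat N)
    (w w' : List (Ed d l × Bool)) (A : Mat N) :
    cn b s (trM z M) w w' A = cn b s M (sh z w) (sh z w') A := by
  cases s
  · rw [cn_false, cn_false, pv_trM, pv_trM]
  · rw [cn_true, cn_true]
    refine mat_ext fun c => ?_
    rw [co_GM, co_GM]
    rw [← GE_perm ((Equiv.prodCongr ((Equiv.addRight z).prodCongr (Equiv.refl (Fin d)))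
      (Equiv.refl (Cx N))) : Ed d l × Cx N ≃ Ed d l × Cx N) b
      (fun h => co c (pv (trM z M + mt h) w * A * (pv (trM z M + mt h) w')ᴴ))]
    congr 1
    funext h
    have h1 : mt (fun i : Ed d l × Cx N => h
        (((Equiv.prodCongr ((Equiv.addRight z).prodCongr (Equiv.refl (Fin d)))
      (Equiv.refl (Cx N))) : Ed d l × Cx N ≃ Ed d l × Cx N) i)) = trM z (mt h) := rfl
    rw [h1, ← trM_add, pv_trM, pv_trM]

/-- the reflection of the indices of the noise -/
def rx (i : Fin d) (k : Ed d l × Cx N) : Ed d l × Cx N :=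
  if k.1.2 = i then ((rf i 0 (k.1.1 + eT i), i), (k.2.2.1, k.2.1, k.2.2.2))
  else ((rf i 0 k.1.1, k.1.2), k.2)

lemma rx_rx (i : Fin d) (k : Ed d l × Cx N) : rx i (rx i k) = k := by
  obtain ⟨⟨x, j⟩, a, b, s⟩ := k
  unfold rx
  by_cases h : j = i
  · subst h
    simp only [if_true, rf_add_e]
  · simp only [h, if_false, rf_rf]

lemma mt_rx (i : Fin d) (h : Ed d l × Cx N → ℝ) :
    mt (flp (fun k : Ed d l × Cx N => k.1.2 = i ∧ k.2.2.2 = false) fun k => h (rx i k)) =
      thM i (mt h) := by
  funext e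
  obtain ⟨x, j⟩ := e
  refine mat_ext fun c => ?_
  rw [co_mt]
  obtain ⟨a, b, s⟩ := c
  unfold flp thM rx
  by_cases hj : j = i
  · subst hj
    simp only [if_true, true_and]
    have h1 : co (a, b, s) ((mt h (rf j 0 (x + eT j), j))ᴴ) =
        (if s then 1 else -1) * co (b, a, s) (mt h (rf j 0 (x + eT j), j)) := by
      rw [co_def, co_def, conjTranspose_apply]
      cases s <;> simp
    rw [h1, co_mt]
    cases s <;> simp
  · simp only [hj, if_false, false_and]
    rw [co_mt]

lemma cn_rf {b : ℝ} (s : Bool) (i : Fin d) (M : Ed d l → Mat N)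
    (w w' : List (Ed d l × Bool)) (A : Mat N) :
    cn b s (thM i M) w w' A = cn b s M (mr i 0 w) (mr i 0 w') A := by
  cases s
  · rw [cn_false, cn_false, pv_thM, pv_thM]
  · rw [cn_true, cn_true]
    refine mat_ext fun c => ?_
    rw [co_GM, co_GM]
    obtain ⟨F, hF⟩ : ∃ F : (Ed d l × Cx N → ℝ) → ℝ, F = fun h =>
      co c (pv (thM i M + mt h) w * A * (pv (thM i M + mt h) w')ᴴ) := ⟨_, rfl⟩
    have e1 := GE_flp (fun k : Ed d l × Cx N => k.1.2 = i ∧ k.2.2.2 = false) b F
    have e2 := GE_perm (Function.Involutive.toPerm (rx i) (rx_rx (l := l) (N := N) i)) b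
      (fun h => F (flp (fun k : Ed d l × Cx N => k.1.2 = i ∧ k.2.2.2 = false) h))
    rw [← hF, ← e1, ← e2, hF]
    congr 1
    funext h
    have h1 : mt (flp (fun k : Ed d l × Cx N => k.1.2 = i ∧ k.2.2.2 = false) fun k => h
        (Function.Involutive.toPerm (rx i) (rx_rx (l := l) (N := N) i) k)) = thM i (mt h) :=
      mt_rx i h
    simp only
    rw [h1, ← thM_add, pv_thM, pv_thM]

end tor

end

end Pool.Agent.Y15
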