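import Mathlib
import Pool.Agent.Y15.CN

/-!
# Random blocks
-/

open MeasureTheory Matrix Filter
open scoped Matrix.Norms.Frobenius
open Pool.Agent.H906R3.YM hiding Pl
open Pool.Agent.W793.YM Pool.Agent.TH618.YM

namespace Pool.Agent.Y15

set_option linter.unusedSectionVars false
set_option linter.unusedVariables false

noncomputable section

/-! ### means -/

section means

variable {ι κ : Type*} [Fintype ι] [Fintype κ]

/-- the mean -/
def mn (f : ι → ℝ) : ℝ := (Fintype.card ι : ℝ)⁻¹ * ∑ i, f i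

lemma mn_const [Nonempty ι] (c : ℝ) : mn (fun _ : ι => c) = c := by
  unfold mn
  rw [Finset.sum_const, Finset.card_univ, nsmul_eq_mul, inv_mul_cancel_left₀]
  exact_mod_cast Fintype.card_ne_zero

lemma mn_mono {f g : ι → ℝ} (h : ∀ i, f i ≤ g i) : mn f ≤ mn g :=
  mul_le_mul_of_nonneg_left (Finset.sum_le_sum fun i _ => h i) (by positivity)

lemma mn_nonneg {f : ι → ℝ} (h : ∀ i, 0 ≤ f i) : 0 ≤ mn f :=
  mul_nonneg (by positivity) (Finset.sum_nonneg fun i _ => h i)

lemma mn_add (f g : ι → ℝ) : mn (fun i => f i + g i) = mn f + mn g := by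
  unfold mn
  rw [Finset.sum_add_distrib, mul_add]

lemma mn_cmul (c : ℝ) (f : ι → ℝ) : mn (fun i => c * f i) = c * mn f := by
  unfold mn
  rw [← Finset.mul_sum]; ring

lemma mn_mulc (c : ℝ) (f : ι → ℝ) : mn (fun i => f i * c) = mn f * c := by
  unfold mn
  rw [← Finset.sum_mul]; ring

lemma mn_sum {σ : Type*} (s : Finset σ) (f : σ → ι → ℝ) :
    mn (fun i => ∑ a ∈ s, f a i) = ∑ a ∈ s, mn (f a) := by
  unfold mn
  rw [Finset.sum_comm, Finset.mul_sum]

lemma mn_prod (f : ι × κ → ℝ) : mn f = mn fun a => mn fun b => f (a, b) := by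
  unfold mn
  rw [Fintype.card_prod, Nat.cast_mul, mul_inv, Fintype.sum_prod_type, ← Finset.mul_sum]
  ring

lemma mn_comm (f : ι → κ → ℝ) : (mn fun a => mn fun b => f a b) = mn fun b => mn fun a => f a b := by
  unfold mn
  rw [← Finset.mul_sum, ← Finset.mul_sum, Finset.sum_comm]
  ring

lemma mn_le [Nonempty ι] {f : ι → ℝ} {c : ℝ} (h : ∀ i, f i ≤ c) : mn f ≤ c :=
  (mn_mono h).trans (le_of_eq (mn_const c))

lemma mn_equiv (e : ι ≃ κ) (f : κ → ℝ) : mn (fun i => f (e i)) = mn f := by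
  unfold mn
  rw [Fintype.card_congr e, Equiv.sum_comp e]

open Classical in
/-- the indicator -/
def ind (p : Prop) : ℝ := if p then 1 else 0

lemma ind_nonneg (p : Prop) : 0 ≤ ind p := by
  unfold ind; split_ifs <;> norm_num

lemma ind_le_one (p : Prop) : ind p ≤ 1 := by
  unfold ind; split_ifs <;> norm_num

lemma ind_mono {p q : Prop} (h : p → q) : ind p ≤ ind q := by
  unfold ind
  by_cases hp : p
  · rw [if_pos hp, if_pos (h hp)]
  · rw [if_neg hp]; split_ifs <;> norm_num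

lemma ind_congr {p q : Prop} (h : p ↔ q) : ind p = ind q := le_antisymm (ind_mono h.1)
  (ind_mono h.2)

lemma ind_true {p : Prop} (h : p) : ind p = 1 := by
  unfold ind; rw [if_pos h]

lemma ind_false {p : Prop} (h : ¬p) : ind p = 0 := by
  unfold ind; rw [if_neg h]

lemma ind_or {p q : Prop} : ind (p ∨ q) ≤ ind p + ind q := by
  by_cases hp : p
  · rw [ind_true hp, ind_true (Or.inl hp)]
    have := ind_nonneg q
    linarith
  · rw [ind_false hp, zero_add]
    exact ind_mono fun h => h.resolve_left hp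

lemma ind_and {p q : Prop} : ind (p ∧ q) = ind p * ind q := by
  by_cases hp : p
  · by_cases hq : q
    · rw [ind_true hp, ind_true hq, ind_true ⟨hp, hq⟩, one_mul]
    · rw [ind_false hq, ind_false (fun h => hq h.2), mul_zero]
  · rw [ind_false hp, ind_false (fun h => hp h.1), zero_mul]

lemma cast_inj {l a b : ℕ} (ha : a < l) (hb : b < l) (h : (a : ZMod l) = b) : a = b := by
  rw [ZMod.natCast_eq_natCast_iff] at h
  unfold Nat.ModEq at h
  rwa [Nat.mod_eq_of_lt ha, Nat.mod_eq_of_lt hb] at h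

lemma mn_fin {l q : ℕ} (h : 2 ^ q ≤ l) (c : ZMod l) :
    mn (fun x : Fin (2 ^ q) => ind (((x : ℕ) : ZMod l) = c)) ≤ ((2 : ℝ) ^ q)⁻¹ := by
  unfold mn
  rw [Fintype.card_fin]
  push_cast
  refine mul_le_of_le_one_right (by positivity) ?_
  by_cases hc : ∃ x : Fin (2 ^ q), ((x : ℕ) : ZMod l) = c
  · obtain ⟨x, hx⟩ := hc
    rw [Finset.sum_eq_single x]
    · exact ind_le_one _
    · intro y _ hy
      refine ind_false fun h1 => hy (Fin.ext ?_)
      rw [← hx] at h1
      exact cast_inj (y.2.trans_le h) (x.2.trans_le h) h1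
    · intro h; exact absurd (Finset.mem_univ _) h
  · rw [Finset.sum_eq_zero fun x _ => ind_false fun h => hc ⟨x, h⟩]
    exact zero_le_one

end means

/-! ### half blocks -/

/-- the parameters of one half of a block -/
def Om : ℕ → Type
  | 0 => Unit
  | t + 1 => Om t × (Fin (2 ^ t) × Fin (2 ^ t) × Fin (2 ^ t))

instance instOm : ∀ t, Fintype (Om t)
  | 0 => (inferInstance : Fintype Unit)
  | t + 1 => @instFintypeProd _ _ (instOm t) inferInstance

instance instOmN : ∀ t, Nonempty (Om t)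
  | 0 => ⟨()⟩
  | t + 1 => by
    have := instOmN t
    have h : 0 < 2 ^ t := by positivity
    exact ⟨(Classical.arbitrary _, (⟨0, h⟩, ⟨0, h⟩, ⟨0, h⟩))⟩

lemma mn_Om {t : ℕ} (f : Om (t + 1) → ℝ) :
    mn f = mn fun ω : Om t => mn fun p : Fin (2 ^ t) × Fin (2 ^ t) × Fin (2 ^ t) => f (ω, p) :=
  mn_prod (ι := Om t) (κ := Fin (2 ^ t) × Fin (2 ^ t) × Fin (2 ^ t)) f

section half

variable {d l : ℕ} (i j k : Fin d)

/-- one stage of a half block -/
def seg (t r a b : ℕ) (y : Fin d → ZMod l) : List (Ed d l × Bool) :=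
  sg i r y ++ (sg j a (y + r • eT i) ++ (sg k b (y + r • eT i + a • eT j) ++
    sg i (2 ^ t - r) (y + r • eT i + a • eT j + b • eT k)))

/-- the transverse displacement -/
def Dt : ∀ q, Om q → (Fin d → ZMod l)
  | 0, _ => 0
  | t + 1, (ω, _, a, b) => Dt t ω + (a : ℕ) • eT j + (b : ℕ) • eT k

/-- half blocks -/
def Hf : ∀ q, Om q → (Fin d → ZMod l) → List (Ed d l × Bool)
  | 0, _, x => sg i 1 x
  | t + 1, (ω, r, a, b), x => Hf t ω x ++ seg i j k t r a b (x + (2 ^ t) • eT i + Dt j k t ω)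

variable {i j k}

lemma isP_seg {t r a b : ℕ} (hr : r ≤ 2 ^ t) (y : Fin d → ZMod l) :
    isP y (seg i j k t r a b y) (y + (2 ^ t) • eT i + a • eT j + b • eT k) := by
  unfold seg
  have h1 := isP_append (isP_sg i r y) (isP_append (isP_sg j a (y + r • eT i))
    (isP_append (isP_sg k b (y + r • eT i + a • eT j))
      (isP_sg i (2 ^ t - r) (y + r • eT i + a • eT j + b • eT k))))
  have h2 : y + r • eT i + a • eT j + b • eT k + (2 ^ t - r) • (eT i : Fin d → ZMod l) =
      y + (2 ^ t) • eT i + a • eT j + b • eT k := by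
    have h3 : (2 ^ t) • (eT i : Fin d → ZMod l) = r • eT i + (2 ^ t - r) • eT i := by
      rw [← add_smul, Nat.add_sub_cancel' hr]
    rw [h3]; abel
  rwa [h2] at h1

lemma isP_Hf (q : ℕ) (ω : Om q) (x : Fin d → ZMod l) :
    isP x (Hf i j k q ω x) (x + (2 ^ q) • eT i + Dt j k q ω) := by
  induction q generalizing x with
  | zero =>
    have := isP_sg i 1 x
    unfold Hf Dt
    simpa using this
  | succ t ih =>
    obtain ⟨ω, r, a, b⟩ := ω
    have h1 := isP_append (ih ω x) (isP_seg (i := i) (j := j) (k := k) (a := a) (b := b)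
      r.2.le (x + (2 ^ t) • eT i + Dt j k t ω))
    show isP x (Hf i j k t ω x ++ seg i j k t r a b (x + (2 ^ t) • eT i + Dt j k t ω))
      (x + (2 ^ (t + 1)) • eT i + (Dt j k t ω + (a : ℕ) • eT j + (b : ℕ) • eT k))
    have h2 : x + (2 ^ t) • eT i + Dt j k t ω + (2 ^ t) • eT i + (a : ℕ) • eT j +
        (b : ℕ) • (eT k : Fin d → ZMod l) =
        x + (2 ^ (t + 1)) • eT i + (Dt j k t ω + (a : ℕ) • eT j + (b : ℕ) • eT k) := by
      have h3 : (2 ^ (t + 1)) • (eT i : Fin d → ZMod l) = (2 ^ t) • eT i + (2 ^ t) • eT i := by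
        rw [← add_smul]; congr 1; ring
      rw [h3]; abel
    rwa [h2] at h1

lemma sh_sg (z : Fin d → ZMod l) (i : Fin d) (r : ℕ) (x : Fin d → ZMod l) :
    sh z (sg i r x) = sg i r (x + z) := by
  induction r generalizing x with
  | zero => rfl
  | succ r ih =>
    unfold sg
    show ((x + z, i), true) :: sh z (sg i r (x + eT i)) = _
    rw [ih, add_right_comm]

lemma sh_seg (z : Fin d → ZMod l) (t r a b : ℕ) (y : Fin d → ZMod l) :
    sh z (seg i j k t r a b y) = seg i j k t r a b (y + z) := by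
  unfold seg
  rw [sh_append, sh_append, sh_append, sh_sg, sh_sg, sh_sg, sh_sg]
  have h1 : y + r • eT i + z = y + z + r • (eT i : Fin d → ZMod l) := by abel
  have h2 : y + r • eT i + a • eT j + z = y + z + r • (eT i : Fin d → ZMod l) + a • eT j := by abel
  have h3 : y + r • eT i + a • eT j + b • eT k + z =
    y + z + r • (eT i : Fin d → ZMod l) + a • eT j + b • eT k := by abel
  rw [h1, h2, h3]

lemma sh_Hf (z : Fin d → ZMod l) (q : ℕ) (ω : Om q) (x : Fin d → ZMod l) :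
    sh z (Hf i j k q ω x) = Hf i j k q ω (x + z) := by
  induction q generalizing x with
  | zero => exact sh_sg z i 1 x
  | succ t ih =>
    obtain ⟨ω, r, a, b⟩ := ω
    show sh z (Hf i j k t ω x ++ seg i j k t r a b (x + (2 ^ t) • eT i + Dt j k t ω)) =
      Hf i j k t ω (x + z) ++ seg i j k t r a b (x + z + (2 ^ t) • eT i + Dt j k t ω)
    rw [sh_append, ih, sh_seg]
    congr 2
    abel

/-- what is used of the position of the links of a half block -/
def Lc (i j k : Fin d) (x : Fin d → ZMod l) (a b : ℕ) (e : Ed d l) : Prop :=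
  (e.2 = i ∨ e.2 = j ∨ e.2 = k) ∧ (∀ c, c ≠ i → c ≠ j → c ≠ k → e.1 c = x c) ∧
    ∃ s, a ≤ s ∧ s < b ∧ e.1 i = x i + (s : ℕ) ∧ (e.2 ≠ i → 1 ≤ s)

lemma Lc.mono {x : Fin d → ZMod l} {a b a' b' : ℕ} {e : Ed d l} (h : Lc i j k x a b e)
    (ha : a' ≤ a) (hb : b ≤ b') : Lc i j k x a' b' e := by
  obtain ⟨h1, h2, s, h3, h4, h5⟩ := h
  exact ⟨h1, h2, s, by omega, by omega, h5⟩

lemma smul_eT (r : ℕ) (i c : Fin d) :
    (r • (eT i : Fin d → ZMod l)) c = if c = i then (r : ZMod l) else 0 := by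
  rw [Pi.smul_apply]
  by_cases h : c = i
  · subst h; rw [eT_same, if_pos rfl]; simp
  · rw [eT_ne h, if_neg h]; simp

lemma mem_sg' {i : Fin d} {r : ℕ} {x : Fin d → ZMod l} {e : Ed d l}
    (h : e ∈ (sg i r x).map Prod.fst) : ∃ t < r, e = (x + t • eT i, i) := by
  rw [List.mem_map] at h
  obtain ⟨s, hs, rfl⟩ := h
  obtain ⟨t, ht, rfl⟩ := mem_sg.1 hs
  exact ⟨t, ht, rfl⟩

lemma mem_seg {t r a b : ℕ} {y : Fin d → ZMod l} {e : Ed d l}
    (h : e ∈ (seg i j k t r a b y).map Prod.fst) :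
    (∃ s < r, e = (y + s • eT i, i)) ∨ (∃ s < a, e = (y + r • eT i + s • eT j, j)) ∨
    (∃ s < b, e = (y + r • eT i + a • eT j + s • eT k, k)) ∨
    (∃ s < 2 ^ t - r, e = (y + r • eT i + a • eT j + b • eT k + s • eT i, i)) := by
  unfold seg at h
  rw [List.map_append, List.map_append, List.map_append, List.mem_append, List.mem_append,
    List.mem_append] at h
  rcases h with h | h | h | h
  · exact Or.inl (mem_sg' h)
  · exact Or.inr (Or.inl (mem_sg' h))
  · exact Or.inr (Or.inr (Or.inl (mem_sg' h)))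
  · exact Or.inr (Or.inr (Or.inr (mem_sg' h)))

variable (hij : i ≠ j) (hik : i ≠ k) (hjk : j ≠ k)
include hij hik hjk

lemma Dt_i (q : ℕ) (ω : Om q) : (Dt j k q ω : Fin d → ZMod l) i = 0 := by
  induction q with
  | zero => rfl
  | succ t ih =>
    obtain ⟨ω, r, a, b⟩ := ω
    show (Dt j k t ω + (a : ℕ) • eT j + (b : ℕ) • eT k : Fin d → ZMod l) i = 0
    rw [Pi.add_apply, Pi.add_apply, ih, smul_eT, smul_eT, if_neg hij, if_neg hik]
    simp

omit hij hik hjk in
lemma Dt_c {c : Fin d} (hj : c ≠ j) (hk : c ≠ k) (q : ℕ) (ω : Om q) :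
    (Dt j k q ω : Fin d → ZMod l) c = 0 := by
  induction q with
  | zero => rfl
  | succ t ih =>
    obtain ⟨ω, r, a, b⟩ := ω
    show (Dt j k t ω + (a : ℕ) • eT j + (b : ℕ) • eT k : Fin d → ZMod l) c = 0
    rw [Pi.add_apply, Pi.add_apply, ih, smul_eT, smul_eT, if_neg hj, if_neg hk]
    simp

lemma seg_Lc {t r a b : ℕ} (hr : r < 2 ^ t) {y x : Fin d → ZMod l} {e : Ed d l}
    (hy : y i = x i + (2 ^ t : ℕ)) (hyc : ∀ c, c ≠ i → c ≠ j → c ≠ k → y c = x c)
    (h : e ∈ (seg i j k t r a b y).map Prod.fst) :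
    Lc i j k x (2 ^ t) (2 ^ (t + 1)) e := by
  have hp : 2 ^ (t + 1) = 2 ^ t + 2 ^ t := by ring
  have hp1 : 1 ≤ 2 ^ t := Nat.one_le_two_pow
  rcases mem_seg h with ⟨s, hs, rfl⟩ | ⟨s, hs, rfl⟩ | ⟨s, hs, rfl⟩ | ⟨s, hs, rfl⟩
  · refine ⟨Or.inl rfl, fun c h1 h2 h3 => ?_, 2 ^ t + s, by omega, by omega, ?_, by simp⟩
    · show (y + s • eT i : Fin d → ZMod l) c = x c
      rw [Pi.add_apply, smul_eT, if_neg h1, add_zero, hyc c h1 h2 h3]
    · show (y + s • eT i : Fin d → ZMod l) i = _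
      rw [Pi.add_apply, smul_eT, if_pos rfl, hy]; push_cast; ring
  · refine ⟨Or.inr (Or.inl rfl), fun c h1 h2 h3 => ?_, 2 ^ t + r, by omega, by omega, ?_,
      fun _ => by omega⟩
    · show (y + r • eT i + s • eT j : Fin d → ZMod l) c = x c
      rw [Pi.add_apply, Pi.add_apply, smul_eT, smul_eT, if_neg h1, if_neg h2, hyc c h1 h2 h3]
      simp
    · show (y + r • eT i + s • eT j : Fin d → ZMod l) i = _
      rw [Pi.add_apply, Pi.add_apply, smul_eT, smul_eT, if_pos rfl, if_neg hij, hy]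
      push_cast; ring
  · refine ⟨Or.inr (Or.inr rfl), fun c h1 h2 h3 => ?_, 2 ^ t + r, by omega, by omega, ?_,
      fun _ => by omega⟩
    · show (y + r • eT i + a • eT j + s • eT k : Fin d → ZMod l) c = x c
      rw [Pi.add_apply, Pi.add_apply, Pi.add_apply, smul_eT, smul_eT, smul_eT, if_neg h1,
        if_neg h2, if_neg h3, hyc c h1 h2 h3]
      simp
    · show (y + r • eT i + a • eT j + s • eT k : Fin d → ZMod l) i = _
      rw [Pi.add_apply, Pi.add_apply, Pi.add_apply, smul_eT, smul_eT, smul_eT, if_pos rfl,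
        if_neg hij, if_neg hik, hy]
      push_cast; ring
  · refine ⟨Or.inl rfl, fun c h1 h2 h3 => ?_, 2 ^ t + r + s, by omega, by omega, ?_, by simp⟩
    · show (y + r • eT i + a • eT j + b • eT k + s • eT i : Fin d → ZMod l) c = x c
      rw [Pi.add_apply, Pi.add_apply, Pi.add_apply, Pi.add_apply, smul_eT, smul_eT, smul_eT,
        smul_eT, if_neg h1, if_neg h2, if_neg h3, if_neg h1, hyc c h1 h2 h3]
      simp
    · show (y + r • eT i + a • eT j + b • eT k + s • eT i : Fin d → ZMod l) i = _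
      rw [Pi.add_apply, Pi.add_apply, Pi.add_apply, Pi.add_apply, smul_eT, smul_eT, smul_eT,
        smul_eT, if_pos rfl, if_neg hij, if_neg hik, if_pos rfl, hy]
      push_cast; ring

lemma base_i (t : ℕ) (ω : Om t) (x : Fin d → ZMod l) :
    (x + (2 ^ t) • eT i + Dt j k t ω : Fin d → ZMod l) i = x i + (2 ^ t : ℕ) := by
  rw [Pi.add_apply, Pi.add_apply, smul_eT, if_pos rfl, Dt_i hij hik hjk, add_zero]

omit hij hik hjk in
lemma base_c (t : ℕ) (ω : Om t) (x : Fin d → ZMod l) {c : Fin d} (h1 : c ≠ i) (h2 : c ≠ j)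
    (h3 : c ≠ k) : (x + (2 ^ t) • eT i + Dt j k t ω : Fin d → ZMod l) c = x c := by
  rw [Pi.add_apply, Pi.add_apply, smul_eT, if_neg h1, Dt_c h2 h3, add_zero, add_zero]

lemma Hf_Lc (q : ℕ) (ω : Om q) {x : Fin d → ZMod l} {e : Ed d l}
    (h : e ∈ (Hf i j k q ω x).map Prod.fst) : Lc i j k x 0 (2 ^ q) e := by
  induction q with
  | zero =>
    obtain ⟨s, hs, rfl⟩ := mem_sg' (show e ∈ (sg i 1 x).map Prod.fst from h)
    have hs0 : s = 0 := by omega
    subst hs0
    refine ⟨Or.inl rfl, fun c h1 _ _ => ?_, 0, le_rfl, by norm_num, ?_, by simp⟩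
    · simp
    · simp
  | succ t ih =>
    obtain ⟨ω, r, a, b⟩ := ω
    have h' : e ∈ (Hf i j k t ω x ++ seg i j k t r a b
      (x + (2 ^ t) • eT i + Dt j k t ω)).map Prod.fst := h
    rw [List.map_append, List.mem_append] at h'
    have hp : 2 ^ (t + 1) = 2 ^ t + 2 ^ t := by ring
    have hp1 : 1 ≤ 2 ^ t := Nat.one_le_two_pow
    rcases h' with h' | h'
    · exact (ih ω h').mono le_rfl (by omega)
    · exact (seg_Lc hij hik hjk r.2 (base_i hij hik hjk t ω x)
        (fun c h1 h2 h3 => base_c t ω x h1 h2 h3) h').mono (by omega) le_rfl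

lemma Dt_j (t : ℕ) (ω : Om t) (r a b : Fin (2 ^ t)) :
    (Dt j k (t + 1) (ω, r, a, b) : Fin d → ZMod l) j =
      (Dt j k t ω : Fin d → ZMod l) j + (a : ℕ) := by
  show (Dt j k t ω + (a : ℕ) • eT j + (b : ℕ) • eT k : Fin d → ZMod l) j = _
  rw [Pi.add_apply, Pi.add_apply, smul_eT, smul_eT, if_pos rfl, if_neg hjk, add_zero]

lemma Dt_k (t : ℕ) (ω : Om t) (r a b : Fin (2 ^ t)) :
    (Dt j k (t + 1) (ω, r, a, b) : Fin d → ZMod l) k =
      (Dt j k t ω : Fin d → ZMod l) k + (b : ℕ) := by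
  show (Dt j k t ω + (a : ℕ) • eT j + (b : ℕ) • eT k : Fin d → ZMod l) k = _
  rw [Pi.add_apply, Pi.add_apply, smul_eT, smul_eT, if_neg hjk.symm, if_pos rfl, add_zero]

/-- the distribution of the transverse displacement -/
lemma mpD (q : ℕ) (hq : 2 ^ q ≤ l) (v w : ZMod l) :
    mn (fun ω : Om q => ind ((Dt j k q ω : Fin d → ZMod l) j = v ∧
      (Dt j k q ω : Fin d → ZMod l) k = w)) ≤ 4 * ((4 : ℝ) ^ q)⁻¹ := by
  cases q with
  | zero =>
    refine (mn_le fun _ => ind_le_one _).trans ?_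
    norm_num
  | succ t =>
    have ht : 2 ^ t ≤ l := (Nat.pow_le_pow_right (by norm_num) (Nat.le_succ t)).trans hq
    rw [mn_Om]
    refine mn_le fun ω => ?_
    rw [mn_prod]
    refine mn_le fun r => ?_
    rw [mn_prod]
    have h1 : ∀ a : Fin (2 ^ t), (mn fun b : Fin (2 ^ t) =>
        ind ((Dt j k (t + 1) (ω, r, a, b) : Fin d → ZMod l) j = v ∧
          (Dt j k (t + 1) (ω, r, a, b) : Fin d → ZMod l) k = w)) ≤
        ind (((a : ℕ) : ZMod l) = v - (Dt j k t ω : Fin d → ZMod l) j) * ((2 : ℝ) ^ t)⁻¹ := by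
      intro a
      have h2 := mn_fin ht (w - (Dt j k t ω : Fin d → ZMod l) k)
      refine le_trans (le_of_eq ?_) (mul_le_mul_of_nonneg_left h2 (ind_nonneg _))
      rw [← mn_cmul]
      congr 1
      funext b
      rw [← ind_and]
      refine ind_congr ?_
      rw [Dt_j hij hik hjk, Dt_k hij hik hjk, eq_sub_iff_add_eq, eq_sub_iff_add_eq, add_comm,
        add_comm ((Dt j k t ω : Fin d → ZMod l) k)]
    refine (mn_mono h1).trans ?_
    rw [mn_mulc]
    have h2 := mn_fin ht (v - (Dt j k t ω : Fin d → ZMod l) j)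
    refine (mul_le_mul_of_nonneg_right h2 (by positivity)).trans (le_of_eq ?_)
    have h4 : (4 : ℝ) ^ (t + 1) = 4 * (2 ^ t * 2 ^ t) := by
      rw [pow_succ, ← mul_pow]; norm_num; ring
    rw [h4, mul_inv, mul_inv]; ring

lemma mpD1 (q : ℕ) (hq : 2 ^ q ≤ l) (w : ZMod l) :
    mn (fun ω : Om q => ind ((Dt j k q ω : Fin d → ZMod l) k = w)) ≤ 2 * ((2 : ℝ) ^ q)⁻¹ := by
  cases q with
  | zero =>
    refine (mn_le fun _ => ind_le_one _).trans ?_
    norm_num
  | succ t =>
    have ht : 2 ^ t ≤ l := (Nat.pow_le_pow_right (by norm_num) (Nat.le_succ t)).trans hq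
    rw [mn_Om]
    refine mn_le fun ω => ?_
    rw [mn_prod]
    refine mn_le fun r => ?_
    rw [mn_prod]
    refine mn_le fun a => ?_
    have h2 := mn_fin ht (w - (Dt j k t ω : Fin d → ZMod l) k)
    refine le_trans (le_of_eq ?_) (h2.trans (le_of_eq ?_))
    · congr 1
      funext b
      refine ind_congr ?_
      rw [Dt_k hij hik hjk, eq_sub_iff_add_eq, add_comm]
    · rw [pow_succ, mul_inv]; ring

/-- the occupation of one stage -/
lemma oc_seg (t : ℕ) (ht : 2 ^ t ≤ l) (x : Fin d → ZMod l) (e : Ed d l) :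
    (mn fun ω : Om t => mn fun p : Fin (2 ^ t) × Fin (2 ^ t) × Fin (2 ^ t) =>
      ind (e ∈ (seg i j k t p.1 p.2.1 p.2.2 (x + (2 ^ t) • eT i + Dt j k t ω)).map Prod.fst)) ≤
      5 * ((4 : ℝ) ^ t)⁻¹ := by
  have h4 : ((4 : ℝ) ^ t)⁻¹ = ((2 : ℝ) ^ t)⁻¹ * ((2 : ℝ) ^ t)⁻¹ := by
    rw [← mul_inv, ← mul_pow]; norm_num
  have hp : 0 ≤ ((4 : ℝ) ^ t)⁻¹ := by positivity
  have h2p : 0 ≤ ((2 : ℝ) ^ t)⁻¹ := by positivity
  have hyj : ∀ ω : Om t, (x + (2 ^ t) • eT i + Dt j k t ω : Fin d → ZMod l) j =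
      x j + (Dt j k t ω : Fin d → ZMod l) j := fun ω => by
    rw [Pi.add_apply, Pi.add_apply, smul_eT, if_neg hij.symm, add_zero]
  have hyk : ∀ ω : Om t, (x + (2 ^ t) • eT i + Dt j k t ω : Fin d → ZMod l) k =
      x k + (Dt j k t ω : Fin d → ZMod l) k := fun ω => by
    rw [Pi.add_apply, Pi.add_apply, smul_eT, if_neg hik.symm, add_zero]
  by_cases hei : e.2 = i
  · have h1 : ∀ (ω : Om t) (p : Fin (2 ^ t) × Fin (2 ^ t) × Fin (2 ^ t)),
        ind (e ∈ (seg i j k t p.1 p.2.1 p.2.2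
          (x + (2 ^ t) • eT i + Dt j k t ω)).map Prod.fst) ≤
        ind ((Dt j k t ω : Fin d → ZMod l) j = e.1 j - x j ∧
          (Dt j k t ω : Fin d → ZMod l) k = e.1 k - x k) +
        ind (((p.2.1 : ℕ) : ZMod l) = e.1 j - x j - (Dt j k t ω : Fin d → ZMod l) j) *
          ind (((p.2.2 : ℕ) : ZMod l) = e.1 k - x k - (Dt j k t ω : Fin d → ZMod l) k) := by
      intro ω p
      rw [← ind_and]
      refine (ind_mono fun h => ?_).trans ind_or
      rcases mem_seg h with ⟨s, hs, rfl⟩ | ⟨s, hs, rfl⟩ | ⟨s, hs, rfl⟩ | ⟨s, hs, rfl⟩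
      · left
        constructor
        · show _ = (x + (2 ^ t) • eT i + Dt j k t ω + s • eT i : Fin d → ZMod l) j - x j
          rw [Pi.add_apply, hyj, smul_eT, if_neg hij.symm]; ring
        · show _ = (x + (2 ^ t) • eT i + Dt j k t ω + s • eT i : Fin d → ZMod l) k - x k
          rw [Pi.add_apply, hyk, smul_eT, if_neg hik.symm]; ring
      · exact absurd hei hij.symm
      · exact absurd hei hik.symm
      · right
        constructor
        · show _ = (x + (2 ^ t) • eT i + Dt j k t ω + (p.1 : ℕ) • eT i + (p.2.1 : ℕ) • eT j +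
            (p.2.2 : ℕ) • eT k + s • eT i : Fin d → ZMod l) j - x j - _
          rw [Pi.add_apply, Pi.add_apply, Pi.add_apply, Pi.add_apply, hyj, smul_eT, smul_eT,
            smul_eT, smul_eT, if_neg hij.symm, if_neg hij.symm, if_pos rfl, if_neg hjk]
          ring
        · show _ = (x + (2 ^ t) • eT i + Dt j k t ω + (p.1 : ℕ) • eT i + (p.2.1 : ℕ) • eT j +
            (p.2.2 : ℕ) • eT k + s • eT i : Fin d → ZMod l) k - x k - _
          rw [Pi.add_apply, Pi.add_apply, Pi.add_apply, Pi.add_apply, hyk, smul_eT, smul_eT,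
            smul_eT, smul_eT, if_neg hik.symm, if_neg hik.symm, if_neg hjk.symm, if_pos rfl]
          ring
    have h2 : ∀ ω : Om t, (mn fun p : Fin (2 ^ t) × Fin (2 ^ t) × Fin (2 ^ t) =>
        ind (e ∈ (seg i j k t p.1 p.2.1 p.2.2
          (x + (2 ^ t) • eT i + Dt j k t ω)).map Prod.fst)) ≤
        ind ((Dt j k t ω : Fin d → ZMod l) j = e.1 j - x j ∧
          (Dt j k t ω : Fin d → ZMod l) k = e.1 k - x k) + ((4 : ℝ) ^ t)⁻¹ := by
      intro ω
      have hne : Nonempty (Fin (2 ^ t)) := ⟨⟨0, by positivity⟩⟩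
      refine (mn_mono (h1 ω)).trans ?_
      rw [mn_add, mn_const]
      refine add_le_add_right ?_ _
      rw [mn_prod]
      refine mn_le fun r => ?_
      rw [mn_prod]
      have h3 := mn_fin ht (e.1 j - x j - (Dt j k t ω : Fin d → ZMod l) j)
      have h5 := mn_fin ht (e.1 k - x k - (Dt j k t ω : Fin d → ZMod l) k)
      simp only [mn_cmul]
      rw [mn_mulc, h4]
      exact mul_le_mul h3 h5 (mn_nonneg fun _ => ind_nonneg _) h2p
    refine (mn_mono h2).trans ?_
    rw [mn_add, mn_const]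
    have h3 := mpD hij hik hjk t ht (e.1 j - x j) (e.1 k - x k)
    linarith
  · by_cases hej : e.2 = j
    · have h1 : ∀ (ω : Om t) (p : Fin (2 ^ t) × Fin (2 ^ t) × Fin (2 ^ t)),
          ind (e ∈ (seg i j k t p.1 p.2.1 p.2.2
            (x + (2 ^ t) • eT i + Dt j k t ω)).map Prod.fst) ≤
          ind (((p.1 : ℕ) : ZMod l) = e.1 i - (x i + (2 ^ t : ℕ))) *
            ind ((Dt j k t ω : Fin d → ZMod l) k = e.1 k - x k) := by
        intro ω p
        rw [← ind_and]
        refine ind_mono fun h => ?_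
        rcases mem_seg h with ⟨s, hs, rfl⟩ | ⟨s, hs, rfl⟩ | ⟨s, hs, rfl⟩ | ⟨s, hs, rfl⟩
        · exact absurd rfl hei
        · constructor
          · show _ = (x + (2 ^ t) • eT i + Dt j k t ω + (p.1 : ℕ) • eT i +
              s • eT j : Fin d → ZMod l) i - _
            rw [Pi.add_apply, Pi.add_apply, base_i hij hik hjk, smul_eT, smul_eT, if_pos rfl,
              if_neg hij]
            ring
          · show _ = (x + (2 ^ t) • eT i + Dt j k t ω + (p.1 : ℕ) • eT i +
              s • eT j : Fin d → ZMod l) k - _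
            rw [Pi.add_apply, Pi.add_apply, hyk, smul_eT, smul_eT, if_neg hik.symm,
              if_neg hjk.symm]
            ring
        · exact absurd hej hjk.symm
        · exact absurd rfl hei
      have h2 : ∀ ω : Om t, (mn fun p : Fin (2 ^ t) × Fin (2 ^ t) × Fin (2 ^ t) =>
          ind (e ∈ (seg i j k t p.1 p.2.1 p.2.2
            (x + (2 ^ t) • eT i + Dt j k t ω)).map Prod.fst)) ≤
          ((2 : ℝ) ^ t)⁻¹ * ind ((Dt j k t ω : Fin d → ZMod l) k = e.1 k - x k) := by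
        intro ω
        have hne : Nonempty (Fin (2 ^ t)) := ⟨⟨0, by positivity⟩⟩
        refine (mn_mono (h1 ω)).trans ?_
        rw [mn_mulc, mn_prod]
        refine mul_le_mul_of_nonneg_right ?_ (ind_nonneg _)
        simp only [mn_const]
        exact mn_fin ht _
      refine (mn_mono h2).trans ?_
      rw [mn_cmul]
      have h3 := mul_le_mul_of_nonneg_left (mpD1 hij hik hjk t ht (e.1 k - x k)) h2p
      refine h3.trans ?_
      rw [h4]
      have : 0 ≤ ((2 : ℝ) ^ t)⁻¹ * ((2 : ℝ) ^ t)⁻¹ := by positivity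
      linarith
    · have h1 : ∀ (ω : Om t) (p : Fin (2 ^ t) × Fin (2 ^ t) × Fin (2 ^ t)),
          ind (e ∈ (seg i j k t p.1 p.2.1 p.2.2
            (x + (2 ^ t) • eT i + Dt j k t ω)).map Prod.fst) ≤
          ind (((p.1 : ℕ) : ZMod l) = e.1 i - (x i + (2 ^ t : ℕ))) *
            ind (((p.2.1 : ℕ) : ZMod l) = e.1 j - x j - (Dt j k t ω : Fin d → ZMod l) j) := by
        intro ω p
        rw [← ind_and]
        refine ind_mono fun h => ?_
        rcases mem_seg h with ⟨s, hs, rfl⟩ | ⟨s, hs, rfl⟩ | ⟨s, hs, rfl⟩ | ⟨s, hs, rfl⟩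
        · exact absurd rfl hei
        · exact absurd rfl hej
        · constructor
          · show _ = (x + (2 ^ t) • eT i + Dt j k t ω + (p.1 : ℕ) • eT i +
              (p.2.1 : ℕ) • eT j + s • eT k : Fin d → ZMod l) i - _
            rw [Pi.add_apply, Pi.add_apply, Pi.add_apply, base_i hij hik hjk, smul_eT, smul_eT,
              smul_eT, if_pos rfl, if_neg hij, if_neg hik]
            ring
          · show _ = (x + (2 ^ t) • eT i + Dt j k t ω + (p.1 : ℕ) • eT i +
              (p.2.1 : ℕ) • eT j + s • eT k : Fin d → ZMod l) j - x j - _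
            rw [Pi.add_apply, Pi.add_apply, Pi.add_apply, hyj, smul_eT, smul_eT,
              smul_eT, if_neg hij.symm, if_pos rfl, if_neg hjk]
            ring
        · exact absurd rfl hei
      refine mn_le fun ω => ?_
      have hne : Nonempty (Fin (2 ^ t)) := ⟨⟨0, by positivity⟩⟩
      refine (mn_mono (h1 ω)).trans ?_
      rw [mn_prod]
      simp only [mn_cmul]
      rw [mn_mulc]
      have h3 := mn_fin ht (e.1 i - (x i + (2 ^ t : ℕ)))
      have h5 := mn_fin ht (e.1 j - x j - (Dt j k t ω : Fin d → ZMod l) j)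
      have h6 : (mn fun p : Fin (2 ^ t) × Fin (2 ^ t) =>
          ind (((p.1 : ℕ) : ZMod l) = e.1 j - x j - (Dt j k t ω : Fin d → ZMod l) j)) ≤
          ((2 : ℝ) ^ t)⁻¹ := by
        rw [mn_prod]
        simp only [mn_const]
        exact h5
      have h7 := mul_le_mul h3 h6 (mn_nonneg fun _ => ind_nonneg _) h2p
      rw [← h4] at h7
      linarith

end half

end

end Pool.Agent.Y15
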