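import Mathlib
import Pool.Agent.Y15.Blk

/-!
# Occupation of the links by random blocks
-/

open MeasureTheory Matrix Filter
open scoped Matrix.Norms.Frobenius
open Pool.Agent.H906R3.YM hiding Pl
open Pool.Agent.W793.YM Pool.Agent.TH618.YM

namespace Pool.Agent.Y15

set_option linter.unusedSectionVars false
set_option linter.unusedVariables false

noncomputable section

section lsum

variable {α : Type*}

lemma lsum_le {w : List α} {f g : α → ℝ} (h : ∀ s ∈ w, f s ≤ g s) :
    (w.map f).sum ≤ (w.map g).sum := List.sum_le_sum h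

lemma lsum_zero {w : List α} {f : α → ℝ} (h : ∀ s ∈ w, f s = 0) : (w.map f).sum = 0 := by
  rw [List.map_congr_left h]
  simp

lemma lsum_const (w : List α) (c : ℝ) : (w.map fun _ => c).sum = w.length * c := by
  simp

lemma lsum_cmul (w : List α) (f : α → ℝ) (c : ℝ) :
    (w.map fun s => c * f s).sum = c * (w.map f).sum := List.sum_map_mul_left w f c

lemma lsum_append (w w' : List α) (f : α → ℝ) :
    ((w ++ w').map f).sum = (w.map f).sum + (w'.map f).sum := by
  rw [List.map_append, List.sum_append]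

lemma lsum_nonneg {w : List α} {f : α → ℝ} (h : ∀ s ∈ w, 0 ≤ f s) : 0 ≤ (w.map f).sum := by
  refine List.sum_nonneg fun a ha => ?_
  rw [List.mem_map] at ha
  obtain ⟨s, hs, rfl⟩ := ha
  exact h s hs

lemma mn_lsum {ι : Type*} [Fintype ι] (w : List α) (f : ι → α → ℝ) :
    (mn fun i => (w.map (f i)).sum) = (w.map fun s => mn fun i => f i s).sum := by
  induction w with
  | nil =>
    unfold mn
    simp
  | cons s w ih =>
    simp only [List.map_cons, List.sum_cons]
    rw [mn_add, ih]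

lemma ind_lsum {w : List α} {p : α → Prop} {q : Prop} (h : q → ∃ s ∈ w, p s) :
    ind q ≤ (w.map fun s => ind (p s)).sum := by
  by_cases hq : q
  · rw [ind_true hq]
    obtain ⟨s, hs, hps⟩ := h hq
    have h1 : ind (p s) ≤ (w.map fun s => ind (p s)).sum := by
      refine List.single_le_sum (fun a ha => ?_) _ (List.mem_map_of_mem hs)
      rw [List.mem_map] at ha
      obtain ⟨s, hs, rfl⟩ := ha
      exact ind_nonneg _
    rwa [ind_true hps] at h1
  · rw [ind_false hq]
    exact lsum_nonneg fun _ _ => ind_nonneg _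

end lsum

section half

variable {d l : ℕ} {i j k : Fin d}

/-- the number of links of one direction at one level -/
def lc (i a : Fin d) (c : ZMod l) (w : List (Ed d l × Bool)) : ℝ :=
  (w.map fun s => ind (s.1.2 = a ∧ s.1.1 i = c)).sum

lemma lc_nonneg (i a : Fin d) (c : ZMod l) (w : List (Ed d l × Bool)) : 0 ≤ lc i a c w :=
  lsum_nonneg fun _ _ => ind_nonneg _

lemma lc_append (a : Fin d) (c : ZMod l) (w w' : List (Ed d l × Bool)) :
    lc i a c (w ++ w') = lc i a c w + lc i a c w' := lsum_append _ _ _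

lemma lc_zero {a : Fin d} {c : ZMod l} {w : List (Ed d l × Bool)}
    (h : ∀ e ∈ w.map Prod.fst, ¬(e.2 = a ∧ e.1 i = c)) : lc i a c w = 0 :=
  lsum_zero fun s hs => ind_false (h s.1 (List.mem_map_of_mem hs))

lemma lc_sg_i (c : ZMod l) (r : ℕ) (hr : r ≤ l) (y : Fin d → ZMod l) :
    lc i i c (sg i r y) ≤ 1 := by
  induction r generalizing y with
  | zero =>
    show (0 : ℝ) ≤ 1
    norm_num
  | succ r ih =>
    show ind ((((y, i), true) : Ed d l × Bool).1.2 = i ∧ y i = c) + lc i i c (sg i r (y + eT i)) ≤ 1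
    by_cases h : y i = c
    · have h1 : lc i i c (sg i r (y + eT i)) = 0 := by
        refine lc_zero fun e he hh => ?_
        obtain ⟨t, ht, rfl⟩ := mem_sg' he
        have h2 : (y + eT i + t • eT i : Fin d → ZMod l) i = c := hh.2
        rw [Pi.add_apply, Pi.add_apply, smul_eT, if_pos rfl, eT_same, ← h] at h2
        have h3 : ((t + 1 : ℕ) : ZMod l) = (0 : ℕ) := by
          push_cast
          linear_combination h2
        have h4 := cast_inj (by omega) (by omega) h3
        omega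
      rw [h1, add_zero]
      exact ind_le_one _
    · rw [ind_false fun hh => h hh.2, zero_add]
      exact ih (by omega) _

lemma lc_sg_ne {a : Fin d} (ha : a ≠ i) (c : ZMod l) (r : ℕ) (y : Fin d → ZMod l) :
    lc i a c (sg a r y) ≤ r * ind (y i = c) := by
  induction r generalizing y with
  | zero =>
    show (0 : ℝ) ≤ _
    simp
  | succ r ih =>
    show ind ((((y, a), true) : Ed d l × Bool).1.2 = a ∧ y i = c) +
      lc i a c (sg a r (y + eT a)) ≤ _
    have h1 := ih (y + eT a)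
    have h2 : (y + eT a : Fin d → ZMod l) i = y i := by
      rw [Pi.add_apply, eT_ne ha.symm, add_zero]
    rw [h2] at h1
    have h3 : ind ((((y, a), true) : Ed d l × Bool).1.2 = a ∧ y i = c) ≤ ind (y i = c) :=
      ind_mono fun h => h.2
    push_cast
    linarith

lemma lc_sg_dir {a a' : Fin d} (h : a' ≠ a) (c : ZMod l) (r : ℕ) (y : Fin d → ZMod l) :
    lc i a c (sg a' r y) = 0 := by
  refine lc_zero fun e he hh => ?_
  obtain ⟨t, ht, rfl⟩ := mem_sg' he
  exact h hh.1

variable (hij : i ≠ j) (hik : i ≠ k) (hjk : j ≠ k)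
include hij hik hjk

lemma lc_seg (t : ℕ) (ht : 2 ^ t ≤ l) (a : Fin d) (c : ZMod l) (y : Fin d → ZMod l) :
    (mn fun p : Fin (2 ^ t) × Fin (2 ^ t) × Fin (2 ^ t) =>
      lc i a c (seg i j k t p.1 p.2.1 p.2.2 y)) ≤ 2 := by
  have hne : Nonempty (Fin (2 ^ t)) := ⟨⟨0, by positivity⟩⟩
  have hdec : ∀ p : Fin (2 ^ t) × Fin (2 ^ t) × Fin (2 ^ t),
      lc i a c (seg i j k t p.1 p.2.1 p.2.2 y) = lc i a c (sg i p.1 y) +
        (lc i a c (sg j p.2.1 (y + (p.1 : ℕ) • eT i)) +
        (lc i a c (sg k p.2.2 (y + (p.1 : ℕ) • eT i + (p.2.1 : ℕ) • eT j)) +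
        lc i a c (sg i (2 ^ t - p.1) (y + (p.1 : ℕ) • eT i + (p.2.1 : ℕ) • eT j +
          (p.2.2 : ℕ) • eT k)))) := by
    intro p
    unfold seg
    rw [lc_append, lc_append, lc_append]
  have hr : ∀ r : Fin (2 ^ t), ind ((y + (r : ℕ) • eT i : Fin d → ZMod l) i = c) =
      ind (((r : ℕ) : ZMod l) = c - y i) := by
    intro r
    refine ind_congr ?_
    rw [Pi.add_apply, smul_eT, if_pos rfl, eq_sub_iff_add_eq, add_comm]
  have hlast : ∀ u : ℝ, u ≤ 2 ^ t → 0 ≤ u →
      (mn fun p : Fin (2 ^ t) × Fin (2 ^ t) × Fin (2 ^ t) =>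
      u * ind (((p.1 : ℕ) : ZMod l) = c - y i)) ≤ 1 := by
    intro u hu hu0
    rw [mn_prod]
    simp only [mn_const]
    rw [mn_cmul]
    calc u * mn (fun x : Fin (2 ^ t) => ind (((x : ℕ) : ZMod l) = c - y i)) ≤
        2 ^ t * ((2 : ℝ) ^ t)⁻¹ := mul_le_mul hu (mn_fin ht _)
          (mn_nonneg fun _ => ind_nonneg _) (by positivity)
      _ = 1 := by field_simp
  by_cases hai : a = i
  · subst hai
    refine mn_le fun p => ?_
    rw [hdec, lc_sg_dir hij.symm, lc_sg_dir hik.symm]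
    have h1 := lc_sg_i (i := a) c p.1 (p.1.2.le.trans ht) y
    have h2 := lc_sg_i (i := a) c (2 ^ t - p.1) ((Nat.sub_le _ _).trans ht)
      (y + (p.1 : ℕ) • eT a + (p.2.1 : ℕ) • eT j + (p.2.2 : ℕ) • eT k)
    linarith
  · by_cases haj : a = j
    · subst haj
      have h1 : ∀ p : Fin (2 ^ t) × Fin (2 ^ t) × Fin (2 ^ t),
          lc i a c (seg i a k t p.1 p.2.1 p.2.2 y) ≤
            (2 : ℝ) ^ t * ind (((p.1 : ℕ) : ZMod l) = c - y i) := by
        intro p
        rw [hdec, lc_sg_dir (Ne.symm hai), lc_sg_dir hjk.symm, lc_sg_dir (Ne.symm hai)]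
        have h2 := lc_sg_ne (i := i) hai c p.2.1 (y + (p.1 : ℕ) • eT i)
        rw [hr] at h2
        have h3 : ((p.2.1 : ℕ) : ℝ) ≤ 2 ^ t := by exact_mod_cast p.2.1.2.le
        have h4 := mul_le_mul_of_nonneg_right h3 (ind_nonneg (((p.1 : ℕ) : ZMod l) = c - y i))
        linarith
      have h2 := hlast (2 ^ t) le_rfl (by positivity)
      linarith [mn_mono h1]
    · by_cases hak : a = k
      · subst hak
        have h1 : ∀ p : Fin (2 ^ t) × Fin (2 ^ t) × Fin (2 ^ t),
            lc i a c (seg i j a t p.1 p.2.1 p.2.2 y) ≤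
              (2 : ℝ) ^ t * ind (((p.1 : ℕ) : ZMod l) = c - y i) := by
          intro p
          rw [hdec, lc_sg_dir (Ne.symm hai), lc_sg_dir (Ne.symm haj), lc_sg_dir (Ne.symm hai)]
          have h2 := lc_sg_ne (i := i) hai c p.2.2
            (y + (p.1 : ℕ) • eT i + (p.2.1 : ℕ) • eT j)
          have h5 : (y + (p.1 : ℕ) • eT i + (p.2.1 : ℕ) • eT j : Fin d → ZMod l) i =
              (y + (p.1 : ℕ) • eT i : Fin d → ZMod l) i := by
            rw [Pi.add_apply (y + (p.1 : ℕ) • eT i), smul_eT, if_neg hij, add_zero]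
          rw [h5, hr] at h2
          have h3 : ((p.2.2 : ℕ) : ℝ) ≤ 2 ^ t := by exact_mod_cast p.2.2.2.le
          have h4 := mul_le_mul_of_nonneg_right h3 (ind_nonneg (((p.1 : ℕ) : ZMod l) = c - y i))
          linarith
        have h2 := hlast (2 ^ t) le_rfl (by positivity)
        linarith [mn_mono h1]
      · refine mn_le fun p => ?_
        rw [hdec, lc_sg_dir (Ne.symm hai), lc_sg_dir (Ne.symm haj), lc_sg_dir (Ne.symm hak),
          lc_sg_dir (Ne.symm hai)]
        norm_num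

lemma Hf_succ (t : ℕ) (ω : Om t) (p : Fin (2 ^ t) × Fin (2 ^ t) × Fin (2 ^ t))
    (x : Fin d → ZMod l) : Hf i j k (t + 1) (ω, p) x = Hf i j k t ω x ++
      seg i j k t p.1 p.2.1 p.2.2 (x + (2 ^ t) • eT i + Dt j k t ω) := rfl

lemma lc_Hf (q : ℕ) (hq : 2 ^ q ≤ l) (a : Fin d) (c : ZMod l) (x : Fin d → ZMod l) :
    (mn fun ω : Om q => lc i a c (Hf i j k q ω x)) ≤
      2 * ind (∃ s < 2 ^ q, c = x i + (s : ℕ)) := by
  induction q with
  | zero =>
    refine mn_le fun ω => ?_
    show lc i a c (sg i 1 x) ≤ _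
    by_cases hc : ∃ s < 2 ^ 0, c = x i + (s : ℕ)
    · rw [ind_true hc]
      by_cases hai : a = i
      · subst hai
        have := lc_sg_i (i := a) c 1 hq x
        linarith
      · rw [lc_sg_dir (Ne.symm hai)]; norm_num
    · rw [ind_false hc, lc_zero, mul_zero]
      intro e he hh
      obtain ⟨t, ht, rfl⟩ := mem_sg' he
      have ht0 : t = 0 := by omega
      subst ht0
      refine hc ⟨0, by norm_num, ?_⟩
      have := hh.2
      simp at this
      simp [this]
  | succ t ih =>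
    have ht : 2 ^ t ≤ l := (Nat.pow_le_pow_right (by norm_num) (Nat.le_succ t)).trans hq
    have hp : 2 ^ (t + 1) = 2 ^ t + 2 ^ t := by ring
    have hne : Nonempty (Fin (2 ^ t)) := ⟨⟨0, by positivity⟩⟩
    rw [mn_Om]
    simp only [Hf_succ hij hik hjk, lc_append]
    simp only [mn_add, mn_const]
    have ih' := ih ht
    have h1 : (mn fun ω : Om t => mn fun p : Fin (2 ^ t) × Fin (2 ^ t) × Fin (2 ^ t) =>
        lc i a c (seg i j k t p.1 p.2.1 p.2.2 (x + (2 ^ t) • eT i + Dt j k t ω))) ≤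
        2 * ind (∃ s, 2 ^ t ≤ s ∧ s < 2 ^ (t + 1) ∧ c = x i + (s : ℕ)) := by
      by_cases hc : ∃ s, 2 ^ t ≤ s ∧ s < 2 ^ (t + 1) ∧ c = x i + (s : ℕ)
      · rw [ind_true hc, mul_one]
        exact mn_le fun ω => lc_seg hij hik hjk t ht a c _
      · rw [ind_false hc, mul_zero]
        refine mn_le fun ω => mn_le fun p => le_of_eq (lc_zero fun e he hh => hc ?_)
        obtain ⟨-, -, s, h1, h2, h3, -⟩ := seg_Lc hij hik hjk p.1.2 (base_i hij hik hjk t ω x)
          (fun c h1 h2 h3 => base_c t ω x h1 h2 h3) he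
        exact ⟨s, h1, h2, by rw [← hh.2, h3]⟩
    refine (add_le_add ih' h1).trans ?_
    rw [← mul_add]
    refine mul_le_mul_of_nonneg_left ?_ (by norm_num)
    by_cases hc : ∃ s < 2 ^ t, c = x i + (s : ℕ)
    · have hc2 : ¬∃ s, 2 ^ t ≤ s ∧ s < 2 ^ (t + 1) ∧ c = x i + (s : ℕ) := by
        rintro ⟨s', h1, h2, h3⟩
        obtain ⟨s, hs, h4⟩ := hc
        rw [h3] at h4
        have := cast_inj (by omega) (by omega) (add_left_cancel h4)
        omega
      rw [ind_true hc, ind_false hc2, ind_true, add_zero]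
      obtain ⟨s, hs, h4⟩ := hc
      exact ⟨s, by omega, h4⟩
    · rw [ind_false hc, zero_add]
      refine ind_mono ?_
      rintro ⟨s', h1, h2, h3⟩
      exact ⟨s', h2, h3⟩

/-- the occupation of the links of a half block -/
lemma oc_le (q : ℕ) (hq : 2 ^ q ≤ l) (x : Fin d → ZMod l) (e : Ed d l) {s : ℕ} (hs : s < 2 ^ q)
    (he : e.1 i = x i + (s : ℕ)) :
    (mn fun ω : Om q => ind (e ∈ (Hf i j k q ω x).map Prod.fst)) ≤ 20 / ((s : ℝ) + 1) ^ 2 := by
  induction q with
  | zero =>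
    have hs0 : s = 0 := by omega
    subst hs0
    refine (mn_le fun _ => ind_le_one _).trans ?_
    norm_num
  | succ t ih =>
    have ht : 2 ^ t ≤ l := (Nat.pow_le_pow_right (by norm_num) (Nat.le_succ t)).trans hq
    have hp : 2 ^ (t + 1) = 2 ^ t + 2 ^ t := by ring
    have hne : Nonempty (Fin (2 ^ t)) := ⟨⟨0, by positivity⟩⟩
    rw [mn_Om]
    rcases Nat.lt_or_ge s (2 ^ t) with h | h
    · refine le_trans (mn_mono fun ω => ?_) (ih ht h)
      refine mn_le fun p => ind_mono fun hm => ?_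
      rw [Hf_succ hij hik hjk, List.map_append, List.mem_append] at hm
      refine hm.resolve_right fun h1 => ?_
      obtain ⟨-, -, s', h2, h3, h4, -⟩ := seg_Lc hij hik hjk p.1.2 (base_i hij hik hjk t ω x)
        (fun c h1 h2 h3 => base_c t ω x h1 h2 h3) h1
      rw [he] at h4
      have := cast_inj (by omega) (by omega) (add_left_cancel h4)
      omega
    · have h1 : (mn fun ω : Om t => mn fun p : Fin (2 ^ t) × Fin (2 ^ t) × Fin (2 ^ t) =>
          ind (e ∈ (Hf i j k (t + 1) (ω, p) x).map Prod.fst)) ≤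
          mn fun ω : Om t => mn fun p : Fin (2 ^ t) × Fin (2 ^ t) × Fin (2 ^ t) =>
          ind (e ∈ (seg i j k t p.1 p.2.1 p.2.2
            (x + (2 ^ t) • eT i + Dt j k t ω)).map Prod.fst) := by
        refine mn_mono fun ω => mn_mono fun p => ind_mono fun hm => ?_
        rw [Hf_succ hij hik hjk, List.map_append, List.mem_append] at hm
        refine hm.resolve_left fun h1 => ?_
        obtain ⟨-, -, s', h2, h3, h4, -⟩ := Hf_Lc hij hik hjk t ω h1
        rw [he] at h4
        have := cast_inj (by omega) (by omega) (add_left_cancel h4)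
        omega
      refine h1.trans ((oc_seg hij hik hjk t ht x e).trans ?_)
      rw [le_div_iff₀ (by positivity)]
      have h2 : ((s : ℝ) + 1) ^ 2 ≤ 4 * 4 ^ t := by
        have h3 : ((s + 1 : ℕ) : ℝ) ≤ ((2 ^ (t + 1) : ℕ) : ℝ) := by exact_mod_cast hs
        push_cast at h3
        calc ((s : ℝ) + 1) ^ 2 ≤ ((2 : ℝ) ^ (t + 1)) ^ 2 := pow_le_pow_left₀ (by positivity) h3 2
          _ = 4 * 4 ^ t := by
            rw [← pow_mul, mul_comm, pow_mul]; norm_num; ring
      calc 5 * ((4 : ℝ) ^ t)⁻¹ * ((s : ℝ) + 1) ^ 2 ≤ 5 * ((4 : ℝ) ^ t)⁻¹ * (4 * 4 ^ t) :=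
            mul_le_mul_of_nonneg_left h2 (by positivity)
        _ = 20 := by field_simp; norm_num

/-- the occupation of the links far from the starting point -/
lemma oc_far (q : ℕ) (hq : 2 ^ q ≤ l) (x : Fin d → ZMod l) (e : Ed d l) :
    (mn fun ω' : Om q => mn fun ω : Om q =>
      ind (e ∈ (Hf i j k q ω' (x + Dt j k q ω - Dt j k q ω')).map Prod.fst)) ≤
      8 * ((4 : ℝ) ^ q)⁻¹ := by
  have hp : 0 ≤ ((4 : ℝ) ^ q)⁻¹ := by positivity
  have h1 : ∀ ω' : Om q, (mn fun ω : Om q =>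
      ind (e ∈ (Hf i j k q ω' (x + Dt j k q ω - Dt j k q ω')).map Prod.fst)) ≤
      lc i e.2 (e.1 i) (Hf i j k q ω' x) * (4 * ((4 : ℝ) ^ q)⁻¹) := by
    intro ω'
    obtain ⟨w, hw⟩ : ∃ w, w = Hf i j k q ω' (x - Dt j k q ω') := ⟨_, rfl⟩
    have h2 : ∀ ω : Om q,
        ind (e ∈ (Hf i j k q ω' (x + Dt j k q ω - Dt j k q ω')).map Prod.fst) ≤
        (w.map fun s => ind (s.1.2 = e.2 ∧ s.1.1 i = e.1 i) *
          ind ((Dt j k q ω : Fin d → ZMod l) j = e.1 j - s.1.1 j ∧
          (Dt j k q ω : Fin d → ZMod l) k = e.1 k - s.1.1 k)).sum := by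
      intro ω
      simp only [← ind_and]
      refine ind_lsum fun hm => ?_
      have h3 : x + Dt j k q ω - Dt j k q ω' = x - Dt j k q ω' + Dt j k q ω := by abel
      rw [h3, ← sh_Hf, fst_sh, ← hw, List.mem_map] at hm
      obtain ⟨s, hs, hse⟩ := hm
      refine ⟨s, hs, ⟨by rw [hse], ?_⟩, ?_, ?_⟩
      · rw [hse]
        show (e.1 - Dt j k q ω : Fin d → ZMod l) i = e.1 i
        rw [Pi.sub_apply, Dt_i hij hik hjk, sub_zero]
      · rw [hse]
        show _ = e.1 j - (e.1 - Dt j k q ω : Fin d → ZMod l) j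
        rw [Pi.sub_apply]; ring
      · rw [hse]
        show _ = e.1 k - (e.1 - Dt j k q ω : Fin d → ZMod l) k
        rw [Pi.sub_apply]; ring
    refine (mn_mono h2).trans ?_
    rw [mn_lsum]
    have h3 : (w.map fun s => mn fun ω : Om q => ind (s.1.2 = e.2 ∧ s.1.1 i = e.1 i) *
          ind ((Dt j k q ω : Fin d → ZMod l) j = e.1 j - s.1.1 j ∧
          (Dt j k q ω : Fin d → ZMod l) k = e.1 k - s.1.1 k)).sum ≤
        (w.map fun s => (4 * ((4 : ℝ) ^ q)⁻¹) * ind (s.1.2 = e.2 ∧ s.1.1 i = e.1 i)).sum := by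
      refine lsum_le fun s _ => ?_
      rw [mn_cmul, mul_comm]
      exact mul_le_mul_of_nonneg_right (mpD hij hik hjk q hq _ _) (ind_nonneg _)
    refine h3.trans (le_of_eq ?_)
    rw [lsum_cmul, mul_comm]
    congr 1
    have h4 : Hf i j k q ω' x = sh (Dt j k q ω') w := by
      rw [hw, sh_Hf, sub_add_cancel]
    unfold lc
    rw [h4]
    unfold sh
    rw [List.map_map]
    congr 1
    refine List.map_congr_left fun s _ => ?_
    refine ind_congr ?_
    show s.1.2 = e.2 ∧ s.1.1 i = e.1 i ↔ s.1.2 = e.2 ∧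
      (s.1.1 + Dt j k q ω' : Fin d → ZMod l) i = e.1 i
    rw [Pi.add_apply, Dt_i hij hik hjk, add_zero]
  refine (mn_mono h1).trans ?_
  rw [mn_mulc]
  have h2 := lc_Hf hij hik hjk q hq e.2 (e.1 i) x
  have h3 := ind_le_one (∃ s < 2 ^ q, e.1 i = x i + (s : ℕ))
  nlinarith

lemma length_seg (t : ℕ) (p : Fin (2 ^ t) × Fin (2 ^ t) × Fin (2 ^ t)) (y : Fin d → ZMod l) :
    (seg i j k t p.1 p.2.1 p.2.2 y).length ≤ 3 * 2 ^ t := by
  unfold seg
  rw [List.length_append, List.length_append, List.length_append, length_sg, length_sg, length_sg,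
    length_sg]
  have := p.1.2
  have := p.2.1.2
  have := p.2.2.2
  omega

lemma length_Hf (q : ℕ) (ω : Om q) (x : Fin d → ZMod l) :
    (Hf i j k q ω x).length ≤ 3 * 2 ^ q := by
  induction q with
  | zero =>
    show (sg i 1 x).length ≤ _
    rw [length_sg]; norm_num
  | succ t ih =>
    obtain ⟨ω, p⟩ := ω
    rw [Hf_succ hij hik hjk, List.length_append]
    have h1 := ih ω
    have h2 := length_seg (i := i) (j := j) (k := k) hij hik hjk t p
      (x + (2 ^ t) • eT i + Dt j k t ω)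
    have h3 : 2 ^ (t + 1) = 2 ^ t + 2 ^ t := by ring
    omega

lemma val_lev {c e : ZMod l} {s : ℕ} (hs : s < l) (h : e = c + (s : ℕ)) : (e - c).val = s := by
  rw [h, add_sub_cancel_left, ZMod.val_natCast, Nat.mod_eq_of_lt hs]

/-- a harmonic sum -/
lemma hsum (q : ℕ) (hq : 2 ^ q ≤ l) (ω : Om q) (x : Fin d → ZMod l) :
    ((Hf i j k q ω x).map fun s => 1 / (((s.1.1 i - x i).val : ℝ) + 1)).sum ≤ 3 * q + 1 := by
  induction q with
  | zero =>
    show ((sg i 1 x).map fun s => 1 / (((s.1.1 i - x i).val : ℝ) + 1)).sum ≤ _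
    show (1 / (((x i - x i).val : ℝ) + 1)) + 0 ≤ _
    rw [sub_self, ZMod.val_zero]
    norm_num
  | succ t ih =>
    have ht : 2 ^ t ≤ l := (Nat.pow_le_pow_right (by norm_num) (Nat.le_succ t)).trans hq
    obtain ⟨ω, p⟩ := ω
    rw [Hf_succ hij hik hjk, lsum_append]
    have h1 := ih ht ω
    have h2 : ((seg i j k t p.1 p.2.1 p.2.2 (x + (2 ^ t) • eT i + Dt j k t ω)).map fun s =>
        1 / (((s.1.1 i - x i).val : ℝ) + 1)).sum ≤
        ((seg i j k t p.1 p.2.1 p.2.2 (x + (2 ^ t) • eT i + Dt j k t ω)).map fun _ =>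
          ((2 : ℝ) ^ t)⁻¹).sum := by
      refine lsum_le fun s hs => ?_
      obtain ⟨-, -, s', h2, h3, h4, -⟩ := seg_Lc hij hik hjk p.1.2 (base_i hij hik hjk t ω x)
        (fun c h1 h2 h3 => base_c t ω x h1 h2 h3) (List.mem_map_of_mem hs)
      rw [val_lev hij hik hjk (by omega) h4, ← one_div]
      refine one_div_le_one_div_of_le (by positivity) ?_
      have : ((2 ^ t : ℕ) : ℝ) ≤ s' := by exact_mod_cast h2
      push_cast at this
      linarith
    rw [lsum_const] at h2
    have h3 : ((seg i j k t p.1 p.2.1 p.2.2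
        (x + (2 ^ t) • eT i + Dt j k t ω)).length : ℝ) * ((2 : ℝ) ^ t)⁻¹ ≤ 3 := by
      rw [← div_eq_mul_inv, div_le_iff₀ (by positivity)]
      exact_mod_cast length_seg (i := i) (j := j) (k := k) hij hik hjk t p _
    push_cast
    linarith

end half

end

end Pool.Agent.Y15
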