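import Mathlib
import Pool.Agent.Y15.Blk2

/-!
# Random blocks: symmetry and the weighted sums
-/

open MeasureTheory Matrix Filter
open scoped Matrix.Norms.Frobenius
open Pool.Agent.H906R3.YM hiding Pl
open Pool.Agent.W793.YM Pool.Agent.TH618.YM

namespace Pool.Agent.Y15

set_option linter.unusedSectionVars false
set_option linter.unusedVariables false

noncomputable section

section forward

variable {d l : ℕ}

lemma fw_mem {p q : Fin d → ZMod l} {w : List (Ed d l × Bool)} (h : isP p w q)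
    (hf : ∀ s ∈ w, s.2 = true) : ∀ e ∈ w.map Prod.fst, ∃ t < w.length,
      ∑ c, e.1 c = ∑ c, p c + (t : ℕ) := by
  induction w generalizing p with
  | nil => intro e he; simp at he
  | cons s w ih =>
    intro e he
    have hs := hf s List.mem_cons_self
    unfold isP at h
    rw [if_pos hs] at h
    rw [List.map_cons, List.mem_cons] at he
    rcases he with he | he
    · exact ⟨0, by simp, by rw [he, h.1]; simp⟩
    · obtain ⟨t, ht, h1⟩ := ih h.2 (fun s hs => hf s (List.mem_cons_of_mem _ hs)) e he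
      refine ⟨t + 1, by simpa using ht, ?_⟩
      rw [h1]
      have h2 : ∑ c, (p + eT s.1.2 : Fin d → ZMod l) c = ∑ c, p c + 1 := by
        simp only [Pi.add_apply]
        rw [Finset.sum_add_distrib]
        congr 1
        rw [Finset.sum_eq_single s.1.2]
        · exact eT_same _
        · intro c _ hc; exact eT_ne hc
        · intro h; exact absurd (Finset.mem_univ _) h
      rw [h2]
      push_cast; ring

lemma fw_ND {p q : Fin d → ZMod l} {w : List (Ed d l × Bool)} (h : isP p w q)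
    (hf : ∀ s ∈ w, s.2 = true) (hl : w.length ≤ l) : ND w := by
  induction w generalizing p with
  | nil => exact List.nodup_nil
  | cons s w ih =>
    have hs := hf s List.mem_cons_self
    have h' := h
    unfold isP at h
    rw [if_pos hs] at h
    have hf' : ∀ s ∈ w, s.2 = true := fun s hs => hf s (List.mem_cons_of_mem _ hs)
    rw [List.length_cons] at hl
    show ((s :: w).map Prod.fst).Nodup
    rw [List.map_cons, List.nodup_cons]
    refine ⟨fun he => ?_, ih h.2 hf' (by omega)⟩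
    obtain ⟨t, ht, h1⟩ := fw_mem h.2 hf' s.1 he
    have h2 : ∑ c, (p + eT s.1.2 : Fin d → ZMod l) c = ∑ c, p c + 1 := by
      simp only [Pi.add_apply]
      rw [Finset.sum_add_distrib]
      congr 1
      rw [Finset.sum_eq_single s.1.2]
      · exact eT_same _
      · intro c _ hc; exact eT_ne hc
      · intro h; exact absurd (Finset.mem_univ _) h
    rw [h2, h.1] at h1
    have h3 : ((t + 1 : ℕ) : ZMod l) = (0 : ℕ) := by
      push_cast
      linear_combination -h1
    have h4 := cast_inj (by omega) (by omega) h3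
    omega

lemma fw_sg (i : Fin d) (r : ℕ) (x : Fin d → ZMod l) : ∀ s ∈ sg i r x, s.2 = true := by
  intro s hs
  obtain ⟨t, ht, rfl⟩ := mem_sg.1 hs
  rfl

lemma fw_Hf {i j k : Fin d} (q : ℕ) (ω : Om q) (x : Fin d → ZMod l) :
    ∀ s ∈ Hf i j k q ω x, s.2 = true := by
  induction q with
  | zero => exact fw_sg i 1 x
  | succ t ih =>
    obtain ⟨ω, r, a, b⟩ := ω
    intro s hs
    have hs' : s ∈ Hf i j k t ω x ++ seg i j k t r a b (x + (2 ^ t) • eT i + Dt j k t ω) := hs
    rw [List.mem_append] at hs'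
    rcases hs' with hs' | hs'
    · exact ih ω s hs'
    · unfold seg at hs'
      rw [List.mem_append, List.mem_append, List.mem_append] at hs'
      rcases hs' with h | h | h | h
      · exact fw_sg _ _ _ s h
      · exact fw_sg _ _ _ s h
      · exact fw_sg _ _ _ s h
      · exact fw_sg _ _ _ s h

lemma rev_append' (w w' : List (Ed d l × Bool)) : rev (w ++ w') = rev w' ++ rev w := by
  unfold rev
  rw [List.map_append, List.reverse_append]

lemma length_rev' (w : List (Ed d l × Bool)) : (rev w).length = w.length := by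
  unfold rev
  rw [List.length_reverse, List.length_map]

lemma length_mr (i : Fin d) (c : ZMod l) (w : List (Ed d l × Bool)) :
    (mr i c w).length = w.length := by
  unfold mr
  rw [List.length_map]

lemma me_i {i : Fin d} (c : ZMod l) {e : Ed d l} (h : e.2 = i) :
    me i c e = (rf i c (e.1 + eT i), i) := by
  unfold me ml
  simp only [h, if_true]

lemma me_ne {i : Fin d} (c : ZMod l) {e : Ed d l} (h : e.2 ≠ i) :
    me i c e = (rf i c e.1, e.2) := by
  unfold me ml
  simp only [h, if_false]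

lemma sum_mir (i : Fin d) (c : ZMod l) (w : List (Ed d l × Bool)) (F : Ed d l → ℝ) :
    ((rev (mr i c w)).map fun s => F s.1).sum = (w.map fun s => F (me i c s.1)).sum := by
  unfold rev mr
  rw [List.map_reverse, List.sum_reverse, List.map_map, List.map_map]
  congr 1
  refine List.map_congr_left fun s _ => ?_
  simp only [Function.comp, ml_fst]

lemma sum_ind_le [NeZero l] (w : List (Ed d l × Bool)) {F : Ed d l → ℝ} (hF : ∀ e, 0 ≤ F e) :
    ∑ e, ind (e ∈ w.map Prod.fst) * F e ≤ (w.map fun s => F s.1).sum := by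
  induction w with
  | nil =>
    refine le_of_eq (Finset.sum_eq_zero fun e _ => ?_)
    rw [ind_false (by simp), zero_mul]
  | cons s w ih =>
    rw [List.map_cons, List.map_cons, List.sum_cons]
    have h1 : ∀ e, ind (e ∈ s.1 :: w.map Prod.fst) * F e ≤
        (if e = s.1 then F e else 0) + ind (e ∈ w.map Prod.fst) * F e := by
      intro e
      by_cases he : e = s.1
      · rw [if_pos he]
        have h2 := mul_le_mul_of_nonneg_right (ind_le_one (e ∈ s.1 :: w.map Prod.fst)) (hF e)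
        have h3 := mul_nonneg (ind_nonneg (e ∈ w.map Prod.fst)) (hF e)
        linarith
      · rw [if_neg he, zero_add]
        refine mul_le_mul_of_nonneg_right (ind_mono fun h => ?_) (hF e)
        rw [List.mem_cons] at h
        exact h.resolve_left he
    refine (Finset.sum_le_sum fun e _ => h1 e).trans ?_
    rw [Finset.sum_add_distrib, Finset.sum_ite_eq' Finset.univ s.1]
    simp only [Finset.mem_univ, if_true]
    linarith

end forward

section block

variable {d l : ℕ} (i j k : Fin d)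

/-- blocks -/
def bl (q : ℕ) (b : Om q × Om q) (x : Fin d → ZMod l) : List (Ed d l × Bool) :=
  Hf i j k q b.1 x ++
    rev (mr i (x i + ((2 ^ q : ℕ) : ZMod l)) (Hf i j k q b.2 (x + Dt j k q b.1 - Dt j k q b.2)))

/-- the displacement of a block -/
def db (q : ℕ) (b : Om q × Om q) : Fin d → ZMod l :=
  (2 ^ (q + 1)) • eT i + Dt j k q b.1 - Dt j k q b.2

variable {i j k}

lemma sh_bl (z : Fin d → ZMod l) (q : ℕ) (b : Om q × Om q) (x : Fin d → ZMod l) :
    sh z (bl i j k q b x) = bl i j k q b (x + z) := by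
  unfold bl
  rw [sh_append, sh_Hf, sh_rev, ← mr_sh, sh_Hf]
  congr 3
  · rw [Pi.add_apply]; ring
  · congr 1; abel

variable (hij : i ≠ j) (hik : i ≠ k) (hjk : j ≠ k)
include hij hik hjk

lemma db_i (q : ℕ) (b : Om q × Om q) : (db i j k q b : Fin d → ZMod l) i = (2 ^ (q + 1) : ℕ) := by
  unfold db
  rw [Pi.sub_apply, Pi.add_apply, smul_eT, if_pos rfl, Dt_i hij hik hjk, Dt_i hij hik hjk]
  simp

lemma isP_bl (q : ℕ) (b : Om q × Om q) (x : Fin d → ZMod l) :
    isP x (bl i j k q b x) (x + db i j k q b) := by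
  unfold bl
  refine isP_append (isP_Hf q b.1 x) ?_
  have h1 := isP_rev (isP_mr (i := i) (c := x i + ((2 ^ q : ℕ) : ZMod l))
    (isP_Hf (i := i) (j := j) (k := k) q b.2 (x + Dt j k q b.1 - Dt j k q b.2)))
  have h2 : rf i (x i + ((2 ^ q : ℕ) : ZMod l)) (x + Dt j k q b.1 - Dt j k q b.2 + (2 ^ q) • eT i +
      Dt j k q b.2) = x + (2 ^ q) • eT i + Dt j k q b.1 := by
    funext c
    by_cases hc : c = i
    · subst hc
      rw [rf_same, Pi.add_apply, Pi.add_apply, Pi.sub_apply, Pi.add_apply, Pi.add_apply,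
        Pi.add_apply, smul_eT, if_pos rfl, Dt_i hij hik hjk, Dt_i hij hik hjk]
      ring
    · rw [rf_ne hc, Pi.add_apply, Pi.add_apply, Pi.sub_apply, Pi.add_apply, Pi.add_apply,
        Pi.add_apply]
      ring
  have h3 : rf i (x i + ((2 ^ q : ℕ) : ZMod l)) (x + Dt j k q b.1 - Dt j k q b.2) =
      x + db i j k q b := by
    unfold db
    funext c
    by_cases hc : c = i
    · subst hc
      rw [rf_same, Pi.sub_apply, Pi.add_apply, Pi.add_apply, Pi.sub_apply, Pi.add_apply, smul_eT,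
        if_pos rfl, Dt_i hij hik hjk, Dt_i hij hik hjk, pow_succ]
      push_cast; ring
    · rw [rf_ne hc, Pi.add_apply, Pi.sub_apply, Pi.sub_apply, Pi.add_apply, Pi.add_apply, smul_eT,
        if_neg hc]
      ring
  rwa [h2, h3] at h1

/-- the mirror image of a block -/
lemma mir_bl (q : ℕ) (b : Om q × Om q) (x : Fin d → ZMod l) :
    rev (mr i (x i + ((2 ^ q : ℕ) : ZMod l)) (bl i j k q b x)) =
      bl i j k q (b.2, b.1) (x + Dt j k q b.1 - Dt j k q b.2) := by
  unfold bl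
  rw [mr_append, rev_append', mr_rev, mr_mr, rev_rev]
  simp only
  have h1 : (x + Dt j k q b.1 - Dt j k q b.2 : Fin d → ZMod l) i = x i := by
    rw [Pi.sub_apply, Pi.add_apply, Dt_i hij hik hjk, Dt_i hij hik hjk]; ring
  have h2 : x + Dt j k q b.1 - Dt j k q b.2 + Dt j k q b.2 - Dt j k q b.1 = x := by abel
  rw [h1, h2]

lemma me_lev {q : ℕ} {x z : Fin d → ZMod l} (hz : z i = x i) {e : Ed d l}
    (h : Lc i j k z 0 (2 ^ q) (me i (x i + ((2 ^ q : ℕ) : ZMod l)) e)) :
    Lc i j k z (2 ^ q) (2 ^ (q + 1)) e := by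
  have hp : 2 ^ (q + 1) = 2 ^ q + 2 ^ q := by ring
  obtain ⟨h1, h2, s, -, h3, h4, h5⟩ := h
  by_cases he : e.2 = i
  · rw [me_i _ he] at h1 h2 h4 h5
    refine ⟨Or.inl he, fun c hc1 hc2 hc3 => ?_, 2 ^ (q + 1) - 1 - s, by omega, by omega, ?_,
      fun h => absurd he h⟩
    · rw [← h2 c hc1 hc2 hc3]
      simp only
      rw [rf_ne hc1, Pi.add_apply, eT_ne hc1, add_zero]
    · simp only at h4
      rw [rf_same, Pi.add_apply, eT_same] at h4
      rw [hz] at h4 ⊢
      have h6 : ((2 ^ (q + 1) - 1 - s : ℕ) : ZMod l) = 2 * (2 ^ q : ℕ) - 1 - s := by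
        have h7 : 2 ^ (q + 1) - 1 - s + 1 + s = 2 ^ q + 2 ^ q := by omega
        have h8 := congrArg (Nat.cast : ℕ → ZMod l) h7
        push_cast at h8 ⊢
        linear_combination h8
      rw [h6]
      linear_combination -h4
  · rw [me_ne _ he] at h1 h2 h4 h5
    have h5' := h5 he
    refine ⟨h1, fun c hc1 hc2 hc3 => ?_, 2 ^ (q + 1) - s, by omega, by omega, ?_,
      fun _ => by omega⟩
    · rw [← h2 c hc1 hc2 hc3]
      simp only
      rw [rf_ne hc1]
    · simp only at h4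
      rw [rf_same] at h4
      rw [hz] at h4 ⊢
      have h6 : ((2 ^ (q + 1) - s : ℕ) : ZMod l) = 2 * (2 ^ q : ℕ) - s := by
        have h7 : 2 ^ (q + 1) - s + s = 2 ^ q + 2 ^ q := by omega
        have h8 := congrArg (Nat.cast : ℕ → ZMod l) h7
        push_cast at h8 ⊢
        linear_combination h8
      rw [h6]
      linear_combination -h4

lemma zi (q : ℕ) (b : Om q × Om q) (x : Fin d → ZMod l) :
    (x + Dt j k q b.1 - Dt j k q b.2 : Fin d → ZMod l) i = x i := by
  rw [Pi.sub_apply, Pi.add_apply, Dt_i hij hik hjk, Dt_i hij hik hjk]; ring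

omit hij hik hjk in
lemma zc {c : Fin d} (h2 : c ≠ j) (h3 : c ≠ k) (q : ℕ) (b : Om q × Om q) (x : Fin d → ZMod l) :
    (x + Dt j k q b.1 - Dt j k q b.2 : Fin d → ZMod l) c = x c := by
  rw [Pi.sub_apply, Pi.add_apply, Dt_c h2 h3, Dt_c h2 h3]; ring

lemma mem_bl {q : ℕ} {b : Om q × Om q} {x : Fin d → ZMod l} {e : Ed d l}
    (h : e ∈ (bl i j k q b x).map Prod.fst) :
    (e ∈ (Hf i j k q b.1 x).map Prod.fst ∧ Lc i j k x 0 (2 ^ q) e) ∨
    (me i (x i + ((2 ^ q : ℕ) : ZMod l)) e ∈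
      (Hf i j k q b.2 (x + Dt j k q b.1 - Dt j k q b.2)).map Prod.fst ∧
      Lc i j k x (2 ^ q) (2 ^ (q + 1)) e) := by
  unfold bl at h
  rw [List.map_append, List.mem_append] at h
  rcases h with h | h
  · exact Or.inl ⟨h, Hf_Lc hij hik hjk q b.1 h⟩
  · rw [fst_rev, fst_mr] at h
    refine Or.inr ⟨h, ?_⟩
    have h1 := Hf_Lc hij hik hjk q b.2 h
    obtain ⟨h2, h3, s, h4, h5, h6, h7⟩ := me_lev hij hik hjk (zi hij hik hjk q b x) h1
    refine ⟨h2, fun c h8 h9 h10 => ?_, s, h4, h5, ?_, h7⟩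
    · rw [h3 c h8 h9 h10, zc h9 h10]
    · rw [h6, zi hij hik hjk]

lemma bl_Lc {q : ℕ} {b : Om q × Om q} {x : Fin d → ZMod l} {e : Ed d l}
    (h : e ∈ (bl i j k q b x).map Prod.fst) : Lc i j k x 0 (2 ^ (q + 1)) e := by
  have hp : 2 ^ (q + 1) = 2 ^ q + 2 ^ q := by ring
  have hp1 : 1 ≤ 2 ^ q := Nat.one_le_two_pow
  rcases mem_bl hij hik hjk h with h | h
  · exact h.2.mono le_rfl (by omega)
  · exact h.2.mono (by omega) le_rfl

lemma length_bl (q : ℕ) (b : Om q × Om q) (x : Fin d → ZMod l) :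
    (bl i j k q b x).length ≤ 6 * 2 ^ q := by
  unfold bl
  rw [List.length_append, length_rev', length_mr]
  have h1 := length_Hf (i := i) (j := j) (k := k) hij hik hjk q b.1 x
  have h2 := length_Hf (i := i) (j := j) (k := k) hij hik hjk q b.2
    (x + Dt j k q b.1 - Dt j k q b.2)
  omega

lemma ND_bl (q : ℕ) (hq : 3 * 2 ^ q ≤ l) (b : Om q × Om q) (x : Fin d → ZMod l) :
    ND (bl i j k q b x) := by
  have hp : 2 ^ (q + 1) = 2 ^ q + 2 ^ q := by ring
  have hp1 : 1 ≤ 2 ^ q := Nat.one_le_two_pow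
  have h0 : ∀ (ω : Om q) (y : Fin d → ZMod l), ND (Hf i j k q ω y) := fun ω y =>
    fw_ND (isP_Hf q ω y) (fw_Hf q ω y) ((length_Hf hij hik hjk q ω y).trans hq)
  unfold bl ND
  rw [List.map_append, List.nodup_append]
  refine ⟨h0 _ _, ND_rev (ND_mr (h0 _ _)), fun e he e' he' hee => ?_⟩
  subst hee
  obtain ⟨-, -, s, h1, h2, h3, -⟩ := Hf_Lc hij hik hjk q b.1 he
  rw [fst_rev, fst_mr] at he'
  obtain ⟨-, -, s', h4, h5, h6, -⟩ := me_lev hij hik hjk (zi hij hik hjk q b x)
    (Hf_Lc hij hik hjk q b.2 he')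
  rw [zi hij hik hjk, h3] at h6
  have := cast_inj (by omega) (by omega) (add_left_cancel h6)
  omega

/-! ### the weights -/

/-- the occupation -/
def ob (i j k : Fin d) (q : ℕ) (x : Fin d → ZMod l) (e : Ed d l) : ℝ :=
  mn fun b : Om q × Om q => ind (e ∈ (bl i j k q b x).map Prod.fst)

/-- the two factors of the weights -/
def ga (i : Fin d) (q : ℕ) (c : ZMod l) (e : Ed d l) : ℝ :=
  min (((e.1 i - c).val : ℝ) + 1) (2 ^ q)

/-- the weights -/
def gg (i : Fin d) (q : ℕ) (c : ZMod l) (e : Ed d l) : ℝ :=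
  ga i q c e / ga i q c (me i (c + ((2 ^ q : ℕ) : ZMod l)) e)

omit hij hik hjk in
lemma ga_pos (i : Fin d) (q : ℕ) (c : ZMod l) (e : Ed d l) : 0 < ga i q c e :=
  lt_min (by positivity) (by positivity)

omit hij hik hjk in
lemma gg_pos (i : Fin d) (q : ℕ) (c : ZMod l) (e : Ed d l) : 0 < gg i q c e :=
  div_pos (ga_pos _ _ _ _) (ga_pos _ _ _ _)

omit hij hik hjk in
lemma gg_me (i : Fin d) (q : ℕ) (c : ZMod l) (e : Ed d l) :
    gg i q c (me i (c + ((2 ^ q : ℕ) : ZMod l)) e) = (gg i q c e)⁻¹ := by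
  unfold gg
  rw [me_me, inv_div]

omit hij hik hjk in
lemma ob_nonneg (q : ℕ) (x : Fin d → ZMod l) (e : Ed d l) : 0 ≤ ob i j k q x e :=
  mn_nonneg fun _ => ind_nonneg _

lemma ob_near {q : ℕ} (hq : 2 ^ (q + 1) ≤ l) {x : Fin d → ZMod l} {e : Ed d l} {s : ℕ}
    (hs : s < 2 ^ q) (he : e.1 i = x i + (s : ℕ)) : ob i j k q x e ≤ 20 / ((s : ℝ) + 1) ^ 2 := by
  have hp : 2 ^ (q + 1) = 2 ^ q + 2 ^ q := by ring
  refine le_trans ?_ (oc_le hij hik hjk q (by omega) x e hs he)
  unfold ob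
  rw [mn_prod]
  refine mn_mono fun ω => mn_le fun ω' => ind_mono fun h => ?_
  rcases mem_bl hij hik hjk h with h | h
  · exact h.1
  · obtain ⟨-, -, s', h1, h2, h3, -⟩ := h.2
    rw [he] at h3
    have := cast_inj (by omega) (by omega) (add_left_cancel h3)
    omega

lemma ob_far {q : ℕ} (hq : 2 ^ (q + 1) ≤ l) {x : Fin d → ZMod l} {e : Ed d l} {s : ℕ}
    (hs : 2 ^ q ≤ s) (hs2 : s < 2 ^ (q + 1)) (he : e.1 i = x i + (s : ℕ)) :
    ob i j k q x e ≤ 8 * ((4 : ℝ) ^ q)⁻¹ := by
  have hp : 2 ^ (q + 1) = 2 ^ q + 2 ^ q := by ring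
  refine le_trans ?_ (oc_far hij hik hjk q (by omega) x (me i (x i + ((2 ^ q : ℕ) : ZMod l)) e))
  unfold ob
  rw [mn_prod, mn_comm]
  refine mn_mono fun ω' => mn_mono fun ω => ind_mono fun h => ?_
  rcases mem_bl hij hik hjk h with h | h
  · obtain ⟨-, -, s', h1, h2, h3, -⟩ := h.2
    rw [he] at h3
    have := cast_inj (by omega) (by omega) (add_left_cancel h3)
    omega
  · exact h.1

/-- the weighted sum along one block -/
lemma row_one {q : ℕ} (hq : 2 ^ (q + 1) < l) {x x' : Fin d → ZMod l} (hx : x' i = x i)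
    (b : Om q × Om q) :
    ((bl i j k q b x).map fun s => gg i q (x i) s.1 * ob i j k q x' s.1).sum ≤
      28 * (3 * q + 1) / 2 ^ q := by
  have hp : 2 ^ (q + 1) = 2 ^ q + 2 ^ q := by ring
  have hp1 : 1 ≤ 2 ^ q := Nat.one_le_two_pow
  have h2q : (0 : ℝ) < 2 ^ q := by positivity
  -- links of the first half
  have near : ∀ (z : Fin d → ZMod l), z i = x i → ∀ e, Lc i j k z 0 (2 ^ q) e →
      ga i q (x i) e = (((e.1 i - x i).val : ℝ) + 1) ∧
      ga i q (x i) (me i (x i + ((2 ^ q : ℕ) : ZMod l)) e) = 2 ^ q := by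
    intro z hz e he
    obtain ⟨h1, h2, s, h3, h4, h5, h6⟩ := he
    rw [hz] at h5
    have hv : (e.1 i - x i).val = s := val_lev hij hik hjk (by omega) h5
    constructor
    · unfold ga
      rw [hv]
      refine min_eq_left ?_
      exact_mod_cast h4
    · obtain ⟨s', hs1, hs2, hs3⟩ : ∃ s', 2 ^ q ≤ s' ∧ s' ≤ 2 ^ (q + 1) ∧
          (me i (x i + ((2 ^ q : ℕ) : ZMod l)) e).1 i = x i + (s' : ℕ) := by
        by_cases hei : e.2 = i
        · refine ⟨2 ^ (q + 1) - 1 - s, by omega, by omega, ?_⟩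
          rw [me_i _ hei]
          simp only
          rw [rf_same, Pi.add_apply, eT_same, h5]
          have h7 : 2 ^ (q + 1) - 1 - s + 1 + s = 2 ^ q + 2 ^ q := by omega
          have h8 := congrArg (Nat.cast : ℕ → ZMod l) h7
          push_cast at h8 ⊢
          linear_combination -h8
        · refine ⟨2 ^ (q + 1) - s, by omega, by omega, ?_⟩
          rw [me_ne _ hei]
          simp only
          rw [rf_same, h5]
          have h7 : 2 ^ (q + 1) - s + s = 2 ^ q + 2 ^ q := by omega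
          have h8 := congrArg (Nat.cast : ℕ → ZMod l) h7
          push_cast at h8 ⊢
          linear_combination -h8
      unfold ga
      rw [val_lev hij hik hjk (by omega) hs3]
      refine min_eq_right ?_
      have : ((2 ^ q : ℕ) : ℝ) ≤ s' := by exact_mod_cast hs1
      push_cast at this
      linarith
  unfold bl
  rw [lsum_append]
  have h1 : ((Hf i j k q b.1 x).map fun s => gg i q (x i) s.1 * ob i j k q x' s.1).sum ≤
      20 / 2 ^ q * (3 * q + 1) := by
    refine le_trans (lsum_le (g := fun s => 20 / 2 ^ q *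
      (1 / (((s.1.1 i - x i).val : ℝ) + 1))) fun s hs => ?_) ?_
    · have h2 := Hf_Lc hij hik hjk q b.1 (List.mem_map_of_mem hs)
      obtain ⟨h3, h4⟩ := near x rfl s.1 h2
      obtain ⟨-, -, t, -, h5, h6, -⟩ := h2
      have hv : (s.1.1 i - x i).val = t := val_lev hij hik hjk (by omega) h6
      rw [← hx] at h6
      have h7 := ob_near hij hik hjk (q := q) (by omega) h5 h6
      unfold gg
      rw [h3, h4, hv]
      have h8 : (0 : ℝ) < (t : ℝ) + 1 := by positivity
      calc ((t : ℝ) + 1) / 2 ^ q * ob i j k q x' s.1 ≤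
          ((t : ℝ) + 1) / 2 ^ q * (20 / ((t : ℝ) + 1) ^ 2) :=
            mul_le_mul_of_nonneg_left h7 (by positivity)
        _ = _ := by field_simp
    · rw [lsum_cmul]
      exact mul_le_mul_of_nonneg_left (hsum hij hik hjk q (by omega) b.1 x) (by positivity)
  obtain ⟨z, hz⟩ : ∃ z, z = x + Dt j k q b.1 - Dt j k q b.2 := ⟨_, rfl⟩
  have hzi : z i = x i := by rw [hz]; exact zi hij hik hjk q b x
  have h2 : ((rev (mr i (x i + ((2 ^ q : ℕ) : ZMod l)) (Hf i j k q b.2 z))).map fun s =>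
      gg i q (x i) s.1 * ob i j k q x' s.1).sum ≤ 8 / 2 ^ q * (3 * q + 1) := by
    rw [sum_mir i _ _ (fun e => gg i q (x i) e * ob i j k q x' e)]
    refine le_trans (lsum_le (g := fun s => 8 / 2 ^ q *
      (1 / (((s.1.1 i - z i).val : ℝ) + 1))) fun s hs => ?_) ?_
    · have h2 := Hf_Lc hij hik hjk q b.2 (List.mem_map_of_mem hs)
      obtain ⟨h3, h4⟩ := near z hzi s.1 h2
      have h9 : Lc i j k z (2 ^ q) (2 ^ (q + 1)) (me i (x i + ((2 ^ q : ℕ) : ZMod l)) s.1) :=
        me_lev hij hik hjk hzi (by rw [me_me]; exact h2)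
      obtain ⟨-, -, t, h5, h6, h7, -⟩ := h9
      rw [hzi, ← hx] at h7
      have h8 := ob_far hij hik hjk (q := q) (by omega) h5 h6 h7
      rw [hx] at h7 h8
      rw [gg_me]
      unfold gg
      rw [h3, h4, inv_div, hzi]
      have h10 : (4 : ℝ) ^ q = 2 ^ q * 2 ^ q := by rw [← mul_pow]; norm_num
      have h11 : (0 : ℝ) < (((s.1.1 i - x i).val : ℝ) + 1) := by positivity
      calc 2 ^ q / (((s.1.1 i - x i).val : ℝ) + 1) * ob i j k q x'
            (me i (x i + ((2 ^ q : ℕ) : ZMod l)) s.1) ≤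
          2 ^ q / (((s.1.1 i - x i).val : ℝ) + 1) * (8 * ((4 : ℝ) ^ q)⁻¹) :=
            mul_le_mul_of_nonneg_left h8 (by positivity)
        _ = _ := by rw [h10]; field_simp
    · rw [lsum_cmul]
      exact mul_le_mul_of_nonneg_left (hsum hij hik hjk q (by omega) b.2 z) (by positivity)
  rw [hz] at h2
  refine (add_le_add h1 h2).trans (le_of_eq ?_)
  ring

/-- **The row sums.** -/
theorem row_sum [NeZero l] {q : ℕ} (hq : 2 ^ (q + 1) < l) {x x' : Fin d → ZMod l}
    (hx : x' i = x i) :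
    ∑ e, gg i q (x i) e * ob i j k q x e * ob i j k q x' e ≤ 28 * (3 * q + 1) / 2 ^ q := by
  have h1 : ∑ e, gg i q (x i) e * ob i j k q x e * ob i j k q x' e =
      mn fun b : Om q × Om q => ∑ e, ind (e ∈ (bl i j k q b x).map Prod.fst) *
        (gg i q (x i) e * ob i j k q x' e) := by
    rw [mn_sum]
    refine Finset.sum_congr rfl fun e _ => ?_
    rw [mn_mulc]
    unfold ob
    ring
  rw [h1]
  refine mn_le fun b => (sum_ind_le _ fun e => mul_nonneg (gg_pos _ _ _ _).le
    (ob_nonneg _ _ _)).trans (row_one hij hik hjk hq hx b)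

/-- the occupation seen from the end point -/
def oe (i j k : Fin d) (q : ℕ) (y : Fin d → ZMod l) (e : Ed d l) : ℝ :=
  mn fun b : Om q × Om q => ind (e ∈ (bl i j k q b (y - db i j k q b)).map Prod.fst)

lemma oe_eq (q : ℕ) (y : Fin d → ZMod l) (e : Ed d l) :
    oe i j k q y e = ob i j k q (y - (2 ^ (q + 1)) • eT i)
      (me i (y i - ((2 ^ (q + 1) : ℕ) : ZMod l) + ((2 ^ q : ℕ) : ZMod l)) e) := by
  unfold oe ob
  rw [← mn_equiv (Equiv.prodComm (Om q) (Om q)) (fun b : Om q × Om q =>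
    ind (me i (y i - ((2 ^ (q + 1) : ℕ) : ZMod l) + ((2 ^ q : ℕ) : ZMod l)) e ∈
      (bl i j k q b (y - (2 ^ (q + 1)) • eT i)).map Prod.fst))]
  congr 1
  funext b
  refine ind_congr ?_
  have h1 := mir_bl hij hik hjk q b (y - db i j k q b)
  have h2 : y - db i j k q b + Dt j k q b.1 - Dt j k q b.2 = y - (2 ^ (q + 1)) • eT i := by
    unfold db; abel
  have h3 : (y - db i j k q b : Fin d → ZMod l) i = y i - (2 ^ (q + 1) : ℕ) := by
    rw [Pi.sub_apply, db_i hij hik hjk]
  rw [h2, h3] at h1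
  show _ ↔ _ ∈ (bl i j k q (b.2, b.1) (y - (2 ^ (q + 1)) • eT i)).map Prod.fst
  rw [← h1, fst_rev, fst_mr, me_me]

/-- **The column sums.** -/
theorem col_sum [NeZero l] {q : ℕ} (hq : 2 ^ (q + 1) < l) {y y' : Fin d → ZMod l} {c : ZMod l}
    (hy : y i = c + (2 ^ (q + 1) : ℕ)) (hy' : y' i = c + (2 ^ (q + 1) : ℕ)) :
    ∑ e, (gg i q c e)⁻¹ * oe i j k q y e * oe i j k q y' e ≤ 28 * (3 * q + 1) / 2 ^ q := by
  obtain ⟨x, hx⟩ : ∃ x, x = y - (2 ^ (q + 1)) • eT i := ⟨_, rfl⟩
  obtain ⟨x', hx'⟩ : ∃ x', x' = y' - (2 ^ (q + 1)) • eT i := ⟨_, rfl⟩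
  have hxi : x i = c := by
    rw [hx, Pi.sub_apply, smul_eT, if_pos rfl, hy]; ring
  have hxi' : x' i = c := by
    rw [hx', Pi.sub_apply, smul_eT, if_pos rfl, hy']; ring
  have e1 : ∀ e, oe i j k q y e = ob i j k q x (me i (c + ((2 ^ q : ℕ) : ZMod l)) e) := fun e => by
    rw [oe_eq hij hik hjk, hx, hy, add_sub_cancel_right]
  have e2 : ∀ e, oe i j k q y' e = ob i j k q x' (me i (c + ((2 ^ q : ℕ) : ZMod l)) e) := fun e => by
    rw [oe_eq hij hik hjk, hx', hy', add_sub_cancel_right]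
  have h1 := row_sum hij hik hjk (q := q) hq (x := x) (x' := x') (by rw [hxi, hxi'])
  refine le_trans (le_of_eq ?_) h1
  rw [← Equiv.sum_comp (Function.Involutive.toPerm (me i (c + ((2 ^ q : ℕ) : ZMod l)))
    (me_me i (c + ((2 ^ q : ℕ) : ZMod l))))]
  refine Finset.sum_congr rfl fun e _ => ?_
  have h2 : (Function.Involutive.toPerm (me i (c + ((2 ^ q : ℕ) : ZMod l)))
    (me_me i (c + ((2 ^ q : ℕ) : ZMod l)))) e = me i (c + ((2 ^ q : ℕ) : ZMod l)) e := rfl
  rw [h2, e1, e2, me_me, gg_me, inv_inv, hxi]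

end block

end

end Pool.Agent.Y15
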