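import Mathlib
import Pool.Agent.Y15.Blk3

/-!
# The transfer operators and the Gram form
-/

open MeasureTheory Matrix Filter
open scoped Matrix.Norms.Frobenius
open Pool.Agent.H906R3.YM hiding Pl
open Pool.Agent.W793.YM Pool.Agent.TH618.YM

namespace Pool.Agent.Y15

set_option linter.unusedSectionVars false
set_option linter.unusedVariables false

noncomputable section

section mats

variable {N : ℕ} {ι κ : Type*} [Fintype ι] [Fintype κ]

/-- means of matrices -/
def mM (F : ι → Mat N) : Mat N := (Fintype.card ι : ℝ)⁻¹ • ∑ p, F p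

lemma co_mM (F : ι → Mat N) (c : Cx N) : co c (mM F) = mn fun p => co c (F p) := by
  unfold mM mn
  rw [map_smul, map_sum, smul_eq_mul]

lemma ip_mM (F : ι → Mat N) (B : Mat N) : ip (mM F) B = mn fun p => ip (F p) B := by
  simp only [ip_sum_co, co_mM]
  rw [mn_sum]
  refine Finset.sum_congr rfl fun c _ => ?_
  rw [mn_mulc]

lemma ip_mM' (F : ι → Mat N) (B : Mat N) : ip B (mM F) = mn fun p => ip B (F p) := by
  rw [ip_comm, ip_mM]
  simp only [ip_comm]

lemma norm_mM (F : ι → Mat N) : ‖mM F‖ ≤ mn fun p => ‖F p‖ := by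
  unfold mM mn
  rw [norm_smul, norm_inv, Real.norm_of_nonneg (Nat.cast_nonneg _)]
  exact mul_le_mul_of_nonneg_left (norm_sum_le _ _) (by positivity)

lemma ip_smul' (a : ℝ) (A B : Mat N) : ip (a • A) B = a * ip A B := by
  simp only [ip_sum_co, map_smul, smul_eq_mul]
  rw [Finset.mul_sum]
  exact Finset.sum_congr rfl fun c _ => by ring

lemma ip_smul_r (a : ℝ) (A B : Mat N) : ip A (a • B) = a * ip A B := by
  rw [ip_comm, ip_smul', ip_comm]

lemma ip_add_r (A B B' : Mat N) : ip A (B + B') = ip A B + ip A B' := by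
  rw [ip_comm, ip_add_left, ip_comm B, ip_comm B']

end mats

section planes

variable {d l : ℕ} [NeZero l]

/-- the sites of one plane -/
def pl (i : Fin d) (c : ZMod l) : Finset (Fin d → ZMod l) :=
  Finset.univ.filter fun x => x i = c

lemma mem_pl {i : Fin d} {c : ZMod l} {x : Fin d → ZMod l} : x ∈ pl i c ↔ x i = c := by
  unfold pl
  rw [Finset.mem_filter]
  exact ⟨fun h => h.2, fun h => ⟨Finset.mem_univ _, h⟩⟩

lemma sum_pl (i : Fin d) (c : ZMod l) (z : Fin d → ZMod l) {α : Type*} [AddCommMonoid α]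
    (f : (Fin d → ZMod l) → α) : ∑ x ∈ pl i c, f (x + z) = ∑ y ∈ pl i (c + z i), f y := by
  refine Finset.sum_bij' (fun x _ => x + z) (fun y _ => y - z) (fun x hx => ?_) (fun y hy => ?_)
    (fun x _ => by simp) (fun y _ => by simp) (fun x _ => rfl)
  · rw [mem_pl] at hx ⊢
    rw [Pi.add_apply, hx]
  · rw [mem_pl] at hy ⊢
    rw [Pi.sub_apply, hy, add_sub_cancel_right]

end planes

/-- functions of two sites with values in the matrices -/
abbrev St (d l N : ℕ) := (Fin d → ZMod l) → (Fin d → ZMod l) → Mat N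

section ops

variable {d l N : ℕ} [NeZero l] (i j k : Fin d)

/-- the transfer operators, without and with noise -/
def TO (q : ℕ) (b : ℝ) (s : Bool) (M : Ed d l → Mat N) (Φ : St d l N) : St d l N := fun x x' =>
  mM fun p : (Om q × Om q) × (Om q × Om q) =>
    cn b s M (bl i j k q p.1 x) (bl i j k q p.2 x') (Φ (x + db i j k q p.1) (x' + db i j k q p.2))

/-- combinations of the two -/
def XO (q : ℕ) (b : ℝ) (X : ℝ × ℝ) (M : Ed d l → Mat N) (Φ : St d l N) : St d l N := fun x x' =>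
  X.1 • TO i j k q b false M Φ x x' + X.2 • TO i j k q b true M Φ x x'

/-- the functions of the words -/
def PH (q : ℕ) (b : ℝ) (Ba : (Ed d l → Mat N) → St d l N) :
    List (ℝ × ℝ) → (Ed d l → Mat N) → St d l N
  | [], M => Ba M
  | X :: u, M => XO i j k q b X M (PH q b Ba u M)

variable {i j k}

lemma TO_tr (q : ℕ) (b : ℝ) (s : Bool) (M : Ed d l → Mat N) (Φ Φ' : St d l N)
    (z : Fin d → ZMod l) (h : ∀ x x', Φ x x' = Φ' (x + z) (x' + z)) (x x' : Fin d → ZMod l) :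
    TO i j k q b s (trM z M) Φ x x' = TO i j k q b s M Φ' (x + z) (x' + z) := by
  unfold TO
  congr 1
  funext p
  rw [cn_tr, sh_bl, sh_bl, h, add_right_comm, add_right_comm x']

lemma PH_tr {q : ℕ} {b : ℝ} {Ba Ba' : (Ed d l → Mat N) → St d l N} {z : Fin d → ZMod l}
    (h : ∀ M x x', Ba (trM z M) x x' = Ba' M (x + z) (x' + z)) (u : List (ℝ × ℝ))
    (M : Ed d l → Mat N) (x x' : Fin d → ZMod l) :
    PH i j k q b Ba u (trM z M) x x' = PH i j k q b Ba' u M (x + z) (x' + z) := by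
  induction u generalizing x x' with
  | nil => exact h M x x'
  | cons X u ih =>
    show XO i j k q b X (trM z M) (PH i j k q b Ba u (trM z M)) x x' =
      XO i j k q b X M (PH i j k q b Ba' u M) (x + z) (x' + z)
    unfold XO
    rw [TO_tr q b false M _ _ z ih, TO_tr q b true M _ _ z ih]

variable (hij : i ≠ j) (hik : i ≠ k) (hjk : j ≠ k)
include hij hik hjk

/-- the displacement of the reflected block -/
def dv (j k : Fin d) (i : Fin d) (q : ℕ) (b : Om q × Om q) : Fin d → ZMod l :=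
  Dt j k q b.1 - Dt j k q b.2 - (2 ^ (q + 1)) • eT i

omit hij hik hjk in
lemma dv_db (q : ℕ) (b : Om q × Om q) (x : Fin d → ZMod l) :
    x + dv j k i q b + db i j k q (b.2, b.1) = x := by
  unfold dv db
  abel

lemma dv_i (q : ℕ) (b : Om q × Om q) :
    (dv j k i q b : Fin d → ZMod l) i = -((2 ^ (q + 1) : ℕ) : ZMod l) := by
  unfold dv
  rw [Pi.sub_apply, Pi.sub_apply, smul_eT, if_pos rfl, Dt_i hij hik hjk, Dt_i hij hik hjk]
  ring

lemma rf_dv (q : ℕ) (b : Om q × Om q) {x : Fin d → ZMod l} (hx : x i = 0) :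
    rf i 0 (x + dv j k i q b) = x + db i j k q b := by
  unfold dv db
  funext c
  by_cases hc : c = i
  · subst hc
    rw [rf_same, Pi.add_apply, Pi.sub_apply, Pi.sub_apply, Pi.add_apply, Pi.sub_apply,
      Pi.add_apply, smul_eT, if_pos rfl, Dt_i hij hik hjk, Dt_i hij hik hjk, hx]
    ring
  · rw [rf_ne hc, Pi.add_apply, Pi.sub_apply, Pi.sub_apply, Pi.add_apply, Pi.sub_apply,
      Pi.add_apply, smul_eT, if_neg hc]
    ring

lemma rev_mr0 (q : ℕ) (b : Om q × Om q) {x : Fin d → ZMod l} (hx : x i = 0) :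
    rev (mr i 0 (bl i j k q b x)) = bl i j k q (b.2, b.1) (x + dv j k i q b) := by
  have h1 := mir_bl hij hik hjk q b x
  have h2 := mr_shift i (x i + ((2 ^ q : ℕ) : ZMod l)) (-((2 ^ q : ℕ) : ZMod l))
    (bl i j k q b x)
  rw [hx, zero_add, add_neg_cancel] at h2
  rw [hx, zero_add] at h1
  rw [h2, ← sh_rev, h1, sh_bl]
  congr 1
  unfold dv
  funext c
  by_cases hc : c = i
  · subst hc
    rw [Pi.add_apply, Pi.sub_apply, Pi.add_apply, Pi.smul_apply, eT_same, Pi.add_apply,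
      Pi.sub_apply, Pi.sub_apply, smul_eT, if_pos rfl, Dt_i hij hik hjk, Dt_i hij hik hjk,
      smul_eq_mul, pow_succ]
    push_cast
    ring
  · rw [Pi.add_apply, Pi.sub_apply, Pi.add_apply, Pi.smul_apply, eT_ne hc, Pi.add_apply,
      Pi.sub_apply, Pi.sub_apply, smul_eT, if_neg hc, smul_zero]
    ring

lemma cn_flip {b : ℝ} (hb : 0 < b) (s : Bool) (M : Ed d l → Mat N) (q : ℕ)
    (p p' : Om q × Om q) {x x' : Fin d → ZMod l} (hx : x i = 0) (hx' : x' i = 0) (A B : Mat N) :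
    ip (cn b s (thM i M) (bl i j k q p x) (bl i j k q p' x') A) B =
      ip A (cn b s M (bl i j k q (p.2, p.1) (x + dv j k i q p))
        (bl i j k q (p'.2, p'.1) (x' + dv j k i q p')) B) := by
  rw [cn_rf, cn_adj hb s M (r := rev (mr i 0 (bl i j k q p x)))
    (r' := rev (mr i 0 (bl i j k q p' x'))) (fun M' => pv_rev M' _) (fun M' => pv_rev M' _),
    rev_mr0 hij hik hjk q p hx, rev_mr0 hij hik hjk q p' hx']

/-- **The operators and the reflection.** -/
theorem TO_adj {b : ℝ} (hb : 0 < b) (s : Bool) (M : Ed d l → Mat N) (q : ℕ) (Φ Ψ : St d l N) :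
    ∑ x ∈ pl i 0, ∑ x' ∈ pl i 0, ip (TO i j k q b s (thM i M) Φ x x') (Ψ x x') =
      ∑ y ∈ pl i (-((2 ^ (q + 1) : ℕ) : ZMod l)), ∑ y' ∈ pl i (-((2 ^ (q + 1) : ℕ) : ZMod l)),
        ip (Φ (rf i 0 y) (rf i 0 y')) (TO i j k q b s M Ψ y y') := by
  obtain ⟨g, hg⟩ : ∃ g : (Om q × Om q) × (Om q × Om q) → (Fin d → ZMod l) →
      (Fin d → ZMod l) → ℝ, g = fun p y y' => ip (Φ (rf i 0 y) (rf i 0 y'))
        (cn b s M (bl i j k q (p.1.2, p.1.1) y) (bl i j k q (p.2.2, p.2.1) y')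
          (Ψ (y + db i j k q (p.1.2, p.1.1)) (y' + db i j k q (p.2.2, p.2.1)))) := ⟨_, rfl⟩
  have e1 : ∀ x ∈ pl i (0 : ZMod l), ∀ x' ∈ pl i (0 : ZMod l),
      ip (TO i j k q b s (thM i M) Φ x x') (Ψ x x') =
      mn fun p => g p (x + dv j k i q p.1) (x' + dv j k i q p.2) := by
    intro x hx x' hx'
    rw [mem_pl] at hx hx'
    unfold TO
    rw [ip_mM]
    congr 1
    funext p
    rw [cn_flip hij hik hjk hb s M q p.1 p.2 hx hx', hg]
    simp only
    rw [dv_db, dv_db, rf_dv hij hik hjk q p.1 hx, rf_dv hij hik hjk q p.2 hx']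
  have e2 : ∑ x ∈ pl i (0 : ZMod l), ∑ x' ∈ pl i (0 : ZMod l),
      ip (TO i j k q b s (thM i M) Φ x x') (Ψ x x') =
      ∑ x ∈ pl i (0 : ZMod l), ∑ x' ∈ pl i (0 : ZMod l),
        mn fun p => g p (x + dv j k i q p.1) (x' + dv j k i q p.2) :=
    Finset.sum_congr rfl fun x hx => Finset.sum_congr rfl fun x' hx' => e1 x hx x' hx'
  have e3 : ∑ x ∈ pl i (0 : ZMod l), ∑ x' ∈ pl i (0 : ZMod l),
        (mn fun p => g p (x + dv j k i q p.1) (x' + dv j k i q p.2)) =
      mn fun p => ∑ x ∈ pl i (0 : ZMod l), ∑ x' ∈ pl i (0 : ZMod l),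
        g p (x + dv j k i q p.1) (x' + dv j k i q p.2) := by
    rw [mn_sum]
    refine Finset.sum_congr rfl fun x _ => ?_
    rw [mn_sum]
  have e4 : ∀ p : (Om q × Om q) × (Om q × Om q),
      ∑ x ∈ pl i (0 : ZMod l), ∑ x' ∈ pl i (0 : ZMod l),
        g p (x + dv j k i q p.1) (x' + dv j k i q p.2) =
      ∑ y ∈ pl i (-((2 ^ (q + 1) : ℕ) : ZMod l)), ∑ y' ∈ pl i (-((2 ^ (q + 1) : ℕ) : ZMod l)),
        g p y y' := by
    intro p
    have f1 : ∀ x, ∑ x' ∈ pl i (0 : ZMod l), g p x (x' + dv j k i q p.2) =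
        ∑ y' ∈ pl i (-((2 ^ (q + 1) : ℕ) : ZMod l)), g p x y' := by
      intro x
      rw [sum_pl i 0 (dv j k i q p.2) (fun y' => g p x y'), dv_i hij hik hjk, zero_add]
    simp only [f1]
    rw [sum_pl i 0 (dv j k i q p.1) (fun x => ∑ y' ∈ pl i (-((2 ^ (q + 1) : ℕ) : ZMod l)),
      g p x y'), dv_i hij hik hjk, zero_add]
  rw [e2, e3]
  simp only [e4]
  rw [mn_sum]
  refine Finset.sum_congr rfl fun y _ => ?_
  rw [mn_sum]
  refine Finset.sum_congr rfl fun y' _ => ?_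
  unfold TO
  rw [ip_mM', ← mn_equiv (Equiv.prodCongr (Equiv.prodComm (Om q) (Om q))
    (Equiv.prodComm (Om q) (Om q)))]
  congr 1
  funext p
  rw [hg]
  rfl

lemma XO_adj {b : ℝ} (hb : 0 < b) (X : ℝ × ℝ) (M : Ed d l → Mat N) (q : ℕ) (Φ Ψ : St d l N) :
    ∑ x ∈ pl i 0, ∑ x' ∈ pl i 0, ip (XO i j k q b X (thM i M) Φ x x') (Ψ x x') =
      ∑ y ∈ pl i (-((2 ^ (q + 1) : ℕ) : ZMod l)), ∑ y' ∈ pl i (-((2 ^ (q + 1) : ℕ) : ZMod l)),
        ip (Φ (rf i 0 y) (rf i 0 y')) (XO i j k q b X M Ψ y y') := by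
  unfold XO
  simp only [ip_add_left, ip_add_r, ip_smul', ip_smul_r]
  simp only [Finset.sum_add_distrib, ← Finset.mul_sum]
  rw [TO_adj hij hik hjk hb, TO_adj hij hik hjk hb]

omit hij hik hjk in
/-- the translation which moves the plane of reflection back -/
lemma rf_shift' {z y : Fin d → ZMod l} (hz : ∀ c, c ≠ i → z c = 0) (hy : y i = -z i) :
    rf i 0 y + rf i 0 z = y + z := by
  funext c
  by_cases hc : c = i
  · subst hc
    rw [Pi.add_apply, rf_same, rf_same, Pi.add_apply, hy]; ring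
  · rw [Pi.add_apply, rf_ne hc, rf_ne hc, Pi.add_apply]

end ops

/-! ### the Gram form -/

variable {G : Type*} [Group G] [TopologicalSpace G]
  [IsTopologicalGroup G] [CompactSpace G] [SecondCountableTopology G] [MeasurableSpace G]
  [BorelSpace G] (μ : Measure G) [IsProbabilityMeasure μ] [μ.IsMulLeftInvariant]
  [μ.IsMulRightInvariant] [μ.IsInvInvariant] {N n : ℕ} {L : LD G N n}
  {d m : ℕ} [NeZero m] (i j k : Fin d)

variable (L) in
/-- the Gram form -/
def cg (β : ℝ) (q : ℕ) (b : ℝ) (Ba : (Ed d (2 * m) → Mat N) → St d (2 * m) N) (u : List (ℝ × ℝ))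
    (Ba' : (Ed d (2 * m) → Mat N) → St d (2 * m) N) (v : List (ℝ × ℝ)) : ℝ :=
  EX μ L β fun U => ∑ x ∈ pl i 0, ∑ x' ∈ pl i 0,
    ip (PH i j k q b Ba u (thM i (L.mat U)) x x') (PH i j k q b Ba' v (L.mat U) x x')

variable {i j k} (hij : i ≠ j) (hik : i ≠ k) (hjk : j ≠ k)

omit [IsTopologicalGroup G] [CompactSpace G] [SecondCountableTopology G] [MeasurableSpace G]
  [BorelSpace G] in
lemma thM_tr (z : Fin d → ZMod (2 * m)) (M : Ed d (2 * m) → Mat N) :
    thM i (trM z M) = trM (rf i 0 z) (thM i M) := by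
  funext e
  obtain ⟨x, c⟩ := e
  have h1 : ∀ y : Fin d → ZMod (2 * m), rf i 0 y + z = rf i 0 (y + rf i 0 z) := by
    intro y
    funext a
    by_cases h : a = i
    · subst h
      rw [Pi.add_apply, rf_same, rf_same, Pi.add_apply, rf_same]; ring
    · rw [Pi.add_apply, rf_ne h, rf_ne h, Pi.add_apply, rf_ne h]
  unfold thM trM
  by_cases h : c = i
  · subst h
    simp only [if_true]
    rw [h1, add_right_comm]
  · simp only [h, if_false]
    rw [h1]

include hij hik hjk in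
/-- **The operators are symmetric.** -/
theorem cg_adj {β : ℝ} {q : ℕ} {b : ℝ} (hb : 0 < b)
    {Ba Ba' : (Ed d (2 * m) → Mat N) → St d (2 * m) N}
    (hB : ∀ z : Fin d → ZMod (2 * m), (∀ c, c ≠ i → z c = 0) → ∀ M x x',
      Ba (trM z M) x x' = Ba M (x + z) (x' + z))
    (hB' : ∀ z : Fin d → ZMod (2 * m), (∀ c, c ≠ i → z c = 0) → ∀ M x x',
      Ba' (trM z M) x x' = Ba' M (x + z) (x' + z)) (X : ℝ × ℝ) (u v : List (ℝ × ℝ)) :
    cg μ L i j k β q b Ba (X :: u) Ba' v = cg μ L i j k β q b Ba u Ba' (X :: v) := by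
  obtain ⟨z, hz⟩ : ∃ z : Fin d → ZMod (2 * m), z = (2 ^ (q + 1)) • eT i := ⟨_, rfl⟩
  have hzc : ∀ c, c ≠ i → z c = 0 := fun c hc => by rw [hz, smul_eT, if_neg hc]
  have hzi : z i = ((2 ^ (q + 1) : ℕ) : ZMod (2 * m)) := by rw [hz, smul_eT, if_pos rfl]
  have hrz : ∀ c, c ≠ i → (rf i 0 z) c = 0 := fun c hc => by rw [rf_ne hc]; exact hzc c hc
  unfold cg
  have e1 : ∀ U : Ed d (2 * m) → G, ∑ x ∈ pl i 0, ∑ x' ∈ pl i 0,
      ip (PH i j k q b Ba (X :: u) (thM i (L.mat U)) x x') (PH i j k q b Ba' v (L.mat U) x x') =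
      ∑ y ∈ pl i (-((2 ^ (q + 1) : ℕ) : ZMod (2 * m))),
        ∑ y' ∈ pl i (-((2 ^ (q + 1) : ℕ) : ZMod (2 * m))),
        ip (PH i j k q b Ba u (thM i (L.mat U)) (rf i 0 y) (rf i 0 y'))
          (PH i j k q b Ba' (X :: v) (L.mat U) y y') := fun U =>
    XO_adj hij hik hjk hb X (L.mat U) q (PH i j k q b Ba u (thM i (L.mat U)))
      (PH i j k q b Ba' v (L.mat U))
  simp only [e1]
  rw [← EX_tr μ z (fun U : Ed d (2 * m) → G =>
    ∑ y ∈ pl i (-((2 ^ (q + 1) : ℕ) : ZMod (2 * m))),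
        ∑ y' ∈ pl i (-((2 ^ (q + 1) : ℕ) : ZMod (2 * m))),
        ip (PH i j k q b Ba u (thM i (L.mat U)) (rf i 0 y) (rf i 0 y'))
          (PH i j k q b Ba' (X :: v) (L.mat U) y y'))]
  congr 1
  funext U
  rw [mat_tr, thM_tr]
  obtain ⟨F, hF⟩ : ∃ F : (Fin d → ZMod (2 * m)) → (Fin d → ZMod (2 * m)) → ℝ, F = fun x x' =>
    ip (PH i j k q b Ba u (thM i (L.mat U)) x x') (PH i j k q b Ba' (X :: v) (L.mat U) x x') :=
    ⟨_, rfl⟩
  have e2 : ∀ y ∈ pl i (-((2 ^ (q + 1) : ℕ) : ZMod (2 * m))),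
      ∀ y' ∈ pl i (-((2 ^ (q + 1) : ℕ) : ZMod (2 * m))),
      ip (PH i j k q b Ba u (trM (rf i 0 z) (thM i (L.mat U))) (rf i 0 y) (rf i 0 y'))
          (PH i j k q b Ba' (X :: v) (trM z (L.mat U)) y y') = F (y + z) (y' + z) := by
    intro y hy y' hy'
    rw [mem_pl] at hy hy'
    rw [PH_tr (hB _ hrz) u, PH_tr (hB' _ hzc) (X :: v), rf_shift' hzc (by rw [hy, hzi]),
      rf_shift' hzc (by rw [hy', hzi]), hF]
  have e3 : ∀ y, ∑ y' ∈ pl i (-((2 ^ (q + 1) : ℕ) : ZMod (2 * m))), F (y + z) (y' + z) =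
      ∑ x' ∈ pl i 0, F (y + z) x' := by
    intro y
    rw [sum_pl i _ z (fun y' => F (y + z) y'), hzi, neg_add_cancel]
  rw [Finset.sum_congr rfl fun y hy => Finset.sum_congr rfl fun y' hy' => e2 y hy y' hy']
  simp only [e3]
  rw [sum_pl i _ z (fun y => ∑ x' ∈ pl i 0, F y x'), hzi, neg_add_cancel, hF]

/-! ### continuity and the dependence -/

lemma mat_bd (U : Ed d (2 * m) → G) :
    ∑ c, |xm (L.mat U) c| ≤ Fintype.card (Ed d (2 * m) × Cx N) * N := by
  refine (Finset.sum_le_sum fun c _ => co_le c.2 (U c.1)).trans ?_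
  rw [Finset.sum_const, Finset.card_univ, nsmul_eq_mul]

lemma mat_cont (e : Ed d (2 * m)) : Continuous fun U : Ed d (2 * m) → G => L.mat U e :=
  L.cont.comp (continuous_apply e)

lemma mM_cont {ι α : Type*} [Fintype ι] [TopologicalSpace α] {F : α → ι → Mat N}
    (h : ∀ p, Continuous fun u => F u p) : Continuous fun u => mM (F u) := by
  refine cont_mat fun c => ?_
  simp only [co_mM]
  unfold mn
  exact continuous_const.mul (continuous_finsetSum _ fun p _ => (co c).continuous.comp (h p))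

lemma TO_cont {q : ℕ} {b : ℝ} (hb : 0 < b) (s : Bool)
    {Φ : (Ed d (2 * m) → G) → St d (2 * m) N} (h : ∀ x x', Continuous fun U => Φ U x x')
    (x x' : Fin d → ZMod (2 * m)) :
    Continuous fun U : Ed d (2 * m) → G => TO i j k q b s (L.mat U) (Φ U) x x' :=
  mM_cont fun p => cn_cont hb s mat_cont mat_bd _ _ (h _ _)

lemma PH_cont {q : ℕ} {b : ℝ} (hb : 0 < b) {Ba : (Ed d (2 * m) → Mat N) → St d (2 * m) N}
    (h : ∀ x x', Continuous fun U : Ed d (2 * m) → G => Ba (L.mat U) x x') (u : List (ℝ × ℝ))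
    (x x' : Fin d → ZMod (2 * m)) :
    Continuous fun U : Ed d (2 * m) → G => PH i j k q b Ba u (L.mat U) x x' := by
  induction u generalizing x x' with
  | nil => exact h x x'
  | cons X u ih =>
    exact ((TO_cont hb false ih x x').const_smul X.1).add ((TO_cont hb true ih x x').const_smul X.2)

include hij hik hjk in
lemma PH_dep (hm : 2 ≤ m) {q : ℕ} {b : ℝ} {Ba : (Ed d (2 * m) → Mat N) → St d (2 * m) N}
    (h : ∀ M M' x x', x i = x' i → (∀ e : Ed d (2 * m), e.2 ≠ i → e.1 i = x i → M e = M' e) →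
      Ba M x x' = Ba M' x x') (u : List (ℝ × ℝ)) {M M' : Ed d (2 * m) → Mat N}
    (hM : ∀ e, HQ i e → M e = M' e) {x x' : Fin d → ZMod (2 * m)} {a : ℕ}
    (hx : x i = (a : ZMod (2 * m))) (hx' : x' i = (a : ZMod (2 * m)))
    (ha : a + u.length * 2 ^ (q + 1) ≤ m) :
    PH i j k q b Ba u M x x' = PH i j k q b Ba u M' x x' := by
  have hval : ∀ c : ℕ, c ≤ m → ((c : ZMod (2 * m))).val = c := fun c hc => by
    rw [ZMod.val_natCast, Nat.mod_eq_of_lt (by omega)]
  induction u generalizing x x' a with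
  | nil =>
    refine h M M' x x' (by rw [hx, hx']) fun e he hei => hM e ?_
    unfold HQ
    rw [if_neg he, hei, hx, hval a (by simpa using ha)]
    simpa using ha
  | cons X u ih =>
    rw [List.length_cons, add_mul, one_mul] at ha
    have key : ∀ s, TO i j k q b s M (PH i j k q b Ba u M) x x' =
        TO i j k q b s M' (PH i j k q b Ba u M') x x' := by
      intro s
      unfold TO
      congr 1
      funext p
      have h1 : PH i j k q b Ba u M (x + db i j k q p.1) (x' + db i j k q p.2) =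
          PH i j k q b Ba u M' (x + db i j k q p.1) (x' + db i j k q p.2) := by
        refine ih (a := a + 2 ^ (q + 1)) ?_ ?_ (by omega)
        · rw [Pi.add_apply, db_i hij hik hjk, hx]; push_cast; ring
        · rw [Pi.add_apply, db_i hij hik hjk, hx']; push_cast; ring
      have h2 : ∀ (c : Om q × Om q) (y : Fin d → ZMod (2 * m)), y i = (a : ZMod (2 * m)) →
          ∀ t ∈ bl i j k q c y, M t.1 = M' t.1 := by
        intro c y hy t ht
        obtain ⟨-, -, s, -, h3, h4, -⟩ := bl_Lc hij hik hjk (List.mem_map_of_mem ht)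
        refine hM _ ?_
        have h5 : t.1.1 i = ((a + s : ℕ) : ZMod (2 * m)) := by rw [h4, hy]; push_cast; ring
        unfold HQ
        rw [h5, hval (a + s) (by omega)]
        split_ifs
        · omega
        · omega
      rw [h1]
      exact cn_congr b s _ (h2 p.1 x hx) (h2 p.2 x' hx')
    show XO i j k q b X M (PH i j k q b Ba u M) x x' =
      XO i j k q b X M' (PH i j k q b Ba u M') x x'
    unfold XO
    rw [key false, key true]

include hij hik hjk in
/-- **The Cauchy-Schwarz inequality.** -/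
theorem cg_cs (hm : 2 ≤ m) {β : ℝ} {q : ℕ} {b : ℝ} (hb : 0 < b)
    {Ba Ba' : (Ed d (2 * m) → Mat N) → St d (2 * m) N}
    (hc : ∀ x x', Continuous fun U : Ed d (2 * m) → G => Ba (L.mat U) x x')
    (hc' : ∀ x x', Continuous fun U : Ed d (2 * m) → G => Ba' (L.mat U) x x')
    (hd : ∀ M M' x x', x i = x' i → (∀ e : Ed d (2 * m), e.2 ≠ i → e.1 i = x i → M e = M' e) →
      Ba M x x' = Ba M' x x')
    (hd' : ∀ M M' x x', x i = x' i → (∀ e : Ed d (2 * m), e.2 ≠ i → e.1 i = x i → M e = M' e) →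
      Ba' M x x' = Ba' M' x x') (u v : List (ℝ × ℝ)) (hu : u.length * 2 ^ (q + 1) ≤ m)
    (hv : v.length * 2 ^ (q + 1) ≤ m) :
    cg μ L i j k β q b Ba u Ba' v ^ 2 ≤
      cg μ L i j k β q b Ba u Ba u * cg μ L i j k β q b Ba' v Ba' v ∧
    0 ≤ cg μ L i j k β q b Ba u Ba u := by
  obtain ⟨P, hP⟩ : ∃ P : Finset (((Fin d → ZMod (2 * m)) × (Fin d → ZMod (2 * m))) × Cx N),
    P = (pl i 0 ×ˢ pl i 0) ×ˢ Finset.univ := ⟨_, rfl⟩
  obtain ⟨f, hf⟩ : ∃ f : (((Fin d → ZMod (2 * m)) × (Fin d → ZMod (2 * m))) × Cx N) →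
    (Ed d (2 * m) → G) → ℝ, f = fun c U => if c.1.1 i = 0 ∧ c.1.2 i = 0 then
      co c.2 (PH i j k q b Ba u (L.mat U) c.1.1 c.1.2) else 0 := ⟨_, rfl⟩
  obtain ⟨g, hg⟩ : ∃ g : (((Fin d → ZMod (2 * m)) × (Fin d → ZMod (2 * m))) × Cx N) →
    (Ed d (2 * m) → G) → ℝ, g = fun c U => if c.1.1 i = 0 ∧ c.1.2 i = 0 then
      co c.2 (PH i j k q b Ba' v (L.mat U) c.1.1 c.1.2) else 0 := ⟨_, rfl⟩
  have key : ∀ (A : (Ed d (2 * m) → Mat N) → St d (2 * m) N)
      (B : (Ed d (2 * m) → Mat N) → St d (2 * m) N) (w w' : List (ℝ × ℝ)),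
      (fun U : Ed d (2 * m) → G => ∑ c ∈ P, (if c.1.1 i = 0 ∧ c.1.2 i = 0 then
        co c.2 (PH i j k q b A w (L.mat ((SR hm i).tU U)) c.1.1 c.1.2) else 0) *
        (if c.1.1 i = 0 ∧ c.1.2 i = 0 then
        co c.2 (PH i j k q b B w' (L.mat U) c.1.1 c.1.2) else 0)) =
      fun U => ∑ x ∈ pl i 0, ∑ x' ∈ pl i 0,
        ip (PH i j k q b A w (thM i (L.mat U)) x x') (PH i j k q b B w' (L.mat U) x x') := by
    intro A B w w'
    funext U
    rw [hP, Finset.sum_product, Finset.sum_product]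
    refine Finset.sum_congr rfl fun x hx => Finset.sum_congr rfl fun x' hx' => ?_
    rw [mem_pl] at hx hx'
    simp only [hx, hx', and_self, if_true]
    rw [ip_sum_co, mat_ref]
  have hcont : ∀ (A : (Ed d (2 * m) → Mat N) → St d (2 * m) N),
      (∀ x x', Continuous fun U : Ed d (2 * m) → G => A (L.mat U) x x') →
      ∀ (w : List (ℝ × ℝ)) (c : ((Fin d → ZMod (2 * m)) × (Fin d → ZMod (2 * m))) × Cx N),
      Continuous fun U : Ed d (2 * m) → G => if c.1.1 i = 0 ∧ c.1.2 i = 0 then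
        co c.2 (PH i j k q b A w (L.mat U) c.1.1 c.1.2) else 0 := by
    intro A hA w c
    by_cases h : c.1.1 i = 0 ∧ c.1.2 i = 0
    · simp only [h, and_self, if_true]
      exact (co c.2).continuous.comp (PH_cont hb hA w _ _)
    · simp only [h, if_false]
      exact continuous_const
  have hdep : ∀ (A : (Ed d (2 * m) → Mat N) → St d (2 * m) N),
      (∀ M M' x x', x i = x' i → (∀ e : Ed d (2 * m), e.2 ≠ i → e.1 i = x i → M e = M' e) →
      A M x x' = A M' x x') → ∀ (w : List (ℝ × ℝ)), w.length * 2 ^ (q + 1) ≤ m →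
      ∀ (c : ((Fin d → ZMod (2 * m)) × (Fin d → ZMod (2 * m))) × Cx N),
      Dep (HQ i) fun U : Ed d (2 * m) → G => if c.1.1 i = 0 ∧ c.1.2 i = 0 then
        co c.2 (PH i j k q b A w (L.mat U) c.1.1 c.1.2) else 0 := by
    intro A hA w hw c U U' hU
    by_cases h : c.1.1 i = 0 ∧ c.1.2 i = 0
    · simp only [h, and_self, if_true]
      rw [PH_dep hij hik hjk hm hA w (M := L.mat U) (M' := L.mat U')
        (fun e he => by show L.rho (U e) = L.rho (U' e); rw [hU e he]) (a := 0)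
        (by rw [h.1]; simp) (by rw [h.2]; simp) (by omega)]
    · simp only [h, if_false]
  have h1 := srp_cs μ (L := L) hm i β P (f := f) (g := g)
    (fun c => by rw [hf]; exact hcont Ba hc u c) (fun c => by rw [hf]; exact hdep Ba hd u hu c)
    (fun c => by rw [hg]; exact hcont Ba' hc' v c) (fun c => by rw [hg]; exact hdep Ba' hd' v hv c)
  rw [hf, hg] at h1
  simp only [key] at h1
  exact h1

end

end Pool.Agent.Y15
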