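import Mathlib
import Pool.Agent.Y15.Gram

/-!
# Bounds for the transfer operators
-/

open MeasureTheory Matrix Filter
open scoped Matrix.Norms.Frobenius
open Pool.Agent.H906R3.YM hiding Pl
open Pool.Agent.W793.YM Pool.Agent.TH618.YM

namespace Pool.Agent.Y15

set_option linter.unusedSectionVars false
set_option linter.unusedVariables false

noncomputable section

section jensen

variable {ι : Type*} [Fintype ι]

lemma mn_sq [Nonempty ι] (f : ι → ℝ) : mn f ^ 2 ≤ mn fun p => f p ^ 2 := by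
  unfold mn
  have h1 := sq_sum_le_card_mul_sum_sq (s := (Finset.univ : Finset ι)) (f := f)
  rw [Finset.card_univ] at h1
  have h2 : (0 : ℝ) < Fintype.card ι := by exact_mod_cast Fintype.card_pos
  rw [mul_pow, pow_two (Fintype.card ι : ℝ)⁻¹, mul_assoc]
  refine mul_le_mul_of_nonneg_left ?_ (by positivity)
  rw [inv_mul_le_iff₀ h2]
  exact h1

lemma mn_pair {E : Type*} [Fintype E] (F : ι → E → ℝ) :
    ∑ a : ι × E, (Fintype.card ι : ℝ)⁻¹ * F a.1 a.2 = mn fun p => ∑ e, F p e := by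
  rw [Fintype.sum_prod_type]
  unfold mn
  rw [Finset.mul_sum]
  refine Finset.sum_congr rfl fun p _ => ?_
  rw [← Finset.mul_sum]

lemma cm_card {E : Type*} [Fintype E] [DecidableEq E] (w w' : List (E × Bool)) :
    ((cm w w').card : ℝ) = ∑ e, ind (e ∈ w.map Prod.fst) * ind (e ∈ w'.map Prod.fst) := by
  rw [Finset.card_eq_sum_ones, Nat.cast_sum, ← Finset.sum_filter_add_sum_filter_not
    (Finset.univ : Finset E) (fun e => e ∈ cm w w')]
  have h1 : ∑ e ∈ Finset.univ.filter (fun e => ¬e ∈ cm w w'),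
      ind (e ∈ w.map Prod.fst) * ind (e ∈ w'.map Prod.fst) = 0 := by
    refine Finset.sum_eq_zero fun e he => ?_
    rw [Finset.mem_filter, mem_cm] at he
    rw [← ind_and, ind_false he.2]
  have h2 : Finset.univ.filter (fun e => e ∈ cm w w') = cm w w' := by
    ext e; simp
  rw [h1, add_zero, h2]
  refine Finset.sum_congr rfl fun e he => ?_
  rw [mem_cm] at he
  rw [← ind_and, ind_true he, Nat.cast_one]

end jensen

section hs

variable {d l N : ℕ} [NeZero l] {i j k : Fin d}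

/-- the square of the Hilbert-Schmidt norm in one plane -/
def hn (i : Fin d) (Φ : St d l N) (c : ZMod l) : ℝ :=
  ∑ x ∈ pl i c, ∑ x' ∈ pl i c, ‖Φ x x'‖ ^ 2

lemma hn_nonneg (Φ : St d l N) (c : ZMod l) : 0 ≤ hn i Φ c :=
  Finset.sum_nonneg fun _ _ => Finset.sum_nonneg fun _ _ => sq_nonneg _

variable (hij : i ≠ j) (hik : i ≠ k) (hjk : j ≠ k)
include hij hik hjk

lemma sum_db (q : ℕ) (b b' : Om q × Om q) (c : ZMod l) (f : (Fin d → ZMod l) →
    (Fin d → ZMod l) → ℝ) :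
    ∑ x ∈ pl i c, ∑ x' ∈ pl i c, f (x + db i j k q b) (x' + db i j k q b') =
      ∑ y ∈ pl i (c + ((2 ^ (q + 1) : ℕ) : ZMod l)),
        ∑ y' ∈ pl i (c + ((2 ^ (q + 1) : ℕ) : ZMod l)), f y y' := by
  have h1 : ∀ x, ∑ x' ∈ pl i c, f x (x' + db i j k q b') =
      ∑ y' ∈ pl i (c + ((2 ^ (q + 1) : ℕ) : ZMod l)), f x y' := by
    intro x
    rw [sum_pl i c (db i j k q b') (fun y' => f x y'), db_i hij hik hjk]
  simp only [h1]
  rw [sum_pl i c (db i j k q b) (fun x => ∑ y' ∈ pl i (c + ((2 ^ (q + 1) : ℕ) : ZMod l)), f x y'),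
    db_i hij hik hjk]

/-- the operator without noise is a contraction -/
theorem hn_T {b : ℝ} {M : Ed d l → Mat N} (hM : Ctr M) (q : ℕ) (Φ : St d l N) (c : ZMod l) :
    hn i (TO i j k q b false M Φ) c ≤ hn i Φ (c + ((2 ^ (q + 1) : ℕ) : ZMod l)) := by
  have h1 : ∀ x x', ‖TO i j k q b false M Φ x x'‖ ^ 2 ≤
      mn fun p : (Om q × Om q) × (Om q × Om q) =>
        ‖Φ (x + db i j k q p.1) (x' + db i j k q p.2)‖ ^ 2 := by
    intro x x'
    refine le_trans (pow_le_pow_left₀ (norm_nonneg _) ?_ 2) (mn_sq _)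
    exact (norm_mM _).trans (mn_mono fun p => hM.cn_false b _ _ _)
  unfold hn
  refine (Finset.sum_le_sum fun x _ => Finset.sum_le_sum fun x' _ => h1 x x').trans ?_
  simp only [← mn_sum]
  refine mn_le fun p => le_of_eq ?_
  exact sum_db hij hik hjk q p.1 p.2 c (fun y y' => ‖Φ y y'‖ ^ 2)

/-- **The noise.** -/
theorem hn_D {b : ℝ} (hb : 0 < b) {M : Ed d l → Mat N} (hM : Ctr M) {q : ℕ}
    (hq : 2 ^ (q + 1) < l) (hq3 : 3 * 2 ^ q ≤ l) {κ : ℝ} {c0 : ℝ}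
    (hc0 : c0 = (Fintype.card (Cx N) : ℝ) * (1 / (2 * b)))
    (hκ : κ = N * (c0 * (1 + c0) ^ (6 * 2 ^ q))) (Φ : St d l N) (c : ZMod l) :
    hn i (fun x x' => TO i j k q b true M Φ x x' - TO i j k q b false M Φ x x') c ≤
      (κ * (28 * (3 * q + 1) / 2 ^ q)) ^ 2 * hn i Φ (c + ((2 ^ (q + 1) : ℕ) : ZMod l)) := by
  have hc00 : 0 ≤ c0 := by rw [hc0]; positivity
  have hκ0 : 0 ≤ κ := by rw [hκ]; positivity
  obtain ⟨Λ, hΛ⟩ : ∃ Λ : ℝ, Λ = 28 * (3 * q + 1) / 2 ^ q := ⟨_, rfl⟩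
  have hΛ0 : 0 ≤ Λ := by rw [hΛ]; positivity
  rw [← hΛ]
  obtain ⟨φ, hφ⟩ : ∃ φ : (Fin d → ZMod l) → (Fin d → ZMod l) → ℝ, φ = fun y y' => ‖Φ y y'‖ :=
    ⟨_, rfl⟩
  obtain ⟨I, hI⟩ : ∃ I : (Om q × Om q) → (Fin d → ZMod l) → Ed d l → ℝ, I = fun p x e =>
    ind (e ∈ (bl i j k q p x).map Prod.fst) := ⟨_, rfl⟩
  have hI0 : ∀ p x e, 0 ≤ I p x e := fun p x e => by rw [hI]; exact ind_nonneg _
  have hφ0 : ∀ y y', 0 ≤ φ y y' := fun y y' => by rw [hφ]; exact norm_nonneg _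
  obtain ⟨g, hg⟩ : ∃ g : Ed d l → ℝ, g = gg i q c := ⟨_, rfl⟩
  have hg0 : ∀ e, 0 < g e := fun e => by rw [hg]; exact gg_pos _ _ _ _
  -- pointwise
  have h1 : ∀ x x', ‖TO i j k q b true M Φ x x' - TO i j k q b false M Φ x x'‖ ≤
      κ * mn fun p : (Om q × Om q) × (Om q × Om q) => ∑ e, I p.1 x e * I p.2 x' e *
        φ (x + db i j k q p.1) (x' + db i j k q p.2) := by
    intro x x'
    have f1 : TO i j k q b true M Φ x x' - TO i j k q b false M Φ x x' =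
        mM fun p : (Om q × Om q) × (Om q × Om q) =>
          cn b true M (bl i j k q p.1 x) (bl i j k q p.2 x')
            (Φ (x + db i j k q p.1) (x' + db i j k q p.2)) -
          cn b false M (bl i j k q p.1 x) (bl i j k q p.2 x')
            (Φ (x + db i j k q p.1) (x' + db i j k q p.2)) := by
      unfold TO mM
      rw [← smul_sub, ← Finset.sum_sub_distrib]
    rw [f1]
    refine (norm_mM _).trans ?_
    rw [← mn_cmul]
    refine mn_mono fun p => ?_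
    have f2 := cn_diff hb (M := M) (K := 6 * 2 ^ q) (ND_bl hij hik hjk q hq3 p.1 x)
      (ND_bl hij hik hjk q hq3 p.2 x') (length_bl hij hik hjk q p.1 x)
      (length_bl hij hik hjk q p.2 x') hM.1 hM.2 hc0
      (Φ (x + db i j k q p.1) (x' + db i j k q p.2))
    rw [← hκ, cm_card] at f2
    refine f2.trans (le_of_eq ?_)
    rw [hI, hφ]
    simp only
    rw [← Finset.sum_mul]
    ring
  -- the Cauchy-Schwarz inequality
  have h2 : ∀ x ∈ pl i c, ∀ x' ∈ pl i c,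
      ‖TO i j k q b true M Φ x x' - TO i j k q b false M Φ x x'‖ ^ 2 ≤
      κ ^ 2 * Λ * mn fun p : (Om q × Om q) × (Om q × Om q) =>
        ∑ e, (g e)⁻¹ * I p.1 x e * I p.2 x' e *
        φ (x + db i j k q p.1) (x' + db i j k q p.2) ^ 2 := by
    intro x hx x' hx'
    rw [mem_pl] at hx hx'
    refine (pow_le_pow_left₀ (norm_nonneg _) (h1 x x') 2).trans ?_
    rw [mul_pow, mul_assoc]
    refine mul_le_mul_of_nonneg_left ?_ (sq_nonneg _)
    have f1 := Finset.sum_sq_le_sum_mul_sum_of_sq_eq_mul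
      (Finset.univ : Finset (((Om q × Om q) × (Om q × Om q)) × Ed d l))
      (r := fun a => (Fintype.card ((Om q × Om q) × (Om q × Om q)) : ℝ)⁻¹ *
        (I a.1.1 x a.2 * I a.1.2 x' a.2 * φ (x + db i j k q a.1.1) (x' + db i j k q a.1.2)))
      (f := fun a => (Fintype.card ((Om q × Om q) × (Om q × Om q)) : ℝ)⁻¹ *
        (g a.2 * I a.1.1 x a.2 * I a.1.2 x' a.2))
      (g := fun a => (Fintype.card ((Om q × Om q) × (Om q × Om q)) : ℝ)⁻¹ *
        ((g a.2)⁻¹ * I a.1.1 x a.2 * I a.1.2 x' a.2 *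
          φ (x + db i j k q a.1.1) (x' + db i j k q a.1.2) ^ 2))
      (fun a _ => mul_nonneg (by positivity) (mul_nonneg (mul_nonneg (hg0 _).le (hI0 _ _ _))
        (hI0 _ _ _)))
      (fun a _ => mul_nonneg (by positivity) (mul_nonneg (mul_nonneg (mul_nonneg
        (inv_nonneg.2 (hg0 _).le) (hI0 _ _ _)) (hI0 _ _ _)) (sq_nonneg _)))
      (fun a _ => by
        have := (hg0 a.2).ne'
        field_simp)
    rw [mn_pair (fun (p : (Om q × Om q) × (Om q × Om q)) e => I p.1 x e * I p.2 x' e *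
        φ (x + db i j k q p.1) (x' + db i j k q p.2)),
      mn_pair (fun (p : (Om q × Om q) × (Om q × Om q)) e => g e * I p.1 x e * I p.2 x' e),
      mn_pair (fun (p : (Om q × Om q) × (Om q × Om q)) e => (g e)⁻¹ * I p.1 x e * I p.2 x' e *
        φ (x + db i j k q p.1) (x' + db i j k q p.2) ^ 2)] at f1
    refine le_trans f1 ?_
    have f2 : (mn fun p : (Om q × Om q) × (Om q × Om q) =>
        ∑ e, g e * I p.1 x e * I p.2 x' e) ≤ Λ := by
      have f3 : (mn fun p : (Om q × Om q) × (Om q × Om q) =>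
        ∑ e, g e * I p.1 x e * I p.2 x' e) =
          ∑ e, gg i q (x i) e * ob i j k q x e * ob i j k q x' e := by
        rw [mn_sum]
        refine Finset.sum_congr rfl fun e _ => ?_
        rw [mn_prod]
        simp only [mn_cmul]
        rw [mn_mulc, mn_cmul, hg, hI, hx]
        rfl
      rw [f3, hΛ]
      exact row_sum hij hik hjk hq (by rw [hx, hx'])
    refine mul_le_mul_of_nonneg_right f2 ?_
    refine mn_nonneg fun p => Finset.sum_nonneg fun e _ => ?_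
    exact mul_nonneg (mul_nonneg (mul_nonneg
        (inv_nonneg.2 (hg0 _).le) (hI0 _ _ _)) (hI0 _ _ _)) (sq_nonneg _)
  unfold hn
  refine (Finset.sum_le_sum fun x hx => Finset.sum_le_sum fun x' hx' => h2 x hx x' hx').trans ?_
  simp only [← Finset.mul_sum, ← mn_sum]
  have h3 : (mn fun p : (Om q × Om q) × (Om q × Om q) => ∑ x ∈ pl i c, ∑ x' ∈ pl i c,
      ∑ e, (g e)⁻¹ * I p.1 x e * I p.2 x' e *
        φ (x + db i j k q p.1) (x' + db i j k q p.2) ^ 2) ≤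
      Λ * ∑ y ∈ pl i (c + ((2 ^ (q + 1) : ℕ) : ZMod l)),
        ∑ y' ∈ pl i (c + ((2 ^ (q + 1) : ℕ) : ZMod l)), φ y y' ^ 2 := by
    have f1 : ∀ p : (Om q × Om q) × (Om q × Om q), (∑ x ∈ pl i c, ∑ x' ∈ pl i c,
        ∑ e, (g e)⁻¹ * I p.1 x e * I p.2 x' e *
          φ (x + db i j k q p.1) (x' + db i j k q p.2) ^ 2) =
        ∑ y ∈ pl i (c + ((2 ^ (q + 1) : ℕ) : ZMod l)),
        ∑ y' ∈ pl i (c + ((2 ^ (q + 1) : ℕ) : ZMod l)),
        ∑ e, (g e)⁻¹ * I p.1 (y - db i j k q p.1) e * I p.2 (y' - db i j k q p.2) e *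
          φ y y' ^ 2 := by
      intro p
      rw [← sum_db hij hik hjk q p.1 p.2 c]
      simp only [add_sub_cancel_right]
    simp only [f1]
    rw [mn_sum]
    simp only [mn_sum]
    rw [Finset.mul_sum]
    refine Finset.sum_le_sum fun y hy => ?_
    rw [Finset.mul_sum]
    refine Finset.sum_le_sum fun y' hy' => ?_
    rw [mem_pl] at hy hy'
    have f2 : ∀ e, (mn fun p : (Om q × Om q) × (Om q × Om q) =>
        (g e)⁻¹ * I p.1 (y - db i j k q p.1) e * I p.2 (y' - db i j k q p.2) e *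
          φ y y' ^ 2) = (gg i q c e)⁻¹ * oe i j k q y e * oe i j k q y' e * φ y y' ^ 2 := by
      intro e
      rw [mn_mulc, mn_prod]
      simp only [mn_cmul]
      rw [mn_mulc, mn_cmul, hg, hI]
      rfl
    simp only [f2]
    rw [← Finset.sum_mul]
    refine mul_le_mul_of_nonneg_right ?_ (sq_nonneg _)
    rw [hΛ]
    exact col_sum hij hik hjk hq hy hy'
  calc κ ^ 2 * Λ * (mn fun p : (Om q × Om q) × (Om q × Om q) => ∑ x ∈ pl i c, ∑ x' ∈ pl i c,
      ∑ e, (g e)⁻¹ * I p.1 x e * I p.2 x' e *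
        φ (x + db i j k q p.1) (x' + db i j k q p.2) ^ 2) ≤
      κ ^ 2 * Λ * (Λ * ∑ y ∈ pl i (c + ((2 ^ (q + 1) : ℕ) : ZMod l)),
        ∑ y' ∈ pl i (c + ((2 ^ (q + 1) : ℕ) : ZMod l)), φ y y' ^ 2) :=
        mul_le_mul_of_nonneg_left h3 (by positivity)
    _ = _ := by rw [hφ]; ring

/-- the bound for one letter -/
lemma hn_X {b : ℝ} (hb : 0 < b) {M : Ed d l → Mat N} (hM : Ctr M) {q : ℕ}
    (hq : 2 ^ (q + 1) < l) (hq3 : 3 * 2 ^ q ≤ l) {κ : ℝ} {c0 : ℝ}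
    (hc0 : c0 = (Fintype.card (Cx N) : ℝ) * (1 / (2 * b)))
    (hκ : κ = N * (c0 * (1 + c0) ^ (6 * 2 ^ q))) (X : ℝ × ℝ) (Φ : St d l N) (c : ZMod l) :
    hn i (XO i j k q b X M Φ) c ≤ (2 * (X.1 + X.2) ^ 2 +
      2 * X.2 ^ 2 * (κ * (28 * (3 * q + 1) / 2 ^ q)) ^ 2) *
        hn i Φ (c + ((2 ^ (q + 1) : ℕ) : ZMod l)) := by
  have h1 := hn_T (N := N) hij hik hjk (b := b) hM q Φ c
  have h2 := hn_D (N := N) hij hik hjk hb hM hq hq3 hc0 hκ Φ c
  have h3 : hn i (XO i j k q b X M Φ) c ≤ 2 * (X.1 + X.2) ^ 2 *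
      hn i (TO i j k q b false M Φ) c + 2 * X.2 ^ 2 *
      hn i (fun x x' => TO i j k q b true M Φ x x' - TO i j k q b false M Φ x x') c := by
    unfold hn
    rw [Finset.mul_sum, Finset.mul_sum, ← Finset.sum_add_distrib]
    refine Finset.sum_le_sum fun x _ => ?_
    rw [Finset.mul_sum, Finset.mul_sum, ← Finset.sum_add_distrib]
    refine Finset.sum_le_sum fun x' _ => ?_
    obtain ⟨A, hA⟩ : ∃ A, A = TO i j k q b false M Φ x x' := ⟨_, rfl⟩
    obtain ⟨B, hB⟩ : ∃ B, B = TO i j k q b true M Φ x x' := ⟨_, rfl⟩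
    have f1 : XO i j k q b X M Φ x x' = (X.1 + X.2) • A + X.2 • (B - A) := by
      show X.1 • TO i j k q b false M Φ x x' + X.2 • TO i j k q b true M Φ x x' = _
      rw [← hA, ← hB, add_smul, smul_sub]
      abel
    rw [f1]
    beta_reduce
    rw [← hA, ← hB]
    have f2 := norm_add_le ((X.1 + X.2) • A) (X.2 • (B - A))
    rw [norm_smul, norm_smul, Real.norm_eq_abs, Real.norm_eq_abs] at f2
    have f3 := pow_le_pow_left₀ (norm_nonneg _) f2 2
    refine f3.trans ?_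
    have f4 : (|X.1 + X.2| * ‖A‖) ^ 2 = (X.1 + X.2) ^ 2 * ‖A‖ ^ 2 := by rw [mul_pow, sq_abs]
    have f5 : (|X.2| * ‖B - A‖) ^ 2 = X.2 ^ 2 * ‖B - A‖ ^ 2 := by rw [mul_pow, sq_abs]
    nlinarith [sq_nonneg (|X.1 + X.2| * ‖A‖ - |X.2| * ‖B - A‖)]
  refine h3.trans ?_
  have h4 := mul_le_mul_of_nonneg_left h1 (by positivity : 0 ≤ 2 * (X.1 + X.2) ^ 2)
  have h5 := mul_le_mul_of_nonneg_left h2 (by positivity : 0 ≤ 2 * X.2 ^ 2)
  linarith

/-- the constants of the words -/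
def Bw (e : ℝ) : List (ℝ × ℝ) → ℝ
  | [] => 1
  | X :: u => (2 * (X.1 + X.2) ^ 2 + 2 * X.2 ^ 2 * e ^ 2) * Bw e u

omit hij hik hjk in
lemma Bw_nonneg (e : ℝ) (u : List (ℝ × ℝ)) : 0 ≤ Bw e u := by
  induction u with
  | nil => exact zero_le_one
  | cons X u ih => exact mul_nonneg (by positivity) ih

lemma hn_PH {b : ℝ} (hb : 0 < b) {M : Ed d l → Mat N} (hM : Ctr M) {q : ℕ}
    (hq : 2 ^ (q + 1) < l) (hq3 : 3 * 2 ^ q ≤ l) {κ : ℝ} {c0 : ℝ}
    (hc0 : c0 = (Fintype.card (Cx N) : ℝ) * (1 / (2 * b)))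
    (hκ : κ = N * (c0 * (1 + c0) ^ (6 * 2 ^ q))) {Ba : (Ed d l → Mat N) → St d l N} {B0 : ℝ}
    (hB : ∀ c, hn i (Ba M) c ≤ B0) (u : List (ℝ × ℝ)) (c : ZMod l) :
    hn i (PH i j k q b Ba u M) c ≤ Bw (κ * (28 * (3 * q + 1) / 2 ^ q)) u * B0 := by
  induction u generalizing c with
  | nil =>
    show hn i (Ba M) c ≤ 1 * B0
    rw [one_mul]
    exact hB c
  | cons X u ih =>
    refine (hn_X hij hik hjk hb hM hq hq3 hc0 hκ X _ c).trans ?_
    show _ ≤ (2 * (X.1 + X.2) ^ 2 + 2 * X.2 ^ 2 * (κ * (28 * (3 * q + 1) / 2 ^ q)) ^ 2) *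
      Bw _ u * B0
    rw [mul_assoc _ _ B0]
    exact mul_le_mul_of_nonneg_left (ih _) (by positivity)

lemma hn_PHD {b : ℝ} (hb : 0 < b) {M : Ed d l → Mat N} (hM : Ctr M) {q : ℕ}
    (hq : 2 ^ (q + 1) < l) (hq3 : 3 * 2 ^ q ≤ l) {κ : ℝ} {c0 : ℝ}
    (hc0 : c0 = (Fintype.card (Cx N) : ℝ) * (1 / (2 * b)))
    (hκ : κ = N * (c0 * (1 + c0) ^ (6 * 2 ^ q))) {Ba : (Ed d l → Mat N) → St d l N} {B0 : ℝ}
    (hB : ∀ c, hn i (Ba M) c ≤ B0) (n : ℕ) (u : List (ℝ × ℝ)) (c : ZMod l) :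
    hn i (PH i j k q b Ba (List.replicate n (-1, 1) ++ u) M) c ≤
      ((κ * (28 * (3 * q + 1) / 2 ^ q)) ^ 2) ^ n *
        (Bw (κ * (28 * (3 * q + 1) / 2 ^ q)) u * B0) := by
  induction n generalizing c with
  | zero =>
    rw [pow_zero, one_mul]
    exact hn_PH hij hik hjk hb hM hq hq3 hc0 hκ hB u c
  | succ n ih =>
    have h1 : PH i j k q b Ba (List.replicate (n + 1) (-1, 1) ++ u) M = fun x x' =>
        TO i j k q b true M (PH i j k q b Ba (List.replicate n (-1, 1) ++ u) M) x x' -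
        TO i j k q b false M (PH i j k q b Ba (List.replicate n (-1, 1) ++ u) M) x x' := by
      funext x x'
      obtain ⟨Ψ, hΨ⟩ : ∃ Ψ, Ψ = PH i j k q b Ba (List.replicate n (-1, 1) ++ u) M := ⟨_, rfl⟩
      have h2 : PH i j k q b Ba (List.replicate (n + 1) (-1, 1) ++ u) M x x' =
        (-1 : ℝ) • TO i j k q b false M (PH i j k q b Ba (List.replicate n (-1, 1) ++ u) M) x x' +
          (1 : ℝ) • TO i j k q b true M
            (PH i j k q b Ba (List.replicate n (-1, 1) ++ u) M) x x' := rfl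
      rw [h2, ← hΨ, one_smul, neg_one_smul]
      exact neg_add_eq_sub _ _
    rw [h1]
    refine (hn_D hij hik hjk hb hM hq hq3 hc0 hκ _ c).trans ?_
    rw [pow_succ' (_ ^ 2) n, mul_assoc]
    exact mul_le_mul_of_nonneg_left (ih _) (sq_nonneg _)

end hs

end

end Pool.Agent.Y15
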