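import Mathlib
import Pool.Agent.Y15.Gram2

/-!
# Kernels of the powers of the transfer operator, pinned functions
-/

open MeasureTheory Matrix Filter
open scoped Matrix.Norms.Frobenius
open Pool.Agent.H906R3.YM hiding Pl
open Pool.Agent.W793.YM Pool.Agent.TH618.YM

namespace Pool.Agent.Y15

set_option linter.unusedSectionVars false
set_option linter.unusedVariables false

noncomputable section

section mats

variable {N : ℕ} {ι κ σ : Type*} [Fintype ι] [Fintype κ]

lemma mM_mul (F : ι → Mat N) (C : Mat N) (F' : κ → Mat N) :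
    mM F * C * (mM F')ᴴ = mM fun p : ι × κ => F p.1 * C * (F' p.2)ᴴ := by
  unfold mM
  rw [conjTranspose_smul, conjTranspose_sum, star_trivial, smul_mul_assoc, smul_mul_assoc,
    mul_smul_comm, smul_smul, Fintype.card_prod, Nat.cast_mul, mul_inv, Finset.sum_mul,
    Finset.sum_mul, Fintype.sum_prod_type]
  congr 1
  refine Finset.sum_congr rfl fun a _ => ?_
  rw [Finset.mul_sum]

lemma mM_sum (s : Finset σ) (F : ι → σ → Mat N) :
    (mM fun p => ∑ y ∈ s, F p y) = ∑ y ∈ s, mM fun p => F p y := by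
  unfold mM
  rw [Finset.sum_comm, Finset.smul_sum]

lemma mM_zero : mM (fun _ : ι => (0 : Mat N)) = 0 := by
  unfold mM
  simp

lemma ip_one (A : Mat N) : ip 1 (A * 1 * Aᴴ) = ‖A‖ ^ 2 := by
  rw [← norm_ct, norm_sq_ip, ip_apply, ip_apply, conjTranspose_one, one_mul, mul_one,
    conjTranspose_conjTranspose]

end mats

section ker

variable {d l N : ℕ} [NeZero l] (i j k : Fin d)

/-- the kernels of the powers -/
def Ke (q : ℕ) : ℕ → (Ed d l → Mat N) → St d l N
  | 0, _ => fun x y => if x = y then 1 else 0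
  | n + 1, M => fun x y => mM fun b : Om q × Om q =>
      pv M (bl i j k q b x) * Ke q n M (x + db i j k q b) y

variable {i j k}

lemma PH_T (q : ℕ) (b : ℝ) (Ba : (Ed d l → Mat N) → St d l N) (v : List (ℝ × ℝ))
    (M : Ed d l → Mat N) (x x' : Fin d → ZMod l) :
    PH i j k q b Ba ((1, 0) :: v) M x x' = TO i j k q b false M (PH i j k q b Ba v M) x x' := by
  show (1 : ℝ) • TO i j k q b false M _ x x' + (0 : ℝ) • TO i j k q b true M _ x x' = _
  rw [one_smul, zero_smul, add_zero]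

lemma PH_Ke (q : ℕ) (b : ℝ) (Ba : (Ed d l → Mat N) → St d l N) (n : ℕ) (v : List (ℝ × ℝ))
    (M : Ed d l → Mat N) (x x' : Fin d → ZMod l) :
    PH i j k q b Ba (List.replicate n (1, 0) ++ v) M x x' =
      ∑ y, ∑ y', Ke i j k q n M x y * PH i j k q b Ba v M y y' * (Ke i j k q n M x' y')ᴴ := by
  induction n generalizing x x' with
  | zero =>
    have h1 : ∀ y y' : Fin d → ZMod l, Ke i j k q 0 M x y * PH i j k q b Ba v M y y' *
        (Ke i j k q 0 M x' y')ᴴ = if x = y then (if x' = y' then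
          PH i j k q b Ba v M y y' else 0) else 0 := by
      intro y y'
      show (if x = y then (1 : Mat N) else 0) * _ * (if x' = y' then (1 : Mat N) else 0)ᴴ = _
      split_ifs <;> simp
    simp only [h1]
    rw [Finset.sum_eq_single x, Finset.sum_eq_single x']
    · simp
    · intro y' _ hy'; simp [Ne.symm hy']
    · intro h; exact absurd (Finset.mem_univ _) h
    · intro y _ hy
      refine Finset.sum_eq_zero fun y' _ => ?_
      rw [if_neg (Ne.symm hy)]
    · intro h; exact absurd (Finset.mem_univ _) h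
  | succ n ih =>
    rw [List.replicate_succ, List.cons_append, PH_T]
    unfold TO
    have h1 : ∀ p : (Om q × Om q) × (Om q × Om q),
        cn b false M (bl i j k q p.1 x) (bl i j k q p.2 x')
          (PH i j k q b Ba (List.replicate n (1, 0) ++ v) M (x + db i j k q p.1)
            (x' + db i j k q p.2)) =
        ∑ y, ∑ y', (pv M (bl i j k q p.1 x) * Ke i j k q n M (x + db i j k q p.1) y) *
          PH i j k q b Ba v M y y' *
          (pv M (bl i j k q p.2 x') * Ke i j k q n M (x' + db i j k q p.2) y')ᴴ := by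
      intro p
      rw [cn_false, ih, Finset.mul_sum, Finset.sum_mul]
      refine Finset.sum_congr rfl fun y _ => ?_
      rw [Finset.mul_sum, Finset.sum_mul]
      refine Finset.sum_congr rfl fun y' _ => ?_
      rw [conjTranspose_mul]
      simp only [mul_assoc]
    simp only [h1]
    rw [mM_sum]
    refine Finset.sum_congr rfl fun y _ => ?_
    rw [mM_sum]
    refine Finset.sum_congr rfl fun y' _ => ?_
    rw [← mM_mul (fun b : Om q × Om q => pv M (bl i j k q b x) *
      Ke i j k q n M (x + db i j k q b) y) (PH i j k q b Ba v M y y')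
      (fun b : Om q × Om q => pv M (bl i j k q b x') *
      Ke i j k q n M (x' + db i j k q b) y')]
    rfl

/-- the point of a plane -/
def pt (i : Fin d) (z : Fin d → ZMod l) (c : ZMod l) : Fin d → ZMod l := Function.update z i c

lemma pt_i (z : Fin d → ZMod l) (c : ZMod l) : pt i z c i = c := Function.update_self _ _ _

lemma pt_ne {a : Fin d} (h : a ≠ i) (z : Fin d → ZMod l) (c : ZMod l) : pt i z c a = z a :=
  Function.update_of_ne h _ _

lemma eq_pt {x z : Fin d → ZMod l} {c : ZMod l} (h : ∀ a, a ≠ i → x a = z a) (hi : x i = c) :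
    x = pt i z c := by
  funext a
  by_cases ha : a = i
  · subst ha; rw [pt_i, hi]
  · rw [pt_ne ha, h a ha]

/-- the pinned functions -/
def pin (i : Fin d) (z : Fin d → ZMod l) (M : Ed d l → Mat N) : St d l N := fun x x' =>
  if (∀ a, a ≠ i → x a = z a) ∧ (∀ a, a ≠ i → x' a = z a) then 1 else 0

lemma pin_tr (i : Fin d) (z a : Fin d → ZMod l) (M : Ed d l → Mat N) (x x' : Fin d → ZMod l) :
    pin i z (trM a M) x x' = pin i (z + a) M (x + a) (x' + a) := by
  unfold pin
  simp only [Pi.add_apply, add_left_inj]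

lemma pin_congr {z z' : Fin d → ZMod l} (h : ∀ a, a ≠ i → z a = z' a) :
    (pin i z : (Ed d l → Mat N) → St d l N) = pin i z' := by
  funext M x x'
  unfold pin
  have h1 : (∀ a, a ≠ i → x a = z a) ↔ ∀ a, a ≠ i → x a = z' a :=
    ⟨fun h2 a ha => by rw [h2 a ha, h a ha], fun h2 a ha => by rw [h2 a ha, h a ha]⟩
  have h3 : (∀ a, a ≠ i → x' a = z a) ↔ ∀ a, a ≠ i → x' a = z' a :=
    ⟨fun h2 a ha => by rw [h2 a ha, h a ha], fun h2 a ha => by rw [h2 a ha, h a ha]⟩
  exact if_congr (and_congr h1 h3) rfl rfl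

lemma pin_cov (i : Fin d) (z a : Fin d → ZMod l) (ha : ∀ c, c ≠ i → a c = 0)
    (M : Ed d l → Mat N) (x x' : Fin d → ZMod l) :
    pin i z (trM a M) x x' = pin i z M (x + a) (x' + a) := by
  rw [pin_tr, pin_congr (i := i) (z := z + a) (z' := z) fun c hc => by
    rw [Pi.add_apply, ha c hc, add_zero]]

lemma pin_sum (i : Fin d) (z : Fin d → ZMod l) (M : Ed d l → Mat N) (c : ZMod l)
    (f : Mat N → ℝ) (hf : f 0 = 0) :
    ∑ x ∈ pl i c, ∑ x' ∈ pl i c, f (pin i z M x x') = f 1 := by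
  have h0 : pt i z c ∈ pl i c := mem_pl.2 (pt_i z c)
  rw [Finset.sum_eq_single (pt i z c), Finset.sum_eq_single (pt i z c)]
  · unfold pin
    rw [if_pos ⟨fun a ha => pt_ne ha z c, fun a ha => pt_ne ha z c⟩]
  · intro x' hx' hne
    unfold pin
    rw [if_neg, hf]
    exact fun h => hne (eq_pt h.2 (mem_pl.1 hx'))
  · intro h; exact absurd h0 h
  · intro x hx hne
    refine Finset.sum_eq_zero fun x' _ => ?_
    unfold pin
    rw [if_neg, hf]
    exact fun h => hne (eq_pt h.1 (mem_pl.1 hx))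
  · intro h; exact absurd h0 h

variable (hij : i ≠ j) (hik : i ≠ k) (hjk : j ≠ k)
include hij hik hjk

lemma Ke_zero (q n : ℕ) (M : Ed d l → Mat N) {x y : Fin d → ZMod l}
    (h : y i ≠ x i + ((n * 2 ^ (q + 1) : ℕ) : ZMod l)) : Ke i j k q n M x y = 0 := by
  induction n generalizing x with
  | zero =>
    show (if x = y then (1 : Mat N) else 0) = 0
    rw [if_neg]
    rintro rfl
    simp at h
  | succ n ih =>
    show mM (fun b : Om q × Om q => pv M (bl i j k q b x) *
      Ke i j k q n M (x + db i j k q b) y) = 0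
    have h1 : ∀ b : Om q × Om q, pv M (bl i j k q b x) *
        Ke i j k q n M (x + db i j k q b) y = 0 := by
      intro b
      rw [ih, mul_zero]
      rw [Pi.add_apply, db_i hij hik hjk]
      intro h2
      refine h ?_
      rw [h2]
      push_cast
      ring
    simp only [h1]
    exact mM_zero

lemma PH_pin (q : ℕ) (b : ℝ) (n : ℕ) (z : Fin d → ZMod l) (M : Ed d l → Mat N)
    (x x' : Fin d → ZMod l) : PH i j k q b (pin i z) (List.replicate n (1, 0)) M x x' =
      Ke i j k q n M x (pt i z (x i + ((n * 2 ^ (q + 1) : ℕ) : ZMod l))) * 1 *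
        (Ke i j k q n M x' (pt i z (x' i + ((n * 2 ^ (q + 1) : ℕ) : ZMod l))))ᴴ := by
  have h1 := PH_Ke (i := i) (j := j) (k := k) q b (pin i z) n [] M x x'
  rw [List.append_nil] at h1
  rw [h1]
  rw [Finset.sum_eq_single (pt i z (x i + ((n * 2 ^ (q + 1) : ℕ) : ZMod l))),
    Finset.sum_eq_single (pt i z (x' i + ((n * 2 ^ (q + 1) : ℕ) : ZMod l)))]
  · have h2 : PH i j k q b (pin i z) [] M (pt i z (x i + ((n * 2 ^ (q + 1) : ℕ) : ZMod l)))
        (pt i z (x' i + ((n * 2 ^ (q + 1) : ℕ) : ZMod l))) = 1 := by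
      show pin i z M _ _ = 1
      unfold pin
      rw [if_pos ⟨fun a ha => pt_ne ha z _, fun a ha => pt_ne ha z _⟩]
    rw [h2]
  · intro y' _ hne
    by_cases hy : y' i = x' i + ((n * 2 ^ (q + 1) : ℕ) : ZMod l)
    · have h2 : PH i j k q b (pin i z) [] M (pt i z (x i + ((n * 2 ^ (q + 1) : ℕ) : ZMod l)))
          y' = 0 := by
        show pin i z M _ _ = 0
        unfold pin
        rw [if_neg]
        exact fun h => hne (eq_pt h.2 hy)
      rw [h2, mul_zero, zero_mul]
    · rw [Ke_zero hij hik hjk q n M hy, conjTranspose_zero, mul_zero]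
  · intro h; exact absurd (Finset.mem_univ _) h
  · intro y _ hne
    refine Finset.sum_eq_zero fun y' _ => ?_
    by_cases hy : y i = x i + ((n * 2 ^ (q + 1) : ℕ) : ZMod l)
    · have h2 : PH i j k q b (pin i z) [] M y y' = 0 := by
        show pin i z M _ _ = 0
        unfold pin
        rw [if_neg]
        exact fun h => hne (eq_pt h.1 hy)
      rw [h2, mul_zero, zero_mul]
    · rw [Ke_zero hij hik hjk q n M hy, zero_mul, zero_mul]
  · intro h; exact absurd (Finset.mem_univ _) h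

/-! ### majorants -/

/-- majorants -/
def mj (i j k : Fin d) (q : ℕ) (K : ℝ) (ψ : (Fin d → ZMod l) → (Fin d → ZMod l) → ℝ) :
    List (ℝ × ℝ) → (Fin d → ZMod l) → (Fin d → ZMod l) → ℝ
  | [] => ψ
  | X :: u => fun x x' => (|X.1| + |X.2| * K) * mn fun p : (Om q × Om q) × (Om q × Om q) =>
      mj i j k q K ψ u (x + db i j k q p.1) (x' + db i j k q p.2)

/-- the constants of the majorants -/
def Kw (K : ℝ) : List (ℝ × ℝ) → ℝ
  | [] => 1
  | X :: u => (|X.1| + |X.2| * K) * Kw K u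

omit hij hik hjk in
lemma Kw_nonneg {K : ℝ} (hK : 0 ≤ K) (u : List (ℝ × ℝ)) : 0 ≤ Kw K u := by
  induction u with
  | nil => exact zero_le_one
  | cons X u ih => exact mul_nonneg (by positivity) ih

omit hij hik hjk in
lemma mj_nonneg {q : ℕ} {K : ℝ} (hK : 0 ≤ K) {ψ : (Fin d → ZMod l) → (Fin d → ZMod l) → ℝ}
    (hψ : ∀ x x', 0 ≤ ψ x x') (u : List (ℝ × ℝ)) (x x' : Fin d → ZMod l) :
    0 ≤ mj i j k q K ψ u x x' := by
  induction u generalizing x x' with
  | nil => exact hψ x x'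
  | cons X u ih => exact mul_nonneg (by positivity) (mn_nonneg fun p => ih _ _)

lemma PH_mj {b : ℝ} (hb : 0 < b) {M : Ed d l → Mat N} (hM : Ctr M) {q : ℕ}
    (hq3 : 3 * 2 ^ q ≤ l) {K : ℝ} {c0 : ℝ}
    (hc0 : c0 = (Fintype.card (Cx N) : ℝ) * (1 / (2 * b)))
    (hK : K = N * (1 + c0) ^ (6 * 2 ^ q)) {Ba : (Ed d l → Mat N) → St d l N}
    {ψ : (Fin d → ZMod l) → (Fin d → ZMod l) → ℝ} (hB : ∀ x x', ‖Ba M x x'‖ ≤ ψ x x')
    (u : List (ℝ × ℝ)) (x x' : Fin d → ZMod l) :
    ‖PH i j k q b Ba u M x x'‖ ≤ mj i j k q K ψ u x x' := by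
  have hc00 : 0 ≤ c0 := by rw [hc0]; positivity
  have hK0 : 0 ≤ K := by rw [hK]; positivity
  induction u generalizing x x' with
  | nil => exact hB x x'
  | cons X u ih =>
    show ‖X.1 • TO i j k q b false M (PH i j k q b Ba u M) x x' +
      X.2 • TO i j k q b true M (PH i j k q b Ba u M) x x'‖ ≤ (|X.1| + |X.2| * K) *
        mn fun p : (Om q × Om q) × (Om q × Om q) =>
        mj i j k q K ψ u (x + db i j k q p.1) (x' + db i j k q p.2)
    have h1 : ‖TO i j k q b false M (PH i j k q b Ba u M) x x'‖ ≤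
        mn fun p : (Om q × Om q) × (Om q × Om q) =>
        mj i j k q K ψ u (x + db i j k q p.1) (x' + db i j k q p.2) :=
      (norm_mM _).trans (mn_mono fun p => (hM.cn_false b _ _ _).trans (ih _ _))
    have h2 : ‖TO i j k q b true M (PH i j k q b Ba u M) x x'‖ ≤
        K * mn fun p : (Om q × Om q) × (Om q × Om q) =>
        mj i j k q K ψ u (x + db i j k q p.1) (x' + db i j k q p.2) := by
      refine (norm_mM _).trans ?_
      rw [← mn_cmul]
      refine mn_mono fun p => ?_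
      refine (hM.cn_true hb (ND_bl hij hik hjk q hq3 p.1 x) (ND_bl hij hik hjk q hq3 p.2 x')
        (length_bl hij hik hjk q p.1 x) (length_bl hij hik hjk q p.2 x') hc0 _).trans ?_
      rw [← hK]
      exact mul_le_mul_of_nonneg_left (ih _ _) hK0
    refine (norm_add_le _ _).trans ?_
    rw [norm_smul, norm_smul, Real.norm_eq_abs, Real.norm_eq_abs]
    have h3 := mul_le_mul_of_nonneg_left h1 (abs_nonneg X.1)
    have h4 := mul_le_mul_of_nonneg_left h2 (abs_nonneg X.2)
    linarith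

lemma mj_sum {q : ℕ} {K : ℝ} (hK : 0 ≤ K) {ψ : (Fin d → ZMod l) → (Fin d → ZMod l) → ℝ}
    {P : ℝ} (hψ : ∀ c, ∑ x ∈ pl i c, ∑ x' ∈ pl i c, ψ x x' ≤ P) (u : List (ℝ × ℝ))
    (c : ZMod l) : ∑ x ∈ pl i c, ∑ x' ∈ pl i c, mj i j k q K ψ u x x' ≤ Kw K u * P := by
  induction u generalizing c with
  | nil =>
    show ∑ x ∈ pl i c, ∑ x' ∈ pl i c, ψ x x' ≤ 1 * P
    rw [one_mul]
    exact hψ c
  | cons X u ih =>
    show ∑ x ∈ pl i c, ∑ x' ∈ pl i c, (|X.1| + |X.2| * K) *
        (mn fun p : (Om q × Om q) × (Om q × Om q) =>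
        mj i j k q K ψ u (x + db i j k q p.1) (x' + db i j k q p.2)) ≤
      (|X.1| + |X.2| * K) * Kw K u * P
    simp only [← Finset.mul_sum, ← mn_sum]
    rw [mul_assoc]
    refine mul_le_mul_of_nonneg_left (mn_le fun p => ?_) (by positivity)
    rw [sum_db hij hik hjk q p.1 p.2 c (fun y y' => mj i j k q K ψ u y y')]
    exact ih _

end ker

/-! ### the Gram form of pinned functions -/

variable {G : Type*} [Group G] [TopologicalSpace G]
  [IsTopologicalGroup G] [CompactSpace G] [SecondCountableTopology G] [MeasurableSpace G]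
  [BorelSpace G] (μ : Measure G) [IsProbabilityMeasure μ] [μ.IsMulLeftInvariant]
  [μ.IsMulRightInvariant] [μ.IsInvInvariant] {N n : ℕ} {L : LD G N n}
  {d m : ℕ} [NeZero m] {i j k : Fin d}

lemma Ke_cont (q n : ℕ) (x y : Fin d → ZMod (2 * m)) :
    Continuous fun U : Ed d (2 * m) → G => Ke i j k q n (L.mat U) x y := by
  have hpv : ∀ w : List (Ed d (2 * m) × Bool),
      Continuous fun U : Ed d (2 * m) → G => pv (L.mat U) w := by
    intro w
    induction w with
    | nil => exact continuous_const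
    | cons t w ih =>
      simp only [pv_cons]
      split_ifs
      · exact (mat_cont _).mul ih
      · exact (mat_cont _).matrix_conjTranspose.mul ih
  induction n generalizing x with
  | zero => exact continuous_const
  | succ n ih => exact mM_cont fun b => (hpv _).mul (ih _)

lemma Ctr_mat (U : Ed d (2 * m) → G) : Ctr (L.mat U) := by
  constructor
  · intro e R
    show ‖L.rho (U e) * R‖ ^ 2 ≤ _
    rw [norm_lmul]
  · intro e R
    show ‖(L.rho (U e))ᴴ * R‖ ^ 2 ≤ _
    rw [← L.rho_inv, norm_lmul]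

lemma Ctr_th {M : Ed d (2 * m) → Mat N} (h : Ctr M) : Ctr (thM i M) := by
  constructor
  · intro e R
    unfold thM
    split_ifs
    · exact h.2 _ _
    · exact h.1 _ _
  · intro e R
    unfold thM
    split_ifs
    · rw [conjTranspose_conjTranspose]; exact h.1 _ _
    · exact h.2 _ _

variable (hij : i ≠ j) (hik : i ≠ k) (hjk : j ≠ k)

include hij hik hjk in
lemma cg_pin {β : ℝ} (q : ℕ) (b : ℝ) (n : ℕ) (z z' : Fin d → ZMod (2 * m)) :
    cg μ L i j k β q b (pin i z) [] (pin i z') (List.replicate n (1, 0)) =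
      EX μ L β fun U : Ed d (2 * m) → G => ‖Ke i j k q n (L.mat U) (pt i z 0)
        (pt i z' ((n * 2 ^ (q + 1) : ℕ) : ZMod (2 * m)))‖ ^ 2 := by
  unfold cg
  congr 1
  funext U
  have h0 : pt i z (0 : ZMod (2 * m)) ∈ pl i (0 : ZMod (2 * m)) := mem_pl.2 (pt_i z 0)
  rw [Finset.sum_eq_single (pt i z 0), Finset.sum_eq_single (pt i z 0)]
  · have h2 : PH i j k q b (pin i z) [] (thM i (L.mat U)) (pt i z 0) (pt i z 0) =
        (1 : Mat N) := by
      show pin i z _ _ _ = 1
      unfold pin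
      rw [if_pos ⟨fun a ha => pt_ne ha z _, fun a ha => pt_ne ha z _⟩]
    rw [h2, PH_pin hij hik hjk, pt_i, zero_add, ip_one]
  · intro x' hx' hne
    have h2 : PH i j k q b (pin i z) [] (thM i (L.mat U)) (pt i z 0) x' = (0 : Mat N) := by
      show pin i z _ _ _ = 0
      unfold pin
      rw [if_neg]
      exact fun h => hne (eq_pt h.2 (mem_pl.1 hx'))
    rw [h2, ip_apply, conjTranspose_zero, zero_mul, trace_zero, Complex.zero_re]
  · intro h; exact absurd h0 h
  · intro x hx hne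
    refine Finset.sum_eq_zero fun x' _ => ?_
    have h2 : PH i j k q b (pin i z) [] (thM i (L.mat U)) x x' = (0 : Mat N) := by
      show pin i z _ _ _ = 0
      unfold pin
      rw [if_neg]
      exact fun h => hne (eq_pt h.1 (mem_pl.1 hx))
    rw [h2, ip_apply, conjTranspose_zero, zero_mul, trace_zero, Complex.zero_re]
  · intro h; exact absurd h0 h

lemma cg_pin_tr {β : ℝ} (q : ℕ) (b : ℝ) (u v : List (ℝ × ℝ)) (z : Fin d → ZMod (2 * m)) :
    cg μ L i j k β q b (pin i z) u (pin i z) v =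
      cg μ L i j k β q b (pin i (0 : Fin d → ZMod (2 * m))) u (pin i 0) v := by
  obtain ⟨a, ha⟩ : ∃ a : Fin d → ZMod (2 * m), a = Function.update z i 0 := ⟨_, rfl⟩
  have hai : a i = 0 := by rw [ha, Function.update_self]
  have hac : ∀ c, c ≠ i → z c = a c := fun c hc => by rw [ha, Function.update_of_ne hc]
  rw [pin_congr (i := i) hac]
  unfold cg
  rw [← EX_tr μ a (fun U : Ed d (2 * m) → G => ∑ x ∈ pl i 0, ∑ x' ∈ pl i 0,
    ip (PH i j k q b (pin i 0) u (thM i (L.mat U)) x x')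
      (PH i j k q b (pin i 0) v (L.mat U) x x'))]
  congr 1
  funext U
  rw [mat_tr, thM_tr]
  have hra : rf i 0 a = a := by
    funext c
    by_cases hc : c = i
    · subst hc; rw [rf_same, hai]; ring
    · rw [rf_ne hc]
  have h1 : ∀ (M : Ed d (2 * m) → Mat N) x x', (pin i 0 (trM a M) x x' : Mat N) =
      pin i a M (x + a) (x' + a) := by
    intro M x x'
    rw [pin_tr, zero_add]
  rw [hra]
  simp only [PH_tr h1]
  have h2 : ∀ F : (Fin d → ZMod (2 * m)) → (Fin d → ZMod (2 * m)) → ℝ,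
      ∑ x ∈ pl i 0, ∑ x' ∈ pl i 0, F (x + a) (x' + a) =
        ∑ x ∈ pl i 0, ∑ x' ∈ pl i 0, F x x' := by
    intro F
    have h3 : ∀ x, ∑ x' ∈ pl i 0, F x (x' + a) = ∑ x' ∈ pl i 0, F x x' := fun x => by
      rw [sum_pl i 0 a (fun x' => F x x'), hai, add_zero]
    simp only [h3]
    rw [sum_pl i 0 a (fun x => ∑ x' ∈ pl i 0, F x x'), hai, add_zero]
  exact (h2 fun x x' => ip (PH i j k q b (pin i a) u (thM i (L.mat U)) x x')
    (PH i j k q b (pin i a) v (L.mat U) x x')).symm

include hij hik hjk in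
lemma cg_rep {β : ℝ} {q : ℕ} {b : ℝ} (hb : 0 < b)
    {Ba Ba' : (Ed d (2 * m) → Mat N) → St d (2 * m) N}
    (hB : ∀ z : Fin d → ZMod (2 * m), (∀ c, c ≠ i → z c = 0) → ∀ M x x',
      Ba (trM z M) x x' = Ba M (x + z) (x' + z))
    (hB' : ∀ z : Fin d → ZMod (2 * m), (∀ c, c ≠ i → z c = 0) → ∀ M x x',
      Ba' (trM z M) x x' = Ba' M (x + z) (x' + z)) (X : ℝ × ℝ) (n : ℕ) (u v : List (ℝ × ℝ)) :
    cg μ L i j k β q b Ba (List.replicate n X ++ u) Ba' v =
      cg μ L i j k β q b Ba u Ba' (List.replicate n X ++ v) := by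
  induction n generalizing v with
  | zero => rfl
  | succ n ih =>
    have h1 : List.replicate (n + 1) X ++ v = List.replicate n X ++ X :: v := by
      rw [List.replicate_succ', List.append_assoc]; rfl
    rw [List.replicate_succ, List.cons_append, cg_adj μ hij hik hjk hb hB hB', ih, ← h1,
      List.replicate_succ]

include hij hik hjk in
/-- the kernels are largest on the diagonal -/
theorem Ke_sup (hm : 2 ≤ m) {β : ℝ} {q : ℕ} {b : ℝ} (hb : 0 < b) (n : ℕ)
    (hn : n * 2 ^ (q + 1) ≤ m) {x y : Fin d → ZMod (2 * m)} (hx : x i = 0)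
    (hy : y i = ((2 * n * 2 ^ (q + 1) : ℕ) : ZMod (2 * m))) :
    (EX μ L β fun U : Ed d (2 * m) → G => ‖Ke i j k q (2 * n) (L.mat U) x y‖ ^ 2) ≤
      cg μ L i j k β q b (pin i (0 : Fin d → ZMod (2 * m))) (List.replicate n (1, 0)) (pin i 0)
        (List.replicate n (1, 0)) := by
  have hpx : pt i x (0 : ZMod (2 * m)) = x := (eq_pt (fun _ _ => rfl) hx).symm
  have hpy : pt i y ((2 * n * 2 ^ (q + 1) : ℕ) : ZMod (2 * m)) = y :=
    (eq_pt (fun _ _ => rfl) hy).symm
  have h1 := cg_pin μ (L := L) hij hik hjk (β := β) q b (2 * n) x y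
  rw [hpx, hpy] at h1
  rw [← h1]
  have h2 := cg_rep μ (L := L) hij hik hjk (β := β) (q := q) hb (Ba := pin i x) (Ba' := pin i y)
    (fun z hz M x' y' => pin_cov i x z hz M x' y') (fun z hz M x' y' => pin_cov i y z hz M x' y')
    (1, 0) n [] (List.replicate n (1, 0))
  rw [← List.replicate_add, ← two_mul, List.append_nil] at h2
  rw [← h2]
  have h3 := (cg_cs μ (L := L) hij hik hjk hm (β := β) (q := q) hb (Ba := pin i x)
    (Ba' := pin i y) (fun _ _ => continuous_const) (fun _ _ => continuous_const)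
    (fun _ _ _ _ _ _ => rfl) (fun _ _ _ _ _ _ => rfl) (List.replicate n (1, 0))
    (List.replicate n (1, 0)) (by rw [List.length_replicate]; exact hn)
    (by rw [List.length_replicate]; exact hn)).1
  rw [cg_pin_tr μ q b _ _ x, cg_pin_tr μ q b _ _ y, ← pow_two] at h3
  have h4 := (cg_cs μ (L := L) hij hik hjk hm (β := β) (q := q) hb (Ba := pin i 0)
    (Ba' := pin i 0) (fun _ _ => continuous_const) (fun _ _ => continuous_const)
    (fun _ _ _ _ _ _ => rfl) (fun _ _ _ _ _ _ => rfl) (List.replicate n (1, 0))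
    (List.replicate n (1, 0)) (by rw [List.length_replicate]; exact hn)
    (by rw [List.length_replicate]; exact hn)).2
  exact (abs_le_of_sq_le_sq' h3 h4).2

include hij hik hjk in
/-- **The growth of the Gram form is that of the pinned function.** -/
theorem cg_growth {β : ℝ} {q : ℕ} {b : ℝ} (hb : 0 < b) (hq3 : 3 * 2 ^ q ≤ 2 * m) {K : ℝ}
    {c0 : ℝ} (hc0 : c0 = (Fintype.card (Cx N) : ℝ) * (1 / (2 * b)))
    (hK : K = N * (1 + c0) ^ (6 * 2 ^ q))
    {Ba Ba' : (Ed d (2 * m) → Mat N) → St d (2 * m) N}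
    (hc : ∀ x x', Continuous fun U : Ed d (2 * m) → G => Ba (L.mat U) x x')
    (hc' : ∀ x x', Continuous fun U : Ed d (2 * m) → G => Ba' (L.mat U) x x')
    {ψ ψ' : (Fin d → ZMod (2 * m)) → (Fin d → ZMod (2 * m)) → ℝ}
    (hψ : ∀ M, Ctr M → ∀ x x', ‖Ba M x x'‖ ≤ ψ x x')
    (hψ' : ∀ M, Ctr M → ∀ x x', ‖Ba' M x x'‖ ≤ ψ' x x') {P P' : ℝ}
    (hP : ∀ c, ∑ x ∈ pl i c, ∑ x' ∈ pl i c, ψ x x' ≤ P)
    (hP' : ∀ c, ∑ x ∈ pl i c, ∑ x' ∈ pl i c, ψ' x x' ≤ P') {n : ℕ} {S : ℝ}
    (hS : ∀ x y : Fin d → ZMod (2 * m), x i = 0 →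
      y i = ((n * 2 ^ (q + 1) : ℕ) : ZMod (2 * m)) →
      (EX μ L β fun U : Ed d (2 * m) → G => ‖Ke i j k q n (L.mat U) x y‖ ^ 2) ≤ S) (u v : List (ℝ × ℝ)) :
    |cg μ L i j k β q b Ba u Ba' (List.replicate n (1, 0) ++ v)| ≤
      (Kw K u * P) * (Kw K v * P') * S := by
  have hc00 : 0 ≤ c0 := by rw [hc0]; positivity
  have hK0 : 0 ≤ K := by rw [hK]; positivity
  have hψ0 : ∀ x x', 0 ≤ ψ x x' := fun x x' =>
    (norm_nonneg _).trans (hψ _ (Ctr_mat (L := L) (1 : Ed d (2 * m) → G)) x x')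
  have hψ0' : ∀ x x', 0 ≤ ψ' x x' := fun x x' =>
    (norm_nonneg _).trans (hψ' _ (Ctr_mat (L := L) (1 : Ed d (2 * m) → G)) x x')
  obtain ⟨φ, hφ⟩ : ∃ φ, φ = mj i j k q K ψ u := ⟨_, rfl⟩
  obtain ⟨φ', hφ'⟩ : ∃ φ', φ' = mj i j k q K ψ' v := ⟨_, rfl⟩
  have hφ0 : ∀ x x', 0 ≤ φ x x' := fun x x' => by rw [hφ]; exact mj_nonneg hK0 hψ0 u x x'
  have hφ0' : ∀ x x', 0 ≤ φ' x x' := fun x x' => by rw [hφ']; exact mj_nonneg hK0 hψ0' v x x'
  obtain ⟨Q, hQ⟩ : ∃ Q : Finset (Fin d → ZMod (2 * m)),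
    Q = pl i ((n * 2 ^ (q + 1) : ℕ) : ZMod (2 * m)) := ⟨_, rfl⟩
  obtain ⟨E, hE⟩ : ∃ E : (Fin d → ZMod (2 * m)) → (Fin d → ZMod (2 * m)) →
    (Ed d (2 * m) → G) → ℝ, E = fun x y U => ‖Ke i j k q n (L.mat U) x y‖ ^ 2 := ⟨_, rfl⟩
  have hEc : ∀ x y, Continuous (E x y) := fun x y => by
    rw [hE]; exact (Ke_cont q n x y).norm.pow 2
  unfold cg
  have hcon : Continuous fun U : Ed d (2 * m) → G => ∑ x ∈ pl i 0, ∑ x' ∈ pl i 0,
      ip (PH i j k q b Ba u (thM i (L.mat U)) x x')
        (PH i j k q b Ba' (List.replicate n (1, 0) ++ v) (L.mat U) x x') := by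
    simp only [ip_sum_co]
    refine continuous_finsetSum _ fun x _ => continuous_finsetSum _ fun x' _ =>
      continuous_finsetSum _ fun c _ => ((co c).continuous.comp ?_).mul
        ((co c).continuous.comp (PH_cont hb hc' _ x x'))
    rcases le_or_gt 2 m with hm | hm
    · simp only [← mat_ref hm]
      exact (PH_cont hb hc u x x').comp (SR hm i).tU_cont
    · have hm1 : m = 1 := by
        have := NeZero.pos m
        omega
      exfalso
      have := Nat.one_le_two_pow (n := q)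
      omega
  refine (EX_abs μ hcon).trans ?_
  have hpt : ∀ U : Ed d (2 * m) → G, |∑ x ∈ pl i 0, ∑ x' ∈ pl i 0,
      ip (PH i j k q b Ba u (thM i (L.mat U)) x x')
        (PH i j k q b Ba' (List.replicate n (1, 0) ++ v) (L.mat U) x x')| ≤
      ∑ x ∈ pl i 0, ∑ x' ∈ pl i 0, ∑ y ∈ Q, ∑ y' ∈ Q,
        (φ x x' * φ' y y' / 2) * (E x y U + E x' y' U) := by
    intro U
    refine (Finset.abs_sum_le_sum_abs _ _).trans (Finset.sum_le_sum fun x hx => ?_)
    refine (Finset.abs_sum_le_sum_abs _ _).trans (Finset.sum_le_sum fun x' hx' => ?_)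
    rw [mem_pl] at hx hx'
    refine (abs_ip_le _ _).trans ?_
    have f1 := PH_mj (N := N) hij hik hjk hb (Ctr_th (i := i) (Ctr_mat (L := L) U)) hq3 hc0 hK
      (hψ _ (Ctr_th (i := i) (Ctr_mat (L := L) U))) u x x'
    rw [← hφ] at f1
    have f2 : ‖PH i j k q b Ba' (List.replicate n (1, 0) ++ v) (L.mat U) x x'‖ ≤
        ∑ y ∈ Q, ∑ y' ∈ Q, φ' y y' / 2 * (E x y U + E x' y' U) := by
      rw [PH_Ke]
      have g1 : ∀ y y', ‖Ke i j k q n (L.mat U) x y * PH i j k q b Ba' v (L.mat U) y y' *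
          (Ke i j k q n (L.mat U) x' y')ᴴ‖ ≤ φ' y y' / 2 * (E x y U + E x' y' U) := by
        intro y y'
        have g2 := PH_mj (N := N) hij hik hjk hb (Ctr_mat (L := L) U) hq3 hc0 hK
          (hψ' _ (Ctr_mat (L := L) U)) v y y'
        rw [← hφ'] at g2
        refine (norm_mul3 _ _ _).trans ?_
        rw [hE]
        simp only
        obtain ⟨a, ha⟩ : ∃ a, a = ‖Ke i j k q n (L.mat U) x y‖ := ⟨_, rfl⟩
        obtain ⟨a', ha'⟩ : ∃ a', a' = ‖Ke i j k q n (L.mat U) x' y'‖ := ⟨_, rfl⟩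
        have ha0 : 0 ≤ a := by rw [ha]; exact norm_nonneg _
        have ha0' : 0 ≤ a' := by rw [ha']; exact norm_nonneg _
        rw [← ha, ← ha']
        calc a * ‖PH i j k q b Ba' v (L.mat U) y y'‖ * a' =
            ‖PH i j k q b Ba' v (L.mat U) y y'‖ * (a * a') := by ring
          _ ≤ φ' y y' * (a * a') := mul_le_mul_of_nonneg_right g2 (by positivity)
          _ ≤ φ' y y' * ((a ^ 2 + a' ^ 2) / 2) :=
              mul_le_mul_of_nonneg_left (by nlinarith [sq_nonneg (a - a')]) (hφ0' _ _)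
          _ = _ := by ring
      have g3 : ∑ y, ∑ y', Ke i j k q n (L.mat U) x y * PH i j k q b Ba' v (L.mat U) y y' *
          (Ke i j k q n (L.mat U) x' y')ᴴ = ∑ y ∈ Q, ∑ y' ∈ Q,
          Ke i j k q n (L.mat U) x y * PH i j k q b Ba' v (L.mat U) y y' *
          (Ke i j k q n (L.mat U) x' y')ᴴ := by
        rw [hQ]
        symm
        have g4 : ∀ y, ∑ y' ∈ pl i ((n * 2 ^ (q + 1) : ℕ) : ZMod (2 * m)),
            Ke i j k q n (L.mat U) x y * PH i j k q b Ba' v (L.mat U) y y' *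
            (Ke i j k q n (L.mat U) x' y')ᴴ = ∑ y',
            Ke i j k q n (L.mat U) x y * PH i j k q b Ba' v (L.mat U) y y' *
            (Ke i j k q n (L.mat U) x' y')ᴴ := by
          intro y
          refine Finset.sum_subset (Finset.subset_univ _) fun y' _ hy' => ?_
          rw [mem_pl] at hy'
          rw [Ke_zero hij hik hjk q n (L.mat U) (x := x') (y := y') (by rwa [hx', zero_add]),
            conjTranspose_zero, mul_zero]
        simp only [g4]
        refine Finset.sum_subset (Finset.subset_univ _) fun y _ hy => ?_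
        rw [mem_pl] at hy
        refine Finset.sum_eq_zero fun y' _ => ?_
        rw [Ke_zero hij hik hjk q n (L.mat U) (x := x) (y := y) (by rwa [hx, zero_add]),
          zero_mul, zero_mul]
      rw [g3]
      refine (norm_sum_le _ _).trans (Finset.sum_le_sum fun y _ => ?_)
      exact (norm_sum_le _ _).trans (Finset.sum_le_sum fun y' _ => g1 y y')
    have f3 := mul_le_mul f1 f2 (norm_nonneg _) (hφ0 x x')
    refine f3.trans (le_of_eq ?_)
    rw [Finset.mul_sum]
    refine Finset.sum_congr rfl fun y _ => ?_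
    rw [Finset.mul_sum]
    exact Finset.sum_congr rfl fun y' _ => by ring
  have hc4 : ∀ x x' y y', Continuous fun U : Ed d (2 * m) → G =>
      (φ x x' * φ' y y' / 2) * (E x y U + E x' y' U) := fun x x' y y' =>
    continuous_const.mul ((hEc x y).add (hEc x' y'))
  refine (EX_mono μ hcon.abs (continuous_finsetSum _ fun x _ => continuous_finsetSum _ fun x' _ =>
    continuous_finsetSum _ fun y _ => continuous_finsetSum _ fun y' _ => hc4 x x' y y')
    hpt).trans ?_
  rw [EX_sum μ _ fun x _ => continuous_finsetSum _ fun x' _ =>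
    continuous_finsetSum _ fun y _ => continuous_finsetSum _ fun y' _ => hc4 x x' y y']
  have h5 : ∀ x ∈ pl i (0 : ZMod (2 * m)), EX μ L β (fun U : Ed d (2 * m) → G =>
      ∑ x' ∈ pl i 0, ∑ y ∈ Q, ∑ y' ∈ Q, (φ x x' * φ' y y' / 2) * (E x y U + E x' y' U)) ≤
      ∑ x' ∈ pl i 0, φ x x' * ((Kw K v * P') * S) := by
    intro x hx
    rw [EX_sum μ _ fun x' _ =>
      continuous_finsetSum _ fun y _ => continuous_finsetSum _ fun y' _ => hc4 x x' y y']
    refine Finset.sum_le_sum fun x' hx' => ?_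
    rw [EX_sum μ _ fun y _ => continuous_finsetSum _ fun y' _ => hc4 x x' y y']
    have h6 : ∀ y ∈ Q, EX μ L β (fun U : Ed d (2 * m) → G =>
        ∑ y' ∈ Q, (φ x x' * φ' y y' / 2) * (E x y U + E x' y' U)) ≤
        ∑ y' ∈ Q, (φ x x' * S) * φ' y y' := by
      intro y hy
      rw [EX_sum μ _ fun y' _ => hc4 x x' y y']
      refine Finset.sum_le_sum fun y' hy' => ?_
      rw [EX_smul, EX_add μ (hEc x y) (hEc x' y')]
      rw [hQ, mem_pl] at hy hy'
      rw [mem_pl] at hx hx'
      have g1 : EX μ L β (E x y) ≤ S := by rw [hE]; exact hS x y hx hy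
      have g2 : EX μ L β (E x' y') ≤ S := by rw [hE]; exact hS x' y' hx' hy'
      have g3 : 0 ≤ φ x x' * φ' y y' / 2 := by
        have := hφ0 x x'
        have := hφ0' y y'
        positivity
      calc φ x x' * φ' y y' / 2 * (EX μ L β (E x y) + EX μ L β (E x' y')) ≤
          φ x x' * φ' y y' / 2 * (S + S) := mul_le_mul_of_nonneg_left (add_le_add g1 g2) g3
        _ = _ := by ring
    refine (Finset.sum_le_sum h6).trans ?_
    simp only [← Finset.mul_sum]
    have hS0 : 0 ≤ S := by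
      have g1 := hS (pt i 0 0) (pt i 0 _) (pt_i _ _) (pt_i _ _)
      exact (EX_nonneg μ fun U => sq_nonneg _).trans g1
    have h7 : ∑ y ∈ Q, ∑ y' ∈ Q, φ' y y' ≤ Kw K v * P' := by
      rw [hQ, hφ']
      exact mj_sum hij hik hjk hK0 hP' v _
    calc φ x x' * S * ∑ y ∈ Q, ∑ y' ∈ Q, φ' y y' ≤ φ x x' * S * (Kw K v * P') :=
          mul_le_mul_of_nonneg_left h7 (mul_nonneg (hφ0 _ _) hS0)
      _ = _ := by ring
  refine (Finset.sum_le_sum h5).trans ?_
  simp only [← Finset.sum_mul]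
  have hS0 : 0 ≤ S := by
    have g1 := hS (pt i 0 0) (pt i 0 _) (pt_i _ _) (pt_i _ _)
    exact (EX_nonneg μ fun U => sq_nonneg _).trans g1
  have h8 : ∑ x ∈ pl i 0, ∑ x' ∈ pl i 0, φ x x' ≤ Kw K u * P := by
    rw [hφ]
    exact mj_sum hij hik hjk hK0 hP u _
  have hP0 : 0 ≤ P' := (Finset.sum_nonneg fun x _ => Finset.sum_nonneg fun x' _ =>
    hψ0' x x').trans (hP' 0)
  have h9 : 0 ≤ Kw K v * P' * S := mul_nonneg (mul_nonneg (Kw_nonneg hK0 v) hP0) hS0
  calc (∑ x ∈ pl i 0, ∑ x' ∈ pl i 0, φ x x') * (Kw K v * P' * S) ≤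
      Kw K u * P * (Kw K v * P' * S) := mul_le_mul_of_nonneg_right h8 h9
    _ = _ := by ring

end

end Pool.Agent.Y15
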