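import Mathlib
import Pool.Agent.Y15.Step
import Pool.Agent.Y15.CN

/-!
# Gaussian domination with a parameter
-/

open MeasureTheory Matrix
open scoped Matrix.Norms.Frobenius
open Pool.Agent.H906R3.YM hiding Pl
open Pool.Agent.W793.YM Pool.Agent.TH618.YM

namespace Pool.Agent.Y15

set_option linter.unusedSectionVars false
set_option linter.unusedVariables false

noncomputable section

section gd

variable {E : Type*} [Fintype E] [DecidableEq E] {G : Type*} [Group G] [TopologicalSpace G]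
  [IsTopologicalGroup G] [CompactSpace G] [SecondCountableTopology G] [MeasurableSpace G]
  [BorelSpace G] (μ : Measure G) [IsProbabilityMeasure μ] [μ.IsMulLeftInvariant]
  [μ.IsMulRightInvariant] [μ.IsInvInvariant] {N n : ℕ} {L : LD G N n} (T : Refl E)

variable {f : (E × Cx N → ℝ) → ℝ}

/-- the integrand -/
def Gy2 (L : LD G N n) (T : Refl E) (a β : ℝ) (w : (E → G) → ℝ) (f : (E × Cx N → ℝ) → ℝ)
    (z : E × Cx N → ℝ) (U : E → G) : ℝ :=
  w U * kz β z (av L T U) * (f (av L T U) - a * f (z - av L T U))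

lemma Gy2_cont {a β : ℝ} {w : (E → G) → ℝ} (hw : Continuous w) (hf : Continuous f) :
    Continuous fun p : (E × Cx N → ℝ) × (E → G) => Gy2 L T a β w f p.1 p.2 := by
  unfold Gy2 kz
  have h1 : Continuous fun p : (E × Cx N → ℝ) × (E → G) => av L T p.2 :=
    (av_cont T).comp continuous_snd
  refine ((hw.comp continuous_snd).mul ?_).mul ((hf.comp h1).sub
    (continuous_const.mul (hf.comp (continuous_fst.sub h1))))
  refine Real.continuous_exp.comp (continuous_const.mul (continuous_finsetSum _ fun i _ => ?_)).neg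
  exact (((continuous_apply i).comp continuous_fst).sub
    (continuous_const.mul ((continuous_apply i).comp h1))).pow 2

lemma Gy2_dep {a β : ℝ} {w : (E → G) → ℝ} (hd : Dep T.R w) (z : E × Cx N → ℝ) :
    Dep T.R (Gy2 L T a β w f z) := by
  intro U U' h
  unfold Gy2
  rw [hd U U' h, av_dep T U U' h]

lemma Gy2_bound {a β : ℝ} (hβ : 0 ≤ β) {w : (E → G) → ℝ} (hw : Continuous w) (hf : EG f) :
    ∃ A C : ℝ, ∀ z U, |Gy2 L T a β w f z U| ≤ C * (Real.exp (A * ∑ i, |z i|) * gw (β / 8) z) := by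
  obtain ⟨cf, A, C, hA, hC, h1⟩ := hf
  obtain ⟨Mw, hMw⟩ : ∃ M, ∀ U, |w U| ≤ M := by
    obtain ⟨M, hM⟩ := (isCompact_univ.image hw.norm).bddAbove
    exact ⟨M, fun U => hM ⟨U, trivial, rfl⟩⟩
  have hMw0 : 0 ≤ Mw := (abs_nonneg _).trans (hMw 1)
  obtain ⟨D, hD⟩ : ∃ D : ℝ, D = Fintype.card (E × Cx N) * N := ⟨_, rfl⟩
  have hD0 : 0 ≤ D := by rw [hD]; positivity
  have hav : ∀ U : E → G, ∑ i, |av L T U i| ≤ D := by
    intro U
    refine (Finset.sum_le_sum fun i _ => av_le T U i).trans ?_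
    rw [Finset.sum_const, Finset.card_univ, nsmul_eq_mul, hD]
  refine ⟨A, Mw * Real.exp (β * (Fintype.card (E × Cx N) * N ^ 2)) *
    ((1 + |a|) * C * Real.exp (A * D)), fun z U => ?_⟩
  have hS : 0 ≤ ∑ i, |z i| := Finset.sum_nonneg fun _ _ => abs_nonneg _
  unfold Gy2
  rw [abs_mul, abs_mul]
  have hk0 : 0 ≤ kz β z (av L T U) := (Real.exp_pos _).le
  have e1 : |kz β z (av L T U)| ≤ Real.exp (β * (Fintype.card (E × Cx N) * N ^ 2)) *
      gw (β / 8) z := by
    rw [abs_of_nonneg hk0]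
    exact kz_le hβ z _ (av_le T U)
  have e2 : |f (av L T U)| ≤ C * (Real.exp (A * D) * Real.exp (A * ∑ i, |z i|)) := by
    refine (h1 _).trans (mul_le_mul_of_nonneg_left ?_ hC)
    rw [← Real.exp_add]
    refine Real.exp_le_exp.2 ?_
    have := mul_le_mul_of_nonneg_left (hav U) hA
    have := mul_nonneg hA hS
    linarith
  have e3 : |f (z - av L T U)| ≤ C * (Real.exp (A * D) * Real.exp (A * ∑ i, |z i|)) := by
    refine (h1 _).trans (mul_le_mul_of_nonneg_left ?_ hC)
    rw [← Real.exp_add]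
    refine Real.exp_le_exp.2 ?_
    have h3 : ∑ i, |(z - av L T U) i| ≤ ∑ i, |z i| + ∑ i, |av L T U i| := by
      rw [← Finset.sum_add_distrib]
      exact Finset.sum_le_sum fun i _ => abs_sub _ _
    have h4 := mul_le_mul_of_nonneg_left (h3.trans (add_le_add_right (hav U) _)) hA
    linarith
  have e4 : |f (av L T U) - a * f (z - av L T U)| ≤
      (1 + |a|) * C * Real.exp (A * D) * Real.exp (A * ∑ i, |z i|) := by
    refine (abs_sub _ _).trans ?_
    rw [abs_mul]
    have h5 := mul_le_mul_of_nonneg_left e3 (abs_nonneg a)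
    linarith
  calc |w U| * |kz β z (av L T U)| * |f (av L T U) - a * f (z - av L T U)| ≤
      (Mw * (Real.exp (β * (Fintype.card (E × Cx N) * N ^ 2)) * gw (β / 8) z)) *
        ((1 + |a|) * C * Real.exp (A * D) * Real.exp (A * ∑ i, |z i|)) := by
        refine mul_le_mul (mul_le_mul (hMw U) e1 (abs_nonneg _) hMw0) e4 (abs_nonneg _) ?_
        exact mul_nonneg hMw0 (mul_nonneg (Real.exp_pos _).le (gw_pos _ _).le)
    _ = _ := by ring

lemma Gy2_int {a β : ℝ} (hβ : 0 < β) {w : (E → G) → ℝ} (hw : Continuous w) (hf : EG f) :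
    Integrable (fun p : (E × Cx N → ℝ) × (E → G) => Gy2 L T a β w f p.1 p.2 *
      Gy2 L T a β w f p.1 (T.tU p.2)) (volume.prod (ME μ E)) := by
  obtain ⟨A, C, hb⟩ := Gy2_bound (L := L) T (a := a) hβ.le hw hf
  have h1 : Integrable fun z : E × Cx N → ℝ => C ^ 2 * (Real.exp (2 * A * ∑ i, |z i|) *
      gw (β / 4) z) := (intA (by positivity) _).const_mul _
  refine (h1.comp_fst (ME μ E)).mono' ?_ (Filter.Eventually.of_forall fun p => ?_)
  · have c1 := Gy2_cont (L := L) T (a := a) (β := β) hw hf.cont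
    have c2 : Continuous fun p : (E × Cx N → ℝ) × (E → G) => Gy2 L T a β w f p.1 (T.tU p.2) :=
      c1.comp (continuous_fst.prodMk (T.tU_cont.comp continuous_snd))
    exact (c1.mul c2).aestronglyMeasurable
  · rw [norm_mul, Real.norm_eq_abs, Real.norm_eq_abs]
    have e1 := hb p.1 p.2
    have e2 := hb p.1 (T.tU p.2)
    refine (mul_le_mul e1 e2 (abs_nonneg _) ((abs_nonneg _).trans e1)).trans (le_of_eq ?_)
    have e3 : gw (β / 8) p.1 * gw (β / 8) p.1 = gw (β / 4) p.1 := by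
      unfold gw
      rw [← Real.exp_add]
      congr 1; ring
    have e4 : Real.exp (A * ∑ i, |p.1 i|) * Real.exp (A * ∑ i, |p.1 i|) =
        Real.exp (2 * A * ∑ i, |p.1 i|) := by
      rw [← Real.exp_add]
      congr 1; ring
    rw [← e3, ← e4]; ring

/-- the function of the two boundary configurations -/
def Ph2 (a β : ℝ) (f : (E × Cx N → ℝ) → ℝ) (x y : E × Cx N → ℝ) : ℝ :=
  GE (β / 2) fun h => (f x - a * f (y + h)) * (f y - a * f (x + h))

/-- positivity with the intermediate variable integrated -/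
theorem gd_pos2 {a β : ℝ} (hβ : 0 < β) {w : (E → G) → ℝ} (hw : Continuous w) (hd : Dep T.R w)
    (hf : EG f) :
    Integrable (fun U => Ph2 a β f (av L T U) (av L T (T.tU U)) *
      (w U * w (T.tU U) * Real.exp (β * T.ker L U))) (ME μ E) ∧
    0 ≤ T.Ew μ L β w fun U => Ph2 a β f (av L T U) (av L T (T.tU U)) := by
  have hI := Gy2_int μ (L := L) T (a := a) hβ hw hf
  obtain ⟨κ0, hκ0⟩ : ∃ κ0 : ℝ, κ0 = gz (E × Cx N) (β / 2) * Real.exp (-(β * (N * T.J.card))) :=
    ⟨_, rfl⟩
  have hz0 := gz_pos (κ := E × Cx N) (by positivity : 0 < β / 2)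
  have hκ1 : 0 < κ0 := by rw [hκ0]; exact mul_pos hz0 (Real.exp_pos _)
  have h1 : 0 ≤ ∫ z, ∫ U, Gy2 L T a β w f z U * Gy2 L T a β w f z (T.tU U) ∂(ME μ E) := by
    refine integral_nonneg fun z => ?_
    have := T.sq μ (Gy2_dep (f := f) (L := L) T (a := a) (β := β) hd z)
    show 0 ≤ ∫ U, Gy2 L T a β w f z U * Gy2 L T a β w f z (T.tU U) ∂(ME μ E)
    rw [this]
    exact sq_nonneg _
  rw [integral_integral_swap hI] at h1
  have h2 : ∀ U : E → G, ∫ z, Gy2 L T a β w f z U * Gy2 L T a β w f z (T.tU U) =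
      κ0 * (Ph2 a β f (av L T U) (av L T (T.tU U)) *
        (w U * w (T.tU U) * Real.exp (β * T.ker L U))) := by
    intro U
    obtain ⟨x, hx⟩ : ∃ x, x = av L T U := ⟨_, rfl⟩
    obtain ⟨y, hy⟩ : ∃ y, y = av L T (T.tU U) := ⟨_, rfl⟩
    have e1 := integral_add_left_eq_self (μ := (volume : Measure (E × Cx N → ℝ)))
      (fun z => Gy2 L T a β w f z U * Gy2 L T a β w f z (T.tU U)) (x + y)
    rw [← e1]
    have e2 : ∀ h : E × Cx N → ℝ, Gy2 L T a β w f (x + y + h) U *
        Gy2 L T a β w f (x + y + h) (T.tU U) =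
        (w U * w (T.tU U) * Real.exp (-(β / 2 * ∑ i, (x i - y i) ^ 2))) *
          ((f x - a * f (y + h)) * (f y - a * f (x + h)) * gw (β / 2) h) := by
      intro h
      unfold Gy2
      rw [← hx, ← hy]
      have f1 : x + y + h - x = y + h := by abel
      have f2 : x + y + h - y = x + h := by abel
      rw [f1, f2]
      have f3 := kz_mul β x y h
      calc _ = (w U * w (T.tU U)) * (kz β (x + y + h) x * kz β (x + y + h) y) *
          ((f x - a * f (y + h)) * (f y - a * f (x + h))) := by ring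
        _ = _ := by rw [f3]; ring
    simp only [e2]
    rw [integral_const_mul, hx, hy, ex_ker, hκ0]
    unfold Ph2 GE
    field_simp
  have h3 : ∀ U : E → G, Ph2 a β f (av L T U) (av L T (T.tU U)) *
        (w U * w (T.tU U) * Real.exp (β * T.ker L U)) = κ0⁻¹ *
      ∫ z, Gy2 L T a β w f z U * Gy2 L T a β w f z (T.tU U) := by
    intro U
    rw [h2, inv_mul_cancel_left₀ hκ1.ne']
  constructor
  · simp only [h3]
    exact (hI.integral_prod_right).const_mul _
  · unfold Refl.Ew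
    simp only [h3]
    rw [integral_const_mul]
    exact mul_nonneg (inv_nonneg.2 hκ1.le) h1


lemma Ph2_le {a β : ℝ} (hβ : 0 < β) (hf : EG f)
    (hm : ∀ x, GE (β / 2) (fun h => f (x + h)) = f x) (x y : E × Cx N → ℝ) :
    Ph2 a β f x y ≤ f x * f y - a * (f x ^ 2 + f y ^ 2) +
      a ^ 2 / 2 * (GE (β / 2) (fun h => f (x + h) ^ 2) + GE (β / 2) (fun h => f (y + h) ^ 2)) := by
  have hb : 0 < β / 2 := by positivity
  have s1 := hf.shift x
  have s2 := hf.shift y
  unfold Ph2
  have q5 : EG fun h : E × Cx N → ℝ => (-(a * f y)) * f (y + h) + f x * f y :=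
    (s2.cmul _).add (EG.const _)
  have q4 : EG fun h : E × Cx N → ℝ => (-(a * f x)) * f (x + h) +
      ((-(a * f y)) * f (y + h) + f x * f y) := (s1.cmul _).add q5
  have q3 : EG fun h : E × Cx N → ℝ => a ^ 2 / 2 * f (y + h) ^ 2 + ((-(a * f x)) * f (x + h) +
      ((-(a * f y)) * f (y + h) + f x * f y)) := (s2.sq.cmul _).add q4
  have h1 : GE (β / 2) (fun h => (f x - a * f (y + h)) * (f y - a * f (x + h))) ≤
      GE (β / 2) (fun h => a ^ 2 / 2 * f (x + h) ^ 2 + (a ^ 2 / 2 * f (y + h) ^ 2 +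
        ((-(a * f x)) * f (x + h) + ((-(a * f y)) * f (y + h) + f x * f y)))) := by
    refine GE_mono hb (((EG.const _).sub (s2.cmul a)).mul ((EG.const _).sub (s1.cmul a)))
      ((s1.sq.cmul _).add q3) fun h => ?_
    nlinarith [sq_nonneg (a * (f (x + h) - f (y + h)))]
  refine h1.trans (le_of_eq ?_)
  rw [GE_add hb (s1.sq.cmul _) q3, GE_add hb (s2.sq.cmul _) q4, GE_add hb (s1.cmul _) q5,
    GE_add hb (s2.cmul _) (EG.const _), GE_const hb, GE_cmul, GE_cmul, GE_cmul, GE_cmul, hm, hm]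
  ring

lemma Ew_tU {β : ℝ} (w H : (E → G) → ℝ) :
    T.Ew μ L β w (fun U => H (T.tU U)) = T.Ew μ L β w H := by
  unfold Refl.Ew
  rw [← T.integral μ (fun U => H U * (w U * w (T.tU U) * Real.exp (β * T.ker L U)))]
  refine integral_congr_ae (Filter.Eventually.of_forall fun U => ?_)
  simp only
  rw [T.tU_tU, T.ker_tU]; ring

/-- **Gaussian domination with a parameter.** -/
theorem gd_main2 {β : ℝ} (hβ : 0 < β) {w : (E → G) → ℝ} (hw : Continuous w) (hd : Dep T.R w)
    (hw0 : ∀ U, 0 ≤ w U) {F : (E × Cx N → ℝ) → Mat N} (hF : EM F)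
    (hm : ∀ x c, GE (β / 2) (fun h => co c (F (x + h))) = co c (F x)) (a : ℝ) :
    2 * a * T.Ew μ L β w (fun U => ‖F (av L T U)‖ ^ 2) -
      a ^ 2 * T.Ew μ L β w (fun U => GE (β / 2) fun h => ‖F (av L T U + h)‖ ^ 2) ≤
      T.Ew μ L β w (fun U => ip (F (av L T U)) (F (av L T (T.tU U)))) := by
  have hb : 0 < β / 2 := by positivity
  have hP := fun c => gd_pos2 μ (L := L) T (a := a) hβ hw hd (hF c)
  obtain ⟨W, hW⟩ : ∃ W : (E → G) → ℝ, W = fun U => w U * w (T.tU U) * Real.exp (β * T.ker L U) :=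
    ⟨_, rfl⟩
  have hWc : Continuous W := by rw [hW]; exact T.wt_cont hw
  have hW0 : ∀ U, 0 ≤ W U := fun U => by
    rw [hW]
    exact mul_nonneg (mul_nonneg (hw0 _) (hw0 _)) (Real.exp_pos _).le
  have hFc : Continuous F := cont_mat fun c => (hF c).cont
  obtain ⟨I, hI⟩ : ∃ I : (E → G) → ℝ, I = fun U => ip (F (av L T U)) (F (av L T (T.tU U))) :=
    ⟨_, rfl⟩
  obtain ⟨Q, hQ⟩ : ∃ Q : (E → G) → ℝ, Q = fun U => ‖F (av L T U)‖ ^ 2 := ⟨_, rfl⟩
  obtain ⟨R, hR⟩ : ∃ R : (E → G) → ℝ, R = fun U => GE (β / 2) fun h => ‖F (av L T U + h)‖ ^ 2 :=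
    ⟨_, rfl⟩
  have cF : Continuous fun U : E → G => F (av L T U) := hFc.comp (av_cont T)
  have cI : Continuous I := by
    rw [hI]
    simp only [ip_sum_co]
    exact continuous_finsetSum _ fun c _ => ((co c).continuous.comp cF).mul
      ((co c).continuous.comp (cF.comp T.tU_cont))
  have cQ : Continuous Q := by rw [hQ]; exact cF.norm.pow 2
  have cR : Continuous R := by
    rw [hR]
    refine GE_cont hb hF.nsq (av_cont T) (D := Fintype.card (E × Cx N) * N) fun U => ?_
    refine (Finset.sum_le_sum fun i _ => av_le T U i).trans ?_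
    rw [Finset.sum_const, Finset.card_univ, nsmul_eq_mul]
  -- pointwise
  have hpt : ∀ U, ∑ c, Ph2 a β (fun x => co c (F x)) (av L T U) (av L T (T.tU U)) ≤
      I U + (-a) * (Q U + Q (T.tU U)) + a ^ 2 / 2 * (R U + R (T.tU U)) := by
    intro U
    obtain ⟨x, hx⟩ : ∃ x, x = av L T U := ⟨_, rfl⟩
    obtain ⟨y, hy⟩ : ∃ y, y = av L T (T.tU U) := ⟨_, rfl⟩
    have h1 := Finset.sum_le_sum fun c (_ : c ∈ (Finset.univ : Finset (Cx N))) =>
      Ph2_le (a := a) hβ (hF c) (fun x => hm x c) x y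
    rw [hI, hQ, hR]
    simp only
    rw [← hx, ← hy]
    refine h1.trans (le_of_eq ?_)
    have e1 : ∀ z, GE (β / 2) (fun h => ‖F (z + h)‖ ^ 2) =
        ∑ c, GE (β / 2) (fun h => co c (F (z + h)) ^ 2) := by
      intro z
      simp only [← nf_eq]
      exact GE_sum hb _ fun c _ => ((hF c).shift z).sq
    rw [Finset.sum_add_distrib, Finset.sum_sub_distrib, ← Finset.mul_sum, ← Finset.mul_sum,
      Finset.sum_add_distrib, Finset.sum_add_distrib, ← e1, ← e1, nf_eq, nf_eq, ip_sum_co]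
    ring
  have h1 : 0 ≤ ∑ c, T.Ew μ L β w fun U =>
      Ph2 a β (fun x => co c (F x)) (av L T U) (av L T (T.tU U)) :=
    Finset.sum_nonneg fun c _ => (hP c).2
  unfold Refl.Ew at h1
  rw [← integral_finsetSum _ fun c _ => (hP c).1] at h1
  have i1 : Integrable (fun U => ∑ c, Ph2 a β (fun x => co c (F x)) (av L T U) (av L T (T.tU U)) *
      (w U * w (T.tU U) * Real.exp (β * T.ker L U))) (ME μ E) :=
    integrable_finsetSum _ fun c _ => (hP c).1
  have c3 : Continuous fun U => I U + (-a) * (Q U + Q (T.tU U)) +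
      a ^ 2 / 2 * (R U + R (T.tU U)) :=
    (cI.add (continuous_const.mul (cQ.add (cQ.comp T.tU_cont)))).add
      (continuous_const.mul (cR.add (cR.comp T.tU_cont)))
  have h2 : 0 ≤ T.Ew μ L β w fun U => I U + (-a) * (Q U + Q (T.tU U)) +
      a ^ 2 / 2 * (R U + R (T.tU U)) := by
    unfold Refl.Ew
    refine h1.trans (integral_mono i1 (integrable_cont μ (c3.mul (T.wt_cont hw))) fun U => ?_)
    simp only
    rw [← Finset.sum_mul]
    refine mul_le_mul_of_nonneg_right (hpt U) ?_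
    exact mul_nonneg (mul_nonneg (hw0 _) (hw0 _)) (Real.exp_pos _).le
  have cQ2 : Continuous fun U => Q U + Q (T.tU U) := cQ.add (cQ.comp T.tU_cont)
  have cR2 : Continuous fun U => R U + R (T.tU U) := cR.add (cR.comp T.tU_cont)
  have cQ3 : Continuous fun U => (-a) * (Q U + Q (T.tU U)) := continuous_const.mul cQ2
  have cR3 : Continuous fun U => a ^ 2 / 2 * (R U + R (T.tU U)) := continuous_const.mul cR2
  have cI2 : Continuous fun U => I U + (-a) * (Q U + Q (T.tU U)) := cI.add cQ3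
  have s1 := T.Ew_add μ (L := L) (β := β) hw cI2 cR3
  have s2 := T.Ew_add μ (L := L) (β := β) hw cI cQ3
  have s3 := T.Ew_add μ (L := L) (β := β) hw cQ (cQ.comp T.tU_cont)
  have s4 := T.Ew_add μ (L := L) (β := β) hw cR (cR.comp T.tU_cont)
  have s5 := T.Ew_smul μ (L := L) (β := β) (w := w) (F := fun U => Q U + Q (T.tU U)) (-a)
  have s6 := T.Ew_smul μ (L := L) (β := β) (w := w) (F := fun U => R U + R (T.tU U)) (a ^ 2 / 2)
  have s7 := Ew_tU μ (L := L) (β := β) T w Q
  have s8 := Ew_tU μ (L := L) (β := β) T w R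
  rw [← hQ, ← hR, ← hI]
  simp only [Function.comp_def] at s3 s4
  rw [s1, s2, s5, s6, s3, s4, s7, s8] at h2
  linarith

end gd

section iso

variable {κ : Type*} [Fintype κ]

/-- the average is invariant under isometries -/
lemma GE_iso (b : ℝ) (A : (κ → ℝ) →ₗ[ℝ] (κ → ℝ)) (hA : ∀ h, ∑ i, A h i ^ 2 = ∑ i, h i ^ 2)
    (f : (κ → ℝ) → ℝ) : GE b (fun h => f (A h)) = GE b f := by
  obtain ⟨B, hB⟩ : ∃ B : EuclideanSpace ℝ κ →ₗ[ℝ] EuclideanSpace ℝ κ, ∀ h,
      B h = WithLp.toLp 2 (A h.ofLp) := by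
    refine ⟨{ toFun := fun h => WithLp.toLp 2 (A h.ofLp), map_add' := fun x y => ?_,
              map_smul' := fun c x => ?_ }, fun h => rfl⟩
    · rw [WithLp.ofLp_add, map_add, WithLp.toLp_add]
    · rw [WithLp.ofLp_smul, map_smul, WithLp.toLp_smul]; rfl
  have hn : ∀ h, ‖B h‖ = ‖h‖ := by
    intro h
    rw [hB, EuclideanSpace.norm_eq, EuclideanSpace.norm_eq]
    simp only [Real.norm_eq_abs, sq_abs]
    rw [hA]
  obtain ⟨Li, hLi⟩ : ∃ Li : EuclideanSpace ℝ κ →ₗᵢ[ℝ] EuclideanSpace ℝ κ, ∀ h, Li h = B h :=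
    ⟨⟨B, hn⟩, fun h => rfl⟩
  have hmp := (Li.toLinearIsometryEquiv rfl).measurePreserving
  have h1 : MeasurePreserving (fun h : κ → ℝ => A h) volume volume := by
    have e1 := (PiLp.volume_preserving_ofLp κ).comp (hmp.comp (PiLp.volume_preserving_toLp κ))
    have e2 : (WithLp.ofLp ∘ ⇑(Li.toLinearIsometryEquiv rfl) ∘ (WithLp.toLp 2) :
        (κ → ℝ) → (κ → ℝ)) = fun h => A h := by
      funext h
      simp only [Function.comp, LinearIsometry.coe_toLinearIsometryEquiv]
      rw [hLi, hB]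
    rwa [e2] at e1
  have hinj : Function.Injective A := by
    intro x y hxy
    have h2 : A (x - y) = 0 := by rw [map_sub, hxy, sub_self]
    have h3 := hA (x - y)
    rw [h2] at h3
    simp only [Pi.zero_apply, ne_eq, OfNat.ofNat_ne_zero, not_false_eq_true, zero_pow,
      Finset.sum_const_zero] at h3
    have h4 := (Finset.sum_eq_zero_iff_of_nonneg fun i _ => sq_nonneg ((x - y) i)).1 h3.symm
    funext i
    have h5 := h4 i (Finset.mem_univ i)
    have h6 : x i - y i = 0 := by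
      have := pow_eq_zero_iff (two_ne_zero) |>.1 h5
      exact this
    linarith
  have hcont : Continuous A := LinearMap.continuous_of_finiteDimensional A
  have hme : MeasurableEmbedding (fun h : κ → ℝ => A h) :=
    hcont.measurableEmbedding hinj
  have h2 := h1.integral_comp hme (fun h => f h * gw b h)
  unfold GE
  congr 1
  rw [← h2]
  refine integral_congr_ae (Filter.Eventually.of_forall fun h => ?_)
  simp only
  congr 1
  unfold gw
  rw [hA]

end iso

end

end Pool.Agent.Y15
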