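import Mathlib
import Pool.Agent.Y15.GD2
import Pool.Agent.Y15.SRP
import Pool.Agent.Y15.TimeE
import Pool.Agent.Y15.Gram

/-!
# Log-convexity in time of the correlation of a state, and its first ratio
-/

open MeasureTheory Matrix
open scoped Matrix.Norms.Frobenius
open Pool.Agent.H906R3.YM hiding Pl
open Pool.Agent.W793.YM Pool.Agent.TH618.YM

namespace Pool.Agent.Y15

set_option linter.unusedSectionVars false
set_option linter.unusedVariables false

noncomputable section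

section mats

variable {N : ℕ}

lemma ip_comm (A B : Mat N) : ip A B = ip B A := by
  rw [ip_sum_co, ip_sum_co]
  exact Finset.sum_congr rfl fun c _ => mul_comm _ _

lemma ip_pol (A B : Mat N) : ip A B = (‖A‖ ^ 2 + ‖B‖ ^ 2 - ‖A - B‖ ^ 2) / 2 := by
  rw [ip_sum_co, ← nf_eq, ← nf_eq, ← nf_eq, ← Finset.sum_add_distrib, ← Finset.sum_sub_distrib,
    Finset.sum_div]
  refine Finset.sum_congr rfl fun c _ => ?_
  rw [map_sub]; ring

lemma ip_cont {α : Type*} [TopologicalSpace α] {X Y : α → Mat N} (hX : Continuous X)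
    (hY : Continuous Y) : Continuous fun u => ip (X u) (Y u) := by
  simp only [ip_sum_co]
  exact continuous_finsetSum _ fun c _ => ((co c).continuous.comp hX).mul
    ((co c).continuous.comp hY)

end mats

section lcf

lemma lc_fin {x : ℕ → ℝ} {M : ℕ} (h0 : 0 < x 0) (h1 : 0 < x 1)
    (hx : ∀ n, n + 2 ≤ M → x (n + 1) ^ 2 ≤ x n * x (n + 2)) :
    ∀ n, n + 1 ≤ M → 0 < x n ∧ 0 < x (n + 1) ∧ x 1 * x n ≤ x 0 * x (n + 1) := by
  intro n
  induction n with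
  | zero => intro _; exact ⟨h0, h1, by rw [mul_comm]⟩
  | succ n ih =>
    intro hn
    obtain ⟨a1, a2, a3⟩ := ih (by omega)
    have h2 := hx n (by omega)
    have h3 : 0 < x n * x (n + 2) := lt_of_lt_of_le (by positivity) h2
    have h4 : 0 < x (n + 2) := (mul_pos_iff_of_pos_left a1).1 h3
    refine ⟨a2, h4, ?_⟩
    have h5 : x 1 * x n * x (n + 1) ≤ x 0 * x (n + 2) * x n := by
      calc x 1 * x n * x (n + 1) ≤ x 0 * x (n + 1) * x (n + 1) :=
            mul_le_mul_of_nonneg_right a3 a2.le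
        _ = x 0 * x (n + 1) ^ 2 := by ring
        _ ≤ x 0 * (x n * x (n + 2)) := mul_le_mul_of_nonneg_left h2 h0.le
        _ = _ := by ring
    have h6 : (x 1 * x (n + 1)) * x n ≤ (x 0 * x (n + 2)) * x n := by linarith
    exact le_of_mul_le_mul_right h6 a1

lemma lc_fin' {x : ℕ → ℝ} {M : ℕ} (h0 : 0 < x 0) (h1 : 0 < x 1)
    (hx : ∀ n, n + 2 ≤ M → x (n + 1) ^ 2 ≤ x n * x (n + 2)) {r : ℝ} (hr : 0 ≤ r)
    (h : r * x 0 ≤ x 1) :
    ∀ n, n ≤ M → r ^ n * x 0 ≤ x n := by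
  intro n
  induction n with
  | zero => intro _; simp
  | succ n ih =>
    intro hn
    obtain ⟨a1, a2, a3⟩ := lc_fin h0 h1 hx n hn
    have h2 := ih (by omega)
    have h3 : x 0 * (r ^ (n + 1) * x 0) ≤ x 0 * x (n + 1) := by
      calc x 0 * (r ^ (n + 1) * x 0) = (r * x 0) * (r ^ n * x 0) := by rw [pow_succ]; ring
        _ ≤ x 1 * x n := mul_le_mul h h2 (by positivity) h1.le
        _ ≤ _ := a3
    exact le_of_mul_le_mul_left h3 h0

end lcf

variable {G : Type*} [Group G] [TopologicalSpace G]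
  [IsTopologicalGroup G] [CompactSpace G] [SecondCountableTopology G] [MeasurableSpace G]
  [BorelSpace G] (μ : Measure G) [IsProbabilityMeasure μ] [μ.IsMulLeftInvariant]
  [μ.IsMulRightInvariant] [μ.IsInvInvariant] {N n : ℕ} {L : LD G N n}
  {d m : ℕ} [NeZero m]
variable {τ : Fin d} {p0 p1 : Fin d → ZMod (2 * m)} {S : (Ed d (2 * m) → G) → Mat N}

/-- transfer of gauge invariant functions -/
lemma EX_red (hm : 2 ≤ m) (τ : Fin d) (β : ℝ) : ∃ κ : ℝ, 0 < κ ∧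
    ∀ F : (Ed d (2 * m) → G) → ℝ, Continuous F → GI F →
      EX μ L β F = κ * (TR hm τ).Ew μ L β (wR L β m τ).1 (fun U => F (fix τ U)) := by
  obtain ⟨c, hc, hred⟩ := Zt_red μ (L := L) hm τ β
  have hZ := Zt_pos μ (L := L) (d := d) (l := 2 * m) β
  refine ⟨c / Zt μ L β (fun _ : Ed d (2 * m) → G => 1), by positivity, fun F hF hg => ?_⟩
  unfold EX
  rw [hred F hF hg]; ring

lemma ip_uu (g h : G) (A B : Mat N) :
    ip (L.rho g * A * (L.rho h)ᴴ) (L.rho g * B * (L.rho h)ᴴ) = ip A B := by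
  rw [ip_mul3]
  congr 1
  have h1 : ∀ g : G, (L.rho g)ᴴ * L.rho g = 1 := L.unit'
  calc (L.rho g)ᴴ * (L.rho g * B * (L.rho h)ᴴ) * L.rho h =
      ((L.rho g)ᴴ * L.rho g) * B * ((L.rho h)ᴴ * L.rho h) := by simp only [mul_assoc]
    _ = B := by rw [h1, h1, one_mul, mul_one]

variable (L) in
/-- the correlation of a state in time -/
def Wc (τ : Fin d) (p0 p1 : Fin d → ZMod (2 * m)) (β : ℝ) (S : (Ed d (2 * m) → G) → Mat N)
    (t : ℕ) : ℝ := EX μ L β fun U => ip (Hn L τ p0 p1 t S U) (S U)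

lemma cross_ip (hm : 2 ≤ m) (hS : IsS L τ p0 p1 S) (h0 : p0 τ = 1) (h1 : p1 τ = 1) {s t : ℕ}
    (hs : s + 1 ≤ m) (ht : t + 1 ≤ m) (U : Ed d (2 * m) → G) :
    ip (Hn L τ p0 p1 (s + 1 + t) S (tr (-((s + 1) • eT τ)) (fix τ U)))
      (S (tr (-((s + 1) • eT τ)) (fix τ U))) =
    ip (Hn L τ p0 p1 t S U) (Hn L τ p0 p1 s S ((TR hm τ).tU U)) := by
  obtain ⟨z, hz⟩ : ∃ z : Fin d → ZMod (2 * m), z = (s + 1) • eT τ := ⟨_, rfl⟩
  have e1 : ∀ p : Fin d → ZMod (2 * m), p τ = 1 →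
      ln (tr (-z) (fix τ U)) τ (s + 1 + t) p =
        (ln ((TR hm τ).tU U) τ s p)⁻¹ * ln U τ t p := by
    intro p hp
    rw [ln_tr]
    have f1 : p + -z = p - (s + 1) • eT τ := by rw [hz]; abel
    rw [f1]
    exact ln_cross hm U hp hs ht
  have e2 : S (tr ((s + 1 + t) • eT τ) (tr (-z) (fix τ U))) = S (tr (t • eT τ) U) := by
    rw [tr_tr]
    have f1 : (s + 1 + t) • (eT τ : Fin d → ZMod (2 * m)) + -z = t • eT τ := by
      rw [hz, add_smul (s + 1) t]; abel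
    rw [f1]
    refine hS.loc _ _ fun x k hk hx => ?_
    unfold tr
    exact fix_ne _ _ hk
  have e3 : S (tr (-z) (fix τ U)) = S (tr (s • eT τ) ((TR hm τ).tU U)) := by
    refine hS.loc _ _ fun x k hk hx => ?_
    unfold tr
    simp only
    rw [fix_ne _ _ hk, tU_ne _ _ hk]
    congr 2
    funext i
    unfold rA
    by_cases hi : i = τ
    · subst hi
      rw [Function.update_self, hz]
      simp [eT, hx]
    · rw [Function.update_of_ne hi, hz]
      simp [eT, hi]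
  rw [← hz]
  unfold Hn
  rw [e1 p0 h0, e1 p1 h1, e2, e3]
  obtain ⟨a, ha⟩ : ∃ a, a = ln U τ t p0 := ⟨_, rfl⟩
  obtain ⟨a', ha'⟩ : ∃ a', a' = ln ((TR hm τ).tU U) τ s p0 := ⟨_, rfl⟩
  obtain ⟨b, hb⟩ : ∃ b, b = ln U τ t p1 := ⟨_, rfl⟩
  obtain ⟨b', hb'⟩ : ∃ b', b' = ln ((TR hm τ).tU U) τ s p1 := ⟨_, rfl⟩
  rw [← ha, ← ha', ← hb, ← hb']
  obtain ⟨X, hX⟩ : ∃ X, X = S (tr (t • eT τ) U) := ⟨_, rfl⟩
  obtain ⟨Y, hY⟩ : ∃ Y, Y = S (tr (s • eT τ) ((TR hm τ).tU U)) := ⟨_, rfl⟩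
  rw [← hX, ← hY]
  have key : L.rho (a'⁻¹ * a) * X * (L.rho (b'⁻¹ * b))ᴴ =
      (L.rho a')ᴴ * (L.rho a * X * (L.rho b)ᴴ) * ((L.rho b')ᴴ)ᴴ := by
    rw [map_mul, map_mul, L.rho_inv, L.rho_inv, conjTranspose_mul]
    simp only [mul_assoc]
  rw [key, ip_mul3, conjTranspose_conjTranspose]

lemma Wc_cross (hm : 2 ≤ m) {κ β : ℝ}
    (hκ : ∀ F : (Ed d (2 * m) → G) → ℝ, Continuous F → GI F →
      EX μ L β F = κ * (TR hm τ).Ew μ L β (wR L β m τ).1 (fun U => F (fix τ U)))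
    (hS : IsS L τ p0 p1 S) (h0 : p0 τ = 1) (h1 : p1 τ = 1) {s t : ℕ}
    (hs : s + 1 ≤ m) (ht : t + 1 ≤ m) :
    Wc μ L τ p0 p1 β S (s + 1 + t) = κ * (TR hm τ).Ew μ L β (wR L β m τ).1
      (fun U => ip (Hn L τ p0 p1 t S U) (Hn L τ p0 p1 s S ((TR hm τ).tU U))) := by
  obtain ⟨F, hF⟩ : ∃ F : (Ed d (2 * m) → G) → ℝ, F = fun U =>
    ip (Hn L τ p0 p1 (s + 1 + t) S U) (S U) := ⟨_, rfl⟩
  have hFc : Continuous F := by rw [hF]; exact ip_cont (Hn_cont hS.cont _) hS.cont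
  have hFg : GI F := by
    intro γ U
    rw [hF]
    simp only
    rw [Hn_gt hS, hS.cov, ip_uu]
  have e1 : Wc μ L τ p0 p1 β S (s + 1 + t) =
      EX μ L β fun U => F (tr (-((s + 1) • eT τ)) U) := by
    rw [EX_tr, hF]; rfl
  have hFg' : GI fun U => F (tr (-((s + 1) • eT τ)) U) := by
    intro γ U
    simp only
    rw [tr_gt, hFg]
  have e2 := hκ (fun U => F (tr (-((s + 1) • eT τ)) U)) (hFc.comp (tr_cont _)) hFg'
  rw [e1, e2]
  congr 2
  funext U
  rw [hF]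
  exact cross_ip hm hS h0 h1 hs ht U

/-- the reflection positive form of matrix valued functions -/
lemma mat_cs (T : Refl (Ed d (2 * m))) {β : ℝ} (hβ : 0 ≤ β) {w : (Ed d (2 * m) → G) → ℝ}
    (hw : Continuous w)
    (hd : Dep T.R w) {X Y : (Ed d (2 * m) → G) → Mat N} (hX : Continuous X)
    (hXd : Dep T.R X) (hY : Continuous Y) (hYd : Dep T.R Y) :
    (T.Ew μ L β w fun U => ip (X U) (Y (T.tU U))) ^ 2 ≤
      (T.Ew μ L β w fun U => ip (X U) (X (T.tU U))) *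
        (T.Ew μ L β w fun U => ip (Y U) (Y (T.tU U))) ∧
    0 ≤ T.Ew μ L β w fun U => ip (X U) (X (T.tU U)) := by
  have key : ∀ A B : (Ed d (2 * m) → G) → Mat N, Continuous A → Continuous B →
      (T.Ew μ L β w fun U => ip (A U) (B (T.tU U))) =
        ∑ c : Cx N, T.B μ L β (fun U => co c (A U) * w U) (fun U => co c (B U) * w U) := by
    intro A B hA hB
    unfold Refl.Ew Refl.B
    have i1 : ∀ c ∈ (Finset.univ : Finset (Cx N)), Integrable (fun U => co c (A U) * w U *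
        (co c (B (T.tU U)) * w (T.tU U)) * Real.exp (β * T.ker L U)) (ME μ (Ed d (2 * m))) :=
      fun c _ => integrable_cont μ (((((co c).continuous.comp hA).mul hw).mul
        (((co c).continuous.comp (hB.comp T.tU_cont)).mul (hw.comp T.tU_cont))).mul
          (Real.continuous_exp.comp (continuous_const.mul T.ker_cont)))
    rw [← integral_finsetSum _ i1]
    refine integral_congr_ae (Filter.Eventually.of_forall fun U => ?_)
    simp only
    rw [ip_sum_co, Finset.sum_mul]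
    refine Finset.sum_congr rfl fun c _ => ?_
    ring
  have fc : ∀ {A : (Ed d (2 * m) → G) → Mat N}, Continuous A → ∀ c : Cx N,
      Continuous fun U => co c (A U) * w U := fun hA c => ((co c).continuous.comp hA).mul hw
  have fd : ∀ {A : (Ed d (2 * m) → G) → Mat N}, Dep T.R A → ∀ c : Cx N,
      Dep T.R fun U => co c (A U) * w U := fun {A} hA c U U' h => by
    show co c (A U) * w U = co c (A U') * w U'
    rw [hA U U' h, hd U U' h]
  rw [key X Y hX hY, key X X hX hX, key Y Y hY hY]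
  constructor
  · refine Pool.Agent.H906R3.YM.sq_le_of_forall fun t => ?_
    rw [Finset.mul_sum, Finset.mul_sum, ← Finset.sum_add_distrib, ← Finset.sum_add_distrib]
    exact Finset.sum_nonneg fun c _ => T.B_quad μ hβ (fc hX c) (fd hXd c) (fc hY c) (fd hYd c) t
  · exact Finset.sum_nonneg fun c _ => T.B_self μ hβ (fc hX c) (fd hXd c)

theorem W_link (hm : 2 ≤ m) {β : ℝ} (hβ : 0 ≤ β)
    (hS : IsS L τ p0 p1 S) (h0 : p0 τ = 1) (h1 : p1 τ = 1) {s t : ℕ}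
    (hs : s + 1 ≤ m) (ht : t + 1 ≤ m) :
    Wc μ L τ p0 p1 β S (s + 1 + t) ^ 2 ≤ Wc μ L τ p0 p1 β S (2 * s + 1) *
      Wc μ L τ p0 p1 β S (2 * t + 1) := by
  obtain ⟨κ, hκ0, hκ⟩ := EX_red μ (L := L) hm τ β
  have a1 : 2 * s + 1 = s + 1 + s := by ring
  have a2 : 2 * t + 1 = t + 1 + t := by ring
  rw [a1, a2, Wc_cross μ hm hκ hS h0 h1 hs ht, Wc_cross μ hm hκ hS h0 h1 hs hs,
    Wc_cross μ hm hκ hS h0 h1 ht ht]
  have h2 := (mat_cs μ (L := L) (TR hm τ) hβ (Sm_cont (wR L β m τ)) (wR_dep hm β τ)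
    (Hn_cont hS.cont t) (Hn_dep hm hS h0 h1 ht) (Hn_cont hS.cont s) (Hn_dep hm hS h0 h1 hs)).1
  have h3 := mul_le_mul_of_nonneg_left h2 (sq_nonneg κ)
  calc _ = κ ^ 2 * ((TR hm τ).Ew μ L β (wR L β m τ).1
        fun U => ip (Hn L τ p0 p1 t S U) (Hn L τ p0 p1 s S ((TR hm τ).tU U))) ^ 2 := by ring
    _ ≤ _ := h3
    _ = _ := by ring

/-- the state with its lines on the plane of the site reflection -/
def Hz (L : LD G N n) (τ : Fin d) (p0 p1 : Fin d → ZMod (2 * m)) (t : ℕ)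
    (S : (Ed d (2 * m) → G) → Mat N) (U : Ed d (2 * m) → G) : Mat N :=
  Hn L τ p0 p1 t S (tr (-eT τ) U)

lemma Hz_cont (hS : Continuous S) (t : ℕ) : Continuous (Hz L τ p0 p1 t S) :=
  (Hn_cont hS t).comp (tr_cont _)

lemma Hz_dep (hm : 2 ≤ m) (hS : IsS L τ p0 p1 S) (h0 : p0 τ = 1) (h1 : p1 τ = 1) {t : ℕ}
    (ht : t ≤ m) : Dep (HQ τ) (Hz L τ p0 p1 t S) := by
  intro U U' h
  unfold Hz Hn
  have q0 : (p0 + -eT τ : Fin d → ZMod (2 * m)) τ = 0 := by simp [eT, h0]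
  have q1 : (p1 + -eT τ : Fin d → ZMod (2 * m)) τ = 0 := by simp [eT, h1]
  rw [ln_tr, ln_tr, ln_tr, ln_tr, ln_HQ_same hm h q0 ht, ln_HQ_same hm h q1 ht, tr_tr, tr_tr]
  congr 2
  refine hS.loc _ _ fun x k hk hx => ?_
  unfold tr
  refine h _ ?_
  unfold HQ
  rw [if_neg hk]
  simp only
  have e1 : (x + (t • eT τ + -eT τ) : Fin d → ZMod (2 * m)) τ = (t : ZMod (2 * m)) := by
    simp [eT, hx]
  rw [e1, val_nat (by have := NeZero.pos m; omega)]
  exact ht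

lemma Hz_cross (hm : 2 ≤ m) (hS : IsS L τ p0 p1 S) (h0 : p0 τ = 1) (h1 : p1 τ = 1) (s t : ℕ)
    (U : Ed d (2 * m) → G) :
    ip (Hz L τ p0 p1 s S ((SR hm τ).tU U)) (Hz L τ p0 p1 t S U) =
      ip (S (tr (-((s + 1) • eT τ)) U)) (Hn L τ p0 p1 (s + t) S (tr (-((s + 1) • eT τ)) U)) := by
  unfold Hz Hn
  have q : ∀ p : Fin d → ZMod (2 * m), p τ = 1 → (p + -eT τ : Fin d → ZMod (2 * m)) τ = 0 :=
    fun p hp => by simp [eT, hp]
  have e1 : ∀ p : Fin d → ZMod (2 * m), p τ = 1 →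
      ln (tr (-eT τ) ((SR hm τ).tU U)) τ s p = (ln U τ s (p + -((s + 1) • eT τ)))⁻¹ := by
    intro p hp
    rw [ln_tr, ln_sU_same, rB_fix (Or.inl (q p hp))]
    congr 2
    rw [add_smul, one_smul]; abel
  have e2 : ∀ p : Fin d → ZMod (2 * m), ln (tr (-((s + 1) • eT τ)) U) τ (s + t) p =
      ln U τ s (p + -((s + 1) • eT τ)) * ln (tr (-eT τ) U) τ t p := by
    intro p
    rw [ln_tr, ln_tr, ln_add]
    congr 2
    rw [add_smul, one_smul]; abel
  have e3 : S (tr (s • eT τ) (tr (-eT τ) ((SR hm τ).tU U))) = S (tr (-((s + 1) • eT τ)) U) := by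
    rw [tr_tr]
    refine hS.loc _ _ fun x k hk hx => ?_
    unfold tr
    simp only
    rw [sU_ne _ _ hk]
    congr 2
    rw [rf_rB]
    funext c
    by_cases hc : c = τ
    · subst hc
      rw [rf_same]
      simp [eT, hx]
    · rw [rf_ne hc]
      simp [eT, hc]
  have e4 : tr ((s + t) • eT τ) (tr (-((s + 1) • eT τ)) U) = tr (t • eT τ) (tr (-eT τ) U) := by
    rw [tr_tr, tr_tr]
    congr 1
    rw [add_smul s t, add_smul s 1, one_smul]; abel
  rw [e1 p0 h0, e1 p1 h1, e2 p0, e2 p1, e3, e4]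
  have hmm : ∀ g h : G, L.rho (g * h) = L.rho g * L.rho h := fun g h => map_mul _ _ _
  rw [L.rho_inv, L.rho_inv, hmm, hmm, conjTranspose_mul, ip_mul3,
    conjTranspose_conjTranspose]
  congr 1
  simp only [mul_assoc]

theorem W_site (hm : 2 ≤ m) {β : ℝ}
    (hS : IsS L τ p0 p1 S) (h0 : p0 τ = 1) (h1 : p1 τ = 1) {s t : ℕ}
    (hs : s ≤ m) (ht : t ≤ m) :
    Wc μ L τ p0 p1 β S (s + t) ^ 2 ≤ Wc μ L τ p0 p1 β S (2 * s) * Wc μ L τ p0 p1 β S (2 * t) := by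
  have key : ∀ s t : ℕ, Wc μ L τ p0 p1 β S (s + t) =
      EX μ L β fun U => ∑ c ∈ (Finset.univ : Finset (Cx N)),
        co c (Hz L τ p0 p1 s S ((SR hm τ).tU U)) * co c (Hz L τ p0 p1 t S U) := by
    intro s t
    have e1 : (fun U => ∑ c ∈ (Finset.univ : Finset (Cx N)),
        co c (Hz L τ p0 p1 s S ((SR hm τ).tU U)) * co c (Hz L τ p0 p1 t S U)) =
        fun U => (fun V => ip (Hn L τ p0 p1 (s + t) S V) (S V))
          (tr (-((s + 1) • eT τ)) U) := by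
      funext U
      rw [← ip_sum_co, Hz_cross hm hS h0 h1, ip_comm]
    have e2 := EX_tr μ (L := L) (β := β) (-((s + 1) • eT τ))
      (fun V : Ed d (2 * m) → G => ip (Hn L τ p0 p1 (s + t) S V) (S V))
    rw [e1, e2]
    rfl
  have h2 := (srp_cs μ (L := L) hm τ β (Finset.univ : Finset (Cx N))
    (f := fun c U => co c (Hz L τ p0 p1 s S U)) (g := fun c U => co c (Hz L τ p0 p1 t S U))
    (fun c => (co c).continuous.comp (Hz_cont hS.cont s))
    (fun c U U' h => by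
      show co c (Hz L τ p0 p1 s S U) = co c (Hz L τ p0 p1 s S U')
      rw [Hz_dep hm hS h0 h1 hs U U' h])
    (fun c => (co c).continuous.comp (Hz_cont hS.cont t))
    (fun c U U' h => by
      show co c (Hz L τ p0 p1 t S U) = co c (Hz L τ p0 p1 t S U')
      rw [Hz_dep hm hS h0 h1 ht U U' h])).1
  rw [two_mul, two_mul, key s t, key s s, key t t]
  exact h2

/-- log-convexity at the interior times -/
theorem W_lc (hm : 2 ≤ m) {β : ℝ} (hβ : 0 ≤ β)
    (hS : IsS L τ p0 p1 S) (h0 : p0 τ = 1) (h1 : p1 τ = 1) (n : ℕ) (hn : n + 2 ≤ m) :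
    Wc μ L τ p0 p1 β S (n + 1) ^ 2 ≤ Wc μ L τ p0 p1 β S n * Wc μ L τ p0 p1 β S (n + 2) := by
  rcases Nat.even_or_odd' n with ⟨k, hk | hk⟩
  · have h2 := W_site μ (L := L) hm (β := β) hS h0 h1 (s := k) (t := k + 1) (by omega) (by omega)
    have a1 : k + (k + 1) = n + 1 := by omega
    have a2 : 2 * (k + 1) = n + 2 := by omega
    rw [a1, a2, ← hk] at h2
    exact h2
  · have h2 := W_link μ (L := L) hm (β := β) hβ hS h0 h1 (s := k) (t := k + 1) (by omega) (by omega)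
    have a1 : k + 1 + (k + 1) = n + 1 := by omega
    have a2 : 2 * (k + 1) + 1 = n + 2 := by omega
    rw [a1, a2, ← hk] at h2
    exact h2

end

end Pool.Agent.Y15
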