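import Mathlib
import Pool.Agent.Y15.TimeL

/-!
# The first ratio of a state and the bound of its energy
-/

open MeasureTheory Matrix
open scoped Matrix.Norms.Frobenius
open Pool.Agent.H906R3.YM hiding Pl
open Pool.Agent.W793.YM Pool.Agent.TH618.YM

namespace Pool.Agent.Y15

set_option linter.unusedSectionVars false
set_option linter.unusedVariables false

noncomputable section

variable {G : Type*} [Group G] [TopologicalSpace G]
  [IsTopologicalGroup G] [CompactSpace G] [SecondCountableTopology G] [MeasurableSpace G]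
  [BorelSpace G] (μ : Measure G) [IsProbabilityMeasure μ] [μ.IsMulLeftInvariant]
  [μ.IsMulRightInvariant] [μ.IsInvInvariant] {N n : ℕ} {L : LD G N n}

section gauge

variable {d l : ℕ} [NeZero l]

/-- gauge transformation of the matrices -/
def gM (L : LD G N n) (γ : (Fin d → ZMod l) → G) (M : Ed d l → Mat N) : Ed d l → Mat N :=
  fun e => L.rho (γ e.1) * M e * (L.rho (γ (e.1 + eT e.2)))ᴴ

lemma gM_apply (γ : (Fin d → ZMod l) → G) (M : Ed d l → Mat N) (e : Ed d l) :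
    gM L γ M e = L.rho (γ e.1) * M e * (L.rho (γ (e.1 + eT e.2)))ᴴ := rfl

lemma gM_add (γ : (Fin d → ZMod l) → G) (M M' : Ed d l → Mat N) :
    gM L γ (M + M') = gM L γ M + gM L γ M' := by
  funext e
  simp only [gM_apply, Pi.add_apply, mul_add, add_mul]

lemma gM_smul (γ : (Fin d → ZMod l) → G) (c : ℝ) (M : Ed d l → Mat N) :
    gM L γ (c • M) = c • gM L γ M := by
  funext e
  simp only [gM_apply, Pi.smul_apply, mul_smul_comm, smul_mul_assoc]

lemma mat_gM (γ : (Fin d → ZMod l) → G) (U : Ed d l → G) :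
    L.mat (gt γ U) = gM L γ (L.mat U) := by
  funext e
  show L.rho (γ e.1 * U e * (γ (e.1 + eT e.2))⁻¹) = _
  rw [map_mul, map_mul, L.rho_inv]
  rfl

lemma pv_gM (γ : (Fin d → ZMod l) → G) (M : Ed d l → Mat N) {w : List (Ed d l × Bool)} :
    ∀ {p q : Fin d → ZMod l}, isP p w q →
      pv (gM L γ M) w = L.rho (γ p) * pv M w * (L.rho (γ q))ᴴ := by
  have h1 : ∀ g : G, (L.rho g)ᴴ * L.rho g = 1 := L.unit'
  have h2 : ∀ g : G, L.rho g * (L.rho g)ᴴ = 1 := L.unit
  induction w with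
  | nil =>
    intro p q h
    have h' : p = q := h
    subst h'
    rw [pv_nil, pv_nil, mul_one, h2]
  | cons s w ih =>
    intro p q h
    rw [pv_cons, pv_cons]
    obtain ⟨⟨x, k⟩, b⟩ := s
    cases b
    · have h' : x + eT k = p ∧ isP x w q := h
      rw [ih h'.2, if_neg (by simp), if_neg (by simp), gM_apply]
      simp only [conjTranspose_mul, conjTranspose_conjTranspose]
      rw [h'.1]
      calc _ = L.rho (γ p) * (M (x, k))ᴴ * ((L.rho (γ x))ᴴ * L.rho (γ x)) *
            pv M w * (L.rho (γ q))ᴴ := by simp only [mul_assoc]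
        _ = _ := by rw [h1, mul_one]; simp only [mul_assoc]
    · have h' : x = p ∧ isP (p + eT k) w q := h
      obtain ⟨h3, h4⟩ := h'
      subst h3
      rw [ih h4, if_pos rfl, if_pos rfl, gM_apply]
      calc _ = L.rho (γ x) * M (x, k) * ((L.rho (γ (x + eT k)))ᴴ * L.rho (γ (x + eT k))) *
            pv M w * (L.rho (γ q))ᴴ := by simp only [mul_assoc]
        _ = _ := by rw [h1, mul_one]; simp only [mul_assoc]

lemma mt_smul {E : Type*} [Fintype E] [DecidableEq E] (c : ℝ) (h : E × Cx N → ℝ) : mt (c • h) = c • mt h := by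
  funext e
  refine mat_ext fun c' => ?_
  rw [Pi.smul_apply, map_smul, co_mt, co_mt]
  rfl

/-- the gauge transformation of the noise -/
def gA (L : LD G N n) (γ : (Fin d → ZMod l) → G) :
    (Ed d l × Cx N → ℝ) →ₗ[ℝ] (Ed d l × Cx N → ℝ) where
  toFun h := xm (gM L γ (mt h))
  map_add' x y := by
    rw [mt_add', gM_add]
    funext i
    show co i.2 (gM L γ (mt x) i.1 + gM L γ (mt y) i.1) =
      co i.2 (gM L γ (mt x) i.1) + co i.2 (gM L γ (mt y) i.1)
    rw [map_add]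
  map_smul' c x := by
    rw [mt_smul, gM_smul]
    funext i
    show co i.2 (c • gM L γ (mt x) i.1) = c * co i.2 (gM L γ (mt x) i.1)
    rw [map_smul]; rfl

lemma gA_iso (γ : (Fin d → ZMod l) → G) (h : Ed d l × Cx N → ℝ) :
    ∑ i, gA L γ h i ^ 2 = ∑ i, h i ^ 2 := by
  rw [Fintype.sum_prod_type (fun i : Ed d l × Cx N => gA L γ h i ^ 2),
    Fintype.sum_prod_type (fun i : Ed d l × Cx N => h i ^ 2)]
  refine Finset.sum_congr rfl fun e _ => ?_
  have e1 : ∀ c : Cx N, gA L γ h (e, c) = co c (gM L γ (mt h) e) := fun c => rfl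
  have e2 : ∀ c : Cx N, h (e, c) = co c (mt h e) := fun c => (co_mt h e c).symm
  simp only [e1, e2]
  rw [nf_eq, nf_eq, gM_apply, norm_uu]

lemma FF_gM {ι : Type*} [Fintype ι] {a : ι → ℝ} {w : ι → List (Ed d l × Bool)}
    {p0 p1 : Fin d → ZMod l} (hw : ∀ i, isP p0 (w i) p1) (γ : (Fin d → ZMod l) → G)
    (M : Ed d l → Mat N) :
    FF a w (gM L γ M) = L.rho (γ p0) * FF a w M * (L.rho (γ p1))ᴴ := by
  unfold FF
  rw [Finset.mul_sum, Finset.sum_mul]
  refine Finset.sum_congr rfl fun i _ => ?_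
  rw [pv_gM γ M (hw i), mul_smul_comm, smul_mul_assoc]

lemma GE_gauge {ι : Type*} [Fintype ι] {a : ι → ℝ} {w : ι → List (Ed d l × Bool)}
    {p0 p1 : Fin d → ZMod l} (hw : ∀ i, isP p0 (w i) p1) (b : ℝ) (γ : (Fin d → ZMod l) → G)
    (M : Ed d l → Mat N) :
    GE b (fun h => ‖FF a w (gM L γ M + mt h)‖ ^ 2) = GE b (fun h => ‖FF a w (M + mt h)‖ ^ 2) := by
  rw [← GE_iso b (gA L γ) (gA_iso γ) (fun h => ‖FF a w (gM L γ M + mt h)‖ ^ 2)]
  refine congrArg (GE b) (funext fun h => ?_)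
  have e0 : mt (gA L γ h) = gM L γ (mt h) := mt_xm _
  have e1 : gM L γ M + mt (gA L γ h) = gM L γ (M + mt h) := by
    rw [gM_add, e0]
  rw [e1, FF_gM hw, norm_uu]

end gauge

variable {d m : ℕ} [NeZero m]
variable {τ : Fin d} {p0 p1 : Fin d → ZMod (2 * m)} {ι : Type*} [Fintype ι]

variable (L) in
/-- the second moment of a state with noise on all links -/
def Qn (β : ℝ) (a : ι → ℝ) (w : ι → List (Ed d (2 * m) × Bool)) : ℝ :=
  EX μ L β fun U => GE (β / 2) fun h => ‖FF a w (L.mat U + mt h)‖ ^ 2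

/-- **The first ratio.** -/
theorem ratio (hm : 2 ≤ m) {β : ℝ} (hβ : 0 < β) {a : ι → ℝ}
    {w : ι → List (Ed d (2 * m) × Bool)} (hw : ∀ i, isP p0 (w i) p1) (hl : ∀ i, lay τ (w i))
    (hn : ∀ i, ND (w i)) (h0 : p0 τ = 1) (h1 : p1 τ = 1) (t : ℝ) :
    2 * t * Wc μ L τ p0 p1 β (PS L a w) 0 - t ^ 2 * Qn μ L β a w ≤
      Wc μ L τ p0 p1 β (PS L a w) 1 := by
  have hb : 0 < β / 2 := by positivity
  obtain ⟨κ, hκ0, hκ⟩ := EX_red μ (L := L) hm τ β
  obtain ⟨F, hF⟩ : ∃ F : (Ed d (2 * m) × Cx N → ℝ) → Mat N, F = fun x => FF a w (mt x) := ⟨_, rfl⟩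
  have hFM : EM F := by
    have h2 := EM_FF (a := a) (l := w) (0 : Ed d (2 * m) × Cx N → ℝ) Finset.univ
    simp only [hs_univ, zero_add] at h2
    rw [hF]; exact h2
  have hmean : ∀ x c, GE (β / 2) (fun h => co c (F (x + h))) = co c (F x) := by
    intro x c
    rw [hF]
    exact FF_mean hn hb x c
  have key := gd_main2 μ (L := L) (TR hm τ) hβ (Sm_cont (wR L β m τ)) (wR_dep hm β τ)
    (fun U => wR_nonneg β τ U) hFM hmean t
  have hS := PS_isS (L := L) (a := a) hw hl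
  have hFS : ∀ U, F (av L (TR hm τ) U) = PS L a w U := fun U => by
    rw [hF]; exact FF_av hl U
  have e0 : Wc μ L τ p0 p1 β (PS L a w) 0 = κ * (TR hm τ).Ew μ L β (wR L β m τ).1
      (fun U => ‖F (av L (TR hm τ) U)‖ ^ 2) := by
    have f1 : Wc μ L τ p0 p1 β (PS L a w) 0 = EX μ L β fun U => ‖PS L a w U‖ ^ 2 := by
      unfold Wc
      refine congrArg (EX μ L β) (funext fun U => ?_)
      rw [Hn_zero, norm_sq_ip]
    have f2 := hκ (fun U => ‖PS L a w U‖ ^ 2) (hS.cont.norm.pow 2) (fun γ U => by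
      show ‖PS L a w (gt γ U)‖ ^ 2 = ‖PS L a w U‖ ^ 2
      rw [hS.cov, norm_uu])
    rw [f1, f2]
    refine congrArg (fun x => κ * x) (congrArg ((TR hm τ).Ew μ L β (wR L β m τ).1)
      (funext fun U => ?_))
    rw [hFS]
    have f3 := Hn_fix hm hS h0 h1 (t := 0) (by have := NeZero.pos m; omega) U
    rw [Hn_zero, Hn_zero] at f3
    rw [f3]
  have e1 : Wc μ L τ p0 p1 β (PS L a w) 1 = κ * (TR hm τ).Ew μ L β (wR L β m τ).1
      (fun U => ip (F (av L (TR hm τ) U)) (F (av L (TR hm τ) ((TR hm τ).tU U)))) := by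
    have f1 := Wc_cross μ hm hκ hS h0 h1 (s := 0) (t := 0) (by have := NeZero.pos m; omega)
      (by have := NeZero.pos m; omega)
    rw [zero_add, add_zero] at f1
    rw [f1]
    refine congrArg (fun x => κ * x) (congrArg ((TR hm τ).Ew μ L β (wR L β m τ).1)
      (funext fun U => ?_))
    rw [Hn_zero, Hn_zero, hFS, hFS]
  have e2 : Qn μ L β a w = κ * (TR hm τ).Ew μ L β (wR L β m τ).1
      (fun U => GE (β / 2) fun h => ‖F (av L (TR hm τ) U + h)‖ ^ 2) := by
    have hc : Continuous fun U : Ed d (2 * m) → G =>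
        GE (β / 2) fun h => ‖FF a w (L.mat U + mt h)‖ ^ 2 := by
      have g1 : ∀ U : Ed d (2 * m) → G, (fun h : Ed d (2 * m) × Cx N → ℝ =>
          ‖FF a w (L.mat U + mt h)‖ ^ 2) = fun h => (fun x => ‖F x‖ ^ 2) (xm (L.mat U) + h) := by
        intro U
        funext h
        rw [hF]
        simp only
        rw [mt_add', mt_xm]
      simp only [g1]
      refine GE_cont hb hFM.nsq (X := fun U : Ed d (2 * m) → G => xm (L.mat U)) ?_ mat_bd
      exact continuous_pi fun i => (co i.2).continuous.comp (mat_cont i.1)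
    have f2 := hκ (fun U => GE (β / 2) fun h => ‖FF a w (L.mat U + mt h)‖ ^ 2) hc (fun γ U => by
      show (GE (β / 2) fun h => ‖FF a w (L.mat (gt γ U) + mt h)‖ ^ 2) =
        GE (β / 2) fun h => ‖FF a w (L.mat U + mt h)‖ ^ 2
      rw [mat_gM, GE_gauge hw])
    unfold Qn
    rw [f2]
    refine congrArg (fun x => κ * x) (congrArg ((TR hm τ).Ew μ L β (wR L β m τ).1)
      (funext fun U => congrArg (GE (β / 2)) (funext fun h => ?_)))
    have g2 : FF a w (L.mat (fix τ U) + mt h) = F (av L (TR hm τ) U + h) := by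
      rw [hF]
      simp only
      rw [mt_add']
      unfold FF
      refine Finset.sum_congr rfl fun i _ => ?_
      have g3 : pv (L.mat (fix τ U) + mt h) (w i) =
          pv (mt (av L (TR hm τ) U) + mt h) (w i) := by
        refine pv_congr fun s hs => ?_
        have hs' := hl i s hs
        have g4 : mt (av L (TR hm τ) U) s.1 = L.rho (U s.1) := by
          refine mt_av _ _ ?_
          show s.1 ∈ Finset.univ.filter _
          rw [Finset.mem_filter]
          exact ⟨Finset.mem_univ _, hs'.1, Or.inl hs'.2⟩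
        have g5 : L.mat (fix τ U) s.1 = L.rho (U s.1) := by
          show L.rho (fix τ U s.1) = L.rho (U s.1)
          have : fix τ U s.1 = U s.1 := fix_ne U s.1.1 hs'.1
          rw [this]
        rw [Pi.add_apply, Pi.add_apply, g4, g5]
      rw [g3]
    rw [g2]
  have h2 := mul_le_mul_of_nonneg_left key hκ0.le
  rw [e0, e1, e2]
  linarith

/-- **The energy of a state.** -/
theorem energy (hm : 2 ≤ m) {β : ℝ} (hβ : 0 < β) {a : ι → ℝ}
    {w : ι → List (Ed d (2 * m) × Bool)} (hw : ∀ i, isP p0 (w i) p1) (hl : ∀ i, lay τ (w i))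
    (hn : ∀ i, ND (w i)) (h0 : p0 τ = 1) (h1 : p1 τ = 1) {q : ℝ}
    (hQ : 0 < Wc μ L τ p0 p1 β (PS L a w) 0) (hq : 0 < q) (hqn : Qn μ L β a w ≤ q)
    {t : ℕ} (ht : t ≤ m) :
    (Wc μ L τ p0 p1 β (PS L a w) 0 / q) ^ t * Wc μ L τ p0 p1 β (PS L a w) 0 ≤
      Wc μ L τ p0 p1 β (PS L a w) t := by
  obtain ⟨Q, hQ'⟩ : ∃ Q, Q = Wc μ L τ p0 p1 β (PS L a w) 0 := ⟨_, rfl⟩
  have h2 := ratio μ (L := L) hm hβ (a := a) hw hl hn h0 h1 (Q / q)
  have hS := PS_isS (L := L) (a := a) hw hl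
  rw [← hQ'] at hQ h2 ⊢
  have h3 : Q / q * Q ≤ Wc μ L τ p0 p1 β (PS L a w) 1 := by
    refine le_trans ?_ h2
    have h4 : (Q / q) ^ 2 * Qn μ L β a w ≤ (Q / q) ^ 2 * q :=
      mul_le_mul_of_nonneg_left hqn (sq_nonneg _)
    have h5 : (Q / q) ^ 2 * q = Q / q * Q := by field_simp
    linarith
  have h4 : 0 < Wc μ L τ p0 p1 β (PS L a w) 1 := lt_of_lt_of_le (by positivity) h3
  rw [hQ'] at hQ h3 ⊢
  exact lc_fin' hQ h4 (fun n hn => W_lc μ (L := L) hm hβ.le hS h0 h1 n hn)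
    (by positivity) h3 t ht

end

end Pool.Agent.Y15
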