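import Mathlib
import Pool.Agent.Y15.Ratio
import Pool.Agent.Y15.Ker

/-!
# The chains of blocks as families of lists of links
-/

open MeasureTheory Matrix
open scoped Matrix.Norms.Frobenius
open Pool.Agent.H906R3.YM hiding Pl
open Pool.Agent.W793.YM Pool.Agent.TH618.YM

namespace Pool.Agent.Y15

set_option linter.unusedSectionVars false
set_option linter.unusedVariables false

noncomputable section

section mats

variable {N : ℕ} {ι κ : Type*} [Fintype ι] [Fintype κ]

lemma mM_prod (F : ι × κ → Mat N) : mM F = mM fun a => mM fun b => F (a, b) := by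
  refine mat_ext fun c => ?_
  rw [co_mM, co_mM, mn_prod]
  refine congrArg mn (funext fun a => ?_)
  rw [co_mM]

lemma mul_mM (A : Mat N) (F : ι → Mat N) : A * mM F = mM fun p => A * F p := by
  unfold mM
  rw [mul_smul_comm, Finset.mul_sum]

lemma mM_equiv (e : ι ≃ κ) (F : κ → Mat N) : mM (fun a => F (e a)) = mM F := by
  refine mat_ext fun c => ?_
  rw [co_mM, co_mM]
  exact mn_equiv e fun p => co c (F p)

lemma mM_congr {F F' : ι → Mat N} (h : ∀ a, F a = F' a) : mM F = mM F' :=
  congrArg mM (funext h)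

lemma cn_mM {E : Type*} [Fintype E] [DecidableEq E] {b : ℝ} (hb : 0 < b) (s : Bool)
    (M : E → Mat N) (l l' : List (E × Bool)) (F : ι → Mat N) :
    cn b s M l l' (mM F) = mM fun p => cn b s M l l' (F p) := by
  unfold mM
  rw [cn_smul, cn_sum hb]

end mats

section chains

/-- the indices of the chains of `n` blocks -/
def Ch (q : ℕ) : ℕ → Type
  | 0 => Unit
  | n + 1 => (Om q × Om q) × Ch q n

instance instCh (q : ℕ) : ∀ n, Fintype (Ch q n)
  | 0 => (inferInstance : Fintype Unit)
  | n + 1 => @instFintypeProd _ _ inferInstance (instCh q n)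

instance instChN (q : ℕ) : ∀ n, Nonempty (Ch q n)
  | 0 => ⟨()⟩
  | n + 1 => by
    have := instChN q n
    exact ⟨(Classical.arbitrary _, Classical.arbitrary _)⟩

variable {d l : ℕ} (i j k : Fin d)

/-- the displacement of a chain -/
def chd (q : ℕ) : ∀ n, Ch q n → (Fin d → ZMod l)
  | 0, _ => 0
  | n + 1, (b, ω) => db i j k q b + chd q n ω

/-- the chain of `n` blocks -/
def chl (q : ℕ) : ∀ n, Ch q n → (Fin d → ZMod l) → List (Ed d l × Bool)
  | 0, _, _ => []
  | n + 1, (b, ω), x => bl i j k q b x ++ chl q n ω (x + db i j k q b)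

variable {i j k}

lemma chd_succ (q n : ℕ) (b : Om q × Om q) (ω : Ch q n) :
    (chd i j k q (n + 1) (b, ω) : Fin d → ZMod l) = db i j k q b + chd i j k q n ω := rfl

lemma chl_succ (q n : ℕ) (b : Om q × Om q) (ω : Ch q n) (x : Fin d → ZMod l) :
    chl i j k q (n + 1) (b, ω) x = bl i j k q b x ++ chl i j k q n ω (x + db i j k q b) := rfl

variable (hij : i ≠ j) (hik : i ≠ k) (hjk : j ≠ k)
include hij hik hjk

lemma length_chl (q n : ℕ) (ω : Ch q n) (x : Fin d → ZMod l) :
    (chl i j k q n ω x).length ≤ n * (6 * 2 ^ q) := by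
  induction n generalizing x with
  | zero => exact Nat.zero_le _
  | succ n ih =>
    obtain ⟨b, ω⟩ := ω
    rw [chl_succ, List.length_append]
    have h1 := length_bl hij hik hjk q b x
    have h2 := ih ω (x + db i j k q b)
    have h3 : (n + 1) * (6 * 2 ^ q) = 6 * 2 ^ q + n * (6 * 2 ^ q) := by ring
    omega

lemma isP_chl (q n : ℕ) (ω : Ch q n) (x : Fin d → ZMod l) :
    isP x (chl i j k q n ω x) (x + chd i j k q n ω) := by
  induction n generalizing x with
  | zero =>
    show x = x + 0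
    rw [add_zero]
  | succ n ih =>
    obtain ⟨b, ω⟩ := ω
    rw [chl_succ, chd_succ, ← add_assoc]
    exact isP_append (isP_bl hij hik hjk q b x) (ih ω _)

lemma chd_i (q n : ℕ) (ω : Ch q n) :
    (chd i j k q n ω : Fin d → ZMod l) i = (n * 2 ^ (q + 1) : ℕ) := by
  induction n with
  | zero => simp [chd]
  | succ n ih =>
    obtain ⟨b, ω⟩ := ω
    rw [chd_succ, Pi.add_apply, db_i hij hik hjk, ih]
    push_cast; ring

lemma db_c {c : Fin d} (h1 : c ≠ i) (h2 : c ≠ j) (h3 : c ≠ k) (q : ℕ) (b : Om q × Om q) :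
    (db i j k q b : Fin d → ZMod l) c = 0 := by
  unfold db
  rw [Pi.sub_apply, Pi.add_apply, smul_eT, if_neg h1, Dt_c h2 h3, Dt_c h2 h3]
  ring

lemma chd_c {c : Fin d} (h1 : c ≠ i) (h2 : c ≠ j) (h3 : c ≠ k) (q n : ℕ) (ω : Ch q n) :
    (chd i j k q n ω : Fin d → ZMod l) c = 0 := by
  induction n with
  | zero => rfl
  | succ n ih =>
    obtain ⟨b, ω⟩ := ω
    rw [chd_succ, Pi.add_apply, db_c hij hik hjk h1 h2 h3, ih, add_zero]

lemma chl_lev (q n : ℕ) (ω : Ch q n) {x : Fin d → ZMod l} {e : Ed d l}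
    (h : e ∈ (chl i j k q n ω x).map Prod.fst) :
    (e.2 = i ∨ e.2 = j ∨ e.2 = k) ∧ (∀ c, c ≠ i → c ≠ j → c ≠ k → e.1 c = x c) ∧
    ∃ s < n * 2 ^ (q + 1), e.1 i = x i + (s : ℕ) := by
  induction n generalizing x with
  | zero => exact absurd h (by simp [chl])
  | succ n ih =>
    obtain ⟨b, ω⟩ := ω
    rw [chl_succ, List.map_append, List.mem_append] at h
    rcases h with h | h
    · obtain ⟨h1, h2, s, h3, h4, h5, -⟩ := bl_Lc hij hik hjk h
      refine ⟨h1, h2, s, ?_, h5⟩
      have : (n + 1) * 2 ^ (q + 1) = n * 2 ^ (q + 1) + 2 ^ (q + 1) := by ring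
      omega
    · obtain ⟨h1, h2, s, h3, h4⟩ := ih ω h
      refine ⟨h1, fun c c1 c2 c3 => ?_, s + 2 ^ (q + 1), ?_, ?_⟩
      · rw [h2 c c1 c2 c3, Pi.add_apply, db_c hij hik hjk c1 c2 c3, add_zero]
      · have : (n + 1) * 2 ^ (q + 1) = n * 2 ^ (q + 1) + 2 ^ (q + 1) := by ring
        omega
      · rw [h4, Pi.add_apply, db_i hij hik hjk]
        push_cast; ring

lemma ND_chl (q n : ℕ) (hq : 3 * 2 ^ q ≤ l) (hn : n * 2 ^ (q + 1) ≤ l) (ω : Ch q n)
    (x : Fin d → ZMod l) : ND (chl i j k q n ω x) := by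
  induction n generalizing x with
  | zero => exact List.nodup_nil
  | succ n ih =>
    obtain ⟨b, ω⟩ := ω
    have hs : (n + 1) * 2 ^ (q + 1) = n * 2 ^ (q + 1) + 2 ^ (q + 1) := by ring
    have h1 := ND_bl hij hik hjk q hq b x
    have h2 := ih (by omega) ω (x + db i j k q b)
    unfold ND at h1 h2 ⊢
    rw [chl_succ, List.map_append]
    refine List.Nodup.append h1 h2 ?_
    intro e he he'
    obtain ⟨-, -, s, h3, h4, h5, -⟩ := bl_Lc hij hik hjk he
    obtain ⟨-, -, s', h6, h7⟩ := chl_lev hij hik hjk q n ω he'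
    rw [Pi.add_apply, db_i hij hik hjk, h5] at h7
    have h8 : ((s : ℕ) : ZMod l) = ((s' + 2 ^ (q + 1) : ℕ) : ZMod l) := by
      push_cast
      have h9 : (s : ZMod l) = ((2 ^ (q + 1) : ℕ) : ZMod l) + (s' : ℕ) := by
        have := add_left_cancel (a := x i) (h7.trans (add_assoc _ _ _))
        exact this
      rw [h9]; push_cast; ring
    have h10 := cast_inj (l := l) (by omega) (by omega) h8
    omega

end chains

section noise

variable {d l N : ℕ} [NeZero l] {i j k : Fin d}
variable (hij : i ≠ j) (hik : i ≠ k) (hjk : j ≠ k)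
include hij hik hjk

open Classical in
lemma Ke_chl (q n : ℕ) (M : Ed d l → Mat N) (x y : Fin d → ZMod l) :
    Ke i j k q n M x y = mM fun ω : Ch q n =>
      if x + chd i j k q n ω = y then pv M (chl i j k q n ω x) else 0 := by
  induction n generalizing x with
  | zero =>
    show (if x = y then (1 : Mat N) else 0) = _
    have h1 : (fun ω : Ch q 0 => if x + chd i j k q 0 ω = y then pv M (chl i j k q 0 ω x)
        else (0 : Mat N)) = fun _ => if x = y then (1 : Mat N) else 0 := by
      funext ω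
      show (if x + 0 = y then pv M [] else 0) = _
      rw [add_zero, pv_nil]
    rw [h1]
    refine mat_ext fun c => ?_
    rw [co_mM, mn_const]
  | succ n ih =>
    have h1 : Ke i j k q (n + 1) M x y = mM fun b : Om q × Om q =>
      pv M (bl i j k q b x) * Ke i j k q n M (x + db i j k q b) y := rfl
    have h2 : (mM fun ω : Ch q (n + 1) =>
        if x + chd i j k q (n + 1) ω = y then pv M (chl i j k q (n + 1) ω x) else (0 : Mat N)) =
        mM fun b : Om q × Om q => mM fun ω : Ch q n =>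
          if x + chd i j k q (n + 1) (b, ω) = y then pv M (chl i j k q (n + 1) (b, ω) x) else 0 :=
      mM_prod (ι := Om q × Om q) (κ := Ch q n) fun ω : (Om q × Om q) × Ch q n =>
        if x + chd i j k q (n + 1) ω = y then pv M (chl i j k q (n + 1) ω x) else (0 : Mat N)
    rw [h1, h2]
    refine mM_congr fun b => ?_
    rw [ih, mul_mM]
    refine mM_congr fun ω => ?_
    rw [chd_succ, chl_succ, pv_append, ← add_assoc, mul_ite, mul_zero]

lemma PH_P {b : ℝ} (hb : 0 < b) (q n : ℕ) (hn : n * 2 ^ (q + 1) ≤ l)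
    (Ba : (Ed d l → Mat N) → St d l N)
    (M : Ed d l → Mat N) {x x' : Fin d → ZMod l} (h : x' i = x i) :
    PH i j k q b Ba (List.replicate n (0, 1)) M x x' = mM fun p : Ch q n × Ch q n =>
      cn b true M (chl i j k q n p.1 x) (chl i j k q n p.2 x')
        (Ba M (x + chd i j k q n p.1) (x' + chd i j k q n p.2)) := by
  induction n generalizing x x' with
  | zero =>
    show Ba M x x' = _
    have h1 : (fun p : Ch q 0 × Ch q 0 => cn b true M (chl i j k q 0 p.1 x)
        (chl i j k q 0 p.2 x') (Ba M (x + chd i j k q 0 p.1) (x' + chd i j k q 0 p.2))) =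
        fun _ => Ba M x x' := by
      funext p
      show cn b true M [] [] (Ba M (x + 0) (x' + 0)) = _
      rw [add_zero, add_zero, cn_true]
      simp only [pv_nil, one_mul, conjTranspose_one, mul_one]
      exact GM_const hb _
    rw [h1]
    refine mat_ext fun c => ?_
    rw [co_mM, mn_const]
  | succ n ih =>
    have hs : (n + 1) * 2 ^ (q + 1) = n * 2 ^ (q + 1) + 2 ^ (q + 1) := by ring
    have hn' : n * 2 ^ (q + 1) ≤ l := by
      rw [hs] at hn
      exact (Nat.le_add_right _ _).trans hn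
    have h1 : PH i j k q b Ba (List.replicate (n + 1) (0, 1)) M x x' =
        TO i j k q b true M (PH i j k q b Ba (List.replicate n (0, 1)) M) x x' := by
      show (0 : ℝ) • _ + (1 : ℝ) • _ = _
      rw [zero_smul, one_smul, zero_add]
    have h2 : (mM fun p : Ch q (n + 1) × Ch q (n + 1) =>
      cn b true M (chl i j k q (n + 1) p.1 x) (chl i j k q (n + 1) p.2 x')
        (Ba M (x + chd i j k q (n + 1) p.1) (x' + chd i j k q (n + 1) p.2))) =
        mM fun p : (Om q × Om q) × (Om q × Om q) => mM fun r : Ch q n × Ch q n =>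
          cn b true M (chl i j k q (n + 1) (p.1, r.1) x) (chl i j k q (n + 1) (p.2, r.2) x')
        (Ba M (x + chd i j k q (n + 1) (p.1, r.1)) (x' + chd i j k q (n + 1) (p.2, r.2))) := by
      rw [← mM_prod (ι := (Om q × Om q) × (Om q × Om q)) (κ := Ch q n × Ch q n) fun u =>
        cn b true M (chl i j k q (n + 1) (u.1.1, u.2.1) x)
          (chl i j k q (n + 1) (u.1.2, u.2.2) x')
        (Ba M (x + chd i j k q (n + 1) (u.1.1, u.2.1)) (x' + chd i j k q (n + 1) (u.1.2, u.2.2)))]
      exact (mM_equiv (Equiv.prodProdProdComm (Om q × Om q) (Om q × Om q) (Ch q n) (Ch q n))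
        fun p : ((Om q × Om q) × Ch q n) × ((Om q × Om q) × Ch q n) =>
          cn b true M (chl i j k q (n + 1) p.1 x) (chl i j k q (n + 1) p.2 x')
        (Ba M (x + chd i j k q (n + 1) p.1) (x' + chd i j k q (n + 1) p.2))).symm
    rw [h1, h2]
    unfold TO
    refine mM_congr fun p => ?_
    rw [ih hn' (by rw [Pi.add_apply, Pi.add_apply, h, db_i hij hik hjk,
      db_i hij hik hjk]), cn_mM hb]
    refine mM_congr fun r => ?_
    rw [chl_succ, chl_succ, chd_succ, chd_succ]
    rw [cn_append hb true M (fun e : Ed d l => ∃ s < 2 ^ (q + 1), e.1 i = x i + (s : ℕ))]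
    · rw [add_assoc, add_assoc]
    · intro t ht
      obtain ⟨-, -, s, -, h4, h5, -⟩ := bl_Lc hij hik hjk (List.mem_map_of_mem ht)
      exact ⟨s, h4, h5⟩
    · intro t ht
      obtain ⟨-, -, s, -, h4, h5, -⟩ := bl_Lc hij hik hjk (List.mem_map_of_mem ht)
      exact ⟨s, h4, by rw [← h]; exact h5⟩
    · rintro t ht ⟨s, h3, h4⟩
      obtain ⟨-, -, s', h6, h7⟩ := chl_lev hij hik hjk q n r.1 (List.mem_map_of_mem ht)
      rw [Pi.add_apply, db_i hij hik hjk, h4] at h7
      have h8 : ((s : ℕ) : ZMod l) = ((s' + 2 ^ (q + 1) : ℕ) : ZMod l) := by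
        have h9 : (s : ZMod l) = ((2 ^ (q + 1) : ℕ) : ZMod l) + (s' : ℕ) :=
          add_left_cancel (a := x i) (h7.trans (add_assoc _ _ _))
        rw [h9]; push_cast; ring
      have h10 := cast_inj (l := l) (by omega) (by omega) h8
      omega
    · rintro t ht ⟨s, h3, h4⟩
      obtain ⟨-, -, s', h6, h7⟩ := chl_lev hij hik hjk q n r.2 (List.mem_map_of_mem ht)
      rw [Pi.add_apply, db_i hij hik hjk, h4, h] at h7
      have h8 : ((s : ℕ) : ZMod l) = ((s' + 2 ^ (q + 1) : ℕ) : ZMod l) := by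
        have h9 : (s : ZMod l) = ((2 ^ (q + 1) : ℕ) : ZMod l) + (s' : ℕ) :=
          add_left_cancel (a := x i) (h7.trans (add_assoc _ _ _))
        rw [h9]; push_cast; ring
      have h10 := cast_inj (l := l) (by omega) (by omega) h8
      omega

end noise

end

end Pool.Agent.Y15
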