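import Mathlib
import Pool.Agent.Y15.Chn

/-!
# The second moments of the chains, with and without noise
-/

open MeasureTheory Matrix
open scoped Matrix.Norms.Frobenius
open Pool.Agent.H906R3.YM hiding Pl
open Pool.Agent.W793.YM Pool.Agent.TH618.YM

namespace Pool.Agent.Y15

set_option linter.unusedSectionVars false
set_option linter.unusedVariables false

noncomputable section

section seg

variable {E : Type*} [Fintype E] [DecidableEq E] {N : ℕ}

lemma norm_add_sq' (A B : Mat N) : ‖A + B‖ ^ 2 = ‖A‖ ^ 2 + (2 * ip A B + ‖B‖ ^ 2) := by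
  rw [← nf_eq, ← nf_eq, ← nf_eq, ip_sum_co, Finset.mul_sum, ← Finset.sum_add_distrib,
    ← Finset.sum_add_distrib]
  refine Finset.sum_congr rfl fun c _ => ?_
  rw [map_add]; ring

/-- one more link with noise -/
lemma noise_one {b : ℝ} (hb : 0 < b) {M : E → Mat N} (hM : Ctr M) {e : E}
    {X : (E × Cx N → ℝ) → Mat N} (hX : EM X) (hXd : Dp (fun i => i.1 ≠ e) X) {c : ℝ}
    (hc : c = (Fintype.card (Cx N) : ℝ) * (1 / (2 * b))) :
    GE b (fun h => ‖X h * (M + mt h) e‖ ^ 2) ≤ (1 + c) * GE b (fun h => ‖X h‖ ^ 2) := by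
  have hH : EM fun h : E × Cx N → ℝ => mt h e := EM.mt e
  have hXM : EM fun h => X h * M e := hX.mul (EM.const _)
  have hXH : EM fun h => X h * mt h e := hX.mul hH
  have e1 : ∀ h, ‖X h * (M + mt h) e‖ ^ 2 = ‖X h * M e‖ ^ 2 +
      (2 * ip (X h * M e) (X h * mt h e) + ‖X h * mt h e‖ ^ 2) := by
    intro h
    rw [Pi.add_apply, mul_add, norm_add_sq']
  have g1 : EG fun h => ip (X h * M e) (X h * mt h e) := by
    simp only [ip_sum_co]
    exact EG.sum _ fun c _ => (hXM c).mul (hXH c)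
  simp only [e1]
  rw [GE_add hb hXM.nsq ((g1.cmul 2).add hXH.nsq), GE_add hb (g1.cmul 2) hXH.nsq, GE_cmul]
  have e2 : GE b (fun h => ip (X h * M e) (X h * mt h e)) = 0 := by
    refine GE_odd (fun i => i.1 = e) fun x => ?_
    have f1 : X (flp (fun i => i.1 = e) x) = X x := hXd _ _ fun i hi => by
      unfold flp
      rw [if_neg hi]
    rw [f1, flip_mt, mul_neg, map_neg]
  have e3 : GE b (fun h => ‖X h * M e‖ ^ 2) ≤ GE b (fun h => ‖X h‖ ^ 2) := by
    refine GE_mono hb hXM.nsq hX.nsq fun h => ?_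
    have f1 := hM.2 e (X h)ᴴ
    rwa [← conjTranspose_mul, norm_ct, norm_ct] at f1
  have e4 : GE b (fun h => ‖X h * mt h e‖ ^ 2) ≤ GE b (fun h => ‖X h‖ ^ 2) * c := by
    have f1 : GE b (fun h : E × Cx N → ℝ => ‖X h‖ ^ 2 * ‖mt h e‖ ^ 2) =
        GE b (fun h => ‖X h‖ ^ 2) * GE b (fun h : E × Cx N → ℝ => ‖mt h e‖ ^ 2) := by
      refine GE_indep (fun i : E × Cx N => i.1 ≠ e) hb (fun h h' hh => ?_) (fun h h' hh => ?_)
      · rw [hXd h h' hh]
      · rw [mt_congr (x := h) (y := h') fun c => hh (e, c) (by simp)]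
    rw [GE_mt hb, ← hc] at f1
    rw [← f1]
    exact GE_mono hb hXH.nsq (hX.nsq.mul hH.nsq) fun h => norm_mul_sq_le _ _
  rw [e2]
  linarith

lemma noise_seg {b : ℝ} (hb : 0 < b) {M : E → Mat N} (hM : Ctr M) {c : ℝ}
    (hc : c = (Fintype.card (Cx N) : ℝ) * (1 / (2 * b))) {v : List (E × Bool)} (hv : ND v)
    (hf : ∀ s ∈ v, s.2 = true) {X : (E × Cx N → ℝ) → Mat N} (hX : EM X)
    (hXd : Dp (fun i => i.1 ∉ v.map Prod.fst) X) :
    GE b (fun h => ‖X h * pv (M + mt h) v‖ ^ 2) ≤
      (1 + c) ^ v.length * GE b (fun h => ‖X h‖ ^ 2) := by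
  have hc0 : 0 ≤ c := by rw [hc]; positivity
  induction v generalizing X with
  | nil => simp [pv_nil]
  | cons s v ih =>
    obtain ⟨h1, h2⟩ := hv.cons
    have hs : s.2 = true := hf s List.mem_cons_self
    have e1 : ∀ h : E × Cx N → ℝ, X h * pv (M + mt h) (s :: v) =
        (X h * (M + mt h) s.1) * pv (M + mt h) v := by
      intro h
      rw [pv_cons, if_pos hs, mul_assoc]
    simp only [e1]
    have hY : EM fun h : E × Cx N → ℝ => X h * (M + mt h) s.1 :=
      hX.mul ((EM.const (M s.1)).add (EM.mt s.1))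
    have hYd : Dp (fun i : E × Cx N => i.1 ∉ v.map Prod.fst)
        fun h : E × Cx N → ℝ => X h * (M + mt h) s.1 := by
      intro h h' hh
      simp only
      have f1 : X h = X h' := hXd h h' fun i hi => hh i fun hi' => hi (by
        rw [List.map_cons]; exact List.mem_cons_of_mem _ hi')
      have f2 : mt h s.1 = mt h' s.1 := mt_congr fun c => hh (s.1, c) fun hi => by
        obtain ⟨t, ht, hts⟩ := List.mem_map.1 hi
        exact h1 t ht hts
      rw [f1, Pi.add_apply, Pi.add_apply, f2]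
    refine (ih h2 (fun t ht => hf t (List.mem_cons_of_mem _ ht)) hY hYd).trans ?_
    have f3 := noise_one hb hM (e := s.1) hX (fun h h' hh => hXd h h' fun i hi => hh i fun hi' =>
      hi (by rw [List.map_cons, hi']; exact List.mem_cons_self)) hc
    calc (1 + c) ^ v.length * GE b (fun h => ‖X h * (M + mt h) s.1‖ ^ 2) ≤
        (1 + c) ^ v.length * ((1 + c) * GE b (fun h => ‖X h‖ ^ 2)) :=
          mul_le_mul_of_nonneg_left f3 (by positivity)
      _ = _ := by rw [List.length_cons, pow_succ]; ring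

end seg

section fam

variable {d l N : ℕ} [NeZero l] (i j k : Fin d)

/-- the chains with given ends -/
def CI (q n : ℕ) (x y : Fin d → ZMod l) : Type := {ω : Ch q n // x + chd i j k q n ω = y}

open Classical in
instance instCI (q n : ℕ) (x y : Fin d → ZMod l) : Fintype (CI i j k q n x y) :=
  (inferInstance : Fintype {ω : Ch q n // x + chd i j k q n ω = y})

/-- the lists of the state -/
def wS (q n r : ℕ) (o y : Fin d → ZMod l) (ω : CI i j k q n o y) : List (Ed d l × Bool) :=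
  chl i j k q n ω.1 o ++ sg i r y

variable {i j k} (hij : i ≠ j) (hik : i ≠ k) (hjk : j ≠ k)
include hij hik hjk

lemma FF_CI (q n : ℕ) (M : Ed d l → Mat N) (x y : Fin d → ZMod l) :
    FF (fun _ : CI i j k q n x y => (Fintype.card (Ch q n) : ℝ)⁻¹)
      (fun ω => chl i j k q n ω.1 x) M = Ke i j k q n M x y := by
  classical
  rw [Ke_chl hij hik hjk]
  unfold FF mM
  rw [← Finset.smul_sum, ← Finset.sum_filter]
  congr 1
  exact (Finset.sum_subtype (Finset.univ.filter fun ω : Ch q n => x + chd i j k q n ω = y)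
    (fun ω => by simp) fun ω => pv M (chl i j k q n ω x)).symm

lemma GE_Ke {b : ℝ} (hb : 0 < b) (q n : ℕ) (hn : n * 2 ^ (q + 1) ≤ l) (M : Ed d l → Mat N)
    (z : Fin d → ZMod l) :
    ip 1 (PH i j k q b (pin i z) (List.replicate n (0, 1)) M (pt i z 0) (pt i z 0)) =
      GE b (fun h => ‖Ke i j k q n (M + mt h) (pt i z 0)
        (pt i z ((n * 2 ^ (q + 1) : ℕ) : ZMod l))‖ ^ 2) := by
  classical
  obtain ⟨o, ho⟩ : ∃ o : Fin d → ZMod l, o = pt i z 0 := ⟨_, rfl⟩
  obtain ⟨y, hy⟩ : ∃ y : Fin d → ZMod l, y = pt i z ((n * 2 ^ (q + 1) : ℕ) : ZMod l) := ⟨_, rfl⟩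
  rw [← ho, ← hy, PH_P hij hik hjk hb q n hn _ M rfl]
  obtain ⟨F, hF⟩ : ∃ F : Ch q n → (Ed d l × Cx N → ℝ) → Mat N, F = fun ω h =>
    if o + chd i j k q n ω = y then pv (M + mt h) (chl i j k q n ω o) else 0 := ⟨_, rfl⟩
  have hFM : ∀ ω, EM (F ω) := by
    intro ω
    rw [hF]
    simp only
    by_cases h : o + chd i j k q n ω = y
    · simp only [if_pos h]; exact EM_pvn M _
    · simp only [if_neg h]; exact EM.const 0
  have hE : ∀ ω : Ch q n, (∀ a, a ≠ i → (o + chd i j k q n ω : Fin d → ZMod l) a = z a) ↔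
      o + chd i j k q n ω = y := by
    intro ω
    constructor
    · intro h
      rw [hy]
      refine eq_pt h ?_
      rw [Pi.add_apply, chd_i hij hik hjk, ho, pt_i, zero_add]
    · intro h a ha
      rw [h, hy, pt_ne ha]
  have e1 : ∀ p : Ch q n × Ch q n, cn b true M (chl i j k q n p.1 o) (chl i j k q n p.2 o)
      (pin i z M (o + chd i j k q n p.1) (o + chd i j k q n p.2)) =
      GM b fun h => F p.1 h * 1 * (F p.2 h)ᴴ := by
    intro p
    unfold pin
    simp only [hE]
    rw [hF]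
    by_cases h1 : o + chd i j k q n p.1 = y
    · by_cases h2 : o + chd i j k q n p.2 = y
      · rw [if_pos ⟨h1, h2⟩, cn_true]
        simp only [if_pos h1, if_pos h2]
      · rw [if_neg fun h => h2 h.2, cn_zero]
        simp only [if_neg h2, conjTranspose_zero, mul_zero]
        exact (GM_const hb 0).symm
    · rw [if_neg fun h => h1 h.1, cn_zero]
      simp only [if_neg h1, zero_mul]
      exact (GM_const hb 0).symm
  have e2 : ∀ h, Ke i j k q n (M + mt h) o y = mM fun ω => F ω h := by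
    intro h
    rw [Ke_chl hij hik hjk, hF]
  have hX : ∀ p : Ch q n × Ch q n, EM fun h => F p.1 h * 1 * (F p.2 h)ᴴ := fun p =>
    ((hFM p.1).mul (EM.const 1)).mul (hFM p.2).ct
  have hXg : ∀ p : Ch q n × Ch q n, EG fun h => ip (F p.1 h * 1 * (F p.2 h)ᴴ) 1 := fun p => by
    simp only [ip_sum_co]
    exact EG.sum _ fun c _ => (hX p c).mul (EG.const _)
  have e3 : ∀ h, ‖Ke i j k q n (M + mt h) o y‖ ^ 2 =
      mn fun p : Ch q n × Ch q n => ip (F p.1 h * 1 * (F p.2 h)ᴴ) 1 := by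
    intro h
    rw [e2, ← ip_one, mM_mul, ip_mM']
    exact congrArg mn (funext fun p => ip_comm _ _)
  simp only [e1, e3]
  rw [ip_mM']
  unfold mn
  rw [GE_cmul, GE_sum hb _ fun p _ => hXg p]
  congr 1
  refine Finset.sum_congr rfl fun p _ => ?_
  show ip 1 (GM b fun h => F p.1 h * 1 * (F p.2 h)ᴴ) = _
  rw [ip_comm, ip_GM hb (hX p)]

end fam

variable {G : Type*} [Group G] [TopologicalSpace G]
  [IsTopologicalGroup G] [CompactSpace G] [SecondCountableTopology G] [MeasurableSpace G]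
  [BorelSpace G] (μ : Measure G) [IsProbabilityMeasure μ] [μ.IsMulLeftInvariant]
  [μ.IsMulRightInvariant] [μ.IsInvInvariant] {N n : ℕ} {L : LD G N n}
  {d m : ℕ} [NeZero m] {i j k : Fin d}
variable (hij : i ≠ j) (hik : i ≠ k) (hjk : j ≠ k)

lemma cg_nil (β : ℝ) (q : ℕ) (b : ℝ) (z : Fin d → ZMod (2 * m))
    (Ba : (Ed d (2 * m) → Mat N) → St d (2 * m) N) (u : List (ℝ × ℝ)) :
    cg μ L i j k β q b (pin i z) [] Ba u =
      EX μ L β fun U : Ed d (2 * m) → G => ip 1 (PH i j k q b Ba u (L.mat U)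
        (pt i z 0) (pt i z 0)) := by
  unfold cg
  refine congrArg (EX μ L β) (funext fun U => ?_)
  have h0 : pt i z (0 : ZMod (2 * m)) ∈ pl i (0 : ZMod (2 * m)) := mem_pl.2 (pt_i z 0)
  rw [Finset.sum_eq_single (pt i z 0), Finset.sum_eq_single (pt i z 0)]
  · have h2 : PH i j k q b (pin i z) [] (thM i (L.mat U)) (pt i z 0) (pt i z 0) =
        (1 : Mat N) := by
      show pin i z _ _ _ = 1
      unfold pin
      rw [if_pos ⟨fun a ha => pt_ne ha z _, fun a ha => pt_ne ha z _⟩]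
    rw [h2]
  · intro x' hx' hne
    have h2 : PH i j k q b (pin i z) [] (thM i (L.mat U)) (pt i z 0) x' = (0 : Mat N) := by
      show pin i z _ _ _ = 0
      unfold pin
      rw [if_neg]
      exact fun h => hne (eq_pt h.2 (mem_pl.1 hx'))
    rw [h2, ip_apply, conjTranspose_zero, zero_mul, trace_zero, Complex.zero_re]
  · intro h; exact absurd h0 h
  · intro x hx hne
    refine Finset.sum_eq_zero fun x' _ => ?_
    have h2 : PH i j k q b (pin i z) [] (thM i (L.mat U)) x x' = (0 : Mat N) := by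
      show pin i z _ _ _ = 0
      unfold pin
      rw [if_neg]
      exact fun h => hne (eq_pt h.1 (mem_pl.1 hx))
    rw [h2, ip_apply, conjTranspose_zero, zero_mul, trace_zero, Complex.zero_re]
  · intro h; exact absurd h0 h

include hij hik hjk

lemma cg_P {β b : ℝ} (hb : 0 < b) (q n : ℕ) (hn : n * 2 ^ (q + 1) ≤ 2 * m)
    (z : Fin d → ZMod (2 * m)) :
    cg μ L i j k β q b (pin i z) [] (pin i z) (List.replicate n (0, 1)) =
      EX μ L β fun U : Ed d (2 * m) → G => GE b fun h => ‖Ke i j k q n (L.mat U + mt h) (pt i z 0)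
        (pt i z ((n * 2 ^ (q + 1) : ℕ) : ZMod (2 * m)))‖ ^ 2 := by
  rw [cg_nil]
  refine congrArg (EX μ L β) (funext fun U => ?_)
  exact GE_Ke hij hik hjk hb q n hn (L.mat U) z

omit hij hik hjk in
lemma norm_mul_rho (A : Mat N) (g : G) : ‖A * L.rho g‖ = ‖A‖ := by
  have h1 := norm_uu (L := L) 1 g⁻¹ A
  rwa [map_one, one_mul, L.rho_inv, conjTranspose_conjTranspose] at h1

/-- **The energy of the chains.** -/
theorem chain_energy (hm : 2 ≤ m) {β : ℝ} (hβ : 0 < β) {τ : Fin d} (hiτ : i ≠ τ) (hjτ : j ≠ τ)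
    (hkτ : k ≠ τ) {q n r : ℕ} (hq : 3 * 2 ^ q ≤ 2 * m) (hn : n * 2 ^ (q + 1) + r ≤ 2 * m)
    {z o y : Fin d → ZMod (2 * m)} (hz : z τ = 1) (ho : o = pt i z 0)
    (hy : y = pt i z ((n * 2 ^ (q + 1) : ℕ) : ZMod (2 * m))) {c0 : ℝ}
    (hc0 : c0 = (Fintype.card (Cx N) : ℝ) * (1 / (2 * (β / 2)))) {Q P : ℝ}
    (hQ : Q = cg μ L i j k β q (β / 2) (pin i z) [] (pin i z) (List.replicate n (1, 0)))
    (hP : cg μ L i j k β q (β / 2) (pin i z) [] (pin i z) (List.replicate n (0, 1)) ≤ P)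
    (hQ0 : 0 < Q) (hP0 : 0 < P) :
    Wc μ L τ o (y + r • eT i) β
      (PS L (fun _ => (Fintype.card (Ch q n) : ℝ)⁻¹) (wS i j k q n r o y)) 0 = Q ∧
    ∀ t ≤ m, (Q / ((1 + c0) ^ r * P)) ^ t * Q ≤
      Wc μ L τ o (y + r • eT i) β
        (PS L (fun _ => (Fintype.card (Ch q n) : ℝ)⁻¹) (wS i j k q n r o y)) t := by
  have hb : 0 < β / 2 := by positivity
  have hc0' : 0 ≤ c0 := by rw [hc0]; positivity
  obtain ⟨a, ha⟩ : ∃ a : CI i j k q n o y → ℝ,
    a = fun _ => (Fintype.card (Ch q n) : ℝ)⁻¹ := ⟨_, rfl⟩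
  have hoi : o i = 0 := by rw [ho, pt_i]
  have hyi : y i = ((n * 2 ^ (q + 1) : ℕ) : ZMod (2 * m)) := by rw [hy, pt_i]
  have hoτ : o τ = 1 := by rw [ho, pt_ne (Ne.symm hiτ), hz]
  have hyτ : y τ = 1 := by rw [hy, pt_ne (Ne.symm hiτ), hz]
  have hw : ∀ ω, isP o (wS i j k q n r o y ω) (y + r • eT i) := by
    intro ω
    have h1 := isP_chl hij hik hjk q n ω.1 o
    have h2 : o + chd i j k q n ω.1 = y := ω.2
    rw [h2] at h1
    unfold wS
    exact isP_append h1 (isP_sg i r y)
  have hl : ∀ ω, lay τ (wS i j k q n r o y ω) := by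
    intro ω s hs
    unfold wS at hs
    rw [List.mem_append] at hs
    rcases hs with hs | hs
    · obtain ⟨h1, h2, -⟩ := chl_lev hij hik hjk q n ω.1 (List.mem_map_of_mem hs)
      refine ⟨?_, ?_⟩
      · rcases h1 with h1 | h1 | h1 <;> rw [h1] <;> assumption
      · rw [h2 τ (Ne.symm hiτ) (Ne.symm hjτ) (Ne.symm hkτ), hoτ]
    · obtain ⟨t, ht, rfl⟩ := mem_sg.1 hs
      refine ⟨hiτ, ?_⟩
      show (y + t • eT i : Fin d → ZMod (2 * m)) τ = 1
      rw [Pi.add_apply, smul_eT, if_neg (Ne.symm hiτ), add_zero, hyτ]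
  have hlev : ∀ ω : CI i j k q n o y, ∀ e : Ed d (2 * m), e ∈ (chl i j k q n ω.1 o).map Prod.fst →
        e ∉ (sg i r y).map Prod.fst := by
    intro ω e he he'
    obtain ⟨-, -, s', h6, h7⟩ := chl_lev hij hik hjk q n ω.1 he
    obtain ⟨t, ht, rfl⟩ := mem_sg' he'
    have h7' : (y + t • eT i : Fin d → ZMod (2 * m)) i = o i + (s' : ℕ) := h7
    have h8 : (y + t • eT i : Fin d → ZMod (2 * m)) i = ((n * 2 ^ (q + 1) + t : ℕ) :
        ZMod (2 * m)) := by
      rw [Pi.add_apply, smul_eT, if_pos rfl, hyi]; push_cast; ring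
    have h9 : ((n * 2 ^ (q + 1) + t : ℕ) : ZMod (2 * m)) = ((s' : ℕ) : ZMod (2 * m)) := by
      rw [← h8, h7', hoi, zero_add]
    have h10 := cast_inj (l := 2 * m) (by omega) (by omega) h9
    omega
  have hnd : ∀ ω, ND (wS i j k q n r o y ω) := by
    intro ω
    have h1 := ND_chl hij hik hjk q n hq (by omega) ω.1 o
    have h2 : ND (sg i r y) := fw_ND (isP_sg i r y) (fw_sg i r y) (by rw [length_sg]; omega)
    unfold wS
    unfold ND at h1 h2 ⊢
    rw [List.map_append]
    exact List.Nodup.append h1 h2 fun e he he' => hlev ω e he he'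
  have hFF : ∀ M : Ed d (2 * m) → Mat N, FF a (wS i j k q n r o y) M =
      Ke i j k q n M o y * pv M (sg i r y) := by
    intro M
    have h1 : FF a (wS i j k q n r o y) M =
        FF a (fun ω => chl i j k q n ω.1 o) M * pv M (sg i r y) := by
      unfold FF
      rw [Finset.sum_mul]
      refine Finset.sum_congr rfl fun ω _ => ?_
      unfold wS
      rw [pv_append, smul_mul_assoc]
    have h2 := FF_CI hij hik hjk q n M o y
    rw [h1, ← h2, ha]
  have hPS : ∀ U : Ed d (2 * m) → G, PS L a (wS i j k q n r o y) U =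
      FF a (wS i j k q n r o y) (L.mat U) := by
    intro U
    unfold PS FF
    refine Finset.sum_congr rfl fun ω _ => ?_
    rw [rho_pg]; rfl
  have h0 : Wc μ L τ o (y + r • eT i) β (PS L a (wS i j k q n r o y)) 0 = Q := by
    rw [hQ, cg_pin μ hij hik hjk, ← ho, ← hy]
    unfold Wc
    refine congrArg (EX μ L β) (funext fun U => ?_)
    rw [Hn_zero, ← norm_sq_ip, hPS, hFF]
    have h1 : pv (L.mat U) (sg i r y) = L.rho (pg U (sg i r y)) := (rho_pg U _).symm
    rw [h1, norm_mul_rho]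
  have hQn : Qn μ L β a (wS i j k q n r o y) ≤ (1 + c0) ^ r * P := by
    refine le_trans ?_ (mul_le_mul_of_nonneg_left hP (by positivity))
    rw [cg_P μ hij hik hjk hb q n (by omega), ← ho, ← hy]
    unfold Qn
    simp only [hFF]
    have hcK : ∀ x' y' : Fin d → ZMod (2 * m), EM fun h : Ed d (2 * m) × Cx N → ℝ =>
        Ke i j k q n (mt h) x' y' := by
      intro x' y'
      have h2 : (fun h : Ed d (2 * m) × Cx N → ℝ => Ke i j k q n (mt h) x' y') = fun h =>
          FF (fun _ : CI i j k q n x' y' => (Fintype.card (Ch q n) : ℝ)⁻¹)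
            (fun ω => chl i j k q n ω.1 x') (mt h) := by
        funext h; rw [FF_CI hij hik hjk]
      rw [h2]
      have h3 := EM_FF (a := fun _ : CI i j k q n x' y' => (Fintype.card (Ch q n) : ℝ)⁻¹)
        (l := fun ω => chl i j k q n ω.1 x') (0 : Ed d (2 * m) × Cx N → ℝ) Finset.univ
      simp only [hs_univ, zero_add] at h3
      exact h3
    have hcX : EM fun h : Ed d (2 * m) × Cx N → ℝ => Ke i j k q n (mt h) o y := hcK o y
    have hcY : EM fun h : Ed d (2 * m) × Cx N → ℝ => Ke i j k q n (mt h) o y *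
        pv (mt h) (sg i r y) := hcX.mul (EM.pv (fun e => EM.mt e) _)
    have hmc : Continuous fun U : Ed d (2 * m) → G => xm (L.mat U) :=
      continuous_pi fun i => (co i.2).continuous.comp (mat_cont i.1)
    have hmm : ∀ (U : Ed d (2 * m) → G) (h : Ed d (2 * m) × Cx N → ℝ),
        L.mat U + mt h = mt (xm (L.mat U) + h) := fun U h => by rw [mt_add', mt_xm]
    have c1 : Continuous fun U : Ed d (2 * m) → G => GE (β / 2) fun h =>
        ‖Ke i j k q n (L.mat U + mt h) o y * pv (L.mat U + mt h) (sg i r y)‖ ^ 2 := by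
      simp only [hmm]
      exact GE_cont hb hcY.nsq (X := fun U : Ed d (2 * m) → G => xm (L.mat U)) hmc mat_bd
    have c2 : Continuous fun U : Ed d (2 * m) → G => GE (β / 2) fun h =>
        ‖Ke i j k q n (L.mat U + mt h) o y‖ ^ 2 := by
      simp only [hmm]
      exact GE_cont hb hcX.nsq (X := fun U : Ed d (2 * m) → G => xm (L.mat U)) hmc mat_bd
    rw [← EX_smul]
    refine EX_mono μ c1 (continuous_const.mul c2) fun U => ?_
    have h3 := noise_seg hb (M := L.mat U) (Ctr_mat U) hc0 (v := sg i r y)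
      (fw_ND (isP_sg i r y) (fw_sg i r y) (by rw [length_sg]; omega)) (fw_sg i r y)
      (X := fun h => Ke i j k q n (L.mat U + mt h) o y) (by
        have h4 := EM_FF (a := fun _ : CI i j k q n o y => (Fintype.card (Ch q n) : ℝ)⁻¹)
          (l := fun ω => chl i j k q n ω.1 o) (xm (L.mat U)) Finset.univ
        simp only [hs_univ, ← hmm, FF_CI hij hik hjk] at h4
        exact h4) (by
        intro h h' hh
        simp only
        rw [← FF_CI hij hik hjk, ← FF_CI hij hik hjk]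
        unfold FF
        refine Finset.sum_congr rfl fun ω _ => ?_
        congr 1
        refine pv_congr fun s hs => ?_
        rw [Pi.add_apply, Pi.add_apply]
        congr 1
        refine mt_congr fun c => hh (s.1, c) ?_
        exact hlev ω s.1 (List.mem_map_of_mem hs))
    rwa [length_sg] at h3
  rw [← ha]
  refine ⟨h0, fun t ht => ?_⟩
  have h5 := energy μ (L := L) hm hβ (a := a) hw hl hnd hoτ
    (by rw [Pi.add_apply, smul_eT, if_neg (Ne.symm hiτ), add_zero, hyτ])
    (q := (1 + c0) ^ r * P) (by rw [h0]; exact hQ0) (by positivity) hQn ht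
  rwa [h0] at h5

end

end Pool.Agent.Y15
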