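import Mathlib

/-!
# Growth of symmetric operators on a semi-inner product space
-/

open Filter

namespace Pool.Agent.Y15

noncomputable section

lemma pow_comp {a b C : ℝ} (ha : 0 ≤ a) (hb : 0 ≤ b) (h : ∀ n : ℕ, a ^ n ≤ C * b ^ n) : a ≤ b := by
  by_contra hab
  push Not at hab
  rcases hb.eq_or_lt with h0 | h0
  · have h1 := h 1
    rw [← h0] at h1 hab
    simp at h1
    linarith
  · have h1 : 1 < a / b := by rw [one_lt_div h0]; exact hab
    have h2 := tendsto_pow_atTop_atTop_of_one_lt h1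
    obtain ⟨n, hn⟩ := (h2.eventually_gt_atTop C).exists
    rw [div_pow, lt_div_iff₀ (by positivity)] at hn
    linarith [h n]

section seq

variable {x : ℕ → ℝ} (h0 : ∀ n, 0 ≤ x n) (hx : ∀ n, x (n + 1) ^ 2 ≤ x n * x (n + 2))
include h0 hx

lemma lc_one (n : ℕ) : x 1 * x n ≤ x 0 * x (n + 1) := by
  induction n with
  | zero => rw [zero_add, mul_comm]
  | succ n ih =>
    rcases (h0 (n + 1)).eq_or_lt with h1 | h1
    · rw [← h1, mul_zero]
      exact mul_nonneg (h0 _) (h0 _)
    · have h2 : 0 < x n := by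
        rcases (h0 n).eq_or_lt with h2 | h2
        · have := hx n
          rw [← h2, zero_mul] at this
          nlinarith
        · exact h2
      have h3 := hx n
      have h4 : x 1 * x (n + 1) * x n ≤ x 0 * x (n + 1 + 1) * x n := by
        calc x 1 * x (n + 1) * x n = x 1 * x n * x (n + 1) := by ring
          _ ≤ x 0 * x (n + 1) * x (n + 1) := mul_le_mul_of_nonneg_right ih h1.le
          _ = x 0 * x (n + 1) ^ 2 := by ring
          _ ≤ x 0 * (x n * x (n + 2)) := mul_le_mul_of_nonneg_left h3 (h0 0)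
          _ = _ := by ring
      exact le_of_mul_le_mul_right h4 h2

lemma lc_pow (n : ℕ) : x 1 ^ n * x 0 ≤ x 0 ^ n * x n := by
  induction n with
  | zero => simp
  | succ n ih =>
    calc x 1 ^ (n + 1) * x 0 = x 1 * (x 1 ^ n * x 0) := by ring
      _ ≤ x 1 * (x 0 ^ n * x n) := mul_le_mul_of_nonneg_left ih (h0 1)
      _ = x 0 ^ n * (x 1 * x n) := by ring
      _ ≤ x 0 ^ n * (x 0 * x (n + 1)) :=
          mul_le_mul_of_nonneg_left (lc_one h0 hx n) (pow_nonneg (h0 0) n)
      _ = _ := by ring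

/-- a growth bound gives a bound for the first step -/
lemma lc_bound {K l : ℝ} (hl : 0 ≤ l) (hb : ∀ n, x n ≤ K * l ^ n) : x 1 ≤ l * x 0 := by
  rcases (h0 0).eq_or_lt with h1 | h1
  · have h2 := hx 0
    rw [← h1, zero_mul] at h2
    have h3 : x 1 = 0 := by
      have h4 := h0 1
      have h5 : x (0 + 1) = x 1 := rfl
      rw [h5] at h2
      nlinarith
    rw [h3, ← h1, mul_zero]
  · have h2 : x 1 / x 0 ≤ l := by
      refine pow_comp (C := K / x 0) (div_nonneg (h0 1) h1.le) hl fun n => ?_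
      rw [div_pow, div_le_iff₀ (by positivity)]
      have h3 := lc_pow h0 hx n
      have h4 := hb n
      have h5 : x 1 ^ n ≤ x 0 ^ n * x n / x 0 := by rw [le_div_iff₀ h1]; exact h3
      refine h5.trans ?_
      rw [div_mul_eq_mul_div, div_mul_eq_mul_div]
      refine div_le_div_of_nonneg_right ?_ h1.le
      calc x 0 ^ n * x n ≤ x 0 ^ n * (K * l ^ n) :=
            mul_le_mul_of_nonneg_left h4 (by positivity)
        _ = _ := by ring
    rwa [div_le_iff₀ h1] at h2

end seq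

/-- **Growth.** -/
theorem growth {W : Type*} (c : W → W → ℝ) (T D P : W → W) (p v : W) {d l0 : ℝ}
    (cs : ∀ u w, c u w ^ 2 ≤ c u u * c w w) (pos : ∀ u, 0 ≤ c u u)
    (aT : ∀ u w, c (T u) w = c u (T w)) (aD : ∀ u w, c (D u) w = c u (D w))
    (add : ∀ u w, c (P u) w = c (T u) w + c (D u) w)
    (gT : ∀ u, ∃ K, ∀ n : ℕ, c (T^[n] u) (T^[n] u) ≤ K * c (T^[n] p) (T^[n] p))
    (gD : ∀ u, ∃ K, ∀ n : ℕ, c (D^[n] u) (D^[n] u) ≤ K * (d ^ 2) ^ n)
    (bd : ∃ B, ∀ n : ℕ, c (T^[n] p) (T^[n] p) ≤ B)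
    (hd : 0 ≤ d) (hv : 0 < c v v) (hl0 : 0 < l0)
    (hvT : l0 * c v v ≤ c v (T v)) (η : ℝ) (hη : 0 < η) :
    (∀ n : ℕ, 0 < c (T^[n] p) (T^[n] p)) ∧
    ∃ C : ℝ, 0 < C ∧ ∀ n : ℕ, c (P^[n] p) (P^[n] p) ≤
      C * ((1 + d / l0) * Real.exp η) ^ (2 * n) * c (T^[n] p) (T^[n] p) := by
  obtain ⟨nr, hnr⟩ : ∃ nr : W → ℝ, nr = fun u => Real.sqrt (c u u) := ⟨_, rfl⟩
  have nr0 : ∀ u, 0 ≤ nr u := fun u => by rw [hnr]; exact Real.sqrt_nonneg _
  have nrs : ∀ u, nr u ^ 2 = c u u := fun u => by rw [hnr]; exact Real.sq_sqrt (pos u)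
  have csn : ∀ u w, c u w ≤ nr u * nr w := by
    intro u w
    have h1 := cs u w
    rw [← nrs u, ← nrs w, ← mul_pow] at h1
    exact (abs_le_of_sq_le_sq' h1 (mul_nonneg (nr0 u) (nr0 w))).2
  -- logarithmic convexity
  have lcv : ∀ (A : W → W), (∀ u w, c (A u) w = c u (A w)) → ∀ u (n : ℕ),
      nr (A^[n + 1] u) ^ 2 ≤ nr (A^[n] u) * nr (A^[n + 2] u) := by
    intro A hA u n
    have e1 : A^[n + 1] u = A (A^[n] u) := Function.iterate_succ_apply' A n u
    have e2 : A^[n + 2] u = A (A^[n + 1] u) := Function.iterate_succ_apply' A (n + 1) u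
    rw [nrs]
    have h1 : c (A^[n + 1] u) (A^[n + 1] u) = c (A^[n] u) (A^[n + 2] u) := by
      conv_lhs => rw [e1]
      rw [hA, ← e1, ← e2]
    rw [h1]
    exact csn _ _
  -- the noise
  have hD : ∀ u, nr (D u) ≤ d * nr u := by
    intro u
    obtain ⟨K, hK⟩ := gD u
    refine lc_bound (x := fun n => nr (D^[n] u)) (fun n => nr0 _) (lcv D aD u)
      (K := Real.sqrt K) hd fun n => ?_
    have h1 := hK n
    show nr (D^[n] u) ≤ Real.sqrt K * d ^ n
    rw [hnr]
    show Real.sqrt (c (D^[n] u) (D^[n] u)) ≤ _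
    have h2 : Real.sqrt (K * (d ^ 2) ^ n) = Real.sqrt K * d ^ n := by
      rw [← pow_mul, mul_comm 2 n, pow_mul, Real.sqrt_mul' _ (sq_nonneg _),
        Real.sqrt_sq (pow_nonneg hd n)]
    rw [← h2]
    exact Real.sqrt_le_sqrt h1
  -- the pinned vector
  obtain ⟨a, ha⟩ : ∃ a : ℕ → ℝ, a = fun n => nr (T^[n] p) := ⟨_, rfl⟩
  have a0 : ∀ n, 0 ≤ a n := fun n => by rw [ha]; exact nr0 _
  have alc : ∀ n, a (n + 1) ^ 2 ≤ a n * a (n + 2) := fun n => by rw [ha]; exact lcv T aT p n
  have hTn : ∀ u, ∃ K, 0 ≤ K ∧ ∀ n, nr (T^[n] u) ≤ K * a n := by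
    intro u
    obtain ⟨K, hK⟩ := gT u
    refine ⟨Real.sqrt K, Real.sqrt_nonneg _, fun n => ?_⟩
    rw [ha, hnr]
    show Real.sqrt (c (T^[n] u) (T^[n] u)) ≤ Real.sqrt K * Real.sqrt (c (T^[n] p) (T^[n] p))
    rw [← Real.sqrt_mul' _ (pos _)]
    exact Real.sqrt_le_sqrt (hK n)
  -- positivity
  have hv0 : 0 < nr v := by rw [hnr]; exact Real.sqrt_pos.2 hv
  have hv1 : l0 * nr v ≤ nr (T v) := by
    have h1 := hvT.trans (csn v (T v))
    rw [← nrs v] at h1
    have h2 : nr v * (l0 * nr v) ≤ nr v * nr (T v) := by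
      calc nr v * (l0 * nr v) = l0 * nr v ^ 2 := by ring
        _ ≤ _ := h1
    exact le_of_mul_le_mul_left h2 hv0
  have hvn : ∀ n : ℕ, 0 < nr (T^[n] v) := by
    intro n
    have h1 := lc_pow (x := fun n => nr (T^[n] v)) (fun n => nr0 _) (lcv T aT v) n
    have h2 : (l0 * nr v) ^ n ≤ nr (T^[1] v) ^ n := by
      refine pow_le_pow_left₀ (by positivity) ?_ n
      exact hv1
    have h3 : 0 < nr (T^[0] v) ^ n * nr (T^[n] v) := by
      refine lt_of_lt_of_le ?_ h1
      exact mul_pos (lt_of_lt_of_le (by positivity) h2) hv0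
    exact pos_of_mul_pos_right h3 (by positivity)
  have apos : ∀ n, 0 < a n := by
    intro n
    obtain ⟨K, hK0, hK⟩ := hTn v
    rcases (a0 n).eq_or_lt with h | h
    · have h1 := hK n
      rw [← h, mul_zero] at h1
      linarith [hvn n]
    · exact h
  -- the ratios
  obtain ⟨r, hr⟩ : ∃ r : ℕ → ℝ, r = fun n => a (n + 1) / a n := ⟨_, rfl⟩
  have r0 : ∀ n, 0 < r n := fun n => by rw [hr]; exact div_pos (apos _) (apos _)
  have rm : Monotone r := by
    refine monotone_nat_of_le_succ fun n => ?_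
    rw [hr]
    show a (n + 1) / a n ≤ a (n + 1 + 1) / a (n + 1)
    rw [div_le_div_iff₀ (apos _) (apos _)]
    have := alc n
    nlinarith
  have r1 : ∀ n, r n ≤ 1 := by
    intro n
    obtain ⟨B, hB⟩ := bd
    have h1 := lc_bound (x := fun k => a (n + k)) (fun k => a0 _) (fun k => alc (n + k))
      (K := Real.sqrt B) (l := 1) zero_le_one fun k => by
        rw [one_pow, mul_one, ha, hnr]
        exact Real.sqrt_le_sqrt (hB _)
    rw [hr]
    show a (n + 1) / a n ≤ 1
    rw [div_le_one (apos n)]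
    rw [one_mul] at h1
    exact h1
  obtain ⟨lam, hlam⟩ : ∃ lam, lam = ⨆ n, r n := ⟨_, rfl⟩
  have bdd : BddAbove (Set.range r) := ⟨1, by rintro _ ⟨n, rfl⟩; exact r1 n⟩
  have rle : ∀ n, r n ≤ lam := fun n => by rw [hlam]; exact le_ciSup bdd n
  have lam1 : lam ≤ 1 := by rw [hlam]; exact ciSup_le r1
  have lam0 : 0 < lam := (r0 0).trans_le (rle 0)
  have ale : ∀ n, a n ≤ a 0 * lam ^ n := by
    intro n
    induction n with
    | zero => simp
    | succ n ih =>
      have h1 := rle n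
      rw [hr] at h1
      have h2 : a (n + 1) ≤ lam * a n := by
        rwa [div_le_iff₀ (apos n)] at h1
      calc a (n + 1) ≤ lam * a n := h2
        _ ≤ lam * (a 0 * lam ^ n) := mul_le_mul_of_nonneg_left ih lam0.le
        _ = _ := by ring
  have hT : ∀ u, nr (T u) ≤ lam * nr u := by
    intro u
    obtain ⟨K, hK0, hK⟩ := hTn u
    refine lc_bound (x := fun n => nr (T^[n] u)) (fun n => nr0 _) (lcv T aT u)
      (K := K * a 0) lam0.le fun n => ?_
    calc nr (T^[n] u) ≤ K * a n := hK n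
      _ ≤ K * (a 0 * lam ^ n) := mul_le_mul_of_nonneg_left (ale n) hK0
      _ = _ := by ring
  have hl : l0 ≤ lam := by
    have h1 := hv1.trans (hT v)
    exact le_of_mul_le_mul_right h1 hv0
  have hP1 : ∀ u, nr (P u) ≤ (lam + d) * nr u := by
    intro u
    have h1 : nr (P u) * nr (P u) ≤ (nr (T u) + nr (D u)) * nr (P u) := by
      rw [← pow_two, nrs, add, add_mul]
      exact add_le_add (csn _ _) (csn _ _)
    have h2 : nr (P u) ≤ nr (T u) + nr (D u) := by
      rcases (nr0 (P u)).eq_or_lt with h | h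
      · rw [← h]; exact add_nonneg (nr0 _) (nr0 _)
      · exact le_of_mul_le_mul_right h1 h
    have h3 := hT u
    have h4 := hD u
    linarith
  have hPn : ∀ n : ℕ, nr (P^[n] p) ≤ (lam + d) ^ n * a 0 := by
    intro n
    induction n with
    | zero => simp [ha]
    | succ n ih =>
      rw [Function.iterate_succ_apply']
      calc nr (P (P^[n] p)) ≤ (lam + d) * nr (P^[n] p) := hP1 _
        _ ≤ (lam + d) * ((lam + d) ^ n * a 0) := mul_le_mul_of_nonneg_left ih (by linarith)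
        _ = _ := by ring
  -- the lower bound
  obtain ⟨s, hs⟩ : ∃ s, s = lam * Real.exp (-η) := ⟨_, rfl⟩
  have hs0 : 0 < s := by rw [hs]; positivity
  have hsl : s < lam := by
    rw [hs]
    have : Real.exp (-η) < 1 := by rw [Real.exp_lt_one_iff]; linarith
    nlinarith
  have hs1 : s ≤ 1 := hsl.le.trans lam1
  obtain ⟨n1, hn1⟩ : ∃ n1, s < r n1 := by
    rw [hlam] at hsl
    exact exists_lt_of_lt_ciSup hsl
  have hlow : ∀ n, a n1 * s ^ n ≤ a n := by
    intro n
    rcases le_or_gt n n1 with h | h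
    · have h1 : Antitone a := by
        refine antitone_nat_of_succ_le fun n => ?_
        have h2 := r1 n
        rw [hr] at h2
        rwa [div_le_one (apos n)] at h2
      calc a n1 * s ^ n ≤ a n1 * 1 :=
            mul_le_mul_of_nonneg_left (pow_le_one₀ hs0.le hs1) (a0 _)
        _ = a n1 := mul_one _
        _ ≤ a n := h1 h
    · obtain ⟨t, rfl⟩ : ∃ t, n = n1 + t := ⟨n - n1, by omega⟩
      have h1 : ∀ t : ℕ, a n1 * s ^ t ≤ a (n1 + t) := by
        intro t
        induction t with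
        | zero => simp
        | succ t ih =>
          have h2 : s ≤ r (n1 + t) := hn1.le.trans (rm (by omega))
          rw [hr] at h2
          have h3 : s * a (n1 + t) ≤ a (n1 + t + 1) := by
            rwa [le_div_iff₀ (apos _)] at h2
          calc a n1 * s ^ (t + 1) = s * (a n1 * s ^ t) := by ring
            _ ≤ s * a (n1 + t) := mul_le_mul_of_nonneg_left ih hs0.le
            _ ≤ _ := h3
      refine le_trans ?_ (h1 t)
      refine mul_le_mul_of_nonneg_left ?_ (a0 _)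
      rw [pow_add]
      exact mul_le_of_le_one_left (by positivity) (pow_le_one₀ hs0.le hs1)
  refine ⟨fun n => by
    have h1 := apos n
    rw [ha] at h1
    rw [← nrs]
    exact pow_pos h1 2, (a 0 / a n1) ^ 2, by have := apos 0; have := apos n1; positivity,
    fun n => ?_⟩
  rw [← nrs, ← nrs]
  have h1 : nr (P^[n] p) ≤ (a 0 / a n1) * ((1 + d / l0) * Real.exp η) ^ n * nr (T^[n] p) := by
    have h2 : (lam + d) ≤ ((1 + d / l0) * Real.exp η) * s := by
      rw [hs]
      have h3 : (1 + d / l0) * Real.exp η * (lam * Real.exp (-η)) =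
          (1 + d / l0) * lam * (Real.exp η * Real.exp (-η)) := by ring
      rw [h3, ← Real.exp_add, add_neg_cancel, Real.exp_zero, mul_one, add_mul, one_mul]
      refine add_le_add_right ?_ _
      rw [div_mul_eq_mul_div, le_div_iff₀ hl0]
      exact mul_le_mul_of_nonneg_left hl hd
    have h3 : nr (T^[n] p) = a n := by rw [ha]
    have h4 := apos n1
    rw [h3]
    calc nr (P^[n] p) ≤ (lam + d) ^ n * a 0 := hPn n
      _ ≤ (((1 + d / l0) * Real.exp η) * s) ^ n * a 0 :=
          mul_le_mul_of_nonneg_right (pow_le_pow_left₀ (by linarith) h2 n) (a0 0)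
      _ = (a 0 / a n1) * ((1 + d / l0) * Real.exp η) ^ n * (a n1 * s ^ n) := by
          rw [mul_pow]; field_simp
      _ ≤ _ := mul_le_mul_of_nonneg_left (hlow n) (by
          have := apos 0
          have h5 : 0 ≤ d / l0 := div_nonneg hd hl0.le
          positivity)
  have h2 := pow_le_pow_left₀ (nr0 _) h1 2
  refine h2.trans (le_of_eq ?_)
  rw [mul_pow, mul_pow, ← pow_mul, mul_comm n 2]

end

end Pool.Agent.Y15
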