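import Mathlib
import Pool.Agent.Y15.Ker
import Pool.Agent.Y15.Close

/-!
# The blocks are close to straight lines
-/

open MeasureTheory Matrix
open scoped Matrix.Norms.Frobenius
open Pool.Agent.H906R3.YM hiding Pl
open Pool.Agent.W793.YM Pool.Agent.TH618.YM

namespace Pool.Agent.Y15

set_option linter.unusedSectionVars false
set_option linter.unusedVariables false

noncomputable section

section nat

/-- the displacements as numbers -/
def Da : ∀ q, Om q → ℕ
  | 0, _ => 0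
  | t + 1, (ω, _, a, _) => Da t ω + a

def Db : ∀ q, Om q → ℕ
  | 0, _ => 0
  | t + 1, (ω, _, _, b) => Db t ω + b

lemma Da_lt (q : ℕ) (ω : Om q) : Da q ω < 2 ^ q := by
  induction q with
  | zero => simp [Da]
  | succ t ih =>
    obtain ⟨ω, r, a, b⟩ := ω
    have h1 := ih ω
    have h2 := a.2
    show Da t ω + a < 2 ^ (t + 1)
    rw [pow_succ]; omega

lemma Db_lt (q : ℕ) (ω : Om q) : Db q ω < 2 ^ q := by
  induction q with
  | zero => simp [Db]
  | succ t ih =>
    obtain ⟨ω, r, a, b⟩ := ω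
    have h1 := ih ω
    have h2 := b.2
    show Db t ω + b < 2 ^ (t + 1)
    rw [pow_succ]; omega

lemma Dt_nat {d l : ℕ} (j k : Fin d) (q : ℕ) (ω : Om q) :
    (Dt j k q ω : Fin d → ZMod l) = Da q ω • eT j + Db q ω • eT k := by
  induction q with
  | zero => simp [Dt, Da, Db]
  | succ t ih =>
    obtain ⟨ω, r, a, b⟩ := ω
    show Dt j k t ω + (a : ℕ) • eT j + (b : ℕ) • eT k =
      (Da t ω + a) • eT j + (Db t ω + b) • eT k
    rw [ih, add_smul, add_smul]; abel

end nat

section lists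

variable {d l : ℕ}

lemma mr_sg_ne {i a : Fin d} (h : a ≠ i) (c : ZMod l) (s : ℕ) (x : Fin d → ZMod l) :
    mr i c (sg a s x) = sg a s (rf i c x) := by
  induction s generalizing x with
  | zero => rfl
  | succ s ih =>
    have h1 : sg a (s + 1) x = ((x, a), true) :: sg a s (x + eT a) := rfl
    have h2 : sg a (s + 1) (rf i c x) = ((rf i c x, a), true) :: sg a s (rf i c x + eT a) := rfl
    have h3 : rf i c (x + eT a) = rf i c x + eT a := by
      have h4 := rf_add i c x (eT a)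
      rwa [eT_ne (Ne.symm h), add_zero] at h4
    rw [h1, h2]
    show ml i c ((x, a), true) :: mr i c (sg a s (x + eT a)) = _
    rw [ih, h3]
    unfold ml
    rw [if_neg h]

lemma rf_add_i (i : Fin d) (c : ZMod l) (x : Fin d → ZMod l) :
    rf i c (x + eT i) = rf i c x - eT i := by
  funext e
  by_cases he : e = i
  · subst he
    rw [rf_same, Pi.sub_apply, rf_same, Pi.add_apply, eT_same]; ring
  · rw [rf_ne he, Pi.sub_apply, rf_ne he, Pi.add_apply, eT_ne he]; ring

lemma mr_sg_i (i : Fin d) (c : ZMod l) (s : ℕ) (x : Fin d → ZMod l) :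
    mr i c (sg i s x) = rev (sg i s (rf i c x - s • eT i)) := by
  induction s generalizing x with
  | zero => rfl
  | succ s ih =>
    have h1 : sg i (s + 1) x = ((x, i), true) :: sg i s (x + eT i) := rfl
    rw [h1]
    show ml i c ((x, i), true) :: mr i c (sg i s (x + eT i)) = _
    rw [ih, rf_add_i, sg_snoc, rev_append']
    have e1 : rf i c x - eT i - s • (eT i : Fin d → ZMod l) = rf i c x - (s + 1) • eT i := by
      rw [add_smul, one_smul]; abel
    have e2 : rf i c x - (s + 1) • (eT i : Fin d → ZMod l) + s • eT i = rf i c x - eT i := by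
      rw [add_smul, one_smul]; abel
    rw [e1, e2]
    unfold ml
    rw [if_pos rfl, rf_add_i]
    rfl

/-- the standard path -/
def Kl (i j k : Fin d) (z : Fin d → ZMod l) (c a b : ℕ) : List (Ed d l × Bool) :=
  sg i c z ++ (sg j a (z + c • eT i) ++ sg k b (z + c • eT i + a • eT j))

end lists

variable {G : Type*} [Group G] [TopologicalSpace G]
  [IsTopologicalGroup G] [CompactSpace G] [SecondCountableTopology G] [MeasurableSpace G]
  [BorelSpace G] (μ : Measure G) [IsProbabilityMeasure μ] [μ.IsMulLeftInvariant]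
  [μ.IsMulRightInvariant] [μ.IsInvInvariant] {N n : ℕ} {L : LD G N n}
  {d m : ℕ} [NeZero m] {β : ℝ}

lemma dd_sh (z : Fin d → ZMod (2 * m)) (w w' : List (Ed d (2 * m) × Bool)) :
    dd μ L β (fun U => pg U (sh z w)) (fun U => pg U (sh z w')) =
      dd μ L β (fun U => pg U w) (fun U => pg U w') := by
  have h1 : ∀ w : List (Ed d (2 * m) × Bool), ∀ U : Ed d (2 * m) → G,
      L.rho (pg U (sh z w)) = L.rho (pg (tr z U) w) := by
    intro w U
    rw [rho_pg, rho_pg]
    exact (pv_trM z (L.mat U) w).symm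
  unfold dd
  simp only [h1]
  exact N2_tr μ β z fun U => L.rho (pg U w) - L.rho (pg U w')

lemma dd_mr0 (hm : 2 ≤ m) (i : Fin d) (w w' : List (Ed d (2 * m) × Bool)) :
    dd μ L β (fun U => pg U (mr i 0 w)) (fun U => pg U (mr i 0 w')) =
      dd μ L β (fun U => pg U w) (fun U => pg U w') := by
  have h1 : ∀ w : List (Ed d (2 * m) × Bool), ∀ U : Ed d (2 * m) → G,
      L.rho (pg U (mr i 0 w)) = L.rho (pg ((SR hm i).tU U) w) := by
    intro w U
    rw [rho_pg, rho_pg]
    have h2 := pv_thM i (L.mat U) w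
    rw [← mat_ref hm] at h2
    exact h2.symm
  unfold dd N2
  simp only [h1]
  congr 1
  exact EX_ref μ hm i β fun U => ‖L.rho (pg U w) - L.rho (pg U w')‖ ^ 2

lemma dd_mr (hm : 2 ≤ m) (i : Fin d) (c : ZMod (2 * m)) (w w' : List (Ed d (2 * m) × Bool)) :
    dd μ L β (fun U => pg U (mr i c w)) (fun U => pg U (mr i c w')) =
      dd μ L β (fun U => pg U w) (fun U => pg U w') := by
  obtain ⟨z, hz⟩ : ∃ z : Fin d → ZMod (2 * m), z = Function.update (0 : Fin d → ZMod (2 * m)) i c := ⟨_, rfl⟩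
  have h1 : ∀ w : List (Ed d (2 * m) × Bool), mr i c w = sh z (mr i 0 (sh (-z) w)) := by
    intro w
    have h2 := mr_sh i 0 z (sh (-z) w)
    rw [sh_sh, neg_add_cancel, sh_zero] at h2
    rw [← h2, zero_add, hz, Function.update_self]
  rw [h1 w, h1 w', dd_sh, dd_mr0 μ hm, dd_sh]

lemma dd_rev (w w' : List (Ed d (2 * m) × Bool)) :
    dd μ L β (fun U => pg U (rev w)) (fun U => pg U (rev w')) =
      dd μ L β (fun U => pg U w) (fun U => pg U w') := by
  simp only [pg_rev]
  exact dd_inv μ _ _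

lemma pg_Kl (U : Ed d (2 * m) → G) (i j k : Fin d) (z : Fin d → ZMod (2 * m)) (c a b : ℕ) :
    pg U (Kl i j k z c a b) = ln U i c z * (ln U j a (z + c • eT i) *
      ln U k b (z + c • eT i + a • eT j)) := by
  unfold Kl
  rw [pg_append, pg_append, pg_sg, pg_sg, pg_sg]

variable {i j k : Fin d}

/-- bound of the rectangles -/
def RB (L : LD G N n) (m : ℕ) [NeZero m] (β : ℝ) (i j k : Fin d) (K : ℕ) (B : ℝ) : Prop :=
  ∀ a b : ℕ, a ≤ K → b ≤ K → uu μ L m β k i a b ≤ B ∧ uu μ L m β j i a b ≤ B ∧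
    uu μ L m β k j a b ≤ B

lemma FK (z : Fin d → ZMod (2 * m)) (c a b s : ℕ) (U : Ed d (2 * m) → G) :
    pg U (Kl i j k z c a b) * ln U k s (z + c • eT i + a • eT j + b • eT k) =
      pg U (Kl i j k z c a (b + s)) := by
  rw [pg_Kl, pg_Kl, ln_add]
  simp only [mul_assoc]

lemma FJ (hN : 1 ≤ N) {K : ℕ} {B : ℝ} (hB : RB μ L m β i j k K B) (z : Fin d → ZMod (2 * m))
    {c a b s : ℕ} (hb : b ≤ K) (hs : s ≤ K) :
    dd μ L β (fun U => pg U (Kl i j k z c a b) *
      ln U j s (z + c • eT i + a • eT j + b • eT k)) (fun U => pg U (Kl i j k z c (a + s) b)) ≤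
        B := by
  obtain ⟨z1, hz1⟩ : ∃ z1 : Fin d → ZMod (2 * m), z1 = z + c • eT i + a • eT j := ⟨_, rfl⟩
  have h1 := dd_rect μ (L := L) (β := β) hN z1 k j b s
  have e1 : ∀ U : Ed d (2 * m) → G, pg U (Kl i j k z c a b) *
      ln U j s (z + c • eT i + a • eT j + b • eT k) =
      (ln U i c z * ln U j a (z + c • eT i)) * (ln U k b z1 * ln U j s (z1 + b • eT k)) := by
    intro U
    rw [pg_Kl, hz1]
    simp only [mul_assoc]
  have e2 : ∀ U : Ed d (2 * m) → G, pg U (Kl i j k z c (a + s) b) =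
      (ln U i c z * ln U j a (z + c • eT i)) * (ln U j s z1 * ln U k b (z1 + s • eT j)) := by
    intro U
    rw [pg_Kl, hz1, ln_add]
    have f1 : z + c • eT i + (a + s) • eT j = z + c • eT i + a • eT j +
        s • (eT j : Fin d → ZMod (2 * m)) := by rw [add_smul a s]; abel
    rw [f1]
    simp only [mul_assoc]
  rw [dd_congr μ e1 e2, dd_mul_left, h1]
  exact (hB b s hb hs).2.2

lemma ln_c (i : Fin d) (s : ℕ) (x : Fin d → ZMod (2 * m)) :
    Continuous fun U : Ed d (2 * m) → G => ln U i s x := ln_cont i s x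

lemma FI (hN : 1 ≤ N) {K : ℕ} {B : ℝ} (hB : RB μ L m β i j k K B) (z : Fin d → ZMod (2 * m))
    {c a b s : ℕ} (ha : a ≤ K) (hb : b ≤ K) (hs : s ≤ K) :
    dd μ L β (fun U => pg U (Kl i j k z c a b) *
      ln U i s (z + c • eT i + a • eT j + b • eT k)) (fun U => pg U (Kl i j k z (c + s) a b)) ≤
        2 * B := by
  obtain ⟨z2, hz2⟩ : ∃ z2 : Fin d → ZMod (2 * m), z2 = z + c • eT i := ⟨_, rfl⟩
  have h1 := dd_rect μ (L := L) (β := β) hN (z2 + a • eT j) k i b s
  have h2 := dd_rect μ (L := L) (β := β) hN z2 j i a s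
  have e1 : ∀ U : Ed d (2 * m) → G, pg U (Kl i j k z c a b) *
      ln U i s (z + c • eT i + a • eT j + b • eT k) =
      (ln U i c z * ln U j a z2) * (ln U k b (z2 + a • eT j) *
        ln U i s (z2 + a • eT j + b • eT k)) := by
    intro U
    rw [pg_Kl, hz2]
    simp only [mul_assoc]
  have e2 : ∀ U : Ed d (2 * m) → G, (ln U i c z * ln U j a z2) * (ln U i s (z2 + a • eT j) *
        ln U k b (z2 + a • eT j + s • eT i)) =
      ln U i c z * (ln U j a z2 * ln U i s (z2 + a • eT j)) *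
        ln U k b (z2 + a • eT j + s • eT i) := by
    intro U
    simp only [mul_assoc]
  have e3 : ∀ U : Ed d (2 * m) → G, pg U (Kl i j k z (c + s) a b) =
      ln U i c z * (ln U i s z2 * ln U j a (z2 + s • eT i)) *
        ln U k b (z2 + a • eT j + s • eT i) := by
    intro U
    rw [pg_Kl, hz2, ln_add]
    have f1 : z + (c + s) • eT i = z + c • eT i +
        s • (eT i : Fin d → ZMod (2 * m)) := by rw [add_smul c s]; abel
    have f2 : z + c • eT i + s • eT i + a • eT j = z + c • eT i + a • eT j +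
        s • (eT i : Fin d → ZMod (2 * m)) := by abel
    rw [f1, f2]
    simp only [mul_assoc]
  have c1 : Continuous fun U : Ed d (2 * m) → G => (ln U i c z * ln U j a z2) *
      (ln U k b (z2 + a • eT j) * ln U i s (z2 + a • eT j + b • eT k)) :=
    ((ln_c _ _ _).mul (ln_c _ _ _)).mul ((ln_c _ _ _).mul (ln_c _ _ _))
  have c2 : Continuous fun U : Ed d (2 * m) → G => (ln U i c z * ln U j a z2) *
      (ln U i s (z2 + a • eT j) * ln U k b (z2 + a • eT j + s • eT i)) :=
    ((ln_c _ _ _).mul (ln_c _ _ _)).mul ((ln_c _ _ _).mul (ln_c _ _ _))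
  have c3 : Continuous fun U : Ed d (2 * m) → G =>
      ln U i c z * (ln U i s z2 * ln U j a (z2 + s • eT i)) *
        ln U k b (z2 + a • eT j + s • eT i) :=
    ((ln_c _ _ _).mul ((ln_c _ _ _).mul (ln_c _ _ _))).mul (ln_c _ _ _)
  rw [dd_congr μ e1 e3]
  refine (dd_tri μ c1 c2 c3).trans ?_
  rw [dd_mul_left, h1, dd_congr μ e2 (fun U => rfl), dd_mul, h2]
  have h3 := (hB b s hb hs).1
  have h4 := (hB a s ha hs).2.1
  linarith

/-- the half of a block is close to the standard path -/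
theorem half_close (hN : 1 ≤ N) {κ : ℝ} (hκ : 0 ≤ κ) (q : ℕ)
    (hB : ∀ t ≤ q, RB μ L m β i j k (2 ^ t) (κ * Real.sqrt (2 ^ t)))
    (ω : Om q) (x : Fin d → ZMod (2 * m)) :
    dd μ L β (fun U => pg U (Hf i j k q ω x))
      (fun U => pg U (Kl i j k x (2 ^ q) (Da q ω) (Db q ω))) ≤ 18 * κ * Real.sqrt (2 ^ q) := by
  induction q with
  | zero =>
    have h1 : ∀ U : Ed d (2 * m) → G, pg U (Hf i j k 0 ω x) =
        pg U (Kl i j k x (2 ^ 0) (Da 0 ω) (Db 0 ω)) := by
      intro U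
      rw [pg_Kl]
      show pg U (sg i 1 x) = ln U i 1 x * (ln U j 0 _ * ln U k 0 _)
      rw [pg_sg, ln_zero, ln_zero, mul_one, mul_one]
    rw [dd_congr μ h1 (fun U => rfl), dd_self]
    positivity
  | succ t ih =>
    obtain ⟨ω, r, a, b⟩ := ω
    have hr := r.2
    have ha := a.2
    have hb := b.2
    have hA := Da_lt t ω
    have hBt := Db_lt t ω
    have h2t : 2 ^ (t + 1) = 2 ^ t + 2 ^ t := by rw [pow_succ]; ring
    have hR := hB (t + 1) le_rfl
    obtain ⟨B, hBe⟩ : ∃ B, B = κ * Real.sqrt (2 ^ (t + 1)) := ⟨_, rfl⟩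
    rw [← hBe] at hR
    have hih := ih (fun s hs => hB s (by omega)) ω
    obtain ⟨y, hy⟩ : ∃ y : Fin d → ZMod (2 * m), y = x + (2 ^ t) • eT i + Dt j k t ω := ⟨_, rfl⟩
    have hy' : y = x + (2 ^ t) • eT i + Da t ω • eT j + Db t ω • eT k := by
      rw [hy, Dt_nat]; abel
    -- the segments
    obtain ⟨f1, hf1⟩ : ∃ f1 : (Ed d (2 * m) → G) → G, f1 = fun U => ln U i r y := ⟨_, rfl⟩
    obtain ⟨f2, hf2⟩ : ∃ f2 : (Ed d (2 * m) → G) → G, f2 = fun U =>
      ln U j a (y + (r : ℕ) • eT i) := ⟨_, rfl⟩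
    obtain ⟨f3, hf3⟩ : ∃ f3 : (Ed d (2 * m) → G) → G, f3 = fun U =>
      ln U k b (y + (r : ℕ) • eT i + (a : ℕ) • eT j) := ⟨_, rfl⟩
    obtain ⟨f4, hf4⟩ : ∃ f4 : (Ed d (2 * m) → G) → G, f4 = fun U =>
      ln U i (2 ^ t - r) (y + (r : ℕ) • eT i + (a : ℕ) • eT j + (b : ℕ) • eT k) := ⟨_, rfl⟩
    have cf1 : Continuous f1 := by rw [hf1]; exact ln_c _ _ _
    have cf2 : Continuous f2 := by rw [hf2]; exact ln_c _ _ _
    have cf3 : Continuous f3 := by rw [hf3]; exact ln_c _ _ _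
    have cf4 : Continuous f4 := by rw [hf4]; exact ln_c _ _ _
    have e0 : ∀ U : Ed d (2 * m) → G, pg U (Hf i j k (t + 1) (ω, r, a, b) x) =
        pg U (Hf i j k t ω x) * (f1 U * (f2 U * (f3 U * f4 U))) := by
      intro U
      show pg U (Hf i j k t ω x ++ seg i j k t r a b (x + (2 ^ t) • eT i + Dt j k t ω)) = _
      rw [← hy, pg_append]
      unfold seg
      rw [pg_append, pg_append, pg_append, pg_sg, pg_sg, pg_sg, pg_sg, hf1, hf2, hf3, hf4]
    have cp : ∀ w : List (Ed d (2 * m) × Bool), Continuous fun U : Ed d (2 * m) → G => pg U w :=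
      fun w => pg_cont w
    obtain ⟨A, hA'⟩ : ∃ A, A = Da t ω := ⟨_, rfl⟩
    obtain ⟨Bb, hBb⟩ : ∃ Bb, Bb = Db t ω := ⟨_, rfl⟩
    rw [← hA'] at hA hy' hih
    rw [← hBb] at hBt hy' hih
    -- chain of approximations
    have s1 : dd μ L β (fun U => pg U (Hf i j k t ω x) * (f1 U * (f2 U * (f3 U * f4 U))))
        (fun U => pg U (Kl i j k x (2 ^ t) A Bb) * (f1 U * (f2 U * (f3 U * f4 U)))) ≤
        18 * κ * Real.sqrt (2 ^ t) := by
      rw [dd_mul_right]; exact hih
    have s2 : dd μ L β (fun U => pg U (Kl i j k x (2 ^ t) A Bb) * (f1 U * (f2 U * (f3 U * f4 U))))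
        (fun U => pg U (Kl i j k x (2 ^ t + r) A Bb) * (f2 U * (f3 U * f4 U))) ≤ 2 * B := by
      have g1 := FI μ hN hR x (c := 2 ^ t) (a := A) (b := Bb) (s := r) (by omega) (by omega)
        (by omega)
      rw [← hy'] at g1
      have g2 : ∀ U : Ed d (2 * m) → G, pg U (Kl i j k x (2 ^ t) A Bb) *
          (f1 U * (f2 U * (f3 U * f4 U))) = (pg U (Kl i j k x (2 ^ t) A Bb) * ln U i r y) *
            (f2 U * (f3 U * f4 U)) := by
        intro U; rw [hf1]; simp only [mul_assoc]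
      rw [dd_congr μ g2 (fun U => rfl), dd_mul_right]
      exact g1
    have s3 : dd μ L β (fun U => pg U (Kl i j k x (2 ^ t + r) A Bb) * (f2 U * (f3 U * f4 U)))
        (fun U => pg U (Kl i j k x (2 ^ t + r) (A + a) Bb) * (f3 U * f4 U)) ≤ B := by
      have g1 := FJ μ hN hR x (c := 2 ^ t + r) (a := A) (b := Bb) (s := a) (by omega) (by omega)
      have g3 : x + (2 ^ t + (r : ℕ)) • eT i + A • eT j + Bb • eT k =
          y + (r : ℕ) • (eT i : Fin d → ZMod (2 * m)) := by
        rw [hy', add_smul (2 ^ t) (r : ℕ)]; abel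
      rw [g3] at g1
      have g2 : ∀ U : Ed d (2 * m) → G, pg U (Kl i j k x (2 ^ t + r) A Bb) *
          (f2 U * (f3 U * f4 U)) = (pg U (Kl i j k x (2 ^ t + r) A Bb) *
            ln U j a (y + (r : ℕ) • eT i)) * (f3 U * f4 U) := by
        intro U; rw [hf2]; simp only [mul_assoc]
      rw [dd_congr μ g2 (fun U => rfl), dd_mul_right]
      exact g1
    have s4 : ∀ U : Ed d (2 * m) → G, pg U (Kl i j k x (2 ^ t + r) (A + a) Bb) *
        (f3 U * f4 U) = pg U (Kl i j k x (2 ^ t + r) (A + a) (Bb + b)) * f4 U := by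
      intro U
      have g1 := FK (i := i) (j := j) (k := k) x (2 ^ t + r) (A + a) Bb b U
      have g3 : x + (2 ^ t + (r : ℕ)) • eT i + (A + (a : ℕ)) • eT j + Bb • eT k =
          y + (r : ℕ) • eT i + (a : ℕ) • (eT j : Fin d → ZMod (2 * m)) := by
        rw [hy', add_smul (2 ^ t) (r : ℕ), add_smul A (a : ℕ)]; abel
      rw [g3] at g1
      rw [← g1, hf3]
      simp only [mul_assoc]
    have s5 : dd μ L β (fun U => pg U (Kl i j k x (2 ^ t + r) (A + a) (Bb + b)) * f4 U)
        (fun U => pg U (Kl i j k x (2 ^ (t + 1)) (A + a) (Bb + b))) ≤ 2 * B := by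
      have g1 := FI μ hN hR x (c := 2 ^ t + r) (a := A + a) (b := Bb + b) (s := 2 ^ t - r)
        (by omega) (by omega) (by omega)
      have g3 : x + (2 ^ t + (r : ℕ)) • eT i + (A + (a : ℕ)) • eT j + (Bb + (b : ℕ)) • eT k =
          y + (r : ℕ) • eT i + (a : ℕ) • eT j + (b : ℕ) • (eT k : Fin d → ZMod (2 * m)) := by
        rw [hy', add_smul (2 ^ t) (r : ℕ), add_smul A (a : ℕ), add_smul Bb (b : ℕ)]; abel
      have g4 : 2 ^ t + (r : ℕ) + (2 ^ t - (r : ℕ)) = 2 ^ (t + 1) := by omega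
      rw [g3, g4] at g1
      rw [hf4]
      exact g1
    have c1 : Continuous fun U : Ed d (2 * m) → G =>
        pg U (Hf i j k t ω x) * (f1 U * (f2 U * (f3 U * f4 U))) :=
      (cp _).mul (cf1.mul (cf2.mul (cf3.mul cf4)))
    have c2 : Continuous fun U : Ed d (2 * m) → G =>
        pg U (Kl i j k x (2 ^ t) A Bb) * (f1 U * (f2 U * (f3 U * f4 U))) :=
      (cp _).mul (cf1.mul (cf2.mul (cf3.mul cf4)))
    have c3 : Continuous fun U : Ed d (2 * m) → G =>
        pg U (Kl i j k x (2 ^ t + r) A Bb) * (f2 U * (f3 U * f4 U)) :=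
      (cp _).mul (cf2.mul (cf3.mul cf4))
    have c4 : Continuous fun U : Ed d (2 * m) → G =>
        pg U (Kl i j k x (2 ^ t + r) (A + a) (Bb + b)) * f4 U := (cp _).mul cf4
    have c5 := cp (Kl i j k x (2 ^ (t + 1)) (A + a) (Bb + b))
    have s3' : dd μ L β (fun U => pg U (Kl i j k x (2 ^ t + r) A Bb) * (f2 U * (f3 U * f4 U)))
        (fun U => pg U (Kl i j k x (2 ^ t + r) (A + a) (Bb + b)) * f4 U) ≤ B := by
      rw [← dd_congr μ (fun U => rfl) s4]; exact s3
    have key : dd μ L β (fun U => pg U (Hf i j k (t + 1) (ω, r, a, b) x))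
        (fun U => pg U (Kl i j k x (2 ^ (t + 1)) (A + a) (Bb + b))) ≤
        18 * κ * Real.sqrt (2 ^ t) + 5 * B := by
      rw [dd_congr μ e0 (fun U => rfl)]
      have t1 := dd_tri μ (L := L) (β := β) c1 c2 c5
      have t2 := dd_tri μ (L := L) (β := β) c2 c3 c5
      have t3 := dd_tri μ (L := L) (β := β) c3 c4 c5
      linarith
    have e1 : Da (t + 1) (ω, r, a, b) = A + a := by rw [hA']; rfl
    have e2 : Db (t + 1) (ω, r, a, b) = Bb + b := by rw [hBb]; rfl
    rw [e1, e2]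
    refine key.trans ?_
    rw [hBe]
    have e3 : Real.sqrt (2 ^ (t + 1)) = Real.sqrt 2 * Real.sqrt (2 ^ t) := by
      rw [pow_succ, mul_comm, Real.sqrt_mul (by norm_num)]
    rw [e3]
    have e4 : (1.4 : ℝ) ≤ Real.sqrt 2 := by
      rw [show (1.4 : ℝ) = Real.sqrt (1.4 ^ 2) by rw [Real.sqrt_sq (by norm_num)]]
      exact Real.sqrt_le_sqrt (by norm_num)
    have e5 : 0 ≤ κ * Real.sqrt (2 ^ t) := by positivity
    nlinarith

end

end Pool.Agent.Y15
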