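import Mathlib
import Pool.Agent.Y15.Cls

/-!
# The blocks between the points of a box are close to a straight line
-/

open MeasureTheory Matrix
open scoped Matrix.Norms.Frobenius
open Pool.Agent.H906R3.YM hiding Pl
open Pool.Agent.W793.YM Pool.Agent.TH618.YM

namespace Pool.Agent.Y15

set_option linter.unusedSectionVars false
set_option linter.unusedVariables false

noncomputable section

variable {G : Type*} [Group G] [TopologicalSpace G]
  [IsTopologicalGroup G] [CompactSpace G] [SecondCountableTopology G] [MeasurableSpace G]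
  [BorelSpace G] (μ : Measure G) [IsProbabilityMeasure μ] [μ.IsMulLeftInvariant]
  [μ.IsMulRightInvariant] [μ.IsInvInvariant] {N n : ℕ} {L : LD G N n}
  {d m : ℕ} [NeZero m] {β : ℝ} {i j k : Fin d}

lemma rf_fix {l : ℕ} {i : Fin d} {c : ZMod l} {x : Fin d → ZMod l} (h : x i = c) :
    rf i c x = x := by
  funext e
  by_cases he : e = i
  · subst he; rw [rf_same, h]; ring
  · rw [rf_ne he]

lemma mr_Kl {l : ℕ} (hij : i ≠ j) (hik : i ≠ k) {c : ZMod l} {s a b : ℕ} {z v : Fin d → ZMod l}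
    (hv : v = z + s • eT i) (hc : v i = c) :
    mr i c (Kl i j k z s a b) = rev (sg i s v) ++ (sg j a v ++ sg k b (v + a • eT j)) := by
  unfold Kl
  rw [mr_append, mr_append, mr_sg_i, mr_sg_ne (Ne.symm hij), mr_sg_ne (Ne.symm hik), ← hv,
    rf_fix hc]
  have h1 : (v + a • eT j : Fin d → ZMod l) i = c := by
    rw [Pi.add_apply, smul_eT, if_neg hij, add_zero, hc]
  have h2 : rf i c z - s • (eT i : Fin d → ZMod l) = v := by
    funext e
    by_cases he : e = i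
    · subst he
      rw [Pi.sub_apply, rf_same, smul_eT, if_pos rfl]
      have h3 : v e = z e + (s : ZMod l) := by
        rw [hv, Pi.add_apply, smul_eT, if_pos rfl]
      rw [← hc, h3]; ring
    · rw [Pi.sub_apply, rf_ne he, smul_eT, if_neg he, hv, Pi.add_apply, smul_eT, if_neg he]
      ring
  rw [rf_fix h1, h2]

/-- **The blocks are close to straight lines.** -/
theorem block_close (hm : 2 ≤ m) (hN : 1 ≤ N) (hij : i ≠ j) (hik : i ≠ k) (hjk : j ≠ k)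
    {κ : ℝ} (hκ : 0 ≤ κ) (q : ℕ)
    (hB : ∀ t ≤ q + 1, RB μ L m β i j k (2 ^ t) (κ * Real.sqrt (2 ^ t)))
    (b : Om q × Om q) {o x : Fin d → ZMod (2 * m)} {X Z Y W : ℕ}
    (hx : x = o + X • eT j + Z • eT k) (hY : Y + Da q b.2 = X + Da q b.1)
    (hW : W + Db q b.2 = Z + Db q b.1) (hX2 : X < 2 ^ (q + 1)) (hZ2 : Z < 2 ^ (q + 1))
    (hY2 : Y < 2 ^ (q + 1)) (hW2 : W < 2 ^ (q + 1)) :
    dd μ L β (fun U => pg U (Kl i j k o 0 X Z) * pg U (bl i j k q b x) *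
      (pg U (Kl i j k (o + (2 ^ (q + 1)) • eT i) 0 Y W))⁻¹) (fun U => ln U i (2 ^ (q + 1)) o) ≤
      45 * κ * Real.sqrt (2 ^ q) := by
  obtain ⟨B, hBe⟩ : ∃ B, B = κ * Real.sqrt (2 ^ (q + 1)) := ⟨_, rfl⟩
  have hR := hB (q + 1) le_rfl
  rw [← hBe] at hR
  have h2q : 2 ^ (q + 1) = 2 ^ q + 2 ^ q := by rw [pow_succ]; ring
  obtain ⟨a1, ha1⟩ : ∃ a1, a1 = Da q b.1 := ⟨_, rfl⟩
  obtain ⟨b1, hb1⟩ : ∃ b1, b1 = Db q b.1 := ⟨_, rfl⟩
  obtain ⟨a2, ha2⟩ : ∃ a2, a2 = Da q b.2 := ⟨_, rfl⟩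
  obtain ⟨b2, hb2⟩ : ∃ b2, b2 = Db q b.2 := ⟨_, rfl⟩
  have la1 : a1 < 2 ^ q := by rw [ha1]; exact Da_lt q b.1
  have lb1 : b1 < 2 ^ q := by rw [hb1]; exact Db_lt q b.1
  have la2 : a2 < 2 ^ q := by rw [ha2]; exact Da_lt q b.2
  have lb2 : b2 < 2 ^ q := by rw [hb2]; exact Db_lt q b.2
  rw [← ha1, ← ha2] at hY
  rw [← hb1, ← hb2] at hW
  have cp : ∀ w : List (Ed d (2 * m) × Bool), Continuous fun U : Ed d (2 * m) → G => pg U w :=
    fun w => pg_cont w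
  have hD1 : (Dt j k q b.1 : Fin d → ZMod (2 * m)) = a1 • eT j + b1 • eT k := by
    rw [Dt_nat, ← ha1, ← hb1]
  have hD2 : (Dt j k q b.2 : Fin d → ZMod (2 * m)) = a2 • eT j + b2 • eT k := by
    rw [Dt_nat, ← ha2, ← hb2]
  obtain ⟨x2, hx2⟩ : ∃ x2 : Fin d → ZMod (2 * m), x2 = x + Dt j k q b.1 - Dt j k q b.2 := ⟨_, rfl⟩
  obtain ⟨v, hv⟩ : ∃ v : Fin d → ZMod (2 * m), v = x2 + (2 ^ q) • eT i := ⟨_, rfl⟩
  obtain ⟨c, hc⟩ : ∃ c : ZMod (2 * m), c = x i + ((2 ^ q : ℕ) : ZMod (2 * m)) := ⟨_, rfl⟩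
  have hvc : v i = c := by
    rw [hv, Pi.add_apply, smul_eT, if_pos rfl, hx2, Pi.sub_apply, Pi.add_apply, Dt_i hij hik hjk,
      Dt_i hij hik hjk, hc]
    ring
  have hYj : (Y • eT j : Fin d → ZMod (2 * m)) = X • eT j + a1 • eT j - a2 • eT j := by
    have h1 : (Y + a2) • (eT j : Fin d → ZMod (2 * m)) = (X + a1) • eT j := by rw [hY]
    rw [add_smul, add_smul] at h1
    rw [← h1]; abel
  have hWk : (W • eT k : Fin d → ZMod (2 * m)) = Z • eT k + b1 • eT k - b2 • eT k := by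
    have h1 : (W + b2) • (eT k : Fin d → ZMod (2 * m)) = (Z + b1) • eT k := by rw [hW]
    rw [add_smul, add_smul] at h1
    rw [← h1]; abel
  have hvo : v = o + (2 ^ q) • eT i + Y • eT j + W • eT k := by
    rw [hv, hx2, hD1, hD2, hx, hYj, hWk]; abel
  -- the factors
  obtain ⟨C, hC⟩ : ∃ C : (Ed d (2 * m) → G) → G, C = fun U => pg U (Kl i j k o 0 X Z) := ⟨_, rfl⟩
  obtain ⟨D, hD⟩ : ∃ D : (Ed d (2 * m) → G) → G, D = fun U =>
    (pg U (Kl i j k (o + (2 ^ (q + 1)) • eT i) 0 Y W))⁻¹ := ⟨_, rfl⟩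
  obtain ⟨H1, hH1⟩ : ∃ H1 : (Ed d (2 * m) → G) → G, H1 = fun U => pg U (Hf i j k q b.1 x) :=
    ⟨_, rfl⟩
  obtain ⟨H2, hH2⟩ : ∃ H2 : (Ed d (2 * m) → G) → G, H2 = fun U =>
    pg U (rev (mr i c (Hf i j k q b.2 x2))) := ⟨_, rfl⟩
  obtain ⟨K1, hK1⟩ : ∃ K1 : (Ed d (2 * m) → G) → G, K1 = fun U =>
    pg U (Kl i j k x (2 ^ q) a1 b1) := ⟨_, rfl⟩
  obtain ⟨K2, hK2⟩ : ∃ K2 : (Ed d (2 * m) → G) → G, K2 = fun U =>
    pg U (rev (mr i c (Kl i j k x2 (2 ^ q) a2 b2))) := ⟨_, rfl⟩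
  have cC : Continuous C := by rw [hC]; exact cp _
  have cD : Continuous D := by rw [hD]; exact (cp _).inv
  have cH1 : Continuous H1 := by rw [hH1]; exact cp _
  have cH2 : Continuous H2 := by rw [hH2]; exact cp _
  have cK1 : Continuous K1 := by rw [hK1]; exact cp _
  have cK2 : Continuous K2 := by rw [hK2]; exact cp _
  have hh1 : dd μ L β H1 K1 ≤ 18 * κ * Real.sqrt (2 ^ q) := by
    have h1 := half_close μ hN hκ q (fun t ht => hB t (by omega)) b.1 x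
    rw [hH1, hK1, ha1, hb1]; exact h1
  have hh2 : dd μ L β H2 K2 ≤ 18 * κ * Real.sqrt (2 ^ q) := by
    have h1 := half_close μ hN hκ q (fun t ht => hB t (by omega)) b.2 x2
    rw [hH2, hK2, dd_rev, dd_mr μ hm, ha2, hb2]; exact h1
  have e0 : ∀ U : Ed d (2 * m) → G, pg U (Kl i j k o 0 X Z) * pg U (bl i j k q b x) *
      (pg U (Kl i j k (o + (2 ^ (q + 1)) • eT i) 0 Y W))⁻¹ = C U * (H1 U * H2 U) * D U := by
    intro U
    rw [hC, hD, hH1, hH2]
    simp only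
    unfold bl
    rw [pg_append, ← hx2, ← hc]
  -- standard pieces
  obtain ⟨f1, hf1⟩ : ∃ f1 : (Ed d (2 * m) → G) → G, f1 = fun U => ln U i (2 ^ q) x := ⟨_, rfl⟩
  obtain ⟨f2, hf2⟩ : ∃ f2 : (Ed d (2 * m) → G) → G, f2 = fun U =>
    ln U j a1 (x + (2 ^ q) • eT i) := ⟨_, rfl⟩
  obtain ⟨f3, hf3⟩ : ∃ f3 : (Ed d (2 * m) → G) → G, f3 = fun U =>
    ln U k b1 (x + (2 ^ q) • eT i + a1 • eT j) := ⟨_, rfl⟩
  obtain ⟨g3, hg3⟩ : ∃ g3 : (Ed d (2 * m) → G) → G, g3 = fun U =>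
    (ln U k b2 (v + a2 • eT j))⁻¹ := ⟨_, rfl⟩
  obtain ⟨g2, hg2⟩ : ∃ g2 : (Ed d (2 * m) → G) → G, g2 = fun U => (ln U j a2 v)⁻¹ := ⟨_, rfl⟩
  obtain ⟨g1, hg1⟩ : ∃ g1 : (Ed d (2 * m) → G) → G, g1 = fun U => ln U i (2 ^ q) v := ⟨_, rfl⟩
  have cf2 : Continuous f2 := by rw [hf2]; exact ln_c _ _ _
  have cf3 : Continuous f3 := by rw [hf3]; exact ln_c _ _ _
  have cg3 : Continuous g3 := by rw [hg3]; exact (ln_c _ _ _).inv
  have cg2 : Continuous g2 := by rw [hg2]; exact (ln_c _ _ _).inv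
  have cg1 : Continuous g1 := by rw [hg1]; exact ln_c _ _ _
  have eK1 : ∀ U, K1 U = f1 U * (f2 U * f3 U) := by
    intro U; rw [hK1, hf1, hf2, hf3]; exact pg_Kl U i j k x (2 ^ q) a1 b1
  have eK2 : ∀ U, K2 U = g3 U * (g2 U * g1 U) := by
    intro U
    rw [hK2, hg1, hg2, hg3]
    simp only
    rw [mr_Kl hij hik hv hvc, pg_rev, pg_append, pg_append, pg_rev, pg_sg, pg_sg, pg_sg]
    group
  have r1 : dd μ L β (fun U => C U * (H1 U * H2 U) * D U) (fun U => C U * (K1 U * H2 U) * D U) ≤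
      18 * κ * Real.sqrt (2 ^ q) := by
    rw [dd_mul, dd_mul_right]; exact hh1
  have r2 : dd μ L β (fun U => C U * (K1 U * H2 U) * D U) (fun U => C U * (K1 U * K2 U) * D U) ≤
      18 * κ * Real.sqrt (2 ^ q) := by
    rw [dd_mul, dd_mul_left]; exact hh2
  -- the standard path in the frame at the origin
  have e1 : ∀ U, C U * (K1 U * K2 U) * D U =
      (pg U (Kl i j k o 0 X Z) * f1 U) * (f2 U * f3 U * g3 U * g2 U * g1 U * D U) := by
    intro U
    rw [eK1, eK2, hC]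
    simp only [mul_assoc]
  have r3 : dd μ L β (fun U => (pg U (Kl i j k o 0 X Z) * f1 U) *
      (f2 U * f3 U * g3 U * g2 U * g1 U * D U)) (fun U => pg U (Kl i j k o (2 ^ q) X Z) *
      (f2 U * f3 U * g3 U * g2 U * g1 U * D U)) ≤ 2 * B := by
    rw [dd_mul_right]
    have h1 := FI μ hN hR o (c := 0) (a := X) (b := Z) (s := 2 ^ q) (by omega) (by omega)
      (by omega)
    have h3 : o + 0 • eT i + X • eT j + Z • (eT k : Fin d → ZMod (2 * m)) = x := by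
      rw [hx, zero_smul, add_zero]
    rw [h3, zero_add] at h1
    rw [hf1]
    exact h1
  have e2 : ∀ U, pg U (Kl i j k o (2 ^ q) X Z) * (f2 U * f3 U * g3 U * g2 U * g1 U * D U) =
      (pg U (Kl i j k o (2 ^ q) X Z) * f2 U) * (f3 U * g3 U * g2 U * g1 U * D U) := by
    intro U; simp only [mul_assoc]
  have r4 : dd μ L β (fun U => (pg U (Kl i j k o (2 ^ q) X Z) * f2 U) *
      (f3 U * g3 U * g2 U * g1 U * D U)) (fun U => pg U (Kl i j k o (2 ^ q) (X + a1) Z) *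
      (f3 U * g3 U * g2 U * g1 U * D U)) ≤ B := by
    rw [dd_mul_right]
    have h1 := FJ μ hN hR o (c := 2 ^ q) (a := X) (b := Z) (s := a1) (by omega) (by omega)
    have h3 : o + (2 ^ q) • eT i + X • eT j + Z • (eT k : Fin d → ZMod (2 * m)) =
        x + (2 ^ q) • eT i := by
      rw [hx]; abel
    rw [h3] at h1
    rw [hf2]
    exact h1
  have e3 : ∀ U, pg U (Kl i j k o (2 ^ q) (X + a1) Z) * (f3 U * g3 U * g2 U * g1 U * D U) =
      pg U (Kl i j k o (2 ^ q) (Y + a2) W) * (g2 U * g1 U * D U) := by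
    intro U
    have h1 := FK (i := i) (j := j) (k := k) o (2 ^ q) (X + a1) Z b1 U
    have h3 : o + (2 ^ q) • eT i + (X + a1) • eT j + Z • (eT k : Fin d → ZMod (2 * m)) =
        x + (2 ^ q) • eT i + a1 • eT j := by
      rw [hx, add_smul X a1]; abel
    rw [h3] at h1
    have h2 := FK (i := i) (j := j) (k := k) o (2 ^ q) (Y + a2) W b2 U
    have h4 : o + (2 ^ q) • eT i + (Y + a2) • eT j + W • (eT k : Fin d → ZMod (2 * m)) =
        v + a2 • eT j := by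
      rw [hvo, add_smul Y a2]; abel
    rw [h4] at h2
    have h5 : pg U (Kl i j k o (2 ^ q) (X + a1) Z) * f3 U * g3 U =
        pg U (Kl i j k o (2 ^ q) (Y + a2) W) := by
      rw [hf3, hg3]
      simp only
      rw [h1, ← hW, ← hY, ← h2, mul_inv_cancel_right]
    rw [← h5]
    simp only [mul_assoc]
  have e4 : ∀ U, pg U (Kl i j k o (2 ^ q) (Y + a2) W) * (g2 U * g1 U * D U) =
      (pg U (Kl i j k o (2 ^ q) (Y + a2) W)) * (g2 U * (g1 U * D U)) := by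
    intro U; simp only [mul_assoc]
  have r5 : dd μ L β (fun U => pg U (Kl i j k o (2 ^ q) (Y + a2) W) * (g2 U * (g1 U * D U)))
      (fun U => pg U (Kl i j k o (2 ^ q) Y W) * (g1 U * D U)) ≤ B := by
    have h1 := FJ μ hN hR o (c := 2 ^ q) (a := Y) (b := W) (s := a2) (by omega) (by omega)
    rw [← hvo] at h1
    have h2 : ∀ U, pg U (Kl i j k o (2 ^ q) Y W) * (g1 U * D U) =
        (pg U (Kl i j k o (2 ^ q) Y W) * ln U j a2 v) * (g2 U * (g1 U * D U)) := by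
      intro U
      rw [hg2]
      simp only
      rw [← mul_assoc _ (ln U j a2 v)⁻¹, mul_inv_cancel_right]
    rw [dd_congr μ (fun U => rfl) h2, dd_mul_right, dd_comm]
    exact h1
  have e5 : ∀ U, pg U (Kl i j k o (2 ^ q) Y W) * (g1 U * D U) =
      (pg U (Kl i j k o (2 ^ q) Y W) * g1 U) * D U := by
    intro U; simp only [mul_assoc]
  have r6 : dd μ L β (fun U => (pg U (Kl i j k o (2 ^ q) Y W) * g1 U) * D U)
      (fun U => ln U i (2 ^ (q + 1)) o) ≤ 2 * B := by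
    have h1 := FI μ hN hR o (c := 2 ^ q) (a := Y) (b := W) (s := 2 ^ q) (by omega) (by omega)
      (by omega)
    rw [← hvo, ← h2q] at h1
    have h2 : ∀ U, ln U i (2 ^ (q + 1)) o = pg U (Kl i j k o (2 ^ (q + 1)) Y W) * D U := by
      intro U
      rw [hD]
      simp only
      rw [pg_Kl, pg_Kl, ln_zero, one_mul, zero_smul, add_zero, mul_inv_cancel_right]
    rw [dd_congr μ (fun U => rfl) h2, dd_mul_right, hg1]
    exact h1
  have cx : ∀ {w : List (Ed d (2 * m) × Bool)} {f : (Ed d (2 * m) → G) → G}, Continuous f →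
      Continuous fun U => pg U w * f U := fun hf => (cp _).mul hf
  have cf1 : Continuous f1 := by rw [hf1]; exact ln_c _ _ _
  have c1 : Continuous fun U => C U * (H1 U * H2 U) * D U := (cC.mul (cH1.mul cH2)).mul cD
  have c2 : Continuous fun U => C U * (K1 U * H2 U) * D U := (cC.mul (cK1.mul cH2)).mul cD
  have c3 : Continuous fun U => C U * (K1 U * K2 U) * D U := (cC.mul (cK1.mul cK2)).mul cD
  have c4 : Continuous fun U => pg U (Kl i j k o (2 ^ q) X Z) *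
      (f2 U * f3 U * g3 U * g2 U * g1 U * D U) :=
    cx (((((cf2.mul cf3).mul cg3).mul cg2).mul cg1).mul cD)
  have c5 : Continuous fun U => pg U (Kl i j k o (2 ^ q) (X + a1) Z) *
      (f3 U * g3 U * g2 U * g1 U * D U) :=
    cx ((((cf3.mul cg3).mul cg2).mul cg1).mul cD)
  have c6 : Continuous fun U => pg U (Kl i j k o (2 ^ q) Y W) * (g1 U * D U) := cx (cg1.mul cD)
  have c7 : Continuous fun U : Ed d (2 * m) → G => ln U i (2 ^ (q + 1)) o := ln_c _ _ _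
  rw [dd_congr μ e0 (fun U => rfl)]
  have t1 := dd_tri μ (L := L) (β := β) c1 c2 c7
  have t2 := dd_tri μ (L := L) (β := β) c2 c3 c7
  have t3 := dd_tri μ (L := L) (β := β) c3 c4 c7
  have t4 := dd_tri μ (L := L) (β := β) c4 c5 c7
  have t5 := dd_tri μ (L := L) (β := β) c5 c6 c7
  have r3' : dd μ L β (fun U => C U * (K1 U * K2 U) * D U) (fun U =>
      pg U (Kl i j k o (2 ^ q) X Z) * (f2 U * f3 U * g3 U * g2 U * g1 U * D U)) ≤ 2 * B := by
    rw [dd_congr μ e1 (fun U => rfl)]; exact r3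
  have r4' : dd μ L β (fun U => pg U (Kl i j k o (2 ^ q) X Z) *
      (f2 U * f3 U * g3 U * g2 U * g1 U * D U)) (fun U => pg U (Kl i j k o (2 ^ q) (X + a1) Z) *
      (f3 U * g3 U * g2 U * g1 U * D U)) ≤ B := by
    rw [dd_congr μ e2 (fun U => rfl)]; exact r4
  have r5' : dd μ L β (fun U => pg U (Kl i j k o (2 ^ q) (X + a1) Z) *
      (f3 U * g3 U * g2 U * g1 U * D U)) (fun U => pg U (Kl i j k o (2 ^ q) Y W) *
      (g1 U * D U)) ≤ B := by
    rw [dd_congr μ (fun U => (e3 U).trans (e4 U)) (fun U => rfl)]; exact r5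
  have r6' : dd μ L β (fun U => pg U (Kl i j k o (2 ^ q) Y W) * (g1 U * D U))
      (fun U => ln U i (2 ^ (q + 1)) o) ≤ 2 * B := by
    rw [dd_congr μ e5 (fun U => rfl)]; exact r6
  have hfin : 18 * κ * Real.sqrt (2 ^ q) + 18 * κ * Real.sqrt (2 ^ q) + 6 * B ≤
      45 * κ * Real.sqrt (2 ^ q) := by
    rw [hBe]
    have e3 : Real.sqrt (2 ^ (q + 1)) = Real.sqrt 2 * Real.sqrt (2 ^ q) := by
      rw [pow_succ, mul_comm, Real.sqrt_mul (by norm_num)]
    rw [e3]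
    have e4 : Real.sqrt 2 ≤ 1.5 := by
      rw [show (1.5 : ℝ) = Real.sqrt (1.5 ^ 2) by rw [Real.sqrt_sq (by norm_num)]]
      exact Real.sqrt_le_sqrt (by norm_num)
    have e5 : 0 ≤ κ * Real.sqrt (2 ^ q) := by positivity
    nlinarith
  refine le_trans ?_ hfin
  linarith

end

end Pool.Agent.Y15
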