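import Mathlib
import Pool.Agent.Y15.Cls2
import Pool.Agent.Y15.TimeL
import Pool.Agent.Y15.Gram2

/-!
# The test vector
-/

open MeasureTheory Matrix
open scoped Matrix.Norms.Frobenius
open Pool.Agent.H906R3.YM hiding Pl
open Pool.Agent.W793.YM Pool.Agent.TH618.YM

namespace Pool.Agent.Y15

set_option linter.unusedSectionVars false
set_option linter.unusedVariables false

noncomputable section

section test

variable {d l N : ℕ} [NeZero l] (i j k : Fin d)

/-- the reference point of the level of a point -/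
def bp (i : Fin d) (x : Fin d → ZMod l) : Fin d → ZMod l := Function.update 0 i (x i)

/-- the box -/
def bx (q : ℕ) (x : Fin d → ZMod l) : Prop :=
  (∀ c, c ≠ i → c ≠ j → c ≠ k → x c = 0) ∧ (x j).val < 2 ^ (q + 1) ∧ (x k).val < 2 ^ (q + 1)

/-- the path from the reference point -/
def Cp (x : Fin d → ZMod l) : List (Ed d l × Bool) := Kl i j k (bp i x) 0 (x j).val (x k).val

open Classical in
/-- the test vector -/
def te (q : ℕ) (M : Ed d l → Mat N) : St d l N := fun x x' =>
  if bx i j k q x ∧ bx i j k q x' then (pv M (Cp i j k x))ᴴ * pv M (Cp i j k x') else 0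

variable {i j k} (hij : i ≠ j) (hik : i ≠ k) (hjk : j ≠ k)

lemma sh_Kl (z z0 : Fin d → ZMod l) (c a b : ℕ) :
    sh z (Kl i j k z0 c a b) = Kl i j k (z0 + z) c a b := by
  unfold Kl
  rw [sh_append, sh_append, sh_sg, sh_sg, sh_sg]
  have e1 : z0 + c • eT i + z = z0 + z + c • (eT i : Fin d → ZMod l) := by abel
  have e2 : z0 + c • eT i + a • eT j + z = z0 + z + c • eT i + a • (eT j : Fin d → ZMod l) := by
    abel
  rw [e1, e2]

lemma bp_add {z : Fin d → ZMod l} (hz : ∀ c, c ≠ i → z c = 0) (x : Fin d → ZMod l) :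
    bp i (x + z) = bp i x + z := by
  funext c
  unfold bp
  by_cases hc : c = i
  · subst hc; simp
  · simp [hc, hz c hc]

include hij hik hjk

lemma bx_add {z : Fin d → ZMod l} (hz : ∀ c, c ≠ i → z c = 0) (q : ℕ) (x : Fin d → ZMod l) :
    bx i j k q (x + z) ↔ bx i j k q x := by
  unfold bx
  rw [Pi.add_apply, Pi.add_apply, hz j (Ne.symm hij), hz k (Ne.symm hik), add_zero, add_zero]
  refine and_congr_left fun _ => ?_
  refine forall_congr' fun c => ?_
  refine imp_congr_right fun hc => ?_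
  rw [Pi.add_apply, hz c hc, add_zero]

lemma Cp_add {z : Fin d → ZMod l} (hz : ∀ c, c ≠ i → z c = 0) (x : Fin d → ZMod l) :
    Cp i j k (x + z) = sh z (Cp i j k x) := by
  unfold Cp
  rw [sh_Kl, bp_add hz, Pi.add_apply, Pi.add_apply, hz j (Ne.symm hij), hz k (Ne.symm hik),
    add_zero, add_zero]

lemma te_tr (q : ℕ) {z : Fin d → ZMod l} (hz : ∀ c, c ≠ i → z c = 0) (M : Ed d l → Mat N)
    (x x' : Fin d → ZMod l) : te i j k q (trM z M) x x' = te i j k q M (x + z) (x' + z) := by
  have e1 : (bx i j k q x ∧ bx i j k q x') ↔ (bx i j k q (x + z) ∧ bx i j k q (x' + z)) := by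
    rw [bx_add hij hik hjk hz, bx_add hij hik hjk hz]
  unfold te
  rw [pv_trM, pv_trM, Cp_add hij hik hjk hz, Cp_add hij hik hjk hz]
  by_cases h : bx i j k q x ∧ bx i j k q x'
  · rw [if_pos h, if_pos (e1.1 h)]
  · rw [if_neg h, if_neg fun h' => h (e1.2 h')]

lemma Cp_lev {x : Fin d → ZMod l} {e : Ed d l} (h : e ∈ (Cp i j k x).map Prod.fst) :
    e.2 ≠ i ∧ e.1 i = x i := by
  unfold Cp Kl at h
  rw [List.map_append, List.map_append, List.mem_append, List.mem_append] at h
  have hb : bp i x i = x i := by unfold bp; rw [Function.update_self]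
  rcases h with h | h | h
  · exact absurd h (by simp [sg])
  · obtain ⟨t, -, rfl⟩ := mem_sg' h
    refine ⟨Ne.symm hij, ?_⟩
    show (bp i x + 0 • eT i + t • eT j : Fin d → ZMod l) i = x i
    rw [zero_smul, add_zero, Pi.add_apply, smul_eT, if_neg hij, add_zero, hb]
  · obtain ⟨t, -, rfl⟩ := mem_sg' h
    refine ⟨Ne.symm hik, ?_⟩
    show (bp i x + 0 • eT i + (x j).val • eT j + t • eT k : Fin d → ZMod l) i = x i
    rw [zero_smul, add_zero, Pi.add_apply, Pi.add_apply, smul_eT, smul_eT, if_neg hij,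
      if_neg hik, add_zero, add_zero, hb]

lemma te_dep (q : ℕ) (M M' : Ed d l → Mat N) (x x' : Fin d → ZMod l) (hx : x i = x' i)
    (h : ∀ e : Ed d l, e.2 ≠ i → e.1 i = x i → M e = M' e) :
    te i j k q M x x' = te i j k q M' x x' := by
  unfold te
  have h1 : pv M (Cp i j k x) = pv M' (Cp i j k x) := pv_congr fun s hs => by
    obtain ⟨h1, h2⟩ := Cp_lev hij hik hjk (List.mem_map_of_mem hs)
    exact h _ h1 h2
  have h2 : pv M (Cp i j k x') = pv M' (Cp i j k x') := pv_congr fun s hs => by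
    obtain ⟨h1, h2⟩ := Cp_lev hij hik hjk (List.mem_map_of_mem hs)
    exact h _ h1 (by rw [h2, hx])
  rw [h1, h2]

omit hij hik hjk

open Classical in
lemma te_bd (q : ℕ) {M : Ed d l → Mat N} (hM : Ctr M) (x x' : Fin d → ZMod l) :
    ‖te i j k q M x x'‖ ≤ Real.sqrt N * (ind (bx i j k q x) * ind (bx i j k q x')) := by
  unfold te
  split_ifs with h
  · rw [ind_true h.1, ind_true h.2, mul_one, mul_one]
    have h1 : (pv M (Cp i j k x))ᴴ = pv M (rev (Cp i j k x)) := (pv_rev M _).symm
    have h2 := hM.pv (rev (Cp i j k x)) (pv M (Cp i j k x'))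
    have h3 := hM.pv (Cp i j k x') 1
    rw [mul_one] at h3
    rw [h1]
    refine (h2.trans h3).trans (le_of_eq ?_)
    have h4 : ‖(1 : Mat N)‖ ^ 2 = N := by
      rw [norm_sq_ip, ip_apply, conjTranspose_one, one_mul, trace_one, Fintype.card_fin]
      simp
    rw [← h4, Real.sqrt_sq (norm_nonneg _)]
  · rw [norm_zero]
    exact mul_nonneg (Real.sqrt_nonneg _) (mul_nonneg (ind_nonneg _) (ind_nonneg _))

include hij hik hjk

lemma box_card (q : ℕ) (c : ZMod l) : ∑ x ∈ pl i c, ind (bx i j k q x) ≤ 4 ^ (q + 1) := by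
  classical
  have h1 : ∑ x ∈ pl i c, ind (bx i j k q x) =
      (((pl i c).filter fun x => bx i j k q x).card : ℝ) := by
    rw [Finset.card_filter]
    push_cast
    exact Finset.sum_congr rfl fun x _ => by unfold ind; split_ifs <;> rfl
  have h2 : ((pl i c).filter fun x => bx i j k q x).card ≤
      (Finset.range (2 ^ (q + 1)) ×ˢ Finset.range (2 ^ (q + 1))).card := by
    refine Finset.card_le_card_of_injOn (fun x => ((x j).val, (x k).val)) (fun x hx => ?_)
      (fun x hx x' hx' h => ?_)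
    · rw [Finset.mem_coe, Finset.mem_filter] at hx
      rw [Finset.mem_coe, Finset.mem_product, Finset.mem_range, Finset.mem_range]
      exact ⟨hx.2.2.1, hx.2.2.2⟩
    · rw [Finset.mem_coe, Finset.mem_filter] at hx hx'
      have h1 := (Prod.mk.injEq _ _ _ _ ▸ h)
      have h2 : x j = x' j := ZMod.val_injective l h1.1
      have h3 : x k = x' k := ZMod.val_injective l h1.2
      funext e
      by_cases e1 : e = i
      · subst e1; rw [mem_pl.1 hx.1, mem_pl.1 hx'.1]
      by_cases e2 : e = j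
      · subst e2; exact h2
      by_cases e3 : e = k
      · subst e3; exact h3
      rw [hx.2.1 e e1 e2 e3, hx'.2.1 e e1 e2 e3]
  rw [Finset.card_product, Finset.card_range] at h2
  rw [h1]
  calc (((pl i c).filter fun x => bx i j k q x).card : ℝ) ≤
        ((2 ^ (q + 1) * 2 ^ (q + 1) : ℕ) : ℝ) := by exact_mod_cast h2
    _ = 4 ^ (q + 1) := by
      push_cast
      rw [← mul_pow]; norm_num

lemma db_j (q : ℕ) (b : Om q × Om q) : (db i j k q b : Fin d → ZMod l) j =
    (Da q b.1 : ZMod l) - (Da q b.2 : ZMod l) := by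
  unfold db
  rw [Dt_nat, Dt_nat]
  simp only [Pi.add_apply, Pi.sub_apply, smul_eT]
  rw [if_neg (Ne.symm hij)]
  simp [hjk]

lemma db_k (q : ℕ) (b : Om q × Om q) : (db i j k q b : Fin d → ZMod l) k =
    (Db q b.1 : ZMod l) - (Db q b.2 : ZMod l) := by
  unfold db
  rw [Dt_nat, Dt_nat]
  simp only [Pi.add_apply, Pi.sub_apply, smul_eT]
  rw [if_neg (Ne.symm hik)]
  simp [Ne.symm hjk]

lemma box_low (q : ℕ) (hq : 2 ^ (q + 1) ≤ l) (b : Om q × Om q) :
    4 ^ q ≤ ∑ x ∈ pl i (0 : ZMod l), ind (bx i j k q x ∧ bx i j k q (x + db i j k q b)) := by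
  classical
  have h1 : ∑ x ∈ pl i (0 : ZMod l), ind (bx i j k q x ∧ bx i j k q (x + db i j k q b)) =
      (((pl i (0 : ZMod l)).filter fun x => bx i j k q x ∧
        bx i j k q (x + db i j k q b)).card : ℝ) := by
    rw [Finset.card_filter]
    push_cast
    exact Finset.sum_congr rfl fun x _ => by unfold ind; split_ifs <;> rfl
  have h2q : 2 ^ (q + 1) = 2 ^ q + 2 ^ q := by rw [pow_succ]; ring
  have la1 := Da_lt q b.1
  have lb1 := Db_lt q b.1
  have la2 := Da_lt q b.2
  have lb2 := Db_lt q b.2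
  have h2 : (Finset.range (2 ^ q) ×ˢ Finset.range (2 ^ q)).card ≤
      ((pl i (0 : ZMod l)).filter fun x => bx i j k q x ∧
        bx i j k q (x + db i j k q b)).card := by
    obtain ⟨f, hf⟩ : ∃ f : ℕ × ℕ → Fin d → ZMod l, f = fun s =>
      (Da q b.2 + s.1) • eT j + (Db q b.2 + s.2) • eT k := ⟨_, rfl⟩
    have fj : ∀ s, f s j = ((Da q b.2 + s.1 : ℕ) : ZMod l) := by
      intro s
      rw [hf]
      simp [eT_same, eT_ne hjk]
    have fk : ∀ s, f s k = ((Db q b.2 + s.2 : ℕ) : ZMod l) := by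
      intro s
      rw [hf]
      simp [eT_same, eT_ne (Ne.symm hjk)]
    have fc : ∀ s c, c ≠ j → c ≠ k → f s c = 0 := by
      intro s c h1 h2
      rw [hf]
      simp only [Pi.add_apply, smul_eT]
      rw [if_neg h1, if_neg h2, add_zero]
    refine Finset.card_le_card_of_injOn f (fun s hs => ?_) (fun s hs s' hs' h => ?_)
    · rw [Finset.mem_coe, Finset.mem_product, Finset.mem_range, Finset.mem_range] at hs
      obtain ⟨s1, s2⟩ := hs
      rw [Finset.mem_coe, Finset.mem_filter, mem_pl]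
      refine ⟨fc s i hij hik, ⟨fun c c1 c2 c3 => fc s c c2 c3, ?_, ?_⟩,
        ⟨fun c c1 c2 c3 => ?_, ?_, ?_⟩⟩
      · rw [fj, ZMod.val_natCast, Nat.mod_eq_of_lt (by omega)]; omega
      · rw [fk, ZMod.val_natCast, Nat.mod_eq_of_lt (by omega)]; omega
      · rw [Pi.add_apply, fc s c c2 c3]
        have h3 : (db i j k q b : Fin d → ZMod l) c = 0 := by
          unfold db
          rw [Pi.sub_apply, Pi.add_apply, smul_eT, if_neg c1, Dt_c c2 c3, Dt_c c2 c3]
          ring
        rw [h3, add_zero]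
      · rw [Pi.add_apply, fj, db_j hij hik hjk]
        have h3 : ((Da q b.2 + s.1 : ℕ) : ZMod l) + ((Da q b.1 : ZMod l) - (Da q b.2 : ZMod l)) =
            ((Da q b.1 + s.1 : ℕ) : ZMod l) := by push_cast; ring
        rw [h3, ZMod.val_natCast, Nat.mod_eq_of_lt (by omega)]; omega
      · rw [Pi.add_apply, fk, db_k hij hik hjk]
        have h3 : ((Db q b.2 + s.2 : ℕ) : ZMod l) + ((Db q b.1 : ZMod l) - (Db q b.2 : ZMod l)) =
            ((Db q b.1 + s.2 : ℕ) : ZMod l) := by push_cast; ring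
        rw [h3, ZMod.val_natCast, Nat.mod_eq_of_lt (by omega)]; omega
    · rw [Finset.mem_coe, Finset.mem_product, Finset.mem_range, Finset.mem_range] at hs hs'
      have h3 := congrFun h j
      have h4 := congrFun h k
      rw [fj, fj] at h3
      rw [fk, fk] at h4
      have h5 := cast_inj (l := l) (by omega) (by omega) h3
      have h6 := cast_inj (l := l) (by omega) (by omega) h4
      ext <;> omega
  rw [Finset.card_product, Finset.card_range] at h2
  rw [h1]
  calc (4 : ℝ) ^ q = ((2 ^ q * 2 ^ q : ℕ) : ℝ) := by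
        push_cast
        rw [← mul_pow]; norm_num
    _ ≤ _ := by exact_mod_cast h2

/-- the decomposition of the points of the box -/
lemma box_pt {q : ℕ} {x : Fin d → ZMod l} (hx : bx i j k q x) :
    x = bp i x + (x j).val • eT j + (x k).val • eT k := by
  funext c
  simp only [Pi.add_apply, smul_eT]
  unfold bp
  by_cases h1 : c = i
  · subst h1
    rw [Function.update_self, if_neg hij, if_neg hik]; ring
  rw [Function.update_of_ne h1]
  by_cases h2 : c = j
  · subst h2
    rw [if_pos rfl, if_neg hjk, ZMod.natCast_zmod_val]; simp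
  by_cases h3 : c = k
  · subst h3
    rw [if_neg h2, if_pos rfl, ZMod.natCast_zmod_val]; simp
  rw [hx.1 c h1 h2 h3, if_neg h2, if_neg h3]; simp

lemma box_rel {q : ℕ} (hq : 3 * 2 ^ q ≤ l) {x : Fin d → ZMod l} {b : Om q × Om q}
    (hx : bx i j k q x) (hy : bx i j k q (x + db i j k q b)) :
    ((x + db i j k q b : Fin d → ZMod l) j).val + Da q b.2 = (x j).val + Da q b.1 ∧
    ((x + db i j k q b : Fin d → ZMod l) k).val + Db q b.2 = (x k).val + Db q b.1 := by
  have h2q : 2 ^ (q + 1) = 2 ^ q + 2 ^ q := by rw [pow_succ]; ring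
  have la1 := Da_lt q b.1
  have lb1 := Db_lt q b.1
  have la2 := Da_lt q b.2
  have lb2 := Db_lt q b.2
  have x1 := hx.2.1
  have x2 := hx.2.2
  have y1 := hy.2.1
  have y2 := hy.2.2
  constructor
  · refine cast_inj (l := l) (by omega) (by omega) ?_
    push_cast
    rw [ZMod.natCast_zmod_val, ZMod.natCast_zmod_val, Pi.add_apply, db_j hij hik hjk]
    ring
  · refine cast_inj (l := l) (by omega) (by omega) ?_
    push_cast
    rw [ZMod.natCast_zmod_val, ZMod.natCast_zmod_val, Pi.add_apply, db_k hij hik hjk]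
    ring

end test

end

end Pool.Agent.Y15
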