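import Mathlib
import Pool.Agent.Y15.Tst
import Pool.Agent.Y15.Fan

/-!
# The overlap of the test vector
-/

open MeasureTheory Matrix
open scoped Matrix.Norms.Frobenius
open Pool.Agent.H906R3.YM hiding Pl
open Pool.Agent.W793.YM Pool.Agent.TH618.YM

namespace Pool.Agent.Y15

set_option linter.unusedSectionVars false
set_option linter.unusedVariables false

noncomputable section

variable {G : Type*} [Group G] [TopologicalSpace G]
  [IsTopologicalGroup G] [CompactSpace G] [SecondCountableTopology G] [MeasurableSpace G]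
  [BorelSpace G] (μ : Measure G) [IsProbabilityMeasure μ] [μ.IsMulLeftInvariant]
  [μ.IsMulRightInvariant] [μ.IsInvInvariant] {N n : ℕ} {L : LD G N n}
  {d m : ℕ} [NeZero m] {β : ℝ} {i j k : Fin d}

lemma ip_self' (A : Mat N) : ip A A = ‖A‖ ^ 2 := (norm_sq_ip A).symm

lemma ip_sum_l {ι : Type*} (s : Finset ι) (A : ι → Mat N) (B : Mat N) :
    ip (∑ x ∈ s, A x) B = ∑ x ∈ s, ip (A x) B := by
  rw [ip_comm, map_sum]
  exact Finset.sum_congr rfl fun x _ => ip_comm _ _

lemma ip_swap (C C' l l' D D' : Mat N) :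
    ip (Cᴴ * C') (l * (Dᴴ * D') * l'ᴴ) = ip (C' * l' * D'ᴴ) (C * l * Dᴴ) := by
  rw [ip_apply, ip_apply]
  simp only [conjTranspose_mul, conjTranspose_conjTranspose]
  have h1 : C'ᴴ * C * (l * (Dᴴ * D') * l'ᴴ) = (C'ᴴ * C * l * Dᴴ) * (D' * l'ᴴ) := by
    simp only [mul_assoc]
  have h2 : D' * (l'ᴴ * C'ᴴ) * (C * l * Dᴴ) = (D' * l'ᴴ) * (C'ᴴ * C * l * Dᴴ) := by
    simp only [mul_assoc]
  rw [h1, h2, trace_mul_comm]

lemma norm_rho (g : G) : ‖L.rho g‖ ^ 2 = N := by
  have h1 := norm_uu (L := L) g 1 1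
  have h2 : L.rho g * 1 * (L.rho 1)ᴴ = L.rho g := by
    rw [map_one, conjTranspose_one, mul_one, mul_one]
  rw [h2] at h1
  rw [h1, norm_sq_ip, ip_apply, conjTranspose_one, one_mul, trace_one, Fintype.card_fin]
  simp

lemma te_th (hij : i ≠ j) (hik : i ≠ k) (hjk : j ≠ k) (q : ℕ) (M : Ed d (2 * m) → Mat N)
    {x x' : Fin d → ZMod (2 * m)} (hx : x i = 0) (hx' : x' i = 0) :
    te i j k q (thM i M) x x' = te i j k q M x x' := by
  refine te_dep hij hik hjk q _ _ x x' (by rw [hx, hx']) fun e he hei => ?_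
  unfold thM
  rw [if_neg he, rf_fix (by rw [hei, hx])]

/-- the loop at the reference points -/
def gx (i j k : Fin d) (q : ℕ) (x : Fin d → ZMod (2 * m)) (b : Om q × Om q)
    (U : Ed d (2 * m) → G) : G :=
  pg U (Cp i j k x) * pg U (bl i j k q b x) * (pg U (Cp i j k (x + db i j k q b)))⁻¹

/-- membership of both ends in the box -/
def gd (i j k : Fin d) (q : ℕ) (x : Fin d → ZMod (2 * m)) (b : Om q × Om q) : Prop :=
  bx i j k q x ∧ bx i j k q (x + db i j k q b)

lemma gx_cont (q : ℕ) (x : Fin d → ZMod (2 * m)) (b : Om q × Om q) :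
    Continuous (gx (G := G) i j k q x b) :=
  ((pg_cont _).mul (pg_cont _)).mul (pg_cont _).inv

open Classical in
lemma ip_te (q : ℕ) (U : Ed d (2 * m) → G) (x x' : Fin d → ZMod (2 * m))
    (p : (Om q × Om q) × (Om q × Om q)) (b : ℝ) :
    ip (te i j k q (L.mat U) x x') (cn b false (L.mat U) (bl i j k q p.1 x) (bl i j k q p.2 x')
      (te i j k q (L.mat U) (x + db i j k q p.1) (x' + db i j k q p.2))) =
    ip (ind (gd i j k q x' p.2) • L.rho (gx i j k q x' p.2 U))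
      (ind (gd i j k q x p.1) • L.rho (gx i j k q x p.1 U)) := by
  rw [cn_false]
  unfold te
  by_cases h1 : bx i j k q x ∧ bx i j k q x'
  · by_cases h2 : bx i j k q (x + db i j k q p.1) ∧ bx i j k q (x' + db i j k q p.2)
    · rw [if_pos h1, if_pos h2, ind_true (p := gd i j k q x' p.2) ⟨h1.2, h2.2⟩,
        ind_true (p := gd i j k q x p.1) ⟨h1.1, h2.1⟩, one_smul, one_smul]
      have e : ∀ w : List (Ed d (2 * m) × Bool), pv (L.mat U) w = L.rho (pg U w) :=
        fun w => (rho_pg U w).symm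
      simp only [e]
      obtain ⟨c, hc⟩ : ∃ c, c = pg U (Cp i j k x) := ⟨_, rfl⟩
      obtain ⟨c', hc'⟩ : ∃ c', c' = pg U (Cp i j k x') := ⟨_, rfl⟩
      obtain ⟨D, hD⟩ : ∃ D, D = pg U (Cp i j k (x + db i j k q p.1)) := ⟨_, rfl⟩
      obtain ⟨D', hD'⟩ : ∃ D', D' = pg U (Cp i j k (x' + db i j k q p.2)) := ⟨_, rfl⟩
      obtain ⟨l, hl⟩ : ∃ l, l = pg U (bl i j k q p.1 x) := ⟨_, rfl⟩
      obtain ⟨l', hl'⟩ : ∃ l', l' = pg U (bl i j k q p.2 x') := ⟨_, rfl⟩
      unfold gx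
      rw [← hc, ← hc', ← hD, ← hD', ← hl, ← hl']
      have hmm : ∀ g h : G, L.rho (g * h) = L.rho g * L.rho h := fun g h => map_mul _ _ _
      rw [hmm, hmm, hmm, hmm, L.rho_inv, L.rho_inv]
      exact ip_swap _ _ _ _ _ _
    · rw [if_neg h2]
      have h3 : ¬(gd i j k q x' p.2 ∧ gd i j k q x p.1) := fun h => h2 ⟨h.2.2, h.1.2⟩
      rw [mul_zero, zero_mul, map_zero, ip_smul', ip_smul_r]
      rcases not_and_or.1 h3 with h | h
      · rw [ind_false h, zero_mul]
      · rw [ind_false h, zero_mul, mul_zero]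
  · rw [if_neg h1]
    have h3 : ¬(gd i j k q x' p.2 ∧ gd i j k q x p.1) := fun h => h1 ⟨h.2.1, h.1.1⟩
    rw [ip_smul', ip_smul_r, ip_comm, map_zero]
    rcases not_and_or.1 h3 with h | h
    · rw [ind_false h, zero_mul]
    · rw [ind_false h, zero_mul, mul_zero]

/-- the mean of the loops -/
def Aw (L : LD G N n) (i j k : Fin d) (q : ℕ) (U : Ed d (2 * m) → G) : Mat N :=
  ∑ a ∈ pl i (0 : ZMod (2 * m)) ×ˢ (Finset.univ : Finset (Om q × Om q)),
    ((Fintype.card (Om q × Om q) : ℝ)⁻¹ * ind (gd i j k q a.1 a.2)) •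
      L.rho (gx i j k q a.1 a.2 U)

lemma Aw_eq (q : ℕ) (U : Ed d (2 * m) → G) :
    Aw L i j k q U = ∑ x ∈ pl i (0 : ZMod (2 * m)), mM fun b : Om q × Om q =>
      ind (gd i j k q x b) • L.rho (gx i j k q x b U) := by
  unfold Aw mM
  rw [Finset.sum_product]
  refine Finset.sum_congr rfl fun x _ => ?_
  rw [Finset.smul_sum]
  refine Finset.sum_congr rfl fun b _ => ?_
  rw [mul_smul]

variable (hij : i ≠ j) (hik : i ≠ k) (hjk : j ≠ k)
include hij hik hjk

lemma cg_teT (q : ℕ) (b : ℝ) :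
    cg (m := m) μ L i j k β q b (te i j k q) [] (te i j k q) [(1, 0)] =
      EX μ L β fun U : Ed d (2 * m) → G => ‖Aw L i j k q U‖ ^ 2 := by
  unfold cg
  refine congrArg (EX μ L β) (funext fun U => ?_)
  rw [Aw_eq, ← ip_self', ip_sum_l]
  rw [Finset.sum_comm]
  refine Finset.sum_congr rfl fun x' hx' => ?_
  rw [map_sum]
  refine Finset.sum_congr rfl fun x hx => ?_
  rw [PH_T, ip_mM]
  have h1 : PH i j k q b (te i j k q) [] (thM i (L.mat U)) x x' = te i j k q (L.mat U) x x' :=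
    te_th hij hik hjk q _ (mem_pl.1 hx) (mem_pl.1 hx')
  rw [h1]
  have h2 : TO i j k q b false (L.mat U) (PH i j k q b (te i j k q) [] (L.mat U)) x x' =
      mM fun p : (Om q × Om q) × (Om q × Om q) => cn b false (L.mat U) (bl i j k q p.1 x)
        (bl i j k q p.2 x') (te i j k q (L.mat U) (x + db i j k q p.1) (x' + db i j k q p.2)) :=
    rfl
  rw [h2, ip_mM']
  simp only [ip_te]
  rw [mn_prod, mn_comm]
  refine congrArg mn (funext fun b' => ?_)
  rw [ip_mM']

lemma cg_te (q : ℕ) (b : ℝ) :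
    cg (m := m) μ L i j k β q b (te i j k q) [] (te i j k q) [] =
      N * (∑ x ∈ pl i (0 : ZMod (2 * m)), ind (bx i j k q x)) ^ 2 := by
  classical
  unfold cg
  rw [← EX_const μ (L := L) (β := β) (d := d) (l := 2 * m)
    (N * (∑ x ∈ pl i (0 : ZMod (2 * m)), ind (bx i j k q x)) ^ 2)]
  refine congrArg (EX μ L β) (funext fun U => ?_)
  rw [pow_two, Finset.sum_mul_sum, Finset.mul_sum]
  refine Finset.sum_congr rfl fun x hx => ?_
  rw [Finset.mul_sum]
  refine Finset.sum_congr rfl fun x' hx' => ?_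
  have h1 : PH i j k q b (te i j k q) [] (thM i (L.mat U)) x x' = te i j k q (L.mat U) x x' :=
    te_th hij hik hjk q _ (mem_pl.1 hx) (mem_pl.1 hx')
  have h2 : PH i j k q b (te i j k q) [] (L.mat U) x x' = te i j k q (L.mat U) x x' := rfl
  rw [h1, h2, ip_self']
  unfold te
  by_cases h : bx i j k q x ∧ bx i j k q x'
  · rw [if_pos h, ind_true h.1, ind_true h.2]
    have e : ∀ w : List (Ed d (2 * m) × Bool), pv (L.mat U) w = L.rho (pg U w) :=
      fun w => (rho_pg U w).symm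
    rw [e, e, ← L.rho_inv, ← map_mul, norm_rho]; ring
  · rw [if_neg h, norm_zero]
    rcases not_and_or.1 h with h | h
    · rw [ind_false h]; ring
    · rw [ind_false h]; ring

theorem te_overlap (hm : 2 ≤ m) (hN : 1 ≤ N) {q : ℕ} (hq : 3 * 2 ^ q ≤ 2 * m)
    {κ : ℝ} (hκ : 0 ≤ κ)
    (hB : ∀ t ≤ q + 1, RB μ L m β i j k (2 ^ t) (κ * Real.sqrt (2 ^ t)))
    (hδ : 45 * κ * Real.sqrt (2 ^ q) ≤ Real.sqrt N / 2) (b : ℝ) :
    (1 / 64) * cg (m := m) μ L i j k β q b (te i j k q) [] (te i j k q) [] ≤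
      cg (m := m) μ L i j k β q b (te i j k q) [] (te i j k q) [(1, 0)] ∧
    1 ≤ cg (m := m) μ L i j k β q b (te i j k q) [] (te i j k q) [] := by
  have h2q : 2 ^ (q + 1) = 2 ^ q + 2 ^ q := by rw [pow_succ]; ring
  have hN' : (1 : ℝ) ≤ N := by exact_mod_cast hN
  have hq1 : 2 ^ (q + 1) ≤ 2 * m := by omega
  have hbox := box_card (l := 2 * m) hij hik hjk q 0
  rw [cg_te μ hij hik hjk, cg_teT μ hij hik hjk]
  have hpos : (1 : ℝ) ≤ ∑ x ∈ pl i (0 : ZMod (2 * m)), ind (bx i j k q x) := by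
    have h0 : bx i j k q (0 : Fin d → ZMod (2 * m)) := by
      refine ⟨fun c _ _ _ => rfl, ?_, ?_⟩
      · show (0 : ZMod (2 * m)).val < _
        rw [ZMod.val_zero]; positivity
      · show (0 : ZMod (2 * m)).val < _
        rw [ZMod.val_zero]; positivity
    calc (1 : ℝ) = ind (bx i j k q (0 : Fin d → ZMod (2 * m))) := (ind_true h0).symm
      _ ≤ _ := Finset.single_le_sum (f := fun x => ind (bx i j k q x))
        (fun x _ => ind_nonneg _) (mem_pl.2 rfl)
  obtain ⟨Ω, hΩ⟩ : ∃ Ω : ℝ, Ω = ∑ a ∈ pl i (0 : ZMod (2 * m)) ×ˢ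
    (Finset.univ : Finset (Om q × Om q)), (Fintype.card (Om q × Om q) : ℝ)⁻¹ *
      ind (gd i j k q a.1 a.2) := ⟨_, rfl⟩
  have hΩ4 : (4 : ℝ) ^ q ≤ Ω := by
    rw [hΩ, Finset.sum_product, Finset.sum_comm]
    have h1 : ∀ b' : Om q × Om q, (Fintype.card (Om q × Om q) : ℝ)⁻¹ * 4 ^ q ≤
        ∑ x ∈ pl i (0 : ZMod (2 * m)), (Fintype.card (Om q × Om q) : ℝ)⁻¹ *
          ind (gd i j k q x b') := by
      intro b'
      rw [← Finset.mul_sum]
      exact mul_le_mul_of_nonneg_left (box_low hij hik hjk q hq1 b') (by positivity)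
    refine le_trans (le_of_eq ?_) (Finset.sum_le_sum fun b' _ => h1 b')
    rw [Finset.sum_const, Finset.card_univ, nsmul_eq_mul]
    have : (Fintype.card (Om q × Om q) : ℝ) ≠ 0 := by
      have := Fintype.card_pos (α := Om q × Om q)
      positivity
    field_simp
  obtain ⟨Bl, hBl⟩ : ∃ Bl : (Ed d (2 * m) → G) → Mat N, Bl = fun U =>
    L.rho (ln U i (2 ^ (q + 1)) 0) := ⟨_, rfl⟩
  have hBc : Continuous Bl := by rw [hBl]; exact L.cont.comp (ln_cont _ _ _)
  have hgc : ∀ a : (Fin d → ZMod (2 * m)) × (Om q × Om q),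
      Continuous fun U : Ed d (2 * m) → G => L.rho (gx i j k q a.1 a.2 U) :=
    fun a => L.cont.comp (gx_cont q a.1 a.2)
  have hAc : Continuous (Aw (G := G) (m := m) L i j k q) := by
    unfold Aw
    refine continuous_finsetSum _ fun a _ => ?_
    exact (hgc a).const_smul ((Fintype.card (Om q × Om q) : ℝ)⁻¹ * ind (gd i j k q a.1 a.2))
  have hclose : ∀ a ∈ pl i (0 : ZMod (2 * m)) ×ˢ (Finset.univ : Finset (Om q × Om q)),
      gd i j k q a.1 a.2 → N2 μ L β (fun U => Bl U - L.rho (gx i j k q a.1 a.2 U)) ≤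
        Real.sqrt N / 2 := by
    intro a ha hg
    have hx0 : a.1 i = 0 := mem_pl.1 (Finset.mem_product.1 ha).1
    obtain ⟨r1, r2⟩ := box_rel hij hik hjk hq hg.1 hg.2
    have hb0 : bp i a.1 = 0 := by
      unfold bp
      rw [hx0]
      exact Function.update_eq_self i (0 : Fin d → ZMod (2 * m))
    have hb1 : bp i (a.1 + db i j k q a.2) = 0 + (2 ^ (q + 1)) • eT i := by
      unfold bp
      rw [Pi.add_apply, hx0, zero_add, db_i hij hik hjk, zero_add]
      funext c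
      rw [smul_eT]
      by_cases hc : c = i
      · subst hc; rw [Function.update_self, if_pos rfl]
      · rw [Function.update_of_ne hc, if_neg hc]; rfl
    have h1 := block_close μ (L := L) (β := β) hm hN hij hik hjk hκ q hB a.2 (o := 0)
      (x := a.1) (X := (a.1 j).val) (Z := (a.1 k).val)
      (Y := ((a.1 + db i j k q a.2 : Fin d → ZMod (2 * m)) j).val)
      (W := ((a.1 + db i j k q a.2 : Fin d → ZMod (2 * m)) k).val)
      (by have := box_pt hij hik hjk hg.1; rwa [hb0] at this) r1 r2 hg.1.2.1 hg.1.2.2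
      hg.2.2.1 hg.2.2.2
    refine le_trans ?_ (h1.trans hδ)
    unfold dd
    rw [N2_sub_comm]
    refine le_of_eq (N2_congr μ β fun U => ?_)
    rw [hBl]
    unfold gx Cp
    rw [hb0, hb1]
  have hsum : ∀ U, Ω • Bl U = Aw L i j k q U + ∑ a ∈ pl i (0 : ZMod (2 * m)) ×ˢ
      (Finset.univ : Finset (Om q × Om q)), ((Fintype.card (Om q × Om q) : ℝ)⁻¹ *
        ind (gd i j k q a.1 a.2)) • (Bl U - L.rho (gx i j k q a.1 a.2 U)) := by
    intro U
    unfold Aw
    rw [← Finset.sum_add_distrib, hΩ, Finset.sum_smul]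
    refine Finset.sum_congr rfl fun a _ => ?_
    rw [smul_sub]; abel
  have hN2B : N2 μ L β (fun U => Ω • Bl U) = Ω * Real.sqrt N := by
    have hΩ0 : 0 ≤ Ω := (by positivity : (0 : ℝ) ≤ 4 ^ q).trans hΩ4
    rw [N2_smul μ β hΩ0]
    congr 1
    unfold N2
    congr 1
    have h1 : (fun U => ‖Bl U‖ ^ 2) = fun _ => (N : ℝ) := by
      funext U; rw [hBl]; exact norm_rho _
    rw [h1, EX_const]
  have hbig : Ω * Real.sqrt N ≤ N2 (m := m) μ L β (Aw L i j k q) + Ω * (Real.sqrt N / 2) := by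
    have h1 : N2 μ L β (fun U => Ω • Bl U) ≤ N2 (m := m) μ L β (Aw L i j k q) +
        N2 μ L β (fun U => ∑ a ∈ pl i (0 : ZMod (2 * m)) ×ˢ
      (Finset.univ : Finset (Om q × Om q)), ((Fintype.card (Om q × Om q) : ℝ)⁻¹ *
        ind (gd i j k q a.1 a.2)) • (Bl U - L.rho (gx i j k q a.1 a.2 U))) := by
      simp only [hsum]
      refine N2_add μ β hAc (continuous_finsetSum _ fun a _ => ?_)
      exact (hBc.sub (hgc a)).const_smul ((Fintype.card (Om q × Om q) : ℝ)⁻¹ *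
        ind (gd i j k q a.1 a.2))
    have h2 := N2_sum μ (L := L) β (pl i (0 : ZMod (2 * m)) ×ˢ
      (Finset.univ : Finset (Om q × Om q))) (a := fun a => (Fintype.card (Om q × Om q) : ℝ)⁻¹ *
        ind (gd i j k q a.1 a.2)) (fun a => mul_nonneg (by positivity) (ind_nonneg _))
      (X := fun a U => Bl U - L.rho (gx i j k q a.1 a.2 U))
      (fun a => hBc.sub (hgc a))
    have h3 : ∑ a ∈ pl i (0 : ZMod (2 * m)) ×ˢ (Finset.univ : Finset (Om q × Om q)),
        (Fintype.card (Om q × Om q) : ℝ)⁻¹ * ind (gd i j k q a.1 a.2) *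
          N2 μ L β (fun U => Bl U - L.rho (gx i j k q a.1 a.2 U)) ≤
        Ω * (Real.sqrt N / 2) := by
      rw [hΩ, Finset.sum_mul]
      refine Finset.sum_le_sum fun a ha => ?_
      by_cases hg : gd i j k q a.1 a.2
      · exact mul_le_mul_of_nonneg_left (hclose a ha hg)
          (mul_nonneg (by positivity) (ind_nonneg _))
      · rw [ind_false hg]; simp
    rw [hN2B] at h1
    linarith
  have hA2 : Ω * (Real.sqrt N / 2) ≤ N2 (m := m) μ L β (Aw L i j k q) := by linarith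
  have hΩ0 : 0 ≤ Ω := (by positivity : (0 : ℝ) ≤ 4 ^ q).trans hΩ4
  have hfin : Ω ^ 2 * (N / 4) ≤ EX μ L β fun U : Ed d (2 * m) → G => ‖Aw L i j k q U‖ ^ 2 := by
    rw [← N2_sq]
    have h1 : 0 ≤ Ω * (Real.sqrt N / 2) := by positivity
    have h2 := pow_le_pow_left₀ h1 hA2 2
    refine le_trans (le_of_eq ?_) h2
    rw [mul_pow, div_pow, Real.sq_sqrt (by positivity)]
    norm_num
  constructor
  · refine le_trans ?_ hfin
    have h1 : (4 : ℝ) ^ q * 4 ^ q ≤ Ω ^ 2 := by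
      rw [pow_two]
      exact mul_le_mul hΩ4 hΩ4 (by positivity) hΩ0
    have h2 : (∑ x ∈ pl i (0 : ZMod (2 * m)), ind (bx i j k q x)) ^ 2 ≤ 16 * (4 ^ q * 4 ^ q) := by
      have h3 := pow_le_pow_left₀ (by linarith) hbox 2
      refine h3.trans (le_of_eq ?_)
      rw [pow_succ]; ring
    have h3 : (N : ℝ) * (∑ x ∈ pl i (0 : ZMod (2 * m)), ind (bx i j k q x)) ^ 2 ≤
        N * (16 * Ω ^ 2) :=
      mul_le_mul_of_nonneg_left (by linarith) (by linarith)
    linarith
  · have h1 : (1 : ℝ) ≤ (∑ x ∈ pl i (0 : ZMod (2 * m)), ind (bx i j k q x)) ^ 2 := by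
      nlinarith
    nlinarith

end

end Pool.Agent.Y15
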