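import Mathlib
import Pool.Agent.Y15.Tst2
import Pool.Agent.Y15.Chn2
import Pool.Agent.Y15.Growth

/-!
# The limit of the forms
-/

open MeasureTheory Matrix Filter
open scoped Matrix.Norms.Frobenius Topology
open Pool.Agent.H906R3.YM hiding Pl
open Pool.Agent.W793.YM Pool.Agent.TH618.YM

namespace Pool.Agent.Y15

set_option linter.unusedSectionVars false
set_option linter.unusedVariables false

noncomputable section

section base

variable {d l N : ℕ} [NeZero l] (i j k : Fin d)

/-- the two base states -/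
def Bs (q : ℕ) : Bool → (Ed d l → Mat N) → St d l N
  | true => te i j k q
  | false => pin i 0

variable {i j k}

lemma norm_one_sq : ‖(1 : Mat N)‖ ^ 2 = N := by
  rw [norm_sq_ip, ip_apply, conjTranspose_one, one_mul, trace_one, Fintype.card_fin]
  simp

lemma norm_one' : ‖(1 : Mat N)‖ = Real.sqrt N := by
  rw [← norm_one_sq (N := N), Real.sqrt_sq (norm_nonneg _)]

lemma pin_dep (M M' : Ed d l → Mat N) (x x' : Fin d → ZMod l) :
    pin i 0 M x x' = pin i 0 M' x x' := rfl

lemma hn_pin (M : Ed d l → Mat N) (c : ZMod l) : hn i (pin i 0 M) c = N := by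
  unfold hn
  have h1 := pin_sum i (0 : Fin d → ZMod l) M c (fun A => ‖A‖ ^ 2) (by simp)
  rw [h1, norm_one_sq]

/-- the pinned state under the contractions -/
lemma hn_Tn (hij : i ≠ j) (hik : i ≠ k) (hjk : j ≠ k) {b : ℝ} {M : Ed d l → Mat N} (hM : Ctr M)
    (q n : ℕ) (c : ZMod l) :
    hn i (PH i j k q b (pin i 0) (List.replicate n (1, 0)) M) c ≤ N := by
  induction n generalizing c with
  | zero => exact (hn_pin M c).le
  | succ n ih =>
    have h1 : PH i j k q b (pin i 0) (List.replicate (n + 1) (1, 0)) M =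
        TO i j k q b false M (PH i j k q b (pin i 0) (List.replicate n (1, 0)) M) := by
      funext x x'
      exact PH_T q b _ _ M x x'
    rw [h1]
    exact (hn_T hij hik hjk hM q _ c).trans (ih _)

variable (hij : i ≠ j) (hik : i ≠ k) (hjk : j ≠ k)
include hij hik hjk

lemma Bs_cov (q : ℕ) (f : Bool) (z : Fin d → ZMod l) (hz : ∀ c, c ≠ i → z c = 0)
    (M : Ed d l → Mat N) (x x' : Fin d → ZMod l) :
    Bs i j k q f (trM z M) x x' = Bs i j k q f M (x + z) (x' + z) := by
  cases f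
  · exact pin_cov i 0 z hz M x x'
  · exact te_tr hij hik hjk q hz M x x'

lemma Bs_dep (q : ℕ) (f : Bool) (M M' : Ed d l → Mat N) (x x' : Fin d → ZMod l)
    (hx : x i = x' i) (h : ∀ e : Ed d l, e.2 ≠ i → e.1 i = x i → M e = M' e) :
    Bs i j k q f M x x' = Bs i j k q f M' x x' := by
  cases f
  · rfl
  · exact te_dep hij hik hjk q M M' x x' hx h

/-- the majorant -/
def Bm (i j k : Fin d) (N q : ℕ) : Bool → (Fin d → ZMod l) → (Fin d → ZMod l) → ℝ
  | true => fun x x' => Real.sqrt N * (ind (bx i j k q x) * ind (bx i j k q x'))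
  | false => fun x x' => ‖(pin i 0 (0 : Ed d l → Mat N) x x' : Mat N)‖

lemma Bs_bd (q : ℕ) (f : Bool) {M : Ed d l → Mat N} (hM : Ctr M) (x x' : Fin d → ZMod l) :
    ‖Bs i j k q f M x x'‖ ≤ Bm i j k N q f x x' := by
  cases f
  · exact le_rfl
  · exact te_bd q hM x x'

lemma Bm_nonneg (q : ℕ) (f : Bool) (x x' : Fin d → ZMod l) : 0 ≤ Bm i j k N q f x x' := by
  cases f
  · exact norm_nonneg _
  · exact mul_nonneg (Real.sqrt_nonneg _) (mul_nonneg (ind_nonneg _) (ind_nonneg _))

lemma one_le_16 (q : ℕ) : (1 : ℝ) ≤ 16 ^ (q + 1) := one_le_pow₀ (by norm_num)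

lemma Bm_sum (q : ℕ) (f : Bool) (c : ZMod l) :
    ∑ x ∈ pl i c, ∑ x' ∈ pl i c, Bm i j k N q f x x' ≤ Real.sqrt N * 16 ^ (q + 1) := by
  have h16 : (16 : ℝ) ^ (q + 1) = 4 ^ (q + 1) * 4 ^ (q + 1) := by
    rw [← mul_pow]; norm_num
  have hs := Real.sqrt_nonneg (N : ℝ)
  cases f
  · have h1 := pin_sum i (0 : Fin d → ZMod l) (0 : Ed d l → Mat N) c (fun A => ‖A‖) (by simp)
    refine (le_of_eq h1).trans ?_
    rw [norm_one']
    have := one_le_16 hij hik hjk q
    nlinarith
  · show ∑ x ∈ pl i c, ∑ x' ∈ pl i c,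
      Real.sqrt N * (ind (bx i j k q x) * ind (bx i j k q x')) ≤ _
    simp only [← Finset.mul_sum]
    rw [← Finset.sum_mul]
    refine mul_le_mul_of_nonneg_left ?_ hs
    rw [h16]
    have h1 := box_card (l := l) hij hik hjk q c
    exact mul_le_mul h1 h1 (Finset.sum_nonneg fun _ _ => ind_nonneg _) (by positivity)

lemma Bs_hn (q : ℕ) (f : Bool) {M : Ed d l → Mat N} (hM : Ctr M) (c : ZMod l) :
    hn i (Bs i j k q f M) c ≤ N * 16 ^ (q + 1) := by
  have h16 : (16 : ℝ) ^ (q + 1) = 4 ^ (q + 1) * 4 ^ (q + 1) := by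
    rw [← mul_pow]; norm_num
  cases f
  · refine (hn_pin M c).le.trans ?_
    have := one_le_16 hij hik hjk q
    have hN : (0 : ℝ) ≤ N := Nat.cast_nonneg N
    nlinarith
  · unfold hn
    have h0 : ∀ x x' : Fin d → ZMod l, ‖Bs i j k q true M x x'‖ ^ 2 ≤
        N * (ind (bx i j k q x) * ind (bx i j k q x')) := by
      intro x x'
      have h1 : ‖Bs i j k q true M x x'‖ ≤ Real.sqrt N *
        (ind (bx i j k q x) * ind (bx i j k q x')) := te_bd q hM x x'
      have h2 := pow_le_pow_left₀ (norm_nonneg _) h1 2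
      refine h2.trans ?_
      rw [mul_pow, Real.sq_sqrt (Nat.cast_nonneg N)]
      refine mul_le_mul_of_nonneg_left ?_ (Nat.cast_nonneg N)
      have a1 := ind_nonneg (bx i j k q x)
      have a2 := ind_le_one (bx i j k q x)
      have a3 := ind_nonneg (bx i j k q x')
      have a4 := ind_le_one (bx i j k q x')
      have a5 : ind (bx i j k q x) * ind (bx i j k q x') ≤ 1 := mul_le_one₀ a2 a3 a4
      have a6 := mul_nonneg a1 a3
      nlinarith
    refine (Finset.sum_le_sum fun x _ => Finset.sum_le_sum fun x' _ => h0 x x').trans ?_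
    simp only [← Finset.mul_sum]
    rw [← Finset.sum_mul]
    refine mul_le_mul_of_nonneg_left ?_ (Nat.cast_nonneg N)
    rw [h16]
    have h1 := box_card (l := l) hij hik hjk q c
    exact mul_le_mul h1 h1 (Finset.sum_nonneg fun _ _ => ind_nonneg _) (by positivity)

end base

variable {G : Type*} [Group G] [TopologicalSpace G]
  [IsTopologicalGroup G] [CompactSpace G] [SecondCountableTopology G] [MeasurableSpace G]
  [BorelSpace G] (μ : Measure G) [IsProbabilityMeasure μ] [μ.IsMulLeftInvariant]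
  [μ.IsMulRightInvariant] [μ.IsInvInvariant] {N n : ℕ} {L : LD G N n}

section forms

variable {d m : ℕ} [NeZero m] {i j k : Fin d}

lemma Bs_cont (q : ℕ) (f : Bool) (x x' : Fin d → ZMod (2 * m)) :
    Continuous fun U : Ed d (2 * m) → G => Bs i j k q f (L.mat U) x x' := by
  cases f
  · exact continuous_const
  · show Continuous fun U : Ed d (2 * m) → G => te i j k q (L.mat U) x x'
    have e : ∀ w : List (Ed d (2 * m) × Bool), Continuous fun U : Ed d (2 * m) → G =>
        pv (L.mat U) w := by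
      intro w
      have h1 : (fun U : Ed d (2 * m) → G => pv (L.mat U) w) = fun U => L.rho (pg U w) :=
        funext fun U => (rho_pg U w).symm
      rw [h1]
      exact L.cont.comp (pg_cont w)
    unfold te
    split_ifs with h
    · exact ((e _).matrix_conjTranspose).mul (e _)
    · exact continuous_const

variable (L) in
/-- the integrand of the form -/
def cI (i j k : Fin d) (q : ℕ) (b : ℝ) (Ba : (Ed d (2 * m) → Mat N) → St d (2 * m) N)
    (u : List (ℝ × ℝ)) (Ba' : (Ed d (2 * m) → Mat N) → St d (2 * m) N) (v : List (ℝ × ℝ))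
    (U : Ed d (2 * m) → G) : ℝ :=
  ∑ x ∈ pl i 0, ∑ x' ∈ pl i 0,
    ip (PH i j k q b Ba u (thM i (L.mat U)) x x') (PH i j k q b Ba' v (L.mat U) x x')

lemma cI_cont (hm : 2 ≤ m) {q : ℕ} {b : ℝ} (hb : 0 < b)
    {Ba Ba' : (Ed d (2 * m) → Mat N) → St d (2 * m) N}
    (h : ∀ x x', Continuous fun U : Ed d (2 * m) → G => Ba (L.mat U) x x')
    (h' : ∀ x x', Continuous fun U : Ed d (2 * m) → G => Ba' (L.mat U) x x')
    (u v : List (ℝ × ℝ)) : Continuous (cI (G := G) L i j k q b Ba u Ba' v) := by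
  unfold cI
  refine continuous_finsetSum _ fun x _ => continuous_finsetSum _ fun x' _ => ip_cont ?_ ?_
  · have h1 : (fun U : Ed d (2 * m) → G => PH i j k q b Ba u (thM i (L.mat U)) x x') =
        fun U => PH i j k q b Ba u (L.mat ((SR hm i).tU U)) x x' := by
      funext U; rw [mat_ref hm]
    rw [h1]
    exact (PH_cont hb h u x x').comp (SR hm i).tU_cont
  · exact PH_cont hb h' v x x'

lemma ip_abs (A B : Mat N) : |ip A B| ≤ (‖A‖ ^ 2 + ‖B‖ ^ 2) / 2 := by
  rw [abs_le]
  have h1 := norm_add_sq' A B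
  have h2 := ip_pol A B
  have h3 := sq_nonneg ‖A + B‖
  have h4 := sq_nonneg ‖A - B‖
  constructor <;> linarith

lemma cg_abs (hm : 2 ≤ m) {β : ℝ} {q : ℕ} {b : ℝ} (hb : 0 < b)
    {Ba Ba' : (Ed d (2 * m) → Mat N) → St d (2 * m) N}
    (h : ∀ x x', Continuous fun U : Ed d (2 * m) → G => Ba (L.mat U) x x')
    (h' : ∀ x x', Continuous fun U : Ed d (2 * m) → G => Ba' (L.mat U) x x')
    (u v : List (ℝ × ℝ)) {A A' : ℝ}
    (hA : ∀ M : Ed d (2 * m) → Mat N, Ctr M → hn i (PH i j k q b Ba u M) 0 ≤ A)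
    (hA' : ∀ M : Ed d (2 * m) → Mat N, Ctr M → hn i (PH i j k q b Ba' v M) 0 ≤ A') :
    |cg μ L i j k β q b Ba u Ba' v| ≤ (A + A') / 2 := by
  have hc := cI_cont (L := L) hm (q := q) (i := i) (j := j) (k := k) hb h h' u v
  refine (EX_abs μ (L := L) (β := β) hc).trans ?_
  rw [← EX_const μ (L := L) (β := β) (d := d) (l := 2 * m) ((A + A') / 2)]
  refine EX_mono μ hc.abs continuous_const fun U => ?_
  unfold cI
  refine (Finset.abs_sum_le_sum_abs _ _).trans ?_
  refine (Finset.sum_le_sum fun x _ => Finset.abs_sum_le_sum_abs _ _).trans ?_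
  refine (Finset.sum_le_sum fun x _ => Finset.sum_le_sum fun x' _ => ip_abs _ _).trans ?_
  have h1 := hA _ (Ctr_th (i := i) (Ctr_mat (L := L) U))
  have h2 := hA' _ (Ctr_mat (L := L) U)
  unfold hn at h1 h2
  simp only [← Finset.sum_div, Finset.sum_add_distrib]
  linarith

lemma cg_add (hm : 2 ≤ m) {β : ℝ} {q : ℕ} {b : ℝ} (hb : 0 < b)
    {Ba Ba' : (Ed d (2 * m) → Mat N) → St d (2 * m) N}
    (h : ∀ x x', Continuous fun U : Ed d (2 * m) → G => Ba (L.mat U) x x')
    (h' : ∀ x x', Continuous fun U : Ed d (2 * m) → G => Ba' (L.mat U) x x')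
    (u v : List (ℝ × ℝ)) :
    cg μ L i j k β q b Ba ((0, 1) :: u) Ba' v =
      cg μ L i j k β q b Ba ((1, 0) :: u) Ba' v + cg μ L i j k β q b Ba ((-1, 1) :: u) Ba' v := by
  have h1 : ∀ U : Ed d (2 * m) → G, cI L i j k q b Ba ((0, 1) :: u) Ba' v U =
      cI L i j k q b Ba ((1, 0) :: u) Ba' v U + cI L i j k q b Ba ((-1, 1) :: u) Ba' v U := by
    intro U
    unfold cI
    rw [← Finset.sum_add_distrib]
    refine Finset.sum_congr rfl fun x _ => ?_
    rw [← Finset.sum_add_distrib]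
    refine Finset.sum_congr rfl fun x' _ => ?_
    have e1 : ∀ (X : ℝ × ℝ) (M : Ed d (2 * m) → Mat N), PH i j k q b Ba (X :: u) M x x' =
        X.1 • TO i j k q b false M (PH i j k q b Ba u M) x x' +
        X.2 • TO i j k q b true M (PH i j k q b Ba u M) x x' := fun X M => rfl
    rw [e1, e1, e1, ip_comm, ip_comm (_ + _) (PH i j k q b Ba' v (L.mat U) x x'),
      ip_comm (_ + _) (PH i j k q b Ba' v (L.mat U) x x'), map_add, map_add, map_add,
      ip_smul_r, ip_smul_r, ip_smul_r, ip_smul_r, ip_smul_r]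
    ring
  have h2 := EX_add μ (L := L) (β := β) (cI_cont (L := L) hm (q := q) (i := i) (j := j) (k := k) hb h h'
    ((1, 0) :: u) v) (cI_cont (L := L) hm (q := q) (i := i) (j := j) (k := k) hb h h' ((-1, 1) :: u) v)
  have h3 : cg μ L i j k β q b Ba ((0, 1) :: u) Ba' v =
      EX μ L β (cI L i j k q b Ba ((0, 1) :: u) Ba' v) := rfl
  rw [h3, funext h1]
  exact h2

end forms

end

end Pool.Agent.Y15
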