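import Mathlib
import Pool.Agent.Y15.Soft

/-!
# The limit of the forms along an ultrafilter
-/

open MeasureTheory Matrix Filter
open scoped Matrix.Norms.Frobenius Topology
open Pool.Agent.H906R3.YM hiding Pl
open Pool.Agent.W793.YM Pool.Agent.TH618.YM

namespace Pool.Agent.Y15

set_option linter.unusedSectionVars false
set_option linter.unusedVariables false

noncomputable section

/-- the words -/
abbrev Wd := Bool × List (ℝ × ℝ)

/-- one more letter -/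
def hd1 (X : ℝ × ℝ) (u : Wd) : Wd := (u.1, X :: u.2)

lemma hd_iter (X : ℝ × ℝ) (n : ℕ) (u : Wd) :
    (hd1 X)^[n] u = (u.1, List.replicate n X ++ u.2) := by
  induction n with
  | zero => rfl
  | succ n ih =>
    rw [Function.iterate_succ_apply', ih]
    rfl

lemma ulim {x : ℕ → ℝ} {B : ℝ} (h : ∀ᶠ r in (hyperfilter ℕ : Filter ℕ), |x r| ≤ B) :
    ∃ l : ℝ, Tendsto x (hyperfilter ℕ : Filter ℕ) (𝓝 l) := by
  have h1 : Set.Icc (-B) B ∈ (hyperfilter ℕ).map x := by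
    rw [Ultrafilter.mem_map]
    refine Filter.mem_of_superset h fun r hr => ?_
    exact abs_le.1 hr
  obtain ⟨l, -, hl⟩ := isCompact_Icc.ultrafilter_le_nhds' ((hyperfilter ℕ).map x) h1
  exact ⟨l, hl⟩

variable {G : Type*} [Group G] [TopologicalSpace G]
  [IsTopologicalGroup G] [CompactSpace G] [SecondCountableTopology G] [MeasurableSpace G]
  [BorelSpace G] (μ : Measure G) [IsProbabilityMeasure μ] [μ.IsMulLeftInvariant]
  [μ.IsMulRightInvariant] [μ.IsInvInvariant] {N n : ℕ} {L : LD G N n}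
  {d : ℕ} {i j k : Fin d}

variable (L) in
/-- the form of two words -/
def cS (i j k : Fin d) (β : ℝ) (q : ℕ) (b : ℝ) (m : ℕ) [NeZero m] (u w : Wd) : ℝ :=
  cg (m := m) μ L i j k β q b (Bs i j k q u.1) u.2 (Bs i j k q w.1) w.2

section torus

variable (hij : i ≠ j) (hik : i ≠ k) (hjk : j ≠ k) {m : ℕ} [NeZero m] {β : ℝ} {q : ℕ} {b : ℝ}
  (hb : 0 < b) (hm : 2 ≤ m) (hq : 2 ^ (q + 1) < 2 * m) (hq3 : 3 * 2 ^ q ≤ 2 * m) {κ : ℝ} {c0 : ℝ}
  (hc0 : c0 = (Fintype.card (Cx N) : ℝ) * (1 / (2 * b)))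
  (hκ : κ = N * (c0 * (1 + c0) ^ (6 * 2 ^ q)))
include hij hik hjk hb hm

include hq hq3 hc0 hκ in
lemma cS_bd (u w : Wd) : |cS μ L i j k β q b m u w| ≤
    (Bw (κ * (28 * (3 * q + 1) / 2 ^ q)) u.2 * (N * 16 ^ (q + 1)) +
      Bw (κ * (28 * (3 * q + 1) / 2 ^ q)) w.2 * (N * 16 ^ (q + 1))) / 2 :=
  cg_abs μ hm hb (Bs_cont q u.1) (Bs_cont q w.1) u.2 w.2
    (fun M hM => hn_PH hij hik hjk hb hM hq hq3 hc0 hκ (Bs_hn hij hik hjk q u.1 hM) u.2 0)
    (fun M hM => hn_PH hij hik hjk hb hM hq hq3 hc0 hκ (Bs_hn hij hik hjk q w.1 hM) w.2 0)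

lemma cS_cs (u w : Wd) (hu : u.2.length * 2 ^ (q + 1) ≤ m) (hw : w.2.length * 2 ^ (q + 1) ≤ m) :
    cS μ L i j k β q b m u w ^ 2 ≤ cS μ L i j k β q b m u u * cS μ L i j k β q b m w w ∧
      0 ≤ cS μ L i j k β q b m u u :=
  cg_cs μ hij hik hjk hm hb (Bs_cont q u.1) (Bs_cont q w.1) (Bs_dep hij hik hjk q u.1)
    (Bs_dep hij hik hjk q w.1) u.2 w.2 hu hw

omit hm in
lemma cS_adj (X : ℝ × ℝ) (u w : Wd) :
    cS μ L i j k β q b m (hd1 X u) w = cS μ L i j k β q b m u (hd1 X w) :=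
  cg_adj μ hij hik hjk hb (Bs_cov hij hik hjk q u.1) (Bs_cov hij hik hjk q w.1) X u.2 w.2

omit hij hik hjk in
lemma cS_add (u w : Wd) : cS μ L i j k β q b m (hd1 (0, 1) u) w =
    cS μ L i j k β q b m (hd1 (1, 0) u) w + cS μ L i j k β q b m (hd1 (-1, 1) u) w :=
  cg_add μ hm hb (Bs_cont q u.1) (Bs_cont q w.1) u.2 w.2

include hq3 hc0 in
lemma cS_gT (u : Wd) (n : ℕ) (hn : n * 2 ^ (q + 1) ≤ m) :
    cS μ L i j k β q b m ((hd1 (1, 0))^[n] u) ((hd1 (1, 0))^[n] u) ≤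
      ((Kw (N * (1 + c0) ^ (6 * 2 ^ q)) u.2 * (Real.sqrt N * 16 ^ (q + 1))) *
        (Kw (N * (1 + c0) ^ (6 * 2 ^ q)) u.2 * (Real.sqrt N * 16 ^ (q + 1)))) *
        cS μ L i j k β q b m ((hd1 (1, 0))^[n] (false, [])) ((hd1 (1, 0))^[n] (false, [])) := by
  rw [hd_iter, hd_iter, List.append_nil]
  have h1 : cS μ L i j k β q b m (u.1, List.replicate n (1, 0) ++ u.2)
      (u.1, List.replicate n (1, 0) ++ u.2) = cg (m := m) μ L i j k β q b (Bs i j k q u.1) u.2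
        (Bs i j k q u.1) (List.replicate (2 * n) (1, 0) ++ u.2) := by
    have h2 := cg_rep μ (L := L) (m := m) (β := β) (q := q) hij hik hjk hb
      (Bs_cov hij hik hjk q u.1) (Bs_cov hij hik hjk q u.1) (1, 0) n u.2
      (List.replicate n (1, 0) ++ u.2)
    have h3 : List.replicate n ((1 : ℝ), (0 : ℝ)) ++ (List.replicate n (1, 0) ++ u.2) =
        List.replicate (2 * n) (1, 0) ++ u.2 := by
      rw [← List.append_assoc, ← List.replicate_add, two_mul]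
    rw [h3] at h2
    exact h2
  rw [h1]
  have hS : ∀ x y : Fin d → ZMod (2 * m), x i = 0 →
      y i = ((2 * n * 2 ^ (q + 1) : ℕ) : ZMod (2 * m)) →
      (EX μ L β fun U : Ed d (2 * m) → G => ‖Ke i j k q (2 * n) (L.mat U) x y‖ ^ 2) ≤
        cg (m := m) μ L i j k β q b (pin i 0) (List.replicate n (1, 0)) (pin i 0)
          (List.replicate n (1, 0)) :=
    fun x y hx hy => Ke_sup μ (L := L) (β := β) hij hik hjk hm hb n hn hx hy
  have hbd : ∀ M : Ed d (2 * m) → Mat N, Ctr M → ∀ x x', ‖Bs i j k q u.1 M x x'‖ ≤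
      Bm i j k N q u.1 x x' := fun M hM x x' => Bs_bd hij hik hjk q u.1 hM x x'
  have hcc : ∀ x x', Continuous fun U : Ed d (2 * m) → G => Bs i j k q u.1 (L.mat U) x x' :=
    Bs_cont (L := L) (i := i) (j := j) (k := k) q u.1
  have hsm : ∀ c : ZMod (2 * m), ∑ x ∈ pl i c, ∑ x' ∈ pl i c, Bm i j k N q u.1 x x' ≤
    Real.sqrt N * 16 ^ (q + 1) := Bm_sum hij hik hjk q u.1
  have h4 := cg_growth (K := N * (1 + c0) ^ (6 * 2 ^ q)) μ (L := L) (m := m) (β := β) (q := q)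
    hij hik hjk hb hq3 hc0 rfl (Ba := Bs i j k q u.1) (Ba' := Bs i j k q u.1) hcc hcc
    (ψ := Bm i j k N q u.1) (ψ' := Bm i j k N q u.1) hbd hbd
    (P := Real.sqrt N * 16 ^ (q + 1)) (P' := Real.sqrt N * 16 ^ (q + 1)) hsm hsm
    (S := cg (m := m) μ L i j k β q b (pin i 0) (List.replicate n (1, 0)) (pin i 0)
      (List.replicate n (1, 0))) hS u.2 u.2
  exact (le_abs_self _).trans h4

include hq hq3 hc0 hκ in
lemma cS_gD (u : Wd) (n : ℕ) :
    cS μ L i j k β q b m ((hd1 (-1, 1))^[n] u) ((hd1 (-1, 1))^[n] u) ≤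
      (Bw (κ * (28 * (3 * q + 1) / 2 ^ q)) u.2 * (N * 16 ^ (q + 1))) *
        ((κ * (28 * (3 * q + 1) / 2 ^ q)) ^ 2) ^ n := by
  rw [hd_iter]
  have h1 : ∀ M : Ed d (2 * m) → Mat N, Ctr M →
      hn i (PH i j k q b (Bs i j k q u.1) (List.replicate n (-1, 1) ++ u.2) M) 0 ≤
        ((κ * (28 * (3 * q + 1) / 2 ^ q)) ^ 2) ^ n *
          (Bw (κ * (28 * (3 * q + 1) / 2 ^ q)) u.2 * (N * 16 ^ (q + 1))) := fun M hM =>
    hn_PHD hij hik hjk hb hM hq hq3 hc0 hκ (Bs_hn hij hik hjk q u.1 hM) n u.2 0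
  have h2 := cg_abs μ (L := L) (β := β) hm hb (Bs_cont (L := L) q u.1) (Bs_cont (L := L) q u.1)
    (List.replicate n (-1, 1) ++ u.2) (List.replicate n (-1, 1) ++ u.2) h1 h1
  refine (le_abs_self _).trans (h2.trans (le_of_eq ?_))
  ring

lemma cS_Tn (n : ℕ) :
    cS μ L i j k β q b m ((hd1 (1, 0))^[n] (false, [])) ((hd1 (1, 0))^[n] (false, [])) ≤ N := by
  rw [hd_iter, List.append_nil]
  have h1 : ∀ M : Ed d (2 * m) → Mat N, Ctr M →
      hn i (PH i j k q b (Bs i j k q false) (List.replicate n (1, 0)) M) 0 ≤ N := fun M hM =>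
    hn_Tn hij hik hjk hM q n 0
  have h2 := cg_abs μ (L := L) (β := β) hm hb (Bs_cont (L := L) q false)
    (Bs_cont (L := L) q false) (List.replicate n (1, 0)) (List.replicate n (1, 0)) h1 h1
  refine (le_abs_self _).trans (h2.trans (le_of_eq ?_))
  ring

omit hm in
lemma cS_X (X : ℝ × ℝ) (n : ℕ) :
    cS μ L i j k β q b m ((hd1 X)^[n] (false, [])) ((hd1 X)^[n] (false, [])) =
      cg (m := m) μ L i j k β q b (pin i 0) [] (pin i 0) (List.replicate (2 * n) X) := by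
  rw [hd_iter, List.append_nil]
  have h2 := cg_rep μ (L := L) (m := m) (β := β) (q := q) hij hik hjk hb
      (Bs_cov hij hik hjk q false) (Bs_cov hij hik hjk q false) X n [] (List.replicate n X)
  rw [List.append_nil, ← List.replicate_add, ← two_mul] at h2
  exact h2

end torus

/-- **The limit.** -/
theorem soft_limit (hN : 1 ≤ N) (hij : i ≠ j) (hik : i ≠ k) (hjk : j ≠ k) {β : ℝ} {q : ℕ} {b : ℝ}
    (hb : 0 < b) {κ : ℝ} {c0 : ℝ} (hc0 : c0 = (Fintype.card (Cx N) : ℝ) * (1 / (2 * b)))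
    (hκ : κ = N * (c0 * (1 + c0) ^ (6 * 2 ^ q))) {e : ℝ}
    (he : e = κ * (28 * (3 * q + 1) / 2 ^ q)) {s : ℕ → ℕ} (hs : Tendsto s atTop atTop)
    (hov : ∀ᶠ r in (hyperfilter ℕ : Filter ℕ),
      (1 / 64) * cS μ L i j k β q b (s r + 1) (true, []) (true, []) ≤
        cS μ L i j k β q b (s r + 1) (true, []) (hd1 (1, 0) (true, [])) ∧
      1 ≤ cS μ L i j k β q b (s r + 1) (true, []) (true, [])) :
    ∃ Qf Pf : ℕ → ℝ, (∀ n, 0 < Qf n) ∧
      (∀ n, Tendsto (fun r => cg (m := s r + 1) μ L i j k β q b (pin i 0) [] (pin i 0)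
        (List.replicate (2 * n) (1, 0))) (hyperfilter ℕ : Filter ℕ) (𝓝 (Qf n))) ∧
      (∀ n, Tendsto (fun r => cg (m := s r + 1) μ L i j k β q b (pin i 0) [] (pin i 0)
        (List.replicate (2 * n) (0, 1))) (hyperfilter ℕ : Filter ℕ) (𝓝 (Pf n))) ∧
      ∀ η : ℝ, 0 < η → ∃ C : ℝ, 0 < C ∧ ∀ n : ℕ,
        Pf n ≤ C * ((1 + e / (1 / 64)) * Real.exp η) ^ (2 * n) * Qf n := by
  have hbig : ∀ M : ℕ, ∀ᶠ r in (hyperfilter ℕ : Filter ℕ), M ≤ s r + 1 := by
    intro M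
    have h1 : ∀ᶠ r in atTop, M ≤ s r := hs.eventually_ge_atTop M
    filter_upwards [h1.filter_mono Nat.hyperfilter_le_atTop] with r hr
    omega
  have hq0 : ∀ᶠ r in (hyperfilter ℕ : Filter ℕ), 2 ≤ s r + 1 ∧ 2 ^ (q + 1) < 2 * (s r + 1) ∧
      3 * 2 ^ q ≤ 2 * (s r + 1) := by
    filter_upwards [hbig 2, hbig (2 ^ (q + 1) + 1), hbig (3 * 2 ^ q)] with r h1 h2 h3
    exact ⟨h1, by omega, by omega⟩
  have hlim : ∀ u w : Wd, ∃ l : ℝ, Tendsto (fun r => cS μ L i j k β q b (s r + 1) u w)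
      (hyperfilter ℕ : Filter ℕ) (𝓝 l) := by
    intro u w
    refine ulim (B := (Bw (κ * (28 * (3 * q + 1) / 2 ^ q)) u.2 * (N * 16 ^ (q + 1)) +
      Bw (κ * (28 * (3 * q + 1) / 2 ^ q)) w.2 * (N * 16 ^ (q + 1))) / 2) ?_
    filter_upwards [hq0] with r hr
    exact cS_bd μ hij hik hjk hb hr.1 hr.2.1 hr.2.2 hc0 hκ u w
  choose c hc using hlim
  have he0 : 0 ≤ e := by
    rw [he, hκ, hc0]; positivity
  have key := growth c (hd1 (1, 0)) (hd1 (-1, 1)) (hd1 (0, 1)) (false, []) (true, [])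
    (d := e) (l0 := 1 / 64)
    (fun u w => by
      refine le_of_tendsto_of_tendsto ((hc u w).pow 2) ((hc u u).mul (hc w w)) ?_
      filter_upwards [hq0, hbig (u.2.length * 2 ^ (q + 1)), hbig (w.2.length * 2 ^ (q + 1))]
        with r h1 h2 h3
      exact (cS_cs μ hij hik hjk hb h1.1 u w h2 h3).1)
    (fun u => by
      refine ge_of_tendsto (hc u u) ?_
      filter_upwards [hq0, hbig (u.2.length * 2 ^ (q + 1))] with r h1 h2
      exact (cS_cs μ hij hik hjk hb h1.1 u u h2 h2).2)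
    (fun u w => by
      refine tendsto_nhds_unique (hc (hd1 (1, 0) u) w) ((hc u (hd1 (1, 0) w)).congr fun r => ?_)
      exact (cS_adj μ hij hik hjk hb (1, 0) u w).symm)
    (fun u w => by
      refine tendsto_nhds_unique (hc (hd1 (-1, 1) u) w) ((hc u (hd1 (-1, 1) w)).congr fun r => ?_)
      exact (cS_adj μ hij hik hjk hb (-1, 1) u w).symm)
    (fun u w => by
      refine tendsto_nhds_unique (hc (hd1 (0, 1) u) w)
        (((hc (hd1 (1, 0) u) w).add (hc (hd1 (-1, 1) u) w)).congr' ?_)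
      filter_upwards [hq0] with r h1
      exact (cS_add μ hb h1.1 u w).symm)
    (fun u => ⟨((Kw (N * (1 + c0) ^ (6 * 2 ^ q)) u.2 * (Real.sqrt N * 16 ^ (q + 1))) *
        (Kw (N * (1 + c0) ^ (6 * 2 ^ q)) u.2 * (Real.sqrt N * 16 ^ (q + 1)))), fun n => by
      refine le_of_tendsto_of_tendsto (hc _ _) ((hc _ _).const_mul _) ?_
      filter_upwards [hq0, hbig (n * 2 ^ (q + 1))] with r h1 h2
      exact cS_gT μ hij hik hjk hb h1.1 h1.2.2 hc0 u n h2⟩)
    (fun u => ⟨Bw e u.2 * (N * 16 ^ (q + 1)), fun n => by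
      refine le_of_tendsto (hc _ _) ?_
      filter_upwards [hq0] with r h1
      have h2 := cS_gD μ (L := L) (β := β) hij hik hjk hb h1.1 h1.2.1 h1.2.2 hc0 hκ u n
      rwa [← he] at h2⟩)
    ⟨N, fun n => by
      refine le_of_tendsto (hc _ _) ?_
      filter_upwards [hq0] with r h1
      exact cS_Tn μ hij hik hjk hb h1.1 n⟩
    he0
    (by
      refine lt_of_lt_of_le zero_lt_one (ge_of_tendsto (hc (true, []) (true, [])) ?_)
      filter_upwards [hov] with r h1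
      exact h1.2)
    (by norm_num)
    (by
      refine le_of_tendsto_of_tendsto ((hc _ _).const_mul _) (hc _ _) ?_
      filter_upwards [hov] with r h1
      exact h1.1)
  refine ⟨fun n => c ((hd1 (1, 0))^[n] (false, [])) ((hd1 (1, 0))^[n] (false, [])),
    fun n => c ((hd1 (0, 1))^[n] (false, [])) ((hd1 (0, 1))^[n] (false, [])),
    (key 1 zero_lt_one).1, fun n => ?_, fun n => ?_, fun η hη => (key η hη).2⟩
  · refine (hc _ _).congr fun r => ?_
    exact cS_X μ hij hik hjk hb (1, 0) n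
  · refine (hc _ _).congr fun r => ?_
    exact cS_X μ hij hik hjk hb (0, 1) n

end

end Pool.Agent.Y15
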