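import Mathlib
import Pool.Agent.Y15.Soft2
import Pool.Agent.Y15.PotF

/-!
# The energy of the chains, quantitatively
-/

open MeasureTheory Matrix Filter
open scoped Matrix.Norms.Frobenius Topology
open Pool.Agent.H906R3.YM hiding Pl
open Pool.Agent.W793.YM Pool.Agent.TH618.YM

namespace Pool.Agent.Y15

set_option linter.unusedSectionVars false
set_option linter.unusedVariables false

noncomputable section

/-- the scale -/
lemma scale {cA' c1 : ℝ} (hcA : 0 < cA') (hc1 : c1 = min (1 / 6) ((1 / (90 * cA')) ^ 2)) :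
    0 < c1 ∧ ∀ β : ℝ, max ((16 / c1) ^ 2) 3 ≤ β →
    1 ≤ Real.log β ∧ ∃ q : ℕ, 6 * (2 : ℝ) ^ q ≤ β ∧
      45 * (cA' * Real.log β / Real.sqrt β) * Real.sqrt (2 ^ q) ≤ 1 / 2 ∧
      (1 : ℝ) / 2 ^ q ≤ 2 * Real.log β ^ 2 / (c1 * β) := by
  have hc0 : 0 < c1 := by rw [hc1]; exact lt_min (by norm_num) (by positivity)
  have h6 : c1 ≤ 1 / 6 := by rw [hc1]; exact min_le_left _ _
  have h90 : c1 ≤ (1 / (90 * cA')) ^ 2 := by rw [hc1]; exact min_le_right _ _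
  refine ⟨hc0, fun β hβ => ?_⟩
  have hβ3 : 3 ≤ β := (le_max_right _ _).trans hβ
  have hβ0 : 0 < β := by linarith
  have hl1 : 1 ≤ Real.log β := by
    rw [Real.le_log_iff_exp_le hβ0]
    have := Real.exp_one_lt_d9
    linarith
  have hx : 1 ≤ c1 * (β / Real.log β ^ 2) := by
    have g1 : (16 / c1) ^ 2 ≤ β := (le_max_left _ _).trans hβ
    have g2 : 16 / c1 ≤ Real.sqrt β := Real.le_sqrt_of_sq_le g1
    have g3 : 0 < Real.sqrt β := Real.sqrt_pos.2 hβ0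
    have g4 : 0 < Real.sqrt (Real.sqrt β) := Real.sqrt_pos.2 g3
    have g5 : Real.log β ≤ 4 * Real.sqrt (Real.sqrt β) := by
      have f1 := Real.log_le_sub_one_of_pos g4
      rw [Real.log_sqrt g3.le, Real.log_sqrt hβ0.le] at f1
      linarith
    have g6 : Real.log β ^ 2 ≤ 16 * Real.sqrt β := by
      have f1 := pow_le_pow_left₀ (by linarith) g5 2
      rw [mul_pow, Real.sq_sqrt g3.le] at f1
      linarith
    have g7 : Real.sqrt β / 16 ≤ β / Real.log β ^ 2 := by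
      rw [div_le_div_iff₀ (by norm_num) (by positivity)]
      calc Real.sqrt β * Real.log β ^ 2 ≤ Real.sqrt β * (16 * Real.sqrt β) :=
            mul_le_mul_of_nonneg_left g6 g3.le
        _ = 16 * (Real.sqrt β * Real.sqrt β) := by ring
        _ = β * 16 := by rw [Real.mul_self_sqrt hβ0.le]; ring
    calc (1 : ℝ) = c1 * (16 / c1 / 16) := by field_simp
      _ ≤ c1 * (Real.sqrt β / 16) := mul_le_mul_of_nonneg_left (by linarith) hc0.le
      _ ≤ _ := mul_le_mul_of_nonneg_left g7 hc0.le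
  obtain ⟨q, hq1, hq2⟩ := exists_nat_pow_near hx (by norm_num : (1 : ℝ) < 2)
  have hl2 : 1 ≤ Real.log β ^ 2 := one_le_pow₀ hl1
  have hq3 : (2 : ℝ) ^ q ≤ c1 * β := by
    refine hq1.trans (mul_le_mul_of_nonneg_left ?_ hc0.le)
    exact div_le_self hβ0.le hl2
  refine ⟨hl1, q, by nlinarith, ?_, ?_⟩
  · have h1 : Real.sqrt (2 ^ q) ≤ Real.sqrt (c1 * (β / Real.log β ^ 2)) := Real.sqrt_le_sqrt hq1
    have h2 : Real.sqrt (c1 * (β / Real.log β ^ 2)) = Real.sqrt c1 * (Real.sqrt β / Real.log β) := by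
      rw [Real.sqrt_mul hc0.le, Real.sqrt_div hβ0.le, Real.sqrt_sq (by linarith)]
    have h3 : Real.sqrt c1 ≤ 1 / (90 * cA') := by
      rw [← Real.sqrt_sq (by positivity : 0 ≤ 1 / (90 * cA'))]
      exact Real.sqrt_le_sqrt h90
    have h4 : 0 < Real.sqrt β := Real.sqrt_pos.2 hβ0
    have hl0 : 0 < Real.log β := by linarith
    rw [h2] at h1
    calc 45 * (cA' * Real.log β / Real.sqrt β) * Real.sqrt (2 ^ q) ≤
        45 * (cA' * Real.log β / Real.sqrt β) * (Real.sqrt c1 * (Real.sqrt β / Real.log β)) :=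
          mul_le_mul_of_nonneg_left h1 (by positivity)
      _ = 45 * cA' * Real.sqrt c1 := by field_simp
      _ ≤ 45 * cA' * (1 / (90 * cA')) := mul_le_mul_of_nonneg_left h3 (by positivity)
      _ = 1 / 2 := by field_simp; norm_num
  · have h1 : c1 * (β / Real.log β ^ 2) < 2 * 2 ^ q := by
      rw [pow_succ (2 : ℝ) q] at hq2; linarith
    have hl0 : 0 < Real.log β ^ 2 := by linarith
    rw [div_le_div_iff₀ (by positivity) (by positivity), one_mul]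
    rw [mul_div_assoc'] at h1
    rw [div_lt_iff₀ hl0] at h1
    nlinarith

variable {G : Type*} [Group G] [TopologicalSpace G]
  [IsTopologicalGroup G] [CompactSpace G] [SecondCountableTopology G] [MeasurableSpace G]
  [BorelSpace G] (μ : Measure G) [IsProbabilityMeasure μ] [μ.IsMulLeftInvariant]
  [μ.IsMulRightInvariant] [μ.IsInvInvariant] {N n' : ℕ} {L : LD G N n'}
  {d : ℕ}

lemma card_Cx (N : ℕ) : (Fintype.card (Cx N) : ℝ) = 2 * N ^ 2 := by
  rw [Fintype.card_prod, Fintype.card_prod, Fintype.card_fin, Fintype.card_bool]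
  push_cast; ring

lemma kap_le {β : ℝ} (hβ : 0 < β) {N q : ℕ} {c0 κ : ℝ} (hc0 : c0 = 2 * N ^ 2 / β)
    (hκ : κ = N * (c0 * (1 + c0) ^ (6 * 2 ^ q))) (hq : 6 * (2 : ℝ) ^ q ≤ β) : κ ≤ cN N / β := by
  have h0 : 0 ≤ c0 := by rw [hc0]; positivity
  have h1 : (1 + c0) ^ (6 * 2 ^ q) ≤ Real.exp (2 * N ^ 2) := by
    have h2 : (1 + c0) ≤ Real.exp c0 := by
      have := Real.add_one_le_exp c0
      linarith
    refine (pow_le_pow_left₀ (by linarith) h2 _).trans ?_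
    rw [← Real.exp_nat_mul]
    refine Real.exp_le_exp.2 ?_
    push_cast
    rw [hc0, mul_div_assoc', div_le_iff₀ hβ]
    have h3 : (0 : ℝ) ≤ 2 * N ^ 2 := by positivity
    nlinarith
  rw [hκ]
  unfold cN
  calc (N : ℝ) * (c0 * (1 + c0) ^ (6 * 2 ^ q)) ≤ N * (c0 * Real.exp (2 * N ^ 2)) :=
        mul_le_mul_of_nonneg_left (mul_le_mul_of_nonneg_left h1 h0) (Nat.cast_nonneg N)
    _ = _ := by rw [hc0]; ring

lemma q_log {β : ℝ} {q : ℕ} (hq : 6 * (2 : ℝ) ^ q ≤ β) (hl : 1 ≤ Real.log β) :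
    (3 * q + 1 : ℝ) ≤ 6 * Real.log β := by
  have h1 : (0 : ℝ) < 2 ^ q := by positivity
  have h2 := pow_two_log (n := q) (x := β) (by linarith)
  linarith

lemma e_le {β : ℝ} (hβ : 0 < β) (hl : 1 ≤ Real.log β) {N q : ℕ} {c0 κ e c1 : ℝ}
    (hc1 : 0 < c1) (hc0 : c0 = 2 * N ^ 2 / β)
    (hκ : κ = N * (c0 * (1 + c0) ^ (6 * 2 ^ q))) (he : e = κ * (28 * (3 * q + 1) / 2 ^ q))
    (hq : 6 * (2 : ℝ) ^ q ≤ β) (hq2 : (1 : ℝ) / 2 ^ q ≤ 2 * Real.log β ^ 2 / (c1 * β)) :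
    66 * e / 2 ^ (q + 1) ≤ 22176 * cN N / c1 ^ 2 * Real.log β ^ 5 / β ^ 3 := by
  have hk := kap_le hβ hc0 hκ hq
  have hk0 : 0 ≤ cN N / β := div_nonneg (cN_nonneg N) hβ.le
  have h1 := q_log hq hl
  have h2 : (0 : ℝ) < 2 ^ q := by positivity
  have h3 : e ≤ cN N / β * (28 * (6 * Real.log β) * (2 * Real.log β ^ 2 / (c1 * β))) := by
    rw [he]
    have h4 : 28 * (3 * q + 1 : ℝ) / 2 ^ q ≤ 28 * (6 * Real.log β) *
        (2 * Real.log β ^ 2 / (c1 * β)) := by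
      rw [div_eq_mul_one_div]
      refine mul_le_mul (by linarith) hq2 (by positivity) (by positivity)
    exact mul_le_mul hk h4 (by positivity) hk0
  have h5 : 66 * e / 2 ^ (q + 1) = 33 * e * (1 / 2 ^ q) := by
    rw [pow_succ]; field_simp; ring
  rw [h5]
  have h6 : 0 ≤ cN N / β * (28 * (6 * Real.log β) * (2 * Real.log β ^ 2 / (c1 * β))) := by
    positivity
  calc 33 * e * (1 / 2 ^ q) ≤ 33 * (cN N / β * (28 * (6 * Real.log β) *
        (2 * Real.log β ^ 2 / (c1 * β)))) * (2 * Real.log β ^ 2 / (c1 * β)) :=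
        mul_le_mul (by linarith) hq2 (by positivity) (by positivity)
    _ = _ := by field_simp; ring

/-- a constant -/
def cO (N : ℕ) : ℝ := min (1 / 6) ((1 / (90 * cA N)) ^ 2)

/-- the threshold -/
def bO (N : ℕ) : ℝ := max ((16 / cO N) ^ 2) 3

/-- the constant of the bound of the energy -/
def CO (N : ℕ) : ℝ := 22176 * cN N / cO N ^ 2

lemma cO_pos (hN : 1 ≤ N) : 0 < cO N := (scale (cA_pos hN) rfl).1

lemma CO_pos (hN : 1 ≤ N) : 0 < CO N := by
  have h1 := cO_pos hN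
  have h2 := cN_pos hN
  unfold CO
  positivity

lemma bO_three (N : ℕ) : 3 ≤ bO N := le_max_right _ _

/-- **The energy of the chains.** -/
theorem soft_state (hN : 1 ≤ N) (hd : 3 ≤ d) : ∀ β : ℝ, bO N ≤ β →
      ∀ i j k τ : Fin d, i ≠ j → i ≠ k → j ≠ k → i ≠ τ → j ≠ τ → k ≠ τ →
      ∀ s : ℕ → ℕ, Tendsto s atTop atTop → ∃ q R₀ : ℕ, ∀ R : ℕ, R₀ ≤ R →
      ∃ n r : ℕ, R = n * 2 ^ (q + 1) + r ∧ ∃ a : ℝ, 0 < a ∧ ∀ (t : ℕ) (w : ℝ),
        Tendsto (fun x => Wc (m := s x + 1) μ L τ (pt i (eT τ) 0)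
          (pt i (eT τ) ((n * 2 ^ (q + 1) : ℕ) : ZMod (2 * (s x + 1))) + r • eT i) β
          (PS L (fun _ => (Fintype.card (Ch q n) : ℝ)⁻¹) (wS i j k q n r (pt i (eT τ) 0)
            (pt i (eT τ) ((n * 2 ^ (q + 1) : ℕ) : ZMod (2 * (s x + 1)))))) t)
          (hyperfilter ℕ : Filter ℕ) (𝓝 w) →
        a * Real.exp (-(CO N * Real.log β ^ 5 / β ^ 3 * R * t)) ≤ w := by
  obtain ⟨c1, hcc⟩ : ∃ c1, c1 = cO N := ⟨_, rfl⟩
  have hCO : CO N = 22176 * cN N / c1 ^ 2 := by rw [hcc]; rfl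
  rw [hCO]
  obtain ⟨hc1, hsc⟩ := scale (cA_pos hN) hcc
  have hcN := cN_pos hN
  intro β hβ i j k τ hij hik hjk hiτ hjτ hkτ s hs
  have hβ3 : 3 ≤ β := (bO_three N).trans hβ
  unfold bO at hβ
  rw [← hcc] at hβ
  have hβ0 : 0 < β := by linarith
  have hN' : (1 : ℝ) ≤ N := by exact_mod_cast hN
  obtain ⟨hl1, q, hq6, hδ, hq2⟩ := hsc β hβ
  obtain ⟨c0, hc0⟩ : ∃ c0 : ℝ, c0 = (Fintype.card (Cx N) : ℝ) * (1 / (2 * (β / 2))) := ⟨_, rfl⟩
  have hc0' : c0 = 2 * N ^ 2 / β := by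
    rw [hc0, card_Cx]; field_simp
  have hc00 : 0 < c0 := by rw [hc0']; positivity
  obtain ⟨κ, hκ⟩ : ∃ κ : ℝ, κ = N * (c0 * (1 + c0) ^ (6 * 2 ^ q)) := ⟨_, rfl⟩
  have hκ0 : 0 < κ := by rw [hκ]; positivity
  obtain ⟨e, he⟩ : ∃ e : ℝ, e = κ * (28 * (3 * q + 1) / 2 ^ q) := ⟨_, rfl⟩
  have he0 : 0 < e := by rw [he]; positivity
  have hrate := e_le hβ0 hl1 hc1 hc0' hκ he hq6 hq2
  have hbig : ∀ M : ℕ, ∀ᶠ r in (hyperfilter ℕ : Filter ℕ), M ≤ s r + 1 := by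
    intro M
    have h1 : ∀ᶠ r in atTop, M ≤ s r := hs.eventually_ge_atTop M
    filter_upwards [h1.filter_mono Nat.hyperfilter_le_atTop] with r hr
    omega
  obtain ⟨κ', hκ'⟩ : ∃ κ' : ℝ, κ' = cA N * Real.log β / Real.sqrt β := ⟨_, rfl⟩
  have hsβ : 0 < Real.sqrt β := Real.sqrt_pos.2 hβ0
  have hcA := cA_pos hN
  have hκ'0 : 0 ≤ κ' := by
    rw [hκ']
    have : 0 ≤ Real.log β := by linarith
    positivity
  have hov : ∀ᶠ r in (hyperfilter ℕ : Filter ℕ),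
      (1 / 64) * cS μ L i j k β q (β / 2) (s r + 1) (true, []) (true, []) ≤
        cS μ L i j k β q (β / 2) (s r + 1) (true, []) (hd1 (1, 0) (true, [])) ∧
      1 ≤ cS μ L i j k β q (β / 2) (s r + 1) (true, []) (true, []) := by
    filter_upwards [hbig 2, hbig (2 ^ (q + 1)), hbig (3 * 2 ^ q)] with r h1 h2 h3
    refine te_overlap μ hij hik hjk h1 hN (by omega) hκ'0 (fun t ht a b ha hb => ?_) ?_ _
    · have h5 : (2 : ℝ) ^ t ≤ 2 ^ (q + 1) := pow_le_pow_right₀ (by norm_num) ht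
      have h6 : 3 * ((2 ^ t : ℕ) : ℝ) ≤ β := by
        push_cast
        rw [pow_succ] at h5
        linarith
      have h7 : 2 ^ t ≤ s r + 1 := (Nat.pow_le_pow_right (by norm_num) ht).trans h2
      have h8 : κ' * Real.sqrt (2 ^ t) = cA N * Real.log β * Real.sqrt (((2 ^ t : ℕ) : ℝ) / β) := by
        push_cast
        rw [Real.sqrt_div (by positivity), hκ']; ring
      rw [h8]
      exact ⟨tor_low' μ hN hd hβ3 (s r + 1) h1 (Ne.symm hik) a b (2 ^ t) ha hb h6 h7,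
        tor_low' μ hN hd hβ3 (s r + 1) h1 (Ne.symm hij) a b (2 ^ t) ha hb h6 h7,
        tor_low' μ hN hd hβ3 (s r + 1) h1 (Ne.symm hjk) a b (2 ^ t) ha hb h6 h7⟩
    · rw [hκ']
      refine hδ.trans ?_
      have : 1 ≤ Real.sqrt N := by
        rw [show (1 : ℝ) = Real.sqrt 1 by rw [Real.sqrt_one]]
        exact Real.sqrt_le_sqrt hN'
      linarith
  obtain ⟨Qf, Pf, hQ0, hQl, hPl, hgr⟩ := soft_limit μ (L := L) hN hij hik hjk (β := β) (q := q)
    (b := β / 2) (by positivity) hc0 hκ he hs hov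
  obtain ⟨Ce, hCe, hgr'⟩ := hgr e he0
  obtain ⟨R₀, hR₀⟩ := exists_nat_ge ((2 ^ (q + 2) * c0 + |Real.log (2 * Ce)|) * 2 ^ (q + 1) / e)
  refine ⟨q, R₀, fun R hR => ?_⟩
  obtain ⟨ν, hν⟩ : ∃ ν, ν = R / 2 ^ (q + 2) := ⟨_, rfl⟩
  obtain ⟨r, hr⟩ : ∃ r, r = R % 2 ^ (q + 2) := ⟨_, rfl⟩
  have hRr : R = 2 * ν * 2 ^ (q + 1) + r := by
    rw [hν, hr]
    have h1 := Nat.div_add_mod R (2 ^ (q + 2))
    have h2 : 2 ^ (q + 2) = 2 * 2 ^ (q + 1) := by rw [pow_succ]; ring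
    rw [h2] at h1 ⊢
    nlinarith
  have hr2 : r < 2 ^ (q + 2) := by rw [hr]; exact Nat.mod_lt _ (by positivity)
  refine ⟨2 * ν, r, hRr, Qf ν, hQ0 ν, fun t w hw => ?_⟩
  obtain ⟨A, hA⟩ : ∃ A : ℝ, A = (1 + e / (1 / 64)) * Real.exp e := ⟨_, rfl⟩
  have hA0 : 0 < A := by rw [hA]; positivity
  obtain ⟨P', hP'⟩ : ∃ P' : ℝ, P' = 2 * Ce * A ^ (2 * ν) * Qf ν := ⟨_, rfl⟩
  have hQν := hQ0 ν
  have hP'0 : 0 < P' := by rw [hP']; positivity
  have hPP : Pf ν < P' := by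
    have h1 := hgr' ν
    rw [← hA] at h1
    have h2 : 0 < Ce * A ^ (2 * ν) * Qf ν := by positivity
    rw [hP']
    linarith
  have hQQ : ∀ x : ℕ, cg (m := s x + 1) μ L i j k β q (β / 2) (pin i (eT τ)) [] (pin i (eT τ))
      (List.replicate (2 * ν) (1, 0)) = cg (m := s x + 1) μ L i j k β q (β / 2) (pin i 0) []
        (pin i 0) (List.replicate (2 * ν) (1, 0)) := fun x =>
    cg_pin_tr μ q (β / 2) [] (List.replicate (2 * ν) (1, 0)) (eT τ)
  have hPQ : ∀ x : ℕ, cg (m := s x + 1) μ L i j k β q (β / 2) (pin i (eT τ)) [] (pin i (eT τ))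
      (List.replicate (2 * ν) (0, 1)) = cg (m := s x + 1) μ L i j k β q (β / 2) (pin i 0) []
        (pin i 0) (List.replicate (2 * ν) (0, 1)) := fun x =>
    cg_pin_tr μ q (β / 2) [] (List.replicate (2 * ν) (0, 1)) (eT τ)
  have hmain : (Qf ν / ((1 + c0) ^ r * P')) ^ t * Qf ν ≤ w := by
    refine le_of_tendsto_of_tendsto ((((hQl ν).div_const ((1 + c0) ^ r * P')).pow t).mul
      (hQl ν)) hw ?_
    filter_upwards [hbig 2, hbig (3 * 2 ^ q), hbig R, hbig t,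
      (hPl ν).eventually_le_const hPP, (hQl ν).eventually_const_lt (hQ0 ν)]
      with x h1 h2 h3 h4 h5 h6
    have h8 : 3 * 2 ^ q ≤ 2 * (s x + 1) := by omega
    have h9 : 2 * ν * 2 ^ (q + 1) + r ≤ 2 * (s x + 1) := by
      rw [← hRr]; omega
    have h7 := (chain_energy μ (L := L) hij hik hjk h1 hβ0 hiτ hjτ hkτ h8 h9 (z := eT τ)
      (eT_same τ) rfl rfl hc0 (P := P') rfl
      (by rw [hPQ]; exact h5) (by rw [hQQ]; exact h6) hP'0).2 t h4
    rw [hQQ] at h7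
    exact h7
  refine le_trans ?_ hmain
  rw [mul_comm]
  refine mul_le_mul_of_nonneg_right ?_ hQν.le
  -- the rate
  have hrate2 : Real.exp (-(22176 * cN N / c1 ^ 2 * Real.log β ^ 5 / β ^ 3 * R)) ≤
      Qf ν / ((1 + c0) ^ r * P') := by
    have h1 : Qf ν / ((1 + c0) ^ r * P') = ((1 + c0) ^ r * (2 * Ce) * A ^ (2 * ν))⁻¹ := by
      rw [hP']; field_simp
    rw [h1, Real.exp_neg]
    refine inv_anti₀ (by positivity) ?_
    have h2 : (1 + c0) ^ r ≤ Real.exp (r * c0) := by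
      rw [Real.exp_nat_mul]
      refine pow_le_pow_left₀ (by linarith) ?_ _
      have := Real.add_one_le_exp c0
      linarith
    have h3 : 2 * Ce = Real.exp (Real.log (2 * Ce)) := (Real.exp_log (by positivity)).symm
    have h4 : A ^ (2 * ν) ≤ Real.exp ((2 * ν : ℕ) * (65 * e)) := by
      rw [Real.exp_nat_mul]
      refine pow_le_pow_left₀ hA0.le ?_ _
      rw [hA]
      have h5 : 1 + e / (1 / 64) ≤ Real.exp (64 * e) := by
        have := Real.add_one_le_exp (64 * e)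
        have h6 : e / (1 / 64) = 64 * e := by ring
        linarith
      calc (1 + e / (1 / 64)) * Real.exp e ≤ Real.exp (64 * e) * Real.exp e :=
            mul_le_mul_of_nonneg_right h5 (Real.exp_pos _).le
        _ = Real.exp (65 * e) := by rw [← Real.exp_add]; congr 1; ring
    have h7 : (1 + c0) ^ r * (2 * Ce) * A ^ (2 * ν) ≤
        Real.exp (r * c0 + Real.log (2 * Ce) + (2 * ν : ℕ) * (65 * e)) := by
      rw [Real.exp_add, Real.exp_add, ← h3]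
      exact mul_le_mul (mul_le_mul_of_nonneg_right h2 (by positivity)) h4 (by positivity)
        (by positivity)
    refine h7.trans (Real.exp_le_exp.2 ?_)
    -- arithmetic
    have h8 : (r : ℝ) * c0 ≤ 2 ^ (q + 2) * c0 := by
      refine mul_le_mul_of_nonneg_right ?_ hc00.le
      have : (r : ℝ) ≤ ((2 ^ (q + 2) : ℕ) : ℝ) := by exact_mod_cast hr2.le
      simpa using this
    have h9 : Real.log (2 * Ce) ≤ |Real.log (2 * Ce)| := le_abs_self _
    have h2q : (0 : ℝ) < 2 ^ (q + 1) := by positivity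
    have h10 : (2 ^ (q + 2) * c0 + |Real.log (2 * Ce)|) ≤ e * R / 2 ^ (q + 1) := by
      have h11 : (2 ^ (q + 2) * c0 + |Real.log (2 * Ce)|) * 2 ^ (q + 1) / e ≤ R :=
        hR₀.trans (by exact_mod_cast hR)
      rw [div_le_iff₀ he0] at h11
      rw [le_div_iff₀ h2q]
      linarith
    have h12 : ((2 * ν : ℕ) : ℝ) * 2 ^ (q + 1) ≤ R := by
      have h13 : 2 * ν * 2 ^ (q + 1) ≤ R := by omega
      exact_mod_cast h13
    have h13 : ((2 * ν : ℕ) : ℝ) * (65 * e) ≤ 65 * e * R / 2 ^ (q + 1) := by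
      rw [le_div_iff₀ h2q]
      nlinarith
    have h14 : e * R / 2 ^ (q + 1) + 65 * e * R / 2 ^ (q + 1) = (66 * e / 2 ^ (q + 1)) * R := by
      ring
    have h15 := mul_le_mul_of_nonneg_right hrate (Nat.cast_nonneg R : (0 : ℝ) ≤ R)
    linarith
  have h16 := pow_le_pow_left₀ (Real.exp_pos _).le hrate2 t
  refine le_trans (le_of_eq ?_) h16
  rw [← Real.exp_nat_mul]
  congr 1; ring

end

end Pool.Agent.Y15
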