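import Mathlib
import Pool.Agent.Y15.Soft3

/-!
# The paths of the chains on the infinite lattice
-/

open MeasureTheory Matrix Filter
open scoped Matrix.Norms.Frobenius Topology
open Pool.Agent.H906R3.YM hiding Pl
open Pool.Agent.W793.YM hiding dest
open Pool.Agent.TH618.YM

namespace Pool.Agent.Y15

set_option linter.unusedSectionVars false
set_option linter.unusedVariables false

noncomputable section

section words

variable {d : ℕ}

/-- the end of the path from a point with given steps -/
def dz : (Fin d → ℤ) → List (Fin d × Bool) → (Fin d → ℤ)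
  | x, [] => x
  | x, (k, true) :: w => dz (x + Pi.single k 1) w
  | x, (k, false) :: w => dz (x - Pi.single k 1) w

lemma dz_add (x z : Fin d → ℤ) (w : List (Fin d × Bool)) : dz (x + z) w = dz x w + z := by
  induction w generalizing x with
  | nil => rfl
  | cons s w ih =>
    obtain ⟨k, b⟩ := s
    cases b
    · show dz (x + z - Pi.single k 1) w = dz (x - Pi.single k 1) w + z
      rw [← ih]; congr 1; abel
    · show dz (x + z + Pi.single k 1) w = dz (x + Pi.single k 1) w + z
      rw [← ih]; congr 1; abel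

lemma dz_append (x : Fin d → ℤ) (w w' : List (Fin d × Bool)) :
    dz x (w ++ w') = dz (dz x w) w' := by
  induction w generalizing x with
  | nil => rfl
  | cons s w ih =>
    obtain ⟨k, b⟩ := s
    cases b
    · exact ih _
    · exact ih _

lemma dz_rep (x : Fin d → ℤ) (i : Fin d) (r : ℕ) :
    dz x (List.replicate r (i, true)) = x + Pi.single i (r : ℤ) := by
  induction r generalizing x with
  | zero =>
    show x = x + Pi.single i ((0 : ℕ) : ℤ)
    rw [Nat.cast_zero, Pi.single_zero, add_zero]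
  | succ r ih =>
    rw [List.replicate_succ]
    show dz (x + Pi.single i 1) (List.replicate r (i, true)) = _
    rw [ih, add_assoc, ← Pi.single_add]
    push_cast
    rw [add_comm (1 : ℤ)]

lemma dz_abs (x : Fin d → ℤ) (w : List (Fin d × Bool)) (c : Fin d) :
    |dz x w c - x c| ≤ w.length := by
  induction w generalizing x with
  | nil => simp [dz]
  | cons s w ih =>
    obtain ⟨k, b⟩ := s
    have h1 : |(Pi.single k 1 : Fin d → ℤ) c| ≤ 1 := by
      by_cases h : c = k
      · subst h; simp
      · simp [h]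
    rw [abs_le] at h1
    have h3 : (((k, b) :: w).length : ℤ) = w.length + 1 := by simp
    rw [h3]
    cases b
    · have h2 := ih (x - Pi.single k 1)
      rw [abs_le] at h2 ⊢
      have h4 : (x - Pi.single k 1 : Fin d → ℤ) c = x c - (Pi.single k 1 : Fin d → ℤ) c := rfl
      rw [h4] at h2
      show _ ≤ dz (x - Pi.single k 1) w c - x c ∧ dz (x - Pi.single k 1) w c - x c ≤ _
      constructor <;> linarith [h1.1, h1.2, h2.1, h2.2]
    · have h2 := ih (x + Pi.single k 1)
      rw [abs_le] at h2 ⊢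
      have h4 : (x + Pi.single k 1 : Fin d → ℤ) c = x c + (Pi.single k 1 : Fin d → ℤ) c := rfl
      rw [h4] at h2
      show _ ≤ dz (x + Pi.single k 1) w c - x c ∧ dz (x + Pi.single k 1) w c - x c ≤ _
      constructor <;> linarith [h1.1, h1.2, h2.1, h2.2]

variable {G : Type*} [Group G]

/-- the parallel transporter of the path from a point with given steps -/
def hz (V : Ez d → G) : (Fin d → ℤ) → List (Fin d × Bool) → G
  | _, [] => 1
  | x, (k, true) :: w => V (x, k) * hz V (x + Pi.single k 1) w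
  | x, (k, false) :: w => (V (x - Pi.single k 1, k))⁻¹ * hz V (x - Pi.single k 1) w

lemma hz_tr (V : Ez d → G) (z x : Fin d → ℤ) (w : List (Fin d × Bool)) :
    hz (fun e => V (e.1 + z, e.2)) x w = hz V (x + z) w := by
  induction w generalizing x with
  | nil => rfl
  | cons s w ih =>
    obtain ⟨k, b⟩ := s
    cases b
    · show (V (x - Pi.single k 1 + z, k))⁻¹ * hz (fun e => V (e.1 + z, e.2)) (x - Pi.single k 1) w =
        (V (x + z - Pi.single k 1, k))⁻¹ * hz V (x + z - Pi.single k 1) w
      rw [ih, sub_add_eq_add_sub]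
    · show V (x + z, k) * hz (fun e => V (e.1 + z, e.2)) (x + Pi.single k 1) w =
        V (x + z, k) * hz V (x + z + Pi.single k 1) w
      rw [ih, add_right_comm]

lemma lf_tr {l : ℕ} (U : Ed d l → G) (z : Fin d → ℤ) :
    W793.YM.lf (tr (zt l z) U) = fun e => W793.YM.lf U (e.1 + z, e.2) := by
  funext e
  show U (zt l e.1 + zt l z, e.2) = U (zt l (e.1 + z), e.2)
  congr 2
  funext c
  show ((e.1 c : ℤ) : ZMod l) + ((z c : ℤ) : ZMod l) = ((e.1 c + z c : ℤ) : ZMod l)
  push_cast; rfl

lemma hz_lf_tr {l : ℕ} (U : Ed d l → G) (z x : Fin d → ℤ) (w : List (Fin d × Bool)) :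
    hz (W793.YM.lf (tr (zt l z) U)) x w = hz (W793.YM.lf U) (x + z) w := by
  rw [lf_tr, hz_tr]

lemma hz_cont [TopologicalSpace G] [IsTopologicalGroup G] (x : Fin d → ℤ)
    (w : List (Fin d × Bool)) : Continuous fun V : Ez d → G => hz V x w := by
  induction w generalizing x with
  | nil => exact continuous_const
  | cons s w ih =>
    obtain ⟨k, b⟩ := s
    cases b
    · exact (continuous_apply _).inv.mul (ih _)
    · exact (continuous_apply _).mul (ih _)

/-- the steps of a path -/
def stp {l : ℕ} (w : List (Ed d l × Bool)) : List (Fin d × Bool) := w.map fun s => (s.1.2, s.2)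

lemma stp_append {l : ℕ} (w w' : List (Ed d l × Bool)) : stp (w ++ w') = stp w ++ stp w' :=
  List.map_append

lemma hz_pg {l : ℕ} (U : Ed d l → G) (w : List (Ed d l × Bool)) (x : Fin d → ℤ)
    (y : Fin d → ZMod l) (h : isP (zt l x) w y) :
    hz (W793.YM.lf U) x (stp w) = pg U w ∧ zt l (dz x (stp w)) = y := by
  induction w generalizing x with
  | nil =>
    unfold isP at h
    exact ⟨rfl, h⟩
  | cons s w ih =>
    obtain ⟨⟨e, k⟩, b⟩ := s
    unfold isP at h
    rw [pg_cons]
    cases b
    · simp only [Bool.false_eq_true, if_false] at h ⊢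
      have h1 : e = zt l (x - Pi.single k 1) := by
        have h2 := zt_sub (l := l) x k
        rw [← h.1] at h2
        exact (add_right_cancel h2).symm
      obtain ⟨h3, h4⟩ := ih (x - Pi.single k 1) (by rw [← h1]; exact h.2)
      refine ⟨?_, h4⟩
      show (W793.YM.lf U (x - Pi.single k 1, k))⁻¹ * hz (W793.YM.lf U) (x - Pi.single k 1) (stp w) = _
      rw [h3, h1]
      rfl
    · simp only [if_true] at h ⊢
      obtain ⟨h3, h4⟩ := ih (x + Pi.single k 1) (by rw [zt_add]; exact h.2)
      refine ⟨?_, h4⟩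
      show W793.YM.lf U (x, k) * hz (W793.YM.lf U) (x + Pi.single k 1) (stp w) = _
      rw [h3, h.1]
      rfl

lemma stp_sg {l : ℕ} (i : Fin d) (r : ℕ) (x : Fin d → ZMod l) :
    stp (sg i r x) = List.replicate r (i, true) := by
  induction r generalizing x with
  | zero => rfl
  | succ r ih =>
    rw [List.replicate_succ]
    show (i, true) :: stp (sg i r (x + eT i)) = _
    rw [ih]

lemma zt_nsmul' {l : ℕ} (x : Fin d → ℤ) (i : Fin d) (k : ℕ) :
    zt l (x + Pi.single i (k : ℤ)) = zt l x + k • eT i := by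
  funext j
  unfold zt
  rw [Pi.add_apply, Pi.add_apply, smul_eT]
  by_cases h : j = i
  · subst h; simp
  · simp [h]

lemma hz_ln {l : ℕ} (U : Ed d l → G) (i : Fin d) (r : ℕ) (x : Fin d → ℤ) :
    hz (W793.YM.lf U) x (List.replicate r (i, true)) = ln U i r (zt l x) := by
  rw [← pg_sg, ← stp_sg i r (zt l x)]
  exact (hz_pg U _ x _ (isP_sg i r (zt l x))).1

lemma stp_rev {l : ℕ} (w : List (Ed d l × Bool)) :
    stp (rev w) = ((stp w).map fun s => (s.1, !s.2)).reverse := by
  unfold stp rev
  rw [List.map_reverse, List.map_map, List.map_map]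
  rfl

lemma stp_mr {l : ℕ} (i : Fin d) (c : ZMod l) (w : List (Ed d l × Bool)) :
    stp (mr i c w) = (stp w).map fun s => if s.1 = i then (s.1, !s.2) else s := by
  unfold stp mr
  rw [List.map_map, List.map_map]
  refine List.map_congr_left fun s _ => ?_
  simp only [Function.comp_apply]
  unfold ml
  split_ifs with h
  · simp only [h]
  · rfl

end words

section chain

variable {d : ℕ} (i j k : Fin d)

/-- steps of a segment -/
def sSg (t r a b : ℕ) : List (Fin d × Bool) :=
  List.replicate r (i, true) ++ (List.replicate a (j, true) ++ (List.replicate b (k, true) ++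
    List.replicate (2 ^ t - r) (i, true)))

/-- steps of a half block -/
def sHf : ∀ q, Om q → List (Fin d × Bool)
  | 0, _ => List.replicate 1 (i, true)
  | t + 1, (ω, r, a, b) => sHf t ω ++ sSg i j k t r a b

/-- steps of a block -/
def sBl (q : ℕ) (b : Om q × Om q) : List (Fin d × Bool) :=
  sHf i j k q b.1 ++ ((((sHf i j k q b.2).map fun s => if s.1 = i then (s.1, !s.2) else s)).map
    fun s => (s.1, !s.2)).reverse

/-- steps of a chain -/
def sCh (q : ℕ) : ∀ n, Ch q n → List (Fin d × Bool)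
  | 0, _ => []
  | n + 1, (b, ω) => sBl i j k q b ++ sCh q n ω

variable {i j k} {l : ℕ}

lemma stp_seg (t r a b : ℕ) (y : Fin d → ZMod l) :
    stp (seg i j k t r a b y) = sSg i j k t r a b := by
  unfold seg sSg
  rw [stp_append, stp_append, stp_append, stp_sg, stp_sg, stp_sg, stp_sg]

lemma stp_Hf (q : ℕ) (ω : Om q) (x : Fin d → ZMod l) :
    stp (Hf i j k q ω x) = sHf i j k q ω := by
  induction q generalizing x with
  | zero => exact stp_sg i 1 x
  | succ t ih =>
    obtain ⟨ω, r, a, b⟩ := ω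
    show stp (Hf i j k t ω x ++ seg i j k t r a b (x + (2 ^ t) • eT i + Dt j k t ω)) = _
    rw [stp_append, ih, stp_seg]
    rfl

lemma stp_bl (q : ℕ) (b : Om q × Om q) (x : Fin d → ZMod l) :
    stp (bl i j k q b x) = sBl i j k q b := by
  unfold bl sBl
  rw [stp_append, stp_Hf, stp_rev, stp_mr, stp_Hf]

lemma stp_chl (q n : ℕ) (ω : Ch q n) (x : Fin d → ZMod l) :
    stp (chl i j k q n ω x) = sCh i j k q n ω := by
  induction n generalizing x with
  | zero => rfl
  | succ n ih =>
    obtain ⟨b, ω⟩ := ω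
    rw [chl_succ, stp_append, stp_bl, ih]
    rfl

variable (hij : i ≠ j) (hik : i ≠ k) (hjk : j ≠ k)
include hij hik hjk

lemma length_sCh (q n : ℕ) (ω : Ch q n) : (sCh i j k q n ω).length ≤ n * (6 * 2 ^ q) := by
  have h1 := length_chl (l := 1) hij hik hjk q n ω 0
  rw [← stp_chl (l := 1) q n ω 0]
  unfold stp
  rw [List.length_map]
  exact h1

lemma dir_sCh {τ : Fin d} (hiτ : i ≠ τ) (hjτ : j ≠ τ) (hkτ : k ≠ τ) (q n : ℕ) (ω : Ch q n) :
    ∀ s ∈ sCh i j k q n ω, s.1 ≠ τ := by
  intro s hs
  rw [← stp_chl (l := 1) q n ω 0] at hs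
  unfold stp at hs
  obtain ⟨e, he, rfl⟩ := List.mem_map.1 hs
  obtain ⟨h1, -, -⟩ := chl_lev hij hik hjk q n ω (List.mem_map_of_mem he)
  show e.1.2 ≠ τ
  rcases h1 with h1 | h1 | h1 <;> rw [h1] <;> assumption

/-- the condition on the displacement -/
lemma CI_iff [NeZero l] {τ : Fin d} (hiτ : i ≠ τ) {q n : ℕ} (hl : n * (6 * 2 ^ q) + n * 2 ^ (q + 1) < l)
    (ω : Ch q n) : (pt i (eT τ) 0 + chd i j k q n ω : Fin d → ZMod l) =
      pt i (eT τ) ((n * 2 ^ (q + 1) : ℕ) : ZMod l) ↔
    dz 0 (sCh i j k q n ω) = Pi.single i ((n * 2 ^ (q + 1) : ℕ) : ℤ) := by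
  have ho : (pt i (eT τ) 0 : Fin d → ZMod l) = zt l (Pi.single τ 1) := by
    funext c
    by_cases hc : c = i
    · subst hc
      rw [pt_i]
      unfold zt
      rw [Pi.single_eq_of_ne hiτ, Int.cast_zero]
    · rw [pt_ne hc]
      unfold zt eT
      by_cases hτ : c = τ
      · subst hτ; simp
      · simp [hτ]
  have hy : (pt i (eT τ) ((n * 2 ^ (q + 1) : ℕ) : ZMod l) : Fin d → ZMod l) =
      zt l (Pi.single i ((n * 2 ^ (q + 1) : ℕ) : ℤ) + Pi.single τ 1) := by
    funext c
    by_cases hc : c = i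
    · subst hc
      rw [pt_i]
      unfold zt
      rw [Pi.add_apply, Pi.single_eq_of_ne hiτ, Pi.single_eq_same, add_zero, Int.cast_natCast]
    · rw [pt_ne hc]
      unfold zt eT
      rw [Pi.add_apply, Pi.single_eq_of_ne hc, zero_add]
      by_cases hτ : c = τ
      · subst hτ; simp
      · simp [hτ]
  have h1 := isP_chl hij hik hjk q n ω (pt i (eT τ) 0 : Fin d → ZMod l)
  have h2 : zt l (dz (Pi.single τ 1) (sCh i j k q n ω)) =
      (pt i (eT τ) 0 + chd i j k q n ω : Fin d → ZMod l) := by
    rw [← stp_chl (l := l) q n ω (pt i (eT τ) 0)]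
    refine (hz_pg (G := Multiplicative ℤ) (fun _ => 1) _ _ _ ?_).2
    rw [← ho]; exact h1
  have h3 : dz (Pi.single τ 1) (sCh i j k q n ω) = dz 0 (sCh i j k q n ω) + Pi.single τ 1 := by
    rw [← dz_add, zero_add]
  rw [← h2, h3, hy]
  constructor
  · intro h
    funext c
    have h4 : ((dz 0 (sCh i j k q n ω) + Pi.single τ 1 : Fin d → ℤ) c : ZMod l) =
        ((Pi.single i ((n * 2 ^ (q + 1) : ℕ) : ℤ) + Pi.single τ 1 : Fin d → ℤ) c : ZMod l) :=
      congrFun h c
    rw [Pi.add_apply, Pi.add_apply, Int.cast_add, Int.cast_add] at h4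
    have h5 := add_right_cancel h4
    rw [ZMod.intCast_eq_intCast_iff_dvd_sub] at h5
    have h6 := dz_abs 0 (sCh i j k q n ω) c
    rw [Pi.zero_apply, sub_zero] at h6
    have h7 : ((sCh i j k q n ω).length : ℤ) ≤ (n * (6 * 2 ^ q) : ℕ) := by
      exact_mod_cast length_sCh hij hik hjk q n ω
    have h8 : |(Pi.single i ((n * 2 ^ (q + 1) : ℕ) : ℤ) : Fin d → ℤ) c| ≤
        (n * 2 ^ (q + 1) : ℕ) := by
      by_cases hc : c = i
      · subst hc
        rw [Pi.single_eq_same, abs_of_nonneg (by positivity)]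
      · rw [Pi.single_eq_of_ne hc, abs_zero]; positivity
    have h9 := Int.eq_zero_of_abs_lt_dvd h5 (by
      refine lt_of_le_of_lt (abs_sub _ _) ?_
      have hl' : ((n * (6 * 2 ^ q) : ℕ) : ℤ) + ((n * 2 ^ (q + 1) : ℕ) : ℤ) < l := by
        exact_mod_cast hl
      linarith)
    linarith
  · intro h
    rw [h]

end chain

end

end Pool.Agent.Y15
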