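import Mathlib
import Pool.Agent.Y15.Zl

/-!
# The states of the chains in the infinite volume
-/

open MeasureTheory Matrix Filter
open scoped Matrix.Norms.Frobenius Topology
open Pool.Agent.H906R3.YM hiding Pl
open Pool.Agent.W793.YM hiding dest
open Pool.Agent.TH618.YM

namespace Pool.Agent.Y15

set_option linter.unusedSectionVars false
set_option linter.unusedVariables false

noncomputable section

variable {G : Type*} [Group G] [TopologicalSpace G]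
  [IsTopologicalGroup G] [CompactSpace G] [SecondCountableTopology G] [MeasurableSpace G]
  [BorelSpace G] (μ : Measure G) [IsProbabilityMeasure μ] [μ.IsMulLeftInvariant]
  [μ.IsMulRightInvariant] [μ.IsInvInvariant] {N n' : ℕ} {L : LD G N n'}
  {d : ℕ}

lemma ip_rho3 (g0 g1 X Y : G) : ip (L.rho g0 * L.rho X * (L.rho g1)ᴴ) (L.rho Y) =
    rt L (Y * g1 * X⁻¹ * g0⁻¹) := by
  have hmm : ∀ g h : G, L.rho (g * h) = L.rho g * L.rho h := fun g h => map_mul _ _ _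
  rw [← L.rho_inv, ← hmm, ← hmm, ip_apply, ← L.rho_inv, ← hmm]
  show rt L ((g0 * X * g1⁻¹)⁻¹ * Y) = _
  rw [← rt_conj Y ((g0 * X * g1⁻¹)⁻¹ * Y)]
  congr 1
  group

lemma ip_PS {ι : Type*} [Fintype ι] (a : ι → ℝ) (X Y : ι → G) (g0 g1 : G) :
    ip (L.rho g0 * (∑ p, a p • L.rho (X p)) * (L.rho g1)ᴴ) (∑ p, a p • L.rho (Y p)) =
      ∑ p, ∑ p', a p * a p' * rt L (Y p * g1 * (X p')⁻¹ * g0⁻¹) := by
  rw [map_sum]
  refine Finset.sum_congr rfl fun p _ => ?_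
  rw [ip_smul_r, Finset.mul_sum, Finset.sum_mul, ip_sum_l, Finset.mul_sum]
  refine Finset.sum_congr rfl fun p' _ => ?_
  rw [mul_smul_comm, smul_mul_assoc, ip_smul', ip_rho3]
  ring

/-- the integrand of the correlation of a state -/
def Gc (L : LD G N n') (τ : Fin d) (x y : Fin d → ℤ) {ι : Type*} [Fintype ι] (c : ι → ℝ)
    (w : ι → List (Fin d × Bool)) (t : ℕ) (V : Ez d → G) : ℝ :=
  ∑ p, ∑ p', c p * c p' * rt L (hz V x (w p) * hz V y (List.replicate t (τ, true)) *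
    (hz V (x + Pi.single τ (t : ℤ)) (w p'))⁻¹ * (hz V x (List.replicate t (τ, true)))⁻¹)

lemma Gc_tr (τ : Fin d) (x y z : Fin d → ℤ) {ι : Type*} [Fintype ι] (c : ι → ℝ)
    (w : ι → List (Fin d × Bool)) (t : ℕ) {l : ℕ} (U : Ed d l → G) :
    Gc L τ (x + z) (y + z) c w t (W793.YM.lf U) = Gc L τ x y c w t (W793.YM.lf (tr (zt l z) U)) := by
  unfold Gc
  simp only [hz_lf_tr, add_right_comm x z]

lemma EX_Gc_tr {l : ℕ} [NeZero l] (β : ℝ) (τ : Fin d) (x y z : Fin d → ℤ) {ι : Type*} [Fintype ι]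
    (c : ι → ℝ) (w : ι → List (Fin d × Bool)) (t : ℕ) :
    EX μ L β (fun U : Ed d l → G => Gc L τ (x + z) (y + z) c w t (W793.YM.lf U)) =
      EX μ L β (fun U : Ed d l → G => Gc L τ x y c w t (W793.YM.lf U)) := by
  simp only [Gc_tr]
  exact EX_tr μ (zt l z) (fun U : Ed d l → G => Gc L τ x y c w t (W793.YM.lf U))

lemma Gc_equiv (τ : Fin d) (x y : Fin d → ℤ) {ι κ : Type*} [Fintype ι] [Fintype κ] (e : ι ≃ κ)
    (c : κ → ℝ) (w : κ → List (Fin d × Bool)) (t : ℕ) (V : Ez d → G) :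
    Gc L τ x y (fun p => c (e p)) (fun p => w (e p)) t V = Gc L τ x y c w t V := by
  unfold Gc
  rw [← e.sum_comp]
  refine Finset.sum_congr rfl fun p _ => ?_
  rw [← e.sum_comp]

lemma Wc_Gc {m : ℕ} [NeZero m] (τ : Fin d) (p0 p1 : Fin d → ℤ) {ι : Type} [Fintype ι]
    (c : ι → ℝ) (w' : ι → List (Ed d (2 * m) × Bool))
    (hw : ∀ p, isP (zt (2 * m) p0) (w' p) (zt (2 * m) p1)) (β : ℝ) (t : ℕ) :
    Wc μ L τ (zt (2 * m) p0) (zt (2 * m) p1) β (PS L c w') t =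
      EX μ L β fun U : Ed d (2 * m) → G =>
        Gc L τ p0 p1 c (fun p => stp (w' p)) t (W793.YM.lf U) := by
  unfold Wc
  refine congrArg (EX (l := 2 * m) μ L β) (funext fun U => ?_)
  have e0 : (t • eT τ : Fin d → ZMod (2 * m)) = zt (2 * m) (Pi.single τ (t : ℤ)) := by
    have h1 := zt_nsmul' (l := 2 * m) (0 : Fin d → ℤ) τ t
    rw [zero_add] at h1
    rw [h1]
    have h2 : zt (2 * m) (0 : Fin d → ℤ) = 0 := by
      funext c; unfold zt; simp
    rw [h2, zero_add]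
  have e1 : ∀ p, pg U (w' p) = hz (W793.YM.lf U) p0 (stp (w' p)) := fun p =>
    (hz_pg U (w' p) p0 _ (hw p)).1.symm
  have e2 : ∀ p, pg (tr (t • eT τ) U) (w' p) =
      hz (W793.YM.lf U) (p0 + Pi.single τ (t : ℤ)) (stp (w' p)) := by
    intro p
    rw [e0, ← hz_lf_tr]
    exact (hz_pg (tr (zt (2 * m) (Pi.single τ (t : ℤ))) U) (w' p) p0 _ (hw p)).1.symm
  unfold Hn PS
  rw [ip_PS]
  unfold Gc
  simp only [e1, e2, hz_ln]

/-- two further directions -/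
lemma two_dir (hd : 4 ≤ d) (i τ : Fin d) : ∃ j k : Fin d,
    i ≠ j ∧ i ≠ k ∧ j ≠ k ∧ j ≠ τ ∧ k ≠ τ := by
  classical
  have h1 : 1 < (({i, τ} : Finset (Fin d))ᶜ).card := by
    rw [Finset.card_compl, Fintype.card_fin]
    have := Finset.card_le_two (a := i) (b := τ)
    omega
  obtain ⟨j, hj, k, hk, hjk⟩ := Finset.one_lt_card.1 h1
  simp only [Finset.mem_compl, Finset.mem_insert, Finset.mem_singleton, not_or] at hj hk
  exact ⟨j, k, Ne.symm hj.1, Ne.symm hk.1, hjk, hj.2, hk.2⟩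

/-- the correlations of the chains on the torus -/
lemma torus_eq {m : ℕ} [NeZero m] {i j k τ : Fin d} (hij : i ≠ j) (hik : i ≠ k) (hjk : j ≠ k)
    (hiτ : i ≠ τ) {q n r R : ℕ} (hRr : R = n * 2 ^ (q + 1) + r)
    (hl : n * (6 * 2 ^ q) + n * 2 ^ (q + 1) < 2 * m) {κ : Type*} [Fintype κ]
    (e : κ ≃ {ω : Ch q n // dz 0 (sCh i j k q n ω) =
      Pi.single i ((n * 2 ^ (q + 1) : ℕ) : ℤ)}) (β a : ℝ) (t : ℕ) (x : Fin d → ℤ) :
    EX μ L β (fun U : Ed d (2 * m) → G => Gc L τ x (x + Pi.single i (R : ℤ)) (fun _ => a)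
      (fun p => sCh i j k q n (e p).1 ++ List.replicate r (i, true)) t (W793.YM.lf U)) =
    Wc μ L τ (pt i (eT τ) 0) (pt i (eT τ) ((n * 2 ^ (q + 1) : ℕ) : ZMod (2 * m)) + r • eT i) β
      (PS L (fun _ => a) (wS i j k q n r (pt i (eT τ) 0)
        (pt i (eT τ) ((n * 2 ^ (q + 1) : ℕ) : ZMod (2 * m))))) t := by
  classical
  have hiff := fun ω : Ch q n => CI_iff (l := 2 * m) hij hik hjk hiτ hl ω
  have ho : (pt i (eT τ) 0 : Fin d → ZMod (2 * m)) = zt (2 * m) (Pi.single τ 1) := by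
    funext c
    by_cases hc : c = i
    · subst hc
      rw [pt_i]
      unfold zt
      rw [Pi.single_eq_of_ne hiτ, Int.cast_zero]
    · rw [pt_ne hc]
      unfold zt eT
      by_cases hτ : c = τ
      · subst hτ; simp
      · simp [hτ]
  have hy : (pt i (eT τ) ((n * 2 ^ (q + 1) : ℕ) : ZMod (2 * m)) + r • eT i :
      Fin d → ZMod (2 * m)) = zt (2 * m) (Pi.single τ 1 + Pi.single i (R : ℤ)) := by
    rw [zt_nsmul', ← ho, hRr, add_smul, ← add_assoc]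
    congr 1
    funext c
    rw [Pi.add_apply, smul_eT]
    by_cases hc : c = i
    · subst hc
      rw [pt_i, pt_i, if_pos rfl, zero_add]
    · rw [pt_ne hc, pt_ne hc, if_neg hc, add_zero]
  obtain ⟨o, hoo⟩ : ∃ o : Fin d → ZMod (2 * m), o = pt i (eT τ) 0 := ⟨_, rfl⟩
  obtain ⟨y, hyy⟩ : ∃ y : Fin d → ZMod (2 * m), y =
    pt i (eT τ) ((n * 2 ^ (q + 1) : ℕ) : ZMod (2 * m)) := ⟨_, rfl⟩
  rw [← hyy] at hy
  rw [← hoo, ← hyy]
  rw [← hoo] at ho
  rw [← hoo, ← hyy] at hiff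
  have hP : ∀ ω : CI i j k q n o y, isP (zt (2 * m) (Pi.single τ 1)) (wS i j k q n r o y ω)
      (zt (2 * m) (Pi.single τ 1 + Pi.single i (R : ℤ))) := by
    intro ω
    rw [← ho, ← hy]
    have h1 := isP_chl hij hik hjk q n ω.1 o
    have h2 : o + chd i j k q n ω.1 = y := ω.2
    rw [h2] at h1
    unfold wS
    exact isP_append h1 (isP_sg i r y)
  rw [hy]
  have h1 := Wc_Gc μ (L := L) τ (Pi.single τ 1) (Pi.single τ 1 + Pi.single i (R : ℤ))
    (fun _ => a) (wS i j k q n r o y) hP β t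
  rw [← ho] at h1
  rw [h1]
  obtain ⟨e', he'⟩ : ∃ e' : κ ≃ CI i j k q n o y, e' = e.trans (Equiv.subtypeEquivRight
    fun ω => (hiff ω).symm) := ⟨_, rfl⟩
  have h2 : ∀ p, stp (wS i j k q n r o y (e' p)) = sCh i j k q n (e p).1 ++
      List.replicate r (i, true) := by
    intro p
    unfold wS
    rw [stp_append, stp_chl, stp_sg, he']
    rfl
  have h3 := EX_Gc_tr μ (L := L) (l := 2 * m) β τ (Pi.single τ 1)
    (Pi.single τ 1 + Pi.single i (R : ℤ)) (x - Pi.single τ 1) (fun _ : κ => a)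
    (fun p => sCh i j k q n (e p).1 ++ List.replicate r (i, true)) t
  have h4 : (Pi.single τ 1 + (x - Pi.single τ 1) : Fin d → ℤ) = x := by abel
  have h5 : (Pi.single τ 1 + Pi.single i (R : ℤ) + (x - Pi.single τ 1) : Fin d → ℤ) =
    x + Pi.single i (R : ℤ) := by abel
  rw [h4, h5] at h3
  rw [h3]
  refine congrArg (EX (l := 2 * m) μ L β) (funext fun U => ?_)
  rw [← Gc_equiv τ _ _ e' (fun _ => a) (fun ω => stp (wS i j k q n r o y ω))]
  simp only [h2]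

/-- **The states of the chains in the infinite volume.** -/
theorem soft_zl (hN : 1 ≤ N) (hd : 4 ≤ d) : ∀ β : ℝ, bO N ≤ β → ∀ i τ : Fin d, i ≠ τ →
      ∀ s : ℕ → ℕ, Tendsto s atTop atTop → ∃ R₀ : ℕ, ∀ R : ℕ, R₀ ≤ R →
      ∃ (M : ℕ) (c : Fin M → ℝ) (w : Fin M → List (Fin d × Bool)),
        (∀ p, dz 0 (w p) = Pi.single i (R : ℤ) ∧ (∀ e ∈ w p, e.1 ≠ τ) ∧
          (w p).length ≤ 3 * R) ∧
        ∃ a : ℝ, 0 < a ∧ ∀ (x : Fin d → ℤ) (t : ℕ) (v : ℝ),
          Tendsto (fun k => EX μ L β fun U : Ed d (2 * (s k + 1)) → G =>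
            Gc L τ x (x + Pi.single i (R : ℤ)) c w t (W793.YM.lf U)) atTop (𝓝 v) →
          a * Real.exp (-(CO N * Real.log β ^ 5 / β ^ 3 * R * t)) ≤ v := by
  classical
  have hmain := soft_state μ (L := L) (d := d) hN (by omega)
  refine fun β hβ i τ hiτ s hs => ?_
  obtain ⟨j, k, hij, hik, hjk, hjτ, hkτ⟩ := two_dir hd i τ
  obtain ⟨q, R₀, hq⟩ := hmain β hβ i j k τ hij hik hjk hiτ hjτ hkτ s hs
  refine ⟨R₀, fun R hR => ?_⟩
  obtain ⟨n, r, hRr, a, ha, H⟩ := hq R hR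
  obtain ⟨J, hJ⟩ : ∃ J : Type, J = {ω : Ch q n // dz 0 (sCh i j k q n ω) =
    Pi.single i ((n * 2 ^ (q + 1) : ℕ) : ℤ)} := ⟨_, rfl⟩
  subst hJ
  obtain ⟨e⟩ : Nonempty (Fin (Fintype.card {ω : Ch q n // dz 0 (sCh i j k q n ω) =
      Pi.single i ((n * 2 ^ (q + 1) : ℕ) : ℤ)}) ≃ {ω : Ch q n // dz 0 (sCh i j k q n ω) =
      Pi.single i ((n * 2 ^ (q + 1) : ℕ) : ℤ)}) := ⟨(Fintype.equivFin _).symm⟩
  refine ⟨_, fun _ => (Fintype.card (Ch q n) : ℝ)⁻¹, fun p => sCh i j k q n (e p).1 ++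
    List.replicate r (i, true), fun p => ⟨?_, ?_, ?_⟩, a, ha, fun x t v hv => ?_⟩
  · rw [dz_append, (e p).2, dz_rep, ← Pi.single_add, hRr]
    push_cast; rfl
  · intro s hs'
    rw [List.mem_append] at hs'
    rcases hs' with h | h
    · exact dir_sCh hij hik hjk hiτ hjτ hkτ q n _ s h
    · rw [List.eq_of_mem_replicate h]
      exact hiτ
  · rw [List.length_append, List.length_replicate]
    have h1 := length_sCh hij hik hjk q n (e p).1
    have h2 : n * (6 * 2 ^ q) = 3 * (n * 2 ^ (q + 1)) := by rw [pow_succ]; ring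
    rw [h2] at h1
    omega
  · refine H t v ?_
    have hv' := hv.mono_left Nat.hyperfilter_le_atTop
    refine hv'.congr' ?_
    have hbig : ∀ᶠ x in (hyperfilter ℕ : Filter ℕ),
        n * (6 * 2 ^ q) + n * 2 ^ (q + 1) ≤ s x := by
      have h1 : ∀ᶠ r in atTop, n * (6 * 2 ^ q) + n * 2 ^ (q + 1) ≤ s r :=
        hs.eventually_ge_atTop _
      exact h1.filter_mono Nat.hyperfilter_le_atTop
    filter_upwards [hbig] with b hb
    exact torus_eq μ (L := L) (m := s b + 1) hij hik hjk hiτ hRr (by omega) e β _ t x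

end

end Pool.Agent.Y15
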