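import Mathlib
import Pool.Agent.Y15.Zl2

/-!
# A single path
-/

open MeasureTheory Matrix Filter
open scoped Matrix.Norms.Frobenius Topology
open Pool.Agent.H906R3.YM hiding Pl
open Pool.Agent.W793.YM hiding dest
open Pool.Agent.TH618.YM

namespace Pool.Agent.Y15

set_option linter.unusedSectionVars false
set_option linter.unusedVariables false

noncomputable section

section lcl

lemma lc_pos {x : ℕ → ℝ} (hn : ∀ n, 0 ≤ x n)
    (hlc : ∀ n, x (n + 1) ^ 2 ≤ x n * x (n + 2)) (h0 : 0 < x 0) (hf : ∃ᶠ n in atTop, 0 < x n) :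
    ∀ n, 0 < x n := by
  intro n
  rcases (hn n).lt_or_eq with h | h
  · exact h
  · exfalso
    have h1 : ∀ k, x (n + k) = 0 := by
      intro k
      induction k with
      | zero => exact h.symm
      | succ k ih =>
        have h2 := hlc (n + k)
        rw [ih, zero_mul] at h2
        have h3 : x (n + k + 1) ^ 2 = 0 := le_antisymm h2 (sq_nonneg _)
        exact pow_eq_zero_iff (two_ne_zero) |>.1 h3
    obtain ⟨k, hk, hk2⟩ := (frequently_atTop.1 hf) n
    obtain ⟨r, rfl⟩ := Nat.exists_eq_add_of_le hk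
    rw [h1 r] at hk2
    exact lt_irrefl _ hk2

/-- the rate of a log-convex sequence -/
lemma lc_lim {x : ℕ → ℝ} (hn : ∀ n, 0 ≤ x n) (hle : ∀ n, x n ≤ 1)
    (hlc : ∀ n, x (n + 1) ^ 2 ≤ x n * x (n + 2)) (h0 : x 0 = 1) {E a : ℝ} (ha : 0 < a)
    (hf : ∃ᶠ n : ℕ in atTop, a * Real.exp (-(E * n)) ≤ x n) :
    (∀ n, 0 < x n) ∧ ∃ V, Tendsto (fun n : ℕ => -Real.log (x n) / n) atTop (𝓝 V) ∧
      0 ≤ V ∧ V ≤ E := by
  have hp : ∀ n, 0 < x n := lc_pos hn hlc (by rw [h0]; exact one_pos)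
    (hf.mono fun n h => lt_of_lt_of_le (by positivity) h)
  -- ratios increase
  have hr : ∀ n, x (n + 1) / x n ≤ x (n + 2) / x (n + 1) := by
    intro n
    rw [div_le_div_iff₀ (hp _) (hp _)]
    have := hlc n
    nlinarith
  have hr' : Monotone fun n => x (n + 1) / x n := monotone_nat_of_le_succ hr
  have hsup : ∀ m n, x m * x n ≤ x (m + n) := by
    intro m n
    induction n with
    | zero => rw [h0, mul_one, add_zero]
    | succ n ih =>
      have h1 : x (n + 1) / x n ≤ x (m + n + 1) / x (m + n) := hr' (by omega)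
      rw [div_le_div_iff₀ (hp _) (hp _)] at h1
      have h2 : x m * x (n + 1) * x n ≤ x (m + n + 1) * x n := by
        calc x m * x (n + 1) * x n = x (n + 1) * (x m * x n) := by ring
          _ ≤ x (n + 1) * x (m + n) := mul_le_mul_of_nonneg_left ih (hp _).le
          _ ≤ _ := h1
      exact le_of_mul_le_mul_right h2 (hp n)
  have hsub : Subadditive fun n => -Real.log (x n) := by
    intro m n
    have h1 := Real.log_le_log (mul_pos (hp m) (hp n)) (hsup m n)
    rw [Real.log_mul (hp m).ne' (hp n).ne'] at h1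
    simp only
    linarith
  have hnn : ∀ n : ℕ, 0 ≤ -Real.log (x n) := fun n => by
    have := Real.log_nonpos (hp n).le (hle n)
    linarith
  have hb : BddBelow (Set.range fun n : ℕ => -Real.log (x n) / n) :=
    ⟨0, by rintro _ ⟨n, rfl⟩; exact div_nonneg (hnn n) (Nat.cast_nonneg n)⟩
  have hlim := hsub.tendsto_lim hb
  refine ⟨hp, hsub.lim, hlim, ?_, ?_⟩
  · exact ge_of_tendsto' hlim fun n => div_nonneg (hnn n) (Nat.cast_nonneg n)
  · have h1 : Tendsto (fun n : ℕ => Real.log a / n) atTop (𝓝 0) :=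
      tendsto_const_div_atTop_nhds_zero_nat _
    have h2 := hlim.add h1
    rw [add_zero] at h2
    refine le_of_tendsto_of_frequently h2 ?_
    refine (hf.and_eventually (eventually_gt_atTop 0)).mono fun n hn' => ?_
    obtain ⟨h3, h4⟩ := hn'
    have h5 : (0 : ℝ) < n := by exact_mod_cast h4
    have h6 := Real.log_le_log (by positivity) h3
    rw [Real.log_mul ha.ne' (Real.exp_pos _).ne', Real.log_exp] at h6
    rw [← add_div, div_le_iff₀ h5]
    linarith

lemma freq_fin {ι : Type*} [Finite ι] {P : ι → ℕ → Prop} (h : ∃ᶠ n in atTop, ∃ p, P p n) :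
    ∃ p, ∃ᶠ n in atTop, P p n := by
  by_contra hc
  push Not at hc
  refine h ?_
  have h1 : ∀ᶠ n in atTop, ∀ p, ¬ P p n := by
    rw [eventually_all]
    exact hc
  exact h1.mono fun n hn ⟨p, hp⟩ => hn p hp

end lcl

variable {G : Type*} [Group G] [TopologicalSpace G]
  [IsTopologicalGroup G] [CompactSpace G] [SecondCountableTopology G] [MeasurableSpace G]
  [BorelSpace G] (μ : Measure G) [IsProbabilityMeasure μ] [μ.IsMulLeftInvariant]
  [μ.IsMulRightInvariant] [μ.IsInvInvariant] {N n' : ℕ} {L : LD G N n'}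
  {d : ℕ}

section torus

variable {m : ℕ} [NeZero m] {τ : Fin d} {p0 p1 : Fin d → ZMod (2 * m)}
  {S : (Ed d (2 * m) → G) → Mat N}

/-- nonnegativity at odd times -/
lemma Wc_odd (hm : 2 ≤ m) {β : ℝ} (hβ : 0 ≤ β)
    (hS : IsS L τ p0 p1 S) (h0 : p0 τ = 1) (h1 : p1 τ = 1) {s : ℕ}
    (hs : s + 1 ≤ m) : 0 ≤ Wc μ L τ p0 p1 β S (2 * s + 1) := by
  obtain ⟨κ, hκ0, hκ⟩ := EX_red μ (L := L) hm τ β
  have a1 : 2 * s + 1 = s + 1 + s := by ring
  rw [a1, Wc_cross μ hm hκ hS h0 h1 hs hs]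
  exact mul_nonneg hκ0.le (mat_cs μ (L := L) (TR hm τ) hβ (Sm_cont (wR L β m τ)) (wR_dep hm β τ)
    (Hn_cont hS.cont s) (Hn_dep hm hS h0 h1 hs) (Hn_cont hS.cont s) (Hn_dep hm hS h0 h1 hs)).2

/-- nonnegativity at even times -/
lemma Wc_even (hm : 2 ≤ m) {β : ℝ}
    (hS : IsS L τ p0 p1 S) (h0 : p0 τ = 1) (h1 : p1 τ = 1) {s : ℕ}
    (hs : s ≤ m) : 0 ≤ Wc μ L τ p0 p1 β S (2 * s) := by
  have key : Wc μ L τ p0 p1 β S (s + s) =
      EX μ L β fun U => ∑ c ∈ (Finset.univ : Finset (Cx N)),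
        co c (Hz L τ p0 p1 s S ((SR hm τ).tU U)) * co c (Hz L τ p0 p1 s S U) := by
    have e1 : (fun U => ∑ c ∈ (Finset.univ : Finset (Cx N)),
        co c (Hz L τ p0 p1 s S ((SR hm τ).tU U)) * co c (Hz L τ p0 p1 s S U)) =
        fun U => (fun V => ip (Hn L τ p0 p1 (s + s) S V) (S V))
          (tr (-((s + 1) • eT τ)) U) := by
      funext U
      rw [← ip_sum_co, Hz_cross hm hS h0 h1, ip_comm]
    have e2 := EX_tr μ (L := L) (β := β) (-((s + 1) • eT τ))
      (fun V : Ed d (2 * m) → G => ip (Hn L τ p0 p1 (s + s) S V) (S V))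
    rw [e1, e2]
    rfl
  rw [two_mul, key]
  exact (srp_cs μ (L := L) hm τ β (Finset.univ : Finset (Cx N))
    (f := fun c U => co c (Hz L τ p0 p1 s S U)) (g := fun c U => co c (Hz L τ p0 p1 s S U))
    (fun c => (co c).continuous.comp (Hz_cont hS.cont s))
    (fun c U U' h => by
      show co c (Hz L τ p0 p1 s S U) = co c (Hz L τ p0 p1 s S U')
      rw [Hz_dep hm hS h0 h1 hs U U' h])
    (fun c => (co c).continuous.comp (Hz_cont hS.cont s))
    (fun c U U' h => by
      show co c (Hz L τ p0 p1 s S U) = co c (Hz L τ p0 p1 s S U')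
      rw [Hz_dep hm hS h0 h1 hs U U' h])).2

lemma Wc_nn (hm : 2 ≤ m) {β : ℝ} (hβ : 0 ≤ β)
    (hS : IsS L τ p0 p1 S) (h0 : p0 τ = 1) (h1 : p1 τ = 1) {t : ℕ}
    (ht : t + 1 ≤ m) : 0 ≤ Wc μ L τ p0 p1 β S t := by
  rcases Nat.even_or_odd' t with ⟨k, hk | hk⟩
  · rw [hk]; exact Wc_even μ hm hS h0 h1 (by omega)
  · rw [hk]; exact Wc_odd μ hm hβ hS h0 h1 (by omega)

end torus

section wl

variable {l : ℕ}

/-- the list of the links of a path -/
def wl (l : ℕ) : (Fin d → ℤ) → List (Fin d × Bool) → List (Ed d l × Bool)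
  | _, [] => []
  | x, (k, true) :: w => ((zt l x, k), true) :: wl l (x + Pi.single k 1) w
  | x, (k, false) :: w => ((zt l (x - Pi.single k 1), k), false) :: wl l (x - Pi.single k 1) w

lemma stp_wl (x : Fin d → ℤ) (w : List (Fin d × Bool)) : stp (wl l x w) = w := by
  induction w generalizing x with
  | nil => rfl
  | cons s w ih =>
    obtain ⟨k, b⟩ := s
    cases b
    · show (k, false) :: stp (wl l (x - Pi.single k 1) w) = _
      rw [ih]
    · show (k, true) :: stp (wl l (x + Pi.single k 1) w) = _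
      rw [ih]

lemma isP_wl (x : Fin d → ℤ) (w : List (Fin d × Bool)) :
    isP (zt l x) (wl l x w) (zt l (dz x w)) := by
  induction w generalizing x with
  | nil => rfl
  | cons s w ih =>
    obtain ⟨k, b⟩ := s
    cases b
    · show isP (zt l x) (((zt l (x - Pi.single k 1), k), false) :: wl l (x - Pi.single k 1) w)
        (zt l (dz (x - Pi.single k 1) w))
      unfold isP
      simp only [Bool.false_eq_true, if_false]
      exact ⟨zt_sub x k, ih _⟩
    · show isP (zt l x) (((zt l x, k), true) :: wl l (x + Pi.single k 1) w)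
        (zt l (dz (x + Pi.single k 1) w))
      unfold isP
      simp only [if_true, true_and]
      have := ih (x + Pi.single k 1)
      rw [zt_add] at this
      exact this

lemma lay_wl {m : ℕ} {τ : Fin d} {x : Fin d → ℤ} (hx : x τ = 1) {w : List (Fin d × Bool)}
    (hw : ∀ e ∈ w, e.1 ≠ τ) : lay τ (wl (2 * m) x w) := by
  induction w generalizing x with
  | nil => intro s hs; simp [wl] at hs
  | cons s w ih =>
    obtain ⟨k, b⟩ := s
    have hk : k ≠ τ := hw (k, b) (by simp)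
    have hk' : (Pi.single k 1 : Fin d → ℤ) τ = 0 := Pi.single_eq_of_ne (Ne.symm hk) _
    have hw' : ∀ e ∈ w, e.1 ≠ τ := fun e he => hw e (by simp [he])
    cases b
    · have h1 : (x - Pi.single k 1 : Fin d → ℤ) τ = 1 := by
        rw [Pi.sub_apply, hk', hx, sub_zero]
      intro s hs
      have hs' : s ∈ ((zt (2 * m) (x - Pi.single k 1), k), false) ::
        wl (2 * m) (x - Pi.single k 1) w := hs
      rcases List.mem_cons.1 hs' with h | h
      · subst h
        refine ⟨hk, ?_⟩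
        show (((x - Pi.single k 1 : Fin d → ℤ) τ : ℤ) : ZMod (2 * m)) = 1
        rw [h1, Int.cast_one]
      · exact ih h1 hw' s h
    · have h1 : (x + Pi.single k 1 : Fin d → ℤ) τ = 1 := by
        rw [Pi.add_apply, hk', hx, add_zero]
      intro s hs
      have hs' : s ∈ ((zt (2 * m) x, k), true) :: wl (2 * m) (x + Pi.single k 1) w := hs
      rcases List.mem_cons.1 hs' with h | h
      · subst h
        refine ⟨hk, ?_⟩
        show (((x : Fin d → ℤ) τ : ℤ) : ZMod (2 * m)) = 1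
        rw [hx, Int.cast_one]
      · exact ih h1 hw' s h

end wl

section fam

variable {ι : Type} [Fintype ι] {τ : Fin d} {D : Fin d → ℤ} {w : ι → List (Fin d × Bool)}

lemma fam_Wc {m : ℕ} [NeZero m] (hw : ∀ p, dz 0 (w p) = D) (x : Fin d → ℤ) (c : ι → ℝ)
    (β : ℝ) (t : ℕ) :
    EX μ L β (fun U : Ed d (2 * m) → G => Gc L τ x (x + D) c w t (W793.YM.lf U)) =
      Wc μ L τ (zt (2 * m) (Pi.single τ 1)) (zt (2 * m) (Pi.single τ 1 + D)) β
        (PS L c (fun p => wl (2 * m) (Pi.single τ 1) (w p))) t := by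
  have hP : ∀ p, isP (zt (2 * m) (Pi.single τ 1)) (wl (2 * m) (Pi.single τ 1) (w p))
      (zt (2 * m) (Pi.single τ 1 + D)) := by
    intro p
    have h1 := isP_wl (l := 2 * m) (Pi.single τ 1) (w p)
    have h2 : dz (Pi.single τ 1) (w p) = Pi.single τ 1 + D := by
      have := dz_add 0 (Pi.single τ 1) (w p)
      rw [zero_add, hw p] at this
      rw [this, add_comm]
    rwa [h2] at h1
  rw [Wc_Gc μ τ (Pi.single τ 1) (Pi.single τ 1 + D) c _ hP β t]
  simp only [stp_wl]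
  have h3 := EX_Gc_tr μ (L := L) (l := 2 * m) β τ (Pi.single τ 1) (Pi.single τ 1 + D)
    (x - Pi.single τ 1) c w t
  have h4 : (Pi.single τ 1 + (x - Pi.single τ 1) : Fin d → ℤ) = x := by abel
  have h5 : (Pi.single τ 1 + D + (x - Pi.single τ 1) : Fin d → ℤ) = x + D := by abel
  rw [h4, h5] at h3
  exact h3

lemma fam_isS {m : ℕ} [NeZero m] (hw : ∀ p, dz 0 (w p) = D) (hτ : ∀ p, ∀ e ∈ w p, e.1 ≠ τ)
    (c : ι → ℝ) : IsS (G := G) L τ (zt (2 * m) (Pi.single τ 1)) (zt (2 * m) (Pi.single τ 1 + D))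
      (PS L c (fun p => wl (2 * m) (Pi.single τ 1) (w p))) := by
  refine PS_isS (fun p => ?_) (fun p => lay_wl (Pi.single_eq_same _ _) (hτ p))
  have h1 := isP_wl (l := 2 * m) (Pi.single τ 1) (w p)
  have h2 : dz (Pi.single τ 1) (w p) = Pi.single τ 1 + D := by
    have := dz_add 0 (Pi.single τ 1) (w p)
    rw [zero_add, hw p] at this
    rw [this, add_comm]
  rwa [h2] at h1

lemma zt_one {m : ℕ} : zt (2 * m) (Pi.single τ 1) τ = 1 := by
  unfold zt
  rw [Pi.single_eq_same, Int.cast_one]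

lemma zt_one' {m : ℕ} (hD : D τ = 0) : zt (2 * m) (Pi.single τ 1 + D) τ = 1 := by
  unfold zt
  rw [Pi.add_apply, Pi.single_eq_same, hD, add_zero, Int.cast_one]

lemma Gc_cont (x y : Fin d → ℤ) (c : ι → ℝ) (t : ℕ) : Continuous (Gc L τ x y c w t) := by
  unfold Gc
  refine continuous_finsetSum _ fun p _ => continuous_finsetSum _ fun p' _ => ?_
  refine continuous_const.mul (rt_cont.comp ?_)
  exact (((hz_cont _ _).mul (hz_cont _ _)).mul (hz_cont _ _).inv).mul (hz_cont _ _).inv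

variable {β : ℝ} {s : ℕ → ℕ} {Φ : ((Ez d → G) → ℝ) → ℝ}

lemma fam_nn (hβ : 0 ≤ β) (hs : Tendsto s atTop atTop) (hΦ : ∀ F, Continuous F →
      Tendsto (fun k => EX μ L β fun U : Ed d (2 * (s k + 1)) → G => F (W793.YM.lf U)) atTop
        (𝓝 (Φ F))) (hD : D τ = 0) (hw : ∀ p, dz 0 (w p) = D) (hτ : ∀ p, ∀ e ∈ w p, e.1 ≠ τ)
    (x : Fin d → ℤ) (c : ι → ℝ) (t : ℕ) : 0 ≤ Φ (Gc L τ x (x + D) c w t) := by
  refine ge_of_tendsto (hΦ _ (Gc_cont x (x + D) c t)) ?_
  filter_upwards [hs.eventually_ge_atTop (t + 1)] with k hk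
  rw [fam_Wc μ hw x c β t]
  exact Wc_nn μ (m := s k + 1) (by omega) hβ (fam_isS hw hτ c) zt_one (zt_one' hD) (by omega)

lemma fam_lc (hβ : 0 ≤ β) (hs : Tendsto s atTop atTop) (hΦ : ∀ F, Continuous F →
      Tendsto (fun k => EX μ L β fun U : Ed d (2 * (s k + 1)) → G => F (W793.YM.lf U)) atTop
        (𝓝 (Φ F))) (hD : D τ = 0) (hw : ∀ p, dz 0 (w p) = D) (hτ : ∀ p, ∀ e ∈ w p, e.1 ≠ τ)
    (x : Fin d → ℤ) (c : ι → ℝ) (t : ℕ) : Φ (Gc L τ x (x + D) c w (t + 1)) ^ 2 ≤
      Φ (Gc L τ x (x + D) c w t) * Φ (Gc L τ x (x + D) c w (t + 2)) := by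
  refine le_of_tendsto_of_tendsto ((hΦ _ (Gc_cont x (x + D) c (t + 1))).pow 2)
    ((hΦ _ (Gc_cont x (x + D) c t)).mul (hΦ _ (Gc_cont x (x + D) c (t + 2)))) ?_
  filter_upwards [hs.eventually_ge_atTop (t + 1)] with k hk
  rw [fam_Wc μ hw x c β t, fam_Wc μ hw x c β (t + 1), fam_Wc μ hw x c β (t + 2)]
  exact W_lc μ (m := s k + 1) (by omega) hβ (fam_isS hw hτ c) zt_one (zt_one' hD) t (by omega)

lemma fam_x (hs : Tendsto s atTop atTop) (hΦ : ∀ F, Continuous F →
      Tendsto (fun k => EX μ L β fun U : Ed d (2 * (s k + 1)) → G => F (W793.YM.lf U)) atTop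
        (𝓝 (Φ F))) (hw : ∀ p, dz 0 (w p) = D)
    (x x' : Fin d → ℤ) (c : ι → ℝ) (t : ℕ) : Φ (Gc L τ x (x + D) c w t) =
      Φ (Gc L τ x' (x' + D) c w t) := by
  refine tendsto_nhds_unique (hΦ _ (Gc_cont x (x + D) c t)) ?_
  refine (hΦ _ (Gc_cont x' (x' + D) c t)).congr fun k => ?_
  rw [fam_Wc μ hw x c β t, fam_Wc μ hw x' c β t]

end fam

end

end Pool.Agent.Y15
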