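import Mathlib
import Pool.Agent.Y15.PotF

/-!
# The static potential and the string tension in the infinite volume
-/

open MeasureTheory Matrix Filter
open scoped Matrix.Norms.Frobenius Topology
open Pool.Agent.H906R3.YM hiding Pl
open Pool.Agent.W793.YM Pool.Agent.TH618.YM

namespace Pool.Agent.Y15

set_option linter.unusedSectionVars false
set_option linter.unusedVariables false

noncomputable section

variable {G : Type*} [Group G] [TopologicalSpace G]
  [IsTopologicalGroup G] [CompactSpace G] [SecondCountableTopology G] [MeasurableSpace G]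
  [BorelSpace G] (μ : Measure G) [IsProbabilityMeasure μ] [μ.IsMulLeftInvariant]
  [μ.IsMulRightInvariant] [μ.IsInvInvariant] {N n' : ℕ} {L : LD G N n'}
  {d : ℕ}

/-- **The static potential and the string tension at weak coupling.** -/
theorem pot15 (hN : 1 ≤ N) (hd : 3 ≤ d) :
    ∃ C β₀ : ℝ, 0 < C ∧ 3 ≤ β₀ ∧ ∀ β : ℝ, β₀ ≤ β → ∀ (i j : Fin d), i ≠ j →
      ∀ (w : ℕ → ℕ → ℝ) (s : ℕ → ℕ), Tendsto s atTop atTop →
      (∀ R T, Tendsto (fun k => wR2 μ L (s k + 1) β i j R T) atTop (𝓝 (w R T))) →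
      (∀ R T, 0 < w R T) ∧
      (∀ R T : ℕ, 1 - C * Real.log β ^ 2 * (R + T) / β ≤ w R T) ∧
      ∃ (P : ℕ → ℝ) (σ : ℝ),
        (∀ R, Tendsto (fun T : ℕ => -Real.log (w R T) / T) atTop (𝓝 (P R))) ∧
        Tendsto (fun R : ℕ => P R / R) atTop (𝓝 σ) ∧
        (∀ R : ℕ, 1 ≤ R → P R ≤ C * ((1 + Real.log R) / β + Real.log β ^ 3 * R / β ^ 2)) ∧
        0 ≤ σ ∧ σ ≤ C * Real.log β ^ 3 / β ^ 2 := by
  have hN1 : (1 : ℝ) ≤ N := by exact_mod_cast hN
  have hN0 : (0 : ℝ) < N := by linarith
  obtain ⟨c, hc⟩ : ∃ c, c = cN N := ⟨_, rfl⟩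
  obtain ⟨A, hA⟩ : ∃ A, A = cA N := ⟨_, rfl⟩
  have hc0 : 0 < c := by rw [hc]; exact cN_pos hN
  have hA0 : 0 < A := by rw [hA]; exact cA_pos hN
  obtain ⟨C0, hC0⟩ : ∃ C0 : ℝ, C0 = 400 * A ^ 2 + 3 + 36864 * c := ⟨_, rfl⟩
  have hA2 := sq_nonneg A
  have hC03 : 3 ≤ C0 := by rw [hC0]; linarith
  have hC0pos : 0 < C0 := by linarith
  obtain ⟨C, hC⟩ : ∃ C : ℝ, C = C0 * (1 + 73728 * c) := ⟨_, rfl⟩
  have hCC0 : C0 ≤ C := by
    rw [hC]
    exact le_mul_of_one_le_right hC0pos.le (by linarith)
  have hCpos : 0 < C := by linarith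
  -- the threshold
  have hlit := (Real.isLittleO_pow_log_id_atTop (n := 2)).bound (c := 1 / C0) (by positivity)
  obtain ⟨β₁, hβ₁⟩ := eventually_atTop.1 hlit
  refine ⟨C, max β₁ 3, by linarith, le_max_right _ _, fun β hβ i j hij w s hs hw => ?_⟩
  have hβ3 : 3 ≤ β := (le_max_right _ _).trans hβ
  have hβ0 : 0 < β := by linarith
  obtain ⟨l, hl⟩ : ∃ l, l = Real.log β := ⟨_, rfl⟩
  rw [← hl]
  have hl1 : 1 ≤ l := by
    rw [hl, Real.le_log_iff_exp_le hβ0]
    have := Real.exp_one_lt_d9
    linarith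
  have hCβ : C0 * l ^ 2 ≤ β := by
    have h1 := hβ₁ β ((le_max_left _ _).trans hβ)
    simp only [id, Real.norm_eq_abs] at h1
    rw [abs_of_nonneg (by positivity), abs_of_nonneg hβ0.le, ← hl, one_div,
      ← div_eq_inv_mul, le_div_iff₀ hC0pos] at h1
    linarith
  have hl4 : 1 ≤ l ^ 2 := one_le_pow₀ hl1
  -- properties of the limit
  have hev : ∀ K : ℕ, ∀ᶠ k in atTop, K < s k + 1 := fun K => by
    filter_upwards [hs.eventually_ge_atTop K] with k hk
    omega
  have w0 : ∀ T, w 0 T = 1 := fun T => by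
    refine tendsto_nhds_unique (hw 0 T) ?_
    simp only [wR2_zero μ hN]
    exact tendsto_const_nhds
  have w0' : ∀ R, w R 0 = 1 := fun R => by
    refine tendsto_nhds_unique (hw R 0) ?_
    have : ∀ k, wR2 μ L (s k + 1) β i j R 0 = 1 := fun k => by
      rw [wR2_swap, wR2_zero μ hN]
    simp only [this]
    exact tendsto_const_nhds
  have wle : ∀ R T, w R T ≤ 1 := fun R T =>
    le_of_tendsto' (hw R T) fun k => wR2_le μ hN _ _ _ _ _
  have wc : ∀ R T, w (R + 1) T ^ 2 ≤ w R T * w (R + 2) T := fun R T => by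
    refine le_of_tendsto_of_tendsto ((hw (R + 1) T).pow 2) ((hw R T).mul (hw (R + 2) T)) ?_
    filter_upwards [hev (R + 2)] with k hk
    exact wR2_cs μ (by omega) hij hβ0.le (by omega) T
  have wc' : ∀ R T, w R (T + 1) ^ 2 ≤ w R T * w R (T + 2) := fun R T => by
    refine le_of_tendsto_of_tendsto ((hw R (T + 1)).pow 2) ((hw R T).mul (hw R (T + 2))) ?_
    filter_upwards [hev (T + 2)] with k hk
    rw [wR2_swap μ β i j R (T + 1), wR2_swap μ β i j R T, wR2_swap μ β i j R (T + 2)]
    exact wR2_cs μ (by omega) hij.symm hβ0.le (by omega) R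
  -- from the distance to the expectation
  have hfrom : ∀ (m : ℕ) [NeZero m] (R T : ℕ) (y : ℝ), uu μ L m β i j R T ≤ y →
      1 - y ^ 2 / 2 ≤ wR2 μ L m β i j R T := by
    intro m _ R T y hy
    have h1 := uu_sq μ (L := L) (m := m) (β := β) hN i j R T
    have h2 := pow_le_pow_left₀ (uu_nonneg μ (L := L) (m := m) (β := β) i j R T) hy 2
    have h3 := wR2_le μ (L := L) (m := m) hN β i j R T
    rw [h1] at h2
    have h4 : 1 * (1 - wR2 μ L m β i j R T) ≤ N * (1 - wR2 μ L m β i j R T) :=
      mul_le_mul_of_nonneg_right hN1 (by linarith)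
    linarith
  have hlow : ∀ R T K : ℕ, R ≤ K → T ≤ K → 3 * (K : ℝ) ≤ β →
      1 - A ^ 2 * l ^ 2 * K / β ≤ w R T := by
    intro R T K hR hT hK
    refine ge_of_tendsto (hw R T) ?_
    filter_upwards [hev (K + 2)] with k hk
    have h1 := tor_low' μ (L := L) hN hd hβ3 (s k + 1) (by omega) hij R T K hR hT hK (by omega)
    have h2 := hfrom (s k + 1) R T _ h1
    refine le_trans ?_ h2
    rw [← hA, ← hl, mul_pow, mul_pow, Real.sq_sqrt (by positivity)]
    have h3 : 0 ≤ A ^ 2 * l ^ 2 * K / β := by positivity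
    have h4 : A ^ 2 * l ^ 2 * (K / β) = A ^ 2 * l ^ 2 * K / β := by ring
    rw [h4]
    linarith
  have h11 : 0 < w 1 1 := by
    have h1 := hlow 1 1 1 le_rfl le_rfl (by push_cast; linarith)
    have h2 : A ^ 2 * l ^ 2 * (1 : ℕ) / β ≤ 1 / 400 := by
      rw [div_le_iff₀ hβ0]
      push_cast
      have : 400 * (A ^ 2 * l ^ 2) ≤ C0 * l ^ 2 := by
        rw [← mul_assoc]
        exact mul_le_mul_of_nonneg_right (by rw [hC0]; linarith) (by positivity)
      linarith
    linarith
  obtain ⟨hpos, P, σ, hPl, hσl, hσ0, hPle, hσle⟩ := double w0 w0' wle wc wc' h11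
  -- the potential
  have hpot : ∀ R : ℕ, 1 ≤ R → C0 * l ^ 2 * R ≤ β → P R ≤ 18432 * c * (1 + Real.log R) / β := by
    intro R hR1 hRβ
    have hR0 : (1 : ℝ) ≤ R := by exact_mod_cast hR1
    have hlR : 0 ≤ Real.log R := Real.log_nonneg hR0
    have hRC : C0 * R ≤ β := by
      refine le_trans ?_ hRβ
      rw [mul_assoc]
      refine mul_le_mul_of_nonneg_left ?_ hC0pos.le
      exact le_mul_of_one_le_left (by positivity) hl4
    have hR3 : 3 * (R : ℝ) ≤ β :=
      (mul_le_mul_of_nonneg_right hC03 (by positivity)).trans hRC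
    have hRl : Real.log R ≤ l := by
      rw [hl]
      exact Real.log_le_log (by linarith) (by linarith)
    obtain ⟨x, hx⟩ : ∃ x : ℝ, x = β / (18432 * c * (1 + Real.log R)) := ⟨_, rfl⟩
    have hden : 0 < 18432 * c * (1 + Real.log R) := by positivity
    have hx1 : 1 ≤ x := by
      rw [hx, le_div_iff₀ hden, one_mul]
      have h1 : 1 + Real.log R ≤ 2 * l ^ 2 := by
        have : l ≤ l ^ 2 := by
          calc l = l ^ 1 := (pow_one l).symm
            _ ≤ l ^ 2 := pow_le_pow_right₀ hl1 (by norm_num)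
        linarith
      calc 18432 * c * (1 + Real.log R) ≤ 18432 * c * (2 * l ^ 2) :=
            mul_le_mul_of_nonneg_left h1 (by positivity)
        _ = 36864 * c * l ^ 2 := by ring
        _ ≤ C0 * l ^ 2 := mul_le_mul_of_nonneg_right (by rw [hC0]; linarith) (by positivity)
        _ ≤ β := hCβ
    obtain ⟨T, hT⟩ : ∃ T : ℕ, T = ⌊x⌋₊ := ⟨_, rfl⟩
    have hTx : (T : ℝ) ≤ x := by rw [hT]; exact Nat.floor_le (by linarith)
    have hxT : x < T + 1 := by rw [hT]; exact Nat.lt_floor_add_one _
    have hT1 : 1 ≤ T := by rw [hT]; exact Nat.le_floor (by exact_mod_cast hx1)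
    have hT1R : (1 : ℝ) ≤ T := by exact_mod_cast hT1
    have hT0 : (0 : ℝ) < T := by linarith
    have hwT : 1 - 9 / 32 ≤ w R T := by
      refine ge_of_tendsto (hw R T) ?_
      filter_upwards [hev (R + T + 2)] with k hk
      have h1 := tor_pot μ (L := L) hN hd hβ3 (s k + 1) (by omega) hij R T hR1
        (by
          rw [← hA, ← hl]
          refine le_trans ?_ hRβ
          refine mul_le_mul_of_nonneg_right (mul_le_mul_of_nonneg_right ?_ (by positivity))
            (by positivity)
          rw [hC0]; linarith) hR3 hT1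
        (by
          rw [← hc]
          have := mul_le_mul_of_nonneg_left hTx hden.le
          rw [hx, mul_div_cancel₀ _ hden.ne'] at this
          exact this) (by omega) (by omega)
      have h2 := hfrom (s k + 1) R T _ h1
      norm_num at h2 ⊢
      linarith
    have hlg : -Real.log (w R T) ≤ 1 / 2 := by
      have f1 := Real.log_le_log (by norm_num : (0 : ℝ) < 1 - 9 / 32) hwT
      have f2 := neg_log_le (E := 9 / 32) (by norm_num) (by norm_num)
      norm_num at f1 f2 ⊢
      linarith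
    calc P R ≤ -Real.log (w R T) / T := hPle R T hT1
      _ ≤ 1 / 2 / T := div_le_div_of_nonneg_right hlg hT0.le
      _ ≤ 1 / x := by
        rw [div_div, div_le_div_iff₀ (by positivity) (by linarith)]
        linarith
      _ = _ := by rw [hx, one_div_div]
  -- the ratio decreases
  have hP00 : P 0 = 0 := by
    refine tendsto_nhds_unique (hPl 0) ?_
    simp only [w0, Real.log_one, neg_zero, zero_div]
    exact tendsto_const_nhds
  have hPc : ∀ R, P R + P (R + 2) ≤ 2 * P (R + 1) := by
    intro R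
    refine le_of_tendsto_of_tendsto' ((hPl R).add (hPl (R + 2))) ((hPl (R + 1)).const_mul 2)
      fun T => ?_
    rw [← add_div, ← mul_div_assoc]
    exact div_le_div_of_nonneg_right (log_conc (hpos _ _) (hpos _ _) (hpos _ _) (wc R T))
      (Nat.cast_nonneg _)
  have hPa : ∀ R0 : ℕ, 1 ≤ R0 → ∀ R : ℕ, R0 ≤ R → P R / R ≤ P R0 / R0 := by
    intro R0 hR0 R hR
    induction R, hR using Nat.le_induction with
    | base => exact le_rfl
    | succ k hk ih =>
      refine le_trans ?_ ih
      have hk0 : (0 : ℝ) < k := by exact_mod_cast (by omega : 0 < k)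
      have h1 := concave_mono hP00 hPc k
      rw [div_le_div_iff₀ (by positivity) hk0]
      push_cast
      linarith
  -- the scale
  obtain ⟨y, hy⟩ : ∃ y : ℝ, y = β / (C0 * l ^ 2) := ⟨_, rfl⟩
  have hden : 0 < C0 * l ^ 2 := by positivity
  have hy1 : 1 ≤ y := by rw [hy, le_div_iff₀ hden, one_mul]; exact hCβ
  obtain ⟨R₀, hR₀⟩ : ∃ R₀ : ℕ, R₀ = ⌊y⌋₊ := ⟨_, rfl⟩
  have hR₀y : (R₀ : ℝ) ≤ y := by rw [hR₀]; exact Nat.floor_le (by linarith)
  have hyR₀ : y < R₀ + 1 := by rw [hR₀]; exact Nat.lt_floor_add_one _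
  have hR₀1 : 1 ≤ R₀ := by rw [hR₀]; exact Nat.le_floor (by exact_mod_cast hy1)
  have hslope : P R₀ / R₀ ≤ C * l ^ 3 / β ^ 2 := by
    have hR1R : (1 : ℝ) ≤ R₀ := by exact_mod_cast hR₀1
    have hR0 : (0 : ℝ) < R₀ := by linarith
    have hRβ : C0 * l ^ 2 * R₀ ≤ β := by
      have := mul_le_mul_of_nonneg_left hR₀y hden.le
      rwa [hy, mul_div_cancel₀ _ hden.ne'] at this
    have hlogR : 1 + Real.log R₀ ≤ 2 * l := by
      have : Real.log R₀ ≤ l := by
        rw [hl]
        refine Real.log_le_log hR0 ?_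
        refine le_trans ?_ hRβ
        refine le_mul_of_one_le_left hR0.le ?_
        exact one_le_mul_of_one_le_of_one_le (by linarith) hl4
      linarith
    calc P R₀ / R₀ ≤ 18432 * c * (1 + Real.log R₀) / β / R₀ :=
          div_le_div_of_nonneg_right (hpot R₀ hR₀1 hRβ) hR0.le
      _ ≤ 18432 * c * (2 * l) / β / R₀ := by
          refine div_le_div_of_nonneg_right (div_le_div_of_nonneg_right ?_ hβ0.le) hR0.le
          exact mul_le_mul_of_nonneg_left hlogR (by positivity)
      _ ≤ 18432 * c * (2 * l) / β / (y / 2) := by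
          refine div_le_div_of_nonneg_left (by positivity) (by positivity) ?_
          linarith
      _ = 73728 * c * C0 * l ^ 3 / β ^ 2 := by
          rw [hy]
          field_simp
          ring
      _ ≤ C * l ^ 3 / β ^ 2 := by
          refine div_le_div_of_nonneg_right ?_ (by positivity)
          refine mul_le_mul_of_nonneg_right ?_ (by positivity)
          rw [hC]
          linarith
  refine ⟨hpos, fun R T => ?_, P, σ, hPl, hσl, fun R hR1 => ?_, hσ0,
    (hσle R₀ hR₀1).trans hslope⟩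
  · -- the lower bound for the loops
    rcases le_or_gt (3 * ((max R T : ℕ) : ℝ)) β with h1 | h1
    · refine le_trans ?_ (hlow R T (max R T) (le_max_left _ _) (le_max_right _ _) h1)
      have h2 : ((max R T : ℕ) : ℝ) ≤ R + T := by
        exact_mod_cast (by omega : max R T ≤ R + T)
      have h3 : A ^ 2 * l ^ 2 * ((max R T : ℕ) : ℝ) / β ≤ C * l ^ 2 * (R + T) / β := by
        refine div_le_div_of_nonneg_right ?_ hβ0.le
        refine mul_le_mul ?_ h2 (Nat.cast_nonneg _) (by positivity)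
        refine mul_le_mul_of_nonneg_right ?_ (by positivity)
        rw [hC0] at hCC0
        linarith
      linarith
    · have h2 : ((max R T : ℕ) : ℝ) ≤ R + T := by
        exact_mod_cast (by omega : max R T ≤ R + T)
      have h3 : 1 ≤ C * l ^ 2 * (R + T) / β := by
        rw [le_div_iff₀ hβ0, one_mul]
        calc β ≤ 3 * ((max R T : ℕ) : ℝ) := h1.le
          _ ≤ C * l ^ 2 * (R + T) := by
            refine mul_le_mul ?_ h2 (Nat.cast_nonneg _) (by positivity)
            have : C ≤ C * l ^ 2 := le_mul_of_one_le_right (by linarith) hl4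
            linarith
      have := (hpos R T).le
      linarith
  · -- the potential
    have hR1R : (1 : ℝ) ≤ R := by exact_mod_cast hR1
    have hR0 : (0 : ℝ) < R := by linarith
    have hlR : 0 ≤ Real.log R := Real.log_nonneg hR1R
    rcases le_or_gt (C0 * l ^ 2 * R) β with h1 | h1
    · refine (hpot R hR1 h1).trans ?_
      have h2 : 18432 * c ≤ C := by
        rw [hC]
        have : 1 * (18432 * c) ≤ C0 * (1 + 73728 * c) :=
          mul_le_mul (by linarith) (by linarith) (by positivity) hC0pos.le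
        linarith
      have h3 : 18432 * c * (1 + Real.log R) / β ≤ C * ((1 + Real.log R) / β) := by
        rw [mul_div_assoc]
        exact mul_le_mul_of_nonneg_right h2 (by positivity)
      have h4 : 0 ≤ l ^ 3 * R / β ^ 2 := by positivity
      exact h3.trans (mul_le_mul_of_nonneg_left (le_add_of_nonneg_right h4) hCpos.le)
    · have h2 : R₀ ≤ R := by
        have h3 : y < R := by rw [hy, div_lt_iff₀ hden]; linarith
        have h4 : (R₀ : ℝ) < R := lt_of_le_of_lt hR₀y h3
        exact_mod_cast h4.le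
      have h5 := (hPa R₀ hR₀1 R h2).trans hslope
      rw [div_le_iff₀ hR0] at h5
      refine h5.trans ?_
      have h6 : 0 ≤ (1 + Real.log R) / β := by positivity
      have h7 : C * l ^ 3 / β ^ 2 * R = C * (l ^ 3 * R / β ^ 2) := by ring
      rw [h7]
      exact mul_le_mul_of_nonneg_left (le_add_of_nonneg_left h6) hCpos.le

end

end Pool.Agent.Y15
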